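import Mathlib
import Pool.Agent.Lib.MP_ec260d_nt.ZDefs

/-!
# Definitions for theorem B (relations between ordinates at nearby indices)
-/

namespace Pool.Agent.Lib.MP_ec260d_ntB

open Complex Set Filter Topology MeasureTheory

noncomputable section

/-- the mean spacing of the ordinates near `T` -/
def hT (T : ℝ) : ℝ := 2 * Real.pi / Real.log T

/-- the ends `T ^ (δ e ^ (-j))` of the blocks of primes -/
def xs (δ T : ℝ) (j : ℕ) : ℝ := Real.exp (Real.log T * (δ * Real.exp (-(j : ℝ))))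

/-- the number of blocks -/
def JJ (T : ℝ) : ℕ := ⌈Real.log (Real.log T)⌉₊

/-- the small primes -/
def P0 : Finset ℕ := (Finset.range 10001).filter (fun p => p.Prime)

/-- the `j`-th block of primes -/
def Pr (δ T : ℝ) (j : ℕ) : Finset ℕ :=
  (Finset.range (⌊xs δ T j⌋₊ + 1)).filter (fun p => p.Prime ∧ 10000 < p ∧ xs δ T (j + 1) < p)

/-- the degree of truncation in the `j`-th block -/
def dd (δ : ℝ) (j : ℕ) : ℕ := ⌈(δ * Real.exp (-(j : ℝ))) ^ (-(3 / 4) : ℝ)⌉₊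

/-- prime sum of the `j`-th block -/
def Pj (δ T : ℝ) (j : ℕ) (s : ℂ) : ℂ := ∑ p ∈ Pr δ T j, (p : ℂ) ^ (-s)

/-- Euler product of the `j`-th block -/
def Ej (δ T : ℝ) (j : ℕ) (s : ℂ) : ℂ := ∏ p ∈ Pr δ T j, (1 - (p : ℂ) ^ (-s))

/-- truncated Euler product of the `j`-th block -/
def Mj (δ T : ℝ) (j : ℕ) (s : ℂ) : ℂ :=
  ∑ S ∈ (Pr δ T j).powerset.filter (fun S => S.card ≤ dd δ j), (-1) ^ S.card * ∏ p ∈ S, (p : ℂ) ^ (-s)

/-- the mollifier -/
def MM (δ T : ℝ) (s : ℂ) : ℂ :=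
  (∏ p ∈ P0, (1 - (p : ℂ) ^ (-s))) * ∏ j ∈ Finset.range (JJ T), Mj δ T j s

/-- the logarithm of the inverse of the Euler product over the primes up to `T ^ δ` -/
def PP (δ T : ℝ) (s : ℂ) : ℂ :=
  (∑ p ∈ P0, -Complex.log (1 - (p : ℂ) ^ (-s))) +
    ∑ j ∈ Finset.range (JJ T), ∑ p ∈ Pr δ T j, -Complex.log (1 - (p : ℂ) ^ (-s))

/-- the point `1 / 2 + W / log T + i t` -/
def sW (W T t : ℝ) : ℂ := ((1 / 2 + W / Real.log T : ℝ) : ℂ) + t * I

/-- the approximation of the argument of zeta -/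
def YY (δ W T t : ℝ) : ℝ := (1 / Real.pi) * (PP δ T (sW W T t)).im

/-- the contribution of the primes of the `j`-th block -/
def YB (δ W T : ℝ) (j : ℕ) (t : ℝ) : ℝ := (1 / Real.pi) * (Pj δ T j (sW W T t)).im

/-- the smooth part of the number of zeros -/
def LL (t : ℝ) : ℝ := t / (2 * Real.pi) * Real.log (t / (2 * Real.pi)) - t / (2 * Real.pi)

/-- the number of zeros as a real number -/
def NN (t : ℝ) : ℝ := (Pool.Agent.Lib.MP_ec260d_nt.zeroCount t : ℝ)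

/-- mean square over `[T/2, 3T]` of a function of `1/2 + x + i t` -/
def MS (T : ℝ) (F : ℂ → ℂ) (x : ℝ) : ℝ :=
  (1 / T) * ∫ t in (T / 2)..(3 * T), ‖F (((1 / 2 + x : ℝ) : ℂ) + t * I)‖ ^ 2

end

end Pool.Agent.Lib.MP_ec260d_ntB
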