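import Mathlib
import Pool.Agent.Lib.MP_ec260d_ntB.Defs

/-!
# Definitions for module A (the mollified second moment)
-/

namespace Pool.Agent.Lib.MP_ec260d_ntB.IA

open Complex Set Filter Topology MeasureTheory

noncomputable section

/-- the primes of the mollifier -/
def QQ (δ T : ℝ) : Finset ℕ := P0 ∪ (Finset.range (JJ T)).biUnion (Pr δ T)

/-- the sets of primes of the mollifier: at most `dd δ j` primes in the `j`-th block -/
def HH (δ T : ℝ) : Finset (Finset ℕ) :=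
  (QQ δ T).powerset.filter (fun H => ∀ j ∈ Finset.range (JJ T), (H ∩ Pr δ T j).card ≤ dd δ j)

/-- the product of a set of primes -/
def hp (H : Finset ℕ) : ℕ := ∏ p ∈ H, p

/-- truncated product over a set of primes -/
def bj (A : Finset ℕ) (d : ℕ) (w : ℂ) : ℂ :=
  ∑ S ∈ A.powerset.filter (fun S => S.card ≤ d), (-1) ^ S.card * ∏ p ∈ S, (p : ℂ) ^ w

/-- `∑_(h | n) a_h h^w` -/
def bn (δ T : ℝ) (n : ℕ) (w : ℂ) : ℂ :=
  ∑ H ∈ (HH δ T).filter (fun H => H ⊆ n.primeFactors), (-1) ^ H.card * (hp H : ℂ) ^ w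

/-- smooth cutoff: `1` for `x ≤ 96/100`, `0` for `x ≥ 99/100` -/
def Th (x : ℝ) : ℝ := Real.smoothTransition ((99 / 100 - x) * (100 / 3))

/-- the smoothed partial sum of the zeta series -/
def DD (T : ℝ) (s : ℂ) : ℂ :=
  ∑ m ∈ Finset.Icc 1 ⌊T⌋₊, (Th (Real.log m / Real.log T) : ℂ) * (m : ℂ) ^ (-s)

/-- the coefficients of `DD (s + z / log T) * MM (s + α' / log T)` -/
def cn (δ T : ℝ) (z : ℂ) (α' : ℝ) (n : ℕ) : ℂ :=
  ∑ H ∈ (HH δ T).filter (fun H => H ⊆ n.primeFactors),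
    (-1) ^ H.card * (Th (Real.log (n / hp H) / Real.log T) : ℂ) *
      (((n : ℝ) / hp H : ℝ) : ℂ) ^ (-(z / Real.log T)) * (hp H : ℂ) ^ (-((α' : ℂ) / Real.log T))

/-- Fourier transform of the (compactly supported) cutoff -/
def fh (ξ : ℝ) : ℂ :=
  ∫ x : ℝ, ((Th x * Real.smoothTransition (x + 1) : ℝ) : ℂ) * cexp (-(2 * Real.pi * ξ * x * I))

/-- the kernel `∫ (1 - Th x) exp (-(c + 2 π i ξ) x) dx` -/
def kk (c ξ : ℝ) : ℂ := ∫ x : ℝ, ((1 - Th x : ℝ) : ℂ) * cexp (-(((c : ℂ) + 2 * Real.pi * ξ * I) * x))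

/-- the remainder from the pole -/
def RR (T : ℝ) (s : ℂ) : ℂ :=
  1 / (1 - s) * ∫ u : ℝ, ((deriv Th u : ℝ) : ℂ) * cexp (Real.log T * (1 - s) * u)

/-- the point `1/2 + (α + i τ)/log T + i t` -/
def zp (T α τ t : ℝ) : ℂ := 1 / 2 + ((α : ℂ) + τ * I) / Real.log T + t * I

/-- the mean square of `ζ M` on two vertical lines -/
def FL (δ T α' α τ : ℝ) : ENNReal :=
  ∫⁻ t in Icc (T / 2) (3 * T), ENNReal.ofReal (‖riemannZeta (zp T α τ t) * MM δ T (zp T α' 0 t)‖ ^ 2)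

end

end Pool.Agent.Lib.MP_ec260d_ntB.IA
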