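import Mathlib
import Pool.Agent.Lib.MP_ec260d_ntB.Defs
import Pool.Agent.Lib.MP_2c5684_nt.Mertens

/-!
# Sums over primes
-/

namespace Pool.Agent.Lib.MP_ec260d_ntB

open Complex Set Filter Topology MeasureTheory

/-- the exponents of the blocks -/
noncomputable def bet (δ : ℝ) (j : ℕ) : ℝ := δ * Real.exp (-(j : ℝ))

theorem bet_pos {δ : ℝ} (hδ : 0 < δ) (j : ℕ) : 0 < bet δ j := mul_pos hδ (Real.exp_pos _)

theorem bet_le {δ : ℝ} (hδ : 0 < δ) (j : ℕ) : bet δ j ≤ δ := by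
  unfold bet
  have h : Real.exp (-(j : ℝ)) ≤ 1 := Real.exp_le_one_iff.2 (by simp)
  nlinarith

theorem bet_succ (δ : ℝ) (j : ℕ) : bet δ j = Real.exp 1 * bet δ (j + 1) := by
  unfold bet
  push_cast
  rw [neg_add, Real.exp_add, Real.exp_neg 1]
  have := (Real.exp_pos 1).ne'
  field_simp

theorem xs_eq (δ T : ℝ) (j : ℕ) : xs δ T j = Real.exp (Real.log T * bet δ j) := rfl

theorem log_xs (δ T : ℝ) (j : ℕ) : Real.log (xs δ T j) = Real.log T * bet δ j := by
  rw [xs_eq, Real.log_exp]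

theorem xs_pos (δ T : ℝ) (j : ℕ) : 0 < xs δ T j := Real.exp_pos _

theorem mem_Pr {δ T : ℝ} {j p : ℕ} : p ∈ Pr δ T j ↔
    p.Prime ∧ 10000 < p ∧ xs δ T (j + 1) < p ∧ (p : ℝ) ≤ xs δ T j := by
  unfold Pr
  rw [Finset.mem_filter, Finset.mem_range, Nat.lt_succ_iff, Nat.le_floor_iff (xs_pos δ T j).le]
  tauto

theorem a0_log (P : Finset ℕ) (b : ℝ) (hb : 0 ≤ b) (hP : ∀ p ∈ P, p.Prime ∧ Real.log p ≤ b) :
    ∑ p ∈ P, Real.log p / p ≤ b + 8 := by
  have h := MP_2c5684_nt.sum_log_div_le P 0 b le_rfl hb fun p hp => ⟨(hP p hp).1,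
    Real.log_pos (by exact_mod_cast (hP p hp).1.one_lt), (hP p hp).2⟩
  linarith

theorem a0_logsq (P : Finset ℕ) (b : ℝ) (hb : 0 ≤ b) (hP : ∀ p ∈ P, p.Prime ∧ Real.log p ≤ b) :
    ∑ p ∈ P, Real.log p ^ 2 / p ≤ b * (b + 8) := by
  calc ∑ p ∈ P, Real.log p ^ 2 / p ≤ ∑ p ∈ P, b * (Real.log p / p) := by
        refine Finset.sum_le_sum fun p hp => ?_
        have h1 : 0 ≤ Real.log p := Real.log_natCast_nonneg p
        have h2 : 0 ≤ Real.log p / p := by positivity
        calc Real.log p ^ 2 / p = Real.log p * (Real.log p / p) := by ring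
          _ ≤ b * (Real.log p / p) := mul_le_mul_of_nonneg_right (hP p hp).2 h2
    _ = b * ∑ p ∈ P, Real.log p / p := by rw [Finset.mul_sum]
    _ ≤ b * (b + 8) := mul_le_mul_of_nonneg_left (a0_log P b hb hP) hb

theorem a0_inv (P : Finset ℕ) (a b : ℝ) (ha : 0 < a) (hab : a ≤ b)
    (hP : ∀ p ∈ P, p.Prime ∧ a < Real.log p ∧ Real.log p ≤ b) :
    ∑ p ∈ P, 1 / (p : ℝ) ≤ (b - a + 8) / a := by
  have h := MP_2c5684_nt.sum_log_div_le P a b ha.le hab hP
  rw [le_div_iff₀ ha, Finset.sum_mul]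
  refine le_trans (Finset.sum_le_sum fun p hp => ?_) h
  have hp0 : (0 : ℝ) < p := by exact_mod_cast (hP p hp).1.pos
  rw [div_mul_eq_mul_div, one_mul]
  exact div_le_div_of_nonneg_right (hP p hp).2.1.le hp0.le

theorem a0_inv_log (P : Finset ℕ) (a b : ℝ) (ha : 1 / 2 ≤ a) (hab : a ≤ b)
    (hP : ∀ p ∈ P, p.Prime ∧ a < Real.log p ∧ Real.log p ≤ b) :
    ∑ p ∈ P, 1 / (p : ℝ) ≤ 19 * (2 + Real.log (b / a)) := by
  classical
  have ha0 : 0 < a := by linarith
  have hb0 : 0 < b := by linarith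
  have hba : 1 ≤ b / a := by rwa [le_div_iff₀ ha0, one_mul]
  set N : ℕ := ⌊Real.log (b / a)⌋₊ + 1 with hN
  set f : ℕ → ℕ := fun p => ⌊Real.log (Real.log p / a)⌋₊ with hf
  have hfm : ∀ p ∈ P, f p ∈ Finset.range N := by
    intro p hp
    rw [Finset.mem_range, hN, Nat.lt_succ_iff]
    refine Nat.floor_le_floor (Real.log_le_log (div_pos (ha0.trans (hP p hp).2.1) ha0) ?_)
    exact div_le_div_of_nonneg_right (hP p hp).2.2 ha0.le
  rw [← Finset.sum_fiberwise_of_maps_to hfm]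
  have h18 : ∀ i ∈ Finset.range N, ∑ p ∈ P.filter (fun p => f p = i), 1 / (p : ℝ) ≤ 19 := by
    intro i _
    set c : ℝ := a * Real.exp i with hc
    have hc1 : 1 / 2 ≤ c := by
      have : 1 ≤ Real.exp (i : ℝ) := Real.one_le_exp (Nat.cast_nonneg i)
      nlinarith
    have hc0 : 0 < c := by linarith
    have he : 1 ≤ Real.exp 1 := Real.one_le_exp (by norm_num)
    have h0 : ∀ p ∈ P.filter (fun p => f p = i), c ≤ Real.log p ∧ Real.log p ≤ Real.exp 1 * c := by
      intro p hp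
      rw [Finset.mem_filter] at hp
      obtain ⟨hp1, hp2⟩ := hp
      have hl0 : 0 < Real.log p := ha0.trans (hP p hp1).2.1
      have hla : 1 ≤ Real.log p / a := by
        rw [le_div_iff₀ ha0, one_mul]
        exact (hP p hp1).2.1.le
      have hl1 : 0 ≤ Real.log (Real.log p / a) := Real.log_nonneg hla
      have h3 := Nat.floor_le hl1
      have h4 := Nat.lt_floor_add_one (Real.log (Real.log p / a))
      have hfp : ⌊Real.log (Real.log p / a)⌋₊ = i := hp2
      rw [hfp] at h3 h4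
      constructor
      · have h5 := Real.exp_le_exp.2 h3
        rw [Real.exp_log (by positivity), le_div_iff₀ ha0] at h5
        rw [hc]
        linarith
      · have h5 := Real.exp_le_exp.2 h4.le
        rw [Real.exp_log (by positivity), div_le_iff₀ ha0, Real.exp_add] at h5
        rw [hc]
        linarith
    have h1 := MP_2c5684_nt.sum_log_div_le (P.filter (fun p => f p = i)) (c / 2) (Real.exp 1 * c)
      (by linarith) (by nlinarith) fun p hp => ⟨(hP p (Finset.mem_filter.1 hp).1).1,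
        by linarith [(h0 p hp).1], (h0 p hp).2⟩
    have h2 : c * ∑ p ∈ P.filter (fun p => f p = i), 1 / (p : ℝ) ≤ Real.exp 1 * c - c / 2 + 8 := by
      refine le_trans ?_ h1
      rw [Finset.mul_sum]
      refine Finset.sum_le_sum fun p hp => ?_
      have hp0 : (0 : ℝ) < p := by exact_mod_cast (hP p (Finset.mem_filter.1 hp).1).1.pos
      rw [mul_one_div]
      exact div_le_div_of_nonneg_right (h0 p hp).1 hp0.le
    have he2 : Real.exp 1 < 2.7182818286 := Real.exp_one_lt_d9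
    have h3 : c * ∑ p ∈ P.filter (fun p => f p = i), 1 / (p : ℝ) ≤ c * 18.3 := by nlinarith
    have h4 := le_of_mul_le_mul_left h3 hc0
    linarith
  calc ∑ i ∈ Finset.range N, ∑ p ∈ P.filter (fun p => f p = i), 1 / (p : ℝ)
      ≤ ∑ i ∈ Finset.range N, (19 : ℝ) := Finset.sum_le_sum h18
    _ = 19 * N := by rw [Finset.sum_const, Finset.card_range, nsmul_eq_mul, mul_comm]
    _ ≤ 19 * (2 + Real.log (b / a)) := by
      have h3 := Nat.floor_le (Real.log_nonneg hba)
      have h4 : (N : ℝ) = ⌊Real.log (b / a)⌋₊ + 1 := by rw [hN]; push_cast; ring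
      rw [h4]
      linarith

theorem log10000 : 9 ≤ Real.log 10000 := by
  rw [Real.le_log_iff_exp_le (by norm_num)]
  have h : Real.exp 9 = Real.exp 1 ^ 9 := by rw [← Real.exp_nat_mul]; norm_num
  have h1 : Real.exp 1 < 2.7182818286 := Real.exp_one_lt_d9
  have h0 := Real.exp_pos 1
  rw [h]
  calc Real.exp 1 ^ 9 ≤ 2.7182818286 ^ 9 := pow_le_pow_left₀ h0.le h1.le 9
    _ ≤ 10000 := by norm_num

theorem a0_block (δ : ℝ) {T : ℝ} (hT : 1 ≤ T) (j : ℕ) :
    ∑ p ∈ Pr δ T j, 1 / (p : ℝ) ≤ 3 := by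
  have hl : 0 ≤ Real.log T := Real.log_nonneg hT
  set a : ℝ := max (Real.log 10000) (Real.log T * bet δ (j + 1)) with ha
  set b : ℝ := max a (Real.log T * bet δ j) with hb
  have ha9 : 9 ≤ a := log10000.trans (le_max_left _ _)
  have hab : a ≤ b := le_max_left _ _
  have h := a0_inv (Pr δ T j) a b (by linarith) hab fun p hp => by
    rw [mem_Pr] at hp
    obtain ⟨h1, h2, h3, h4⟩ := hp
    have hp0 : (0 : ℝ) < p := by exact_mod_cast h1.pos
    refine ⟨h1, ?_, ?_⟩
    · rw [ha]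
      refine max_lt (Real.log_lt_log (by norm_num) (by exact_mod_cast h2)) ?_
      rw [← log_xs]
      exact Real.log_lt_log (xs_pos _ _ _) h3
    · rw [hb]
      refine le_max_of_le_right ?_
      rw [← log_xs]
      exact Real.log_le_log hp0 h4
  refine h.trans ?_
  have he2 : Real.exp 1 < 2.7182818286 := Real.exp_one_lt_d9
  rw [div_le_iff₀ (by linarith)]
  have hbb : b ≤ Real.exp 1 * a := by
    rw [hb]
    refine max_le ?_ ?_
    · have : 1 ≤ Real.exp 1 := Real.one_le_exp (by norm_num)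
      nlinarith
    · rw [bet_succ]
      have h1 : Real.log T * bet δ (j + 1) ≤ a := le_max_right _ _
      have h2 := Real.exp_pos 1
      nlinarith
  nlinarith

end Pool.Agent.Lib.MP_ec260d_ntB
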