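import Mathlib
import Pool.Agent.Lib.MP_ec260d_ntB.ADefs
import Pool.Agent.Lib.MP_ec260d_ntB.BA0

/-!
# JOB ASet: the blocks of primes (about 150 lines)

TOOLS from `BA0` (proved): `mem_Pr`, `log_xs`, `xs_pos`, `bet δ j = δ e^(-j)`, `bet_succ`, `log10000 : 9 ≤ log 10000`.

SETUP.  `l = log T > 0`, `xs δ T j = exp (l δ e^(-j))`, strictly decreasing in `j`.  `Pr δ T j`: primes `p > 10000` with `xs (j+1) < p ≤ xs j` (`p ≤ ⌊xs j⌋` iff `p ≤ xs j`).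
* `Pr_log`: take logarithms.
* `Pr_disj`: for `i < j`, `p ∈ Pr i` has `p > xs (i+1) ≥ xs j ≥` every element of `Pr j`.  `P0_disj`: `p ≤ 10000` in `P0`.
* `QQ_cover`: `p ≤ 10000`: in `P0`.  Else `p ≤ xs 0`.  `J = JJ T = ⌈log l⌉₊ ≥ log l`, so `e^(-J) l ≤ 1` and `xs J ≤ e^δ ≤ e < p`.  Let `j` be the least index with `xs (j+1) < p`
  (`Nat.find`; exists, and `j + 1 ≤ J` or (`J = 0`, then `xs 0 ≤ e < p`, contradiction)); minimality gives `p ≤ xs j`.  So `p ∈ Pr j`, `j < J`.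
* `QQ_log`: definition, `xs j ≤ xs 0`.
* `dd_low`: `dd = ⌈(δ e^(-j))^(-3/4)⌉₊`, `(δ e^(-j))^(-3/4) ≥ e^(3j/4) ≥ 1 + 3j/4` for `δ ≤ 1`.
* `dd_sum`: `∑_(j<J) exp (-dd) ≤ ∑ e^(-1) (e^(-3/4))^j ≤ e^(-1)/(1 - e^(-3/4)) ≤ 1`.
* `dd_beta`: `dd δ j * (δ e^(-j)) ≤ ((δe^(-j))^(-3/4) + 1) δ e^(-j) = (δ e^(-j))^(1/4) + δ e^(-j)`; `∑_j e^(-j/4) ≤ 5`, `∑_j e^(-j) ≤ 2`; so the sum is `≤ 5 δ^(1/4) + 2δ ≤ 7 δ^(1/4)`.
* `dd_up`: `(δ e^(-j))^(-3/4) + 1 ≥ dd`.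
-/

namespace Pool.Agent.Lib.MP_ec260d_ntB.IA

open Complex Set Filter Topology MeasureTheory

private theorem aset_bet (δ T : ℝ) (j : ℕ) :
    Real.log T * bet δ (j + 1) = δ * Real.exp (-((j : ℝ) + 1)) * Real.log T := by
  unfold bet
  push_cast
  ring

private theorem aset_bet0 (δ T : ℝ) (j : ℕ) :
    Real.log T * bet δ j = δ * Real.exp (-(j : ℝ)) * Real.log T := by
  unfold bet
  ring

private theorem aset_geom {q : ℝ} (h0 : 0 ≤ q) (h1 : q < 1) (J : ℕ) :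
    ∑ j ∈ Finset.range J, q ^ j ≤ (1 - q)⁻¹ := by
  rw [← tsum_geometric_of_lt_one h0 h1]
  exact (summable_geometric_of_lt_one h0 h1).sum_le_tsum _ (fun m _ => pow_nonneg h0 m)

private theorem aset_exp (x : ℝ) (hx : 0 ≤ x) (a : ℝ) (ha : a * (1 + x + x ^ 2 / 2) ≥ 1) :
    Real.exp (-x) ≤ a := by
  have h1 := Real.quadratic_le_exp_of_nonneg hx
  have h2 : 0 < 1 + x + x ^ 2 / 2 := by positivity
  have ha0 : 0 < a := by
    by_contra h
    have h3 : a * (1 + x + x ^ 2 / 2) ≤ 0 := mul_nonpos_of_nonpos_of_nonneg (by linarith) h2.le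
    linarith
  rw [Real.exp_neg]
  apply inv_le_of_inv_le₀ ha0
  rw [inv_eq_one_div, div_le_iff₀ ha0]
  nlinarith

theorem Pr_prime {δ T : ℝ} {j p : ℕ} (h : p ∈ Pr δ T j) : p.Prime ∧ 10000 < p := by
  rw [mem_Pr] at h
  exact ⟨h.1, h.2.1⟩

theorem Pr_log {δ T : ℝ} (hδ : 0 < δ) (hT : 1 < T) {j p : ℕ} (h : p ∈ Pr δ T j) :
    δ * Real.exp (-((j : ℝ) + 1)) * Real.log T < Real.log p ∧
      Real.log p ≤ δ * Real.exp (-(j : ℝ)) * Real.log T := by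
  rw [mem_Pr] at h
  obtain ⟨h1, h2, h3, h4⟩ := h
  have hp0 : (0 : ℝ) < p := by exact_mod_cast h1.pos
  constructor
  · rw [← aset_bet, ← log_xs]
    exact Real.log_lt_log (xs_pos _ _ _) h3
  · rw [← aset_bet0, ← log_xs]
    exact Real.log_le_log hp0 h4

theorem Pr_disj {δ T : ℝ} (hδ : 0 < δ) (hT : 1 < T) {i j : ℕ} (h : i ≠ j) :
    Disjoint (Pr δ T i) (Pr δ T j) := by
  have hl : 0 < Real.log T := Real.log_pos hT
  have key : ∀ i j : ℕ, i < j → Disjoint (Pr δ T i) (Pr δ T j) := by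
    intro i j hij
    rw [Finset.disjoint_left]
    intro p h1 h2
    have h3 := (Pr_log hδ hT h1).1
    have h4 := (Pr_log hδ hT h2).2
    have h5 : Real.exp (-(j : ℝ)) ≤ Real.exp (-((i : ℝ) + 1)) := by
      apply Real.exp_le_exp.2
      have h6 : ((i + 1 : ℕ) : ℝ) ≤ j := by exact_mod_cast hij
      push_cast at h6
      linarith
    have h7 : δ * Real.exp (-(j : ℝ)) * Real.log T ≤ δ * Real.exp (-((i : ℝ) + 1)) * Real.log T :=
      mul_le_mul_of_nonneg_right (mul_le_mul_of_nonneg_left h5 hδ.le) hl.le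
    linarith
  rcases lt_or_gt_of_ne h with h | h
  · exact key i j h
  · exact (key j i h).symm

theorem P0_disj (δ T : ℝ) (j : ℕ) : Disjoint P0 (Pr δ T j) := by
  rw [Finset.disjoint_left]
  intro p h1 h2
  unfold P0 at h1
  rw [Finset.mem_filter, Finset.mem_range] at h1
  have h3 := (Pr_prime h2).2
  omega

theorem QQ_cover {δ T : ℝ} (hδ : 0 < δ) (hδ1 : δ ≤ 1) (hT : 3 ≤ T) {p : ℕ} (hp : p.Prime)
    (h : Real.log p ≤ δ * Real.log T) : p ∈ QQ δ T := by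
  unfold QQ
  rw [Finset.mem_union]
  by_cases hp1 : p ≤ 10000
  · left
    unfold P0
    rw [Finset.mem_filter, Finset.mem_range]
    exact ⟨by omega, hp⟩
  right
  rw [Finset.mem_biUnion]
  have hp2 : 10000 < p := by omega
  have hp0 : (0 : ℝ) < p := by exact_mod_cast hp.pos
  have hl1 : 1 < Real.log T := by
    rw [Real.lt_log_iff_exp_lt (by linarith)]
    have h1 : Real.exp 1 < 2.7182818286 := Real.exp_one_lt_d9
    linarith
  have hl : 0 < Real.log T := by linarith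
  have hlp : 9 < Real.log p := by
    refine lt_of_le_of_lt log10000 (Real.log_lt_log (by norm_num) ?_)
    exact_mod_cast hp2
  have hJ : xs δ T (JJ T) < p := by
    rw [← Real.log_lt_log_iff (xs_pos _ _ _) hp0, log_xs]
    have h1 : Real.log (Real.log T) ≤ (JJ T : ℝ) := Nat.le_ceil _
    have h2 : Real.exp (-(JJ T : ℝ)) ≤ (Real.log T)⁻¹ := by
      rw [← Real.exp_log (inv_pos.2 hl), Real.log_inv]
      exact Real.exp_le_exp.2 (by linarith)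
    have h3 : Real.log T * bet δ (JJ T) ≤ δ := by
      unfold bet
      calc Real.log T * (δ * Real.exp (-(JJ T : ℝ))) ≤ Real.log T * (δ * (Real.log T)⁻¹) :=
            mul_le_mul_of_nonneg_left (mul_le_mul_of_nonneg_left h2 hδ.le) hl.le
        _ = δ := by field_simp
    linarith
  have h0 : (p : ℝ) ≤ xs δ T 0 := by
    rw [← Real.log_le_log_iff hp0 (xs_pos _ _ _), log_xs]
    unfold bet
    rw [Nat.cast_zero, neg_zero, Real.exp_zero, mul_one, mul_comm]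
    exact h
  classical
  have hex : ∃ k : ℕ, xs δ T k < p := ⟨_, hJ⟩
  have hk := Nat.find_spec hex
  have hkJ : Nat.find hex ≤ JJ T := Nat.find_min' hex hJ
  have hk0 : Nat.find hex ≠ 0 := by
    intro h1
    rw [h1] at hk
    linarith
  obtain ⟨j, hj⟩ := Nat.exists_eq_succ_of_ne_zero hk0
  rw [Nat.succ_eq_add_one] at hj
  have hj2 : (p : ℝ) ≤ xs δ T j := by
    have h1 := Nat.find_min hex (m := j) (by omega)
    exact not_lt.1 h1
  rw [hj] at hk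
  refine ⟨j, Finset.mem_range.2 (by omega), ?_⟩
  rw [mem_Pr]
  exact ⟨hp, hp2, hk, hj2⟩

theorem QQ_log {δ T : ℝ} (hδ : 0 < δ) (hT : 1 < T) {p : ℕ} (h : p ∈ QQ δ T) :
    p.Prime ∧ (p ≤ 10000 ∨ Real.log p ≤ δ * Real.log T) := by
  have hl : 0 < Real.log T := Real.log_pos hT
  unfold QQ at h
  rcases Finset.mem_union.1 h with h | h
  · unfold P0 at h
    rw [Finset.mem_filter, Finset.mem_range] at h
    exact ⟨h.2, Or.inl (by omega)⟩
  · obtain ⟨j, -, h2⟩ := Finset.mem_biUnion.1 h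
    refine ⟨(Pr_prime h2).1, Or.inr ?_⟩
    refine (Pr_log hδ hT h2).2.trans ?_
    refine mul_le_mul_of_nonneg_right ?_ hl.le
    have h3 : Real.exp (-(j : ℝ)) ≤ 1 := by
      rw [Real.exp_le_one_iff]
      have h4 : (0 : ℝ) ≤ j := Nat.cast_nonneg j
      linarith
    nlinarith

theorem dd_low {δ : ℝ} (hδ : 0 < δ) (hδ1 : δ ≤ 1) (j : ℕ) :
    (δ * Real.exp (-(j : ℝ))) ^ (-(3 / 4) : ℝ) ≤ dd δ j ∧ 1 + 3 / 4 * (j : ℝ) ≤ dd δ j := by
  have h0 : 0 < δ * Real.exp (-(j : ℝ)) := mul_pos hδ (Real.exp_pos _)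
  have h1 : (δ * Real.exp (-(j : ℝ))) ^ (-(3 / 4) : ℝ) ≤ dd δ j := Nat.le_ceil _
  refine ⟨h1, le_trans ?_ h1⟩
  have h2 : (Real.exp (-(j : ℝ))) ^ (-(3 / 4) : ℝ) ≤ (δ * Real.exp (-(j : ℝ))) ^ (-(3 / 4) : ℝ) := by
    apply Real.rpow_le_rpow_of_nonpos h0
    · have h3 := Real.exp_pos (-(j : ℝ))
      nlinarith
    · norm_num
  refine le_trans ?_ h2
  rw [← Real.exp_mul]
  have e : -(j : ℝ) * (-(3 / 4)) = 3 / 4 * (j : ℝ) := by ring
  rw [e]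
  have h4 := Real.add_one_le_exp (3 / 4 * (j : ℝ))
  linarith

theorem dd_sum {δ : ℝ} (hδ : 0 < δ) (hδ1 : δ ≤ 1) (J : ℕ) :
    ∑ j ∈ Finset.range J, Real.exp (-(dd δ j : ℝ)) ≤ 1 := by
  have hq0 : 0 ≤ Real.exp (-(3 / 4 : ℝ)) := (Real.exp_pos _).le
  have hq1 : Real.exp (-(3 / 4 : ℝ)) ≤ 1 / 2 := aset_exp _ (by norm_num) _ (by norm_num)
  have hq2 : Real.exp (-(1 : ℝ)) ≤ 1 / 2 := aset_exp _ (by norm_num) _ (by norm_num)
  calc ∑ j ∈ Finset.range J, Real.exp (-(dd δ j : ℝ))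
      ≤ ∑ j ∈ Finset.range J, Real.exp (-(1 : ℝ)) * Real.exp (-(3 / 4 : ℝ)) ^ j := by
        refine Finset.sum_le_sum (fun j _ => ?_)
        rw [← Real.exp_nat_mul, ← Real.exp_add]
        apply Real.exp_le_exp.2
        have h := (dd_low hδ hδ1 j).2
        linarith
    _ = Real.exp (-(1 : ℝ)) * ∑ j ∈ Finset.range J, Real.exp (-(3 / 4 : ℝ)) ^ j := by
        rw [Finset.mul_sum]
    _ ≤ Real.exp (-(1 : ℝ)) * (1 - Real.exp (-(3 / 4 : ℝ)))⁻¹ :=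
        mul_le_mul_of_nonneg_left (aset_geom hq0 (by linarith) J) (Real.exp_pos _).le
    _ ≤ 1 := by
        rw [← div_eq_mul_inv, div_le_one (by linarith)]
        linarith

theorem dd_beta {δ : ℝ} (hδ : 0 < δ) (hδ1 : δ ≤ 1) (J : ℕ) :
    ∑ j ∈ Finset.range J, (dd δ j : ℝ) * (δ * Real.exp (-(j : ℝ))) ≤ 7 * δ ^ (1 / 4 : ℝ) := by
  have hq0 : 0 ≤ Real.exp (-(1 / 4 : ℝ)) := (Real.exp_pos _).le
  have hq1 : Real.exp (-(1 / 4 : ℝ)) ≤ 4 / 5 := aset_exp _ (by norm_num) _ (by norm_num)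
  have hr0 : 0 ≤ Real.exp (-(1 : ℝ)) := (Real.exp_pos _).le
  have hr1 : Real.exp (-(1 : ℝ)) ≤ 1 / 2 := aset_exp _ (by norm_num) _ (by norm_num)
  have hd0 : 0 ≤ δ ^ (1 / 4 : ℝ) := Real.rpow_nonneg hδ.le _
  have hd1 : δ ≤ δ ^ (1 / 4 : ℝ) := by
    have h := Real.rpow_le_rpow_of_exponent_ge hδ hδ1 (show (1 / 4 : ℝ) ≤ 1 by norm_num)
    rwa [Real.rpow_one] at h
  have s1 : ∑ j ∈ Finset.range J, Real.exp (-(1 / 4 : ℝ)) ^ j ≤ 5 := by
    refine (aset_geom hq0 (by linarith) J).trans ?_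
    rw [inv_eq_one_div, div_le_iff₀ (by linarith)]
    linarith
  have s2 : ∑ j ∈ Finset.range J, Real.exp (-(1 : ℝ)) ^ j ≤ 2 := by
    refine (aset_geom hr0 (by linarith) J).trans ?_
    rw [inv_eq_one_div, div_le_iff₀ (by linarith)]
    linarith
  calc ∑ j ∈ Finset.range J, (dd δ j : ℝ) * (δ * Real.exp (-(j : ℝ)))
      ≤ ∑ j ∈ Finset.range J, (δ ^ (1 / 4 : ℝ) * Real.exp (-(1 / 4 : ℝ)) ^ j +
          δ * Real.exp (-(1 : ℝ)) ^ j) := by
        refine Finset.sum_le_sum (fun j _ => ?_)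
        have hb : 0 < δ * Real.exp (-(j : ℝ)) := mul_pos hδ (Real.exp_pos _)
        have h1 : (dd δ j : ℝ) ≤ (δ * Real.exp (-(j : ℝ))) ^ (-(3 / 4) : ℝ) + 1 :=
          (Nat.ceil_lt_add_one (Real.rpow_nonneg hb.le _)).le
        have e1 : Real.exp (-(1 / 4 : ℝ)) ^ j = Real.exp (-(j : ℝ)) ^ (1 / 4 : ℝ) := by
          rw [← Real.exp_nat_mul, ← Real.exp_mul]
          congr 1
          ring
        have e2 : Real.exp (-(1 : ℝ)) ^ j = Real.exp (-(j : ℝ)) := by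
          rw [← Real.exp_nat_mul]
          congr 1
          ring
        have e3 : (δ * Real.exp (-(j : ℝ))) ^ (-(3 / 4) : ℝ) * (δ * Real.exp (-(j : ℝ))) =
            (δ * Real.exp (-(j : ℝ))) ^ (1 / 4 : ℝ) := by
          nth_rewrite 2 [← Real.rpow_one (δ * Real.exp (-(j : ℝ)))]
          rw [← Real.rpow_add hb]
          norm_num
        rw [e1, e2, ← Real.mul_rpow hδ.le (Real.exp_pos _).le, ← e3]
        nlinarith
    _ = δ ^ (1 / 4 : ℝ) * ∑ j ∈ Finset.range J, Real.exp (-(1 / 4 : ℝ)) ^ j +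
          δ * ∑ j ∈ Finset.range J, Real.exp (-(1 : ℝ)) ^ j := by
        rw [Finset.sum_add_distrib, Finset.mul_sum, Finset.mul_sum]
    _ ≤ δ ^ (1 / 4 : ℝ) * 5 + δ * 2 :=
        add_le_add (mul_le_mul_of_nonneg_left s1 hd0) (mul_le_mul_of_nonneg_left s2 hδ.le)
    _ ≤ 7 * δ ^ (1 / 4 : ℝ) := by linarith

end Pool.Agent.Lib.MP_ec260d_ntB.IA
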