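import Mathlib
import Pool.Agent.Lib.MP_ec260d_ntB.ASet

/-!
# JOB AExp: expansion of products of truncated products (about 150 lines)

* `expand`.  Let `A₀`, `A_j` (`j < J`) be pairwise disjoint.  The left side is `(∏_(p ∈ A₀)(1 - x p)) ∏_(j<J) ∑_(S ⊆ A_j, |S| ≤ d_j) (-1)^|S| ∏_(p ∈ S) x p`.
  PROOF by induction on `J`.  `J = 0`: `Finset.prod_sub`/`Finset.prod_one_sub...` (`∏ (1 - x p) = ∑_(H ⊆ A₀) (-1)^|H| ∏_(p∈H) x p`, e.g. `Finset.prod_add` with `f = 1`, `g = -x`, or
  `Finset.prod_one_add`).  Step: multiply by `∑_(S ⊆ A_J, |S| ≤ d_J)`: the map `(H, S) ↦ H ∪ S` is a bijection from the product of the index sets onto the sets `H' ⊆ A₀ ∪ ⋃_(j ≤ J) A_j` with the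
  conditions (inverse `H' ↦ (H' \ A_J, H' ∩ A_J)`), `|H ∪ S| = |H| + |S|`, products multiply (`Finset.prod_union`), and `(H ∪ S) ∩ A_j = H ∩ A_j` for `j < J`.
* `MM_eq`: `expand` with `x p = p^(-s)`, `A₀ = P0`, `A_j = Pr j`, `d = dd δ`; `(hp H)^(-s) = ∏_(p ∈ H) p^(-s)` (`Nat.cast_prod`, `Complex.natCast_mul_natCast_cpow` by induction).
* `bn_eq`: `expand` with `x p = p^w`, `A₀ = P0 ∩ n.primeFactors`, `A_j = n.primeFactors ∩ Pr j`; for `H ⊆ n.primeFactors` one has `H ∩ (n.primeFactors ∩ Pr j) = H ∩ Pr j` and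
  `H ⊆ QQ ↔ H ⊆ A₀ ∪ ⋃ A_j`.
-/

namespace Pool.Agent.Lib.MP_ec260d_ntB.IA

open Complex Set Filter Topology MeasureTheory

private theorem AExp_step (U B : Finset ℕ) (hUB : Disjoint U B) (x : ℕ → ℂ) (d : ℕ) (Q : Finset ℕ → Prop)
    [DecidablePred Q] (hQ : ∀ H ⊆ U, ∀ S ⊆ B, (Q (H ∪ S) ↔ Q H)) :
    (∑ H ∈ U.powerset.filter Q, (-1) ^ H.card * ∏ p ∈ H, x p) *
        (∑ S ∈ B.powerset.filter (fun S => S.card ≤ d), (-1) ^ S.card * ∏ p ∈ S, x p) =
      ∑ H ∈ (U ∪ B).powerset.filter (fun H => Q H ∧ (H ∩ B).card ≤ d), (-1) ^ H.card * ∏ p ∈ H, x p := by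
  classical
  rw [Finset.sum_mul_sum, ← Finset.sum_product']
  have key : ∀ H ⊆ U, ∀ S ⊆ B, Disjoint H S ∧ (H ∪ S) \ B = H ∧ (H ∪ S) ∩ B = S := by
    intro H hH S hS
    have h1 : Disjoint H S := Finset.disjoint_of_subset_left hH (Finset.disjoint_of_subset_right hS hUB)
    have h2 : Disjoint H B := Finset.disjoint_of_subset_left hH hUB
    refine ⟨h1, ?_, ?_⟩
    · ext a
      simp only [Finset.mem_sdiff, Finset.mem_union]
      constructor
      · rintro ⟨h3 | h3, h4⟩
        · exact h3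
        · exact absurd (hS h3) h4
      · intro h3
        exact ⟨Or.inl h3, fun h4 => (Finset.disjoint_left.1 h2 h3) h4⟩
    · ext a
      simp only [Finset.mem_inter, Finset.mem_union]
      constructor
      · rintro ⟨h3 | h3, h4⟩
        · exact absurd h4 (Finset.disjoint_left.1 h2 h3)
        · exact h3
      · intro h3
        exact ⟨Or.inr h3, hS h3⟩
  refine Finset.sum_nbij' (fun P : Finset ℕ × Finset ℕ => P.1 ∪ P.2) (fun H => (H \ B, H ∩ B)) ?_ ?_ ?_ ?_ ?_
  · rintro ⟨H, S⟩ h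
    simp only [Finset.mem_product, Finset.mem_filter, Finset.mem_powerset] at h
    obtain ⟨⟨h1, h2⟩, h3, h4⟩ := h
    obtain ⟨k1, k2, k3⟩ := key H h1 S h3
    simp only [Finset.mem_filter, Finset.mem_powerset]
    exact ⟨Finset.union_subset_union h1 h3, (hQ H h1 S h3).2 h2, by rw [k3]; exact h4⟩
  · intro H h
    simp only [Finset.mem_filter, Finset.mem_powerset] at h
    obtain ⟨h1, h2, h3⟩ := h
    have hU : H \ B ⊆ U := by
      intro a ha
      rw [Finset.mem_sdiff] at ha
      rcases Finset.mem_union.1 (h1 ha.1) with h4 | h4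
      · exact h4
      · exact absurd h4 ha.2
    simp only [Finset.mem_product, Finset.mem_filter, Finset.mem_powerset]
    refine ⟨⟨hU, ?_⟩, Finset.inter_subset_right, h3⟩
    rw [← hQ (H \ B) hU (H ∩ B) Finset.inter_subset_right, Finset.sdiff_union_inter]
    exact h2
  · rintro ⟨H, S⟩ h
    simp only [Finset.mem_product, Finset.mem_filter, Finset.mem_powerset] at h
    obtain ⟨⟨h1, h2⟩, h3, h4⟩ := h
    obtain ⟨k1, k2, k3⟩ := key H h1 S h3
    rw [k2, k3]
  · intro H h
    exact Finset.sdiff_union_inter H B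
  · rintro ⟨H, S⟩ h
    simp only [Finset.mem_product, Finset.mem_filter, Finset.mem_powerset] at h
    obtain ⟨⟨h1, h2⟩, h3, h4⟩ := h
    obtain ⟨k1, k2, k3⟩ := key H h1 S h3
    rw [Finset.card_union_of_disjoint k1, Finset.prod_union k1, pow_add]
    ring

theorem expand (A₀ : Finset ℕ) (A : ℕ → Finset ℕ) (d : ℕ → ℕ) (x : ℕ → ℂ) (J : ℕ)
    (h0 : ∀ j < J, Disjoint A₀ (A j)) (h1 : ∀ i < J, ∀ j < J, i ≠ j → Disjoint (A i) (A j)) :
    (∏ p ∈ A₀, (1 - x p)) * ∏ j ∈ Finset.range J,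
        ∑ S ∈ (A j).powerset.filter (fun S => S.card ≤ d j), (-1) ^ S.card * ∏ p ∈ S, x p =
      ∑ H ∈ (A₀ ∪ (Finset.range J).biUnion A).powerset.filter
        (fun H => ∀ j ∈ Finset.range J, (H ∩ A j).card ≤ d j), (-1) ^ H.card * ∏ p ∈ H, x p := by
  induction J with
  | zero =>
    simp only [Finset.range_zero, Finset.prod_empty, mul_one, Finset.biUnion_empty, Finset.union_empty]
    have hf : A₀.powerset.filter (fun H => ∀ j ∈ (∅ : Finset ℕ), (H ∩ A j).card ≤ d j) = A₀.powerset := by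
      rw [Finset.filter_eq_self]
      intro S _ j hj
      exact absurd hj (Finset.notMem_empty j)
    rw [hf]
    have h1 : ∀ p : ℕ, (1 - x p) = -x p + 1 := fun p => by ring
    simp_rw [h1]
    rw [Finset.prod_add]
    refine Finset.sum_congr rfl fun S _ => ?_
    rw [Finset.prod_const_one, mul_one, Finset.prod_neg]
  | succ J ih =>
    have ih' := ih (fun j hj => h0 j (hj.trans (Nat.lt_succ_self J)))
      (fun i hi j hj => h1 i (hi.trans (Nat.lt_succ_self J)) j (hj.trans (Nat.lt_succ_self J)))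
    rw [Finset.prod_range_succ, ← mul_assoc, ih']
    have hdis : Disjoint (A₀ ∪ (Finset.range J).biUnion A) (A J) := by
      rw [Finset.disjoint_union_left, Finset.disjoint_biUnion_left]
      refine ⟨h0 J (Nat.lt_succ_self J), fun i hi => ?_⟩
      rw [Finset.mem_range] at hi
      exact h1 i (hi.trans (Nat.lt_succ_self J)) J (Nat.lt_succ_self J) hi.ne
    rw [AExp_step _ _ hdis x (d J) (fun H => ∀ j ∈ Finset.range J, (H ∩ A j).card ≤ d j) ?_]
    · have hU : A₀ ∪ (Finset.range J).biUnion A ∪ A J = A₀ ∪ (Finset.range (J + 1)).biUnion A := by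
        rw [Finset.range_add_one, Finset.biUnion_insert, Finset.union_assoc, Finset.union_comm (A J)]
      rw [hU]
      refine Finset.sum_congr ?_ fun _ _ => rfl
      ext H
      simp only [Finset.mem_filter, Finset.mem_powerset, Finset.range_add_one, Finset.mem_insert]
      constructor
      · rintro ⟨k1, k2, k3⟩
        refine ⟨k1, fun j hj => ?_⟩
        rcases hj with rfl | hj
        · exact k3
        · exact k2 j hj
      · rintro ⟨k1, k2⟩
        exact ⟨k1, fun j hj => k2 j (Or.inr hj), k2 J (Or.inl rfl)⟩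
    · intro H hH S hS
      have : ∀ j ∈ Finset.range J, (H ∪ S) ∩ A j = H ∩ A j := by
        intro j hj
        rw [Finset.mem_range] at hj
        have h2 : Disjoint (A J) (A j) := h1 J (Nat.lt_succ_self J) j (hj.trans (Nat.lt_succ_self J)) hj.ne'
        rw [Finset.union_inter_distrib_right]
        have : S ∩ A j = ∅ := by
          rw [← Finset.disjoint_iff_inter_eq_empty]
          exact Finset.disjoint_of_subset_left hS h2
        rw [this, Finset.union_empty]
      constructor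
      · intro h j hj
        rw [← this j hj]
        exact h j hj
      · intro h j hj
        rw [this j hj]
        exact h j hj

private theorem AExpB_cpow (H : Finset ℕ) (w : ℂ) : (hp H : ℂ) ^ w = ∏ p ∈ H, (p : ℂ) ^ w := by
  unfold hp
  induction H using Finset.induction_on with
  | empty =>
    rw [Finset.prod_empty, Finset.prod_empty, Nat.cast_one, one_cpow]
  | insert a H ha ih =>
    rw [Finset.prod_insert ha, Finset.prod_insert ha, Nat.cast_mul, Complex.natCast_mul_natCast_cpow, ih]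

theorem MM_eq {δ T : ℝ} (hδ : 0 < δ) (hT : 1 < T) (s : ℂ) :
    MM δ T s = ∑ H ∈ HH δ T, (-1) ^ H.card * (hp H : ℂ) ^ (-s) := by
  unfold MM Mj
  rw [expand P0 (Pr δ T) (dd δ) (fun p => (p : ℂ) ^ (-s)) (JJ T) (fun j _ => P0_disj δ T j)
    (fun i _ j _ hij => Pr_disj hδ hT hij)]
  unfold HH QQ
  exact Finset.sum_congr rfl fun H _ => by rw [AExpB_cpow]

theorem bn_eq {δ T : ℝ} (hδ : 0 < δ) (hT : 1 < T) (n : ℕ) (w : ℂ) :
    bn δ T n w = (∏ p ∈ P0 ∩ n.primeFactors, (1 - (p : ℂ) ^ w)) *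
      ∏ j ∈ Finset.range (JJ T), bj (n.primeFactors ∩ Pr δ T j) (dd δ j) w := by
  unfold bn bj
  have hd0 : ∀ j < JJ T, Disjoint (P0 ∩ n.primeFactors) (n.primeFactors ∩ Pr δ T j) := fun j _ =>
    Finset.disjoint_of_subset_left Finset.inter_subset_left
      (Finset.disjoint_of_subset_right Finset.inter_subset_right (P0_disj δ T j))
  have hd1 : ∀ i < JJ T, ∀ j < JJ T, i ≠ j →
      Disjoint (n.primeFactors ∩ Pr δ T i) (n.primeFactors ∩ Pr δ T j) := fun i _ j _ hij =>
    Finset.disjoint_of_subset_left Finset.inter_subset_right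
      (Finset.disjoint_of_subset_right Finset.inter_subset_right (Pr_disj hδ hT hij))
  have h1 := expand (P0 ∩ n.primeFactors) (fun j => n.primeFactors ∩ Pr δ T j) (dd δ)
    (fun p => (p : ℂ) ^ w) (JJ T) hd0 hd1
  refine Eq.trans ?_ h1.symm
  have h2 : (HH δ T).filter (fun H => H ⊆ n.primeFactors) =
      ((P0 ∩ n.primeFactors) ∪ (Finset.range (JJ T)).biUnion
        (fun j => n.primeFactors ∩ Pr δ T j)).powerset.filter
        (fun H => ∀ j ∈ Finset.range (JJ T), (H ∩ (n.primeFactors ∩ Pr δ T j)).card ≤ dd δ j) := by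
    ext H
    unfold HH QQ
    rw [Finset.mem_filter, Finset.mem_filter, Finset.mem_filter, Finset.mem_powerset,
      Finset.mem_powerset]
    constructor
    · rintro ⟨⟨g1, g2⟩, g3⟩
      refine ⟨fun p hp => ?_, fun j hj => ?_⟩
      · rcases Finset.mem_union.1 (g1 hp) with g4 | g4
        · exact Finset.mem_union_left _ (Finset.mem_inter.2 ⟨g4, g3 hp⟩)
        · obtain ⟨j, hj, g5⟩ := Finset.mem_biUnion.1 g4
          exact Finset.mem_union_right _ (Finset.mem_biUnion.2 ⟨j, hj, Finset.mem_inter.2 ⟨g3 hp, g5⟩⟩)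
      · rw [← Finset.inter_assoc, Finset.inter_eq_left.2 g3]
        exact g2 j hj
    · rintro ⟨g1, g2⟩
      have g3 : H ⊆ n.primeFactors := by
        intro p hp
        rcases Finset.mem_union.1 (g1 hp) with g4 | g4
        · exact (Finset.mem_inter.1 g4).2
        · obtain ⟨j, hj, g5⟩ := Finset.mem_biUnion.1 g4
          exact (Finset.mem_inter.1 g5).1
      refine ⟨⟨fun p hp => ?_, fun j hj => ?_⟩, g3⟩
      · rcases Finset.mem_union.1 (g1 hp) with g4 | g4
        · exact Finset.mem_union_left _ (Finset.mem_inter.1 g4).1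
        · obtain ⟨j, hj, g5⟩ := Finset.mem_biUnion.1 g4
          exact Finset.mem_union_right _ (Finset.mem_biUnion.2 ⟨j, hj, (Finset.mem_inter.1 g5).2⟩)
      · have g4 := g2 j hj
        rw [← Finset.inter_assoc, Finset.inter_eq_left.2 g3] at g4
        exact g4
  rw [h2]
  exact Finset.sum_congr rfl fun H _ => by rw [AExpB_cpow]

end Pool.Agent.Lib.MP_ec260d_ntB.IA
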