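import Mathlib
import Pool.Agent.Lib.MP_ec260d_ntB.ASet

/-!
# JOB ASize: the integers of the mollifier are small (about 130 lines)

PROOF.  `H ∈ HH δ T`: `H ⊆ QQ δ T = P0 ∪ ⋃_(j<J) Pr j`, all elements prime, at most `dd δ j` of them in `Pr j`.
`log (hp H) = ∑_(p ∈ H) log p ≤ ∑_(p ∈ P0) log p + ∑_(j<J) ∑_(p ∈ H ∩ Pr j) log p ≤ Λ₀ + ∑_j dd δ j (δ e^(-j) log T)` (`Pr_log`) `≤ Λ₀ + 7 δ^(1/4) log T` (`dd_beta`).
Choose `δ₀` with `7 δ₀^(1/4) ≤ 1/1000` and `T₀` with `Λ₀ ≤ (1/1000) log T₀`: `log (hp H) ≤ (2/1000) log T ≤ (1/400) log T`.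
* `hp_inj`: a set of primes is the set of prime factors of its product (`Nat.primeFactors_prod`).
* `HH_card`: `H ↦ hp H` is injective on `HH` with values in `[1, T^(1/400)]`.
* `hp_dvd`: `H ⊆ n.primeFactors ↔ hp H ∣ n` for `n ≠ 0` and sets of primes `H` (`Finset.prod_primes_dvd`, `Nat.prod_primeFactors_dvd`).
* `MM_triv`: `|MM| ≤ ∑_H |hp H|^(-σ)`; use `MM_eq` of `AExp`?  NO: to stay independent this bound is proved in the job `ATriv`.
-/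

namespace Pool.Agent.Lib.MP_ec260d_ntB.IA

open Complex Set Filter Topology MeasureTheory

theorem HH_prime {δ T : ℝ} {H : Finset ℕ} (h : H ∈ HH δ T) : ∀ p ∈ H, p.Prime := by
  intro p hp
  unfold HH at h
  rw [Finset.mem_filter, Finset.mem_powerset] at h
  have h1 := h.1 hp
  unfold QQ at h1
  rw [Finset.mem_union, Finset.mem_biUnion] at h1
  rcases h1 with h1 | ⟨j, _, h1⟩
  · unfold P0 at h1
    exact (Finset.mem_filter.1 h1).2
  · unfold Pr at h1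
    exact (Finset.mem_filter.1 h1).2.1

theorem hp_pos {δ T : ℝ} {H : Finset ℕ} (h : H ∈ HH δ T) : 0 < hp H := by
  unfold hp
  exact Finset.prod_pos fun p hp => (HH_prime h p hp).pos

theorem hp_inj {H H' : Finset ℕ} (h : ∀ p ∈ H, p.Prime) (h' : ∀ p ∈ H', p.Prime) (he : hp H = hp H') : H = H' := by
  unfold hp at he
  rw [← Nat.primeFactors_prod h, ← Nat.primeFactors_prod h', he]

theorem hp_dvd {H : Finset ℕ} (h : ∀ p ∈ H, p.Prime) {n : ℕ} (hn : n ≠ 0) : H ⊆ n.primeFactors ↔ hp H ∣ n := by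
  unfold hp
  constructor
  · intro hs
    exact (Finset.prod_dvd_prod_of_subset _ _ _ hs).trans (Nat.prod_primeFactors_dvd n)
  · intro hd p hp
    rw [Nat.mem_primeFactors]
    exact ⟨h p hp, (Finset.dvd_prod_of_mem _ hp).trans hd, hn⟩

private theorem ASize_log {δ T : ℝ} (hδ : 0 < δ) (hδ1 : δ ≤ 1) (hT : 1 < T) {H : Finset ℕ}
    (h : H ∈ HH δ T) :
    Real.log (hp H) ≤ ∑ p ∈ P0, Real.log p + 7 * δ ^ (1 / 4 : ℝ) * Real.log T := by
  have hpr := HH_prime h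
  have hlT : 0 < Real.log T := Real.log_pos hT
  have hnn : ∀ p : ℕ, 0 ≤ Real.log (p : ℝ) := fun p => Real.log_natCast_nonneg p
  have e1 : Real.log (hp H) = ∑ p ∈ H, Real.log p := by
    unfold hp
    rw [Nat.cast_prod, Real.log_prod]
    intro p hp
    exact_mod_cast (hpr p hp).ne_zero
  have hsub : H ⊆ P0 ∪ (Finset.range (JJ T)).biUnion (fun j => H ∩ Pr δ T j) := by
    intro p hp
    have h1 := h
    unfold HH at h1
    rw [Finset.mem_filter, Finset.mem_powerset] at h1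
    have h2 := h1.1 hp
    unfold QQ at h2
    rw [Finset.mem_union, Finset.mem_biUnion] at h2 ⊢
    rcases h2 with h2 | ⟨j, hj, h2⟩
    · exact Or.inl h2
    · exact Or.inr ⟨j, hj, Finset.mem_inter.2 ⟨hp, h2⟩⟩
  have e2 : ∑ p ∈ H, Real.log (p : ℝ) ≤
      ∑ p ∈ P0 ∪ (Finset.range (JJ T)).biUnion (fun j => H ∩ Pr δ T j), Real.log (p : ℝ) :=
    Finset.sum_le_sum_of_subset_of_nonneg hsub fun p _ _ => hnn p
  have e3 : ∑ p ∈ P0 ∪ (Finset.range (JJ T)).biUnion (fun j => H ∩ Pr δ T j), Real.log (p : ℝ) ≤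
      ∑ p ∈ P0, Real.log (p : ℝ) +
        ∑ p ∈ (Finset.range (JJ T)).biUnion (fun j => H ∩ Pr δ T j), Real.log (p : ℝ) := by
    rw [← Finset.sum_union_inter]
    have : 0 ≤ ∑ p ∈ P0 ∩ (Finset.range (JJ T)).biUnion (fun j => H ∩ Pr δ T j),
        Real.log (p : ℝ) := Finset.sum_nonneg fun p _ => hnn p
    linarith
  have e4 : ∑ p ∈ (Finset.range (JJ T)).biUnion (fun j => H ∩ Pr δ T j), Real.log (p : ℝ) =
      ∑ j ∈ Finset.range (JJ T), ∑ p ∈ H ∩ Pr δ T j, Real.log (p : ℝ) := by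
    refine Finset.sum_biUnion fun i _ j _ hij => ?_
    exact (Pr_disj hδ hT hij).mono Finset.inter_subset_right Finset.inter_subset_right
  have e5 : ∀ j ∈ Finset.range (JJ T), ∑ p ∈ H ∩ Pr δ T j, Real.log (p : ℝ) ≤
      (dd δ j : ℝ) * (δ * Real.exp (-(j : ℝ))) * Real.log T := by
    intro j hj
    have h1 := h
    unfold HH at h1
    rw [Finset.mem_filter] at h1
    have h3 : ((H ∩ Pr δ T j).card : ℝ) ≤ dd δ j := by exact_mod_cast h1.2 j hj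
    have h4 : ∑ p ∈ H ∩ Pr δ T j, Real.log (p : ℝ) ≤
        (H ∩ Pr δ T j).card • (δ * Real.exp (-(j : ℝ)) * Real.log T) :=
      Finset.sum_le_card_nsmul _ _ _ fun p hp =>
        (Pr_log hδ hT (Finset.mem_inter.1 hp).2).2
    rw [nsmul_eq_mul] at h4
    have h5 : 0 ≤ δ * Real.exp (-(j : ℝ)) * Real.log T := by positivity
    calc ∑ p ∈ H ∩ Pr δ T j, Real.log (p : ℝ)
        ≤ ((H ∩ Pr δ T j).card : ℝ) * (δ * Real.exp (-(j : ℝ)) * Real.log T) := h4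
      _ ≤ (dd δ j : ℝ) * (δ * Real.exp (-(j : ℝ)) * Real.log T) :=
          mul_le_mul_of_nonneg_right h3 h5
      _ = _ := by ring
  have e6 : ∑ j ∈ Finset.range (JJ T), ∑ p ∈ H ∩ Pr δ T j, Real.log (p : ℝ) ≤
      7 * δ ^ (1 / 4 : ℝ) * Real.log T := by
    refine (Finset.sum_le_sum e5).trans ?_
    rw [← Finset.sum_mul]
    exact mul_le_mul_of_nonneg_right (dd_beta hδ hδ1 _) hlT.le
  linarith

theorem hp_size : ∃ δ₀ : ℝ, 0 < δ₀ ∧ δ₀ ≤ 1 ∧ ∀ δ : ℝ, 0 < δ → δ ≤ δ₀ → ∃ T₀ : ℝ, 3 ≤ T₀ ∧ ∀ T : ℝ, T₀ ≤ T →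
    (∀ H ∈ HH δ T, (hp H : ℝ) ≤ T ^ (1 / 400 : ℝ)) ∧ ((HH δ T).card : ℝ) ≤ T ^ (1 / 400 : ℝ) := by
  refine ⟨(1 / 7000 : ℝ) ^ (4 : ℕ), by positivity, by norm_num, fun δ hδ hδ0 => ?_⟩
  have hδ1 : δ ≤ 1 := hδ0.trans (by norm_num)
  have hδ4 : δ ^ (1 / 4 : ℝ) ≤ 1 / 7000 := by
    calc δ ^ (1 / 4 : ℝ) ≤ ((1 / 7000 : ℝ) ^ (4 : ℕ)) ^ (1 / 4 : ℝ) :=
          Real.rpow_le_rpow hδ.le hδ0 (by norm_num)
      _ = 1 / 7000 := by
          rw [← Real.rpow_natCast, ← Real.rpow_mul (by norm_num)]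
          norm_num
  obtain ⟨L0, hL0⟩ : ∃ L0 : ℝ, L0 = ∑ p ∈ P0, Real.log (p : ℝ) := ⟨_, rfl⟩
  refine ⟨max 3 (Real.exp (1000 * L0)), le_max_left _ _, fun T hT => ?_⟩
  have hT3 : 3 ≤ T := (le_max_left _ _).trans hT
  have hT1 : 1 < T := by linarith
  have hlT : 0 < Real.log T := Real.log_pos hT1
  have hL : 1000 * L0 ≤ Real.log T := by
    rw [Real.le_log_iff_exp_le (by linarith)]
    exact (le_max_right _ _).trans hT
  have key : ∀ H ∈ HH δ T, (hp H : ℝ) ≤ T ^ (1 / 400 : ℝ) := by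
    intro H hH
    have h1 := ASize_log hδ hδ1 hT1 hH
    rw [← hL0] at h1
    have h2 : 7 * δ ^ (1 / 4 : ℝ) * Real.log T ≤ 1 / 1000 * Real.log T :=
      mul_le_mul_of_nonneg_right (by linarith) hlT.le
    have h3 : (0 : ℝ) < hp H := by exact_mod_cast hp_pos hH
    rw [← Real.exp_log h3, Real.rpow_def_of_pos (by linarith)]
    refine Real.exp_le_exp.2 ?_
    linarith
  refine ⟨key, ?_⟩
  have h4 : (HH δ T).card ≤ (Finset.Icc 1 ⌊T ^ (1 / 400 : ℝ)⌋₊).card := by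
    refine Finset.card_le_card_of_injOn hp ?_ ?_
    · intro H hH
      rw [Finset.coe_Icc, Set.mem_Icc]
      exact ⟨hp_pos hH, Nat.le_floor (key H hH)⟩
    · intro H hH H' hH' he
      exact hp_inj (HH_prime hH) (HH_prime hH') he
  rw [Nat.card_Icc, Nat.add_sub_cancel] at h4
  calc ((HH δ T).card : ℝ) ≤ (⌊T ^ (1 / 400 : ℝ)⌋₊ : ℝ) := by exact_mod_cast h4
    _ ≤ T ^ (1 / 400 : ℝ) := Nat.floor_le (Real.rpow_nonneg (by linarith) _)

end Pool.Agent.Lib.MP_ec260d_ntB.IA
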