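import Mathlib

/-!
# Integrals over boxes in the complex plane
-/

namespace Pool.Agent.Lib.MP_ec260d_ntB

open Complex Set Filter Topology MeasureTheory

/-- the box as a set of pairs (real part, imaginary part) -/
def bx (a b A B : ℝ) : Set (ℝ × ℝ) := Icc a b ×ˢ Icc A B

/-- the complex number with the given real and imaginary parts -/
def pt (z : ℝ × ℝ) : ℂ := (z.1 : ℂ) + (z.2 : ℂ) * I

/-- the closed box as a set of complex numbers -/
def CB (a b A B : ℝ) : Set ℂ := {s | a ≤ s.re ∧ s.re ≤ b ∧ A ≤ s.im ∧ s.im ≤ B}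

/-- the integral over a box (two dimensional Lebesgue measure) -/
noncomputable def BI (a b A B : ℝ) (f : ℂ → ℝ) : ℝ := ∫ z in bx a b A B, f (pt z)

/-- integrability over a box -/
def BInt (a b A B : ℝ) (f : ℂ → ℝ) : Prop := IntegrableOn (fun z => f (pt z)) (bx a b A B)

@[simp] theorem pt_re (z : ℝ × ℝ) : (pt z).re = z.1 := by simp [pt]
@[simp] theorem pt_im (z : ℝ × ℝ) : (pt z).im = z.2 := by simp [pt]

theorem pt_cont : Continuous pt := by unfold pt; fun_prop

theorem pt_mem {a b A B : ℝ} {z : ℝ × ℝ} : pt z ∈ CB a b A B ↔ z ∈ bx a b A B := by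
  unfold CB bx
  rw [Set.mem_ofPred_eq, pt_re, pt_im, Set.mem_prod, Set.mem_Icc, Set.mem_Icc, and_assoc]

theorem bx_meas (a b A B : ℝ) : MeasurableSet (bx a b A B) := measurableSet_Icc.prod measurableSet_Icc

theorem bx_compact (a b A B : ℝ) : IsCompact (bx a b A B) := isCompact_Icc.prod isCompact_Icc

theorem bx_vol {a b A B : ℝ} (hab : a ≤ b) (hAB : A ≤ B) :
    (volume (bx a b A B)).toReal = (b - a) * (B - A) := by
  unfold bx
  rw [Measure.volume_eq_prod, Measure.prod_prod, Real.volume_Icc, Real.volume_Icc,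
    ENNReal.toReal_mul, ENNReal.toReal_ofReal (by linarith), ENNReal.toReal_ofReal (by linarith)]

theorem CB_mono {a b A B a' b' A' B' : ℝ} (h1 : a' ≤ a) (h2 : b ≤ b') (h3 : A' ≤ A) (h4 : B ≤ B') :
    CB a b A B ⊆ CB a' b' A' B' := fun _ hs =>
  ⟨h1.trans hs.1, hs.2.1.trans h2, h3.trans hs.2.2.1, hs.2.2.2.trans h4⟩

theorem bx_mono {a b A B a' b' A' B' : ℝ} (h1 : a' ≤ a) (h2 : b ≤ b') (h3 : A' ≤ A) (h4 : B ≤ B') :
    bx a b A B ⊆ bx a' b' A' B' := Set.prod_mono (Icc_subset_Icc h1 h2) (Icc_subset_Icc h3 h4)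

theorem bint_cont {a b A B : ℝ} {f : ℂ → ℝ} (hf : ContinuousOn f (CB a b A B)) :
    BInt a b A B f :=
  (hf.comp pt_cont.continuousOn fun _ hz => pt_mem.2 hz).integrableOn_compact (bx_compact a b A B)

theorem bint_mono {a b A B a' b' A' B' : ℝ} {f : ℂ → ℝ} (hf : BInt a' b' A' B' f) (h1 : a' ≤ a)
    (h2 : b ≤ b') (h3 : A' ≤ A) (h4 : B ≤ B') : BInt a b A B f :=
  IntegrableOn.mono_set hf (bx_mono h1 h2 h3 h4)

theorem bint_abs {a b A B : ℝ} {f : ℂ → ℝ} (hf : BInt a b A B f) : BInt a b A B (fun s => |f s|) :=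
  Integrable.abs hf

theorem bint_add {a b A B : ℝ} {f g : ℂ → ℝ} (hf : BInt a b A B f) (hg : BInt a b A B g) :
    BInt a b A B (fun s => f s + g s) := Integrable.add hf hg

theorem bint_sub {a b A B : ℝ} {f g : ℂ → ℝ} (hf : BInt a b A B f) (hg : BInt a b A B g) :
    BInt a b A B (fun s => f s - g s) := Integrable.sub hf hg

theorem bint_const_mul {a b A B : ℝ} {f : ℂ → ℝ} (c : ℝ) (hf : BInt a b A B f) :
    BInt a b A B (fun s => c * f s) := Integrable.const_mul hf c

theorem bint_congr {a b A B : ℝ} {f g : ℂ → ℝ} (h : ∀ s ∈ CB a b A B, f s = g s)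
    (hf : BInt a b A B f) : BInt a b A B g :=
  IntegrableOn.congr_fun hf (fun _ hz => h _ (pt_mem.2 hz)) (bx_meas a b A B)

/-- multiplication with a bounded continuous function of the imaginary part -/
theorem bint_mul {a b A B : ℝ} {f : ℂ → ℝ} (φ : ℝ → ℝ) (hφ : Continuous φ) (hf : BInt a b A B f) :
    BInt a b A B (fun s => φ s.im * f s) := by
  obtain ⟨C, hC⟩ := (isCompact_Icc (a := A) (b := B)).exists_bound_of_continuousOn hφ.continuousOn
  have h := Integrable.bdd_mul (c := C) (μ := volume.restrict (bx a b A B)) (f := fun z : ℝ × ℝ => φ z.2) hf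
    ((hφ.comp continuous_snd).aestronglyMeasurable)
    ((ae_restrict_iff' (bx_meas a b A B)).2 (Filter.Eventually.of_forall fun z hz => hC _ hz.2))
  refine Integrable.congr h (Filter.Eventually.of_forall fun z => ?_)
  show _ = φ (pt z).im * f (pt z)
  rw [pt_im]

theorem bi_congr {a b A B : ℝ} {f g : ℂ → ℝ} (h : ∀ s ∈ CB a b A B, f s = g s) :
    BI a b A B f = BI a b A B g :=
  setIntegral_congr_fun (bx_meas a b A B) fun _ hz => h _ (pt_mem.2 hz)

theorem bi_add {a b A B : ℝ} {f g : ℂ → ℝ} (hf : BInt a b A B f) (hg : BInt a b A B g) :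
    BI a b A B (fun s => f s + g s) = BI a b A B f + BI a b A B g := integral_add hf hg

theorem bi_sub {a b A B : ℝ} {f g : ℂ → ℝ} (hf : BInt a b A B f) (hg : BInt a b A B g) :
    BI a b A B (fun s => f s - g s) = BI a b A B f - BI a b A B g := integral_sub hf hg

theorem bi_const_mul {a b A B : ℝ} {f : ℂ → ℝ} (c : ℝ) :
    BI a b A B (fun s => c * f s) = c * BI a b A B f := integral_const_mul c _

theorem bi_const {a b A B : ℝ} (hab : a ≤ b) (hAB : A ≤ B) (c : ℝ) :
    BI a b A B (fun _ => c) = (b - a) * (B - A) * c := by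
  unfold BI
  rw [setIntegral_const, smul_eq_mul]
  unfold Measure.real
  rw [bx_vol hab hAB]

theorem bi_nonneg {a b A B : ℝ} {f : ℂ → ℝ} (h : ∀ s ∈ CB a b A B, 0 ≤ f s) : 0 ≤ BI a b A B f :=
  setIntegral_nonneg (bx_meas a b A B) fun _ hz => h _ (pt_mem.2 hz)

theorem bi_mono {a b A B : ℝ} {f g : ℂ → ℝ} (hf : BInt a b A B f) (hg : BInt a b A B g)
    (h : ∀ s ∈ CB a b A B, f s ≤ g s) : BI a b A B f ≤ BI a b A B g :=
  setIntegral_mono_on hf hg (bx_meas a b A B) fun _ hz => h _ (pt_mem.2 hz)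

theorem bi_abs_le {a b A B : ℝ} {f g : ℂ → ℝ} (hg : BInt a b A B g)
    (h : ∀ s ∈ CB a b A B, |f s| ≤ g s) : |BI a b A B f| ≤ BI a b A B g := by
  exact norm_integral_le_of_norm_le (f := fun z => f (pt z)) (g := fun z => g (pt z)) hg
    ((ae_restrict_iff' (bx_meas a b A B)).2
      (Filter.Eventually.of_forall fun z hz => h _ (pt_mem.2 hz)))

theorem bi_le_of_le {a b A B : ℝ} {f : ℂ → ℝ} (hab : a ≤ b) (hAB : A ≤ B) {c : ℝ}
    (h : ∀ s ∈ CB a b A B, |f s| ≤ c) : |BI a b A B f| ≤ (b - a) * (B - A) * c := by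
  rw [← bi_const hab hAB]
  exact bi_abs_le (bint_cont continuousOn_const) h

theorem bi_subset {a b A B a' b' A' B' : ℝ} {f : ℂ → ℝ} (hf : BInt a' b' A' B' f)
    (h0 : ∀ s ∈ CB a' b' A' B', 0 ≤ f s) (h1 : a' ≤ a) (h2 : b ≤ b') (h3 : A' ≤ A) (h4 : B ≤ B') :
    BI a b A B f ≤ BI a' b' A' B' f := by
  refine setIntegral_mono_set hf ?_ (Filter.Eventually.of_forall (bx_mono h1 h2 h3 h4))
  exact (ae_restrict_iff' (bx_meas _ _ _ _)).2
    (Filter.Eventually.of_forall fun z hz => h0 _ (pt_mem.2 hz))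

/-- Fubini for a box -/
theorem bi_iter {a b A B : ℝ} {f : ℂ → ℝ} (hab : a ≤ b) (hAB : A ≤ B) (hf : BInt a b A B f) :
    BI a b A B f = ∫ x in a..b, ∫ t in A..B, f ((x : ℂ) + t * I) := by
  unfold BI
  have h : IntegrableOn (fun z : ℝ × ℝ => f (pt z)) (Icc a b ×ˢ Icc A B) (volume.prod volume) := hf
  unfold bx
  rw [Measure.volume_eq_prod, setIntegral_prod _ h, intervalIntegral.integral_of_le hab,
    integral_Icc_eq_integral_Ioc]
  refine setIntegral_congr_fun measurableSet_Ioc fun x _ => ?_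
  show (∫ y in Icc A B, f (pt (x, y))) = ∫ t in A..B, f ((x : ℂ) + t * I)
  rw [intervalIntegral.integral_of_le hAB, integral_Icc_eq_integral_Ioc]
  rfl

/-- Fubini for a box, the other order -/
theorem bi_iter' {a b A B : ℝ} {f : ℂ → ℝ} (hab : a ≤ b) (hAB : A ≤ B) (hf : BInt a b A B f) :
    BI a b A B f = ∫ t in A..B, ∫ x in a..b, f ((x : ℂ) + t * I) := by
  unfold BI
  have h : IntegrableOn (fun z : ℝ × ℝ => f (pt z)) (Icc a b ×ˢ Icc A B) (volume.prod volume) := hf
  unfold bx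
  rw [Measure.volume_eq_prod, ← Measure.prod_restrict]
  rw [IntegrableOn, ← Measure.prod_restrict] at h
  rw [integral_prod_symm _ h, intervalIntegral.integral_of_le hAB, integral_Icc_eq_integral_Ioc]
  refine setIntegral_congr_fun measurableSet_Ioc fun x _ => ?_
  show (∫ y in Icc a b, f (pt (y, x))) = ∫ y in a..b, f ((y : ℂ) + x * I)
  rw [intervalIntegral.integral_of_le hab, integral_Icc_eq_integral_Ioc]
  rfl

/-- splitting a box by a vertical line -/
theorem bi_split {a m b A B : ℝ} {f : ℂ → ℝ} (h1 : a ≤ m) (h2 : m ≤ b) (hf : BInt a b A B f) :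
    BI a b A B f = BI a m A B f + BI m b A B f := by
  unfold BI
  have hu : bx a b A B = bx a m A B ∪ bx m b A B := by
    unfold bx
    rw [← Set.union_prod, Icc_union_Icc_eq_Icc h1 h2]
  have hd : AEDisjoint volume (bx a m A B) (bx m b A B) := by
    unfold AEDisjoint bx
    rw [Set.prod_inter_prod, Measure.volume_eq_prod, Measure.prod_prod]
    have h3 : Icc a m ∩ Icc m b = {m} := by
      ext x
      rw [Set.mem_inter_iff, Set.mem_Icc, Set.mem_Icc, Set.mem_singleton_iff]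
      constructor
      · rintro ⟨⟨_, h4⟩, h5, _⟩
        exact le_antisymm h4 h5
      · rintro rfl
        exact ⟨⟨h1, le_rfl⟩, le_rfl, h2⟩
    rw [h3, Real.volume_singleton, zero_mul]
  rw [hu]
  refine setIntegral_union₀ hd (bx_meas _ _ _ _).nullMeasurableSet ?_ ?_
  · exact bint_mono hf le_rfl h2 le_rfl le_rfl
  · exact bint_mono hf h1 le_rfl le_rfl le_rfl

end Pool.Agent.Lib.MP_ec260d_ntB
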