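import Mathlib
import Pool.Agent.Lib.MP_ec260d_ntB.BBox

/-!
# JOB BWin: few windows have a large integral

* `win_meas`: `f ≥ 0` continuous on the closed box `CB a b (T/2) (3 T)`, `0 < L ≤ 1/2`, `2 ≤ T`, `λ > 0`. Let `g t = BI a b (t - L) (t + L) f` for `t ∈ [T, 3 T - 1]` (the window is inside `[T/2, 3 T]`). `Bad = {t ∈ [T, 3 T - 1] | λ < g t}`.
  (1) `g` is measurable (even continuous) on `[T, 3 T - 1]`: let `F u = ∫ x in a..b, f (x + i u)` for `u ∈ [T/2, 3 T]` (continuous there: `intervalIntegral.continuousOn_integral_of_continuous`-type results, or integrable by Fubini), `g t = ∫ u in (t - L)..(t + L), F u` by `bi_iter'`,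
  a difference of two primitives (`intervalIntegral.continuousOn_primitive_interval`). It may be convenient to replace `f` by `0` outside of the box (indicator), so that everything is integrable on the whole plane.
  (2) `∫_{T}^{3 T - 1} g t dt = ∫_t ∫_{|u - t| ≤ L} F u du dt ≤ 2 L ∫_{T/2}^{3 T} F u du = 2 L BI a b (T/2) (3 T) f` (Fubini / Tonelli; for each `u` the set of `t` with `|t - u| ≤ L` has measure `≤ 2 L`; `F ≥ 0`).
  (3) Markov: `λ volume Bad ≤ ∫ g` (`mul_meas_ge_le_lintegral` or `mul_meas_ge_le_integral_of_nonneg`).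
* `win_meas1`: the same for a function of one variable: `g t = ∫ u in (t - L)..(t + L), F u`.
-/

namespace Pool.Agent.Lib.MP_ec260d_ntB

open Complex Set Filter Topology MeasureTheory

private theorem BWin_core (T : ℝ) (hT : 2 ≤ T) (F : ℝ → ℝ) (hF : Continuous F)
    (h0 : ∀ u, 0 ≤ F u) (L lam : ℝ) (hL : 0 < L) (hL' : L ≤ 1 / 2) (hlam : 0 < lam) :
    ∃ Bad : Set ℝ, MeasurableSet Bad ∧
      volume Bad ≤ ENNReal.ofReal (2 * L / lam * ∫ u in (T / 2)..(3 * T), F u) ∧
      ∀ t ∈ Icc T (3 * T - 1), t ∉ Bad → ∫ u in (t - L)..(t + L), F u ≤ lam := by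
  set g : ℝ → ℝ := fun t => ∫ s in (-L)..L, F (t + s) with hg
  have hgc : Continuous g := by
    refine intervalIntegral.continuous_parametric_intervalIntegral_of_continuous' ?_ _ _
    exact hF.comp (continuous_fst.add continuous_snd)
  have hg0 : ∀ t, 0 ≤ g t := fun t =>
    intervalIntegral.integral_nonneg (by linarith) fun s _ => h0 _
  have hgt : ∀ t, g t = ∫ u in (t - L)..(t + L), F u := by
    intro t
    rw [hg]
    simp only
    rw [intervalIntegral.integral_comp_add_left, ← sub_eq_add_neg]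
  have hT1 : T ≤ 3 * T - 1 := by linarith
  have hint : ∫ t in T..(3 * T - 1), g t ≤ 2 * L * ∫ u in (T / 2)..(3 * T), F u := by
    have hsw : ∫ t in T..(3 * T - 1), ∫ s in (-L)..L, F (t + s) =
        ∫ s in (-L)..L, ∫ t in T..(3 * T - 1), F (t + s) := by
      refine intervalIntegral_intervalIntegral_swap ?_
      have hc : Continuous (Function.uncurry fun t s : ℝ => F (t + s)) :=
        hF.comp (continuous_fst.add continuous_snd)
      refine (hc.continuousOn.integrableOn_compact
        ((isCompact_uIcc (a := T) (b := 3 * T - 1)).prod (isCompact_uIcc (a := -L) (b := L)))).mono_set ?_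
      exact Set.prod_mono uIoc_subset_uIcc uIoc_subset_uIcc
    have hle : ∀ s ∈ Icc (-L) L, ∫ t in T..(3 * T - 1), F (t + s) ≤
        ∫ u in (T / 2)..(3 * T), F u := by
      intro s hs
      rw [intervalIntegral.integral_comp_add_right]
      refine intervalIntegral.integral_mono_interval ?_ ?_ ?_ ?_ (hF.intervalIntegrable _ _)
      · linarith [hs.1]
      · linarith
      · linarith [hs.2]
      · exact Filter.Eventually.of_forall fun u => h0 u
    calc ∫ t in T..(3 * T - 1), g t = ∫ s in (-L)..L, ∫ t in T..(3 * T - 1), F (t + s) := hsw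
      _ ≤ ∫ s in (-L)..L, ∫ u in (T / 2)..(3 * T), F u := by
          refine intervalIntegral.integral_mono_on (by linarith) ?_ ?_ hle
          · refine Continuous.intervalIntegrable ?_ _ _
            refine intervalIntegral.continuous_parametric_intervalIntegral_of_continuous' ?_ _ _
            exact hF.comp (continuous_snd.add continuous_fst)
          · exact continuous_const.intervalIntegrable _ _
      _ = 2 * L * ∫ u in (T / 2)..(3 * T), F u := by
          rw [intervalIntegral.integral_const, smul_eq_mul]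
          ring
  refine ⟨{t | lam ≤ g t} ∩ Icc T (3 * T - 1), ?_, ?_, ?_⟩
  · exact (measurableSet_le measurable_const hgc.measurable).inter measurableSet_Icc
  · have hmk := mul_meas_ge_le_integral_of_nonneg (μ := volume.restrict (Icc T (3 * T - 1)))
      (f := g) (Filter.Eventually.of_forall hg0)
      (hgc.continuousOn.integrableOn_compact isCompact_Icc) lam
    have e1 : ∫ t in Icc T (3 * T - 1), g t = ∫ t in T..(3 * T - 1), g t := by
      rw [intervalIntegral.integral_of_le hT1, integral_Icc_eq_integral_Ioc]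
    rw [e1] at hmk
    have e2 : (volume.restrict (Icc T (3 * T - 1))) {t | lam ≤ g t} =
        volume ({t | lam ≤ g t} ∩ Icc T (3 * T - 1)) :=
      Measure.restrict_apply (measurableSet_le measurable_const hgc.measurable)
    have hfin : volume ({t | lam ≤ g t} ∩ Icc T (3 * T - 1)) ≠ ⊤ := by
      refine ne_top_of_le_ne_top ?_ (measure_mono inter_subset_right)
      rw [Real.volume_Icc]
      exact ENNReal.ofReal_ne_top
    rw [Measure.real, e2] at hmk
    rw [← ENNReal.ofReal_toReal hfin]
    refine ENNReal.ofReal_le_ofReal ?_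
    rw [div_mul_eq_mul_div, le_div_iff₀ hlam, mul_comm]
    exact hmk.trans hint
  · intro t ht hb
    rw [← hgt]
    by_contra hcon
    exact hb ⟨(not_le.1 hcon).le, ht⟩

theorem win_meas1 (T : ℝ) (hT : 2 ≤ T) (F : ℝ → ℝ) (hF : ContinuousOn F (Icc (T / 2) (3 * T)))
    (h0 : ∀ u ∈ Icc (T / 2) (3 * T), 0 ≤ F u) (L lam : ℝ) (hL : 0 < L) (hL' : L ≤ 1 / 2)
    (hlam : 0 < lam) :
    ∃ Bad : Set ℝ, MeasurableSet Bad ∧
      volume Bad ≤ ENNReal.ofReal (2 * L / lam * ∫ u in (T / 2)..(3 * T), F u) ∧
      ∀ t ∈ Icc T (3 * T - 1), t ∉ Bad → ∫ u in (t - L)..(t + L), F u ≤ lam := by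
  have hTT : T / 2 ≤ 3 * T := by linarith
  set P : ℝ → ℝ := fun u => max (T / 2) (min (3 * T) u) with hP
  have hPc : Continuous P := continuous_const.max (continuous_const.min continuous_id)
  have hPm : ∀ u, P u ∈ Icc (T / 2) (3 * T) := fun u =>
    ⟨le_max_left _ _, max_le hTT (min_le_left _ _)⟩
  have hPe : ∀ u ∈ Icc (T / 2) (3 * T), P u = u := fun u hu => by
    rw [hP]
    simp only
    rw [min_eq_right hu.2, max_eq_right hu.1]
  obtain ⟨Bad, h1, h2, h3⟩ := BWin_core T hT (fun u => F (P u))
    (hF.comp_continuous hPc hPm) (fun u => h0 _ (hPm u)) L lam hL hL' hlam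
  have key : ∀ c d : ℝ, T / 2 ≤ c → c ≤ d → d ≤ 3 * T →
      ∫ u in c..d, F (P u) = ∫ u in c..d, F u := by
    intro c d hc hcd hd
    refine intervalIntegral.integral_congr fun u hu => ?_
    rw [uIcc_of_le hcd] at hu
    show F (P u) = F u
    rw [hPe u ⟨hc.trans hu.1, hu.2.trans hd⟩]
  refine ⟨Bad, h1, ?_, ?_⟩
  · rw [key _ _ le_rfl hTT le_rfl] at h2
    exact h2
  · intro t ht hb
    have h4 := h3 t ht hb
    rw [key _ _ (by linarith [ht.1]) (by linarith) (by linarith [ht.2])] at h4
    exact h4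

theorem win_meas (T : ℝ) (hT : 2 ≤ T) (a b : ℝ) (hab : a ≤ b) (f : ℂ → ℝ)
    (hf : ContinuousOn f (CB a b (T / 2) (3 * T))) (h0 : ∀ s ∈ CB a b (T / 2) (3 * T), 0 ≤ f s)
    (L lam : ℝ) (hL : 0 < L) (hL' : L ≤ 1 / 2) (hlam : 0 < lam) :
    ∃ Bad : Set ℝ, MeasurableSet Bad ∧
      volume Bad ≤ ENNReal.ofReal (2 * L / lam * BI a b (T / 2) (3 * T) f) ∧
      ∀ t ∈ Icc T (3 * T - 1), t ∉ Bad → BI a b (t - L) (t + L) f ≤ lam := by
  have hTT : T / 2 ≤ 3 * T := by linarith
  set P : ℂ → ℂ := fun s => ((max a (min b s.re) : ℝ) : ℂ) +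
    ((max (T / 2) (min (3 * T) s.im) : ℝ) : ℂ) * I with hP
  have hPc : Continuous P := by
    have h1 : Continuous fun s : ℂ => max a (min b s.re) :=
      continuous_const.max (continuous_const.min Complex.continuous_re)
    have h2 : Continuous fun s : ℂ => max (T / 2) (min (3 * T) s.im) :=
      continuous_const.max (continuous_const.min Complex.continuous_im)
    exact (Complex.continuous_ofReal.comp h1).add
      ((Complex.continuous_ofReal.comp h2).mul continuous_const)
  have hPre : ∀ s, (P s).re = max a (min b s.re) := fun s => by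
    rw [hP]
    simp
  have hPim : ∀ s, (P s).im = max (T / 2) (min (3 * T) s.im) := fun s => by
    rw [hP]
    simp
  have hPm : ∀ s, P s ∈ CB a b (T / 2) (3 * T) := fun s => by
    refine ⟨?_, ?_, ?_, ?_⟩
    · rw [hPre]; exact le_max_left _ _
    · rw [hPre]; exact max_le hab (min_le_left _ _)
    · rw [hPim]; exact le_max_left _ _
    · rw [hPim]; exact max_le hTT (min_le_left _ _)
  have hPe : ∀ s ∈ CB a b (T / 2) (3 * T), P s = s := fun s hs => by
    apply Complex.ext
    · rw [hPre, min_eq_right hs.2.1, max_eq_right hs.1]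
    · rw [hPim, min_eq_right hs.2.2.2, max_eq_right hs.2.2.1]
  have hfc : Continuous fun s => f (P s) := hf.comp_continuous hPc hPm
  have hFc : Continuous fun u : ℝ => ∫ x in a..b, f (P ((x : ℂ) + u * I)) := by
    refine intervalIntegral.continuous_parametric_intervalIntegral_of_continuous' ?_ _ _
    refine hfc.comp ?_
    exact (Complex.continuous_ofReal.comp continuous_snd).add
      ((Complex.continuous_ofReal.comp continuous_fst).mul continuous_const)
  have key : ∀ c d : ℝ, T / 2 ≤ c → c ≤ d → d ≤ 3 * T →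
      ∫ u in c..d, (∫ x in a..b, f (P ((x : ℂ) + u * I))) = BI a b c d f := by
    intro c d hc hcd hd
    rw [← bi_iter' hab hcd (bint_cont hfc.continuousOn)]
    refine bi_congr fun s hs => ?_
    rw [hPe s (CB_mono le_rfl le_rfl hc hd hs)]
  obtain ⟨Bad, h1, h2, h3⟩ := BWin_core T hT (fun u => ∫ x in a..b, f (P ((x : ℂ) + u * I))) hFc
    (fun u => intervalIntegral.integral_nonneg hab fun x _ => h0 _ (hPm _)) L lam hL hL' hlam
  refine ⟨Bad, h1, ?_, ?_⟩
  · rw [key _ _ le_rfl hTT le_rfl] at h2
    exact h2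
  · intro t ht hb
    have h4 := h3 t ht hb
    rw [key _ _ (by linarith [ht.1]) (by linarith) (by linarith [ht.2])] at h4
    exact h4

end Pool.Agent.Lib.MP_ec260d_ntB
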