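import Mathlib
import Pool.Agent.Lib.MP_ec260d_ntB.BBox

/-!
# JOB BMean: the mean value inequality over a square

For `g` holomorphic at all points of the closed square with centre `c = σ + i v` and half side `r`: `π r ^ 2 ‖g c‖ ≤ ∫ over the square of ‖g‖`.
Proof. (1) For `0 < ρ ≤ r` the circle mean value property: `g c = (2 π)⁻¹ ∫_0^{2 π} g (c + ρ e ^ (i θ)) dθ` (the closed disc is inside the square; Mathlib: search `circleAverage`,
`DiffContOnCl` / `DifferentiableOn` versions, for example `DiffContOnCl.circleAverage` or `circleAverage_of_differentiable_on`, or `Complex.circleIntegral_sub_inv_smul_of_differentiable_on_off_countable`).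
So `2 π ‖g c‖ ≤ ∫_0^{2 π} ‖g (c + ρ e ^ (i θ))‖ dθ`.
(2) Multiply by `ρ` and integrate over `ρ ∈ (0, r)`: `π r ^ 2 ‖g c‖ ≤ ∫_0^r ∫_0^{2 π} ρ ‖g (c + ρ e ^ (i θ))‖ dθ dρ`, which is the integral of `‖g‖` over the disc of radius `r` with centre `c` by polar coordinates
(`integral_comp_polarCoord_symm` on `ℝ × ℝ`, or `Complex.integral_comp_polarCoord_symm`; the function `F z = ‖g (c + z)‖` times the indicator of the disc; target `Ioi 0 ×ˢ Ioo (-π) π`; the circle integral over `(-π, π)` is that over `(0, 2 π)` by periodicity,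
or use the lower integral versions `lintegral_comp_polarCoord_symm` to avoid integrability questions).
(3) The disc is contained in the square and `‖g‖ ≥ 0` (`setIntegral_mono_set`, `bint_cont` for integrability); translation by `c` (`integral_add_right_eq_self` or `MeasurePreserving`).
-/

namespace Pool.Agent.Lib.MP_ec260d_ntB

open Complex Set Filter Topology MeasureTheory

private theorem BMean_arc (f : ℂ → ℝ) (c : ℂ) (ρ : ℝ) :
    ∫ θ in Ioo (-Real.pi) Real.pi, f (circleMap c ρ θ) = ∫ θ in (0 : ℝ)..2 * Real.pi, f (circleMap c ρ θ) := by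
  have hp : (fun θ => f (circleMap c ρ θ)).Periodic (2 * Real.pi) :=
    fun x => by simp [periodic_circleMap c ρ x]
  have h := hp.intervalIntegral_add_eq (-Real.pi) 0
  have e1 : -Real.pi + 2 * Real.pi = Real.pi := by ring
  rw [e1, zero_add] at h
  rw [← h, intervalIntegral.integral_of_le (by linarith [Real.pi_pos]), integral_Ioc_eq_integral_Ioo]

private theorem BMean_pt (c : ℂ) (p : ℝ × ℝ) :
    pt ((c.re, c.im) + polarCoord.symm p) = circleMap c p.1 p.2 := by
  rw [polarCoord_symm_apply]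
  apply Complex.ext
  · rw [pt_re]
    simp [circleMap, Complex.exp_ofReal_mul_I_re, Complex.exp_ofReal_mul_I_im]
  · rw [pt_im]
    simp [circleMap, Complex.exp_ofReal_mul_I_re, Complex.exp_ofReal_mul_I_im]

private theorem BMean_meas (c : ℂ) (r : ℝ) : MeasurableSet {z : ℝ × ℝ | ‖pt z - c‖ ≤ r} :=
  (isClosed_le ((pt_cont.sub continuous_const).norm) continuous_const).measurableSet

private theorem BMean_mem (c : ℂ) (r : ℝ) {p : ℝ × ℝ} (hp : 0 < p.1) :
    (c.re, c.im) + polarCoord.symm p ∈ {z : ℝ × ℝ | ‖pt z - c‖ ≤ r} ↔ p ∈ Iic r ×ˢ (univ : Set ℝ) := by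
  rw [Set.mem_ofPred_eq, BMean_pt, circleMap_sub_center, norm_circleMap_zero, abs_of_pos hp, Set.mem_prod]
  simp

private theorem BMean_set (r : ℝ) : polarCoord.target ∩ (Iic r ×ˢ (univ : Set ℝ)) = Ioc 0 r ×ˢ Ioo (-Real.pi) Real.pi := by
  rw [polarCoord_target]
  ext p
  simp only [Set.mem_inter_iff, Set.mem_prod, Set.mem_Ioi, Set.mem_Ioo, Set.mem_Iic, Set.mem_univ, Set.mem_Ioc]
  tauto

private theorem BMean_polar (h : ℂ → ℝ) (c : ℂ) (r : ℝ) :
    ∫ z in {z : ℝ × ℝ | ‖pt z - c‖ ≤ r}, h (pt z) =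
      ∫ p in Ioc 0 r ×ˢ Ioo (-Real.pi) Real.pi, p.1 * h (circleMap c p.1 p.2) := by
  rw [← integral_indicator (BMean_meas c r), ← integral_add_left_eq_self _ ((c.re, c.im) : ℝ × ℝ),
    ← integral_comp_polarCoord_symm, ← BMean_set r,
    ← setIntegral_indicator (measurableSet_Iic.prod MeasurableSet.univ)]
  refine setIntegral_congr_fun polarCoord.open_target.measurableSet (fun p hp => ?_)
  have hp1 : 0 < p.1 := hp.1
  by_cases hm : p ∈ Iic r ×ˢ (univ : Set ℝ)
  · have hm2 := (BMean_mem c r hp1).2 hm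
    simp only [indicator_of_mem hm, smul_eq_mul]
    rw [indicator_of_mem hm2, BMean_pt]
  · have hm2 := fun h' => hm ((BMean_mem c r hp1).1 h')
    simp only [indicator_of_notMem hm, smul_eq_mul]
    rw [indicator_of_notMem hm2, mul_zero]

private theorem BMean_in {c : ℂ} {r : ℝ} {z : ℂ} (h : ‖z - c‖ ≤ r) :
    z ∈ CB (c.re - r) (c.re + r) (c.im - r) (c.im + r) := by
  have h1 := (abs_le.1 ((Complex.abs_re_le_norm (z - c)).trans h))
  have h2 := (abs_le.1 ((Complex.abs_im_le_norm (z - c)).trans h))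
  rw [Complex.sub_re] at h1
  rw [Complex.sub_im] at h2
  exact ⟨by linarith [h1.1], by linarith [h1.2], by linarith [h2.1], by linarith [h2.2]⟩

private theorem BMean_int {h : ℂ → ℝ} {c : ℂ} {r : ℝ}
    (hc : ContinuousOn h (CB (c.re - r) (c.re + r) (c.im - r) (c.im + r))) :
    IntegrableOn (fun p : ℝ × ℝ => p.1 * h (circleMap c p.1 p.2)) (Ioc 0 r ×ˢ Ioo (-Real.pi) Real.pi)
      (volume.prod volume) := by
  have h1 : ContinuousOn (fun p : ℝ × ℝ => p.1 * h (circleMap c p.1 p.2)) (Icc 0 r ×ˢ Icc (-Real.pi) Real.pi) := by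
    refine ContinuousOn.mul continuous_fst.continuousOn (hc.comp ?_ ?_)
    · refine Continuous.continuousOn ?_
      unfold circleMap
      fun_prop
    · intro p hp
      refine BMean_in ?_
      rw [circleMap_sub_center, norm_circleMap_zero, abs_of_nonneg hp.1.1]
      exact hp.1.2
  have h2 := h1.integrableOn_compact (μ := (volume.prod volume)) (isCompact_Icc.prod isCompact_Icc)
  exact h2.mono_set (Set.prod_mono Ioc_subset_Icc_self Ioo_subset_Icc_self)

theorem area_mean (g : ℂ → ℂ) (c : ℂ) (r : ℝ) (hr : 0 < r)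
    (hg : ∀ s ∈ CB (c.re - r) (c.re + r) (c.im - r) (c.im + r), DifferentiableAt ℂ g s) :
    Real.pi * r ^ 2 * ‖g c‖ ≤
      BI (c.re - r) (c.re + r) (c.im - r) (c.im + r) (fun s => ‖g s‖) := by
  have hcont : ContinuousOn (fun s => ‖g s‖) (CB (c.re - r) (c.re + r) (c.im - r) (c.im + r)) :=
    fun s hs => (hg s hs).continuousAt.norm.continuousWithinAt
  have hi := BMean_int hcont
  have h1 : ∫ z in {z : ℝ × ℝ | ‖pt z - c‖ ≤ r}, ‖g (pt z)‖ ≤
      BI (c.re - r) (c.re + r) (c.im - r) (c.im + r) (fun s => ‖g s‖) := by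
    refine setIntegral_mono_set (bint_cont hcont) (Eventually.of_forall fun z => norm_nonneg _)
      (Eventually.of_forall fun z hz => ?_)
    exact pt_mem.1 (BMean_in hz)
  refine le_trans ?_ h1
  rw [BMean_polar (fun s => ‖g s‖) c r, Measure.volume_eq_prod, setIntegral_prod _ hi]
  have h2 : Real.pi * r ^ 2 * ‖g c‖ = ∫ ρ in Ioc 0 r, ρ * (2 * Real.pi * ‖g c‖) := by
    rw [← intervalIntegral.integral_of_le hr.le, intervalIntegral.integral_mul_const, integral_id]
    ring
  rw [h2]
  refine setIntegral_mono_on ?_ ?_ measurableSet_Ioc (fun ρ hρ => ?_)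
  · exact (Continuous.integrableOn_Icc (by fun_prop)).mono_set Ioc_subset_Icc_self
  · have h3 : Integrable (fun p : ℝ × ℝ => p.1 * ‖g (circleMap c p.1 p.2)‖)
        ((volume.restrict (Ioc 0 r)).prod (volume.restrict (Ioo (-Real.pi) Real.pi))) := by
      rw [Measure.prod_restrict]
      exact hi
    exact h3.integral_prod_left
  · have hρ1 : 0 < ρ := hρ.1
    rw [integral_const_mul, BMean_arc (fun s => ‖g s‖) c ρ]
    refine mul_le_mul_of_nonneg_left ?_ hρ1.le
    have hd : DiffContOnCl ℂ g (Metric.ball c |ρ|) := by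
      refine DifferentiableOn.diffContOnCl (fun z hz => ?_)
      have hz2 := Metric.closure_ball_subset_closedBall hz
      rw [Metric.mem_closedBall, dist_eq_norm, abs_of_pos hρ1] at hz2
      exact (hg z (BMean_in (hz2.trans hρ.2))).differentiableWithinAt
    have h4 := hd.circleAverage
    have h5 : ‖g c‖ ≤ (2 * Real.pi)⁻¹ * ∫ θ in (0 : ℝ)..2 * Real.pi, ‖g (circleMap c ρ θ)‖ := by
      rw [← h4, Real.circleAverage_def, norm_smul, Real.norm_eq_abs, abs_of_pos (by positivity)]
      exact mul_le_mul_of_nonneg_left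
        (intervalIntegral.norm_integral_le_integral_norm (by positivity)) (by positivity)
    have hpi : 0 < 2 * Real.pi := by positivity
    calc 2 * Real.pi * ‖g c‖ ≤ 2 * Real.pi * ((2 * Real.pi)⁻¹ * ∫ θ in (0 : ℝ)..2 * Real.pi, ‖g (circleMap c ρ θ)‖) :=
          mul_le_mul_of_nonneg_left h5 hpi.le
      _ = ∫ θ in (0 : ℝ)..2 * Real.pi, ‖g (circleMap c ρ θ)‖ := by
          rw [← mul_assoc, mul_inv_cancel₀ hpi.ne', one_mul]

end Pool.Agent.Lib.MP_ec260d_ntB
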