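import Mathlib
import Pool.Agent.Lib.MP_ec260d_ntB.Y.SPa

/-!
# JOB BQQ: `PP` as one sum over primes

PROOF (complete). `QQ δ T = P0 ∪ Y.SP δ T` (definition of `Y.SP`), `P0` = primes `≤ 10000`, the primes of `Pr` are `> 10000` (`mem_Pr`), so the union is disjoint.
* `PP_eq`: `Finset.sum_union`, `Y.sum_SP`. `QQ_mem`: `mem_Pr`, `log_xs`, `bet_le` (`log T ≥ 0`).
* `PP_der`: near `s` (in fact for all arguments) `PP_eq`; each term: `‖p^(-s)‖ = p^(-re s) < 1`, so `1 - p^(-s)` has positive real part (`slitPlane`), derivative of `s ↦ (p : ℂ)^(-s)` is `-(log p) p^(-s)` (`HasDerivAt.const_cpow`), `HasDerivAt.clog`, sum (`HasDerivAt.fun_sum`/`HasDerivAt.sum`).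
  `Complex.log p = (Real.log p : ℂ)` (`Complex.natCast_log`).
* `PP_two`: `re s = 2`: `‖p^(-s)‖ = p^(-2) ≤ 1/4`, `‖log (1 - z)‖ ≤ 2 ‖z‖` for `‖z‖ ≤ 1/2` (`Complex.norm_log_one_add_half_le_self` or `Complex.norm_log_one_add_le`), `∑_(p ∈ QQ) 2 p^(-2) ≤ 2 ∑_(n ≥ 1) n^(-2)` (summable: `Summable.sum_le_tsum`, `Real.summable_nat_pow_inv`). Take `C = 2 * ∑' n : ℕ, 1/(n:ℝ)^2`.
* `MM_diff`, `Pj_diff`: finite sums and products of `s ↦ (p : ℂ)^(-s)` with `p ≠ 0` (primes; for the members of `S ∈ powerset (Pr ..)` too): `Differentiable.fun_sum`, `Differentiable.fun_finsetProd` etc.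
-/

namespace Pool.Agent.Lib.MP_ec260d_ntB

open Complex Set Filter Topology MeasureTheory

/-- all primes of the mollifier -/
noncomputable def QQ (δ T : ℝ) : Finset ℕ := P0 ∪ (Finset.range (JJ T)).biUnion (Pr δ T)

theorem BQQ_eq (δ T : ℝ) : QQ δ T = P0 ∪ Y.SP δ T := rfl

theorem BQQ_disj (δ T : ℝ) : Disjoint P0 (Y.SP δ T) := by
  rw [Finset.disjoint_left]
  intro p hp hq
  unfold P0 at hp
  rw [Finset.mem_filter, Finset.mem_range] at hp
  unfold Y.SP at hq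
  rw [Finset.mem_biUnion] at hq
  obtain ⟨j, _, hj⟩ := hq
  have h := (mem_Pr.1 hj).2.1
  omega

theorem PP_eq {δ T : ℝ} (hδ : 0 < δ) (hT : 1 ≤ T) (s : ℂ) :
    PP δ T s = ∑ p ∈ QQ δ T, -Complex.log (1 - (p : ℂ) ^ (-s)) := by
  rw [BQQ_eq, Finset.sum_union (BQQ_disj δ T)]
  unfold PP
  rw [Y.sum_SP hδ hT]

theorem QQ_mem {δ T : ℝ} (hδ : 0 < δ) (hT : 1 ≤ T) {p : ℕ} (hp : p ∈ QQ δ T) :
    p.Prime ∧ Real.log p ≤ max (Real.log 10000) (δ * Real.log T) := by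
  unfold QQ at hp
  rw [Finset.mem_union, Finset.mem_biUnion] at hp
  rcases hp with hp | ⟨j, _, hj⟩
  · unfold P0 at hp
    rw [Finset.mem_filter, Finset.mem_range] at hp
    obtain ⟨h1, h2⟩ := hp
    refine ⟨h2, le_max_of_le_left ?_⟩
    apply Real.log_le_log
    · exact_mod_cast h2.pos
    · have h3 : p ≤ 10000 := by omega
      exact_mod_cast h3
  · obtain ⟨h1, _, _, h4⟩ := mem_Pr.1 hj
    refine ⟨h1, le_max_of_le_right ?_⟩
    have h5 : Real.log p ≤ Real.log (xs δ T j) := Real.log_le_log (by exact_mod_cast h1.pos) h4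
    rw [log_xs] at h5
    have h6 := bet_le hδ j
    have h7 : 0 ≤ Real.log T := Real.log_nonneg hT
    nlinarith

theorem BQQ_norm {p : ℕ} (hp : p.Prime) {s : ℂ} (hs : 0 < s.re) : ‖(p : ℂ) ^ (-s)‖ < 1 := by
  rw [Complex.norm_natCast_cpow_of_pos hp.pos]
  apply Real.rpow_lt_one_of_one_lt_of_neg
  · exact_mod_cast hp.one_lt
  · simpa using hs

theorem BQQ_slit {p : ℕ} (hp : p.Prime) {s : ℂ} (hs : 0 < s.re) : 1 - (p : ℂ) ^ (-s) ∈ Complex.slitPlane := by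
  rw [Complex.mem_slitPlane_iff]
  left
  have h := BQQ_norm hp hs
  have h2 := Complex.re_le_norm ((p : ℂ) ^ (-s))
  rw [Complex.sub_re, Complex.one_re]
  linarith

theorem BQQ_der {p : ℕ} (hp : p.Prime) {s : ℂ} (hs : 0 < s.re) :
    HasDerivAt (fun s : ℂ => -Complex.log (1 - (p : ℂ) ^ (-s)))
      (-((Real.log p : ℂ) * (p : ℂ) ^ (-s) / (1 - (p : ℂ) ^ (-s)))) s := by
  have hp0 : (p : ℂ) ≠ 0 := by exact_mod_cast hp.ne_zero
  have h1 : HasDerivAt (fun s : ℂ => (p : ℂ) ^ (-s)) ((p : ℂ) ^ (-s) * Complex.log p * (-1)) s :=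
    (hasDerivAt_neg s).const_cpow (Or.inl hp0)
  have h2 := (h1.const_sub 1).clog (BQQ_slit hp hs)
  have h3 := h2.neg
  have e : -((Real.log p : ℂ) * (p : ℂ) ^ (-s) / (1 - (p : ℂ) ^ (-s))) =
      -(-((p : ℂ) ^ (-s) * Complex.log p * (-1)) / (1 - (p : ℂ) ^ (-s))) := by
    rw [← Complex.natCast_log]
    ring
  rw [e]
  exact h3

theorem PP_der {δ T : ℝ} (hδ : 0 < δ) (hT : 1 ≤ T) {s : ℂ} (hs : 0 < s.re) :
    HasDerivAt (PP δ T)
      (∑ p ∈ QQ δ T, -((Real.log p : ℂ) * (p : ℂ) ^ (-s) / (1 - (p : ℂ) ^ (-s)))) s := by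
  have hf : PP δ T = fun s => ∑ p ∈ QQ δ T, -Complex.log (1 - (p : ℂ) ^ (-s)) := by
    funext s
    exact PP_eq hδ hT s
  rw [hf]
  exact HasDerivAt.fun_sum fun p hp => BQQ_der (QQ_mem hδ hT hp).1 hs

theorem PP_two : ∃ C : ℝ, 0 ≤ C ∧ ∀ δ T : ℝ, 0 < δ → 1 ≤ T → ∀ s : ℂ, s.re = 2 →
    ‖PP δ T s‖ ≤ C := by
  have hsum : Summable (fun n : ℕ => ((n : ℝ) ^ 2)⁻¹) := Real.summable_nat_pow_inv.2 (by norm_num)
  refine ⟨3 / 2 * ∑' n : ℕ, ((n : ℝ) ^ 2)⁻¹, mul_nonneg (by norm_num) (tsum_nonneg fun n => by positivity), ?_⟩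
  intro δ T hδ hT s hs
  rw [PP_eq hδ hT]
  refine le_trans (norm_sum_le _ _) ?_
  have h1 : ∀ p ∈ QQ δ T, ‖-Complex.log (1 - (p : ℂ) ^ (-s))‖ ≤ 3 / 2 * ((p : ℝ) ^ 2)⁻¹ := by
    intro p hp
    have hpp := (QQ_mem hδ hT hp).1
    have hn : ‖(p : ℂ) ^ (-s)‖ = ((p : ℝ) ^ 2)⁻¹ := by
      rw [Complex.norm_natCast_cpow_of_pos hpp.pos, Complex.neg_re, hs,
        Real.rpow_neg (Nat.cast_nonneg p)]
      norm_cast
    have h2 : (2 : ℝ) ≤ p := by exact_mod_cast hpp.two_le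
    have hle : ‖-(p : ℂ) ^ (-s)‖ ≤ 1 / 2 := by
      rw [norm_neg, hn]
      have h4 : (4 : ℝ) ≤ (p : ℝ) ^ 2 := by nlinarith
      calc ((p : ℝ) ^ 2)⁻¹ ≤ (4 : ℝ)⁻¹ := inv_anti₀ (by norm_num) h4
        _ ≤ 1 / 2 := by norm_num
    have h3 := Complex.norm_log_one_add_half_le_self hle
    rw [norm_neg, sub_eq_add_neg]
    rw [norm_neg, hn] at h3
    exact h3
  refine le_trans (Finset.sum_le_sum h1) ?_
  rw [← Finset.mul_sum]
  apply mul_le_mul_of_nonneg_left _ (by norm_num)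
  exact hsum.sum_le_tsum _ fun n _ => by positivity

theorem BQQ_cpow {p : ℕ} (hp : p ≠ 0) : Differentiable ℂ (fun s : ℂ => (p : ℂ) ^ (-s)) := by
  intro s
  have hp0 : (p : ℂ) ≠ 0 := by exact_mod_cast hp
  exact ((hasDerivAt_neg s).const_cpow (Or.inl hp0)).differentiableAt

theorem MM_diff (δ T : ℝ) : Differentiable ℂ (MM δ T) := by
  unfold MM Mj
  apply Differentiable.fun_mul
  · apply Differentiable.fun_finsetProd
    intro p hp
    have hp1 : p.Prime := (Finset.mem_filter.1 hp).2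
    exact (differentiable_const _).sub (BQQ_cpow hp1.ne_zero)
  · apply Differentiable.fun_finsetProd
    intro j _
    apply Differentiable.fun_sum
    intro S hS
    apply Differentiable.const_mul
    apply Differentiable.fun_finsetProd
    intro p hp
    have hS1 : S ⊆ Pr δ T j := Finset.mem_powerset.1 (Finset.mem_filter.1 hS).1
    exact BQQ_cpow (mem_Pr.1 (hS1 hp)).1.ne_zero

theorem Pj_diff (δ T : ℝ) (j : ℕ) : Differentiable ℂ (Pj δ T j) := by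
  unfold Pj
  apply Differentiable.fun_sum
  intro p hp
  exact BQQ_cpow (mem_Pr.1 hp).1.ne_zero

end Pool.Agent.Lib.MP_ec260d_ntB
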