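import Mathlib

/-!
# JOB BKap: the smooth step

`kap2` is the continuous function with support in `[-1, 0]` given there by `60 y - 180 y ^ 2 + 120 y ^ 3`, `y = x + 1`; `kap1 x = ∫_{-1}^x kap2`, `kap0 x = ∫_{-1}^x kap1`.
* `kap2_cont`: at `x = -1` and `x = 0` the polynomial vanishes (`60 - 180 + 120 = 0`): `Continuous.if_le`-type lemmas or `continuous_if`/`ContinuousOn.piecewise`, or write
  `kap2 x` as the polynomial in `max 0 (min 1 (x + 1))` (its values at `y = 0` and `y = 1` are `0`).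
* `kap1_der`, `kap0_der`: fundamental theorem of calculus (`intervalIntegral.integral_hasDerivAt_right` or `Continuous.integral_hasStrictDerivAt`), continuity of the integrand
  (`kap1` is continuous as it has a derivative everywhere).
* On `[-1, 0]`: `kap1 x = 30 y ^ 2 (1 - y) ^ 2`, `kap0 x = 10 y ^ 3 - 15 y ^ 4 + 6 y ^ 5` (both sides have the same derivative on `[-1, 0]` and vanish at `-1`: or compute the integral of the polynomial,
  `integral_congr` and `integral_pow`). For `x ≤ -1` the integrands vanish; for `x ≥ 0`: `kap1 x = kap1 0 + 0 = 0`, `kap0 x = kap0 0 + 0 = 1`.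
* `kap0_mono`: derivative `kap1 ≥ 0` (`monotone_of_deriv_nonneg`). `kap0` has values in `[0, 1]`.
* `kap2_abs`: `60 y - 180 y ^ 2 + 120 y ^ 3 = 60 y (1 - y) (1 - 2 y)`, of absolute value at most `15`. `kap1_le`: `30 y ^ 2 (1 - y) ^ 2 ≤ 30 / 16 ≤ 2`.
-/

namespace Pool.Agent.Lib.MP_ec260d_ntB

open Set Filter Topology MeasureTheory

/-- the second derivative of the step -/
noncomputable def kap2 (x : ℝ) : ℝ :=
  if -1 ≤ x ∧ x ≤ 0 then 60 * (x + 1) - 180 * (x + 1) ^ 2 + 120 * (x + 1) ^ 3 else 0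

/-- the derivative of the step -/
noncomputable def kap1 (x : ℝ) : ℝ := ∫ y in (-1)..x, kap2 y

/-- the step: `0` for `x ≤ -1`, `1` for `0 ≤ x` -/
noncomputable def kap0 (x : ℝ) : ℝ := ∫ y in (-1)..x, kap1 y

private theorem BKap_clamp (x : ℝ) : kap2 x = 60 * (max 0 (min 1 (x + 1))) - 180 * (max 0 (min 1 (x + 1))) ^ 2 +
    120 * (max 0 (min 1 (x + 1))) ^ 3 := by
  unfold kap2
  split_ifs with h
  · have h1 : min 1 (x + 1) = x + 1 := min_eq_right (by linarith [h.2])
    have h2 : max 0 (x + 1) = x + 1 := max_eq_right (by linarith [h.1])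
    rw [h1, h2]
  · rcases le_or_gt x (-1) with h1 | h1
    · have h2 : min 1 (x + 1) = x + 1 := min_eq_right (by linarith)
      have h3 : max 0 (x + 1) = 0 := max_eq_left (by linarith)
      rw [h2, h3]
      norm_num
    · have h2 : 0 < x := by
        by_contra h3
        exact h ⟨h1.le, not_lt.1 h3⟩
      have h3 : min 1 (x + 1) = 1 := min_eq_left (by linarith)
      have h4 : max (0 : ℝ) 1 = 1 := max_eq_right (by norm_num)
      rw [h3, h4]
      norm_num

theorem kap2_cont : Continuous kap2 := by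
  have h : kap2 = fun x => 60 * (max 0 (min 1 (x + 1))) - 180 * (max 0 (min 1 (x + 1))) ^ 2 +
      120 * (max 0 (min 1 (x + 1))) ^ 3 := funext BKap_clamp
  rw [h]
  have hc : Continuous (fun x : ℝ => max 0 (min 1 (x + 1))) :=
    continuous_const.max (continuous_const.min (continuous_id.add continuous_const))
  exact ((continuous_const.mul hc).sub (continuous_const.mul (hc.pow 2))).add (continuous_const.mul (hc.pow 3))

theorem kap2_zero {x : ℝ} (h : x ≤ -1 ∨ 0 ≤ x) : kap2 x = 0 := by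
  rw [BKap_clamp]
  rcases h with h | h
  · have h2 : min 1 (x + 1) = x + 1 := min_eq_right (by linarith)
    have h3 : max 0 (x + 1) = 0 := max_eq_left (by linarith)
    rw [h2, h3]
    norm_num
  · have h3 : min 1 (x + 1) = 1 := min_eq_left (by linarith)
    have h4 : max (0 : ℝ) 1 = 1 := max_eq_right (by norm_num)
    rw [h3, h4]
    norm_num

private theorem BKap_mid2 {x : ℝ} (h1 : -1 ≤ x) (h2 : x ≤ 0) :
    kap2 x = 60 * (x + 1) - 180 * (x + 1) ^ 2 + 120 * (x + 1) ^ 3 := by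
  unfold kap2
  rw [if_pos ⟨h1, h2⟩]

theorem kap2_abs (x : ℝ) : |kap2 x| ≤ 15 := by
  rcases le_or_gt x (-1) with h | h
  · rw [kap2_zero (Or.inl h)]
    norm_num
  rcases le_or_gt 0 x with h' | h'
  · rw [kap2_zero (Or.inr h')]
    norm_num
  rw [BKap_mid2 h.le h'.le]
  have e : 60 * (x + 1) - 180 * (x + 1) ^ 2 + 120 * (x + 1) ^ 3 = 60 * ((x + 1) * (1 - (x + 1))) * (1 - 2 * (x + 1)) := by
    ring
  rw [e, abs_mul]
  have h1 : |60 * ((x + 1) * (1 - (x + 1)))| ≤ 15 := by
    rw [abs_le]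
    constructor
    · nlinarith [mul_pos (show 0 < x + 1 by linarith) (show 0 < 1 - (x + 1) by linarith)]
    · nlinarith [sq_nonneg (2 * (x + 1) - 1)]
  have h2 : |1 - 2 * (x + 1)| ≤ 1 := by
    rw [abs_le]
    constructor <;> linarith
  calc _ ≤ 15 * 1 := mul_le_mul h1 h2 (abs_nonneg _) (by norm_num)
    _ = 15 := by norm_num

theorem kap1_der (x : ℝ) : HasDerivAt kap1 (kap2 x) x :=
  intervalIntegral.integral_hasDerivAt_right (kap2_cont.intervalIntegrable _ _)
    (kap2_cont.stronglyMeasurableAtFilter _ _) kap2_cont.continuousAt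

private theorem BKap_cont1 : Continuous kap1 :=
  continuous_iff_continuousAt.2 (fun x => (kap1_der x).continuousAt)

private theorem BKap_mid1 {x : ℝ} (h1 : -1 ≤ x) (h2 : x ≤ 0) : kap1 x = 30 * (x + 1) ^ 2 * x ^ 2 := by
  have h3 : ∫ y in (-1 : ℝ)..x, kap2 y =
      ∫ y in (-1 : ℝ)..x, (60 * (y + 1) - 180 * (y + 1) ^ 2 + 120 * (y + 1) ^ 3) := by
    refine intervalIntegral.integral_congr (fun y hy => ?_)
    rw [uIcc_of_le h1] at hy
    exact BKap_mid2 hy.1 (hy.2.trans h2)
  have h4 : ∀ y ∈ uIcc (-1 : ℝ) x, HasDerivAt (fun y : ℝ => 30 * (y + 1) ^ 2 - 60 * (y + 1) ^ 3 + 30 * (y + 1) ^ 4)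
      (60 * (y + 1) - 180 * (y + 1) ^ 2 + 120 * (y + 1) ^ 3) y := by
    intro y _
    have hy : HasDerivAt (fun y : ℝ => y + 1) 1 y := (hasDerivAt_id y).add_const 1
    have := (((hy.pow 2).const_mul 30).sub ((hy.pow 3).const_mul 60)).add ((hy.pow 4).const_mul 30)
    refine this.congr_deriv ?_
    push_cast
    ring
  have h5 := intervalIntegral.integral_eq_sub_of_hasDerivAt h4
    (Continuous.intervalIntegrable (by fun_prop) _ _)
  unfold kap1
  rw [h3, h5]
  ring

theorem kap1_zero {x : ℝ} (h : x ≤ -1 ∨ 0 ≤ x) : kap1 x = 0 := by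
  rcases h with h | h
  · unfold kap1
    have : ∫ y in (-1 : ℝ)..x, kap2 y = ∫ y in (-1 : ℝ)..x, (0 : ℝ) := by
      refine intervalIntegral.integral_congr (fun y hy => ?_)
      rw [uIcc_of_ge h] at hy
      exact kap2_zero (Or.inl hy.2)
    rw [this]
    simp
  · have h0 : kap1 0 = 0 := by
      rw [BKap_mid1 (by norm_num) le_rfl]
      norm_num
    have h1 : kap1 x = kap1 0 + ∫ y in (0 : ℝ)..x, kap2 y := by
      unfold kap1
      rw [intervalIntegral.integral_add_adjacent_intervals (kap2_cont.intervalIntegrable _ _)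
        (kap2_cont.intervalIntegrable _ _)]
    have h2 : ∫ y in (0 : ℝ)..x, kap2 y = ∫ y in (0 : ℝ)..x, (0 : ℝ) := by
      refine intervalIntegral.integral_congr (fun y hy => ?_)
      rw [uIcc_of_le h] at hy
      exact kap2_zero (Or.inr hy.1)
    rw [h1, h0, h2]
    simp

theorem kap1_nonneg (x : ℝ) : 0 ≤ kap1 x := by
  rcases le_or_gt x (-1) with h | h
  · rw [kap1_zero (Or.inl h)]
  rcases le_or_gt 0 x with h' | h'
  · rw [kap1_zero (Or.inr h')]
  rw [BKap_mid1 h.le h'.le]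
  positivity

theorem kap1_le (x : ℝ) : kap1 x ≤ 2 := by
  rcases le_or_gt x (-1) with h | h
  · rw [kap1_zero (Or.inl h)]
    norm_num
  rcases le_or_gt 0 x with h' | h'
  · rw [kap1_zero (Or.inr h')]
    norm_num
  rw [BKap_mid1 h.le h'.le]
  have h1 : 0 ≤ (x + 1) * (-x) := mul_nonneg (by linarith) (by linarith)
  have h2 : (x + 1) * (-x) ≤ 1 / 4 := by nlinarith [sq_nonneg (2 * x + 1)]
  have h3 : 30 * (x + 1) ^ 2 * x ^ 2 = 30 * ((x + 1) * (-x)) ^ 2 := by ring
  rw [h3]
  nlinarith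

theorem kap0_der (x : ℝ) : HasDerivAt kap0 (kap1 x) x :=
  intervalIntegral.integral_hasDerivAt_right (BKap_cont1.intervalIntegrable _ _)
    (BKap_cont1.stronglyMeasurableAtFilter _ _) BKap_cont1.continuousAt

theorem kap0_left {x : ℝ} (h : x ≤ -1) : kap0 x = 0 := by
  unfold kap0
  have : ∫ y in (-1 : ℝ)..x, kap1 y = ∫ y in (-1 : ℝ)..x, (0 : ℝ) := by
    refine intervalIntegral.integral_congr (fun y hy => ?_)
    rw [uIcc_of_ge h] at hy
    exact kap1_zero (Or.inl hy.2)
  rw [this]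
  simp

private theorem BKap_one : kap0 0 = 1 := by
  have h3 : ∫ y in (-1 : ℝ)..0, kap1 y = ∫ y in (-1 : ℝ)..0, (30 * (y + 1) ^ 2 * y ^ 2) := by
    refine intervalIntegral.integral_congr (fun y hy => ?_)
    rw [uIcc_of_le (by norm_num : (-1 : ℝ) ≤ 0)] at hy
    exact BKap_mid1 hy.1 hy.2
  have h4 : ∀ y ∈ uIcc (-1 : ℝ) 0, HasDerivAt (fun y : ℝ => 10 * (y + 1) ^ 3 - 15 * (y + 1) ^ 4 + 6 * (y + 1) ^ 5)
      (30 * (y + 1) ^ 2 * y ^ 2) y := by
    intro y _
    have hy : HasDerivAt (fun y : ℝ => y + 1) 1 y := (hasDerivAt_id y).add_const 1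
    have := (((hy.pow 3).const_mul 10).sub ((hy.pow 4).const_mul 15)).add ((hy.pow 5).const_mul 6)
    refine this.congr_deriv ?_
    push_cast
    ring
  have h5 := intervalIntegral.integral_eq_sub_of_hasDerivAt h4
    (Continuous.intervalIntegrable (by fun_prop) _ _)
  unfold kap0
  rw [h3, h5]
  norm_num

theorem kap0_right {x : ℝ} (h : 0 ≤ x) : kap0 x = 1 := by
  have h1 : kap0 x = kap0 0 + ∫ y in (0 : ℝ)..x, kap1 y := by
    unfold kap0
    rw [intervalIntegral.integral_add_adjacent_intervals (BKap_cont1.intervalIntegrable _ _)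
      (BKap_cont1.intervalIntegrable _ _)]
  have h2 : ∫ y in (0 : ℝ)..x, kap1 y = ∫ y in (0 : ℝ)..x, (0 : ℝ) := by
    refine intervalIntegral.integral_congr (fun y hy => ?_)
    rw [uIcc_of_le h] at hy
    exact kap1_zero (Or.inr hy.1)
  rw [h1, BKap_one, h2]
  simp

theorem kap0_mono : Monotone kap0 := by
  refine monotone_of_deriv_nonneg (fun x => (kap0_der x).differentiableAt) (fun x => ?_)
  rw [(kap0_der x).deriv]
  exact kap1_nonneg x

theorem kap0_nonneg (x : ℝ) : 0 ≤ kap0 x := by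
  rcases le_total x (-1) with h | h
  · rw [kap0_left h]
  · have h1 := kap0_mono h
    rwa [kap0_left le_rfl] at h1

theorem kap0_le (x : ℝ) : kap0 x ≤ 1 := by
  rcases le_total 0 x with h | h
  · rw [kap0_right h]
  · have h1 := kap0_mono h
    rwa [BKap_one] at h1

end Pool.Agent.Lib.MP_ec260d_ntB
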