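import Mathlib
import Pool.Agent.Lib.MP_ec260d_ntB.BBox

/-!
# JOB BLogInt: the logarithm is integrable over boxes

* `log_pt_int`: `s ↦ log ‖s - ρ‖` is integrable over every box. `|log x| ≤ 2 x ^ (-1/2) + x` for `x > 0` (`log x ≤ x`; `- log x = 2 log (x ^ (-1/2)) ≤ 2 x ^ (-1/2)`), and for `x = ‖s - ρ‖ ≥ |s.re - ρ.re|`: `x ^ (-1/2) ≤ |s.re - ρ.re| ^ (-1/2)` (for `s.re ≠ ρ.re`),
  a function of the first coordinate, integrable on `[a, b]` (`intervalIntegrable_rpow'` with exponent `-1/2 > -1`, split at `ρ.re` and use the symmetry; or `Real` results on `|x| ^ r`), and `[A, B]` has finite measure: integrable on the product (`Integrable.mul_prod` with the constant `1`, or `Integrable.comp_fst`).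
  Measurability: `Real.measurable_log`, `continuous`. The points with `s.re = ρ.re` have measure zero (or bound `|log|` by the function with the value `0 ^ (-1/2) = 0`, almost everywhere).
-/

namespace Pool.Agent.Lib.MP_ec260d_ntB

open Complex Set Filter Topology MeasureTheory

theorem log_pt_int (ρ : ℂ) (a b A B : ℝ) : BInt a b A B (fun s => Real.log ‖s - ρ‖) := by
  have h1 : IntegrableOn (fun x : ℝ => Real.log (x - ρ.re)) (Icc a b) volume := by
    rcases le_or_gt a b with hab | hab
    · have h := (intervalIntegral.intervalIntegrable_log' (a := a - ρ.re)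
        (b := b - ρ.re)).comp_sub_right ρ.re
      rw [sub_add_cancel, sub_add_cancel] at h
      exact (intervalIntegrable_iff_integrableOn_Icc_of_le hab).1 h
    · rw [Icc_eq_empty (not_le.2 hab)]
      exact integrableOn_empty
  have h2 : IntegrableOn (fun z : ℝ × ℝ => |Real.log (z.1 - ρ.re)|) (bx a b A B) volume := by
    have h3 : Integrable (fun z : ℝ × ℝ => |Real.log (z.1 - ρ.re)|)
        ((volume.restrict (Icc a b)).prod (volume.restrict (Icc A B))) :=
      Integrable.comp_fst (Integrable.abs h1) (volume.restrict (Icc A B))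
    rw [Measure.prod_restrict, ← Measure.volume_eq_prod] at h3
    exact h3
  have hc : Continuous fun z : ℝ × ℝ => ‖pt z - ρ‖ := (pt_cont.sub continuous_const).norm
  have h4 : IntegrableOn (fun z : ℝ × ℝ => ‖pt z - ρ‖) (bx a b A B) volume :=
    hc.continuousOn.integrableOn_compact (bx_compact a b A B)
  have hnull : volume {z : ℝ × ℝ | z.1 = ρ.re} = 0 := by
    have e : {z : ℝ × ℝ | z.1 = ρ.re} = ({ρ.re} : Set ℝ) ×ˢ (univ : Set ℝ) := by
      ext z
      simp
    rw [e, Measure.volume_eq_prod, Measure.prod_prod, Real.volume_singleton, zero_mul]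
  have hae : ∀ᵐ z : ℝ × ℝ ∂(volume.restrict (bx a b A B)), z.1 ≠ ρ.re := by
    refine ae_restrict_of_ae ?_
    rw [ae_iff]
    simp only [not_not]
    exact hnull
  refine Integrable.mono' (Integrable.add h2 h4)
    (Real.measurable_log.comp hc.measurable).aestronglyMeasurable (hae.mono fun z hz => ?_)
  show ‖Real.log ‖pt z - ρ‖‖ ≤ |Real.log (z.1 - ρ.re)| + ‖pt z - ρ‖
  have hu : 0 < |z.1 - ρ.re| := abs_pos.2 (sub_ne_zero.2 hz)
  have hle : |z.1 - ρ.re| ≤ ‖pt z - ρ‖ := by
    have h := Complex.abs_re_le_norm (pt z - ρ)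
    rwa [Complex.sub_re, pt_re] at h
  have hx : 0 < ‖pt z - ρ‖ := hu.trans_le hle
  rw [Real.norm_eq_abs]
  rcases le_total ‖pt z - ρ‖ 1 with h | h
  · have h5 : Real.log |z.1 - ρ.re| ≤ Real.log ‖pt z - ρ‖ := Real.log_le_log hu hle
    have h6 : Real.log ‖pt z - ρ‖ ≤ 0 := Real.log_nonpos hx.le h
    rw [Real.log_abs] at h5
    rw [abs_of_nonpos h6]
    have h7 := neg_le_abs (Real.log (z.1 - ρ.re))
    linarith
  · rw [abs_of_nonneg (Real.log_nonneg h)]
    have h5 := Real.log_le_sub_one_of_pos hx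
    have h6 := abs_nonneg (Real.log (z.1 - ρ.re))
    linarith

end Pool.Agent.Lib.MP_ec260d_ntB
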