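import Mathlib
import Pool.Agent.Lib.MP_00e05b_nt.Xi
import Pool.Agent.Lib.MP_ec260d_ntB.BLogInt

/-!
# JOB BLogXi: the logarithms of `|xi|` and `|ζ|` are integrable over boxes

* `log_int_xi`: let `S` be the finite set of the zeros of `xi` in the box `CB a b A B` (finite: `finite_zeros` in MP_00e05b_nt/Count.lean with `xi_growth`, the box is bounded; `xi 0 = -1 ≠ 0`). `exists_factor` (MP_00e05b_nt/Factor.lean): `xi z = (∏ a ∈ S, (z - a) ^ m a) * g z`, `g` entire, `g a ≠ 0` for `a ∈ S`;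
  so `g` has no zero in the box (`g z = 0` implies `xi z = 0`, so `z ∈ S`). Off `S` (finite, measure zero; the preimage under `pt` of a finite set is finite) `log ‖xi z‖ = ∑ m a * log ‖z - a‖ + log ‖g z‖`; the sum is integrable (finite sums of `log_pt_int`) and `log ‖g‖` is continuous on the box (`bint_cont`).
* `log_int_zeta`: on `[1/2, 2] × [A, B]` with `0 < A`: `xi s = s (1 - s) Gammaℝ s ζ(s)` (`xi_eq_zeta`), `s (1 - s) Gammaℝ s` is continuous and nonzero there, so `log ‖ζ s‖ = log ‖xi s‖ - log ‖s (1 - s) Gammaℝ s‖` where `xi s ≠ 0`; where `xi s = 0` also `ζ s = 0` and both logarithms are `log 0 = 0`: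
  almost everywhere equality is enough (finite set of zeros). (`ζ` is differentiable at `s ≠ 1`; `Gammaℝ_ne_zero_of_re_pos`; continuity of `Gammaℝ`: `differentiableAt_Gammaℝ...` or `Gammaℝ_def` and `Complex.differentiableAt_Gamma`.)
-/

namespace Pool.Agent.Lib.MP_ec260d_ntB

open Complex Set Filter Topology MeasureTheory
open Pool.Agent.Lib.MP_00e05b_nt (xi)

/-- the zeros in a box are finite in number -/
private theorem blx_fin (a b A B : ℝ) : {s : ℂ | xi s = 0 ∧ s ∈ CB a b A B}.Finite := by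
  obtain ⟨C, hC⟩ := Pool.Agent.Lib.MP_00e05b_nt.xi_growth
  refine (Pool.Agent.Lib.MP_00e05b_nt.finite_zeros hC (|a| + |b| + (|A| + |B|))).subset ?_
  rintro s ⟨h0, h1, h2, h3, h4⟩
  refine ⟨h0, ?_⟩
  have h5 : |s.re| ≤ |a| + |b| :=
    abs_le.2 ⟨by linarith [neg_abs_le a, abs_nonneg b], by linarith [le_abs_self b, abs_nonneg a]⟩
  have h6 : |s.im| ≤ |A| + |B| :=
    abs_le.2 ⟨by linarith [neg_abs_le A, abs_nonneg B], by linarith [le_abs_self B, abs_nonneg A]⟩
  linarith [Complex.norm_le_abs_re_add_abs_im s]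

private theorem blx_inj : Function.Injective pt := by
  intro z w h
  have h1 := congrArg Complex.re h
  have h2 := congrArg Complex.im h
  rw [pt_re, pt_re] at h1
  rw [pt_im, pt_im] at h2
  exact Prod.ext h1 h2

private theorem blx_ae {a b A B : ℝ} {f g : ℂ → ℝ} {S : Set ℂ} (hS : S.Finite)
    (h : ∀ s ∈ CB a b A B, s ∉ S → f s = g s) (hf : BInt a b A B f) : BInt a b A B g := by
  have h1 : (pt ⁻¹' S).Finite := hS.preimage blx_inj.injOn
  have h2 : (volume : Measure (ℝ × ℝ)) (pt ⁻¹' S) = 0 := h1.measure_zero volume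
  refine Integrable.congr hf ?_
  rw [Filter.EventuallyEq, ae_restrict_iff' (bx_meas a b A B)]
  filter_upwards [measure_eq_zero_iff_ae_notMem.1 h2] with z hz hzb
  exact h _ (pt_mem.2 hzb) hz

private theorem blx_sum {a b A B : ℝ} (S : Finset ℂ) (c : ℂ → ℝ) :
    BInt a b A B (fun s => ∑ ρ ∈ S, c ρ * Real.log ‖s - ρ‖) := by
  unfold BInt
  refine integrable_finsetSum S fun ρ _ => ?_
  exact Integrable.const_mul (log_pt_int ρ a b A B) (c ρ)

theorem log_int_xi (a b A B : ℝ) : BInt a b A B (fun s => Real.log ‖xi s‖) := by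
  have hfin := blx_fin a b A B
  have hx0 : xi 0 ≠ 0 := by
    rw [Pool.Agent.Lib.MP_00e05b_nt.xi_zero]
    norm_num
  obtain ⟨g, hg, hfg, hgS⟩ := Pool.Agent.Lib.MP_00e05b_nt.exists_factor
    Pool.Agent.Lib.MP_00e05b_nt.differentiable_xi hx0 hfin.toFinset
  have hg0 : ∀ s ∈ CB a b A B, g s ≠ 0 := by
    intro s hs h
    have h1 : xi s = 0 := by rw [hfg s, h, mul_zero]
    exact hgS s (hfin.mem_toFinset.2 ⟨h1, hs⟩) h
  have h2 : BInt a b A B (fun s => (∑ ρ ∈ hfin.toFinset,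
      (analyticOrderNatAt xi ρ : ℝ) * Real.log ‖s - ρ‖) + Real.log ‖g s‖) := by
    refine bint_add (blx_sum _ _) (bint_cont ?_)
    exact ContinuousOn.log hg.continuous.norm.continuousOn fun s hs => norm_ne_zero_iff.2 (hg0 s hs)
  refine blx_ae hfin (fun s hs hsn => ?_) h2
  have hne : ∀ ρ ∈ hfin.toFinset, (s - ρ) ^ analyticOrderNatAt xi ρ ≠ 0 := by
    intro ρ hρ
    refine pow_ne_zero _ (sub_ne_zero.2 ?_)
    rintro rfl
    exact hsn (hfin.mem_toFinset.1 hρ)
  have h3 : Real.log ‖xi s‖ = (∑ ρ ∈ hfin.toFinset,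
      (analyticOrderNatAt xi ρ : ℝ) * Real.log ‖s - ρ‖) + Real.log ‖g s‖ := by
    conv_lhs => rw [hfg s]
    rw [norm_mul, Real.log_mul (norm_ne_zero_iff.2 (Finset.prod_ne_zero_iff.2 hne))
      (norm_ne_zero_iff.2 (hg0 s hs)), norm_prod, Real.log_prod (fun ρ hρ => norm_ne_zero_iff.2 (hne ρ hρ))]
    congr 1
    refine Finset.sum_congr rfl fun ρ _ => ?_
    rw [norm_pow, Real.log_pow]
  exact h3.symm

theorem log_int_zeta (A B : ℝ) (hA : 0 < A) :
    BInt (1 / 2) 2 A B (fun s => Real.log ‖riemannZeta s‖) := by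
  have hfin := blx_fin (1 / 2) 2 A B
  have hre : ∀ s ∈ CB (1 / 2) 2 A B, 0 < s.re := fun s hs => by linarith [hs.1]
  have h1 : ∀ s ∈ CB (1 / 2) 2 A B, s ≠ 1 := by
    intro s hs h
    have h2 := hs.2.2.1
    rw [h, Complex.one_im] at h2
    linarith
  have h0 : ∀ s ∈ CB (1 / 2) 2 A B, s ≠ 0 := by
    intro s hs h
    have h2 := hs.1
    rw [h, Complex.zero_re] at h2
    linarith
  have hq : ∀ s ∈ CB (1 / 2) 2 A B, s * (1 - s) * Gammaℝ s ≠ 0 := fun s hs =>
    mul_ne_zero (mul_ne_zero (h0 s hs) (sub_ne_zero.2 (h1 s hs).symm))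
      (Gammaℝ_ne_zero_of_re_pos (hre s hs))
  have hG : ContinuousOn Gammaℝ (CB (1 / 2) 2 A B) := by
    have h3 := (differentiable_Gammaℝ_inv.continuous.continuousOn (s := CB (1 / 2) 2 A B)).inv₀
      (fun s hs => inv_ne_zero (Gammaℝ_ne_zero_of_re_pos (hre s hs)))
    refine h3.congr fun s _ => ?_
    show Gammaℝ s = ((Gammaℝ s)⁻¹)⁻¹
    rw [inv_inv]
  have hc : BInt (1 / 2) 2 A B (fun s => Real.log ‖s * (1 - s) * Gammaℝ s‖) := by
    refine bint_cont ?_
    refine ContinuousOn.log (ContinuousOn.norm ?_) fun s hs => norm_ne_zero_iff.2 (hq s hs)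
    exact (continuousOn_id.mul (continuousOn_const.sub continuousOn_id)).mul hG
  refine blx_ae hfin (fun s hs hsn => ?_) (bint_sub (log_int_xi (1 / 2) 2 A B) hc)
  have hz : xi s ≠ 0 := fun h => hsn ⟨h, hs⟩
  have h4 := Pool.Agent.Lib.MP_00e05b_nt.xi_eq_zeta (hre s hs) (h1 s hs)
  have h5 : riemannZeta s ≠ 0 := by
    intro h
    rw [h, mul_zero] at h4
    exact hz h4
  show Real.log ‖xi s‖ - Real.log ‖s * (1 - s) * Gammaℝ s‖ = Real.log ‖riemannZeta s‖
  rw [h4, norm_mul, Real.log_mul (norm_ne_zero_iff.2 (hq s hs)) (norm_ne_zero_iff.2 h5)]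
  ring

end Pool.Agent.Lib.MP_ec260d_ntB
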