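import Mathlib

/-!
# Test functions
-/

namespace Pool.Agent.Lib.MP_ec260d_ntB

open Complex Set Filter Topology MeasureTheory

/-- a `C ^ 2` test function with support in `[A, B]`, and its two derivatives -/
structure Tst (φ φ1 φ2 : ℝ → ℝ) (A B : ℝ) : Prop where
  d1 : ∀ t, HasDerivAt φ (φ1 t) t
  d2 : ∀ t, HasDerivAt φ1 (φ2 t) t
  cont : Continuous φ2
  supp : ∀ t, t < A ∨ B < t → φ t = 0 ∧ φ1 t = 0 ∧ φ2 t = 0

theorem Tst.c0 {φ φ1 φ2 : ℝ → ℝ} {A B : ℝ} (h : Tst φ φ1 φ2 A B) : Continuous φ :=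
  continuous_iff_continuousAt.2 fun t => (h.d1 t).continuousAt

theorem Tst.c1 {φ φ1 φ2 : ℝ → ℝ} {A B : ℝ} (h : Tst φ φ1 φ2 A B) : Continuous φ1 :=
  continuous_iff_continuousAt.2 fun t => (h.d2 t).continuousAt

private theorem tst_left {f : ℝ → ℝ} (hf : Continuous f) {A : ℝ} (h : ∀ t, t < A → f t = 0) :
    f A = 0 := by
  have h1 : closure (Iio A) ⊆ {t | f t = 0} :=
    closure_minimal (fun t ht => h t ht) (isClosed_eq hf continuous_const)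
  rw [closure_Iio] at h1
  exact h1 (Set.mem_Iic.2 le_rfl)

private theorem tst_right {f : ℝ → ℝ} (hf : Continuous f) {B : ℝ} (h : ∀ t, B < t → f t = 0) :
    f B = 0 := by
  have h1 : closure (Ioi B) ⊆ {t | f t = 0} :=
    closure_minimal (fun t ht => h t ht) (isClosed_eq hf continuous_const)
  rw [closure_Ioi] at h1
  exact h1 (Set.mem_Ici.2 le_rfl)

theorem Tst.zeroA {φ φ1 φ2 : ℝ → ℝ} {A B : ℝ} (h : Tst φ φ1 φ2 A B) :
    φ A = 0 ∧ φ1 A = 0 ∧ φ2 A = 0 :=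
  ⟨tst_left h.c0 fun t ht => (h.supp t (Or.inl ht)).1,
    tst_left h.c1 fun t ht => (h.supp t (Or.inl ht)).2.1,
    tst_left h.cont fun t ht => (h.supp t (Or.inl ht)).2.2⟩

theorem Tst.zeroB {φ φ1 φ2 : ℝ → ℝ} {A B : ℝ} (h : Tst φ φ1 φ2 A B) :
    φ B = 0 ∧ φ1 B = 0 ∧ φ2 B = 0 :=
  ⟨tst_right h.c0 fun t ht => (h.supp t (Or.inr ht)).1,
    tst_right h.c1 fun t ht => (h.supp t (Or.inr ht)).2.1,
    tst_right h.cont fun t ht => (h.supp t (Or.inr ht)).2.2⟩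

end Pool.Agent.Lib.MP_ec260d_ntB
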