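import Mathlib
import Pool.Agent.Lib.MP_ec260d_ntB.BKap
import Pool.Agent.Lib.MP_ec260d_ntB.BLogXi
import Pool.Agent.Lib.MP_ec260d_ntB.Defs
import Pool.Agent.Lib.MP_ec260d_ntB.GTst

/-!
# The step functions at the scale `hT T` and the functional `Lam`

* JOB GLam. `stp T u t = kap0 ((t - u) / hT T)`, `stp1`, `stp2` its derivatives; `T ≥ 2` so that `hT T > 0`. `Lam T u = π⁻¹ ∫ over [1/2, 2] × [u - hT T, u] of stp2 T u (Im s) * log ‖ζ s‖`.
* `stp_tst`: for `u1 ≤ u2` the function `φ = stp T u1 - stp T u2` is a test function with support in `[u1 - hT T, u2]` (`kap0_left`, `kap0_right`, chain rule).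
* `stp_bd`: `0 ≤ φ ≤ 1` (`kap0` is monotone with values in `[0, 1]`), `φ = 1` on `[u1, u2 - hT T]`.
* `lam_eq`: for `u1 ≤ u2`, `0 < u1 - hT T`: `BI (1/2) 2 (u1 - hT T) u2 ((stp2 T u1 - stp2 T u2) (Im s) * log ‖ζ s‖) = π (Lam T u1 - Lam T u2)` (linearity with `log_int_zeta`, `bint_mul`; `stp2 T u = 0` outside of `[u - hT T, u]`, so the box can be changed: a set integral over a subset where the function vanishes on the difference,
  `setIntegral_eq_of_subset_of_forall_diff_eq_zero`).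
* `hT_pos`, `hT_small`: `hT T = 2 π / log T` tends to `0`.
-/

namespace Pool.Agent.Lib.MP_ec260d_ntB

open Complex Set Filter Topology MeasureTheory

/-- the step at `u`, of width `hT T` -/
noncomputable def stp (T u t : ℝ) : ℝ := kap0 ((t - u) / hT T)

/-- its derivative -/
noncomputable def stp1 (T u t : ℝ) : ℝ := (hT T)⁻¹ * kap1 ((t - u) / hT T)

/-- its second derivative -/
noncomputable def stp2 (T u t : ℝ) : ℝ := ((hT T) ^ 2)⁻¹ * kap2 ((t - u) / hT T)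

/-- the contribution of zeta to the smoothed number of zeros -/
noncomputable def Lam (T u : ℝ) : ℝ :=
  (1 / Real.pi) * BI (1 / 2) 2 (u - hT T) u (fun s => stp2 T u s.im * Real.log ‖riemannZeta s‖)

theorem hT_pos {T : ℝ} (hT2 : 2 ≤ T) : 0 < hT T := by
  unfold hT
  exact div_pos (by positivity) (Real.log_pos (by linarith))

theorem hT_mul {T : ℝ} (hT2 : 2 ≤ T) : hT T * Real.log T = 2 * Real.pi := by
  unfold hT
  exact div_mul_cancel₀ _ (Real.log_pos (by linarith)).ne'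

theorem hT_small (ε : ℝ) (hε : 0 < ε) : ∃ T₀ : ℝ, 2 ≤ T₀ ∧ ∀ T : ℝ, T₀ ≤ T → hT T ≤ ε := by
  refine ⟨max 2 (Real.exp (2 * Real.pi / ε)), le_max_left _ _, fun T hT' => ?_⟩
  have h2 : Real.exp (2 * Real.pi / ε) ≤ T := (le_max_right _ _).trans hT'
  have h3 : 2 * Real.pi / ε ≤ Real.log T := by
    rw [← Real.log_exp (2 * Real.pi / ε)]
    exact Real.log_le_log (Real.exp_pos _) h2
  have h4 : 0 < 2 * Real.pi / ε := by positivity
  have h5 : 0 < Real.log T := lt_of_lt_of_le h4 h3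
  unfold hT
  rw [div_le_iff₀ h5]
  rw [div_le_iff₀ hε] at h3
  linarith [mul_comm (Real.log T) ε]

theorem stp_d1 (T u t : ℝ) : HasDerivAt (stp T u) (stp1 T u t) t := by
  have h1 : HasDerivAt (fun t : ℝ => (t - u) / hT T) (1 / hT T) t :=
    ((hasDerivAt_id t).sub_const u).div_const (hT T)
  have h2 := (kap0_der ((t - u) / hT T)).comp t h1
  have h3 : stp1 T u t = kap1 ((t - u) / hT T) * (1 / hT T) := by
    unfold stp1
    rw [one_div, mul_comm]
  rw [h3]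
  exact h2

theorem stp_d2 (T u t : ℝ) : HasDerivAt (stp1 T u) (stp2 T u t) t := by
  have h1 : HasDerivAt (fun t : ℝ => (t - u) / hT T) (1 / hT T) t :=
    ((hasDerivAt_id t).sub_const u).div_const (hT T)
  have h2 := ((kap1_der ((t - u) / hT T)).comp t h1).const_mul (hT T)⁻¹
  have h3 : stp2 T u t = (hT T)⁻¹ * (kap2 ((t - u) / hT T) * (1 / hT T)) := by
    unfold stp2
    rw [one_div, pow_two, mul_inv]
    ring
  rw [h3]
  exact h2

theorem stp2_cont (T u : ℝ) : Continuous (stp2 T u) := by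
  unfold stp2
  exact continuous_const.mul (kap2_cont.comp ((continuous_id.sub continuous_const).div_const _))

theorem stp2_abs (T u t : ℝ) : |stp2 T u t| ≤ 15 * ((hT T) ^ 2)⁻¹ := by
  unfold stp2
  have h1 : (0 : ℝ) ≤ ((hT T) ^ 2)⁻¹ := by positivity
  rw [abs_mul, abs_of_nonneg h1, mul_comm]
  exact mul_le_mul_of_nonneg_right (kap2_abs _) h1

theorem stp_zero {T : ℝ} (hT2 : 2 ≤ T) {u t : ℝ} (h : t ≤ u - hT T) :
    stp T u t = 0 ∧ stp1 T u t = 0 ∧ stp2 T u t = 0 := by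
  have h0 := hT_pos hT2
  have h1 : (t - u) / hT T ≤ -1 := by
    rw [div_le_iff₀ h0]
    linarith
  refine ⟨kap0_left h1, ?_, ?_⟩
  · unfold stp1
    rw [kap1_zero (Or.inl h1), mul_zero]
  · unfold stp2
    rw [kap2_zero (Or.inl h1), mul_zero]

theorem stp_one {T : ℝ} (hT2 : 2 ≤ T) {u t : ℝ} (h : u ≤ t) :
    stp T u t = 1 ∧ stp1 T u t = 0 ∧ stp2 T u t = 0 := by
  have h0 := hT_pos hT2
  have h1 : 0 ≤ (t - u) / hT T := div_nonneg (by linarith) h0.le
  refine ⟨kap0_right h1, ?_, ?_⟩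
  · unfold stp1
    rw [kap1_zero (Or.inr h1), mul_zero]
  · unfold stp2
    rw [kap2_zero (Or.inr h1), mul_zero]

theorem stp1_int {T : ℝ} (hT2 : 2 ≤ T) (u : ℝ) : (∀ t, 0 ≤ stp1 T u t) ∧
    ∫ t in (u - hT T)..u, stp1 T u t = 1 := by
  have h0 := hT_pos hT2
  refine ⟨fun t => mul_nonneg (inv_nonneg.2 h0.le) (kap1_nonneg _), ?_⟩
  have hc : Continuous (stp1 T u) :=
    continuous_iff_continuousAt.2 fun t => (stp_d2 T u t).continuousAt
  rw [intervalIntegral.integral_eq_sub_of_hasDerivAt (fun t _ => stp_d1 T u t)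
    (hc.intervalIntegrable _ _), (stp_one hT2 le_rfl).1, (stp_zero hT2 le_rfl).1, sub_zero]

theorem stp2_int {T : ℝ} (hT2 : 2 ≤ T) (u : ℝ) : ∫ t in (u - hT T)..u, stp2 T u t = 0 := by
  rw [intervalIntegral.integral_eq_sub_of_hasDerivAt (fun t _ => stp_d2 T u t)
    ((stp2_cont T u).intervalIntegrable _ _), (stp_one hT2 le_rfl).2.1, (stp_zero hT2 le_rfl).2.1,
    sub_zero]

theorem stp_tst {T : ℝ} (hT2 : 2 ≤ T) {u1 u2 : ℝ} (hu : u1 ≤ u2) :
    Tst (fun t => stp T u1 t - stp T u2 t) (fun t => stp1 T u1 t - stp1 T u2 t)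
      (fun t => stp2 T u1 t - stp2 T u2 t) (u1 - hT T) u2 := by
  refine ⟨fun t => (stp_d1 T u1 t).sub (stp_d1 T u2 t), fun t => (stp_d2 T u1 t).sub (stp_d2 T u2 t),
    (stp2_cont T u1).sub (stp2_cont T u2), fun t ht => ?_⟩
  rcases ht with h | h
  · have a1 := stp_zero hT2 (u := u1) (t := t) h.le
    have a2 := stp_zero hT2 (u := u2) (t := t) (by linarith)
    exact ⟨by rw [a1.1, a2.1, sub_zero], by rw [a1.2.1, a2.2.1, sub_zero],
      by rw [a1.2.2, a2.2.2, sub_zero]⟩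
  · have a1 := stp_one hT2 (u := u1) (t := t) (by linarith)
    have a2 := stp_one hT2 (u := u2) (t := t) h.le
    exact ⟨by rw [a1.1, a2.1, sub_self], by rw [a1.2.1, a2.2.1, sub_zero],
      by rw [a1.2.2, a2.2.2, sub_zero]⟩

theorem stp_bd {T : ℝ} (hT2 : 2 ≤ T) {u1 u2 : ℝ} (hu : u1 ≤ u2) (t : ℝ) :
    0 ≤ stp T u1 t - stp T u2 t ∧ stp T u1 t - stp T u2 t ≤ 1 ∧
      (u1 ≤ t → t ≤ u2 - hT T → stp T u1 t - stp T u2 t = 1) := by
  have h0 := hT_pos hT2
  refine ⟨?_, ?_, fun h1 h2 => ?_⟩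
  · rw [sub_nonneg]
    exact kap0_mono (div_le_div_of_nonneg_right (by linarith) h0.le)
  · have a1 : stp T u1 t ≤ 1 := kap0_le _
    have a2 : 0 ≤ stp T u2 t := kap0_nonneg _
    linarith
  · rw [(stp_one hT2 h1).1, (stp_zero hT2 h2).1, sub_zero]

private theorem glam_change {a b A B A' B' : ℝ} {f : ℂ → ℝ} (h1 : A ≤ A') (h2 : B' ≤ B)
    (h : ∀ s : ℂ, s.im < A' ∨ B' < s.im → f s = 0) : BI a b A B f = BI a b A' B' f := by
  unfold BI
  refine setIntegral_eq_of_subset_of_forall_sdiff_eq_zero (bx_meas a b A B)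
    (bx_mono le_rfl le_rfl h1 h2) ?_
  rintro z ⟨hz1, hz2⟩
  apply h
  rw [pt_im]
  by_contra hc
  push Not at hc
  exact hz2 ⟨hz1.1, hc.1, hc.2⟩

theorem lam_eq {T : ℝ} (hT2 : 2 ≤ T) {u1 u2 : ℝ} (hu : u1 ≤ u2) (h0 : 0 < u1 - hT T) :
    BI (1 / 2) 2 (u1 - hT T) u2
      (fun s => (stp2 T u1 s.im - stp2 T u2 s.im) * Real.log ‖riemannZeta s‖) =
      Real.pi * (Lam T u1 - Lam T u2) := by
  have hp := hT_pos hT2
  have hz := log_int_zeta (u1 - hT T) u2 h0
  have i1 : BInt (1 / 2) 2 (u1 - hT T) u2 (fun s => stp2 T u1 s.im * Real.log ‖riemannZeta s‖) :=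
    bint_mul (stp2 T u1) (stp2_cont T u1) hz
  have i2 : BInt (1 / 2) 2 (u1 - hT T) u2 (fun s => stp2 T u2 s.im * Real.log ‖riemannZeta s‖) :=
    bint_mul (stp2 T u2) (stp2_cont T u2) hz
  have e0 : (fun s : ℂ => (stp2 T u1 s.im - stp2 T u2 s.im) * Real.log ‖riemannZeta s‖) =
      fun s => stp2 T u1 s.im * Real.log ‖riemannZeta s‖ -
        stp2 T u2 s.im * Real.log ‖riemannZeta s‖ := by
    funext s
    ring
  rw [e0, bi_sub i1 i2]
  have e1 : BI (1 / 2) 2 (u1 - hT T) u2 (fun s => stp2 T u1 s.im * Real.log ‖riemannZeta s‖) =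
      BI (1 / 2) 2 (u1 - hT T) u1 (fun s => stp2 T u1 s.im * Real.log ‖riemannZeta s‖) := by
    refine glam_change le_rfl hu fun s hs => ?_
    rcases hs with hs | hs
    · rw [(stp_zero hT2 hs.le).2.2, zero_mul]
    · rw [(stp_one hT2 hs.le).2.2, zero_mul]
  have e2 : BI (1 / 2) 2 (u1 - hT T) u2 (fun s => stp2 T u2 s.im * Real.log ‖riemannZeta s‖) =
      BI (1 / 2) 2 (u2 - hT T) u2 (fun s => stp2 T u2 s.im * Real.log ‖riemannZeta s‖) := by
    refine glam_change (by linarith) le_rfl fun s hs => ?_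
    rcases hs with hs | hs
    · rw [(stp_zero hT2 hs.le).2.2, zero_mul]
    · rw [(stp_one hT2 hs.le).2.2, zero_mul]
  rw [e1, e2]
  unfold Lam
  rw [← mul_sub, ← mul_assoc, mul_one_div_cancel Real.pi_ne_zero, one_mul]

end Pool.Agent.Lib.MP_ec260d_ntB
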