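import Mathlib
import Pool.Agent.Lib.MP_ec260d_ntB.ADefs

/-!
# JOB ACut: the smooth cutoff and its Fourier transform (about 150 lines)

* `Th_*`: properties of `Real.smoothTransition` (`zero_of_nonpos`, `one_of_one_le`, `nonneg`, `le_one`, `contDiff`); `(99/100 - x)(100/3) ≥ 1` iff `x ≤ 96/100`, `≤ 0` iff `x ≥ 99/100`.
* `f x = Th x * Real.smoothTransition (x + 1)` is smooth with compact support in `[-1, 1]` and `f x = Th x` for `x ≥ 0`.
  Let `F` be the Schwartz function `f` (`HasCompactSupport.toSchwartzMap`, see `Pool/Agent/Lib/MP_00e05b_nt/Mont/Planch.lean`: `hc.toSchwartzMap hf`), `fh ξ = (𝓕 F)(ξ)` (`Real.fourier_eq'`), so `fh` is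
  continuous and `‖fh ξ‖ (1 + |ξ|)^r ≤ C` (`SchwartzMap.decay`/`SchwartzMap.one_add_le_sup_seminorm_apply`), and Fourier inversion (`FourierTransform.fourierInv_fourier_eq`,
  `Real.fourierInv_eq'`) at `x ≥ 0` gives `Th x = ∫ fh ξ exp (2 π i ξ x) dξ`.
-/

namespace Pool.Agent.Lib.MP_ec260d_ntB.IA

open Complex Set Filter Topology MeasureTheory

theorem Th_one (x : ℝ) (hx : x ≤ 96 / 100) : Th x = 1 := by
  refine Real.smoothTransition.one_of_one_le ?_
  linarith

theorem Th_zero (x : ℝ) (hx : 99 / 100 ≤ x) : Th x = 0 := by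
  refine Real.smoothTransition.zero_of_nonpos ?_
  linarith

theorem Th_mem (x : ℝ) : 0 ≤ Th x ∧ Th x ≤ 1 :=
  ⟨Real.smoothTransition.nonneg _, Real.smoothTransition.le_one _⟩

theorem Th_smooth : ∀ n : ℕ∞, ContDiff ℝ n Th := by
  intro n
  exact Real.smoothTransition.contDiff.comp ((contDiff_const.sub contDiff_id).mul contDiff_const)

private theorem ACut_smooth : ContDiff ℝ (((⊤ : ℕ∞) : WithTop ℕ∞))
    (fun x : ℝ => ((Th x * Real.smoothTransition (x + 1) : ℝ) : ℂ)) := by
  have h : ContDiff ℝ (((⊤ : ℕ∞) : WithTop ℕ∞)) (fun x : ℝ => Th x * Real.smoothTransition (x + 1)) :=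
    (Th_smooth ⊤).mul (Real.smoothTransition.contDiff.comp (contDiff_id.add contDiff_const))
  exact Complex.ofRealCLM.contDiff.comp h

private theorem ACut_supp : HasCompactSupport (fun x : ℝ => ((Th x * Real.smoothTransition (x + 1) : ℝ) : ℂ)) := by
  refine HasCompactSupport.of_support_subset_isCompact (isCompact_Icc (a := -1) (b := 1)) ?_
  intro x hx
  rw [Function.mem_support] at hx
  by_contra h
  apply hx
  rw [mem_Icc, not_and_or] at h
  rcases h with h | h
  · push Not at h
    rw [Real.smoothTransition.zero_of_nonpos (by linarith), mul_zero, ofReal_zero]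
  · push Not at h
    rw [Th_zero x (by linarith), zero_mul, ofReal_zero]

/-- the cutoff as a Schwartz function -/
private noncomputable def ACut_F : SchwartzMap ℝ ℂ := ACut_supp.toSchwartzMap ACut_smooth

private theorem ACut_F_apply (x : ℝ) : ACut_F x = ((Th x * Real.smoothTransition (x + 1) : ℝ) : ℂ) := rfl

open FourierTransform in
private theorem ACut_fh (ξ : ℝ) : fh ξ = (𝓕 ACut_F) ξ := by
  rw [SchwartzMap.fourier_coe, Real.fourier_real_eq_integral_exp_smul, fh]
  refine integral_congr_ae (Eventually.of_forall fun x => ?_)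
  simp only [ACut_F_apply, smul_eq_mul]
  rw [mul_comm]
  congr 2
  push_cast
  ring

theorem fh_cont : Continuous fh := by
  have : fh = fun ξ => (FourierTransform.fourier ACut_F) ξ := funext ACut_fh
  rw [this]
  exact (FourierTransform.fourier ACut_F).continuous

theorem fh_decay (r : ℕ) : ∃ C : ℝ, 0 < C ∧ ∀ ξ : ℝ, ‖fh ξ‖ ≤ C / (1 + |ξ|) ^ r := by
  refine ⟨2 ^ r * (Finset.Iic (r, 0)).sup (fun m => SchwartzMap.seminorm ℂ m.1 m.2) (FourierTransform.fourier ACut_F) + 1,
    by positivity, fun ξ => ?_⟩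
  have h := SchwartzMap.one_add_le_sup_seminorm_apply (𝕜 := ℂ) (m := (r, 0)) (k := r) (n := 0) le_rfl le_rfl
    (FourierTransform.fourier ACut_F) ξ
  rw [norm_iteratedFDeriv_zero, Real.norm_eq_abs] at h
  rw [ACut_fh, le_div_iff₀ (by positivity), mul_comm]
  linarith

open FourierTransform in
theorem fh_inv (x : ℝ) (hx : 0 ≤ x) : (Th x : ℂ) = ∫ ξ : ℝ, fh ξ * cexp (2 * Real.pi * ξ * x * I) := by
  have h1 : (Th x : ℂ) = ACut_F x := by
    rw [ACut_F_apply, Real.smoothTransition.one_of_one_le (by linarith), mul_one]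
  have h2 : 𝓕⁻ (𝓕 ACut_F) = ACut_F := fourierInv_fourier_eq ACut_F
  rw [h1, ← h2, SchwartzMap.fourierInv_coe, Real.fourierInv_eq']
  refine integral_congr_ae (Eventually.of_forall fun ξ => ?_)
  simp only [ACut_fh, smul_eq_mul]
  rw [mul_comm]
  congr 2
  simp
  ring

end Pool.Agent.Lib.MP_ec260d_ntB.IA
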