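import Mathlib
import Pool.Agent.Lib.MP_ec260d_ntB.ADefs

/-!
# JOB ABj: bounds for the truncated products (about 110 lines)

* `bj_full`: if `|A| ≤ d` the filter is trivial and `∑_(S ⊆ A) (-1)^|S| ∏_(p∈S) p^w = ∏_(p ∈ A) (1 - p^w)` (`Finset.prod_add` with `1` and `-p^w`, or `Finset.prod_one_add`).
* `bj_triv`: triangle inequality: `‖bj‖ ≤ ∑_(S ⊆ A) ∏_(p∈S) ‖p^w‖ = ∏_(p ∈ A) (1 + ‖p^w‖) ≤ (1 + K)^|A|`.
* `bj_sq`: if `|A| ≤ d`: `bj_full`.  If `|A| > d`: `‖bj‖² ≤ ((1+K)²)^|A| ≤ e^(|A| - d) ((1+K)²)^|A| = e^(-d) (e (1+K)²)^|A|`.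
* `bj_zero` (`w = 0`, `p ≥ 1` so `p^0 = 1`): `A = ∅`: `bj = 1`, `≤ 1`.  `1 ≤ |A| ≤ d`: `bj = ∏ (1 - 1) = 0`.  `|A| > d`: `‖bj‖² ≤ 4^|A| ≤ e^(2(|A|-d)) 4^|A|`.
  (`∏_(p ∈ A) (0 : ℝ)` is `1` for `A = ∅` and `0` otherwise.)
-/

namespace Pool.Agent.Lib.MP_ec260d_ntB.IA

open Complex Set Filter Topology MeasureTheory

theorem bj_full (A : Finset ℕ) (d : ℕ) (w : ℂ) (h : A.card ≤ d) : bj A d w = ∏ p ∈ A, (1 - (p : ℂ) ^ w) := by
  unfold bj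
  have hf : A.powerset.filter (fun S => S.card ≤ d) = A.powerset := by
    rw [Finset.filter_eq_self]
    intro S hS
    exact (Finset.card_le_card (Finset.mem_powerset.1 hS)).trans h
  rw [hf]
  have h1 : ∀ p : ℕ, (1 - (p : ℂ) ^ w) = -(p : ℂ) ^ w + 1 := fun p => by ring
  simp_rw [h1]
  rw [Finset.prod_add]
  refine Finset.sum_congr rfl fun S _ => ?_
  rw [Finset.prod_const_one, mul_one, Finset.prod_neg]

theorem bj_triv (A : Finset ℕ) (d : ℕ) (w : ℂ) (K : ℝ) (hK : ∀ p ∈ A, ‖(p : ℂ) ^ w‖ ≤ K) :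
    ‖bj A d w‖ ≤ (1 + K) ^ A.card := by
  unfold bj
  calc ‖∑ S ∈ A.powerset.filter (fun S => S.card ≤ d), (-1) ^ S.card * ∏ p ∈ S, (p : ℂ) ^ w‖
      ≤ ∑ S ∈ A.powerset.filter (fun S => S.card ≤ d), ∏ p ∈ S, ‖(p : ℂ) ^ w‖ := by
        refine (norm_sum_le _ _).trans (Finset.sum_le_sum fun S _ => ?_)
        rw [norm_mul, norm_pow, norm_neg, norm_one, one_pow, one_mul, norm_prod]
    _ ≤ ∑ S ∈ A.powerset, ∏ p ∈ S, ‖(p : ℂ) ^ w‖ :=
        Finset.sum_le_sum_of_subset_of_nonneg (Finset.filter_subset _ _) fun S _ _ =>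
          Finset.prod_nonneg fun p _ => norm_nonneg _
    _ = ∏ p ∈ A, (‖(p : ℂ) ^ w‖ + 1) := by
        rw [Finset.prod_add]
        refine Finset.sum_congr rfl fun S _ => ?_
        rw [Finset.prod_const_one, mul_one]
    _ ≤ ∏ p ∈ A, (1 + K) := by
        refine Finset.prod_le_prod (fun p _ => by positivity) fun p hp => ?_
        linarith [hK p hp]
    _ = (1 + K) ^ A.card := by rw [Finset.prod_const]

theorem bj_sq (A : Finset ℕ) (d : ℕ) (w : ℂ) (K : ℝ) (hK0 : 0 ≤ K) (hK : ∀ p ∈ A, ‖(p : ℂ) ^ w‖ ≤ K) :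
    ‖bj A d w‖ ^ 2 ≤ ∏ p ∈ A, ‖1 - (p : ℂ) ^ w‖ ^ 2 +
      Real.exp (-(d : ℝ)) * ∏ p ∈ A, (Real.exp 1 * (1 + K) ^ 2) := by
  have hp1 : (0 : ℝ) ≤ ∏ p ∈ A, ‖1 - (p : ℂ) ^ w‖ ^ 2 := Finset.prod_nonneg fun p _ => by positivity
  have hp2 : (0 : ℝ) ≤ Real.exp (-(d : ℝ)) * ∏ p ∈ A, (Real.exp 1 * (1 + K) ^ 2) := by
    have : (0 : ℝ) ≤ ∏ p ∈ A, (Real.exp 1 * (1 + K) ^ 2) := Finset.prod_nonneg fun p _ => by positivity
    positivity
  rcases le_or_gt A.card d with h | h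
  · rw [bj_full A d w h, norm_prod, ← Finset.prod_pow]
    linarith
  · have h1 := bj_triv A d w K hK
    have h2 : ‖bj A d w‖ ^ 2 ≤ ((1 + K) ^ 2) ^ A.card := by
      calc ‖bj A d w‖ ^ 2 ≤ ((1 + K) ^ A.card) ^ 2 := pow_le_pow_left₀ (norm_nonneg _) h1 2
        _ = ((1 + K) ^ 2) ^ A.card := by rw [← pow_mul, ← pow_mul, mul_comm]
    have h3 : Real.exp (-(d : ℝ)) * ∏ p ∈ A, (Real.exp 1 * (1 + K) ^ 2) =
        Real.exp ((A.card : ℝ) - d) * ((1 + K) ^ 2) ^ A.card := by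
      rw [Finset.prod_const, mul_pow, ← Real.exp_nat_mul, mul_one, ← mul_assoc, ← Real.exp_add]
      congr 2
      ring
    have h4 : 1 ≤ Real.exp ((A.card : ℝ) - d) := by
      apply Real.one_le_exp
      have : (d : ℝ) ≤ A.card := by exact_mod_cast h.le
      linarith
    have h5 : (0 : ℝ) ≤ ((1 + K) ^ 2) ^ A.card := by positivity
    rw [h3]
    nlinarith

private theorem ABj_zero (A : Finset ℕ) (d : ℕ) : ‖bj A d 0‖ ≤ 2 ^ A.card := by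
  have h := bj_triv A d 0 1 fun p _ => by rw [Complex.cpow_zero, norm_one]
  norm_num at h
  exact h

theorem bj_zero_sq (A : Finset ℕ) (d : ℕ) (h : d < A.card) :
    ‖bj A d 0‖ ^ 2 ≤ Real.exp (-(2 * d : ℝ)) * ∏ p ∈ A, (4 * Real.exp 2) := by
  have h1 := ABj_zero A d
  have h2 : ‖bj A d 0‖ ^ 2 ≤ 4 ^ A.card := by
    calc ‖bj A d 0‖ ^ 2 ≤ (2 ^ A.card) ^ 2 := pow_le_pow_left₀ (norm_nonneg _) h1 2
      _ = 4 ^ A.card := by rw [← pow_mul, mul_comm, pow_mul]; norm_num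
  have h3 : Real.exp (-(2 * d : ℝ)) * ∏ p ∈ A, (4 * Real.exp 2) =
      Real.exp (2 * ((A.card : ℝ) - d)) * 4 ^ A.card := by
    rw [Finset.prod_const, mul_pow, ← Real.exp_nat_mul, mul_left_comm, ← Real.exp_add, mul_comm]
    congr 2
    ring
  have h4 : 1 ≤ Real.exp (2 * ((A.card : ℝ) - d)) := by
    apply Real.one_le_exp
    have : (d : ℝ) ≤ A.card := by exact_mod_cast h.le
    linarith
  have h5 : (0 : ℝ) ≤ 4 ^ A.card := by positivity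
  rw [h3]
  nlinarith

theorem bj_zero_big (A : Finset ℕ) (d : ℕ) (h : bj A d 0 ≠ 0) (hA : A ≠ ∅) : d < A.card := by
  by_contra hc
  apply h
  rw [bj_full A d 0 (not_lt.1 hc)]
  obtain ⟨p, hp⟩ := Finset.nonempty_iff_ne_empty.2 hA
  refine Finset.prod_eq_zero hp ?_
  rw [Complex.cpow_zero, sub_self]

theorem bj_zero (A : Finset ℕ) (d : ℕ) :
    ‖bj A d 0‖ ^ 2 ≤ ∏ p ∈ A, (0 : ℝ) + Real.exp (-(2 * d : ℝ)) * ∏ p ∈ A, (4 * Real.exp 2) := by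
  have hp2 : (0 : ℝ) ≤ Real.exp (-(2 * d : ℝ)) * ∏ p ∈ A, (4 * Real.exp 2) := by
    have : (0 : ℝ) ≤ ∏ p ∈ A, (4 * Real.exp 2) := Finset.prod_nonneg fun p _ => by positivity
    positivity
  rcases Finset.eq_empty_or_nonempty A with h | h
  · subst h
    have : bj ∅ d 0 = 1 := by
      rw [bj_full ∅ d 0 (by simp), Finset.prod_empty]
    rw [this, norm_one, Finset.prod_empty]
    linarith
  · have h0 : ∏ p ∈ A, (0 : ℝ) = 0 := by
      obtain ⟨p, hp⟩ := h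
      exact Finset.prod_eq_zero hp rfl
    rw [h0, zero_add]
    rcases le_or_gt A.card d with h' | h'
    · have : bj A d 0 = 0 := by
        by_contra hc
        exact absurd (bj_zero_big A d hc h.ne_empty) (not_lt.2 h')
      rw [this, norm_zero]
      simpa using hp2
    · exact bj_zero_sq A d h'

end Pool.Agent.Lib.MP_ec260d_ntB.IA
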