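import Mathlib

/-!
# JOB AMult: sums of multiplicative functions of the set of prime factors (about 110 lines)

PROOF.  For a finite set `S` of primes and `N` let `X(S) = ∑ g(n)/n` over `n ∈ [1,N]` with `n.primeFactors ⊆ S`, `g(n) = ∏_(p | n) G p`.  CLAIM: `X(S) ≤ ∏_(p ∈ S) (1 + G p/(p-1))`.  Induction on `S`
(`Finset.induction_on`).  `S = ∅`: only `n = 1`.  `S ∪ {p}`, `p ∉ S`: write `n = p^e m`, `e = n.factorization p`, `m = n / p^e` (`ordCompl`), `m.primeFactors = n.primeFactors \ {p} ⊆ S`,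
`m ≤ N`; `g(n) = g(m)` if `e = 0` and `G p · g(m)` if `e ≥ 1`.  Since `n ↦ (e, m)` is injective, `e ≤ N`:
`X(S ∪ {p}) ≤ X(S) (1 + G p ∑_(e=1)^N p^(-e)) ≤ X(S) (1 + G p/(p-1))`.
Take `S` = the primes `≤ N`.
-/

namespace Pool.Agent.Lib.MP_ec260d_ntB.IA

open Complex Set Filter Topology MeasureTheory

private theorem AMult_geom {p : ℝ} (hp : 1 < p) (N : ℕ) :
    ∑ i ∈ Finset.range N, (p⁻¹) ^ (i + 1) ≤ 1 / (p - 1) := by
  have hp0 : 0 < p := by linarith
  have h1 : ∀ N : ℕ, (p - 1) * ∑ i ∈ Finset.range N, (p⁻¹) ^ (i + 1) = 1 - (p⁻¹) ^ N := by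
    intro N
    induction N with
    | zero => rw [Finset.sum_range_zero, mul_zero, pow_zero, sub_self]
    | succ N ih =>
      have h2 : p * p⁻¹ = 1 := mul_inv_cancel₀ hp0.ne'
      rw [Finset.sum_range_succ, mul_add, ih]
      linear_combination (p⁻¹) ^ N * h2
  rw [le_div_iff₀ (by linarith), mul_comm, h1]
  have h3 : 0 ≤ (p⁻¹) ^ N := pow_nonneg (inv_nonneg.2 hp0.le) N
  linarith

private theorem AMult_pf {p n : ℕ} :
    (n / p ^ n.factorization p).primeFactors = n.primeFactors.erase p := by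
  rw [← Nat.support_factorization, ← Nat.support_factorization, Nat.factorization_ordCompl,
    Finsupp.support_erase]

private theorem AMult_step (N : ℕ) (G : ℕ → ℝ) (hG : ∀ p, 0 ≤ G p) (p : ℕ) (hp : p.Prime)
    (S : Finset ℕ) :
    ∑ n ∈ (Finset.Icc 1 N).filter (fun n => n.primeFactors ⊆ insert p S),
        (∏ q ∈ n.primeFactors, G q) / (n : ℝ) ≤
      (1 + G p / ((p : ℝ) - 1)) * ∑ n ∈ (Finset.Icc 1 N).filter (fun n => n.primeFactors ⊆ S),
        (∏ q ∈ n.primeFactors, G q) / (n : ℝ) := by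
  have hp1 : (1 : ℝ) < p := by exact_mod_cast hp.one_lt
  have hp0 : (0 : ℝ) < p := by linarith
  have hnn : ∀ n : ℕ, 0 ≤ (∏ q ∈ n.primeFactors, G q) / (n : ℝ) := fun n =>
    div_nonneg (Finset.prod_nonneg fun q _ => hG q) (Nat.cast_nonneg n)
  have hcn : ∀ e : ℕ, 0 ≤ (if e = 0 then (1 : ℝ) else G p) * ((p : ℝ)⁻¹) ^ e := by
    intro e
    refine mul_nonneg ?_ (pow_nonneg (inv_nonneg.2 hp0.le) e)
    split_ifs
    · exact zero_le_one
    · exact hG p
  have hc : ∑ e ∈ Finset.range (N + 1), (if e = 0 then (1 : ℝ) else G p) * ((p : ℝ)⁻¹) ^ e ≤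
      1 + G p / ((p : ℝ) - 1) := by
    rw [Finset.sum_range_succ', if_pos rfl, pow_zero, mul_one, add_comm]
    have h1 : ∑ e ∈ Finset.range N, (if e + 1 = 0 then (1 : ℝ) else G p) * ((p : ℝ)⁻¹) ^ (e + 1) =
        G p * ∑ e ∈ Finset.range N, ((p : ℝ)⁻¹) ^ (e + 1) := by
      rw [Finset.mul_sum]
      exact Finset.sum_congr rfl fun e _ => by rw [if_neg (Nat.succ_ne_zero e)]
    rw [h1, div_eq_mul_one_div]
    have h2 := mul_le_mul_of_nonneg_left (AMult_geom hp1 N) (hG p)
    linarith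
  have hf : ∀ n ∈ (Finset.Icc 1 N).filter (fun n => n.primeFactors ⊆ insert p S),
      (∏ q ∈ n.primeFactors, G q) / (n : ℝ) =
      (fun x : ℕ × ℕ => ((if x.1 = 0 then (1 : ℝ) else G p) * ((p : ℝ)⁻¹) ^ x.1) *
        ((∏ q ∈ x.2.primeFactors, G q) / (x.2 : ℝ)))
        (n.factorization p, n / p ^ n.factorization p) := by
    intro n hn
    have hn1 := Finset.mem_Icc.1 (Finset.mem_filter.1 hn).1
    have hn0 : n ≠ 0 := by omega
    show _ = (if n.factorization p = 0 then (1 : ℝ) else G p) * ((p : ℝ)⁻¹) ^ n.factorization p *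
        ((∏ q ∈ (n / p ^ n.factorization p).primeFactors, G q) / ((n / p ^ n.factorization p : ℕ) : ℝ))
    have h1 : (n : ℝ) = (p : ℝ) ^ n.factorization p * ((n / p ^ n.factorization p : ℕ) : ℝ) := by
      rw [← Nat.cast_pow, ← Nat.cast_mul, Nat.ordProj_mul_ordCompl_eq_self n p]
    have h2 : ∏ q ∈ n.primeFactors, G q = (if n.factorization p = 0 then (1 : ℝ) else G p) *
        ∏ q ∈ n.primeFactors.erase p, G q := by
      by_cases h3 : n.factorization p = 0
      · have h4 : p ∉ n.primeFactors := by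
          rw [← Nat.support_factorization, Finsupp.mem_support_iff, not_not]
          exact h3
        rw [if_pos h3, one_mul, Finset.erase_eq_of_notMem h4]
      · have h4 : p ∈ n.primeFactors := by
          rw [← Nat.support_factorization, Finsupp.mem_support_iff]
          exact h3
        rw [if_neg h3, Finset.mul_prod_erase _ _ h4]
    rw [AMult_pf, h2]
    nth_rw 1 [h1]
    rw [inv_pow]
    have h5 : ((n / p ^ n.factorization p : ℕ) : ℝ) ≠ 0 := by
      intro h6
      rw [h6, mul_zero] at h1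
      exact hn0 (by exact_mod_cast h1)
    have h6 : ((p : ℝ) ^ n.factorization p) ≠ 0 := pow_ne_zero _ hp0.ne'
    rw [mul_div_mul_comm]
    field_simp
  have hinj : ∀ n ∈ (Finset.Icc 1 N).filter (fun n => n.primeFactors ⊆ insert p S),
      ∀ m ∈ (Finset.Icc 1 N).filter (fun n => n.primeFactors ⊆ insert p S),
      ((n.factorization p, n / p ^ n.factorization p) : ℕ × ℕ) =
        (m.factorization p, m / p ^ m.factorization p) → n = m := by
    intro n _ m _ h
    have h1 := congrArg Prod.fst h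
    have h2 := congrArg Prod.snd h
    simp only at h1 h2
    rw [← Nat.ordProj_mul_ordCompl_eq_self n p, ← Nat.ordProj_mul_ordCompl_eq_self m p, h2, h1]
  have himg : ((Finset.Icc 1 N).filter (fun n => n.primeFactors ⊆ insert p S)).image
      (fun n => ((n.factorization p, n / p ^ n.factorization p) : ℕ × ℕ)) ⊆
      Finset.range (N + 1) ×ˢ (Finset.Icc 1 N).filter (fun n => n.primeFactors ⊆ S) := by
    intro x hx
    obtain ⟨n, hn, rfl⟩ := Finset.mem_image.1 hx
    have hn2 := Finset.mem_filter.1 hn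
    have hn1 := Finset.mem_Icc.1 hn2.1
    have hn0 : n ≠ 0 := by omega
    refine Finset.mem_product.2 ⟨Finset.mem_range.2 ?_, Finset.mem_filter.2 ⟨Finset.mem_Icc.2 ⟨?_, ?_⟩, ?_⟩⟩
    · have h1 := Nat.factorization_lt p hn0
      show n.factorization p < N + 1
      omega
    · exact Nat.ordCompl_pos p hn0
    · exact (Nat.div_le_self _ _).trans hn1.2
    · show (n / p ^ n.factorization p).primeFactors ⊆ S
      rw [AMult_pf]
      intro q hq
      have h1 := Finset.mem_erase.1 hq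
      exact (Finset.mem_insert.1 (hn2.2 h1.2)).resolve_left h1.1
  rw [Finset.sum_congr rfl hf, ← Finset.sum_image (f := fun x : ℕ × ℕ =>
    ((if x.1 = 0 then (1 : ℝ) else G p) * ((p : ℝ)⁻¹) ^ x.1) *
        ((∏ q ∈ x.2.primeFactors, G q) / (x.2 : ℝ))) hinj]
  refine (Finset.sum_le_sum_of_subset_of_nonneg himg fun x _ _ =>
    mul_nonneg (hcn x.1) (hnn x.2)).trans ?_
  rw [Finset.sum_product]
  have h1 := Finset.sum_mul_sum (Finset.range (N + 1))
    ((Finset.Icc 1 N).filter (fun n => n.primeFactors ⊆ S))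
    (fun e => (if e = 0 then (1 : ℝ) else G p) * ((p : ℝ)⁻¹) ^ e)
    (fun n => (∏ q ∈ n.primeFactors, G q) / (n : ℝ))
  refine (le_of_eq h1.symm).trans ?_
  exact mul_le_mul_of_nonneg_right hc (Finset.sum_nonneg fun n _ => hnn n)

private theorem AMult_main (N : ℕ) (G : ℕ → ℝ) (hG : ∀ p, 0 ≤ G p) (S : Finset ℕ)
    (hS : ∀ p ∈ S, p.Prime) :
    ∑ n ∈ (Finset.Icc 1 N).filter (fun n => n.primeFactors ⊆ S),
        (∏ q ∈ n.primeFactors, G q) / (n : ℝ) ≤ ∏ p ∈ S, (1 + G p / ((p : ℝ) - 1)) := by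
  induction S using Finset.induction_on with
  | empty =>
    rw [Finset.prod_empty]
    have h1 : (Finset.Icc 1 N).filter (fun n => n.primeFactors ⊆ ∅) ⊆ {1} := by
      intro n hn
      have hn2 := Finset.mem_filter.1 hn
      have hn1 := Finset.mem_Icc.1 hn2.1
      rw [Finset.subset_empty, Nat.primeFactors_eq_empty] at hn2
      rw [Finset.mem_singleton]
      omega
    refine (Finset.sum_le_sum_of_subset_of_nonneg h1 fun n _ _ =>
      div_nonneg (Finset.prod_nonneg fun q _ => hG q) (Nat.cast_nonneg n)).trans ?_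
    rw [Finset.sum_singleton, Nat.primeFactors_one, Finset.prod_empty, Nat.cast_one, div_one]
  | insert p S hpS ih =>
    rw [Finset.prod_insert hpS]
    have hp := hS p (Finset.mem_insert_self p S)
    have hp1 : (1 : ℝ) < p := by exact_mod_cast hp.one_lt
    refine (AMult_step N G hG p hp S).trans (mul_le_mul_of_nonneg_left
      (ih fun q hq => hS q (Finset.mem_insert_of_mem hq)) ?_)
    have h1 : 0 ≤ G p / ((p : ℝ) - 1) := div_nonneg (hG p) (by linarith)
    linarith

theorem mult_sum (N : ℕ) (G : ℕ → ℝ) (hG : ∀ p, 0 ≤ G p) :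
    ∑ n ∈ Finset.Icc 1 N, (∏ p ∈ n.primeFactors, G p) / n ≤
      ∏ p ∈ (Finset.range (N + 1)).filter Nat.Prime, (1 + G p / ((p : ℝ) - 1)) := by
  have h1 := AMult_main N G hG ((Finset.range (N + 1)).filter Nat.Prime)
    fun p hp => (Finset.mem_filter.1 hp).2
  have h2 : (Finset.Icc 1 N).filter
      (fun n => n.primeFactors ⊆ (Finset.range (N + 1)).filter Nat.Prime) = Finset.Icc 1 N := by
    refine Finset.filter_true_of_mem fun n hn q hq => ?_
    have hn1 := Finset.mem_Icc.1 hn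
    have h3 := Nat.le_of_mem_primeFactors hq
    exact Finset.mem_filter.2 ⟨Finset.mem_range.2 (by omega), Nat.prime_of_mem_primeFactors hq⟩
  rw [h2] at h1
  exact h1

end Pool.Agent.Lib.MP_ec260d_ntB.IA
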