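import Mathlib
import Pool.Agent.Lib.MP_ec260d_ntB.AMult

/-!
# JOB ABlock: the block inequality (about 150 lines)

PROOF.  For `I ⊆ Js` put `G_I(p) = v p` if `p ∈ B j` for some `j ∈ I`, `G_I(p) = u p` otherwise.  Expand the product over `Js` (`Finset.prod_add`):
`∏_(j ∈ Js) (U_j(n) + lam j V_j(n)) = ∑_(I ⊆ Js) (∏_(j ∈ Js \ I) U_j) (∏_(j ∈ I) lam j V_j)` with `U_j = ∏_(p ∈ n.primeFactors ∩ B j) u p` etc.  Since the `B j` are disjoint,
`(∏_(p ∈ n.primeFactors \ ⋃ B) u p) ∏_(j ∈ Js \ I) U_j ∏_(j ∈ I) V_j = ∏_(p ∈ n.primeFactors) G_I(p)`.  So the left side is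
`∑_I (∏_(j ∈ I) lam j) ∑_(n ≤ N) (∏_(p | n) G_I p)/n ≤ ∑_I (∏_(j∈I) lam j) ∏_(p ≤ N prime) (1 + G_I p/(p-1))` (`mult_sum`) and, enlarging the product to include all primes of the `B j` (factors `≥ 1`),
`≤ ∑_I (∏_(j ∈ I) lam j) ∏_(p ≤ N prime, p ∉ ⋃ B) (1 + u p/(p-1)) ∏_(j ∈ Js \ I) ∏_(p ∈ B j) (1 + u p/(p-1)) ∏_(j ∈ I) ∏_(p ∈ B j) (1 + v p/(p-1))`, and `Finset.prod_add` backwards.
-/

namespace Pool.Agent.Lib.MP_ec260d_ntB.IA

open Complex Set Filter Topology MeasureTheory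

private theorem ABlock_part (Js : Finset ℕ) (B : ℕ → Finset ℕ)
    (hdis : ∀ i ∈ Js, ∀ j ∈ Js, i ≠ j → Disjoint (B i) (B j)) (φ ψ : ℕ → ℝ) (I : Finset ℕ) (hI : I ⊆ Js)
    (X : Finset ℕ) :
    (∏ p ∈ X \ Js.biUnion B, φ p) * ((∏ j ∈ I, ∏ p ∈ X ∩ B j, ψ p) * ∏ j ∈ Js \ I, ∏ p ∈ X ∩ B j, φ p) =
      ∏ p ∈ X, (if p ∈ I.biUnion B then ψ p else φ p) := by
  classical
  set G : ℕ → ℝ := fun p => if p ∈ I.biUnion B then ψ p else φ p with hG
  have h1 : ∏ p ∈ X, G p = (∏ p ∈ X \ Js.biUnion B, G p) * ∏ p ∈ X ∩ Js.biUnion B, G p := by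
    rw [mul_comm, Finset.prod_inter_mul_prod_sdiff]
  have h2 : X ∩ Js.biUnion B = Js.biUnion (fun j => X ∩ B j) := by
    ext a
    simp only [Finset.mem_inter, Finset.mem_biUnion]
    constructor
    · rintro ⟨h3, j, h4, h5⟩
      exact ⟨j, h4, h3, h5⟩
    · rintro ⟨j, h4, h3, h5⟩
      exact ⟨h3, j, h4, h5⟩
  have h3 : ∏ p ∈ X ∩ Js.biUnion B, G p = ∏ j ∈ Js, ∏ p ∈ X ∩ B j, G p := by
    rw [h2, Finset.prod_biUnion]
    intro i hi j hj hij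
    exact Finset.disjoint_of_subset_left Finset.inter_subset_right
      (Finset.disjoint_of_subset_right Finset.inter_subset_right (hdis i hi j hj hij))
  have h4 : ∏ p ∈ X \ Js.biUnion B, G p = ∏ p ∈ X \ Js.biUnion B, φ p := by
    refine Finset.prod_congr rfl fun p hp => ?_
    rw [Finset.mem_sdiff] at hp
    have : p ∉ I.biUnion B := fun h => hp.2 (Finset.biUnion_subset_biUnion_of_subset_left B hI h)
    rw [hG]
    simp only [this, if_false]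
  have h5 : ∏ j ∈ I, ∏ p ∈ X ∩ B j, G p = ∏ j ∈ I, ∏ p ∈ X ∩ B j, ψ p := by
    refine Finset.prod_congr rfl fun j hj => Finset.prod_congr rfl fun p hp => ?_
    have : p ∈ I.biUnion B := Finset.mem_biUnion.2 ⟨j, hj, (Finset.mem_inter.1 hp).2⟩
    rw [hG]
    simp only [this, if_true]
  have h6 : ∏ j ∈ Js \ I, ∏ p ∈ X ∩ B j, G p = ∏ j ∈ Js \ I, ∏ p ∈ X ∩ B j, φ p := by
    refine Finset.prod_congr rfl fun j hj => Finset.prod_congr rfl fun p hp => ?_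
    rw [Finset.mem_sdiff] at hj
    have : p ∉ I.biUnion B := by
      intro h
      obtain ⟨i, hi, hpi⟩ := Finset.mem_biUnion.1 h
      have hij : i ≠ j := fun h => hj.2 (h ▸ hi)
      exact Finset.disjoint_left.1 (hdis i (hI hi) j hj.1 hij) hpi (Finset.mem_inter.1 hp).2
    rw [hG]
    simp only [this, if_false]
  rw [h1, h3, ← Finset.prod_sdiff hI, h4, h5, h6, mul_comm (∏ j ∈ Js \ I, ∏ p ∈ X ∩ B j, φ p)]

private theorem ABlock_mono (X B : Finset ℕ) (f : ℕ → ℝ) (hf : ∀ p ∈ B, 1 ≤ f p) :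
    ∏ p ∈ X ∩ B, f p ≤ ∏ p ∈ B, f p := by
  classical
  have h1 : ∏ p ∈ B, f p = (∏ p ∈ B ∩ X, f p) * ∏ p ∈ B \ X, f p := by
    rw [Finset.prod_inter_mul_prod_sdiff]
  have h2 : (1 : ℝ) ≤ ∏ p ∈ B \ X, f p := by
    calc (1 : ℝ) = ∏ p ∈ B \ X, (1 : ℝ) := by rw [Finset.prod_const_one]
      _ ≤ ∏ p ∈ B \ X, f p := Finset.prod_le_prod (fun _ _ => zero_le_one) fun p hp =>
          hf p (Finset.mem_sdiff.1 hp).1
  have h3 : (0 : ℝ) ≤ ∏ p ∈ B ∩ X, f p :=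
    Finset.prod_nonneg fun p hp => zero_le_one.trans (hf p (Finset.mem_inter.1 hp).1)
  rw [h1, Finset.inter_comm X B]
  exact le_mul_of_one_le_right h3 h2

theorem block_sum (N : ℕ) (Js : Finset ℕ) (B : ℕ → Finset ℕ) (hB : ∀ j ∈ Js, ∀ p ∈ B j, p.Prime)
    (hdis : ∀ i ∈ Js, ∀ j ∈ Js, i ≠ j → Disjoint (B i) (B j)) (u v : ℕ → ℝ) (hu : ∀ p, 0 ≤ u p) (hv : ∀ p, 0 ≤ v p)
    (lam : ℕ → ℝ) (hlam : ∀ j, 0 ≤ lam j) :
    ∑ n ∈ Finset.Icc 1 N, ((∏ p ∈ n.primeFactors \ Js.biUnion B, u p) *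
        ∏ j ∈ Js, (∏ p ∈ n.primeFactors ∩ B j, u p + lam j * ∏ p ∈ n.primeFactors ∩ B j, v p)) / n ≤
      (∏ p ∈ ((Finset.range (N + 1)).filter Nat.Prime) \ Js.biUnion B, (1 + u p / ((p : ℝ) - 1))) *
        ∏ j ∈ Js, (∏ p ∈ B j, (1 + u p / ((p : ℝ) - 1)) + lam j * ∏ p ∈ B j, (1 + v p / ((p : ℝ) - 1))) := by
  classical
  set GI : Finset ℕ → ℕ → ℝ := fun I p => if p ∈ I.biUnion B then v p else u p with hGI
  have hGI0 : ∀ I p, 0 ≤ GI I p := by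
    intro I p
    rw [hGI]
    dsimp only
    split
    · exact hv p
    · exact hu p
  have hexp : ∀ n : ℕ, (∏ p ∈ n.primeFactors \ Js.biUnion B, u p) *
      ∏ j ∈ Js, (∏ p ∈ n.primeFactors ∩ B j, u p + lam j * ∏ p ∈ n.primeFactors ∩ B j, v p) =
      ∑ I ∈ Js.powerset, (∏ j ∈ I, lam j) * ∏ p ∈ n.primeFactors, GI I p := by
    intro n
    have h1 : ∀ j : ℕ, ∏ p ∈ n.primeFactors ∩ B j, u p + lam j * ∏ p ∈ n.primeFactors ∩ B j, v p =
        lam j * ∏ p ∈ n.primeFactors ∩ B j, v p + ∏ p ∈ n.primeFactors ∩ B j, u p := fun j => add_comm _ _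
    simp_rw [h1]
    rw [Finset.prod_add, Finset.mul_sum]
    refine Finset.sum_congr rfl fun I hI => ?_
    have h2 := ABlock_part Js B hdis u v I (Finset.mem_powerset.1 hI) n.primeFactors
    rw [Finset.prod_mul_distrib, ← h2]
    ring
  have hp1 : ∀ p : ℕ, p.Prime → (0 : ℝ) < (p : ℝ) - 1 := by
    intro p hp
    have : (1 : ℝ) < p := by exact_mod_cast hp.one_lt
    linarith
  have hstep : ∀ I ∈ Js.powerset, ∑ n ∈ Finset.Icc 1 N, (∏ p ∈ n.primeFactors, GI I p) / n ≤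
      (∏ p ∈ ((Finset.range (N + 1)).filter Nat.Prime) \ Js.biUnion B, (1 + u p / ((p : ℝ) - 1))) *
        ((∏ j ∈ I, ∏ p ∈ B j, (1 + v p / ((p : ℝ) - 1))) *
          ∏ j ∈ Js \ I, ∏ p ∈ B j, (1 + u p / ((p : ℝ) - 1))) := by
    intro I hI
    rw [Finset.mem_powerset] at hI
    refine (mult_sum N (GI I) (hGI0 I)).trans ?_
    have h2 := ABlock_part Js B hdis (fun p => 1 + u p / ((p : ℝ) - 1)) (fun p => 1 + v p / ((p : ℝ) - 1)) I hI
      ((Finset.range (N + 1)).filter Nat.Prime)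
    have h3 : ∏ p ∈ (Finset.range (N + 1)).filter Nat.Prime, (1 + GI I p / ((p : ℝ) - 1)) =
        ∏ p ∈ (Finset.range (N + 1)).filter Nat.Prime,
          (if p ∈ I.biUnion B then (1 + v p / ((p : ℝ) - 1)) else (1 + u p / ((p : ℝ) - 1))) := by
      refine Finset.prod_congr rfl fun p _ => ?_
      rw [hGI]
      dsimp only
      split <;> rfl
    rw [h3, ← h2]
    have hX0 : (0 : ℝ) ≤ ∏ p ∈ ((Finset.range (N + 1)).filter Nat.Prime) \ Js.biUnion B,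
        (1 + u p / ((p : ℝ) - 1)) := by
      refine Finset.prod_nonneg fun p hp => ?_
      have := hp1 p (Finset.mem_filter.1 (Finset.mem_sdiff.1 hp).1).2
      have := div_nonneg (hu p) this.le
      linarith
    refine mul_le_mul_of_nonneg_left ?_ hX0
    have hv1 : ∀ j ∈ Js, ∀ p ∈ B j, (1 : ℝ) ≤ 1 + v p / ((p : ℝ) - 1) := by
      intro j hj p hp
      have := div_nonneg (hv p) (hp1 p (hB j hj p hp)).le
      linarith
    have hu1 : ∀ j ∈ Js, ∀ p ∈ B j, (1 : ℝ) ≤ 1 + u p / ((p : ℝ) - 1) := by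
      intro j hj p hp
      have := div_nonneg (hu p) (hp1 p (hB j hj p hp)).le
      linarith
    refine mul_le_mul ?_ ?_ ?_ ?_
    · refine Finset.prod_le_prod (fun j hj => Finset.prod_nonneg fun p hp => ?_) fun j hj => ?_
      · exact zero_le_one.trans (hv1 j (hI hj) p (Finset.mem_inter.1 hp).2)
      · exact ABlock_mono _ _ _ (hv1 j (hI hj))
    · refine Finset.prod_le_prod (fun j hj => Finset.prod_nonneg fun p hp => ?_) fun j hj => ?_
      · exact zero_le_one.trans (hu1 j (Finset.mem_sdiff.1 hj).1 p (Finset.mem_inter.1 hp).2)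
      · exact ABlock_mono _ _ _ (hu1 j (Finset.mem_sdiff.1 hj).1)
    · refine Finset.prod_nonneg fun j hj => Finset.prod_nonneg fun p hp => ?_
      exact zero_le_one.trans (hu1 j (Finset.mem_sdiff.1 hj).1 p (Finset.mem_inter.1 hp).2)
    · refine Finset.prod_nonneg fun j hj => Finset.prod_nonneg fun p hp => ?_
      exact zero_le_one.trans (hv1 j (hI hj) p hp)
  have hlam0 : ∀ I : Finset ℕ, 0 ≤ ∏ j ∈ I, lam j := fun I => Finset.prod_nonneg fun j _ => hlam j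
  calc ∑ n ∈ Finset.Icc 1 N, ((∏ p ∈ n.primeFactors \ Js.biUnion B, u p) *
        ∏ j ∈ Js, (∏ p ∈ n.primeFactors ∩ B j, u p + lam j * ∏ p ∈ n.primeFactors ∩ B j, v p)) / n
      = ∑ n ∈ Finset.Icc 1 N, ∑ I ∈ Js.powerset, (∏ j ∈ I, lam j) * ((∏ p ∈ n.primeFactors, GI I p) / n) := by
        refine Finset.sum_congr rfl fun n _ => ?_
        rw [hexp n, Finset.sum_div]
        refine Finset.sum_congr rfl fun I _ => ?_
        rw [mul_div_assoc]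
    _ = ∑ I ∈ Js.powerset, (∏ j ∈ I, lam j) * ∑ n ∈ Finset.Icc 1 N, (∏ p ∈ n.primeFactors, GI I p) / n := by
        rw [Finset.sum_comm]
        refine Finset.sum_congr rfl fun I _ => ?_
        rw [Finset.mul_sum]
    _ ≤ ∑ I ∈ Js.powerset, (∏ j ∈ I, lam j) *
        ((∏ p ∈ ((Finset.range (N + 1)).filter Nat.Prime) \ Js.biUnion B, (1 + u p / ((p : ℝ) - 1))) *
        ((∏ j ∈ I, ∏ p ∈ B j, (1 + v p / ((p : ℝ) - 1))) *
          ∏ j ∈ Js \ I, ∏ p ∈ B j, (1 + u p / ((p : ℝ) - 1)))) :=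
        Finset.sum_le_sum fun I hI => mul_le_mul_of_nonneg_left (hstep I hI) (hlam0 I)
    _ = _ := by
        have h1 : ∀ j : ℕ, ∏ p ∈ B j, (1 + u p / ((p : ℝ) - 1)) + lam j * ∏ p ∈ B j, (1 + v p / ((p : ℝ) - 1)) =
            lam j * ∏ p ∈ B j, (1 + v p / ((p : ℝ) - 1)) + ∏ p ∈ B j, (1 + u p / ((p : ℝ) - 1)) :=
          fun j => add_comm _ _
        simp_rw [h1]
        rw [Finset.prod_add (fun j => lam j * ∏ p ∈ B j, (1 + v p / ((p : ℝ) - 1)))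
          (fun j => ∏ p ∈ B j, (1 + u p / ((p : ℝ) - 1))) Js, Finset.mul_sum]
        refine Finset.sum_congr rfl fun I _ => ?_
        rw [Finset.prod_mul_distrib]
        ring

end Pool.Agent.Lib.MP_ec260d_ntB.IA
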