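import Mathlib
import Pool.Agent.Lib.MP_ec260d_ntB.BA0

/-!
# Sums over primes (from BA0)
-/

namespace Pool.Agent.Lib.MP_ec260d_ntB.IA

open Complex Set Filter Topology MeasureTheory

private theorem APrime_half {p : ℕ} (hp : p.Prime) : 1 / 2 < Real.log p := by
  have h2 : (2 : ℝ) ≤ p := by exact_mod_cast hp.two_le
  have h := Real.log_le_log (by norm_num : (0 : ℝ) < 2) h2
  have := Real.log_two_gt_d9
  linarith

theorem prime_inv : ∃ C : ℝ, 0 < C ∧ ∀ u v : ℝ, 0 < u → u ≤ v → ∀ P : Finset ℕ,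
    (∀ p ∈ P, p.Prime ∧ u < Real.log p ∧ Real.log p ≤ v) →
    ∑ p ∈ P, (1 : ℝ) / p ≤ C * (1 + Real.log (v / u)) := by
  refine ⟨38, by norm_num, fun u v hu huv P hP => ?_⟩
  have hvu : 1 ≤ v / u := by rwa [le_div_iff₀ hu, one_mul]
  have hl : 0 ≤ Real.log (v / u) := Real.log_nonneg hvu
  rcases le_total (1 / 2) u with h | h
  · have := a0_inv_log P u v h huv hP
    linarith
  · rcases le_total v (1 / 2) with h' | h'
    · have : P = ∅ := by
        rw [Finset.eq_empty_iff_forall_notMem]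
        intro p hp
        have h1 := APrime_half (hP p hp).1
        have h2 := (hP p hp).2.2
        linarith
      rw [this, Finset.sum_empty]
      linarith
    · have h1 := a0_inv_log P (1 / 2) v le_rfl h' fun p hp =>
        ⟨(hP p hp).1, APrime_half (hP p hp).1, (hP p hp).2.2⟩
      have hv : 0 < v := hu.trans_le huv
      have h2 : Real.log (v / (1 / 2)) ≤ Real.log (v / u) :=
        Real.log_le_log (by positivity) (div_le_div_of_nonneg_left hv.le hu h)
      linarith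

theorem prime_sq : ∃ C : ℝ, 0 < C ∧ ∀ v : ℝ, 0 < v → ∀ P : Finset ℕ,
    (∀ p ∈ P, p.Prime ∧ Real.log p ≤ v) → ∑ p ∈ P, Real.log p ^ 2 / p ≤ C * v ^ 2 := by
  refine ⟨17, by norm_num, fun v hv P hP => ?_⟩
  rcases le_total v (1 / 2) with h' | h'
  · have : P = ∅ := by
      rw [Finset.eq_empty_iff_forall_notMem]
      intro p hp
      have h1 := APrime_half (hP p hp).1
      have h2 := (hP p hp).2
      linarith
    rw [this, Finset.sum_empty]
    positivity
  · have := a0_logsq P v hv.le hP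
    nlinarith

theorem block_inv : ∃ C₁ : ℝ, 0 < C₁ ∧ ∀ δ T : ℝ, 0 < δ → 1 < T → ∀ j : ℕ,
    ∑ p ∈ Pr δ T j, (1 : ℝ) / p ≤ C₁ :=
  ⟨3, by norm_num, fun δ _ _ hT j => a0_block δ hT.le j⟩

end Pool.Agent.Lib.MP_ec260d_ntB.IA
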