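import Mathlib
import Pool.Agent.Lib.MP_ec260d_ntB.APrime

/-!
# JOB APw: the prime sum `∑ |1 - p^w|²/p` (about 170 lines)

PROOF.  `l = log T ≥ 1`, `Re w ≤ c₁/l`, all primes have `log p ≤ δ l`.  `w = 0`: the sum is `0`.  Let `w ≠ 0`, `r = 1/‖w‖`.
(1) `log p ≤ r`: `‖1 - p^w‖ = ‖1 - exp (w log p)‖ ≤ ‖w‖ log p · e^(‖w‖ log p) ≤ e ‖w‖ log p` (`Complex.norm_exp_sub_one_le`-type bound, or `‖e^z - 1‖ ≤ e^‖z‖ - 1 ≤ ‖z‖ e^‖z‖`), so these primes contribute
    `≤ e² ‖w‖² C r² = e² C` (`prime_sq` with `v = r`).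
(2) `r < log p ≤ l/(c₁+1)`: `‖p^w‖ = p^(Re w) ≤ e^(c₁/(c₁+1)) ≤ e` (if `Re w < 0` it is `≤ 1`), `‖1 - p^w‖² ≤ (1+e)² ≤ 16`; if `r < l/(c₁+1)` they contribute `≤ 16 C (1 + log (l/((c₁+1) r)))
    ≤ 16 C (1 + log (1 + ‖w‖ l))` (`prime_inv` with `u = r`, `v = l/(c₁+1)`), otherwise there are none.
(3) `log p > max(r, l/(c₁+1))`, `log p ≤ δ l ≤ l`: `‖1 - p^w‖² ≤ (1 + e^(c₁))²`, contribution `≤ (1+e^(c₁))² C (1 + log (c₁+1))` (`prime_inv` with `u = l/(c₁+1)`, `v = l`).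
Total `≤ C'(c₁) + 16 C log (1 + ‖w‖ l)`.
-/

namespace Pool.Agent.Lib.MP_ec260d_ntB.IA

open Complex Set Filter Topology MeasureTheory

private theorem APw_norm {p : ℕ} (hp : p.Prime) (w : ℂ) :
    ‖(p : ℂ) ^ w‖ = Real.exp (Real.log p * w.re) := by
  rw [Complex.norm_natCast_cpow_of_pos hp.pos, Real.rpow_def_of_pos (by exact_mod_cast hp.pos)]

private theorem APw_small {p : ℕ} (hp : p.Prime) (w : ℂ) (hw : ‖w‖ * Real.log p ≤ 1) :
    ‖1 - (p : ℂ) ^ w‖ ^ 2 ≤ 4 * ‖w‖ ^ 2 * Real.log p ^ 2 := by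
  have hl : 0 ≤ Real.log p := Real.log_natCast_nonneg p
  have hp0 : (p : ℂ) ≠ 0 := by exact_mod_cast hp.ne_zero
  have hz : ‖(Real.log p : ℂ) * w‖ = ‖w‖ * Real.log p := by
    rw [norm_mul, Complex.norm_real, Real.norm_of_nonneg hl, mul_comm]
  have h1 : ‖1 - (p : ℂ) ^ w‖ ≤ 2 * (‖w‖ * Real.log p) := by
    rw [Complex.cpow_def_of_ne_zero hp0, ← Complex.natCast_log, norm_sub_rev, ← hz]
    apply Complex.norm_exp_sub_one_le
    rw [hz]
    exact hw
  calc ‖1 - (p : ℂ) ^ w‖ ^ 2 ≤ (2 * (‖w‖ * Real.log p)) ^ 2 :=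
        pow_le_pow_left₀ (norm_nonneg _) h1 2
    _ = _ := by ring

private theorem APw_large {p : ℕ} (hp : p.Prime) (w : ℂ) {b : ℝ} (hb : Real.log p * w.re ≤ b) :
    ‖1 - (p : ℂ) ^ w‖ ^ 2 ≤ (1 + Real.exp b) ^ 2 := by
  apply pow_le_pow_left₀ (norm_nonneg _)
  calc ‖1 - (p : ℂ) ^ w‖ ≤ ‖(1 : ℂ)‖ + ‖(p : ℂ) ^ w‖ := norm_sub_le _ _
    _ ≤ 1 + Real.exp b := by
      rw [norm_one, APw_norm hp]
      gcongr

theorem prime_w : ∃ A : ℝ, 0 ≤ A ∧ ∀ c₁ : ℝ, 0 ≤ c₁ → ∃ C : ℝ, 0 ≤ C ∧ ∀ T : ℝ, 3 ≤ T → ∀ w : ℂ,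
    w.re ≤ c₁ / Real.log T → ∀ P : Finset ℕ, (∀ p ∈ P, p.Prime ∧ Real.log p ≤ Real.log T) →
    ∑ p ∈ P, ‖1 - (p : ℂ) ^ w‖ ^ 2 / p ≤ C + A * Real.log (1 + ‖w‖ * Real.log T) := by
  obtain ⟨Ci, hCi, hI⟩ := prime_inv
  obtain ⟨Cs, hCs, hS⟩ := prime_sq
  refine ⟨16 * Ci, by positivity, fun c₁ hc₁ => ?_⟩
  have hlc : 0 ≤ Real.log (c₁ + 1) := Real.log_nonneg (by linarith)
  refine ⟨4 * Cs + 16 * Ci + (1 + Real.exp c₁) ^ 2 * (Ci * (1 + Real.log (c₁ + 1))), by positivity,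
    fun T hT w hw P hP => ?_⟩
  have hl : 1 < Real.log T := by
    rw [Real.lt_log_iff_exp_lt (by linarith)]
    have := Real.exp_one_lt_d9
    linarith
  set l := Real.log T with hl'
  have hl0 : 0 < l := by linarith
  have hE : Real.exp 1 ≤ 3 := by
    have := Real.exp_one_lt_d9
    linarith
  have hlw : 0 ≤ Real.log (1 + ‖w‖ * l) := Real.log_nonneg (by nlinarith [norm_nonneg w])
  rcases eq_or_ne w 0 with h0 | h0
  · subst h0
    have : ∑ p ∈ P, ‖1 - (p : ℂ) ^ (0 : ℂ)‖ ^ 2 / p = 0 := by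
      apply Finset.sum_eq_zero
      intro p _
      simp
    rw [this]
    positivity
  have hw0 : 0 < ‖w‖ := norm_pos_iff.mpr h0
  set r := 1 / ‖w‖ with hr
  have hr0 : 0 < r := by positivity
  have hwr : ‖w‖ * r = 1 := by rw [hr]; field_simp
  set q := l / (c₁ + 1) with hq
  have hq0 : 0 < q := by positivity
  have hql : q ≤ l := div_le_self hl0.le (by linarith)
  -- the three ranges
  have s1 : ∑ p ∈ P, ‖1 - (p : ℂ) ^ w‖ ^ 2 / p =
      ∑ p ∈ P.filter (fun p : ℕ => Real.log p ≤ r), ‖1 - (p : ℂ) ^ w‖ ^ 2 / p +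
      (∑ p ∈ (P.filter (fun p : ℕ => ¬ Real.log p ≤ r)).filter (fun p : ℕ => Real.log p ≤ q),
        ‖1 - (p : ℂ) ^ w‖ ^ 2 / p +
      ∑ p ∈ (P.filter (fun p : ℕ => ¬ Real.log p ≤ r)).filter (fun p : ℕ => ¬ Real.log p ≤ q),
        ‖1 - (p : ℂ) ^ w‖ ^ 2 / p) := by
    rw [Finset.sum_filter_add_sum_filter_not, Finset.sum_filter_add_sum_filter_not]
  have b1 : ∑ p ∈ P.filter (fun p : ℕ => Real.log p ≤ r), ‖1 - (p : ℂ) ^ w‖ ^ 2 / p ≤ 4 * Cs := by
    have h1 : ∑ p ∈ P.filter (fun p : ℕ => Real.log p ≤ r), ‖1 - (p : ℂ) ^ w‖ ^ 2 / p ≤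
        4 * ‖w‖ ^ 2 * ∑ p ∈ P.filter (fun p : ℕ => Real.log p ≤ r), Real.log p ^ 2 / p := by
      rw [Finset.mul_sum]
      apply Finset.sum_le_sum
      intro p hp
      rw [Finset.mem_filter] at hp
      have hpp := (hP p hp.1).1
      rw [← mul_div_assoc]
      apply div_le_div_of_nonneg_right _ (Nat.cast_nonneg p)
      apply APw_small hpp
      calc ‖w‖ * Real.log p ≤ ‖w‖ * r := mul_le_mul_of_nonneg_left hp.2 hw0.le
        _ = 1 := hwr
    have h2 : ∑ p ∈ P.filter (fun p : ℕ => Real.log p ≤ r), Real.log p ^ 2 / p ≤ Cs * r ^ 2 := by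
      apply hS r hr0
      intro p hp
      rw [Finset.mem_filter] at hp
      exact ⟨(hP p hp.1).1, hp.2⟩
    calc _ ≤ _ := h1
      _ ≤ 4 * ‖w‖ ^ 2 * (Cs * r ^ 2) := mul_le_mul_of_nonneg_left h2 (by positivity)
      _ = 4 * Cs * (‖w‖ * r) ^ 2 := by ring
      _ = 4 * Cs := by rw [hwr]; ring
  have b2 : ∑ p ∈ (P.filter (fun p : ℕ => ¬ Real.log p ≤ r)).filter (fun p : ℕ => Real.log p ≤ q),
        ‖1 - (p : ℂ) ^ w‖ ^ 2 / p ≤ 16 * Ci + 16 * Ci * Real.log (1 + ‖w‖ * l) := by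
    rcases le_total r q with hrq | hrq
    · have h1 : ∑ p ∈ (P.filter (fun p : ℕ => ¬ Real.log p ≤ r)).filter
            (fun p : ℕ => Real.log p ≤ q), ‖1 - (p : ℂ) ^ w‖ ^ 2 / p ≤
          16 * ∑ p ∈ (P.filter (fun p : ℕ => ¬ Real.log p ≤ r)).filter
            (fun p : ℕ => Real.log p ≤ q), (1 : ℝ) / p := by
        rw [Finset.mul_sum]
        apply Finset.sum_le_sum
        intro p hp
        rw [Finset.mem_filter, Finset.mem_filter] at hp
        have hpp := (hP p hp.1.1).1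
        rw [← mul_div_assoc, mul_one]
        apply div_le_div_of_nonneg_right _ (Nat.cast_nonneg p)
        have hb : Real.log p * w.re ≤ 1 := by
          have hp0 : 0 ≤ Real.log p := Real.log_natCast_nonneg p
          calc Real.log p * w.re ≤ Real.log p * (c₁ / l) := mul_le_mul_of_nonneg_left hw hp0
            _ ≤ q * (c₁ / l) := mul_le_mul_of_nonneg_right hp.2 (by positivity)
            _ = c₁ / (c₁ + 1) := by rw [hq]; field_simp
            _ ≤ 1 := by rw [div_le_one (by linarith)]; linarith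
        calc _ ≤ (1 + Real.exp 1) ^ 2 := APw_large hpp w hb
          _ ≤ (1 + 3) ^ 2 := by
            apply pow_le_pow_left₀ (by positivity)
            linarith
          _ = 16 := by norm_num
      have h2 := hI r q hr0 hrq ((P.filter (fun p : ℕ => ¬ Real.log p ≤ r)).filter
            (fun p : ℕ => Real.log p ≤ q)) (by
        intro p hp
        rw [Finset.mem_filter, Finset.mem_filter] at hp
        exact ⟨(hP p hp.1.1).1, not_le.mp hp.1.2, hp.2⟩)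
      have h3 : Real.log (q / r) ≤ Real.log (1 + ‖w‖ * l) := by
        apply Real.log_le_log (by positivity)
        have : q / r = ‖w‖ * q := by rw [hr]; field_simp
        rw [this]
        have := mul_le_mul_of_nonneg_left hql hw0.le
        linarith
      have h4 : Ci * (1 + Real.log (q / r)) ≤ Ci * (1 + Real.log (1 + ‖w‖ * l)) :=
        mul_le_mul_of_nonneg_left (by linarith) hCi.le
      linarith
    · have : (P.filter (fun p : ℕ => ¬ Real.log p ≤ r)).filter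
            (fun p : ℕ => Real.log p ≤ q) = ∅ := by
        rw [Finset.eq_empty_iff_forall_notMem]
        intro p hp
        rw [Finset.mem_filter, Finset.mem_filter] at hp
        exact hp.1.2 (hp.2.trans hrq)
      rw [this, Finset.sum_empty]
      positivity
  have b3 : ∑ p ∈ (P.filter (fun p : ℕ => ¬ Real.log p ≤ r)).filter
        (fun p : ℕ => ¬ Real.log p ≤ q), ‖1 - (p : ℂ) ^ w‖ ^ 2 / p ≤
      (1 + Real.exp c₁) ^ 2 * (Ci * (1 + Real.log (c₁ + 1))) := by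
    have h1 : ∑ p ∈ (P.filter (fun p : ℕ => ¬ Real.log p ≤ r)).filter
          (fun p : ℕ => ¬ Real.log p ≤ q), ‖1 - (p : ℂ) ^ w‖ ^ 2 / p ≤
        (1 + Real.exp c₁) ^ 2 * ∑ p ∈ (P.filter (fun p : ℕ => ¬ Real.log p ≤ r)).filter
          (fun p : ℕ => ¬ Real.log p ≤ q), (1 : ℝ) / p := by
      rw [Finset.mul_sum]
      apply Finset.sum_le_sum
      intro p hp
      rw [Finset.mem_filter, Finset.mem_filter] at hp
      have hpp := (hP p hp.1.1).1
      have hpl := (hP p hp.1.1).2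
      rw [← mul_div_assoc, mul_one]
      apply div_le_div_of_nonneg_right _ (Nat.cast_nonneg p)
      apply APw_large hpp
      have hp0 : 0 ≤ Real.log p := Real.log_natCast_nonneg p
      calc Real.log p * w.re ≤ Real.log p * (c₁ / l) := mul_le_mul_of_nonneg_left hw hp0
        _ ≤ l * (c₁ / l) := mul_le_mul_of_nonneg_right hpl (by positivity)
        _ = c₁ := by field_simp
    have h2 := hI q l hq0 hql ((P.filter (fun p : ℕ => ¬ Real.log p ≤ r)).filter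
          (fun p : ℕ => ¬ Real.log p ≤ q)) (by
      intro p hp
      rw [Finset.mem_filter, Finset.mem_filter] at hp
      exact ⟨(hP p hp.1.1).1, not_le.mp hp.2, (hP p hp.1.1).2⟩)
    have h3 : l / q = c₁ + 1 := by rw [hq]; field_simp
    rw [h3] at h2
    exact h1.trans (mul_le_mul_of_nonneg_left h2 (by positivity))
  rw [s1]
  linarith

end Pool.Agent.Lib.MP_ec260d_ntB.IA
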