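import Mathlib
import Pool.Agent.Lib.MP_ec260d_ntB.ABj
import Pool.Agent.Lib.MP_ec260d_ntB.ABlock
import Pool.Agent.Lib.MP_ec260d_ntB.AExp
import Pool.Agent.Lib.MP_ec260d_ntB.APw

/-!
# JOB AQ: `∑_(n ≤ T) |b_n(w)|²/n ≤ C (1 + |w| log T)^A` (about 220 lines)

SETUP.  `l = log T`, `J = JJ T`, `Pr j = Pr δ T j`, `K = e^(c₁)`, `v = e (1+K)²`.
STEP 1.  `bn_eq`, `bj_sq` (for `p ∈ Pr j`: `log p ≤ δ l ≤ l`, so `‖p^w‖ = exp (Re w log p) ≤ e^(c₁)` since `Re w ≤ c₁/l`, also when `Re w < 0`):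
`‖bn‖² ≤ ∏_(p ∈ P0 ∩ n.primeFactors) ‖1 - p^w‖² ∏_(j<J) (∏_(p ∈ n.primeFactors ∩ Pr j) ‖1 - p^w‖² + e^(-d_j) ∏_(p ∈ n.primeFactors ∩ Pr j) v)`.
STEP 2.  `block_sum` with `N = ⌊T⌋₊`, `Js = range J`, `B = Pr δ T`, `u p = ‖1 - p^w‖²` if `p ∈ QQ δ T` and `u p = 1` otherwise, `lam j = e^(-d_j)` (`n.primeFactors \ ⋃ Pr j` = the part in `P0` and a part outside `QQ` where
`u = 1`).  So the sum is `≤ ∏_(p ≤ N, p ∉ ⋃ Pr j)(1 + u p/(p-1)) ∏_(j<J) (a_j + e^(-d_j) ∏_(p ∈ Pr j)(1 + v/(p-1)))`, `a_j = ∏_(p ∈ Pr j)(1 + u p/(p-1)) ≥ 1`.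
`∏_(p ∈ Pr j) (1 + v/(p-1)) ≤ exp (2 v ∑ 1/p) ≤ exp (2 v C₁)` (`block_inv`, `1/(p-1) ≤ 2/p`), so each factor is `≤ a_j (1 + e^(-d_j) e^(2vC₁))` and the product is
`≤ (∏ a_j) exp (e^(2vC₁) ∑ e^(-d_j)) ≤ (∏ a_j) exp (e^(2 v C₁))` (`dd_sum`).
STEP 3.  The remaining product is `≤ ∏_(p ≤ N or p ∈ Pr j) (1 + u p/(p-1)) ≤ exp (2 ∑ u p/p)`; the primes in `QQ δ T` have `log p ≤ log T` for `T ≥ 10000` (`QQ_log`): `prime_w`; the primes outside `QQ` have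
`log p > δ l` (`QQ_cover`) and `log p ≤ l`: `∑ 1/p ≤ C (1 + log (1/δ))` (`prime_inv`).  So the total is `≤ C'(δ,c₁) (1 + ‖w‖ l)^(2A)`; take a natural number `≥ 2A` as exponent.
-/

namespace Pool.Agent.Lib.MP_ec260d_ntB.IA

open Complex Set Filter Topology MeasureTheory


private theorem aq_norm {δ c₁ T : ℝ} (hδ : 0 < δ) (hδ1 : δ ≤ 1) (hc : 0 ≤ c₁) (hT : 1 < T) {w : ℂ}
    (hw : w.re ≤ c₁ / Real.log T) {j p : ℕ} (hp : p ∈ Pr δ T j) : ‖(p : ℂ) ^ w‖ ≤ Real.exp c₁ := by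
  have hl : 0 < Real.log T := Real.log_pos hT
  have hpp := (Pr_prime hp).1
  have hp1 : (1 : ℝ) ≤ (p : ℝ) := by exact_mod_cast hpp.one_le
  have hp0 : (0 : ℝ) < (p : ℝ) := by linarith
  have hlp : 0 ≤ Real.log p := Real.log_nonneg hp1
  have h1 : Real.log p ≤ Real.log T := by
    refine (Pr_log hδ hT hp).2.trans ?_
    have h2 : Real.exp (-(j : ℝ)) ≤ 1 := by
      rw [Real.exp_le_one_iff]
      have : (0 : ℝ) ≤ (j : ℝ) := Nat.cast_nonneg j
      linarith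
    have h3 : δ * Real.exp (-(j : ℝ)) ≤ 1 := by
      calc δ * Real.exp (-(j : ℝ)) ≤ 1 * 1 := mul_le_mul hδ1 h2 (Real.exp_pos _).le (by norm_num)
        _ = 1 := by ring
    calc δ * Real.exp (-(j : ℝ)) * Real.log T ≤ 1 * Real.log T :=
          mul_le_mul_of_nonneg_right h3 hl.le
      _ = Real.log T := one_mul _
  rw [Complex.norm_natCast_cpow_of_pos hpp.pos, Real.rpow_def_of_pos hp0]
  apply Real.exp_le_exp.mpr
  rcases le_total w.re 0 with h | h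
  · exact (mul_nonpos_of_nonneg_of_nonpos hlp h).trans hc
  · calc Real.log p * w.re ≤ Real.log T * (c₁ / Real.log T) := mul_le_mul h1 hw h hl.le
      _ = c₁ := by field_simp

private theorem aq_prod_exp (S : Finset ℕ) (f : ℕ → ℝ) (hf : ∀ p ∈ S, 0 ≤ f p) :
    ∏ p ∈ S, (1 + f p) ≤ Real.exp (∑ p ∈ S, f p) := by
  rw [Real.exp_sum]
  refine Finset.prod_le_prod (fun p hp => ?_) (fun p _ => ?_)
  · have := hf p hp
    linarith
  · have := Real.add_one_le_exp (f p)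
    linarith

private theorem aq_two {p : ℕ} (hp : p.Prime) {x : ℝ} (hx : 0 ≤ x) :
    x / ((p : ℝ) - 1) ≤ 2 * (x / p) := by
  have h2 : (2 : ℝ) ≤ (p : ℝ) := by exact_mod_cast hp.two_le
  have h1 : (0 : ℝ) < (p : ℝ) - 1 := by linarith
  have h0 : (0 : ℝ) < (p : ℝ) := by linarith
  rw [div_le_iff₀ h1]
  have h3 : 2 * (x / p) * ((p : ℝ) - 1) = x * (2 * ((p : ℝ) - 1) / p) := by ring
  have h4 : 1 ≤ 2 * ((p : ℝ) - 1) / p := by
    rw [le_div_iff₀ h0]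
    linarith
  rw [h3]
  nlinarith

/-- step 1 -/
private theorem aq_step1 {δ c₁ T : ℝ} (hδ : 0 < δ) (hδ1 : δ ≤ 1) (hc : 0 ≤ c₁) (hT : 1 < T) {w : ℂ}
    (hw : w.re ≤ c₁ / Real.log T) (u : ℕ → ℝ) (hu1 : ∀ p ∈ QQ δ T, u p = ‖1 - (p : ℂ) ^ w‖ ^ 2)
    (hu2 : ∀ p, p ∉ QQ δ T → u p = 1) (n : ℕ) :
    ‖bn δ T n w‖ ^ 2 ≤ (∏ p ∈ n.primeFactors \ (Finset.range (JJ T)).biUnion (Pr δ T), u p) *
        ∏ j ∈ Finset.range (JJ T), (∏ p ∈ n.primeFactors ∩ Pr δ T j, u p +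
          Real.exp (-(dd δ j : ℝ)) *
            ∏ p ∈ n.primeFactors ∩ Pr δ T j, (Real.exp 1 * (1 + Real.exp c₁) ^ 2)) := by
  have hmemQ0 : ∀ p ∈ P0, p ∈ QQ δ T := fun p hp => Finset.mem_union_left _ hp
  have hmemQj : ∀ j ∈ Finset.range (JJ T), ∀ p ∈ Pr δ T j, p ∈ QQ δ T := fun j hj p hp =>
    Finset.mem_union_right _ (Finset.mem_biUnion.mpr ⟨j, hj, hp⟩)
  rw [bn_eq hδ hT, norm_mul, mul_pow, norm_prod, norm_prod, ← Finset.prod_pow, ← Finset.prod_pow]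
  have e0 : ∏ p ∈ P0 ∩ n.primeFactors, ‖1 - (p : ℂ) ^ w‖ ^ 2 =
      ∏ p ∈ n.primeFactors \ (Finset.range (JJ T)).biUnion (Pr δ T), u p := by
    have e1 : ∏ p ∈ P0 ∩ n.primeFactors, ‖1 - (p : ℂ) ^ w‖ ^ 2 = ∏ p ∈ P0 ∩ n.primeFactors, u p :=
      Finset.prod_congr rfl fun p hp => (hu1 p (hmemQ0 p (Finset.mem_inter.mp hp).1)).symm
    rw [e1]
    refine Finset.prod_subset ?_ ?_
    · intro p hp
      rw [Finset.mem_inter] at hp
      rw [Finset.mem_sdiff]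
      refine ⟨hp.2, fun h => ?_⟩
      obtain ⟨j, _, hpj⟩ := Finset.mem_biUnion.mp h
      exact (Finset.disjoint_left.mp (P0_disj δ T j)) hp.1 hpj
    · intro p hp hn
      rw [Finset.mem_sdiff] at hp
      refine hu2 p fun h => ?_
      rcases Finset.mem_union.mp h with h | h
      · exact hn (Finset.mem_inter.mpr ⟨h, hp.1⟩)
      · exact hp.2 h
  rw [e0]
  have hun : ∀ p, 0 ≤ u p := fun p => by
    by_cases h : p ∈ QQ δ T
    · rw [hu1 p h]; exact sq_nonneg _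
    · rw [hu2 p h]; norm_num
  refine mul_le_mul_of_nonneg_left ?_ (Finset.prod_nonneg fun p _ => hun p)
  refine Finset.prod_le_prod (fun j _ => sq_nonneg _) fun j hj => ?_
  have e2 : ∏ p ∈ n.primeFactors ∩ Pr δ T j, u p =
      ∏ p ∈ n.primeFactors ∩ Pr δ T j, ‖1 - (p : ℂ) ^ w‖ ^ 2 :=
    Finset.prod_congr rfl fun p hp => hu1 p (hmemQj j hj p (Finset.mem_inter.mp hp).2)
  rw [e2]
  exact bj_sq _ _ _ _ (Real.exp_pos _).le fun p hp =>
    aq_norm hδ hδ1 hc hT hw (Finset.mem_inter.mp hp).2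

theorem Q_bound : ∃ A : ℕ, ∀ δ c₁ : ℝ, 0 < δ → δ ≤ 1 → 0 ≤ c₁ → ∃ C : ℝ, 0 ≤ C ∧ ∀ T : ℝ, 10000 ≤ T →
    ∀ w : ℂ, w.re ≤ c₁ / Real.log T →
    ∑ n ∈ Finset.Icc 1 ⌊T⌋₊, ‖bn δ T n w‖ ^ 2 / n ≤ C * (1 + ‖w‖ * Real.log T) ^ A := by
  obtain ⟨A₀, hA₀, hpw⟩ := prime_w
  obtain ⟨Cp, hCp, hinv⟩ := prime_inv
  obtain ⟨C₁, hC₁, hblk⟩ := block_inv
  refine ⟨⌈2 * A₀⌉₊, fun δ c₁ hδ hδ1 hc => ?_⟩
  obtain ⟨Cw, hCw, hpw⟩ := hpw c₁ hc
  set v : ℝ := Real.exp 1 * (1 + Real.exp c₁) ^ 2 with hv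
  have hv0 : 0 ≤ v := by positivity
  set E : ℝ := Real.exp (2 * (v * C₁)) with hE
  have hE0 : 0 < E := Real.exp_pos _
  refine ⟨Real.exp E * Real.exp (2 * (Cw + Cp * (1 + Real.log (1 / δ)))), by positivity,
    fun T hT10 w hw => ?_⟩
  have hT1 : 1 < T := by linarith
  have hT3 : 3 ≤ T := by linarith
  have hT0 : 0 < T := by linarith
  have hl : 0 < Real.log T := Real.log_pos hT1
  set u : ℕ → ℝ := fun p => if p ∈ QQ δ T then ‖1 - (p : ℂ) ^ w‖ ^ 2 else 1 with hu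
  have hu1 : ∀ p ∈ QQ δ T, u p = ‖1 - (p : ℂ) ^ w‖ ^ 2 := fun p hp => if_pos hp
  have hu2 : ∀ p, p ∉ QQ δ T → u p = 1 := fun p hp => if_neg hp
  have hun : ∀ p, 0 ≤ u p := fun p => by
    by_cases h : p ∈ QQ δ T
    · rw [hu1 p h]; exact sq_nonneg _
    · rw [hu2 p h]; norm_num
  set Js : Finset ℕ := Finset.range (JJ T) with hJs
  set B : ℕ → Finset ℕ := Pr δ T with hB
  set lam : ℕ → ℝ := fun j => Real.exp (-(dd δ j : ℝ)) with hlam
  have hlam0 : ∀ j, 0 ≤ lam j := fun j => (Real.exp_pos _).le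
  set N : ℕ := ⌊T⌋₊ with hN
  -- block inequality
  have h1 : ∑ n ∈ Finset.Icc 1 N, ‖bn δ T n w‖ ^ 2 / n ≤
      ∑ n ∈ Finset.Icc 1 N, ((∏ p ∈ n.primeFactors \ Js.biUnion B, u p) *
        ∏ j ∈ Js, (∏ p ∈ n.primeFactors ∩ B j, u p + lam j * ∏ p ∈ n.primeFactors ∩ B j, v)) / n := by
    refine Finset.sum_le_sum fun n _ => ?_
    exact div_le_div_of_nonneg_right (aq_step1 hδ hδ1 hc hT1 hw u hu1 hu2 n) (Nat.cast_nonneg n)
  have h2 := block_sum N Js B (fun j _ p hp => (Pr_prime hp).1)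
    (fun i _ j _ hij => Pr_disj hδ hT1 hij) u (fun _ => v) hun (fun _ => hv0) lam hlam0
  -- the factors of the blocks
  have hpos1 : ∀ p : ℕ, p.Prime → 0 ≤ u p / ((p : ℝ) - 1) := fun p hp => by
    have h3 : (2 : ℝ) ≤ (p : ℝ) := by exact_mod_cast hp.two_le
    exact div_nonneg (hun p) (by linarith)
  have hposv : ∀ p : ℕ, p.Prime → 0 ≤ v / ((p : ℝ) - 1) := fun p hp => by
    have h3 : (2 : ℝ) ≤ (p : ℝ) := by exact_mod_cast hp.two_le
    exact div_nonneg hv0 (by linarith)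
  have hV : ∀ j ∈ Js, ∏ p ∈ B j, (1 + v / ((p : ℝ) - 1)) ≤ E := by
    intro j _
    refine (aq_prod_exp (B j) _ fun p hp => hposv p (Pr_prime hp).1).trans ?_
    apply Real.exp_le_exp.mpr
    have h3 : ∑ p ∈ B j, v / ((p : ℝ) - 1) ≤ ∑ p ∈ B j, 2 * v * (1 / (p : ℝ)) := by
      refine Finset.sum_le_sum fun p hp => ?_
      have := aq_two (Pr_prime hp).1 hv0
      calc v / ((p : ℝ) - 1) ≤ 2 * (v / p) := this
        _ = 2 * v * (1 / (p : ℝ)) := by ring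
    rw [← Finset.mul_sum] at h3
    have h4 := hblk δ T hδ hT1 j
    calc ∑ p ∈ B j, v / ((p : ℝ) - 1) ≤ 2 * v * ∑ p ∈ B j, 1 / (p : ℝ) := h3
      _ ≤ 2 * v * C₁ := mul_le_mul_of_nonneg_left h4 (by positivity)
      _ = 2 * (v * C₁) := by ring
  set a : ℕ → ℝ := fun j => ∏ p ∈ B j, (1 + u p / ((p : ℝ) - 1)) with ha
  have ha1 : ∀ j, 1 ≤ a j := by
    intro j
    rw [ha]
    have h3 : ∏ p ∈ B j, (1 : ℝ) ≤ ∏ p ∈ B j, (1 + u p / ((p : ℝ) - 1)) :=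
      Finset.prod_le_prod (fun _ _ => by norm_num) fun p hp => by
        have := hpos1 p (Pr_prime hp).1
        linarith
    rwa [Finset.prod_const_one] at h3
  have hfac : ∏ j ∈ Js, (∏ p ∈ B j, (1 + u p / ((p : ℝ) - 1)) +
      lam j * ∏ p ∈ B j, (1 + v / ((p : ℝ) - 1))) ≤ Real.exp E * ∏ j ∈ Js, a j := by
    have h3 : ∏ j ∈ Js, (∏ p ∈ B j, (1 + u p / ((p : ℝ) - 1)) +
        lam j * ∏ p ∈ B j, (1 + v / ((p : ℝ) - 1))) ≤ ∏ j ∈ Js, (Real.exp (E * lam j) * a j) := by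
      refine Finset.prod_le_prod (fun j _ => ?_) fun j hj => ?_
      · have h4 : 0 ≤ ∏ p ∈ B j, (1 + v / ((p : ℝ) - 1)) := Finset.prod_nonneg fun p hp => by
          have := hposv p (Pr_prime hp).1
          linarith
        have h5 := mul_nonneg (hlam0 j) h4
        have h6 := ha1 j
        rw [ha] at h6
        linarith
      · have h4 := mul_le_mul_of_nonneg_left (hV j hj) (hlam0 j)
        have h5 : 1 + E * lam j ≤ Real.exp (E * lam j) := by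
          have := Real.add_one_le_exp (E * lam j)
          linarith
        have h6 := ha1 j
        have h7 : 0 ≤ E * lam j := mul_nonneg hE0.le (hlam0 j)
        calc ∏ p ∈ B j, (1 + u p / ((p : ℝ) - 1)) + lam j * ∏ p ∈ B j, (1 + v / ((p : ℝ) - 1))
            ≤ a j + lam j * E := by
              rw [ha]
              linarith
          _ ≤ a j + (E * lam j) * a j := by nlinarith
          _ = (1 + E * lam j) * a j := by ring
          _ ≤ Real.exp (E * lam j) * a j := mul_le_mul_of_nonneg_right h5 (by linarith)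
    refine h3.trans ?_
    rw [Finset.prod_mul_distrib, ← Real.exp_sum, ← Finset.mul_sum]
    have h4 : ∑ j ∈ Js, lam j ≤ 1 := dd_sum hδ hδ1 (JJ T)
    have h5 : Real.exp (E * ∑ j ∈ Js, lam j) ≤ Real.exp E := by
      apply Real.exp_le_exp.mpr
      nlinarith
    exact mul_le_mul_of_nonneg_right h5 (Finset.prod_nonneg fun j _ => by linarith [ha1 j])
  -- the total
  set S0 : Finset ℕ := ((Finset.range (N + 1)).filter Nat.Prime) \ Js.biUnion B with hS0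
  have hS0p : ∀ p ∈ S0, p.Prime ∧ p ≤ N := fun p hp => by
    have h3 := (Finset.mem_sdiff.mp hp).1
    rw [Finset.mem_filter, Finset.mem_range] at h3
    exact ⟨h3.2, by omega⟩
  have hbU : ∀ p ∈ Js.biUnion B, p.Prime := fun p hp => by
    obtain ⟨j, _, hj⟩ := Finset.mem_biUnion.mp hp
    exact (Pr_prime hj).1
  have hprodle : (∏ p ∈ S0, (1 + u p / ((p : ℝ) - 1))) * ∏ j ∈ Js, a j ≤
      Real.exp (∑ p ∈ S0 ∪ Js.biUnion B, 2 * (u p / p)) := by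
    have hdj : (↑Js : Set ℕ).PairwiseDisjoint B := fun i _ j _ hij => Pr_disj hδ hT1 hij
    have e1 : ∏ j ∈ Js, a j = ∏ p ∈ Js.biUnion B, (1 + u p / ((p : ℝ) - 1)) := by
      rw [Finset.prod_biUnion hdj]
    have hd : Disjoint S0 (Js.biUnion B) := Finset.sdiff_disjoint
    rw [e1, ← Finset.prod_union hd]
    have hpr : ∀ p ∈ S0 ∪ Js.biUnion B, p.Prime := fun p hp => by
      rcases Finset.mem_union.mp hp with h | h
      · exact (hS0p p h).1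
      · exact hbU p h
    refine (aq_prod_exp _ _ fun p hp => hpos1 p (hpr p hp)).trans ?_
    apply Real.exp_le_exp.mpr
    exact Finset.sum_le_sum fun p hp => aq_two (hpr p hp) (hun p)
  have hsum : ∑ p ∈ S0 ∪ Js.biUnion B, 2 * (u p / p) ≤
      2 * (Cw + A₀ * Real.log (1 + ‖w‖ * Real.log T)) + 2 * (Cp * (1 + Real.log (1 / δ))) := by
    rw [← Finset.sum_inter_add_sum_sdiff (S0 ∪ Js.biUnion B) (QQ δ T)]
    refine add_le_add ?_ ?_
    · have h3 : ∑ p ∈ (S0 ∪ Js.biUnion B) ∩ QQ δ T, 2 * (u p / p) ≤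
          ∑ p ∈ QQ δ T, 2 * (‖1 - (p : ℂ) ^ w‖ ^ 2 / p) := by
        calc ∑ p ∈ (S0 ∪ Js.biUnion B) ∩ QQ δ T, 2 * (u p / p)
            = ∑ p ∈ (S0 ∪ Js.biUnion B) ∩ QQ δ T, 2 * (‖1 - (p : ℂ) ^ w‖ ^ 2 / p) :=
              Finset.sum_congr rfl fun p hp => by rw [hu1 p (Finset.mem_inter.mp hp).2]
          _ ≤ _ := Finset.sum_le_sum_of_subset_of_nonneg Finset.inter_subset_right
              fun p _ _ => by positivity
      have h4 := hpw T hT3 w hw (QQ δ T) (fun p hp => by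
        obtain ⟨h5, h6⟩ := QQ_log hδ hT1 hp
        refine ⟨h5, ?_⟩
        rcases h6 with h6 | h6
        · have h7 : (p : ℝ) ≤ T := by
            have : (p : ℝ) ≤ 10000 := by exact_mod_cast h6
            linarith
          exact Real.log_le_log (by exact_mod_cast h5.pos) h7
        · exact h6.trans (by nlinarith))
      have h9 : ∑ p ∈ QQ δ T, 2 * (‖1 - (p : ℂ) ^ w‖ ^ 2 / p) =
          2 * ∑ p ∈ QQ δ T, ‖1 - (p : ℂ) ^ w‖ ^ 2 / p := by rw [Finset.mul_sum]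
      rw [h9] at h3
      exact h3.trans (mul_le_mul_of_nonneg_left h4 (by norm_num))
    · have h3 : ∑ p ∈ (S0 ∪ Js.biUnion B) \ QQ δ T, 2 * (u p / p) =
          2 * ∑ p ∈ (S0 ∪ Js.biUnion B) \ QQ δ T, (1 : ℝ) / p := by
        rw [Finset.mul_sum]
        exact Finset.sum_congr rfl fun p hp => by rw [hu2 p (Finset.mem_sdiff.mp hp).2]
      rw [h3]
      refine mul_le_mul_of_nonneg_left ?_ (by norm_num)
      have h4 := hinv (δ * Real.log T) (Real.log T) (mul_pos hδ hl) (by nlinarith)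
        ((S0 ∪ Js.biUnion B) \ QQ δ T) (fun p hp => by
          rw [Finset.mem_sdiff, Finset.mem_union] at hp
          have hS : p ∈ S0 := by
            rcases hp.1 with h | h
            · exact h
            · exact absurd (Finset.mem_union_right _ h) hp.2
          obtain ⟨h5, h6⟩ := hS0p p hS
          refine ⟨h5, ?_, ?_⟩
          · by_contra h7
            exact hp.2 (QQ_cover hδ hδ1 hT3 h5 (not_lt.mp h7))
          · have h7 : (p : ℝ) ≤ T := by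
              have h8 : (p : ℝ) ≤ (N : ℝ) := by exact_mod_cast h6
              exact h8.trans (Nat.floor_le hT0.le)
            exact Real.log_le_log (by exact_mod_cast h5.pos) h7)
      have h5 : Real.log T / (δ * Real.log T) = 1 / δ := by
        field_simp
      rwa [h5] at h4
  have hx1 : 1 ≤ 1 + ‖w‖ * Real.log T := by
    have : 0 ≤ ‖w‖ * Real.log T := mul_nonneg (norm_nonneg _) hl.le
    linarith
  have hx0 : 0 < 1 + ‖w‖ * Real.log T := by linarith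
  have hpow : Real.exp (2 * (A₀ * Real.log (1 + ‖w‖ * Real.log T))) ≤
      (1 + ‖w‖ * Real.log T) ^ ⌈2 * A₀⌉₊ := by
    have h3 : Real.exp (2 * (A₀ * Real.log (1 + ‖w‖ * Real.log T))) =
        (1 + ‖w‖ * Real.log T) ^ (2 * A₀ : ℝ) := by
      rw [Real.rpow_def_of_pos hx0]
      congr 1
      ring
    rw [h3, ← Real.rpow_natCast]
    exact Real.rpow_le_rpow_of_exponent_le hx1 (Nat.le_ceil _)
  calc ∑ n ∈ Finset.Icc 1 N, ‖bn δ T n w‖ ^ 2 / n
      ≤ (∏ p ∈ S0, (1 + u p / ((p : ℝ) - 1))) *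
        ∏ j ∈ Js, (∏ p ∈ B j, (1 + u p / ((p : ℝ) - 1)) + lam j * ∏ p ∈ B j, (1 + v / ((p : ℝ) - 1))) :=
        h1.trans h2
    _ ≤ (∏ p ∈ S0, (1 + u p / ((p : ℝ) - 1))) * (Real.exp E * ∏ j ∈ Js, a j) := by
        refine mul_le_mul_of_nonneg_left hfac (Finset.prod_nonneg fun p hp => ?_)
        have := hpos1 p (hS0p p hp).1
        linarith
    _ = Real.exp E * ((∏ p ∈ S0, (1 + u p / ((p : ℝ) - 1))) * ∏ j ∈ Js, a j) := by ring
    _ ≤ Real.exp E * Real.exp (2 * (Cw + A₀ * Real.log (1 + ‖w‖ * Real.log T)) +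
          2 * (Cp * (1 + Real.log (1 / δ)))) :=
        mul_le_mul_of_nonneg_left (hprodle.trans (Real.exp_le_exp.mpr hsum)) (Real.exp_pos _).le
    _ = Real.exp E * Real.exp (2 * (Cw + Cp * (1 + Real.log (1 / δ)))) *
          Real.exp (2 * (A₀ * Real.log (1 + ‖w‖ * Real.log T))) := by
        have h9 : Real.exp (2 * (Cw + A₀ * Real.log (1 + ‖w‖ * Real.log T)) +
            2 * (Cp * (1 + Real.log (1 / δ)))) =
            Real.exp (2 * (Cw + Cp * (1 + Real.log (1 / δ)))) *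
              Real.exp (2 * (A₀ * Real.log (1 + ‖w‖ * Real.log T))) := by
          rw [← Real.exp_add]
          congr 1
          ring
        rw [h9]
        exact (mul_assoc _ _ _).symm
    _ ≤ Real.exp E * Real.exp (2 * (Cw + Cp * (1 + Real.log (1 / δ)))) *
          (1 + ‖w‖ * Real.log T) ^ ⌈2 * A₀⌉₊ :=
        mul_le_mul_of_nonneg_left hpow (by positivity)

end Pool.Agent.Lib.MP_ec260d_ntB.IA
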