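import Mathlib
import Pool.Agent.Lib.MP_ec260d_ntB.ACut
import Pool.Agent.Lib.MP_ec260d_ntB.ASize
import Pool.Agent.Lib.MP_ec260d_ntB.AQ

/-!
# JOB ACn: the coefficients `cn` in mean square (about 170 lines)

SETUP.  `l = log T`, `z = α + iτ`, `|α| ≤ c₁`, `α' ≥ -c₁`.
STEP 1 (`cn_int`).  For `n ≥ 1` and `H ⊆ n.primeFactors`, `h = hp H ∣ n`, so `x = log (n/h)/l ≥ 0` and `fh_inv`: `Th x = ∫ fh ξ exp (2πξ x i) dξ = ∫ fh ξ (n/h)^(2πξ i/l) dξ`.  Hence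
`cn δ T z α' n = ∫ fh ξ ∑_H (-1)^|H| (n/h)^((2πξ i - z)/l) h^(-α'/l) dξ = ∫ fh ξ n^((2πξ i - z)/l) bn δ T n (w ξ) dξ`, `w ξ = (z - 2πξ i - α')/l`.
STEP 2.  `‖n^((2πξi - z)/l)‖ = n^(-α/l) ≤ e^(c₁)` for `1 ≤ n ≤ T`.  Cauchy-Schwarz: `‖cn‖² ≤ (∫ ‖fh‖) ∫ ‖fh ξ‖ e^(2c₁) ‖bn n (w ξ)‖² dξ`.  Sum over `n ≤ T` with weight `1/n` and use `Q_bound` with the constant `2c₁`
(`Re (w ξ) = (α - α')/l ≤ 2c₁/l`): `∑ ‖cn‖²/n ≤ C ∫ ‖fh ξ‖ (1 + ‖w ξ‖ l)^A dξ`, `‖w ξ‖ l ≤ |α| + |τ| + 2π|ξ| + |α'|`, so `1 + ‖w ξ‖ l ≤ (1+c₁)(1+|τ|)(1+|α'|) 8 (1+|ξ|)`, and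
`∫ ‖fh ξ‖ (1+|ξ|)^A dξ < ∞` (`fh_decay` with `r = A + 2`, `fh_cont`).
-/

namespace Pool.Agent.Lib.MP_ec260d_ntB.IA

open Complex Set Filter Topology MeasureTheory

private theorem ACnA_fh_int : Integrable fh := by
  obtain ⟨C, hC, h⟩ := fh_decay 2
  have h1 : Integrable (fun x : ℝ => C * (1 + ‖x‖) ^ (-(2 : ℝ))) :=
    (integrable_one_add_norm (by simp)).const_mul C
  refine h1.mono' fh_cont.aestronglyMeasurable (ae_of_all _ fun ξ => (h ξ).trans (le_of_eq ?_))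
  have h2 : (0 : ℝ) ≤ 1 + |ξ| := by positivity
  rw [Real.norm_eq_abs, Real.rpow_neg h2, div_eq_mul_inv]
  congr 2
  exact (Real.rpow_natCast (1 + |ξ|) 2).symm

private theorem ACnA_int (x : ℝ) :
    Integrable (fun ξ : ℝ => fh ξ * cexp (2 * Real.pi * ξ * x * I)) := by
  refine ACnA_fh_int.mono ?_ (ae_of_all _ fun ξ => le_of_eq ?_)
  · apply Continuous.aestronglyMeasurable
    apply fh_cont.mul
    fun_prop
  · have h1 : (2 * Real.pi * ξ * x * I : ℂ) = ((2 * Real.pi * ξ * x : ℝ) : ℂ) * I := by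
      push_cast
      ring
    rw [norm_mul, h1, Complex.norm_exp_ofReal_mul_I, mul_one]

private theorem ACnA_term {T : ℝ} (z : ℂ) (α' ξ : ℝ) {n h : ℕ} (hn : 0 < n) (hh : 0 < h) (e : ℂ) :
    (n : ℂ) ^ ((2 * Real.pi * ξ * I - z) / Real.log T) *
      (e * (h : ℂ) ^ ((z - 2 * Real.pi * ξ * I - α') / Real.log T)) =
    cexp (2 * Real.pi * ξ * ((Real.log ((n : ℝ) / h) / Real.log T : ℝ) : ℂ) * I) *
      (e * (((n : ℝ) / h : ℝ) : ℂ) ^ (-(z / Real.log T)) *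
        (h : ℂ) ^ (-((α' : ℂ) / Real.log T))) := by
  have hn0 : (n : ℂ) ≠ 0 := Nat.cast_ne_zero.mpr hn.ne'
  have hh0 : (h : ℂ) ≠ 0 := Nat.cast_ne_zero.mpr hh.ne'
  have hnr : (0 : ℝ) < n := Nat.cast_pos.mpr hn
  have hhr : (0 : ℝ) < h := Nat.cast_pos.mpr hh
  have hq : (0 : ℝ) < (n : ℝ) / h := div_pos hnr hhr
  have hq0 : (((n : ℝ) / h : ℝ) : ℂ) ≠ 0 := Complex.ofReal_ne_zero.mpr hq.ne'
  rw [Complex.cpow_def_of_ne_zero hn0, Complex.cpow_def_of_ne_zero hh0,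
    Complex.cpow_def_of_ne_zero hq0, Complex.cpow_def_of_ne_zero hh0,
    ← Complex.ofReal_log hq.le, ← Complex.natCast_log, ← Complex.natCast_log,
    Real.log_div hnr.ne' hhr.ne']
  have e1 : ∀ a b c : ℂ, cexp a * (e * cexp b) = e * cexp (a + b) := by
    intro a b c
    rw [Complex.exp_add]
    ring
  have e2 : ∀ a b c : ℂ, cexp a * (e * cexp b * cexp c) = e * cexp (a + b + c) := by
    intro a b c
    rw [Complex.exp_add, Complex.exp_add]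
    ring
  rw [e1 _ _ 0, e2]
  congr 2
  push_cast
  ring

theorem cn_int {δ T : ℝ} (hT : 3 ≤ T) (z : ℂ) (α' : ℝ) {n : ℕ} (hn : 1 ≤ n) :
    cn δ T z α' n = ∫ ξ : ℝ, fh ξ * ((n : ℂ) ^ ((2 * Real.pi * ξ * I - z) / Real.log T) *
      bn δ T n ((z - 2 * Real.pi * ξ * I - α') / Real.log T)) := by
  have hl : 0 < Real.log T := Real.log_pos (by linarith)
  have hn0 : n ≠ 0 := by omega
  have key : ∀ ξ : ℝ, fh ξ * ((n : ℂ) ^ ((2 * Real.pi * ξ * I - z) / Real.log T) *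
      bn δ T n ((z - 2 * Real.pi * ξ * I - α') / Real.log T)) =
      ∑ H ∈ (HH δ T).filter (fun H => H ⊆ n.primeFactors),
        fh ξ * cexp (2 * Real.pi * ξ * ((Real.log ((n : ℝ) / hp H) / Real.log T : ℝ) : ℂ) * I) *
          ((-1) ^ H.card * (((n : ℝ) / hp H : ℝ) : ℂ) ^ (-(z / Real.log T)) *
            (hp H : ℂ) ^ (-((α' : ℂ) / Real.log T))) := by
    intro ξ
    unfold bn
    rw [Finset.mul_sum, Finset.mul_sum]
    apply Finset.sum_congr rfl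
    intro H hH
    have hpos := hp_pos (Finset.mem_filter.mp hH).1
    rw [ACnA_term z α' ξ hn hpos]
    exact (mul_assoc _ _ _).symm
  rw [integral_congr_ae (ae_of_all _ key), integral_finsetSum]
  · unfold cn
    apply Finset.sum_congr rfl
    intro H hH
    have hHH := (Finset.mem_filter.mp hH).1
    have hpos := hp_pos hHH
    have hdvd : hp H ∣ n := (hp_dvd (HH_prime hHH) hn0).mp (Finset.mem_filter.mp hH).2
    have hle : hp H ≤ n := Nat.le_of_dvd (by omega) hdvd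
    have hx : 0 ≤ Real.log ((n : ℝ) / hp H) / Real.log T := by
      apply div_nonneg _ hl.le
      apply Real.log_nonneg
      rw [le_div_iff₀ (Nat.cast_pos.mpr hpos), one_mul]
      exact_mod_cast hle
    rw [integral_mul_const, ← fh_inv _ hx]
    ring
  · intro H _
    exact (ACnA_int _).mul_const _

/-- integrability of the powers of the weight -/
private theorem ACnB_int (r : ℕ) : Integrable (fun ξ : ℝ => ‖fh ξ‖ * (1 + |ξ|) ^ r) := by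
  obtain ⟨C, hC, hb⟩ := fh_decay (r + 2)
  have h1 : Integrable (fun ξ : ℝ => C * (1 + ‖ξ‖) ^ (-(2 : ℝ))) := by
    refine Integrable.const_mul ?_ _
    refine integrable_one_add_norm (E := ℝ) (μ := volume) (r := 2) ?_
    rw [Module.finrank_self]
    norm_num
  have hcont : Continuous (fun ξ : ℝ => ‖fh ξ‖ * (1 + |ξ|) ^ r) := by
    have h2 := fh_cont
    fun_prop
  refine h1.mono' hcont.aestronglyMeasurable (Filter.Eventually.of_forall fun ξ => ?_)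
  have h0 : (0 : ℝ) < 1 + |ξ| := by positivity
  rw [Real.norm_of_nonneg (by positivity)]
  calc ‖fh ξ‖ * (1 + |ξ|) ^ r ≤ C / (1 + |ξ|) ^ (r + 2) * (1 + |ξ|) ^ r :=
        mul_le_mul_of_nonneg_right (hb ξ) (by positivity)
    _ = C * ((1 + |ξ|) ^ 2)⁻¹ := by
        rw [pow_add]
        field_simp
    _ = C * (1 + ‖ξ‖) ^ (-(2 : ℝ)) := by
        rw [Real.rpow_neg (by positivity), Real.norm_eq_abs]
        norm_cast

/-- Cauchy-Schwarz with the weight `‖fh‖` -/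
private theorem ACnB_cs (G : ℝ → ℂ) (hG : Continuous G) (K : ℝ) (hK : ∀ ξ, ‖G ξ‖ ≤ K) :
    ‖∫ ξ : ℝ, fh ξ * G ξ‖ ^ 2 ≤ ((∫ ξ : ℝ, ‖fh ξ‖) + 1) * ∫ ξ : ℝ, ‖fh ξ‖ * ‖G ξ‖ ^ 2 := by
  have hfi : Integrable (fun ξ : ℝ => ‖fh ξ‖) := by
    have h1 := ACnB_int 0
    simpa using h1
  have hc := fh_cont
  have hK0 : 0 ≤ K := (norm_nonneg _).trans (hK 0)
  have hg1 : Integrable (fun ξ : ℝ => ‖fh ξ‖ * ‖G ξ‖) := by
    refine (hfi.mul_const K).mono' (by fun_prop) (Filter.Eventually.of_forall fun ξ => ?_)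
    rw [Real.norm_of_nonneg (by positivity)]
    exact mul_le_mul_of_nonneg_left (hK ξ) (norm_nonneg _)
  have hg2 : Integrable (fun ξ : ℝ => ‖fh ξ‖ * ‖G ξ‖ ^ 2) := by
    refine (hfi.mul_const (K ^ 2)).mono' (by fun_prop) (Filter.Eventually.of_forall fun ξ => ?_)
    rw [Real.norm_of_nonneg (by positivity)]
    exact mul_le_mul_of_nonneg_left (pow_le_pow_left₀ (norm_nonneg _) (hK ξ) 2) (norm_nonneg _)
  set I₀ : ℝ := ∫ ξ : ℝ, ‖fh ξ‖ with hI₀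
  set F : ℝ := ∫ ξ : ℝ, ‖fh ξ‖ * ‖G ξ‖ with hF
  set B : ℝ := ∫ ξ : ℝ, ‖fh ξ‖ * ‖G ξ‖ ^ 2 with hB
  have hI0 : 0 ≤ I₀ := integral_nonneg fun ξ => norm_nonneg _
  have hF0 : 0 ≤ F := integral_nonneg fun ξ => by positivity
  have h1 : ‖∫ ξ : ℝ, fh ξ * G ξ‖ ≤ F := by
    refine (norm_integral_le_integral_norm _).trans (le_of_eq ?_)
    refine integral_congr_ae (Filter.Eventually.of_forall fun ξ => ?_)
    exact norm_mul _ _
  have h2 : ∀ t : ℝ, 0 ≤ B - 2 * t * F + t ^ 2 * I₀ := by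
    intro t
    have h3 : ∫ ξ : ℝ, ‖fh ξ‖ * (‖G ξ‖ - t) ^ 2 = B - 2 * t * F + t ^ 2 * I₀ := by
      have h4 : ∀ ξ : ℝ, ‖fh ξ‖ * (‖G ξ‖ - t) ^ 2 =
          (‖fh ξ‖ * ‖G ξ‖ ^ 2 - 2 * t * (‖fh ξ‖ * ‖G ξ‖)) + t ^ 2 * ‖fh ξ‖ := fun ξ => by ring
      simp only [h4]
      have e1 : Integrable (fun ξ : ℝ => ‖fh ξ‖ * ‖G ξ‖ ^ 2 - 2 * t * (‖fh ξ‖ * ‖G ξ‖)) :=
        hg2.sub (hg1.const_mul (2 * t))
      rw [integral_add e1 (hfi.const_mul (t ^ 2)),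
        integral_sub hg2 (hg1.const_mul (2 * t)), integral_const_mul, integral_const_mul]
    rw [← h3]
    exact integral_nonneg fun ξ => by positivity
  have h5 := h2 (F / (I₀ + 1))
  have h6 : 0 < I₀ + 1 := by linarith
  have h7 : F ^ 2 ≤ (I₀ + 1) * B := by
    have h8 : (F / (I₀ + 1)) ^ 2 * I₀ ≤ (F / (I₀ + 1)) ^ 2 * (I₀ + 1) :=
      mul_le_mul_of_nonneg_left (by linarith) (by positivity)
    have h9 : (F / (I₀ + 1)) ^ 2 * (I₀ + 1) = F ^ 2 / (I₀ + 1) := by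
      field_simp
    have h10 : 2 * (F / (I₀ + 1)) * F = 2 * (F ^ 2 / (I₀ + 1)) := by
      field_simp
    have h11 : F ^ 2 / (I₀ + 1) ≤ B := by
      rw [h9] at h8
      rw [h10] at h5
      linarith
    rw [div_le_iff₀ h6] at h11
    linarith
  exact (pow_le_pow_left₀ (norm_nonneg _) h1 2).trans h7

/-- the coefficient `bn` is continuous and bounded on the vertical line -/
private theorem ACnB_bn_cont (δ T : ℝ) (n : ℕ) : Continuous (fun w : ℂ => bn δ T n w) := by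
  unfold bn
  refine continuous_finsetSum _ fun H hH => ?_
  have h1 : (hp H : ℂ) ≠ 0 := by
    have h2 := hp_pos (Finset.mem_filter.1 hH).1
    exact_mod_cast h2.ne'
  exact continuous_const.mul (continuous_id.const_cpow (Or.inl h1))

private theorem ACnB_bn_bdd (δ T : ℝ) (n : ℕ) (σ : ℝ) :
    ∃ K : ℝ, ∀ w : ℂ, w.re = σ → ‖bn δ T n w‖ ≤ K := by
  refine ⟨∑ H ∈ (HH δ T).filter (fun H => H ⊆ n.primeFactors), (hp H : ℝ) ^ σ, ?_⟩
  intro w hw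
  unfold bn
  refine (norm_sum_le _ _).trans (Finset.sum_le_sum fun H hH => ?_)
  have h2 := hp_pos (Finset.mem_filter.1 hH).1
  rw [norm_mul, norm_pow, norm_neg, norm_one, one_pow, one_mul,
    Complex.norm_natCast_cpow_of_pos h2, hw]

theorem cn_bound : ∃ A : ℕ, ∀ δ c₁ : ℝ, 0 < δ → δ ≤ 1 → 0 ≤ c₁ → ∃ C : ℝ, 0 ≤ C ∧ ∀ T : ℝ, 10000 ≤ T →
    ∀ α τ α' : ℝ, |α| ≤ c₁ → -c₁ ≤ α' →
    ∑ n ∈ Finset.Icc 1 ⌊T⌋₊, ‖cn δ T (α + τ * I) α' n‖ ^ 2 / n ≤ C * (1 + |τ|) ^ A * (1 + |α'|) ^ A := by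
  obtain ⟨A, hA⟩ := Q_bound
  refine ⟨A, ?_⟩
  intro δ c₁ hδ hδ1 hc₁
  obtain ⟨C, hC0, hC⟩ := hA δ (2 * c₁) hδ hδ1 (by linarith)
  set I₀ : ℝ := ∫ ξ : ℝ, ‖fh ξ‖ with hI₀
  set I₂ : ℝ := ∫ ξ : ℝ, ‖fh ξ‖ * (1 + |ξ|) ^ A with hI₂
  have hI0 : 0 ≤ I₀ := integral_nonneg fun ξ => norm_nonneg _
  have hI2 : 0 ≤ I₂ := integral_nonneg fun ξ => by positivity
  refine ⟨(I₀ + 1) * (Real.exp (2 * c₁) * (C * ((8 * (1 + c₁)) ^ A * I₂))), by positivity, ?_⟩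
  intro T hT α τ α' hα hα'
  have hT3 : 3 ≤ T := by linarith
  have hl1 : 1 ≤ Real.log T := by
    rw [Real.le_log_iff_exp_le (by linarith)]
    exact (Real.exp_one_lt_d9.le.trans (by norm_num)).trans hT3
  have hl0 : 0 < Real.log T := by linarith
  set z : ℂ := α + τ * I with hz
  have hzre : z.re = α := by rw [hz]; simp
  -- the argument of `bn`
  let w : ℝ → ℂ := fun ξ => (z - 2 * Real.pi * ξ * I - α') / Real.log T
  have hwre : ∀ ξ, (w ξ).re = (α - α') / Real.log T := by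
    intro ξ
    have h1 : w ξ = ((((α - α') : ℝ) : ℂ) + ((τ - 2 * Real.pi * ξ : ℝ) : ℂ) * I) /
        ((Real.log T : ℝ) : ℂ) := by
      simp only [w, hz]
      push_cast
      ring
    rw [h1, Complex.div_ofReal_re]
    simp
  have hwc : Continuous w := by
    have : Continuous (fun ξ : ℝ => (z - 2 * Real.pi * ξ * I - α') / (Real.log T : ℂ)) := by
      fun_prop
    exact this
  have hwn : ∀ ξ, 1 + ‖w ξ‖ * Real.log T ≤ (8 * (1 + c₁)) * (1 + |τ|) * (1 + |α'|) * (1 + |ξ|) := by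
    intro ξ
    have h1 : ‖w ξ‖ * Real.log T = ‖z - 2 * Real.pi * ξ * I - α'‖ := by
      simp only [w]
      rw [norm_div, Complex.norm_real, Real.norm_of_nonneg hl0.le, div_mul_cancel₀ _ hl0.ne']
    have h2 : ‖z - 2 * Real.pi * ξ * I - α'‖ ≤ c₁ + |τ| + 8 * |ξ| + |α'| := by
      have h3 : ‖z‖ ≤ c₁ + |τ| := by
        rw [hz]
        refine (norm_add_le _ _).trans (add_le_add ?_ (le_of_eq ?_))
        · rw [Complex.norm_real, Real.norm_eq_abs]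
          exact hα
        · rw [norm_mul, Complex.norm_I, mul_one, Complex.norm_real, Real.norm_eq_abs]
      have h4 : ‖(2 * Real.pi * ξ * I : ℂ)‖ ≤ 8 * |ξ| := by
        rw [norm_mul, norm_mul, norm_mul, Complex.norm_I, mul_one, Complex.norm_real,
          Complex.norm_real, Real.norm_of_nonneg Real.pi_pos.le, Real.norm_eq_abs]
        have h5 : ‖(2 : ℂ)‖ = 2 := by simp
        rw [h5]
        have h6 := Real.pi_lt_d2
        have h7 := abs_nonneg ξ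
        nlinarith
      have h8 : ‖(α' : ℂ)‖ = |α'| := by rw [Complex.norm_real, Real.norm_eq_abs]
      calc ‖z - 2 * Real.pi * ξ * I - α'‖ ≤ ‖z - 2 * Real.pi * ξ * I‖ + ‖(α' : ℂ)‖ := norm_sub_le _ _
        _ ≤ (‖z‖ + ‖(2 * Real.pi * ξ * I : ℂ)‖) + ‖(α' : ℂ)‖ := by
            gcongr
            exact norm_sub_le _ _
        _ ≤ c₁ + |τ| + 8 * |ξ| + |α'| := by
            rw [h8]
            linarith
    rw [h1]
    refine (add_le_add_right h2 1).trans ?_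
    have ht := abs_nonneg τ
    have ha := abs_nonneg α'
    have hx := abs_nonneg ξ
    have h9 : 1 + (c₁ + |τ| + 8 * |ξ| + |α'|) ≤ (1 + c₁) * (1 + |τ|) * (1 + |α'|) * (1 + 8 * |ξ|) := by
      have e1 : 1 + c₁ + |τ| ≤ (1 + c₁) * (1 + |τ|) := by nlinarith
      have e2 : 1 + c₁ + |τ| + |α'| ≤ (1 + c₁) * (1 + |τ|) * (1 + |α'|) := by
        have e3 : 1 ≤ (1 + c₁) * (1 + |τ|) := by nlinarith
        nlinarith
      have e4 : 1 ≤ (1 + c₁) * (1 + |τ|) * (1 + |α'|) := by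
        have e3 : 1 ≤ (1 + c₁) * (1 + |τ|) := by nlinarith
        nlinarith
      nlinarith
    refine h9.trans ?_
    have h10 : (0 : ℝ) ≤ (1 + c₁) * (1 + |τ|) * (1 + |α'|) := by positivity
    have h11 : 1 + 8 * |ξ| ≤ 8 * (1 + |ξ|) := by linarith
    calc (1 + c₁) * (1 + |τ|) * (1 + |α'|) * (1 + 8 * |ξ|)
        ≤ (1 + c₁) * (1 + |τ|) * (1 + |α'|) * (8 * (1 + |ξ|)) :=
          mul_le_mul_of_nonneg_left h11 h10
      _ = (8 * (1 + c₁)) * (1 + |τ|) * (1 + |α'|) * (1 + |ξ|) := by ring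
  have hQ : ∀ ξ, ∑ n ∈ Finset.Icc 1 ⌊T⌋₊, ‖bn δ T n (w ξ)‖ ^ 2 / n ≤
      C * ((8 * (1 + c₁)) ^ A * (1 + |τ|) ^ A * (1 + |α'|) ^ A * (1 + |ξ|) ^ A) := by
    intro ξ
    have h1 : (w ξ).re ≤ 2 * c₁ / Real.log T := by
      rw [hwre]
      refine div_le_div_of_nonneg_right ?_ hl0.le
      have := (abs_le.1 hα).2
      linarith
    refine (hC T hT (w ξ) h1).trans (mul_le_mul_of_nonneg_left ?_ hC0)
    have h2 : 0 ≤ 1 + ‖w ξ‖ * Real.log T := by positivity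
    refine (pow_le_pow_left₀ h2 (hwn ξ) A).trans (le_of_eq ?_)
    rw [mul_pow, mul_pow, mul_pow]
  -- integrability
  have hbi : ∀ n : ℕ, Integrable (fun ξ : ℝ => ‖fh ξ‖ * ‖bn δ T n (w ξ)‖ ^ 2) := by
    intro n
    obtain ⟨K, hK⟩ := ACnB_bn_bdd δ T n ((α - α') / Real.log T)
    have hfi : Integrable (fun ξ : ℝ => ‖fh ξ‖) := by
      have h1 := ACnB_int 0
      simpa using h1
    have hc := fh_cont
    have hb : Continuous (fun ξ : ℝ => bn δ T n (w ξ)) := (ACnB_bn_cont δ T n).comp hwc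
    refine (hfi.mul_const (K ^ 2)).mono' (by fun_prop) (Filter.Eventually.of_forall fun ξ => ?_)
    rw [Real.norm_of_nonneg (by positivity)]
    exact mul_le_mul_of_nonneg_left
      (pow_le_pow_left₀ (norm_nonneg _) (hK (w ξ) (hwre ξ)) 2) (norm_nonneg _)
  -- one coefficient
  have hone : ∀ n ∈ Finset.Icc 1 ⌊T⌋₊, ‖cn δ T z α' n‖ ^ 2 / n ≤
      (I₀ + 1) * (Real.exp (2 * c₁) * ∫ ξ : ℝ, ‖fh ξ‖ * (‖bn δ T n (w ξ)‖ ^ 2 / n)) := by
    intro n hn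
    obtain ⟨hn1, hnT⟩ := Finset.mem_Icc.1 hn
    have hn0 : (n : ℂ) ≠ 0 := by
      exact_mod_cast (by omega : n ≠ 0)
    have hnpos : (0 : ℝ) < n := by exact_mod_cast hn1
    rw [cn_int hT3 z α' hn1]
    set G : ℝ → ℂ := fun ξ => (n : ℂ) ^ ((2 * Real.pi * ξ * I - z) / Real.log T) *
      bn δ T n ((z - 2 * Real.pi * ξ * I - α') / Real.log T) with hG
    have hGn : ∀ ξ, ‖G ξ‖ ≤ Real.exp c₁ * ‖bn δ T n (w ξ)‖ := by
      intro ξ
      rw [hG]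
      beta_reduce
      rw [norm_mul]
      refine mul_le_mul_of_nonneg_right ?_ (norm_nonneg _)
      rw [Complex.norm_natCast_cpow_of_pos hn1]
      have h1 : ((2 * Real.pi * ξ * I - z) / (Real.log T : ℂ)).re = -α / Real.log T := by
        rw [Complex.div_ofReal_re]
        congr 1
        rw [Complex.sub_re, hzre]
        simp
      rw [h1, Real.rpow_def_of_pos hnpos]
      refine Real.exp_le_exp.2 ?_
      have h2 : Real.log n ≤ Real.log T := by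
        refine Real.log_le_log hnpos ?_
        exact (Nat.cast_le.2 hnT).trans (Nat.floor_le (by linarith))
      have h3 : 0 ≤ Real.log n := Real.log_natCast_nonneg n
      have h4 : Real.log n * (-α / Real.log T) = (Real.log n / Real.log T) * (-α) := by
        field_simp
      rw [h4]
      have h5 : 0 ≤ Real.log n / Real.log T := by positivity
      have h6 : Real.log n / Real.log T ≤ 1 := by
        rw [div_le_one hl0]
        exact h2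
      have h7 : -α ≤ c₁ := by
        have := (abs_le.1 hα).1
        linarith
      calc (Real.log n / Real.log T) * (-α) ≤ (Real.log n / Real.log T) * c₁ :=
            mul_le_mul_of_nonneg_left h7 h5
        _ ≤ 1 * c₁ := mul_le_mul_of_nonneg_right h6 hc₁
        _ = c₁ := one_mul _
    have hGc : Continuous G := by
      have h1 : Continuous (fun ξ : ℝ => (n : ℂ) ^ ((2 * Real.pi * ξ * I - z) / (Real.log T : ℂ))) := by
        refine Continuous.const_cpow ?_ (Or.inl hn0)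
        fun_prop
      exact h1.mul ((ACnB_bn_cont δ T n).comp hwc)
    obtain ⟨K, hK⟩ := ACnB_bn_bdd δ T n ((α - α') / Real.log T)
    have hcs := ACnB_cs G hGc (Real.exp c₁ * K) fun ξ =>
      (hGn ξ).trans (mul_le_mul_of_nonneg_left (hK (w ξ) (hwre ξ)) (Real.exp_pos _).le)
    rw [← hI₀] at hcs
    have hfi : Integrable (fun ξ : ℝ => ‖fh ξ‖) := by
      have h1 := ACnB_int 0
      simpa using h1
    have h8 : ∫ ξ : ℝ, ‖fh ξ‖ * ‖G ξ‖ ^ 2 ≤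
        Real.exp (2 * c₁) * ∫ ξ : ℝ, ‖fh ξ‖ * ‖bn δ T n (w ξ)‖ ^ 2 := by
      rw [← integral_const_mul]
      refine integral_mono_of_nonneg (Filter.Eventually.of_forall fun ξ => by positivity)
        ((hbi n).const_mul _) (Filter.Eventually.of_forall fun ξ => ?_)
      beta_reduce
      have h9 : ‖G ξ‖ ^ 2 ≤ Real.exp (2 * c₁) * ‖bn δ T n (w ξ)‖ ^ 2 := by
        refine (pow_le_pow_left₀ (norm_nonneg _) (hGn ξ) 2).trans (le_of_eq ?_)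
        rw [mul_pow, ← Real.exp_nat_mul]
        norm_cast
      calc ‖fh ξ‖ * ‖G ξ‖ ^ 2 ≤ ‖fh ξ‖ * (Real.exp (2 * c₁) * ‖bn δ T n (w ξ)‖ ^ 2) :=
            mul_le_mul_of_nonneg_left h9 (norm_nonneg _)
        _ = Real.exp (2 * c₁) * (‖fh ξ‖ * ‖bn δ T n (w ξ)‖ ^ 2) := by ring
    have h10 : ∫ ξ : ℝ, ‖fh ξ‖ * (‖bn δ T n (w ξ)‖ ^ 2 / n) =
        (∫ ξ : ℝ, ‖fh ξ‖ * ‖bn δ T n (w ξ)‖ ^ 2) / n := by
      rw [← integral_div]
      refine integral_congr_ae (Filter.Eventually.of_forall fun ξ => ?_)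
      beta_reduce
      ring
    rw [h10]
    have h11 : ‖∫ ξ : ℝ, fh ξ * G ξ‖ ^ 2 ≤
        (I₀ + 1) * (Real.exp (2 * c₁) * ∫ ξ : ℝ, ‖fh ξ‖ * ‖bn δ T n (w ξ)‖ ^ 2) :=
      hcs.trans (mul_le_mul_of_nonneg_left h8 (by linarith))
    calc ‖∫ ξ : ℝ, fh ξ * G ξ‖ ^ 2 / n ≤
          ((I₀ + 1) * (Real.exp (2 * c₁) * ∫ ξ : ℝ, ‖fh ξ‖ * ‖bn δ T n (w ξ)‖ ^ 2)) / n :=
          div_le_div_of_nonneg_right h11 hnpos.le
      _ = (I₀ + 1) * (Real.exp (2 * c₁) * ((∫ ξ : ℝ, ‖fh ξ‖ * ‖bn δ T n (w ξ)‖ ^ 2) / n)) := by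
          ring
  have hsumint : ∑ n ∈ Finset.Icc 1 ⌊T⌋₊, ∫ ξ : ℝ, ‖fh ξ‖ * (‖bn δ T n (w ξ)‖ ^ 2 / n) ≤
      (C * ((8 * (1 + c₁)) ^ A * (1 + |τ|) ^ A * (1 + |α'|) ^ A)) * I₂ := by
    have hbi' : ∀ n ∈ Finset.Icc 1 ⌊T⌋₊,
        Integrable (fun ξ : ℝ => ‖fh ξ‖ * (‖bn δ T n (w ξ)‖ ^ 2 / n)) := by
      intro n _
      refine ((hbi n).div_const (n : ℝ)).congr (Filter.Eventually.of_forall fun ξ => ?_)
      beta_reduce
      ring
    rw [← integral_finsetSum _ hbi', hI₂, ← integral_const_mul]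
    refine integral_mono_of_nonneg (Filter.Eventually.of_forall fun ξ => ?_)
      ((ACnB_int A).const_mul _) (Filter.Eventually.of_forall fun ξ => ?_)
    · exact Finset.sum_nonneg fun n _ => by positivity
    · beta_reduce
      rw [← Finset.mul_sum]
      calc ‖fh ξ‖ * ∑ n ∈ Finset.Icc 1 ⌊T⌋₊, ‖bn δ T n (w ξ)‖ ^ 2 / n ≤
            ‖fh ξ‖ * (C * ((8 * (1 + c₁)) ^ A * (1 + |τ|) ^ A * (1 + |α'|) ^ A * (1 + |ξ|) ^ A)) :=
            mul_le_mul_of_nonneg_left (hQ ξ) (norm_nonneg _)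
        _ = C * ((8 * (1 + c₁)) ^ A * (1 + |τ|) ^ A * (1 + |α'|) ^ A) *
              (‖fh ξ‖ * (1 + |ξ|) ^ A) := by ring
  calc ∑ n ∈ Finset.Icc 1 ⌊T⌋₊, ‖cn δ T z α' n‖ ^ 2 / n
      ≤ ∑ n ∈ Finset.Icc 1 ⌊T⌋₊,
          (I₀ + 1) * (Real.exp (2 * c₁) * ∫ ξ : ℝ, ‖fh ξ‖ * (‖bn δ T n (w ξ)‖ ^ 2 / n)) :=
        Finset.sum_le_sum hone
    _ = (I₀ + 1) * (Real.exp (2 * c₁) *
          ∑ n ∈ Finset.Icc 1 ⌊T⌋₊, ∫ ξ : ℝ, ‖fh ξ‖ * (‖bn δ T n (w ξ)‖ ^ 2 / n)) := by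
        rw [← Finset.mul_sum, ← Finset.mul_sum]
    _ ≤ (I₀ + 1) * (Real.exp (2 * c₁) *
          ((C * ((8 * (1 + c₁)) ^ A * (1 + |τ|) ^ A * (1 + |α'|) ^ A)) * I₂)) := by
        refine mul_le_mul_of_nonneg_left (mul_le_mul_of_nonneg_left hsumint ?_) ?_
        · exact (Real.exp_pos _).le
        · linarith
    _ = (I₀ + 1) * (Real.exp (2 * c₁) * (C * ((8 * (1 + c₁)) ^ A * I₂))) *
          (1 + |τ|) ^ A * (1 + |α'|) ^ A := by ring

end Pool.Agent.Lib.MP_ec260d_ntB.IA
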