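import Mathlib
import Pool.Agent.Lib.MP_ec260d_ntB.ASize
import Pool.Agent.Lib.MP_ec260d_ntB.AExp
import Pool.Agent.Lib.MP_ec260d_ntB.ACut

/-!
# JOB ADM: the Dirichlet polynomial `DD · MM` (about 200 lines)

SETUP.  `l = log T`, `T ≥ T₀(δ)` as in `hp_size`: every `h = hp H`, `H ∈ HH δ T`, is `≤ T^(1/400)`.
* `DM_eq`.  `DD T (s + z/l) MM δ T (s + α'/l) = ∑_m ∑_H Th(log m/l) (-1)^|H| m^(-s - z/l) h^(-s - α'/l)` (`MM_eq`).  Only `m` with `log m/l < 99/100` count (`Th_zero`), so `n = m h < T^(99/100 + 1/400) ≤ T^(199/200)`.  Group by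
  `n = m h`: for fixed `n` the admissible `H` are those with `h ∣ n`, i.e. `H ⊆ n.primeFactors` (`hp_dvd`), `m = n/h`; the coefficient of `n^(-s)` is `cn δ T z α' n` (here `(n:ℝ)/h` is the natural number `m`,
  `m^(-s-z/l) h^(-s-α'/l) = n^(-s) m^(-z/l) h^(-α'/l)`).  For the `n ≤ N := ⌊T^(199/200)⌋₊` all pairs `(m,H)` with `m h = n` have `m ≤ T`.
  (In the sum over `H` the terms with `Th(log (n/h)/l) = 0` do not matter.)
* `cn_small`: if `log n ≤ (96/100) l` then `log (n/h) ≤ log n` so `Th = 1` (`Th_one`) and `cn δ T 0 0 n = ∑_H (-1)^|H| = bn δ T n 0` (`x^0 = 1`).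
* `cn_one`: `bn δ T 1 0 = 1` (only `H = ∅`).
-/

namespace Pool.Agent.Lib.MP_ec260d_ntB.IA

open Complex Set Filter Topology MeasureTheory

private theorem ADM_term {T : ℝ} {s z : ℂ} {α' : ℝ} {m h : ℕ} (hm : 0 < m) (hh : 0 < h) (c : ℂ) :
    (Th (Real.log m / Real.log T) : ℂ) * (m : ℂ) ^ (-(s + z / Real.log T)) *
        (c * (h : ℂ) ^ (-(s + (α' : ℂ) / Real.log T))) =
      c * (Th (Real.log (((m * h : ℕ) : ℝ) / h) / Real.log T) : ℂ) *
        (((((m * h : ℕ) : ℝ) / h : ℝ)) : ℂ) ^ (-(z / Real.log T)) *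
          (h : ℂ) ^ (-((α' : ℂ) / Real.log T)) * ((m * h : ℕ) : ℂ) ^ (-s) := by
  have hm0 : (m : ℂ) ≠ 0 := by exact_mod_cast hm.ne'
  have hh0 : (h : ℂ) ≠ 0 := by exact_mod_cast hh.ne'
  have hh1 : (h : ℝ) ≠ 0 := by exact_mod_cast hh.ne'
  have e : ((m * h : ℕ) : ℝ) / h = m := by
    push_cast
    field_simp
  rw [e, Nat.cast_mul, Complex.natCast_mul_natCast_cpow, neg_add, neg_add, Complex.cpow_add _ _ hm0,
    Complex.cpow_add _ _ hh0, Complex.ofReal_natCast]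
  ring

theorem DM_eq : ∃ δ₀ : ℝ, 0 < δ₀ ∧ δ₀ ≤ 1 ∧ ∀ δ : ℝ, 0 < δ → δ ≤ δ₀ → ∃ T₀ : ℝ, 3 ≤ T₀ ∧ ∀ T : ℝ, T₀ ≤ T →
    ∀ (s z : ℂ) (α' : ℝ), DD T (s + z / Real.log T) * MM δ T (s + (α' : ℂ) / Real.log T) =
      ∑ n ∈ Finset.Icc 1 ⌊T ^ (199 / 200 : ℝ)⌋₊, cn δ T z α' n * (n : ℂ) ^ (-s) := by
  obtain ⟨δ₀, h1, h2, h3⟩ := hp_size
  refine ⟨δ₀, h1, h2, fun δ hδ hδ0 => ?_⟩
  obtain ⟨T₀, hT0, h4⟩ := h3 δ hδ hδ0
  refine ⟨T₀, hT0, fun T hT s z α' => ?_⟩
  obtain ⟨h5, _⟩ := h4 T hT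
  have hT1 : 1 < T := by linarith
  have hTp : 0 < T := by linarith
  have hl : 0 < Real.log T := Real.log_pos hT1
  rw [MM_eq hδ hT1]
  unfold DD
  rw [Finset.sum_mul_sum, Finset.sum_comm]
  have hR : ∑ n ∈ Finset.Icc 1 ⌊T ^ (199 / 200 : ℝ)⌋₊, cn δ T z α' n * (n : ℂ) ^ (-s) =
      ∑ H ∈ HH δ T, ∑ n ∈ (Finset.Icc 1 ⌊T ^ (199 / 200 : ℝ)⌋₊).filter (fun n => H ⊆ n.primeFactors),
        (-1) ^ H.card * (Th (Real.log (n / hp H) / Real.log T) : ℂ) *
      (((n : ℝ) / hp H : ℝ) : ℂ) ^ (-(z / Real.log T)) * (hp H : ℂ) ^ (-((α' : ℂ) / Real.log T)) * (n : ℂ) ^ (-s) := by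
    unfold cn
    simp only [Finset.sum_mul]
    refine Finset.sum_comm' (fun n H => ?_)
    simp only [Finset.mem_filter]
    tauto
  rw [hR]
  refine Finset.sum_congr rfl (fun H hH => ?_)
  have hh := hp_pos hH
  have hprime := HH_prime hH
  have hsz := h5 H hH
  have key : ∀ m : ℕ, 0 < m → (Th (Real.log m / Real.log T) : ℂ) * (m : ℂ) ^ (-(s + z / Real.log T)) *
        ((-1) ^ H.card * (hp H : ℂ) ^ (-(s + (α' : ℂ) / Real.log T))) =
      (-1) ^ H.card * (Th (Real.log (((m * hp H : ℕ) : ℝ) / hp H) / Real.log T) : ℂ) *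
        (((((m * hp H : ℕ) : ℝ) / hp H : ℝ)) : ℂ) ^ (-(z / Real.log T)) *
          (hp H : ℂ) ^ (-((α' : ℂ) / Real.log T)) * ((m * hp H : ℕ) : ℂ) ^ (-s) := fun m hm => ADM_term hm hh _
  refine Finset.sum_bij_ne_zero (fun m _ _ => m * hp H) ?_ ?_ ?_ ?_
  · intro m hm hne
    have hm1 : 1 ≤ m := (Finset.mem_Icc.1 hm).1
    have hmp : (0 : ℝ) < m := by exact_mod_cast hm1
    have hhp : (0 : ℝ) < hp H := by exact_mod_cast hh
    have hTh : Th (Real.log m / Real.log T) ≠ 0 := by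
      intro h0
      apply hne
      rw [h0]
      simp
    have hlm : Real.log m / Real.log T < 99 / 100 := by
      by_contra hcon
      exact hTh (Th_zero _ (not_lt.1 hcon))
    rw [div_lt_iff₀ hl] at hlm
    have hlh : Real.log (hp H) ≤ 1 / 400 * Real.log T := by
      have := Real.log_le_log hhp hsz
      rwa [Real.log_rpow hTp] at this
    rw [Finset.mem_filter, Finset.mem_Icc]
    refine ⟨⟨Nat.mul_pos hm1 hh, Nat.le_floor ?_⟩, ?_⟩
    · rw [Nat.cast_mul, ← Real.log_le_log_iff (by positivity) (Real.rpow_pos_of_pos hTp _), Real.log_rpow hTp,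
        Real.log_mul hmp.ne' hhp.ne']
      linarith
    · exact (hp_dvd hprime (Nat.mul_pos hm1 hh).ne').2 (Dvd.intro_left m rfl)
  · intro m1 _ _ m2 _ _ he
    exact Nat.eq_of_mul_eq_mul_right hh he
  · intro n hn hne
    rw [Finset.mem_filter, Finset.mem_Icc] at hn
    have hn0 : n ≠ 0 := by omega
    have hd : hp H ∣ n := (hp_dvd hprime hn0).1 hn.2
    obtain ⟨m, hm⟩ := hd
    have hmm : m * hp H = n := by rw [hm, mul_comm]
    have hm0 : 0 < m := by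
      rcases Nat.eq_zero_or_pos m with h0 | h0
      · rw [h0] at hmm
        omega
      · exact h0
    have hmB : m ∈ Finset.Icc 1 ⌊T⌋₊ := by
      rw [Finset.mem_Icc]
      refine ⟨hm0, Nat.le_floor ?_⟩
      have h6 : m ≤ n := by
        rw [← hmm]
        exact Nat.le_mul_of_pos_right m hh
      have h7 : (n : ℝ) ≤ T ^ (199 / 200 : ℝ) :=
        (Nat.le_floor_iff (Real.rpow_nonneg hTp.le _)).1 hn.1.2
      have h8 : T ^ (199 / 200 : ℝ) ≤ T := by
        have := Real.rpow_le_rpow_of_exponent_le hT1.le (show (199 / 200 : ℝ) ≤ 1 by norm_num)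
        rwa [Real.rpow_one] at this
      have h9 : (m : ℝ) ≤ n := by exact_mod_cast h6
      linarith
    refine ⟨m, hmB, ?_, hmm⟩
    have hk := key m hm0
    rw [hmm] at hk
    rw [hk]
    exact hne
  · intro m hm _
    exact key m (Finset.mem_Icc.1 hm).1

theorem cn_small {δ T : ℝ} (hδ : 0 < δ) (hT : 3 ≤ T) {n : ℕ} (hn : 1 ≤ n)
    (h : Real.log n ≤ 96 / 100 * Real.log T) : cn δ T 0 0 n = bn δ T n 0 := by
  have hl : 0 < Real.log T := Real.log_pos (by linarith)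
  unfold cn bn
  refine Finset.sum_congr rfl (fun H hH => ?_)
  have hH1 := (Finset.mem_filter.1 hH).1
  have hh : (1 : ℝ) ≤ hp H := by exact_mod_cast hp_pos hH1
  have hn1 : (1 : ℝ) ≤ n := by exact_mod_cast hn
  have h1 : Real.log (n / hp H) / Real.log T ≤ 96 / 100 := by
    rw [div_le_iff₀ hl]
    refine le_trans (Real.log_le_log (by positivity) ?_) h
    exact div_le_self (by positivity) hh
  rw [Th_one _ h1]
  simp

theorem bn_one {δ T : ℝ} : bn δ T 1 0 = 1 := by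
  have h1 : (HH δ T).filter (fun H => H ⊆ (1 : ℕ).primeFactors) = {∅} := by
    ext H
    rw [Finset.mem_filter, Finset.mem_singleton, Nat.primeFactors_one, Finset.subset_empty]
    constructor
    · exact fun h => h.2
    · intro h
      refine ⟨?_, h⟩
      rw [h]
      unfold HH
      rw [Finset.mem_filter]
      refine ⟨Finset.empty_mem_powerset _, fun j _ => ?_⟩
      simp
  unfold bn
  rw [h1]
  simp

end Pool.Agent.Lib.MP_ec260d_ntB.IA
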