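import Mathlib
import Pool.Agent.Lib.MP_00e05b_nt.Mont.MV

/-!
# JOB AMv: mean value theorem for Dirichlet polynomials, complex coefficients (about 110 lines)

TOOL: `Pool.Agent.Lib.MP_00e05b_nt.Mont.mv1 (S) (a : ℕ → ℝ) (X T) (hX : 1 ≤ X) (hT : 0 ≤ T) (hS : ∀ n ∈ S, 1 ≤ n ∧ (n:ℝ) ≤ X) :
|∫_0^T ‖∑_(n ∈ S) a n exp (-(t log n) i)‖² - T ∑ a n²| ≤ 4 X (1 + log X) ∑ a n²`.
PROOF.  `S = Icc 1 N`, `X = T^(199/200)`, interval `[0, 3T]`: for real coefficients the integral over `[0,3T]` is `≤ (3T + 4 X (1 + log X)) ∑ a²`, and `4 X (1 + log X) ≤ T` for `T ≥ T₀`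
(`X (1 + log X) = o(T)`).  Complex coefficients `a = u + i v`: `‖∑ a n e_n‖² ≤ 2 ‖∑ u n e_n‖² + 2 ‖∑ v n e_n‖²`, so `≤ 2 · 4T ∑ ‖a n‖²`.  `(n : ℂ)^(-(t i)) = exp (-(t log n) i)` for `n ≥ 1`.
`[T/2, 3T] ⊆ [0, 3T]`.  The integrand is continuous, so the lintegral is `ENNReal.ofReal` of the integral.
-/

namespace Pool.Agent.Lib.MP_ec260d_ntB.IA

open Complex Set Filter Topology MeasureTheory

private theorem AMv_T0 : ∃ T₀ : ℝ, 3 ≤ T₀ ∧ ∀ T : ℝ, T₀ ≤ T →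
    4 * T ^ (199 / 200 : ℝ) * (1 + Real.log (T ^ (199 / 200 : ℝ))) ≤ T := by
  have h1 := (isLittleO_log_rpow_atTop (r := 1 / 200) (by norm_num)).bound (c := 1 / 8) (by norm_num)
  have h2 := (tendsto_rpow_atTop (y := 1 / 200) (by norm_num)).eventually_ge_atTop 8
  obtain ⟨T₁, hT₁⟩ := Filter.eventually_atTop.1 (h1.and h2)
  refine ⟨max 3 T₁, le_max_left _ _, fun T hT => ?_⟩
  have hT3 : 3 ≤ T := (le_max_left _ _).trans hT
  have hT0 : 0 < T := by linarith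
  obtain ⟨a1, a2⟩ := hT₁ T ((le_max_right _ _).trans hT)
  have hl : 0 ≤ Real.log T := Real.log_nonneg (by linarith)
  rw [Real.norm_eq_abs, Real.norm_eq_abs, abs_of_nonneg hl,
    abs_of_nonneg (Real.rpow_nonneg hT0.le _)] at a1
  have e : T = T ^ (199 / 200 : ℝ) * T ^ (1 / 200 : ℝ) := by
    rw [← Real.rpow_add hT0]
    norm_num
  have h3 : Real.log (T ^ (199 / 200 : ℝ)) ≤ Real.log T := by
    rw [Real.log_rpow hT0]
    linarith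
  have hX : 0 ≤ T ^ (199 / 200 : ℝ) := Real.rpow_nonneg hT0.le _
  calc 4 * T ^ (199 / 200 : ℝ) * (1 + Real.log (T ^ (199 / 200 : ℝ))) =
        T ^ (199 / 200 : ℝ) * (4 * (1 + Real.log (T ^ (199 / 200 : ℝ)))) := by ring
    _ ≤ T ^ (199 / 200 : ℝ) * T ^ (1 / 200 : ℝ) := mul_le_mul_of_nonneg_left (by linarith) hX
    _ = T := e.symm

private noncomputable def AMv_e (t : ℝ) (n : ℕ) : ℂ := cexp (((-(t * Real.log n) : ℝ) : ℂ) * I)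

private theorem AMv_cont (S : Finset ℕ) (a : ℕ → ℂ) :
    Continuous (fun t : ℝ => ‖∑ n ∈ S, a n * AMv_e t n‖ ^ 2) := by
  unfold AMv_e
  fun_prop

private theorem AMv_split (S : Finset ℕ) (a : ℕ → ℂ) (t : ℝ) :
    ‖∑ n ∈ S, a n * AMv_e t n‖ ^ 2 ≤ 2 * ‖∑ n ∈ S, ((a n).re : ℂ) * AMv_e t n‖ ^ 2 +
      2 * ‖∑ n ∈ S, ((a n).im : ℂ) * AMv_e t n‖ ^ 2 := by
  have e : ∑ n ∈ S, a n * AMv_e t n = (∑ n ∈ S, ((a n).re : ℂ) * AMv_e t n) +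
      I * (∑ n ∈ S, ((a n).im : ℂ) * AMv_e t n) := by
    rw [Finset.mul_sum, ← Finset.sum_add_distrib]
    refine Finset.sum_congr rfl fun n _ => ?_
    conv_lhs => rw [← Complex.re_add_im (a n)]
    ring
  have h := norm_add_le (∑ n ∈ S, ((a n).re : ℂ) * AMv_e t n) (I * (∑ n ∈ S, ((a n).im : ℂ) * AMv_e t n))
  rw [norm_mul, Complex.norm_I, one_mul] at h
  rw [e]
  have h0 := norm_nonneg ((∑ n ∈ S, ((a n).re : ℂ) * AMv_e t n) + I * (∑ n ∈ S, ((a n).im : ℂ) * AMv_e t n))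
  calc ‖(∑ n ∈ S, ((a n).re : ℂ) * AMv_e t n) + I * (∑ n ∈ S, ((a n).im : ℂ) * AMv_e t n)‖ ^ 2
      ≤ (‖∑ n ∈ S, ((a n).re : ℂ) * AMv_e t n‖ + ‖∑ n ∈ S, ((a n).im : ℂ) * AMv_e t n‖) ^ 2 :=
        pow_le_pow_left₀ h0 h 2
    _ ≤ _ := by
      nlinarith [sq_nonneg (‖∑ n ∈ S, ((a n).re : ℂ) * AMv_e t n‖ -
        ‖∑ n ∈ S, ((a n).im : ℂ) * AMv_e t n‖)]

theorem mv_l : ∃ T₀ : ℝ, 3 ≤ T₀ ∧ ∀ T : ℝ, T₀ ≤ T → ∀ (N : ℕ) (a : ℕ → ℂ), (N : ℝ) ≤ T ^ (199 / 200 : ℝ) →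
    ∫⁻ t in Icc (T / 2) (3 * T), ENNReal.ofReal (‖∑ n ∈ Finset.Icc 1 N, a n * (n : ℂ) ^ (-((t : ℂ) * I))‖ ^ 2) ≤
      ENNReal.ofReal (8 * T * ∑ n ∈ Finset.Icc 1 N, ‖a n‖ ^ 2) := by
  obtain ⟨T₀, hT₀, hb⟩ := AMv_T0
  refine ⟨T₀, hT₀, fun T hT N a hN => ?_⟩
  have hT3 : 3 ≤ T := hT₀.trans hT
  have hT0 : 0 < T := by linarith
  have hX1 : 1 ≤ T ^ (199 / 200 : ℝ) := Real.one_le_rpow (by linarith) (by norm_num)
  have hbT := hb T hT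
  have hS : ∀ n ∈ Finset.Icc 1 N, 1 ≤ n ∧ (n : ℝ) ≤ T ^ (199 / 200 : ℝ) := by
    intro n hn
    rw [Finset.mem_Icc] at hn
    refine ⟨hn.1, le_trans ?_ hN⟩
    exact_mod_cast hn.2
  have hreal : ∀ u : ℕ → ℝ, (∫ t in (0 : ℝ)..(3 * T), ‖∑ n ∈ Finset.Icc 1 N, (u n : ℂ) * AMv_e t n‖ ^ 2) ≤
      4 * T * ∑ n ∈ Finset.Icc 1 N, u n ^ 2 := by
    intro u
    have h := Pool.Agent.Lib.MP_00e05b_nt.Mont.mv1 (Finset.Icc 1 N) u (T ^ (199 / 200 : ℝ)) (3 * T) hX1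
      (by linarith) hS
    have h1 := (abs_le.1 h).2
    have h2 : 0 ≤ ∑ n ∈ Finset.Icc 1 N, u n ^ 2 := Finset.sum_nonneg fun n _ => sq_nonneg _
    have h3 := mul_le_mul_of_nonneg_right hbT h2
    have h4 : (∫ t in (0 : ℝ)..(3 * T), ‖∑ n ∈ Finset.Icc 1 N, (u n : ℂ) * AMv_e t n‖ ^ 2) =
      ∫ t in (0 : ℝ)..(3 * T), ‖∑ n ∈ Finset.Icc 1 N, (u n : ℂ) * cexp (((-(t * Real.log n) : ℝ) : ℂ) * I)‖ ^ 2 := rfl
    rw [h4]
    linarith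
  have hint : (∫ t in (0 : ℝ)..(3 * T), ‖∑ n ∈ Finset.Icc 1 N, a n * AMv_e t n‖ ^ 2) ≤
      8 * T * ∑ n ∈ Finset.Icc 1 N, ‖a n‖ ^ 2 := by
    have c0 := AMv_cont (Finset.Icc 1 N) a
    have c1 := AMv_cont (Finset.Icc 1 N) (fun n => ((a n).re : ℂ))
    have c2 := AMv_cont (Finset.Icc 1 N) (fun n => ((a n).im : ℂ))
    have h1 : (∫ t in (0 : ℝ)..(3 * T), ‖∑ n ∈ Finset.Icc 1 N, a n * AMv_e t n‖ ^ 2) ≤
        ∫ t in (0 : ℝ)..(3 * T), (2 * ‖∑ n ∈ Finset.Icc 1 N, ((a n).re : ℂ) * AMv_e t n‖ ^ 2 +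
          2 * ‖∑ n ∈ Finset.Icc 1 N, ((a n).im : ℂ) * AMv_e t n‖ ^ 2) := by
      apply intervalIntegral.integral_mono_on (by linarith) (c0.intervalIntegrable _ _)
        (((c1.const_mul 2).add (c2.const_mul 2)).intervalIntegrable _ _)
      intro t _
      exact AMv_split _ a t
    rw [intervalIntegral.integral_add ((c1.const_mul 2).intervalIntegrable _ _)
      ((c2.const_mul 2).intervalIntegrable _ _), intervalIntegral.integral_const_mul,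
      intervalIntegral.integral_const_mul] at h1
    have h2 := hreal (fun n => (a n).re)
    have h3 := hreal (fun n => (a n).im)
    have e : ∑ n ∈ Finset.Icc 1 N, ‖a n‖ ^ 2 = ∑ n ∈ Finset.Icc 1 N, (a n).re ^ 2 +
        ∑ n ∈ Finset.Icc 1 N, (a n).im ^ 2 := by
      rw [← Finset.sum_add_distrib]
      refine Finset.sum_congr rfl fun n _ => ?_
      rw [Complex.sq_norm, Complex.normSq_apply]
      ring
    rw [e]
    linarith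
  have hfun : ∀ t : ℝ, ∑ n ∈ Finset.Icc 1 N, a n * (n : ℂ) ^ (-((t : ℂ) * I)) =
      ∑ n ∈ Finset.Icc 1 N, a n * AMv_e t n := by
    intro t
    refine Finset.sum_congr rfl fun n hn => ?_
    rw [Finset.mem_Icc] at hn
    have hn0 : (n : ℂ) ≠ 0 := by
      have : n ≠ 0 := by omega
      exact_mod_cast this
    unfold AMv_e
    rw [Complex.cpow_def_of_ne_zero hn0, ← Complex.natCast_log]
    congr 2
    push_cast
    ring
  simp only [hfun]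
  have hcont := AMv_cont (Finset.Icc 1 N) a
  calc ∫⁻ t in Icc (T / 2) (3 * T), ENNReal.ofReal (‖∑ n ∈ Finset.Icc 1 N, a n * AMv_e t n‖ ^ 2)
      ≤ ∫⁻ t in Ioc 0 (3 * T), ENNReal.ofReal (‖∑ n ∈ Finset.Icc 1 N, a n * AMv_e t n‖ ^ 2) := by
        apply lintegral_mono_set
        intro t ht
        exact ⟨lt_of_lt_of_le (by linarith) ht.1, ht.2⟩
    _ = ENNReal.ofReal (∫ t in Ioc 0 (3 * T), ‖∑ n ∈ Finset.Icc 1 N, a n * AMv_e t n‖ ^ 2) := by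
        rw [ofReal_integral_eq_lintegral_ofReal]
        · exact (hcont.intervalIntegrable 0 (3 * T)).1
        · exact Filter.Eventually.of_forall fun t => sq_nonneg _
    _ ≤ ENNReal.ofReal (8 * T * ∑ n ∈ Finset.Icc 1 N, ‖a n‖ ^ 2) := by
        apply ENNReal.ofReal_le_ofReal
        rw [intervalIntegral.integral_of_le (by linarith)] at hint
        exact hint

end Pool.Agent.Lib.MP_ec260d_ntB.IA
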