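import Mathlib
import Pool.Agent.Lib.MP_ec260d_ntB.ABj
import Pool.Agent.Lib.MP_ec260d_ntB.ABlock
import Pool.Agent.Lib.MP_ec260d_ntB.AExp
import Pool.Agent.Lib.MP_ec260d_ntB.APrime

/-!
# JOB AQ0: the case `w = 0` (about 230 lines)

SETUP.  `l = log T`, `J = JJ T`, `v = 4 e²`, `C₁` from `block_inv`, `ω_j(n) = |n.primeFactors ∩ Pr δ T j|`.
Choose `δ₀ ≤ 1` with `δ₀^(-3/4) ≥ 2 v C₁` (then `d_j ≥ δ^(-3/4) ≥ 2 v C₁`, `dd_low`).  By `bn_eq` and `p^0 = 1` (`p ≥ 1`): the factor of `P0` is `∏_(p ∈ P0 ∩ n.primeFactors) 0`, `1` or `0`.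
(i) `bj_zero`: `‖bn‖² ≤ ∏_(p ∈ P0 ∩ n.primeFactors) 0 · ∏_(j<J) (∏_(p ∈ n.primeFactors ∩ Pr j) 0 + e^(-2 d_j) ∏ v)`.  `block_sum` with `N = ⌊T⌋₊`, `Js = range J`, `u p = 0` for `p ∈ QQ δ T`, `u p = 1` otherwise,
`lam j = e^(-2d_j)`: `∑_(n ≤ T) ‖bn‖²/n ≤ ∏_(p ≤ N, p ∉ QQ) (1 + 1/(p-1)) ∏_(j<J) (1 + e^(-2d_j) ∏_(p ∈ Pr j)(1 + v/(p-1)))`; `∏_(p ∈ Pr j) (1 + v/(p-1)) ≤ exp (2 v C₁) ≤ e^(d_j)`; so the last
product is `≤ exp (∑ e^(-d_j)) ≤ e` (`dd_sum`).  The primes `p ≤ T` outside `QQ` have `δ l < log p ≤ l` (`QQ_cover`), so the first product is `≤ exp (2 ∑ 1/p) ≤ exp (2 C (1 + log (1/δ))) = e^(2C) δ^(-2C)`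
(`prime_inv`).
(ii) fix `j < J` and sum over `n` with `ω_j(n) > d_j`: bound the factor `j` by `bj_zero_sq`: `e^(-2d_j) ∏_(p ∈ n.primeFactors ∩ Pr j) v`, the others as before; `block_sum` with `Js = range J` without `j`, `u p = v` for
`p ∈ Pr j`: the result is `≤ e^(-2d_j) ∏_(p ∈ Pr j)(1 + v/(p-1)) · (as before) ≤ e^(-2 d_j) e^(d_j) · e · e^(2C) δ^(-2C)`.
(iii) if `n ≥ 2` and `bn n 0 ≠ 0`: no prime of `P0` divides `n`; if some prime factor `p ∉ QQ`, then `log p > δ l` (`QQ_cover`), so `log n > δ l`.  Otherwise all prime factors are in blocks, there is at least one, in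
`Pr j`, `bj ≠ 0` and `bj_zero_big` gives `ω_j(n) > d_j`, and `log n ≥ ∑_(p ∈ n.primeFactors ∩ Pr j) log p ≥ d_j · δ e^(-(j+1)) l` (`Pr_log`, `Nat.prod_primeFactors_dvd`).
-/

namespace Pool.Agent.Lib.MP_ec260d_ntB.IA

open Complex Set Filter Topology MeasureTheory

private lemma q0_norm {δ T : ℝ} (hδ : 0 < δ) (hT : 1 < T) (n : ℕ) :
    ‖bn δ T n 0‖ ^ 2 = (∏ _p ∈ P0 ∩ n.primeFactors, (0 : ℝ)) *
      ∏ j ∈ Finset.range (JJ T), ‖bj (n.primeFactors ∩ Pr δ T j) (dd δ j) 0‖ ^ 2 := by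
  have h1 : ∏ p ∈ P0 ∩ n.primeFactors, ‖1 - (p : ℂ) ^ (0 : ℂ)‖ ^ 2 = ∏ _p ∈ P0 ∩ n.primeFactors, (0 : ℝ) := by
    refine Finset.prod_congr rfl fun p _ => ?_
    rw [Complex.cpow_zero, sub_self, norm_zero]
    norm_num
  rw [bn_eq hδ hT, norm_mul, mul_pow, norm_prod, norm_prod, ← Finset.prod_pow, ← Finset.prod_pow, h1]

private lemma q0_le {S t : Finset ℕ} (f : ℕ → ℝ) (hst : S ⊆ t) (h1 : ∀ p ∈ t, 1 ≤ f p) :
    ∏ p ∈ S, f p ≤ ∏ p ∈ t, f p :=
  Finset.prod_le_prod_of_subset_of_one_le hst (fun p hp => zero_le_one.trans (h1 p (hst hp)))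
    (fun p hp _ => h1 p hp)

private lemma q0_G (δ T : ℝ) (N : ℕ) (v : ℝ) (hv : 0 ≤ v) (S Js : Finset ℕ)
    (hdis : ∀ i ∈ Js, ∀ j ∈ Js, i ≠ j → Disjoint (Pr δ T i) (Pr δ T j))
    (hS : ∀ p ∈ S, p.Prime) (hSP : Disjoint S P0) (hSJ : ∀ j ∈ Js, Disjoint S (Pr δ T j))
    (hPJ : ∀ j ∈ Js, Disjoint P0 (Pr δ T j)) (lam : ℕ → ℝ) (hlam : ∀ j, 0 ≤ lam j) :
    ∑ n ∈ Finset.Icc 1 N, ((∏ _p ∈ P0 ∩ n.primeFactors, (0 : ℝ)) * (∏ _p ∈ n.primeFactors ∩ S, v) *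
        ∏ j ∈ Js, (∏ _p ∈ n.primeFactors ∩ Pr δ T j, (0 : ℝ) + lam j * ∏ _p ∈ n.primeFactors ∩ Pr δ T j, v)) / n ≤
      (∏ p ∈ ((Finset.range (N + 1)).filter Nat.Prime).filter (fun p => p ∉ P0 ∪ S ∪ Js.biUnion (Pr δ T)),
          (1 + 1 / ((p : ℝ) - 1))) * (∏ p ∈ S, (1 + v / ((p : ℝ) - 1))) *
        ∏ j ∈ Js, (1 + lam j * ∏ p ∈ Pr δ T j, (1 + v / ((p : ℝ) - 1))) := by
  have hu0 : ∀ p, 0 ≤ (if p ∈ S then v else if p ∈ P0 ∪ Js.biUnion (Pr δ T) then (0 : ℝ) else 1) := by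
    intro p
    split_ifs
    · exact hv
    · exact le_rfl
    · exact zero_le_one
  have key := block_sum N Js (Pr δ T) (fun j _ p hp => (Pr_prime hp).1) hdis
    (fun p => if p ∈ S then v else if p ∈ P0 ∪ Js.biUnion (Pr δ T) then (0 : ℝ) else 1) (fun _ => v) hu0
    (fun _ => hv) lam hlam
  have hone : ∀ p : ℕ, p.Prime → 1 ≤ 1 + v / ((p : ℝ) - 1) := by
    intro p hp
    have h2 : (2 : ℝ) ≤ p := by exact_mod_cast hp.two_le
    have : 0 ≤ v / ((p : ℝ) - 1) := div_nonneg hv (by linarith)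
    linarith
  have hone' : ∀ p : ℕ, p.Prime → 1 ≤ 1 + 1 / ((p : ℝ) - 1) := by
    intro p hp
    have h2 : (2 : ℝ) ≤ p := by exact_mod_cast hp.two_le
    have : 0 ≤ 1 / ((p : ℝ) - 1) := div_nonneg zero_le_one (by linarith)
    linarith
  have hu_block : ∀ j ∈ Js, ∀ p ∈ Pr δ T j,
      (if p ∈ S then v else if p ∈ P0 ∪ Js.biUnion (Pr δ T) then (0 : ℝ) else 1) = 0 := by
    intro j hj p hp
    have h1 : p ∉ S := fun h => Finset.disjoint_left.mp (hSJ j hj) h hp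
    have h2 : p ∈ P0 ∪ Js.biUnion (Pr δ T) :=
      Finset.mem_union_right _ (Finset.mem_biUnion.mpr ⟨j, hj, hp⟩)
    rw [if_neg h1, if_pos h2]
  have hterm : ∀ n : ℕ, (∏ _p ∈ P0 ∩ n.primeFactors, (0 : ℝ)) * (∏ _p ∈ n.primeFactors ∩ S, v) =
      ∏ p ∈ n.primeFactors \ Js.biUnion (Pr δ T),
        (if p ∈ S then v else if p ∈ P0 ∪ Js.biUnion (Pr δ T) then (0 : ℝ) else 1) := by
    intro n
    have h1 : P0 ∩ n.primeFactors = (n.primeFactors \ Js.biUnion (Pr δ T)).filter (fun p => p ∈ P0) := by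
      ext p
      simp only [Finset.mem_inter, Finset.mem_filter, Finset.mem_sdiff, Finset.mem_biUnion, not_exists, not_and]
      constructor
      · rintro ⟨h1, h2⟩
        exact ⟨⟨h2, fun j hj => Finset.disjoint_left.mp (hPJ j hj) h1⟩, h1⟩
      · rintro ⟨⟨h2, -⟩, h1⟩
        exact ⟨h1, h2⟩
    have h2 : n.primeFactors ∩ S = (n.primeFactors \ Js.biUnion (Pr δ T)).filter (fun p => p ∈ S) := by
      ext p
      simp only [Finset.mem_inter, Finset.mem_filter, Finset.mem_sdiff, Finset.mem_biUnion, not_exists, not_and]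
      constructor
      · rintro ⟨h2, h1⟩
        exact ⟨⟨h2, fun j hj => Finset.disjoint_left.mp (hSJ j hj) h1⟩, h1⟩
      · rintro ⟨⟨h2, -⟩, h1⟩
        exact ⟨h2, h1⟩
    rw [h1, h2, Finset.prod_filter, Finset.prod_filter, ← Finset.prod_mul_distrib]
    refine Finset.prod_congr rfl fun p hp => ?_
    have hpU : p ∉ Js.biUnion (Pr δ T) := (Finset.mem_sdiff.mp hp).2
    by_cases hpS : p ∈ S
    · have hp0 : p ∉ P0 := Finset.disjoint_left.mp hSP hpS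
      rw [if_neg hp0, if_pos hpS, if_pos hpS, one_mul]
    · by_cases hp0 : p ∈ P0
      · rw [if_pos hp0, if_neg hpS, if_neg hpS, if_pos (Finset.mem_union_left _ hp0), zero_mul]
      · have h3 : p ∉ P0 ∪ Js.biUnion (Pr δ T) := by
          rw [Finset.mem_union]
          rintro (h | h)
          · exact hp0 h
          · exact hpU h
        rw [if_neg hp0, if_neg hpS, if_neg hpS, if_neg h3, one_mul]
  have hL : ∑ n ∈ Finset.Icc 1 N, ((∏ _p ∈ P0 ∩ n.primeFactors, (0 : ℝ)) * (∏ _p ∈ n.primeFactors ∩ S, v) *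
        ∏ j ∈ Js, (∏ _p ∈ n.primeFactors ∩ Pr δ T j, (0 : ℝ) + lam j * ∏ _p ∈ n.primeFactors ∩ Pr δ T j, v)) / n =
      ∑ n ∈ Finset.Icc 1 N, ((∏ p ∈ n.primeFactors \ Js.biUnion (Pr δ T),
        (if p ∈ S then v else if p ∈ P0 ∪ Js.biUnion (Pr δ T) then (0 : ℝ) else 1)) *
        ∏ j ∈ Js, (∏ p ∈ n.primeFactors ∩ Pr δ T j,
          (if p ∈ S then v else if p ∈ P0 ∪ Js.biUnion (Pr δ T) then (0 : ℝ) else 1) +
            lam j * ∏ _p ∈ n.primeFactors ∩ Pr δ T j, v)) / n := by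
    refine Finset.sum_congr rfl fun n _ => ?_
    rw [hterm n]
    congr 2
    refine Finset.prod_congr rfl fun j hj => ?_
    congr 1
    refine Finset.prod_congr rfl fun p hp => ?_
    rw [hu_block j hj p (Finset.mem_inter.mp hp).2]
  rw [hL]
  refine key.trans ?_
  have hR1 : ∀ j ∈ Js, ∏ p ∈ Pr δ T j,
      (1 + (if p ∈ S then v else if p ∈ P0 ∪ Js.biUnion (Pr δ T) then (0 : ℝ) else 1) / ((p : ℝ) - 1)) = 1 := by
    intro j hj
    refine Finset.prod_eq_one fun p hp => ?_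
    rw [hu_block j hj p hp, zero_div, add_zero]
  have hR2 : ∏ j ∈ Js, (∏ p ∈ Pr δ T j,
      (1 + (if p ∈ S then v else if p ∈ P0 ∪ Js.biUnion (Pr δ T) then (0 : ℝ) else 1) / ((p : ℝ) - 1)) +
        lam j * ∏ p ∈ Pr δ T j, (1 + v / ((p : ℝ) - 1))) =
      ∏ j ∈ Js, (1 + lam j * ∏ p ∈ Pr δ T j, (1 + v / ((p : ℝ) - 1))) := by
    refine Finset.prod_congr rfl fun j hj => ?_
    rw [hR1 j hj]
  rw [hR2]
  have hVpos : ∀ j ∈ Js, 0 ≤ ∏ p ∈ Pr δ T j, (1 + v / ((p : ℝ) - 1)) := fun j _ =>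
    Finset.prod_nonneg fun p hp => zero_le_one.trans (hone p (Pr_prime hp).1)
  refine mul_le_mul_of_nonneg_right ?_ (Finset.prod_nonneg fun j hj => ?_)
  · have hsplit : ∏ p ∈ ((Finset.range (N + 1)).filter Nat.Prime) \ Js.biUnion (Pr δ T),
        (1 + (if p ∈ S then v else if p ∈ P0 ∪ Js.biUnion (Pr δ T) then (0 : ℝ) else 1) / ((p : ℝ) - 1)) =
        (∏ p ∈ (((Finset.range (N + 1)).filter Nat.Prime) \ Js.biUnion (Pr δ T)).filter
          (fun p => p ∉ P0 ∪ S ∪ Js.biUnion (Pr δ T)), (1 + 1 / ((p : ℝ) - 1))) *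
        ∏ p ∈ (((Finset.range (N + 1)).filter Nat.Prime) \ Js.biUnion (Pr δ T)).filter
          (fun p => p ∈ S), (1 + v / ((p : ℝ) - 1)) := by
      rw [Finset.prod_filter, Finset.prod_filter, ← Finset.prod_mul_distrib]
      refine Finset.prod_congr rfl fun p hp => ?_
      have hpU : p ∉ Js.biUnion (Pr δ T) := (Finset.mem_sdiff.mp hp).2
      by_cases hpS : p ∈ S
      · have h3 : ¬ (p ∉ P0 ∪ S ∪ Js.biUnion (Pr δ T)) := fun h =>
          h (Finset.mem_union_left _ (Finset.mem_union_right _ hpS))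
        rw [if_neg h3, if_pos hpS, if_pos hpS, one_mul]
      · by_cases hp0 : p ∈ P0
        · have h3 : ¬ (p ∉ P0 ∪ S ∪ Js.biUnion (Pr δ T)) := fun h =>
            h (Finset.mem_union_left _ (Finset.mem_union_left _ hp0))
          rw [if_neg h3, if_neg hpS, if_neg hpS, if_pos (Finset.mem_union_left _ hp0), zero_div, add_zero, one_mul]
        · have h3 : p ∉ P0 ∪ Js.biUnion (Pr δ T) := by
            rw [Finset.mem_union]
            rintro (h | h)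
            · exact hp0 h
            · exact hpU h
          have h4 : p ∉ P0 ∪ S ∪ Js.biUnion (Pr δ T) := by
            rw [Finset.mem_union, Finset.mem_union]
            rintro ((h | h) | h)
            · exact hp0 h
            · exact hpS h
            · exact hpU h
          rw [if_pos h4, if_neg hpS, if_neg hpS, if_neg h3, mul_one]
    rw [hsplit]
    refine mul_le_mul ?_ ?_ ?_ ?_
    · refine q0_le _ ?_ fun p hp => hone' p (Finset.mem_filter.mp (Finset.mem_filter.mp hp).1).2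
      intro p hp
      rw [Finset.mem_filter, Finset.mem_sdiff] at hp
      exact Finset.mem_filter.mpr ⟨hp.1.1, hp.2⟩
    · refine q0_le _ ?_ fun p hp => hone p (hS p hp)
      intro p hp
      exact (Finset.mem_filter.mp hp).2
    · refine Finset.prod_nonneg fun p hp => zero_le_one.trans (hone p (hS p (Finset.mem_filter.mp hp).2))
    · refine Finset.prod_nonneg fun p hp => zero_le_one.trans (hone' p ?_)
      exact (Finset.mem_filter.mp (Finset.mem_filter.mp hp).1).2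
  · have := mul_nonneg (hlam j) (hVpos j hj)
    linarith

private lemma q0_exp (S : Finset ℕ) (hS : ∀ p ∈ S, p.Prime) (v : ℝ) (hv : 0 ≤ v) :
    ∏ p ∈ S, (1 + v / ((p : ℝ) - 1)) ≤ Real.exp (2 * v * ∑ p ∈ S, (1 : ℝ) / p) := by
  rw [Finset.mul_sum, Real.exp_sum]
  refine Finset.prod_le_prod (fun p hp => ?_) fun p hp => ?_
  · have h2 : (2 : ℝ) ≤ p := by exact_mod_cast (hS p hp).two_le
    have : 0 ≤ v / ((p : ℝ) - 1) := div_nonneg hv (by linarith)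
    linarith
  · have h2 : (2 : ℝ) ≤ p := by exact_mod_cast (hS p hp).two_le
    have h3 : v / ((p : ℝ) - 1) ≤ 2 * v * (1 / p) := by
      rw [mul_one_div, div_le_div_iff₀ (by linarith) (by linarith)]
      nlinarith
    linarith [Real.add_one_le_exp (2 * v * (1 / (p : ℝ)))]

/-- the part of the primes outside the mollifier -/
private lemma q0_out {C : ℝ}
    (hpi : ∀ u v : ℝ, 0 < u → u ≤ v → ∀ P : Finset ℕ,
      (∀ p ∈ P, p.Prime ∧ u < Real.log p ∧ Real.log p ≤ v) → ∑ p ∈ P, (1 : ℝ) / p ≤ C * (1 + Real.log (v / u)))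
    {δ T : ℝ} (hδ : 0 < δ) (hδ1 : δ ≤ 1) (hT : 10000 ≤ T) :
    ∏ p ∈ ((Finset.range (⌊T⌋₊ + 1)).filter Nat.Prime).filter (fun p => p ∉ QQ δ T), (1 + 1 / ((p : ℝ) - 1)) ≤
      Real.exp (2 * C) * δ ^ (-(2 * C)) := by
  have hl : 0 < Real.log T := Real.log_pos (by linarith)
  have h1 := q0_exp (((Finset.range (⌊T⌋₊ + 1)).filter Nat.Prime).filter (fun p => p ∉ QQ δ T))
    (fun p hp => (Finset.mem_filter.mp (Finset.mem_filter.mp hp).1).2) 1 zero_le_one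
  refine h1.trans ?_
  have h2 := hpi (δ * Real.log T) (Real.log T) (by positivity) (by nlinarith)
    (((Finset.range (⌊T⌋₊ + 1)).filter Nat.Prime).filter (fun p => p ∉ QQ δ T)) (fun p hp => by
      rw [Finset.mem_filter, Finset.mem_filter, Finset.mem_range] at hp
      obtain ⟨⟨hpN, hpp⟩, hpQ⟩ := hp
      refine ⟨hpp, ?_, ?_⟩
      · by_contra hcon
        exact hpQ (QQ_cover hδ hδ1 (by linarith) hpp (not_lt.mp hcon))
      · have h3 : (p : ℝ) ≤ T := by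
          have h4 : p ≤ ⌊T⌋₊ := by omega
          exact (Nat.cast_le.mpr h4).trans (Nat.floor_le (by linarith))
        exact Real.log_le_log (by exact_mod_cast hpp.pos) h3)
  have h3 : Real.log (Real.log T / (δ * Real.log T)) = -Real.log δ := by
    rw [show Real.log T / (δ * Real.log T) = δ⁻¹ by field_simp, Real.log_inv]
  rw [h3] at h2
  have h4 : Real.exp (2 * C) * δ ^ (-(2 * C)) = Real.exp (2 * (C * (1 + -Real.log δ))) := by
    rw [Real.rpow_def_of_pos hδ, ← Real.exp_add]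
    congr 1
    ring
  rw [h4, Real.exp_le_exp]
  linarith

private lemma q0_QQ {δ T : ℝ} {j : ℕ} (hj : j ∈ Finset.range (JJ T)) :
    P0 ∪ Pr δ T j ∪ ((Finset.range (JJ T)).erase j).biUnion (Pr δ T) = QQ δ T := by
  rw [QQ, Finset.union_assoc, ← Finset.biUnion_insert, Finset.insert_erase hj]

private lemma q0_erase {δ : ℝ} (hδ : 0 < δ) (hδ1 : δ ≤ 1) (Js : Finset ℕ) (J : ℕ) (hJ : Js ⊆ Finset.range J)
    (V : ℕ → ℝ) (hV0 : ∀ j, 0 ≤ V j) (hV : ∀ j, V j ≤ Real.exp (dd δ j : ℝ)) :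
    ∏ j ∈ Js, (1 + Real.exp (-(2 * dd δ j : ℝ)) * V j) ≤ Real.exp 1 := by
  have h1 : ∀ j, 1 + Real.exp (-(2 * dd δ j : ℝ)) * V j ≤ Real.exp (Real.exp (-(dd δ j : ℝ))) := by
    intro j
    have h2 : Real.exp (-(2 * dd δ j : ℝ)) * V j ≤ Real.exp (-(dd δ j : ℝ)) := by
      calc Real.exp (-(2 * dd δ j : ℝ)) * V j ≤ Real.exp (-(2 * dd δ j : ℝ)) * Real.exp (dd δ j : ℝ) :=
            mul_le_mul_of_nonneg_left (hV j) (Real.exp_pos _).le
        _ = Real.exp (-(dd δ j : ℝ)) := by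
            rw [← Real.exp_add]
            congr 1
            ring
    linarith [Real.add_one_le_exp (Real.exp (-(dd δ j : ℝ)))]
  have h0 : ∀ j, 1 ≤ 1 + Real.exp (-(2 * dd δ j : ℝ)) * V j := by
    intro j
    have := mul_nonneg (Real.exp_pos (-(2 * dd δ j : ℝ))).le (hV0 j)
    linarith
  calc ∏ j ∈ Js, (1 + Real.exp (-(2 * dd δ j : ℝ)) * V j)
      ≤ ∏ j ∈ Finset.range J, (1 + Real.exp (-(2 * dd δ j : ℝ)) * V j) := q0_le _ hJ fun j _ => h0 j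
    _ ≤ ∏ j ∈ Finset.range J, Real.exp (Real.exp (-(dd δ j : ℝ))) :=
        Finset.prod_le_prod (fun j _ => zero_le_one.trans (h0 j)) fun j _ => h1 j
    _ = Real.exp (∑ j ∈ Finset.range J, Real.exp (-(dd δ j : ℝ))) := (Real.exp_sum _ _).symm
    _ ≤ Real.exp 1 := Real.exp_le_exp.mpr (dd_sum hδ hδ1 J)

private lemma q0_three {δ T : ℝ} (hδ : 0 < δ) (hδ1 : δ ≤ 1) (hT : 10000 ≤ T) (n : ℕ) (hn : 2 ≤ n)
    (hne : bn δ T n 0 ≠ 0) : δ * Real.log T ≤ Real.log n ∨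
      ∃ j ∈ Finset.range (JJ T), dd δ j < (n.primeFactors ∩ Pr δ T j).card ∧
        (dd δ j : ℝ) * (δ * Real.exp (-((j : ℝ) + 1))) * Real.log T ≤ Real.log n := by
  rcases le_or_gt (δ * Real.log T) (Real.log n) with h | h
  · exact Or.inl h
  right
  have hn0 : (0 : ℝ) < n := by exact_mod_cast (by omega : 0 < n)
  have hT1 : 1 < T := by linarith
  have hl : 0 < Real.log T := Real.log_pos hT1
  rw [bn_eq hδ hT1] at hne
  have hne1 := left_ne_zero_of_mul hne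
  have hne2 := right_ne_zero_of_mul hne
  obtain ⟨p, hp, hpn⟩ := Nat.exists_prime_and_dvd (show n ≠ 1 by omega)
  have hple : p ≤ n := Nat.le_of_dvd (by omega) hpn
  have hlogp : Real.log p ≤ δ * Real.log T :=
    (Real.log_le_log (by exact_mod_cast hp.pos) (by exact_mod_cast hple)).trans h.le
  have hpQ := QQ_cover hδ hδ1 (by linarith) hp hlogp
  have hpf : p ∈ n.primeFactors := Nat.mem_primeFactors.mpr ⟨hp, hpn, by omega⟩
  rw [QQ, Finset.mem_union, Finset.mem_biUnion] at hpQ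
  rcases hpQ with h0 | ⟨j, hj, hpj⟩
  · exfalso
    rw [Finset.prod_ne_zero_iff] at hne1
    refine hne1 p (Finset.mem_inter.mpr ⟨h0, hpf⟩) ?_
    rw [Complex.cpow_zero, sub_self]
  · rw [Finset.prod_ne_zero_iff] at hne2
    have h1 := hne2 j hj
    have hA : n.primeFactors ∩ Pr δ T j ≠ ∅ :=
      Finset.ne_empty_of_mem (Finset.mem_inter.mpr ⟨hpf, hpj⟩)
    have h2 := bj_zero_big _ _ h1 hA
    refine ⟨j, hj, h2, ?_⟩
    have h3 : (∏ q ∈ n.primeFactors ∩ Pr δ T j, q) ∣ n :=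
      (Finset.prod_dvd_prod_of_subset _ _ (fun q => q) Finset.inter_subset_left).trans
        (Nat.prod_primeFactors_dvd n)
    have h4 : (∏ q ∈ n.primeFactors ∩ Pr δ T j, q) ≤ n := Nat.le_of_dvd (by omega) h3
    have h5 : Real.log ((∏ q ∈ n.primeFactors ∩ Pr δ T j, q : ℕ) : ℝ) ≤ Real.log n := by
      refine Real.log_le_log ?_ (by exact_mod_cast h4)
      have : 0 < ∏ q ∈ n.primeFactors ∩ Pr δ T j, q :=
        Finset.prod_pos fun q hq => (Pr_prime (Finset.mem_inter.mp hq).2).1.pos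
      exact_mod_cast this
    refine le_trans ?_ h5
    rw [Nat.cast_prod, Real.log_prod fun q hq => by
      have := (Pr_prime (Finset.mem_inter.mp hq).2).1.ne_zero
      exact_mod_cast this]
    have h6 : ∀ q ∈ n.primeFactors ∩ Pr δ T j,
        δ * Real.exp (-((j : ℝ) + 1)) * Real.log T ≤ Real.log (q : ℝ) := fun q hq =>
      (Pr_log hδ hT1 (Finset.mem_inter.mp hq).2).1.le
    have h7 := Finset.card_nsmul_le_sum _ _ _ h6
    rw [nsmul_eq_mul] at h7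
    refine le_trans ?_ h7
    have h8 : (dd δ j : ℝ) ≤ ((n.primeFactors ∩ Pr δ T j).card : ℝ) := by exact_mod_cast h2.le
    calc (dd δ j : ℝ) * (δ * Real.exp (-((j : ℝ) + 1))) * Real.log T
        = (dd δ j : ℝ) * (δ * Real.exp (-((j : ℝ) + 1)) * Real.log T) := by ring
      _ ≤ ((n.primeFactors ∩ Pr δ T j).card : ℝ) * (δ * Real.exp (-((j : ℝ) + 1)) * Real.log T) :=
          mul_le_mul_of_nonneg_right h8 (by positivity)

theorem Q0_bound : ∃ A₁ C₂ δ₀ : ℝ, 0 < A₁ ∧ 0 < C₂ ∧ 0 < δ₀ ∧ δ₀ ≤ 1 ∧ ∀ δ : ℝ, 0 < δ → δ ≤ δ₀ → ∀ T : ℝ, 10000 ≤ T →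
    (∑ n ∈ Finset.Icc 1 ⌊T⌋₊, ‖bn δ T n 0‖ ^ 2 / n ≤ C₂ * δ ^ (-A₁)) ∧
    (∀ j ∈ Finset.range (JJ T),
      ∑ n ∈ (Finset.Icc 1 ⌊T⌋₊).filter (fun n => dd δ j < (n.primeFactors ∩ Pr δ T j).card), ‖bn δ T n 0‖ ^ 2 / n ≤
        C₂ * δ ^ (-A₁) * Real.exp (-(dd δ j : ℝ))) ∧
    (∀ n : ℕ, 2 ≤ n → bn δ T n 0 ≠ 0 → δ * Real.log T ≤ Real.log n ∨
      ∃ j ∈ Finset.range (JJ T), dd δ j < (n.primeFactors ∩ Pr δ T j).card ∧
        (dd δ j : ℝ) * (δ * Real.exp (-((j : ℝ) + 1))) * Real.log T ≤ Real.log n) := by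
  obtain ⟨C, hC, hpi⟩ := prime_inv
  obtain ⟨C₁, hC₁, hbl⟩ := block_inv
  have hv : (0 : ℝ) ≤ 4 * Real.exp 2 := by positivity
  have hbz : ∀ (A : Finset ℕ) (d : ℕ), ‖bj A d 0‖ ^ 2 ≤ ∏ _p ∈ A, (0 : ℝ) +
      Real.exp (-(2 * d : ℝ)) * ∏ _p ∈ A, (4 * Real.exp 2) := bj_zero
  have hbzs : ∀ (A : Finset ℕ) (d : ℕ), d < A.card →
      ‖bj A d 0‖ ^ 2 ≤ Real.exp (-(2 * d : ℝ)) * ∏ _p ∈ A, (4 * Real.exp 2) := bj_zero_sq
  generalize (4 * Real.exp 2 : ℝ) = v at hv hbz hbzs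
  have hK : 0 < 2 * v * C₁ + 1 := by positivity
  refine ⟨2 * C, Real.exp (2 * C) * Real.exp 1, min 1 ((2 * v * C₁ + 1) ^ (-(4 / 3) : ℝ)), by positivity,
    by positivity, lt_min one_pos (Real.rpow_pos_of_pos hK _), min_le_left _ _, fun δ hδ hδ0 T hT => ?_⟩
  have hδ1 : δ ≤ 1 := hδ0.trans (min_le_left _ _)
  have hδ2 : δ ≤ (2 * v * C₁ + 1) ^ (-(4 / 3) : ℝ) := hδ0.trans (min_le_right _ _)
  have hT1 : 1 < T := by linarith
  have hdd : ∀ j : ℕ, 2 * v * C₁ ≤ (dd δ j : ℝ) := by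
    intro j
    have h1 := (dd_low hδ hδ1 j).1
    have h2 : 0 < Real.exp (-(j : ℝ)) := Real.exp_pos _
    have h3 : Real.exp (-(j : ℝ)) ≤ 1 := by
      rw [Real.exp_le_one_iff]
      have : (0 : ℝ) ≤ (j : ℝ) := Nat.cast_nonneg j
      linarith
    have h4 : δ * Real.exp (-(j : ℝ)) ≤ (2 * v * C₁ + 1) ^ (-(4 / 3) : ℝ) := by nlinarith
    have h5 : ((2 * v * C₁ + 1) ^ (-(4 / 3) : ℝ)) ^ (-(3 / 4) : ℝ) ≤
        (δ * Real.exp (-(j : ℝ))) ^ (-(3 / 4) : ℝ) :=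
      Real.rpow_le_rpow_of_nonpos (by positivity) h4 (by norm_num)
    have h6 : ((2 * v * C₁ + 1) ^ (-(4 / 3) : ℝ)) ^ (-(3 / 4) : ℝ) = 2 * v * C₁ + 1 := by
      rw [← Real.rpow_mul hK.le]
      norm_num
    rw [h6] at h5
    linarith
  have hVexp : ∀ j : ℕ, ∏ p ∈ Pr δ T j, (1 + v / ((p : ℝ) - 1)) ≤ Real.exp (dd δ j : ℝ) := by
    intro j
    refine (q0_exp _ (fun p hp => (Pr_prime hp).1) v hv).trans (Real.exp_le_exp.mpr ?_)
    refine le_trans ?_ (hdd j)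
    exact mul_le_mul_of_nonneg_left (hbl δ T hδ hT1 j) (by positivity)
  have hV1 : ∀ j : ℕ, 0 ≤ ∏ p ∈ Pr δ T j, (1 + v / ((p : ℝ) - 1)) := by
    intro j
    refine Finset.prod_nonneg fun p hp => ?_
    have h2 : (2 : ℝ) ≤ p := by exact_mod_cast (Pr_prime hp).1.two_le
    have : 0 ≤ v / ((p : ℝ) - 1) := div_nonneg hv (by linarith)
    linarith
  have hout := q0_out hpi hδ hδ1 hT
  have hout0 : 0 ≤ ∏ p ∈ ((Finset.range (⌊T⌋₊ + 1)).filter Nat.Prime).filter (fun p => p ∉ QQ δ T),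
      (1 + 1 / ((p : ℝ) - 1)) := by
    refine Finset.prod_nonneg fun p hp => ?_
    have h2 : (2 : ℝ) ≤ p := by
      exact_mod_cast ((Finset.mem_filter.mp (Finset.mem_filter.mp hp).1).2).two_le
    have : 0 ≤ 1 / ((p : ℝ) - 1) := div_nonneg zero_le_one (by linarith)
    linarith
  have hdp : 0 ≤ δ ^ (-(2 * C)) := Real.rpow_nonneg hδ.le _
  have hzero : ∀ A : Finset ℕ, 0 ≤ ∏ _p ∈ A, (0 : ℝ) := fun A => Finset.prod_nonneg fun _ _ => le_rfl
  have hvv : ∀ A : Finset ℕ, 0 ≤ ∏ _p ∈ A, v := fun A => Finset.prod_nonneg fun _ _ => hv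
  refine ⟨?_, ?_, fun n hn hne => q0_three hδ hδ1 hT n hn hne⟩
  · have hG := q0_G δ T ⌊T⌋₊ v hv ∅ (Finset.range (JJ T)) (fun i _ j _ hij => Pr_disj hδ hT1 hij)
      (fun p hp => absurd hp (Finset.notMem_empty p)) (Finset.disjoint_empty_left _)
      (fun j _ => Finset.disjoint_empty_left _) (fun j _ => P0_disj δ T j)
      (fun j => Real.exp (-(2 * dd δ j : ℝ))) (fun j => (Real.exp_pos _).le)
    have hQ : P0 ∪ ∅ ∪ (Finset.range (JJ T)).biUnion (Pr δ T) = QQ δ T := by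
      rw [Finset.union_empty, QQ]
    rw [hQ, Finset.prod_empty, mul_one] at hG
    have hE := q0_erase hδ hδ1 (Finset.range (JJ T)) (JJ T) (Finset.Subset.refl _)
      (fun j => ∏ p ∈ Pr δ T j, (1 + v / ((p : ℝ) - 1))) hV1 hVexp
    calc ∑ n ∈ Finset.Icc 1 ⌊T⌋₊, ‖bn δ T n 0‖ ^ 2 / n
        ≤ ∑ n ∈ Finset.Icc 1 ⌊T⌋₊, ((∏ _p ∈ P0 ∩ n.primeFactors, (0 : ℝ)) * (∏ _p ∈ n.primeFactors ∩ ∅, v) *
          ∏ j ∈ Finset.range (JJ T), (∏ _p ∈ n.primeFactors ∩ Pr δ T j, (0 : ℝ) +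
            Real.exp (-(2 * dd δ j : ℝ)) * ∏ _p ∈ n.primeFactors ∩ Pr δ T j, v)) / n := by
          refine Finset.sum_le_sum fun n _ => ?_
          refine div_le_div_of_nonneg_right ?_ (Nat.cast_nonneg n)
          rw [q0_norm hδ hT1, Finset.inter_empty, Finset.prod_empty, mul_one]
          refine mul_le_mul_of_nonneg_left ?_ (hzero _)
          exact Finset.prod_le_prod (fun j _ => sq_nonneg _) fun j _ => hbz _ _
      _ ≤ _ := hG
      _ ≤ (Real.exp (2 * C) * δ ^ (-(2 * C))) * Real.exp 1 :=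
          mul_le_mul hout hE (Finset.prod_nonneg fun j _ => by
            have := mul_nonneg (Real.exp_pos (-(2 * dd δ j : ℝ))).le (hV1 j)
            linarith) (by positivity)
      _ = Real.exp (2 * C) * Real.exp 1 * δ ^ (-(2 * C)) := by ring
  · intro j hj
    have hG := q0_G δ T ⌊T⌋₊ v hv (Pr δ T j) ((Finset.range (JJ T)).erase j)
      (fun i _ j _ hij => Pr_disj hδ hT1 hij)
      (fun p hp => (Pr_prime hp).1) (P0_disj δ T j).symm
      (fun i hi => Pr_disj hδ hT1 (Finset.ne_of_mem_erase hi).symm) (fun i _ => P0_disj δ T i)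
      (fun j => Real.exp (-(2 * dd δ j : ℝ))) (fun j => (Real.exp_pos _).le)
    rw [q0_QQ hj] at hG
    have hE := q0_erase hδ hδ1 ((Finset.range (JJ T)).erase j) (JJ T) (Finset.erase_subset _ _)
      (fun j => ∏ p ∈ Pr δ T j, (1 + v / ((p : ℝ) - 1))) hV1 hVexp
    have hEn : 0 ≤ ∏ i ∈ (Finset.range (JJ T)).erase j,
        (1 + Real.exp (-(2 * dd δ i : ℝ)) * ∏ p ∈ Pr δ T i, (1 + v / ((p : ℝ) - 1))) :=
      Finset.prod_nonneg fun i _ => by
        have := mul_nonneg (Real.exp_pos (-(2 * dd δ i : ℝ))).le (hV1 i)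
        linarith
    have hterm0 : ∀ n : ℕ, 0 ≤ ((∏ _p ∈ P0 ∩ n.primeFactors, (0 : ℝ)) * (∏ _p ∈ n.primeFactors ∩ Pr δ T j, v) *
          ∏ i ∈ (Finset.range (JJ T)).erase j, (∏ _p ∈ n.primeFactors ∩ Pr δ T i, (0 : ℝ) +
            Real.exp (-(2 * dd δ i : ℝ)) * ∏ _p ∈ n.primeFactors ∩ Pr δ T i, v)) / n := by
      intro n
      refine div_nonneg (mul_nonneg (mul_nonneg (hzero _) (hvv _)) ?_) (Nat.cast_nonneg n)
      exact Finset.prod_nonneg fun i _ => add_nonneg (hzero _) (mul_nonneg (Real.exp_pos _).le (hvv _))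
    calc ∑ n ∈ (Finset.Icc 1 ⌊T⌋₊).filter (fun n => dd δ j < (n.primeFactors ∩ Pr δ T j).card), ‖bn δ T n 0‖ ^ 2 / n
        ≤ ∑ n ∈ (Finset.Icc 1 ⌊T⌋₊).filter (fun n => dd δ j < (n.primeFactors ∩ Pr δ T j).card),
          Real.exp (-(2 * dd δ j : ℝ)) * (((∏ _p ∈ P0 ∩ n.primeFactors, (0 : ℝ)) *
            (∏ _p ∈ n.primeFactors ∩ Pr δ T j, v) *
          ∏ i ∈ (Finset.range (JJ T)).erase j, (∏ _p ∈ n.primeFactors ∩ Pr δ T i, (0 : ℝ) +
            Real.exp (-(2 * dd δ i : ℝ)) * ∏ _p ∈ n.primeFactors ∩ Pr δ T i, v)) / n) := by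
          refine Finset.sum_le_sum fun n hn => ?_
          have hcard := (Finset.mem_filter.mp hn).2
          rw [← mul_div_assoc]
          refine div_le_div_of_nonneg_right ?_ (Nat.cast_nonneg n)
          rw [q0_norm hδ hT1, ← Finset.mul_prod_erase _ _ hj]
          have h1 := hbzs _ _ hcard
          have h2 : ∏ i ∈ (Finset.range (JJ T)).erase j, ‖bj (n.primeFactors ∩ Pr δ T i) (dd δ i) 0‖ ^ 2 ≤
              ∏ i ∈ (Finset.range (JJ T)).erase j, (∏ _p ∈ n.primeFactors ∩ Pr δ T i, (0 : ℝ) +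
                Real.exp (-(2 * dd δ i : ℝ)) * ∏ _p ∈ n.primeFactors ∩ Pr δ T i, v) :=
            Finset.prod_le_prod (fun i _ => sq_nonneg _) fun i _ => hbz _ _
          have h3 : 0 ≤ ∏ i ∈ (Finset.range (JJ T)).erase j,
              ‖bj (n.primeFactors ∩ Pr δ T i) (dd δ i) 0‖ ^ 2 :=
            Finset.prod_nonneg fun i _ => sq_nonneg _
          calc (∏ _p ∈ P0 ∩ n.primeFactors, (0 : ℝ)) * (‖bj (n.primeFactors ∩ Pr δ T j) (dd δ j) 0‖ ^ 2 *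
                ∏ i ∈ (Finset.range (JJ T)).erase j, ‖bj (n.primeFactors ∩ Pr δ T i) (dd δ i) 0‖ ^ 2)
              ≤ (∏ _p ∈ P0 ∩ n.primeFactors, (0 : ℝ)) * ((Real.exp (-(2 * dd δ j : ℝ)) *
                  ∏ _p ∈ n.primeFactors ∩ Pr δ T j, v) *
                ∏ i ∈ (Finset.range (JJ T)).erase j, (∏ _p ∈ n.primeFactors ∩ Pr δ T i, (0 : ℝ) +
                  Real.exp (-(2 * dd δ i : ℝ)) * ∏ _p ∈ n.primeFactors ∩ Pr δ T i, v)) := by
                refine mul_le_mul_of_nonneg_left ?_ (hzero _)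
                exact mul_le_mul h1 h2 h3 (mul_nonneg (Real.exp_pos _).le (hvv _))
            _ = _ := by ring
      _ ≤ ∑ n ∈ Finset.Icc 1 ⌊T⌋₊,
          Real.exp (-(2 * dd δ j : ℝ)) * (((∏ _p ∈ P0 ∩ n.primeFactors, (0 : ℝ)) *
            (∏ _p ∈ n.primeFactors ∩ Pr δ T j, v) *
          ∏ i ∈ (Finset.range (JJ T)).erase j, (∏ _p ∈ n.primeFactors ∩ Pr δ T i, (0 : ℝ) +
            Real.exp (-(2 * dd δ i : ℝ)) * ∏ _p ∈ n.primeFactors ∩ Pr δ T i, v)) / n) :=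
          Finset.sum_le_sum_of_subset_of_nonneg (Finset.filter_subset _ _) fun n _ _ =>
            mul_nonneg (Real.exp_pos _).le (hterm0 n)
      _ = Real.exp (-(2 * dd δ j : ℝ)) * ∑ n ∈ Finset.Icc 1 ⌊T⌋₊, ((∏ _p ∈ P0 ∩ n.primeFactors, (0 : ℝ)) *
            (∏ _p ∈ n.primeFactors ∩ Pr δ T j, v) *
          ∏ i ∈ (Finset.range (JJ T)).erase j, (∏ _p ∈ n.primeFactors ∩ Pr δ T i, (0 : ℝ) +
            Real.exp (-(2 * dd δ i : ℝ)) * ∏ _p ∈ n.primeFactors ∩ Pr δ T i, v)) / n := by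
          rw [Finset.mul_sum]
      _ ≤ Real.exp (-(2 * dd δ j : ℝ)) * ((Real.exp (2 * C) * δ ^ (-(2 * C))) * Real.exp (dd δ j : ℝ) *
            Real.exp 1) := by
          refine mul_le_mul_of_nonneg_left (hG.trans ?_) (Real.exp_pos _).le
          refine mul_le_mul ?_ hE hEn (by positivity)
          exact mul_le_mul hout (hVexp j) (hV1 j) (by positivity)
      _ = Real.exp (2 * C) * Real.exp 1 * δ ^ (-(2 * C)) *
            (Real.exp (-(2 * dd δ j : ℝ)) * Real.exp (dd δ j : ℝ)) := by ring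
      _ = Real.exp (2 * C) * Real.exp 1 * δ ^ (-(2 * C)) * Real.exp (-(dd δ j : ℝ)) := by
          have h9 : Real.exp (-(2 * dd δ j : ℝ)) * Real.exp (dd δ j : ℝ) = Real.exp (-(dd δ j : ℝ)) := by
            rw [← Real.exp_add]
            congr 1
            ring
          rw [h9]

end Pool.Agent.Lib.MP_ec260d_ntB.IA
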