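import Mathlib
import Pool.Agent.Lib.MP_ec260d_ntB.ACn
import Pool.Agent.Lib.MP_ec260d_ntB.ADM
import Pool.Agent.Lib.MP_ec260d_ntB.AMv
import Pool.Agent.Lib.MP_ec260d_ntB.AQ0

/-!
# JOB AE1: `DD · MM - 1` to the right of the critical line (about 180 lines)

SETUP.  `l = log T`, `s = 1/2 + x + it`, `0 ≤ x ≤ 3`, `N = ⌊T^(199/200)⌋₊`.
`DM_eq` with `z = 0`, `α' = 0`: `DD T s MM δ T s = ∑_(n ≤ N) cn δ T 0 0 n n^(-s)`; the term `n = 1` is `1` (`cn_small`, `bn_one`).  `mv_l` with `a 1 = 0`, `a n = cn n^(-1/2-x)` (`n ≥ 2`):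
`∫⁻ ‖DD MM - 1‖² ≤ 8 T ∑_(2 ≤ n ≤ N) ‖cn‖² n^(-1-2x)`.
(a) `log n ≤ (96/100) l`: `cn = bn n 0`; if it is not `0`, by `Q0_bound` (third part) either `log n ≥ δ l`: `n^(-2x) ≤ e^(-2δ x l)`, and these `n` contribute `≤ e^(-2δxl) C₂ δ^(-A₁)`; or there is `j < J` with `ω_j(n) > d_j` and
`log n ≥ d_j δ e^(-(j+1)) l`: contribution `≤ ∑_j e^(-2 d_j δ e^(-(j+1)) x l) C₂ δ^(-A₁) e^(-d_j)`.
(b) `log n > (96/100) l`: `n^(-2x) ≤ e^(-(48/25) x l) ≤ e^(-x l)`, and `∑ ‖cn δ T 0 0 n‖²/n ≤ C(δ)` (`cn_bound` with `α = τ = α' = 0`, `c₁ = 0`).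
-/

namespace Pool.Agent.Lib.MP_ec260d_ntB.IA

open Complex Set Filter Topology MeasureTheory

/-- the coefficients of `DD MM - 1` on the line `1/2 + x` -/
private noncomputable def AE1_a (δ T x : ℝ) (n : ℕ) : ℂ :=
  if n = 1 then 0 else cn δ T 0 0 n * (n : ℂ) ^ (-((1 / 2 + x : ℝ) : ℂ))

private theorem AE1_norm {δ T x : ℝ} {n : ℕ} (hn : 1 ≤ n) :
    ‖AE1_a δ T x n‖ ^ 2 ≤ ‖cn δ T 0 0 n‖ ^ 2 / n * Real.exp (-(2 * x * Real.log n)) := by
  have hn0 : (0 : ℝ) < n := by exact_mod_cast hn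
  unfold AE1_a
  by_cases h1 : n = 1
  · rw [if_pos h1, norm_zero]
    have h0 : (0 : ℝ) ^ 2 = 0 := by norm_num
    rw [h0]
    positivity
  · rw [if_neg h1, norm_mul, mul_pow]
    have h2 : ‖(n : ℂ) ^ (-((1 / 2 + x : ℝ) : ℂ))‖ = Real.exp (-((1 / 2 + x) * Real.log n)) := by
      rw [← ofReal_neg, ← ofReal_natCast, Complex.norm_cpow_eq_rpow_re_of_pos hn0, ofReal_re,
        Real.rpow_def_of_pos hn0]
      congr 1
      ring
    have h3 : (Real.exp (-((1 / 2 + x) * Real.log n))) ^ 2 =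
        1 / n * Real.exp (-(2 * x * Real.log n)) := by
      have h4 : (1 : ℝ) / n = Real.exp (-Real.log n) := by
        rw [Real.exp_neg, Real.exp_log hn0, one_div]
      rw [h4, ← Real.exp_add, ← Real.exp_nat_mul]
      congr 1
      push_cast
      ring
    rw [h2, h3]
    apply le_of_eq
    ring

private theorem AE1_sum {δ T x t : ℝ} {N : ℕ} (hN : 1 ≤ N) (h1 : cn δ T 0 0 1 = 1) :
    ∑ n ∈ Finset.Icc 1 N, cn δ T 0 0 n * (n : ℂ) ^ (-(((1 / 2 + x : ℝ) : ℂ) + t * I)) - 1 =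
      ∑ n ∈ Finset.Icc 1 N, AE1_a δ T x n * (n : ℂ) ^ (-((t : ℂ) * I)) := by
  have h2 : ∀ n ∈ Finset.Icc 1 N, cn δ T 0 0 n * (n : ℂ) ^ (-(((1 / 2 + x : ℝ) : ℂ) + t * I)) =
      AE1_a δ T x n * (n : ℂ) ^ (-((t : ℂ) * I)) + if n = 1 then 1 else 0 := by
    intro n hn
    have hn1 : 1 ≤ n := (Finset.mem_Icc.1 hn).1
    have hn0 : (n : ℂ) ≠ 0 := by
      have : n ≠ 0 := by omega
      exact_mod_cast this
    unfold AE1_a
    by_cases h3 : n = 1
    · rw [if_pos h3, if_pos h3, h3, h1, Nat.cast_one, one_cpow, one_cpow, zero_mul, zero_add,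
        mul_one]
    · rw [if_neg h3, if_neg h3, add_zero, neg_add, cpow_add _ _ hn0, mul_assoc]
  rw [Finset.sum_congr rfl h2, Finset.sum_add_distrib, Finset.sum_ite_eq' (Finset.Icc 1 N) 1,
    if_pos (Finset.mem_Icc.2 ⟨le_rfl, hN⟩), add_sub_cancel_right]

theorem dm_one : ∃ A₁ C₂ δ₀ : ℝ, 0 < A₁ ∧ 0 < C₂ ∧ 0 < δ₀ ∧ δ₀ ≤ 1 ∧ ∀ δ : ℝ, 0 < δ → δ ≤ δ₀ → ∃ C T₀ : ℝ, 0 ≤ C ∧ 10000 ≤ T₀ ∧
    ∀ T : ℝ, T₀ ≤ T → ∀ x : ℝ, 0 ≤ x → x ≤ 3 →
    ∫⁻ t in Icc (T / 2) (3 * T), ENNReal.ofReal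
      (‖DD T (((1 / 2 + x : ℝ) : ℂ) + t * I) * MM δ T (((1 / 2 + x : ℝ) : ℂ) + t * I) - 1‖ ^ 2) ≤
      ENNReal.ofReal (T * (C₂ * δ ^ (-A₁) * (Real.exp (-(2 * δ * x * Real.log T)) +
        ∑ j ∈ Finset.range (JJ T), Real.exp (-(dd δ j : ℝ) -
          2 * (dd δ j : ℝ) * (δ * Real.exp (-((j : ℝ) + 1))) * x * Real.log T)) +
        C * Real.exp (-(x * Real.log T)))) := by
  obtain ⟨A₁, C₂, δa, hA₁, hC₂, hδa, hδa1, hQ⟩ := Q0_bound
  obtain ⟨δb, hδb, hδb1, hDM⟩ := DM_eq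
  obtain ⟨A, hcn⟩ := cn_bound
  obtain ⟨Tm, hTm, hmv⟩ := mv_l
  refine ⟨A₁, 8 * C₂, min δa δb, hA₁, by positivity, lt_min hδa hδb, (min_le_left _ _).trans hδa1,
    fun δ hδ hδ0 => ?_⟩
  have hQδ := hQ δ hδ (hδ0.trans (min_le_left _ _))
  obtain ⟨Tb, hTb, hDMδ⟩ := hDM δ hδ (hδ0.trans (min_le_right _ _))
  obtain ⟨C, hC, hcnδ⟩ := hcn δ 0 hδ (hδ0.trans ((min_le_left _ _).trans hδa1)) le_rfl
  refine ⟨8 * C, max 10000 (max Tb Tm), by positivity, le_max_left _ _, fun T hT x hx _ => ?_⟩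
  have hT1 : 10000 ≤ T := (le_max_left _ _).trans hT
  have hT2 : Tb ≤ T := ((le_max_left _ _).trans (le_max_right _ _)).trans hT
  have hT3 : Tm ≤ T := ((le_max_right _ _).trans (le_max_right _ _)).trans hT
  have hT0 : 0 < T := by linarith
  have hl : 0 < Real.log T := Real.log_pos (by linarith)
  obtain ⟨q1, q2, q3⟩ := hQδ T hT1
  have hDMT := hDMδ T hT2
  have hcnT := hcnδ T hT1 0 0 0 (by rw [abs_zero]) (by norm_num)
  have hz : ((0 : ℝ) : ℂ) + ((0 : ℝ) : ℂ) * I = 0 := by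
    rw [ofReal_zero, zero_mul, add_zero]
  rw [hz, abs_zero, add_zero, one_pow, mul_one, mul_one] at hcnT
  obtain ⟨N, hN⟩ : ∃ N : ℕ, N = ⌊T ^ (199 / 200 : ℝ)⌋₊ := ⟨_, rfl⟩
  have hTp1 : 1 ≤ T ^ (199 / 200 : ℝ) := Real.one_le_rpow (by linarith) (by norm_num)
  have hN1 : 1 ≤ N := by
    rw [hN]
    exact Nat.le_floor (by exact_mod_cast hTp1)
  have hNle : (N : ℝ) ≤ T ^ (199 / 200 : ℝ) := by
    rw [hN]
    exact Nat.floor_le (by linarith)
  have hTpT : T ^ (199 / 200 : ℝ) ≤ T := by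
    calc T ^ (199 / 200 : ℝ) ≤ T ^ (1 : ℝ) :=
          Real.rpow_le_rpow_of_exponent_le (by linarith) (by norm_num)
      _ = T := Real.rpow_one T
  have hNT : N ≤ ⌊T⌋₊ := Nat.le_floor (hNle.trans hTpT)
  have hsub : Finset.Icc 1 N ⊆ Finset.Icc 1 ⌊T⌋₊ := Finset.Icc_subset_Icc_right hNT
  have hc1 : cn δ T 0 0 1 = 1 := by
    rw [cn_small hδ (by linarith) le_rfl, bn_one]
    rw [Nat.cast_one, Real.log_one]
    positivity
  -- the integrand
  have hint : ∀ t : ℝ, DD T (((1 / 2 + x : ℝ) : ℂ) + t * I) *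
      MM δ T (((1 / 2 + x : ℝ) : ℂ) + t * I) - 1 =
      ∑ n ∈ Finset.Icc 1 N, AE1_a δ T x n * (n : ℂ) ^ (-((t : ℂ) * I)) := by
    intro t
    have h1 := hDMT (((1 / 2 + x : ℝ) : ℂ) + t * I) 0 0
    rw [ofReal_zero, zero_div, add_zero, ← hN] at h1
    rw [h1]
    exact AE1_sum hN1 hc1
  have h2 : ∫⁻ t in Icc (T / 2) (3 * T), ENNReal.ofReal
      (‖DD T (((1 / 2 + x : ℝ) : ℂ) + t * I) * MM δ T (((1 / 2 + x : ℝ) : ℂ) + t * I) - 1‖ ^ 2) ≤
      ENNReal.ofReal (8 * T * ∑ n ∈ Finset.Icc 1 N, ‖AE1_a δ T x n‖ ^ 2) := by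
    refine le_trans (le_of_eq ?_) (hmv T hT3 N (AE1_a δ T x) hNle)
    refine lintegral_congr fun t => ?_
    rw [hint t]
  refine h2.trans (ENNReal.ofReal_le_ofReal ?_)
  -- the bound of the terms
  have hterm : ∀ n ∈ Finset.Icc 1 N, ‖AE1_a δ T x n‖ ^ 2 ≤
      ‖bn δ T n 0‖ ^ 2 / n * Real.exp (-(2 * δ * x * Real.log T)) +
      (∑ j ∈ Finset.range (JJ T), (if dd δ j < (n.primeFactors ∩ Pr δ T j).card then
        ‖bn δ T n 0‖ ^ 2 / n else 0) *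
          Real.exp (-(2 * (dd δ j : ℝ) * (δ * Real.exp (-((j : ℝ) + 1))) * x * Real.log T))) +
      ‖cn δ T 0 0 n‖ ^ 2 / n * Real.exp (-(x * Real.log T)) := by
    intro n hn
    have hn1 : 1 ≤ n := (Finset.mem_Icc.1 hn).1
    have hnn : 0 ≤ ‖bn δ T n 0‖ ^ 2 / (n : ℝ) := by positivity
    have hcc : 0 ≤ ‖cn δ T 0 0 n‖ ^ 2 / (n : ℝ) := by positivity
    have p1 : 0 ≤ ‖bn δ T n 0‖ ^ 2 / n * Real.exp (-(2 * δ * x * Real.log T)) := by positivity
    have p2 : ∀ j ∈ Finset.range (JJ T), 0 ≤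
        (if dd δ j < (n.primeFactors ∩ Pr δ T j).card then ‖bn δ T n 0‖ ^ 2 / (n : ℝ) else 0) *
          Real.exp (-(2 * (dd δ j : ℝ) * (δ * Real.exp (-((j : ℝ) + 1))) * x * Real.log T)) := by
      intro j _
      refine mul_nonneg ?_ (Real.exp_pos _).le
      split_ifs
      · exact hnn
      · exact le_rfl
    have p2' := Finset.sum_nonneg p2
    have p3 : 0 ≤ ‖cn δ T 0 0 n‖ ^ 2 / n * Real.exp (-(x * Real.log T)) := by positivity
    by_cases h1 : n = 1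
    · have h3 : AE1_a δ T x n = 0 := if_pos h1
      rw [h3, norm_zero]
      have : (0 : ℝ) ^ 2 = 0 := by norm_num
      linarith
    · have h3 := AE1_norm (δ := δ) (T := T) (x := x) hn1
      rcases le_or_gt (Real.log n) (96 / 100 * Real.log T) with h4 | h4
      · have h5 : cn δ T 0 0 n = bn δ T n 0 := cn_small hδ (by linarith) hn1 h4
        by_cases h6 : bn δ T n 0 = 0
        · rw [h5, h6, norm_zero] at h3
          have h7 : (0 : ℝ) ^ 2 / n * Real.exp (-(2 * x * Real.log n)) = 0 := by norm_num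
          linarith
        · rcases q3 n (by omega) h6 with h7 | ⟨j, hj, hj1, hj2⟩
          · have h8 : ‖bn δ T n 0‖ ^ 2 / n * Real.exp (-(2 * x * Real.log n)) ≤
                ‖bn δ T n 0‖ ^ 2 / n * Real.exp (-(2 * δ * x * Real.log T)) := by
              refine mul_le_mul_of_nonneg_left (Real.exp_le_exp.2 ?_) hnn
              nlinarith [mul_le_mul_of_nonneg_left h7 hx]
            rw [h5] at h3 p3 ⊢
            linarith
          · have h8 : ‖bn δ T n 0‖ ^ 2 / n * Real.exp (-(2 * x * Real.log n)) ≤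
                (if dd δ j < (n.primeFactors ∩ Pr δ T j).card then ‖bn δ T n 0‖ ^ 2 / (n : ℝ)
                  else 0) * Real.exp (-(2 * (dd δ j : ℝ) * (δ * Real.exp (-((j : ℝ) + 1))) *
                    x * Real.log T)) := by
              rw [if_pos hj1]
              refine mul_le_mul_of_nonneg_left (Real.exp_le_exp.2 ?_) hnn
              nlinarith [mul_le_mul_of_nonneg_left hj2 hx]
            have h9 := Finset.single_le_sum p2 hj
            rw [h5] at h3 p3 ⊢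
            linarith
      · have h8 : ‖cn δ T 0 0 n‖ ^ 2 / n * Real.exp (-(2 * x * Real.log n)) ≤
            ‖cn δ T 0 0 n‖ ^ 2 / n * Real.exp (-(x * Real.log T)) := by
          refine mul_le_mul_of_nonneg_left (Real.exp_le_exp.2 ?_) hcc
          have h9 : Real.log T ≤ 2 * Real.log n := by linarith
          nlinarith [mul_le_mul_of_nonneg_left h9 hx]
        linarith
  have hsum : ∑ n ∈ Finset.Icc 1 N, ‖AE1_a δ T x n‖ ^ 2 ≤
      C₂ * δ ^ (-A₁) * Real.exp (-(2 * δ * x * Real.log T)) +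
      (∑ j ∈ Finset.range (JJ T), C₂ * δ ^ (-A₁) * Real.exp (-(dd δ j : ℝ)) *
        Real.exp (-(2 * (dd δ j : ℝ) * (δ * Real.exp (-((j : ℝ) + 1))) * x * Real.log T))) +
      C * Real.exp (-(x * Real.log T)) := by
    refine (Finset.sum_le_sum hterm).trans ?_
    rw [Finset.sum_add_distrib, Finset.sum_add_distrib]
    refine add_le_add (add_le_add ?_ ?_) ?_
    · rw [← Finset.sum_mul]
      refine mul_le_mul_of_nonneg_right ?_ (Real.exp_pos _).le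
      refine le_trans (Finset.sum_le_sum_of_subset_of_nonneg hsub fun n _ _ => ?_) q1
      positivity
    · rw [Finset.sum_comm]
      refine Finset.sum_le_sum fun j hj => ?_
      rw [← Finset.sum_mul]
      refine mul_le_mul_of_nonneg_right ?_ (Real.exp_pos _).le
      rw [← Finset.sum_filter]
      refine le_trans (Finset.sum_le_sum_of_subset_of_nonneg
        (Finset.filter_subset_filter _ hsub) fun n _ _ => ?_) (q2 j hj)
      positivity
    · rw [← Finset.sum_mul]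
      refine mul_le_mul_of_nonneg_right ?_ (Real.exp_pos _).le
      refine le_trans (Finset.sum_le_sum_of_subset_of_nonneg hsub fun n _ _ => ?_) hcnT
      positivity
  have he : ∀ j, C₂ * δ ^ (-A₁) * Real.exp (-(dd δ j : ℝ)) *
      Real.exp (-(2 * (dd δ j : ℝ) * (δ * Real.exp (-((j : ℝ) + 1))) * x * Real.log T)) =
      C₂ * δ ^ (-A₁) * Real.exp (-(dd δ j : ℝ) -
        2 * (dd δ j : ℝ) * (δ * Real.exp (-((j : ℝ) + 1))) * x * Real.log T) := by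
    intro j
    rw [mul_assoc, ← Real.exp_add, ← sub_eq_add_neg]
  rw [Finset.sum_congr rfl fun j _ => he j, ← Finset.mul_sum] at hsum
  calc 8 * T * ∑ n ∈ Finset.Icc 1 N, ‖AE1_a δ T x n‖ ^ 2
      ≤ 8 * T * (C₂ * δ ^ (-A₁) * Real.exp (-(2 * δ * x * Real.log T)) +
        C₂ * δ ^ (-A₁) * (∑ j ∈ Finset.range (JJ T), Real.exp (-(dd δ j : ℝ) -
          2 * (dd δ j : ℝ) * (δ * Real.exp (-((j : ℝ) + 1))) * x * Real.log T)) +
        C * Real.exp (-(x * Real.log T))) := mul_le_mul_of_nonneg_left hsum (by positivity)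
    _ = _ := by ring

end Pool.Agent.Lib.MP_ec260d_ntB.IA
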