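import Mathlib
import Pool.Agent.Lib.MP_ec260d_ntB.ADM
import Pool.Agent.Lib.MP_ec260d_ntB.ACn
import Pool.Agent.Lib.MP_ec260d_ntB.AMv

/-!
# JOB ADB: mean square of `DD · MM` (about 100 lines)

PROOF.  `zp T α τ t = s + z/l` with `s = 1/2 + it`, `z = α + iτ`, `zp T α' 0 t = s + α'/l`.  `DM_eq`: the product is `∑_(n ≤ N) cn n^(-1/2) n^(-it)`, `N = ⌊T^(199/200)⌋₊`.  `mv_l` with `a n = cn n^(-1/2)`,
`‖a n‖² = ‖cn‖²/n`, and `cn_bound` (`N ≤ T`).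
-/

namespace Pool.Agent.Lib.MP_ec260d_ntB.IA

open Complex Set Filter Topology MeasureTheory

private theorem adb_norm {n : ℕ} (hn : 1 ≤ n) (c : ℂ) :
    ‖c * (n : ℂ) ^ (-(1 / 2) : ℂ)‖ ^ 2 = ‖c‖ ^ 2 / n := by
  have hn0 : (0 : ℝ) < n := by exact_mod_cast hn
  have h1 : ‖(n : ℂ) ^ (-(1 / 2) : ℂ)‖ = (n : ℝ) ^ (-(1 / 2) : ℝ) := by
    rw [Complex.norm_natCast_cpow_of_pos hn]
    congr 1
    simp
  have h3 : ((n : ℝ) ^ (-(1 / 2) : ℝ)) ^ 2 = (n : ℝ)⁻¹ := by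
    rw [← Real.rpow_natCast, ← Real.rpow_mul hn0.le]
    have h2 : (-(1 / 2) : ℝ) * ((2 : ℕ) : ℝ) = -1 := by norm_num
    rw [h2, Real.rpow_neg_one]
  rw [norm_mul, mul_pow, h1, h3, div_eq_mul_inv]

theorem DM_bound : ∃ (A : ℕ) (δ₀ : ℝ), 0 < δ₀ ∧ δ₀ ≤ 1 ∧ ∀ δ c₁ : ℝ, 0 < δ → δ ≤ δ₀ → 0 ≤ c₁ → ∃ C T₀ : ℝ, 0 ≤ C ∧ 3 ≤ T₀ ∧
    ∀ T : ℝ, T₀ ≤ T → ∀ α τ α' : ℝ, |α| ≤ c₁ → -c₁ ≤ α' →
    ∫⁻ t in Icc (T / 2) (3 * T), ENNReal.ofReal (‖DD T (zp T α τ t) * MM δ T (zp T α' 0 t)‖ ^ 2) ≤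
      ENNReal.ofReal (C * T * (1 + |τ|) ^ A * (1 + |α'|) ^ A) := by
  obtain ⟨A, hcn⟩ := cn_bound
  obtain ⟨δ₀, h1, h2, hDM⟩ := DM_eq
  obtain ⟨T₁, hT1, hmv⟩ := mv_l
  refine ⟨A, δ₀, h1, h2, fun δ c₁ hδ hδ0 hc₁ => ?_⟩
  obtain ⟨T₂, hT2, hDM⟩ := hDM δ hδ hδ0
  obtain ⟨C, hC, hcn⟩ := hcn δ c₁ hδ (hδ0.trans h2) hc₁
  refine ⟨8 * C, max (max T₁ T₂) 10000, by positivity,
    le_trans (by norm_num) (le_max_right _ _), fun T hT α τ α' hα hα' => ?_⟩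
  have hTa : T₁ ≤ T := ((le_max_left _ _).trans (le_max_left _ _)).trans hT
  have hTb : T₂ ≤ T := ((le_max_right _ _).trans (le_max_left _ _)).trans hT
  have hTc : 10000 ≤ T := (le_max_right _ _).trans hT
  have hT0 : 0 < T := by linarith
  set N : ℕ := ⌊T ^ (199 / 200 : ℝ)⌋₊ with hN
  have hNT : (N : ℝ) ≤ T ^ (199 / 200 : ℝ) := Nat.floor_le (Real.rpow_nonneg hT0.le _)
  have hNF : N ≤ ⌊T⌋₊ := by
    refine Nat.floor_le_floor ?_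
    calc T ^ (199 / 200 : ℝ) ≤ T ^ (1 : ℝ) :=
          Real.rpow_le_rpow_of_exponent_le (by linarith) (by norm_num)
      _ = T := Real.rpow_one T
  have key : ∀ t : ℝ, DD T (zp T α τ t) * MM δ T (zp T α' 0 t) =
      ∑ n ∈ Finset.Icc 1 N, (cn δ T (α + τ * I) α' n * (n : ℂ) ^ (-(1 / 2) : ℂ)) *
        (n : ℂ) ^ (-((t : ℂ) * I)) := by
    intro t
    have e1 : zp T α τ t = (1 / 2 + t * I) + ((α : ℂ) + τ * I) / Real.log T := by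
      unfold zp
      ring
    have e2 : zp T α' 0 t = (1 / 2 + t * I) + (α' : ℂ) / Real.log T := by
      unfold zp
      rw [Complex.ofReal_zero, zero_mul, add_zero]
      ring
    rw [e1, e2, hDM T hTb]
    refine Finset.sum_congr rfl fun n hn => ?_
    have hn0 : (n : ℂ) ≠ 0 := by
      have := (Finset.mem_Icc.1 hn).1
      exact_mod_cast (by omega : n ≠ 0)
    rw [mul_assoc, ← Complex.cpow_add _ _ hn0]
    congr 2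
    ring
  have hle : ∫⁻ t in Icc (T / 2) (3 * T),
      ENNReal.ofReal (‖DD T (zp T α τ t) * MM δ T (zp T α' 0 t)‖ ^ 2) ≤
      ENNReal.ofReal (8 * T * ∑ n ∈ Finset.Icc 1 N,
        ‖cn δ T (α + τ * I) α' n * (n : ℂ) ^ (-(1 / 2) : ℂ)‖ ^ 2) := by
    simp only [key]
    exact hmv T hTa N _ hNT
  refine hle.trans (ENNReal.ofReal_le_ofReal ?_)
  have hsum : ∑ n ∈ Finset.Icc 1 N,
      ‖cn δ T (α + τ * I) α' n * (n : ℂ) ^ (-(1 / 2) : ℂ)‖ ^ 2 ≤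
      C * (1 + |τ|) ^ A * (1 + |α'|) ^ A := by
    refine le_trans (le_of_eq (Finset.sum_congr rfl fun n hn =>
      adb_norm (Finset.mem_Icc.1 hn).1 _)) ?_
    refine le_trans ?_ (hcn T hTc α τ α' hα hα')
    refine Finset.sum_le_sum_of_subset_of_nonneg (Finset.Icc_subset_Icc_right hNF)
      fun n _ _ => by positivity
  calc 8 * T * ∑ n ∈ Finset.Icc 1 N,
        ‖cn δ T (α + τ * I) α' n * (n : ℂ) ^ (-(1 / 2) : ℂ)‖ ^ 2 ≤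
        8 * T * (C * (1 + |τ|) ^ A * (1 + |α'|) ^ A) :=
        mul_le_mul_of_nonneg_left hsum (by positivity)
    _ = 8 * C * T * (1 + |τ|) ^ A * (1 + |α'|) ^ A := by ring

end Pool.Agent.Lib.MP_ec260d_ntB.IA
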