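import Mathlib

/-!
# JOB ACs: Cauchy-Schwarz and Tonelli (about 80 lines)

PROOF.  For fixed `t`: `‖∫ k ξ g(ξ,t) dξ‖ ≤ ∫ ‖k ξ‖ ‖g(ξ,t)‖ dξ` in `ENNReal` (`enorm_integral_le_lintegral_enorm`), and by Cauchy-Schwarz for lintegrals (`ENNReal.lintegral_mul_le_Lp_mul_Lq` with `p = q = 2`, functions
`‖k‖^(1/2)` and `‖k‖^(1/2) ‖g‖`; or the real `(∫ f g)² ≤ ∫ f² ∫ g²`): `‖∫ k g‖² ≤ (∫⁻ ‖k‖) ∫⁻ ‖k ξ‖ ‖g(ξ,t)‖² dξ`.  Multiply by `‖m t‖²`, integrate over `S` and exchange (`lintegral_lintegral_swap`; everything is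
continuous, hence measurable).
-/

namespace Pool.Agent.Lib.MP_ec260d_ntB.IA

open Complex Set Filter Topology MeasureTheory

private theorem acs_cs {f h : ℝ → ENNReal} (hf : Measurable f) (hh : Measurable h) :
    (∫⁻ x, f x * h x) ^ 2 ≤ (∫⁻ x, f x ^ 2) * ∫⁻ x, h x ^ 2 := by
  have h1 := ENNReal.lintegral_mul_le_Lp_mul_Lq (volume : Measure ℝ) Real.HolderConjugate.two_two
    hf.aemeasurable hh.aemeasurable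
  have e : ∀ a : ENNReal, (a ^ ((1 : ℝ) / 2)) ^ 2 = a := by
    intro a
    rw [← ENNReal.rpow_natCast, ← ENNReal.rpow_mul]
    norm_num
  simp only [ENNReal.rpow_two, Pi.mul_apply] at h1
  calc (∫⁻ x, f x * h x) ^ 2 ≤
      ((∫⁻ x, f x ^ 2) ^ ((1 : ℝ) / 2) * (∫⁻ x, h x ^ 2) ^ ((1 : ℝ) / 2)) ^ 2 := by
        gcongr
    _ = (∫⁻ x, f x ^ 2) * ∫⁻ x, h x ^ 2 := by rw [mul_pow, e, e]

private theorem acs_point (k : ℝ → ℂ) (hk : Continuous k) (g : ℝ → ℂ) (hg : Continuous g) :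
    ‖∫ ξ : ℝ, k ξ * g ξ‖ₑ ^ 2 ≤ (∫⁻ ξ : ℝ, ‖k ξ‖ₑ) * ∫⁻ ξ : ℝ, ‖k ξ‖ₑ * ‖g ξ‖ₑ ^ 2 := by
  have hs : ∀ ξ : ℝ, ENNReal.ofReal (Real.sqrt ‖k ξ‖) * ENNReal.ofReal (Real.sqrt ‖k ξ‖) =
      ‖k ξ‖ₑ := by
    intro ξ
    rw [← ENNReal.ofReal_mul (Real.sqrt_nonneg _), Real.mul_self_sqrt (norm_nonneg _), ofReal_norm]
  have hm1 : Measurable (fun ξ : ℝ => ENNReal.ofReal (Real.sqrt ‖k ξ‖)) :=
    ENNReal.measurable_ofReal.comp (Real.continuous_sqrt.comp hk.norm).measurable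
  have hm2 : Measurable (fun ξ : ℝ => ENNReal.ofReal (Real.sqrt ‖k ξ‖) * ‖g ξ‖ₑ) :=
    hm1.mul hg.measurable.enorm
  calc ‖∫ ξ : ℝ, k ξ * g ξ‖ₑ ^ 2 ≤ (∫⁻ ξ : ℝ, ‖k ξ * g ξ‖ₑ) ^ 2 := by
        gcongr
        exact enorm_integral_le_lintegral_enorm _
    _ = (∫⁻ ξ : ℝ, ENNReal.ofReal (Real.sqrt ‖k ξ‖) *
          (ENNReal.ofReal (Real.sqrt ‖k ξ‖) * ‖g ξ‖ₑ)) ^ 2 := by
        congr 1
        refine lintegral_congr (fun ξ => ?_)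
        rw [enorm_mul, ← mul_assoc, hs]
    _ ≤ (∫⁻ ξ : ℝ, ENNReal.ofReal (Real.sqrt ‖k ξ‖) ^ 2) *
          ∫⁻ ξ : ℝ, (ENNReal.ofReal (Real.sqrt ‖k ξ‖) * ‖g ξ‖ₑ) ^ 2 := acs_cs hm1 hm2
    _ = (∫⁻ ξ : ℝ, ‖k ξ‖ₑ) * ∫⁻ ξ : ℝ, ‖k ξ‖ₑ * ‖g ξ‖ₑ ^ 2 := by
        congr 1
        · refine lintegral_congr (fun ξ => ?_)
          rw [sq, hs]
        · refine lintegral_congr (fun ξ => ?_)
          rw [mul_pow, sq (ENNReal.ofReal _), hs]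

theorem cs_tonelli (k : ℝ → ℂ) (hk : Continuous k) (g : ℝ → ℝ → ℂ) (hg : Continuous (Function.uncurry g)) (m : ℝ → ℂ) (hm : Continuous m)
    (S : Set ℝ) (hS : MeasurableSet S) :
    ∫⁻ t in S, ENNReal.ofReal (‖(∫ ξ : ℝ, k ξ * g ξ t) * m t‖ ^ 2) ≤
      (∫⁻ ξ : ℝ, ENNReal.ofReal ‖k ξ‖) *
        ∫⁻ ξ : ℝ, ENNReal.ofReal ‖k ξ‖ * ∫⁻ t in S, ENNReal.ofReal (‖g ξ t * m t‖ ^ 2) := by
  have e0 : ∀ z : ℂ, ENNReal.ofReal (‖z‖ ^ 2) = ‖z‖ₑ ^ 2 := by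
    intro z
    rw [ENNReal.ofReal_pow (norm_nonneg z), ofReal_norm]
  simp only [e0, ofReal_norm, enorm_mul, mul_pow]
  have hg1 : ∀ t : ℝ, Continuous (fun ξ => g ξ t) := fun t =>
    hg.comp (continuous_id.prodMk continuous_const)
  have hg2 : ∀ ξ : ℝ, Continuous (fun t => g ξ t) := fun ξ =>
    hg.comp (continuous_const.prodMk continuous_id)
  have hF : Measurable (Function.uncurry fun t ξ : ℝ => ‖k ξ‖ₑ * (‖g ξ t‖ₑ ^ 2 * ‖m t‖ₑ ^ 2)) := by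
    have h1 : Measurable (fun x : ℝ × ℝ => ‖k x.2‖ₑ) := (hk.comp continuous_snd).measurable.enorm
    have h2 : Measurable (fun x : ℝ × ℝ => ‖g x.2 x.1‖ₑ) :=
      (hg.comp (continuous_snd.prodMk continuous_fst)).measurable.enorm
    have h3 : Measurable (fun x : ℝ × ℝ => ‖m x.1‖ₑ) := (hm.comp continuous_fst).measurable.enorm
    exact h1.mul ((h2.pow_const 2).mul (h3.pow_const 2))
  calc ∫⁻ t in S, ‖∫ ξ : ℝ, k ξ * g ξ t‖ₑ ^ 2 * ‖m t‖ₑ ^ 2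
      ≤ ∫⁻ t in S, (∫⁻ ξ : ℝ, ‖k ξ‖ₑ) * ∫⁻ ξ : ℝ, ‖k ξ‖ₑ * (‖g ξ t‖ₑ ^ 2 * ‖m t‖ₑ ^ 2) := by
        refine lintegral_mono (fun t => ?_)
        have h1 := acs_point k hk (fun ξ => g ξ t) (hg1 t)
        calc ‖∫ ξ : ℝ, k ξ * g ξ t‖ₑ ^ 2 * ‖m t‖ₑ ^ 2
            ≤ ((∫⁻ ξ : ℝ, ‖k ξ‖ₑ) * ∫⁻ ξ : ℝ, ‖k ξ‖ₑ * ‖g ξ t‖ₑ ^ 2) * ‖m t‖ₑ ^ 2 := by
              gcongr
          _ = (∫⁻ ξ : ℝ, ‖k ξ‖ₑ) * ∫⁻ ξ : ℝ, ‖k ξ‖ₑ * (‖g ξ t‖ₑ ^ 2 * ‖m t‖ₑ ^ 2) := by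
              rw [mul_assoc]
              congr 1
              have hq : Measurable (fun ξ : ℝ => ‖k ξ‖ₑ * ‖g ξ t‖ₑ ^ 2) :=
                hk.measurable.enorm.mul ((hg1 t).measurable.enorm.pow_const 2)
              rw [← lintegral_mul_const _ hq]
              refine lintegral_congr (fun ξ => ?_)
              rw [mul_assoc]
    _ = (∫⁻ ξ : ℝ, ‖k ξ‖ₑ) *
          ∫⁻ t in S, ∫⁻ ξ : ℝ, ‖k ξ‖ₑ * (‖g ξ t‖ₑ ^ 2 * ‖m t‖ₑ ^ 2) := by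
        rw [lintegral_const_mul _ hF.lintegral_prod_right]
    _ = (∫⁻ ξ : ℝ, ‖k ξ‖ₑ) *
          ∫⁻ ξ : ℝ, ‖k ξ‖ₑ * ∫⁻ t in S, ‖g ξ t‖ₑ ^ 2 * ‖m t‖ₑ ^ 2 := by
        rw [lintegral_lintegral_swap hF.aemeasurable]
        congr 1
        refine lintegral_congr (fun ξ => ?_)
        have hq : Measurable (fun t : ℝ => ‖g ξ t‖ₑ ^ 2 * ‖m t‖ₑ ^ 2) :=
          ((hg2 ξ).measurable.enorm.pow_const 2).mul (hm.measurable.enorm.pow_const 2)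
        rw [lintegral_const_mul _ hq]

end Pool.Agent.Lib.MP_ec260d_ntB.IA
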