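import Mathlib
import Pool.Agent.Lib.MP_ec260d_ntB.ACut

/-!
# JOB ALap: Laplace transforms of smooth functions with compact support (about 150 lines)

PROOF of `lap_decay`.  Let `L_φ(v) = ∫ φ(x) e^(v x) dx`, `φ` smooth with support in `[a, b]`.  `‖L_φ(v)‖ ≤ ∫ |φ| · sup_(x ∈ [a,b]) e^(x Re v) ≤ C max (e^(a Re v)) (e^(b Re v))`.  Integration by parts (no boundary terms):
`L_φ'(v) = -v L_φ(v)` (`integral_mul_deriv_eq_deriv_mul` or `integral_deriv_mul...`/`MeasureTheory.integral_eq_zero_of_hasDerivAt_of_integrable` applied to `φ(x) e^(vx)`).  `φ'` is smooth with support in `[a,b]`.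
Induction on `r`: `‖v‖^r ‖L_φ(v)‖ = ‖v‖^(r-1) ‖L_φ'(v)‖ ≤ C_(r-1)(φ') max(...)`.
`dTh`: `Th` is constant outside `[96/100, 99/100]`, so `deriv Th` is smooth (`contDiff_succ_iff_deriv` or `ContDiff.deriv'`-type lemmas) with support in that interval (closed, by continuity at the end points).
-/

namespace Pool.Agent.Lib.MP_ec260d_ntB.IA

open Complex Set Filter Topology MeasureTheory

private theorem ALap_der {a b : ℝ} {φ : ℝ → ℝ} (h : ∀ n : ℕ∞, ContDiff ℝ n φ) : ∀ n : ℕ∞, ContDiff ℝ n (deriv φ) := by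
  intro n
  have h1 : ContDiff ℝ ((⊤ : ℕ∞) : WithTop ℕ∞) φ := h ⊤
  have h2 := (contDiff_infty_iff_deriv.1 h1).2
  exact h2.of_le (by exact_mod_cast le_top)

private theorem ALap_sup {a b : ℝ} {φ : ℝ → ℝ} (h : ∀ x, x ∉ Icc a b → φ x = 0) : ∀ x, x ∉ Icc a b → deriv φ x = 0 := by
  intro x hx
  have h1 : φ =ᶠ[𝓝 x] fun _ => (0 : ℝ) := by
    filter_upwards [isClosed_Icc.isOpen_compl.mem_nhds hx] with y hy
    exact h y hy
  rw [h1.deriv_eq, deriv_const]

private theorem ALap_int {a b : ℝ} {g : ℝ → ℂ} (hg : Continuous g) (h : ∀ x, x ∉ Icc a b → g x = 0) : Integrable g :=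
  hg.integrable_of_hasCompactSupport (HasCompactSupport.intro isCompact_Icc h)

private theorem ALap_zero (a b : ℝ) (φ : ℝ → ℝ) (hc : Continuous φ) (hs : ∀ x, x ∉ Icc a b → φ x = 0) (v : ℂ) :
    ‖∫ x : ℝ, (φ x : ℂ) * cexp (v * x)‖ ≤ (∫ x : ℝ, |φ x|) * max (Real.exp (a * v.re)) (Real.exp (b * v.re)) := by
  rw [← integral_mul_const]
  have hi : Integrable fun x : ℝ => |φ x| * max (Real.exp (a * v.re)) (Real.exp (b * v.re)) := by
    refine Integrable.mul_const ?_ _
    exact hc.abs.integrable_of_hasCompactSupport (HasCompactSupport.intro isCompact_Icc fun x hx => by rw [hs x hx, abs_zero])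
  refine norm_integral_le_of_norm_le hi (Filter.Eventually.of_forall fun x => ?_)
  rw [norm_mul, Complex.norm_real, Real.norm_eq_abs, Complex.norm_exp]
  by_cases hx : x ∈ Icc a b
  · refine mul_le_mul_of_nonneg_left ?_ (abs_nonneg _)
    have e : (v * (x : ℂ)).re = x * v.re := by
      rw [mul_comm, Complex.re_ofReal_mul]
    rw [e]
    rcases le_total 0 v.re with h | h
    · exact le_max_of_le_right (Real.exp_le_exp.2 (mul_le_mul_of_nonneg_right hx.2 h))
    · exact le_max_of_le_left (Real.exp_le_exp.2 (mul_le_mul_of_nonpos_right hx.1 h))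
  · rw [hs x hx, abs_zero, zero_mul, zero_mul]

private theorem ALap_parts (a b : ℝ) (φ : ℝ → ℝ) (h : ∀ n : ℕ∞, ContDiff ℝ n φ) (hs : ∀ x, x ∉ Icc a b → φ x = 0) (v : ℂ) :
    v * (∫ x : ℝ, (φ x : ℂ) * cexp (v * x)) = -∫ x : ℝ, ((deriv φ x : ℝ) : ℂ) * cexp (v * x) := by
  have h1 : ContDiff ℝ ((⊤ : ℕ∞) : WithTop ℕ∞) φ := h ⊤
  obtain ⟨hd, hd2⟩ := contDiff_infty_iff_deriv.1 h1
  have hc : Continuous φ := hd.continuous
  have hc' : Continuous (deriv φ) := hd2.continuous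
  have hexp : Continuous fun x : ℝ => cexp (v * x) := by fun_prop
  have c1 : Continuous fun x : ℝ => (φ x : ℂ) * cexp (v * x) := (Complex.continuous_ofReal.comp hc).mul hexp
  have c2 : Continuous fun x : ℝ => ((deriv φ x : ℝ) : ℂ) * cexp (v * x) := (Complex.continuous_ofReal.comp hc').mul hexp
  have i1 : Integrable fun x : ℝ => (φ x : ℂ) * cexp (v * x) :=
    ALap_int (a := a) (b := b) c1 fun x hx => by rw [hs x hx, Complex.ofReal_zero, zero_mul]
  have i2 : Integrable fun x : ℝ => ((deriv φ x : ℝ) : ℂ) * cexp (v * x) :=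
    ALap_int (a := a) (b := b) c2 fun x hx => by rw [ALap_sup hs x hx, Complex.ofReal_zero, zero_mul]
  have hder : ∀ x : ℝ, HasDerivAt (fun x : ℝ => (φ x : ℂ) * cexp (v * x))
      (((deriv φ x : ℝ) : ℂ) * cexp (v * x) + v * ((φ x : ℂ) * cexp (v * x))) x := by
    intro x
    have h2 : HasDerivAt (fun x : ℝ => (φ x : ℂ)) ((deriv φ x : ℝ) : ℂ) x := (hd x).hasDerivAt.ofReal_comp
    have h3 : HasDerivAt (fun x : ℝ => v * (x : ℂ)) v x := by
      have h4 := (Complex.ofRealCLM.hasDerivAt (x := x)).const_mul v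
      simpa using h4
    have h5 := h2.mul h3.cexp
    refine h5.congr_deriv ?_
    ring
  have h0 := integral_eq_zero_of_hasDerivAt_of_integrable hder (i2.add (i1.const_mul v)) i1
  rw [integral_add i2 (i1.const_mul v), integral_const_mul] at h0
  linear_combination h0

theorem lap_decay (a b : ℝ) (hab : a ≤ b) (r : ℕ) : ∀ φ : ℝ → ℝ, (∀ n : ℕ∞, ContDiff ℝ n φ) → (∀ x, x ∉ Icc a b → φ x = 0) →
    ∃ C : ℝ, 0 < C ∧ ∀ v : ℂ, ‖v‖ ^ r * ‖∫ x : ℝ, (φ x : ℂ) * cexp (v * x)‖ ≤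
      C * max (Real.exp (a * v.re)) (Real.exp (b * v.re)) := by
  induction r with
  | zero =>
    intro φ h hs
    have hI : 0 ≤ ∫ x : ℝ, |φ x| := integral_nonneg fun x => abs_nonneg _
    refine ⟨(∫ x : ℝ, |φ x|) + 1, by linarith, fun v => ?_⟩
    rw [pow_zero, one_mul]
    refine (ALap_zero a b φ (h 0).continuous hs v).trans ?_
    refine mul_le_mul_of_nonneg_right (by linarith) ?_
    exact le_max_of_le_left (Real.exp_pos _).le
  | succ r ih =>
    intro φ h hs
    obtain ⟨C, hC, hb⟩ := ih (deriv φ) (ALap_der (a := a) (b := b) h) (ALap_sup hs)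
    refine ⟨C, hC, fun v => ?_⟩
    rw [pow_succ, mul_assoc, ← norm_mul, ALap_parts a b φ h hs v, norm_neg]
    exact hb v

theorem dTh_smooth : ∀ n : ℕ∞, ContDiff ℝ n (deriv Th) := ALap_der (a := 0) (b := 0) Th_smooth

theorem dTh_supp (x : ℝ) (hx : x ∉ Icc (96 / 100 : ℝ) (99 / 100)) : deriv Th x = 0 := by
  rw [Set.mem_Icc, not_and_or, not_le, not_le] at hx
  rcases hx with h | h
  · have h1 : Th =ᶠ[𝓝 x] fun _ => (1 : ℝ) := by
      filter_upwards [Iio_mem_nhds h] with y hy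
      exact Th_one y (le_of_lt hy)
    rw [h1.deriv_eq, deriv_const]
  · have h1 : Th =ᶠ[𝓝 x] fun _ => (0 : ℝ) := by
      filter_upwards [Ioi_mem_nhds h] with y hy
      exact Th_zero y (le_of_lt hy)
    rw [h1.deriv_eq, deriv_const]

end Pool.Agent.Lib.MP_ec260d_ntB.IA
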