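import Mathlib
import Pool.Agent.Lib.MP_ec260d_ntB.ALap

/-!
# JOB AKer: the kernel `kk` and the remainder `RR` (about 220 lines)

Let `c ≥ 1`, `v = c + 2 π i ξ`, `‖v‖ ≥ 1` and `‖v‖ ≥ (1 + |ξ|)/2`.
* `kk_ibp`: `kk c ξ = -(1/v) ∫ Th'(x) e^(-v x) dx`: the function `(1 - Th x) e^(-v x)` vanishes for `x ≤ 96/100` and decays exponentially at `+∞`; integrate its derivative
  `-Th' e^(-vx) - v (1 - Th) e^(-vx)` over `ℝ` (`integral_of_hasDerivAt_of_tendsto`).
* `kk_bound`: `kk_ibp` and `lap_decay` for `φ = Th'`, `a = 96/100`, `b = 99/100`, argument `-v` (`Re (-v) = -c < 0`, the maximum is `e^(-0.96 c)`), exponent `r + 1`; `‖v‖^(-(r+1)) ≤ 2^(r+1)(1+|ξ|)^(-r)`... (`1/‖v‖ ≤ 1`).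
  NOTE `24/25 = 96/100`.
* `kk_cont`: dominated convergence in the formula `kk_ibp` (compact support), or `kk c ξ` is the Fourier transform of the integrable function `g(x) = (1 - Th x) e^(-c x)`.
* `kk_inv`: `g(x) = (1 - Th x) e^(-cx)` is continuous and integrable, its Fourier transform `ξ ↦ ∫ g(x) e^(-2πiξx) dx = kk c ξ` is integrable (`kk_bound` with `r = 2`), so
  `g(x) = ∫ kk c ξ e^(2πiξx) dξ` for every `x` (`MeasureTheory.Integrable.fourierInv_fourier_eq`, `Real.fourierInv_eq'`, `Real.fourier_eq'`); multiply by `e^(cx)`.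
* `RR_bound`: `s ≠ 1`, `l = log T ≥ 1`: `RR T s = (1/(1-s)) ∫ Th'(u) e^(v u) du` with `v = l (1-s)`; `lap_decay`: `‖v‖^r ‖∫‖ ≤ C max (e^(0.96 Re v)) (e^(0.99 Re v)) ≤ C e^(max 0 (Re v)) = C T^(max 0 (1 - Re s))`.
-/

namespace Pool.Agent.Lib.MP_ec260d_ntB.IA

open Complex Set Filter Topology MeasureTheory

private theorem akera_th : Continuous Th := by
  have h := Th_smooth 0
  exact h.continuous

private theorem akera_dth : Continuous (deriv Th) := by
  have h := dTh_smooth 0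
  exact h.continuous

/-- `(1 - Th x) exp (-c x)` is integrable -/
private theorem akera_int {c : ℝ} (hc : 1 ≤ c) :
    Integrable (fun x : ℝ => (1 - Th x) * Real.exp (-c * x)) := by
  have hcont : Continuous (fun x : ℝ => (1 - Th x) * Real.exp (-c * x)) :=
    (continuous_const.sub akera_th).mul (by fun_prop)
  have h1 : IntegrableOn (fun x : ℝ => (1 - Th x) * Real.exp (-c * x)) (Ioi 0) := by
    refine Integrable.mono' (exp_neg_integrableOn_Ioi 0 (by linarith : 0 < c))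
      hcont.aestronglyMeasurable.restrict ?_
    refine Filter.Eventually.of_forall fun x => ?_
    rw [norm_mul, Real.norm_eq_abs, Real.norm_eq_abs, abs_of_pos (Real.exp_pos _)]
    have h2 := Th_mem x
    have h3 : |1 - Th x| ≤ 1 := by
      rw [abs_le]
      constructor <;> linarith [h2.1, h2.2]
    exact mul_le_of_le_one_left (Real.exp_pos _).le h3
  rw [← integrableOn_univ]
  refine IntegrableOn.of_forall_sdiff_eq_zero h1 MeasurableSet.univ ?_
  rintro x ⟨_, hx⟩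
  rw [Th_one x (by
    rw [Set.mem_Ioi, not_lt] at hx
    linarith), sub_self, zero_mul]

private theorem akera_norm (c ξ x : ℝ) :
    ‖((1 - Th x : ℝ) : ℂ) * cexp (-(((c : ℂ) + 2 * Real.pi * ξ * I) * x))‖ =
      (1 - Th x) * Real.exp (-c * x) := by
  have h2 := Th_mem x
  rw [norm_mul, Complex.norm_real, Real.norm_eq_abs, abs_of_nonneg (by linarith [h2.2]),
    Complex.norm_exp]
  congr 2
  simp

private theorem akera_intc {c : ℝ} (hc : 1 ≤ c) (ξ : ℝ) : Integrable (fun x : ℝ =>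
    ((1 - Th x : ℝ) : ℂ) * cexp (-(((c : ℂ) + 2 * Real.pi * ξ * I) * x))) := by
  refine (akera_int hc).mono' ?_ (Filter.Eventually.of_forall fun x => (akera_norm c ξ x).le)
  refine Continuous.aestronglyMeasurable ?_
  exact (Complex.continuous_ofReal.comp (continuous_const.sub akera_th)).mul (by fun_prop)

private theorem akera_intd (v : ℂ) : Integrable (fun x : ℝ => ((deriv Th x : ℝ) : ℂ) * cexp (v * x)) := by
  refine Continuous.integrable_of_hasCompactSupport ?_ ?_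
  · exact (Complex.continuous_ofReal.comp akera_dth).mul (by fun_prop)
  · refine HasCompactSupport.intro (isCompact_Icc (a := (96 / 100 : ℝ)) (b := 99 / 100)) fun x hx => ?_
    rw [dTh_supp x hx, Complex.ofReal_zero, zero_mul]

private theorem akera_ibp {c : ℝ} (hc : 1 ≤ c) (ξ : ℝ) :
    ((c : ℂ) + 2 * Real.pi * ξ * I) * kk c ξ =
      -∫ x : ℝ, ((deriv Th x : ℝ) : ℂ) * cexp (-((c : ℂ) + 2 * Real.pi * ξ * I) * x) := by
  set v : ℂ := (c : ℂ) + 2 * Real.pi * ξ * I with hv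
  have hvre : v.re = c := by simp [hv]
  have hdiff : Differentiable ℝ Th := (Th_smooth 1).differentiable (by norm_num)
  have hder : ∀ x : ℝ, HasDerivAt (fun x : ℝ => ((1 - Th x : ℝ) : ℂ) * cexp (-(v * x)))
      (-(((deriv Th x : ℝ) : ℂ) * cexp (-v * x)) + -(v * (((1 - Th x : ℝ) : ℂ) * cexp (-(v * x))))) x := by
    intro x
    have h1 : HasDerivAt (fun x : ℝ => ((1 - Th x : ℝ) : ℂ)) ((-(deriv Th x) : ℝ) : ℂ) x := by
      have h2 := ((hdiff x).hasDerivAt.const_sub 1).ofReal_comp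
      exact h2
    have h3 : HasDerivAt (fun x : ℝ => cexp (-(v * x))) (cexp (-(v * x)) * (-(v * 1))) x := by
      have h4 : HasDerivAt (fun x : ℝ => -(v * (x : ℂ))) (-(v * 1)) x :=
        ((Complex.ofRealCLM.hasDerivAt (x := x)).const_mul v).neg
      exact h4.cexp
    have h5 := h1.mul h3
    refine h5.congr_deriv ?_
    have h6 : cexp (-v * x) = cexp (-(v * x)) := by rw [neg_mul]
    rw [h6]
    push_cast
    ring
  have hint : Integrable (fun x : ℝ => -(((deriv Th x : ℝ) : ℂ) * cexp (-v * x)) +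
      -(v * (((1 - Th x : ℝ) : ℂ) * cexp (-(v * x))))) :=
    (akera_intd (-v)).neg.add ((akera_intc hc ξ).const_mul v).neg
  have hbot : Tendsto (fun x : ℝ => ((1 - Th x : ℝ) : ℂ) * cexp (-(v * x))) atBot (𝓝 0) := by
    refine tendsto_const_nhds.congr' ?_
    filter_upwards [eventually_le_atBot (0 : ℝ)] with x hx
    rw [Th_one x (by linarith), sub_self, Complex.ofReal_zero, zero_mul]
  have htop : Tendsto (fun x : ℝ => ((1 - Th x : ℝ) : ℂ) * cexp (-(v * x))) atTop (𝓝 0) := by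
    have h1 : Tendsto (fun x : ℝ => Real.exp (-(c * x))) atTop (𝓝 0) := by
      refine Real.tendsto_exp_neg_atTop_nhds_zero.comp ?_
      exact Tendsto.const_mul_atTop (by linarith) tendsto_id
    refine squeeze_zero_norm (fun x => ?_) h1
    have h2 := akera_norm c ξ x
    rw [← hv] at h2
    rw [h2]
    have h3 := Th_mem x
    have h4 : -c * x = -(c * x) := by ring
    rw [h4]
    exact mul_le_of_le_one_left (Real.exp_pos _).le (by linarith [h3.1])
  have h := integral_of_hasDerivAt_of_tendsto hder hint hbot htop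
  have i1 : Integrable (fun x : ℝ => -(((deriv Th x : ℝ) : ℂ) * cexp (-v * x))) := (akera_intd (-v)).neg
  have i2 : Integrable (fun x : ℝ => -(v * (((1 - Th x : ℝ) : ℂ) * cexp (-(v * x))))) :=
    ((akera_intc hc ξ).const_mul v).neg
  rw [integral_add i1 i2, integral_neg, integral_neg, integral_const_mul, sub_zero] at h
  have hk : kk c ξ = ∫ x : ℝ, ((1 - Th x : ℝ) : ℂ) * cexp (-(v * x)) := rfl
  rw [← hk] at h
  linear_combination -h

private theorem akera_v {c : ℝ} (hc : 1 ≤ c) (ξ : ℝ) :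
    1 ≤ ‖(c : ℂ) + 2 * Real.pi * ξ * I‖ ∧ 1 + |ξ| ≤ 2 * ‖(c : ℂ) + 2 * Real.pi * ξ * I‖ := by
  have h1 : ((c : ℂ) + 2 * Real.pi * ξ * I).re = c := by simp
  have h2 : ((c : ℂ) + 2 * Real.pi * ξ * I).im = 2 * Real.pi * ξ := by simp
  have h3 := Complex.abs_re_le_norm ((c : ℂ) + 2 * Real.pi * ξ * I)
  have h4 := Complex.abs_im_le_norm ((c : ℂ) + 2 * Real.pi * ξ * I)
  rw [h1, abs_of_pos (by linarith)] at h3
  rw [h2, abs_mul, abs_of_pos Real.two_pi_pos] at h4
  have h5 : |ξ| ≤ 2 * Real.pi * |ξ| := by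
    have := Real.pi_gt_three
    nlinarith [abs_nonneg ξ]
  constructor <;> linarith

private theorem akera_w (r : ℕ) (hr : 2 ≤ r) : Integrable (fun ξ : ℝ => 1 / (1 + |ξ|) ^ r) := by
  have h := integrable_one_add_norm (E := ℝ) (μ := volume) (r := r) (by
    rw [Module.finrank_self]
    have : (2 : ℝ) ≤ r := by exact_mod_cast hr
    push_cast
    linarith)
  refine h.congr (Filter.Eventually.of_forall fun ξ => ?_)
  show (1 + ‖ξ‖) ^ (-(r : ℝ)) = 1 / (1 + |ξ|) ^ r
  rw [Real.norm_eq_abs, Real.rpow_neg (by positivity), Real.rpow_natCast, one_div]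

theorem kk_bound (r : ℕ) : ∃ C : ℝ, 0 < C ∧ ∀ c ξ : ℝ, 1 ≤ c →
    ‖kk c ξ‖ ≤ C * Real.exp (-(24 / 25 * c)) / (1 + |ξ|) ^ r := by
  obtain ⟨C, hC, h⟩ := lap_decay (96 / 100) (99 / 100) (by norm_num) r (deriv Th) dTh_smooth dTh_supp
  refine ⟨C * 2 ^ r, by positivity, fun c ξ hc => ?_⟩
  obtain ⟨hv1, hv2⟩ := akera_v hc ξ
  set v : ℂ := (c : ℂ) + 2 * Real.pi * ξ * I with hv
  have hvre : v.re = c := by simp [hv]
  have h1 := h (-v)
  have h2 := akera_ibp hc ξ
  rw [← hv] at h2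
  have h3 : ‖v‖ * ‖kk c ξ‖ = ‖∫ x : ℝ, ((deriv Th x : ℝ) : ℂ) * cexp (-v * x)‖ := by
    rw [← norm_mul, h2, norm_neg]
  rw [norm_neg, ← h3, Complex.neg_re, hvre] at h1
  have h4 : max (Real.exp (96 / 100 * -c)) (Real.exp (99 / 100 * -c)) = Real.exp (-(24 / 25 * c)) := by
    rw [max_eq_left (Real.exp_le_exp.2 (by linarith))]
    congr 1
    ring
  rw [h4] at h1
  have h5 : (1 + |ξ|) ^ r ≤ 2 ^ r * ‖v‖ ^ r := by
    rw [← mul_pow]
    exact pow_le_pow_left₀ (by positivity) hv2 r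
  rw [le_div_iff₀ (by positivity)]
  have hk := norm_nonneg (kk c ξ)
  calc ‖kk c ξ‖ * (1 + |ξ|) ^ r ≤ ‖kk c ξ‖ * (2 ^ r * ‖v‖ ^ r) := mul_le_mul_of_nonneg_left h5 hk
    _ ≤ ‖kk c ξ‖ * (2 ^ r * ‖v‖ ^ r) * ‖v‖ := le_mul_of_one_le_right (by positivity) hv1
    _ = 2 ^ r * (‖v‖ ^ r * (‖v‖ * ‖kk c ξ‖)) := by ring
    _ ≤ 2 ^ r * (C * Real.exp (-(24 / 25 * c))) := mul_le_mul_of_nonneg_left h1 (by positivity)
    _ = C * 2 ^ r * Real.exp (-(24 / 25 * c)) := by ring

theorem kk_cont (c : ℝ) (hc : 1 ≤ c) : Continuous (kk c) := by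
  unfold kk
  refine continuous_of_dominated (bound := fun x : ℝ => (1 - Th x) * Real.exp (-c * x))
    (fun ξ => (akera_intc hc ξ).aestronglyMeasurable)
    (fun ξ => Filter.Eventually.of_forall fun x => (akera_norm c ξ x).le) (akera_int hc) ?_
  refine Filter.Eventually.of_forall fun x => ?_
  fun_prop

theorem kk_inv (c : ℝ) (hc : 1 ≤ c) (x : ℝ) :
    ∫ ξ : ℝ, kk c ξ * cexp (((c : ℂ) + 2 * Real.pi * ξ * I) * x) = ((1 - Th x : ℝ) : ℂ) := by
  obtain ⟨C, hC, hb⟩ := kk_bound 2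
  have hki : Integrable (kk c) := by
    refine Integrable.mono' ((akera_w 2 le_rfl).const_mul (C * Real.exp (-(24 / 25 * c))))
      (kk_cont c hc).aestronglyMeasurable (Filter.Eventually.of_forall fun ξ => ?_)
    refine (hb c ξ hc).trans (le_of_eq ?_)
    ring
  set g : ℝ → ℂ := fun x => ((1 - Th x : ℝ) : ℂ) * cexp (-((c : ℂ) * x)) with hg
  have hgc : Continuous g :=
    (Complex.continuous_ofReal.comp (continuous_const.sub akera_th)).mul (by fun_prop)
  have hgi : Integrable g := by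
    have h1 := akera_intc hc 0
    refine h1.congr (Filter.Eventually.of_forall fun x => ?_)
    simp only [hg, Complex.ofReal_zero, mul_zero, zero_mul, add_zero]
  have hF : FourierTransform.fourier g = kk c := by
    funext ξ
    rw [Real.fourier_eq']
    unfold kk
    refine integral_congr_ae (Filter.Eventually.of_forall fun y => ?_)
    simp only [hg, smul_eq_mul, RCLike.inner_apply, conj_trivial]
    have h1 : cexp (-(((c : ℂ) + 2 * Real.pi * ξ * I) * y)) =
        cexp (((-2 * Real.pi * (ξ * y) : ℝ) : ℂ) * I) * cexp (-((c : ℂ) * y)) := by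
      rw [← Complex.exp_add]
      congr 1
      push_cast
      ring
    rw [h1]
    ring
  have h2 := hgi.fourierInv_fourier_eq (by rw [hF]; exact hki) (v := x) hgc.continuousAt
  rw [hF, Real.fourierInv_eq'] at h2
  have h3 : ∫ ξ : ℝ, kk c ξ * cexp (((c : ℂ) + 2 * Real.pi * ξ * I) * x) =
      cexp ((c : ℂ) * x) * ∫ ξ : ℝ, cexp (((2 * Real.pi * inner ℝ ξ x : ℝ) : ℂ) * I) • kk c ξ := by
    rw [← integral_const_mul]
    refine integral_congr_ae (Filter.Eventually.of_forall fun ξ => ?_)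
    simp only [smul_eq_mul, RCLike.inner_apply, conj_trivial]
    have h4 : cexp (((c : ℂ) + 2 * Real.pi * ξ * I) * x) =
        cexp ((c : ℂ) * x) * cexp (((2 * Real.pi * (x * ξ) : ℝ) : ℂ) * I) := by
      rw [← Complex.exp_add]
      congr 1
      push_cast
      ring
    rw [h4]
    ring
  rw [h3, h2]
  simp only [hg]
  rw [mul_left_comm, ← Complex.exp_add]
  simp

theorem RR_bound (r : ℕ) : ∃ C : ℝ, 0 < C ∧ ∀ (T : ℝ) (s : ℂ), 3 ≤ T → s ≠ 1 →
    ‖RR T s‖ * (‖1 - s‖ * (Real.log T * ‖1 - s‖) ^ r) ≤ C * T ^ (max 0 (1 - s.re)) := by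
  obtain ⟨C, hC, h⟩ := lap_decay (96 / 100) (99 / 100) (by norm_num) r (deriv Th) dTh_smooth dTh_supp
  refine ⟨C, hC, fun T s hT hs => ?_⟩
  have hT0 : 0 < T := by linarith
  have hl : 0 < Real.log T := Real.log_pos (by linarith)
  have hn : 0 < ‖1 - s‖ := norm_pos_iff.2 (sub_ne_zero.2 hs.symm)
  have h1 := h ((Real.log T : ℂ) * (1 - s))
  have hv : ‖(Real.log T : ℂ) * (1 - s)‖ = Real.log T * ‖1 - s‖ := by
    rw [norm_mul, Complex.norm_real, Real.norm_eq_abs, abs_of_pos hl]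
  have hre : ((Real.log T : ℂ) * (1 - s)).re = Real.log T * (1 - s.re) := by
    rw [Complex.re_ofReal_mul, Complex.sub_re, Complex.one_re]
  rw [hv, hre] at h1
  have h2 : ‖RR T s‖ * (‖1 - s‖ * (Real.log T * ‖1 - s‖) ^ r) =
      (Real.log T * ‖1 - s‖) ^ r * ‖∫ x : ℝ, ((deriv Th x : ℝ) : ℂ) * cexp ((Real.log T : ℂ) * (1 - s) * x)‖ := by
    unfold RR
    rw [norm_mul, norm_div, norm_one]
    field_simp
  rw [h2]
  refine h1.trans (mul_le_mul_of_nonneg_left ?_ hC.le)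
  have h3 : T ^ (max 0 (1 - s.re)) = Real.exp (Real.log T * max 0 (1 - s.re)) := by
    rw [Real.rpow_def_of_pos hT0]
  rw [h3]
  have h4 : 0 ≤ Real.log T * max 0 (1 - s.re) := mul_nonneg hl.le (le_max_left _ _)
  have h5 : Real.log T * (1 - s.re) ≤ Real.log T * max 0 (1 - s.re) :=
    mul_le_mul_of_nonneg_left (le_max_right _ _) hl.le
  refine max_le (Real.exp_le_exp.2 ?_) (Real.exp_le_exp.2 ?_)
  · linarith
  · linarith

end Pool.Agent.Lib.MP_ec260d_ntB.IA
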