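import Mathlib
import Pool.Agent.Lib.MP_ec260d_ntA.GamB

/-!
# JOB AFe: the functional equation as an inequality (about 180 lines)

PROOF.  `s = 1/2 - x + iu`, `1 - s = 1/2 + x - iu`.  `completedRiemannZeta s = completedRiemannZeta (1 - s)` and `completedRiemannZeta = Gammaℝ · riemannZeta` (`riemannZeta_def_of_ne_zero`, `Gammaℝ ≠ 0` for `Re > 0`), so
`‖ζ(s)‖ = ‖ζ(1-s)‖ ‖Gammaℝ(1-s)‖/‖Gammaℝ(s)‖`, and `‖ζ(1 - s)‖ = ‖ζ(1/2 + x - iu)‖ = ‖ζ(1/2 + x + iu)‖` (`riemannZeta_conj`).  `‖Gammaℝ(z)‖ = π^(-Re z/2) ‖Γ(z/2)‖`.  With `a = 1/4 - x/2 ≥ 1/8`, `b = 1/4 + x/2 ≤ 3/8`,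
`y = u/2`: `‖Γ(b - iy)‖ = ‖Γ(b + iy)‖`.  NEED: `‖Γ(b + iy)‖ ≤ C (1 + |u|)^x ‖Γ(a + iy)‖` (`b - a = x`).
For `|y| ≥ 1`: `Γ(z) = Γ(z+1)/z` (`Complex.Gamma_add_one`) turns it into `‖Γ(b + 1 + iy)‖/‖Γ(a + 1 + iy)‖ · ‖a + iy‖/‖b + iy‖` (second factor `≤ 1`), and `Pool.Agent.Lib.MP_ec260d_ntA.gam_bounds`
(`c |y|^(σ-1/2) e^(-π|y|/2) ≤ ‖Γ(σ+iy)‖ ≤ C |y|^(σ-1/2) e^(-π|y|/2)` for `1/2 ≤ σ ≤ 4`, `|y| ≥ 1`) bounds the first factor by `(C/c) |y|^(b-a) = (C/c) |y|^x`.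
For `|y| ≤ 1`: the set `{(σ, y) : 1/8 ≤ σ ≤ 3/8, |y| ≤ 1}` is compact, `‖Γ‖` is continuous and nonzero on it, so the ratio is bounded.
-/

namespace Pool.Agent.Lib.MP_ec260d_ntB.IA

open Complex Set Filter Topology MeasureTheory

private lemma fe_small : ∃ C : ℝ, 1 ≤ C ∧ ∀ a b y : ℝ, 1 / 8 ≤ a → a ≤ b → b ≤ 3 / 8 → |y| ≤ 1 →
    ‖Complex.Gamma ((b : ℂ) + y * I)‖ ≤ C * ‖Complex.Gamma ((a : ℂ) + y * I)‖ := by
  have hK : IsCompact (Icc (1 / 8 : ℝ) (3 / 8) ×ˢ Icc (-1 : ℝ) 1) := isCompact_Icc.prod isCompact_Icc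
  have hne : (Icc (1 / 8 : ℝ) (3 / 8) ×ˢ Icc (-1 : ℝ) 1).Nonempty :=
    ⟨(1 / 8, 0), by constructor <;> constructor <;> norm_num⟩
  have hc : ContinuousOn (fun p : ℝ × ℝ => ‖Complex.Gamma ((p.1 : ℂ) + p.2 * I)‖)
      (Icc (1 / 8 : ℝ) (3 / 8) ×ˢ Icc (-1 : ℝ) 1) := by
    intro p hp
    have hre : 0 < ((p.1 : ℂ) + p.2 * I).re := by
      simp only [Complex.add_re, Complex.ofReal_re, Complex.mul_re, Complex.I_re, Complex.I_im, Complex.ofReal_im]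
      have := hp.1.1
      linarith
    have h1 : DifferentiableAt ℂ Complex.Gamma ((p.1 : ℂ) + p.2 * I) := by
      refine Complex.differentiableAt_Gamma _ fun m hm => ?_
      rw [hm] at hre
      simp only [Complex.neg_re, Complex.natCast_re] at hre
      have : (0 : ℝ) ≤ (m : ℝ) := Nat.cast_nonneg m
      linarith
    have h2 : ContinuousAt (fun p : ℝ × ℝ => ((p.1 : ℂ) + p.2 * I)) p := by fun_prop
    have h3 : ContinuousAt (fun p : ℝ × ℝ => Complex.Gamma ((p.1 : ℂ) + p.2 * I)) p :=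
      ContinuousAt.comp (f := fun p : ℝ × ℝ => ((p.1 : ℂ) + p.2 * I)) (g := Complex.Gamma) h1.continuousAt h2
    exact h3.norm.continuousWithinAt
  obtain ⟨p, hp, hpm⟩ := hK.exists_isMinOn hne hc
  obtain ⟨q, hq, hqm⟩ := hK.exists_isMaxOn hne hc
  have hre : 0 < ((p.1 : ℂ) + p.2 * I).re := by
    simp only [Complex.add_re, Complex.ofReal_re, Complex.mul_re, Complex.I_re, Complex.I_im, Complex.ofReal_im]
    have := hp.1.1
    linarith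
  have hm : 0 < ‖Complex.Gamma ((p.1 : ℂ) + p.2 * I)‖ :=
    norm_pos_iff.mpr (Complex.Gamma_ne_zero_of_re_pos hre)
  rw [isMinOn_iff] at hpm
  rw [isMaxOn_iff] at hqm
  generalize ‖Complex.Gamma ((p.1 : ℂ) + p.2 * I)‖ = m at hpm hm
  have hpq := hpm q hq
  generalize ‖Complex.Gamma ((q.1 : ℂ) + q.2 * I)‖ = M at hqm hpq
  have hM : 0 < M := lt_of_lt_of_le hm hpq
  refine ⟨M / m, (one_le_div hm).mpr hpq, fun a b y ha hab hb hy => ?_⟩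
  rw [abs_le] at hy
  have h1 := hpm (a, y) ⟨⟨ha, hab.trans hb⟩, ⟨hy.1, hy.2⟩⟩
  have h2 := hqm (b, y) ⟨⟨ha.trans hab, hb⟩, ⟨hy.1, hy.2⟩⟩
  simp only at h1 h2
  calc ‖Complex.Gamma ((b : ℂ) + y * I)‖ ≤ M := h2
    _ = M / m * m := by field_simp
    _ ≤ M / m * ‖Complex.Gamma ((a : ℂ) + y * I)‖ := mul_le_mul_of_nonneg_left h1 (by positivity)

private lemma fe_big : ∃ C : ℝ, 1 ≤ C ∧ ∀ a b y : ℝ, 1 / 8 ≤ a → a ≤ b → b ≤ 3 / 8 → 1 ≤ |y| →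
    ‖Complex.Gamma ((b : ℂ) + y * I)‖ ≤ C * |y| ^ (b - a) * ‖Complex.Gamma ((a : ℂ) + y * I)‖ := by
  obtain ⟨c, C, hc, hC, h⟩ := Pool.Agent.Lib.MP_ec260d_ntA.gam_bounds
  refine ⟨max 1 (C / c), le_max_left _ _, fun a b y ha hab hb hy => ?_⟩
  have hy0 : 0 < |y| := lt_of_lt_of_le one_pos hy
  have hre : ∀ σ : ℝ, ((σ : ℂ) + y * I).re = σ := by intro σ; simp
  have him : ∀ σ : ℝ, ((σ : ℂ) + y * I).im = y := by intro σ; simp
  have hre1 : ∀ σ : ℝ, ((σ : ℂ) + y * I + 1).re = σ + 1 := by intro σ; simp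
  have him1 : ∀ σ : ℝ, ((σ : ℂ) + y * I + 1).im = y := by intro σ; simp
  have hne : ∀ σ : ℝ, 0 < σ → ((σ : ℂ) + y * I) ≠ 0 := by
    intro σ hσ h0
    have := hre σ
    rw [h0, Complex.zero_re] at this
    linarith
  have hg : ∀ σ : ℝ, 0 < σ → ‖Complex.Gamma ((σ : ℂ) + y * I + 1)‖ =
      ‖(σ : ℂ) + y * I‖ * ‖Complex.Gamma ((σ : ℂ) + y * I)‖ := by
    intro σ hσ
    rw [Complex.Gamma_add_one _ (hne σ hσ), norm_mul]
  have ha0 : 0 < a := by linarith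
  have hb0 : 0 < b := by linarith
  have hA := h ((a : ℂ) + y * I + 1) (by rw [hre1]; linarith) (by rw [hre1]; linarith) (by rw [him1]; exact hy)
  have hB := h ((b : ℂ) + y * I + 1) (by rw [hre1]; linarith) (by rw [hre1]; linarith) (by rw [him1]; exact hy)
  rw [hre1, him1, hg a ha0] at hA
  rw [hre1, him1, hg b hb0] at hB
  have hnorm : ‖(a : ℂ) + y * I‖ ≤ ‖(b : ℂ) + y * I‖ := by
    rw [Complex.norm_def, Complex.norm_def]
    refine Real.sqrt_le_sqrt ?_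
    rw [Complex.normSq_apply, Complex.normSq_apply, hre, him, hre, him]
    nlinarith
  have hnb : 0 < ‖(b : ℂ) + y * I‖ := norm_pos_iff.mpr (hne b hb0)
  have hna : 0 < ‖(a : ℂ) + y * I‖ := norm_pos_iff.mpr (hne a ha0)
  have hGa : 0 ≤ ‖Complex.Gamma ((a : ℂ) + y * I)‖ := norm_nonneg _
  have hGb : 0 ≤ ‖Complex.Gamma ((b : ℂ) + y * I)‖ := norm_nonneg _
  have he : 0 < Real.exp (-(Real.pi * |y| / 2)) := Real.exp_pos _
  have hsplit : |y| ^ (b + 1 - 1 / 2) = |y| ^ (b - a) * |y| ^ (a + 1 - 1 / 2) := by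
    rw [← Real.rpow_add hy0]
    ring_nf
  have hA1 := hA.1
  have hB2 := hB.2
  rw [hsplit] at hB2
  have hyx : 0 < |y| ^ (b - a) := Real.rpow_pos_of_pos hy0 _
  have hya : 0 < |y| ^ (a + 1 - 1 / 2) := Real.rpow_pos_of_pos hy0 _
  generalize |y| ^ (b - a) = X at *
  generalize |y| ^ (a + 1 - 1 / 2) = Y at *
  generalize Real.exp (-(Real.pi * |y| / 2)) = E at *
  generalize ‖(a : ℂ) + y * I‖ = na at *
  generalize ‖(b : ℂ) + y * I‖ = nb at *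
  generalize ‖Complex.Gamma ((a : ℂ) + y * I)‖ = Ga at *
  generalize ‖Complex.Gamma ((b : ℂ) + y * I)‖ = Gb at *
  have h1 : nb * Gb ≤ nb * (C / c * X * Ga) := by
    calc nb * Gb ≤ C * (X * Y) * E := hB2
      _ = C / c * X * (c * Y * E) := by field_simp
      _ ≤ C / c * X * (na * Ga) := mul_le_mul_of_nonneg_left hA1 (by positivity)
      _ ≤ C / c * X * (nb * Ga) := by
          refine mul_le_mul_of_nonneg_left ?_ (by positivity)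
          exact mul_le_mul_of_nonneg_right hnorm hGa
      _ = nb * (C / c * X * Ga) := by ring
  have h2 : Gb ≤ C / c * X * Ga := le_of_mul_le_mul_left h1 hnb
  calc Gb ≤ C / c * X * Ga := h2
    _ ≤ max 1 (C / c) * X * Ga := by
        refine mul_le_mul_of_nonneg_right ?_ hGa
        exact mul_le_mul_of_nonneg_right (le_max_right _ _) hyx.le

private lemma fe_gam : ∃ C : ℝ, 1 ≤ C ∧ ∀ x u : ℝ, 0 ≤ x → x ≤ 1 / 4 →
    ‖Complex.Gamma (((1 / 4 + x / 2 : ℝ) : ℂ) + ((u / 2 : ℝ) : ℂ) * I)‖ ≤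
      C * (1 + |u|) ^ x * ‖Complex.Gamma (((1 / 4 - x / 2 : ℝ) : ℂ) + ((u / 2 : ℝ) : ℂ) * I)‖ := by
  obtain ⟨C1, hC1, h1⟩ := fe_small
  obtain ⟨C2, hC2, h2⟩ := fe_big
  refine ⟨max C1 C2, hC1.trans (le_max_left _ _), fun x u hx hx1 => ?_⟩
  have hu : 0 ≤ |u| := abs_nonneg u
  have hG : 0 ≤ ‖Complex.Gamma (((1 / 4 - x / 2 : ℝ) : ℂ) + ((u / 2 : ℝ) : ℂ) * I)‖ := norm_nonneg _
  have hp : 1 ≤ (1 + |u|) ^ x := Real.one_le_rpow (by linarith) hx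
  have hmx : 0 < max C1 C2 := lt_of_lt_of_le (by linarith) (le_max_left C1 C2)
  rcases le_total |u / 2| 1 with hy | hy
  · refine (h1 (1 / 4 - x / 2) (1 / 4 + x / 2) (u / 2) (by linarith) (by linarith) (by linarith) hy).trans ?_
    refine mul_le_mul_of_nonneg_right ?_ hG
    calc C1 ≤ max C1 C2 := le_max_left _ _
      _ = max C1 C2 * 1 := by ring
      _ ≤ max C1 C2 * (1 + |u|) ^ x := mul_le_mul_of_nonneg_left hp hmx.le
  · refine (h2 (1 / 4 - x / 2) (1 / 4 + x / 2) (u / 2) (by linarith) (by linarith) (by linarith) hy).trans ?_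
    refine mul_le_mul_of_nonneg_right ?_ hG
    have h3 : |u / 2| ^ (1 / 4 + x / 2 - (1 / 4 - x / 2)) ≤ (1 + |u|) ^ x := by
      rw [show (1 / 4 + x / 2 - (1 / 4 - x / 2)) = x by ring]
      refine Real.rpow_le_rpow (abs_nonneg _) ?_ hx
      rw [abs_div, abs_of_pos (show (0 : ℝ) < 2 by norm_num)]
      linarith
    refine mul_le_mul (le_max_right _ _) h3 (Real.rpow_nonneg (abs_nonneg _) _) hmx.le

private lemma fe_normR (z : ℂ) : ‖Complex.Gammaℝ z‖ = Real.pi ^ (-z.re / 2) * ‖Complex.Gamma (z / 2)‖ := by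
  rw [Complex.Gammaℝ_def, norm_mul, Complex.norm_cpow_eq_rpow_re_of_pos Real.pi_pos]
  congr 2
  simp

theorem fe_bound : ∃ C : ℝ, 1 ≤ C ∧ ∀ x u : ℝ, 0 ≤ x → x ≤ 1 / 4 →
    ‖riemannZeta (1 / 2 - x + u * I)‖ ≤ C * (1 + |u|) ^ x * ‖riemannZeta (1 / 2 + x + u * I)‖ := by
  obtain ⟨C, hC, h⟩ := fe_gam
  refine ⟨C, hC, fun x u hx hx1 => ?_⟩
  have hs0 : (1 / 2 - (x : ℂ) + u * I) ≠ 0 := by
    intro h0
    have := congrArg Complex.re h0
    simp at this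
    linarith
  have hw0 : 1 - (1 / 2 - (x : ℂ) + u * I) ≠ 0 := by
    intro h0
    have := congrArg Complex.re h0
    simp at this
    linarith
  have hconj : 1 - (1 / 2 - (x : ℂ) + u * I) = (starRingEnd ℂ) (1 / 2 + (x : ℂ) + u * I) := by
    apply Complex.ext <;> (simp; try ring)
  have hre1 : (1 / 2 - (x : ℂ) + u * I).re = 1 / 2 - x := by simp
  have hre2 : (1 - (1 / 2 - (x : ℂ) + u * I)).re = 1 / 2 + x := by simp; ring
  have e1 : (1 / 2 - (x : ℂ) + u * I) / 2 = ((1 / 4 - x / 2 : ℝ) : ℂ) + ((u / 2 : ℝ) : ℂ) * I := by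
    push_cast
    ring
  have e2 : (1 - (1 / 2 - (x : ℂ) + u * I)) / 2 =
      (starRingEnd ℂ) (((1 / 4 + x / 2 : ℝ) : ℂ) + ((u / 2 : ℝ) : ℂ) * I) := by
    rw [map_add, map_mul, Complex.conj_ofReal, Complex.conj_ofReal, Complex.conj_I]
    push_cast
    ring
  have hg1 : Complex.Gammaℝ (1 / 2 - (x : ℂ) + u * I) ≠ 0 :=
    Complex.Gammaℝ_ne_zero_of_re_pos (by rw [hre1]; linarith)
  have hg2 : Complex.Gammaℝ (1 - (1 / 2 - (x : ℂ) + u * I)) ≠ 0 :=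
    Complex.Gammaℝ_ne_zero_of_re_pos (by rw [hre2]; linarith)
  have hfe : riemannZeta (1 / 2 - (x : ℂ) + u * I) * Complex.Gammaℝ (1 / 2 - (x : ℂ) + u * I) =
      riemannZeta (1 - (1 / 2 - (x : ℂ) + u * I)) * Complex.Gammaℝ (1 - (1 / 2 - (x : ℂ) + u * I)) := by
    rw [riemannZeta_def_of_ne_zero hs0, riemannZeta_def_of_ne_zero hw0, div_mul_cancel₀ _ hg1, div_mul_cancel₀ _ hg2,
      completedRiemannZeta_one_sub]
  have hn := congrArg norm hfe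
  rw [norm_mul, norm_mul, fe_normR, fe_normR, hre1, hre2, e1, e2, Complex.Gamma_conj, hconj, riemannZeta_conj,
    RCLike.norm_conj, RCLike.norm_conj] at hn
  have hgam := h x u hx hx1
  have hGp : 0 < ‖Complex.Gamma (((1 / 4 - x / 2 : ℝ) : ℂ) + ((u / 2 : ℝ) : ℂ) * I)‖ := by
    refine norm_pos_iff.mpr (Complex.Gamma_ne_zero_of_re_pos ?_)
    simp
    linarith
  have hpi : Real.pi ^ (-(1 / 2 + x) / 2) ≤ Real.pi ^ (-(1 / 2 - x) / 2) :=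
    Real.rpow_le_rpow_of_exponent_le (by linarith [Real.pi_gt_three]) (by linarith)
  have hpip : 0 < Real.pi ^ (-(1 / 2 - x) / 2) := Real.rpow_pos_of_pos Real.pi_pos _
  have hX : 0 ≤ (1 + |u|) ^ x := Real.rpow_nonneg (by positivity) _
  have hZ : 0 ≤ ‖riemannZeta (1 / 2 + (x : ℂ) + u * I)‖ := norm_nonneg _
  have hGb : 0 ≤ ‖Complex.Gamma (((1 / 4 + x / 2 : ℝ) : ℂ) + ((u / 2 : ℝ) : ℂ) * I)‖ := norm_nonneg _
  generalize ‖riemannZeta (1 / 2 + (x : ℂ) + u * I)‖ = Z at *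
  generalize ‖riemannZeta (1 / 2 - (x : ℂ) + u * I)‖ = Z' at *
  generalize ‖Complex.Gamma (((1 / 4 - x / 2 : ℝ) : ℂ) + ((u / 2 : ℝ) : ℂ) * I)‖ = Ga at *
  generalize ‖Complex.Gamma (((1 / 4 + x / 2 : ℝ) : ℂ) + ((u / 2 : ℝ) : ℂ) * I)‖ = Gb at *
  generalize Real.pi ^ (-(1 / 2 - x) / 2) = P at *
  generalize Real.pi ^ (-(1 / 2 + x) / 2) = P' at *
  generalize (1 + |u|) ^ x = X at *
  have h5 : (P * Ga) * Z' ≤ (P * Ga) * (C * X * Z) := by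
    calc (P * Ga) * Z' = Z' * (P * Ga) := by ring
      _ = Z * (P' * Gb) := hn
      _ ≤ Z * (P * Gb) := by
          refine mul_le_mul_of_nonneg_left ?_ hZ
          exact mul_le_mul_of_nonneg_right hpi hGb
      _ ≤ Z * (P * (C * X * Ga)) := by
          refine mul_le_mul_of_nonneg_left ?_ hZ
          exact mul_le_mul_of_nonneg_left hgam hpip.le
      _ = (P * Ga) * (C * X * Z) := by ring
  exact le_of_mul_le_mul_left h5 (by positivity)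

end Pool.Agent.Lib.MP_ec260d_ntB.IA
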