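import Mathlib
import Pool.Agent.Lib.MP_ec260d_ntB.ADefs
import Pool.Agent.Lib.MP_ec260d_ntB.AFe

/-!
# JOB AZp: the points `zp` (about 100 lines)

`l = log T > 0`.  `zp T α τ t = 1/2 + (α + iτ)/l + it`.
* `zp_re`, `zp_im`: `Re = 1/2 + α/l`, `Im = τ/l + t`.
* `zp_shift`: `zp T α τ t - (c + 2πξ i)/l = zp T (α - c) (τ - 2πξ) t`.
* `zp_fe`: for `a ≥ 0`, `a/l ≤ 1/4`: `fe_bound` with `x = a/l`, `u = t + τ/l`: `‖ζ(zp T (-a) τ t)‖ ≤ C (1 + |t + τ/l|)^(a/l) ‖ζ(zp T a τ t)‖`.
* `zp_cont`: for `α/l < 1/2` the point `zp T α τ t` is never `1`; joint continuity in `(τ, t)`.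
* `MM_cont`: `MM δ T` is a finite product of finite sums of entire functions (all bases are primes `≥ 2`).
-/

namespace Pool.Agent.Lib.MP_ec260d_ntB.IA

open Complex Set Filter Topology MeasureTheory

theorem zp_re (T α τ t : ℝ) : (zp T α τ t).re = 1 / 2 + α / Real.log T := by
  unfold zp
  rw [Complex.add_re, Complex.add_re, Complex.div_ofReal_re]
  simp

theorem zp_im (T α τ t : ℝ) : (zp T α τ t).im = τ / Real.log T + t := by
  unfold zp
  rw [Complex.add_im, Complex.add_im, Complex.div_ofReal_im]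
  simp

theorem zp_shift (T c α τ t ξ : ℝ) :
    zp T α τ t - ((c : ℂ) + 2 * Real.pi * ξ * I) / Real.log T = zp T (α - c) (τ - 2 * Real.pi * ξ) t := by
  unfold zp
  push_cast
  ring

theorem zp_fe : ∃ C : ℝ, 1 ≤ C ∧ ∀ T a τ t : ℝ, 3 ≤ T → 0 ≤ a → a / Real.log T ≤ 1 / 4 →
    ‖riemannZeta (zp T (-a) τ t)‖ ≤ C * (1 + |t + τ / Real.log T|) ^ (a / Real.log T) * ‖riemannZeta (zp T a τ t)‖ := by
  obtain ⟨C, hC, h⟩ := fe_bound
  refine ⟨C, hC, fun T a τ t hT ha hx => ?_⟩
  have hl : 0 < Real.log T := Real.log_pos (by linarith)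
  have h1 := h (a / Real.log T) (t + τ / Real.log T) (by positivity) hx
  have e1 : zp T (-a) τ t = 1 / 2 - ((a / Real.log T : ℝ) : ℂ) + ((t + τ / Real.log T : ℝ) : ℂ) * I := by
    unfold zp
    push_cast
    ring
  have e2 : zp T a τ t = 1 / 2 + ((a / Real.log T : ℝ) : ℂ) + ((t + τ / Real.log T : ℝ) : ℂ) * I := by
    unfold zp
    push_cast
    ring
  rw [e1, e2]
  exact h1

private theorem AZp_zpc (T α : ℝ) : Continuous (fun p : ℝ × ℝ => zp T α p.1 p.2) := by
  unfold zp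
  simp only [div_eq_mul_inv]
  fun_prop

theorem zp_cont (T α : ℝ) (hT : 3 ≤ T) (hα : α / Real.log T < 1 / 2) :
    Continuous (fun p : ℝ × ℝ => riemannZeta (zp T α p.1 p.2)) := by
  refine continuous_iff_continuousAt.2 (fun p => ?_)
  have hne : zp T α p.1 p.2 ≠ 1 := by
    intro h
    have h1 := congrArg Complex.re h
    rw [zp_re, Complex.one_re] at h1
    linarith
  have h1 : ContinuousAt riemannZeta (zp T α p.1 p.2) := (differentiableAt_riemannZeta hne).continuousAt
  exact ContinuousAt.comp (g := riemannZeta) (f := fun p : ℝ × ℝ => zp T α p.1 p.2) h1 (AZp_zpc T α).continuousAt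

private theorem AZp_pow {p : ℕ} (hp : p.Prime) : Differentiable ℂ (fun s : ℂ => (p : ℂ) ^ (-s)) := by
  have h0 : (p : ℂ) ≠ 0 := by exact_mod_cast hp.ne_zero
  exact differentiable_neg.const_cpow (Or.inl h0)

theorem MM_diff (δ T : ℝ) : Differentiable ℂ (MM δ T) := by
  have h1 : Differentiable ℂ (fun s : ℂ => ∏ p ∈ P0, (1 - (p : ℂ) ^ (-s))) := by
    refine Differentiable.fun_finsetProd (fun p hp => ?_)
    have hp2 : p.Prime := (Finset.mem_filter.1 hp).2
    exact (differentiable_const 1).sub (AZp_pow hp2)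
  have h2 : Differentiable ℂ (fun s : ℂ => ∏ j ∈ Finset.range (JJ T), Mj δ T j s) := by
    refine Differentiable.fun_finsetProd (fun j _ => ?_)
    unfold Mj
    refine Differentiable.fun_sum (fun S hS => ?_)
    have hS1 : S ⊆ Pr δ T j := Finset.mem_powerset.1 (Finset.mem_filter.1 hS).1
    refine (differentiable_const _).mul (Differentiable.fun_finsetProd (fun p hp => ?_))
    have hp2 : p.Prime := (Finset.mem_filter.1 (hS1 hp)).2.1
    exact AZp_pow hp2
  exact h1.mul h2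

theorem MM_cont (δ T α' : ℝ) : Continuous (fun t : ℝ => MM δ T (zp T α' 0 t)) := by
  have h1 : Continuous (fun t : ℝ => zp T α' 0 t) := by
    unfold zp
    fun_prop
  exact (MM_diff δ T).continuous.comp h1

end Pool.Agent.Lib.MP_ec260d_ntB.IA
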