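import Mathlib
import Pool.Agent.Lib.MP_ec260d_ntB.AZp
import Pool.Agent.Lib.MP_ec260d_ntB.AKer
import Pool.Agent.Lib.MP_ec260d_ntB.ACs

/-!
# JOB AStep: the reflected term (about 200 lines)

SETUP.  `l = log T`, `a = c/2`, `ck = a + α ≥ 1` is the parameter of the kernel (`α = a` gives `ck = c`), `T ≥ T₀(c)`, in particular `a/l ≤ 1/4`.
`S_ξ := ζ(zp T α τ t - (ck + 2πξ i)/l) = ζ(zp T (-a) (τ - 2πξ) t)` (`zp_shift`).  `zp_fe`: `≤ C (1 + |t + (τ-2πξ)/l|)^(a/l) ‖ζ(zp T a (τ-2πξ) t)‖`, and for `T/2 ≤ t ≤ 3T`, `|τ| ≤ √T`, `l ≥ 1`: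
`1 + |t + (τ-2πξ)/l| ≤ 4T (1 + |τ|)(1 + 2π|ξ|)`, `1 + |τ| ≤ 2 √T`.  Raise to the power `a/l ≤ 1/4`: `(4T)^(a/l) ≤ 2 e^a` (`T^(a/l) = e^a`, `4^(1/4) ≤ 2`), `(2√T)^(a/l) ≤ 2 e^(a/2)`, `(1+2π|ξ|)^(a/l) ≤ 1 + 2π|ξ|`.
So `‖S_ξ‖ ≤ 4 C e^(3a/2) (1 + 2π|ξ|) ‖ζ(zp T a (τ - 2πξ) t)‖`, `e^(3a/2) = e^(3c/4)`.
`cs_tonelli` with `k = kk ck`, `g ξ t = S_ξ`, `m t = MM δ T (zp T α' 0 t)` (continuity: `zp_cont`, `(-a)/l < 1/2`):
left side `≤ (∫ ‖kk‖) ∫ ‖kk ξ‖ 16 C² e^(3c/2) (1+2π|ξ|)² FL δ T α' a (τ - 2πξ) dξ`, and by hypothesis `FL δ T α' a (τ - 2πξ) ≤ Z (1 + |τ - 2πξ|)^B ≤ Z (1+|τ|)^B (1 + 2π|ξ|)^B`.  `kk_bound` with `r = B + 4`: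
`∫ ‖kk ck ξ‖ (1 + 2π|ξ|)^(B+2) dξ ≤ C_B e^(-(24/25) ck)`.  Total `≤ C' e^(3c/2 - (48/25) ck) Z (1+|τ|)^B`.
-/

namespace Pool.Agent.Lib.MP_ec260d_ntB.IA

open Complex Set Filter Topology MeasureTheory

/-- the integral of `(1 + |ξ|) ^ (-2)` is finite -/
private lemma AStep_J : ∃ J : ℝ, 0 < J ∧
    ∫⁻ ξ : ℝ, ENNReal.ofReal (1 / (1 + |ξ|) ^ 2) ≤ ENNReal.ofReal J := by
  have h1 : Integrable (fun ξ : ℝ => (1 + ‖ξ‖) ^ (-(2 : ℝ))) :=
    integrable_one_add_norm (by simp)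
  have e : ∀ ξ : ℝ, (1 + ‖ξ‖) ^ (-(2 : ℝ)) = 1 / (1 + |ξ|) ^ 2 := by
    intro ξ
    have h0 : 0 ≤ 1 + ‖ξ‖ := by positivity
    rw [Real.rpow_neg h0, one_div, Real.norm_eq_abs]
    norm_num
  have h2 : Integrable (fun ξ : ℝ => 1 / (1 + |ξ|) ^ 2) :=
    h1.congr (Filter.Eventually.of_forall e)
  refine ⟨(∫ ξ : ℝ, 1 / (1 + |ξ|) ^ 2) + 1, ?_, ?_⟩
  · have h3 : 0 ≤ ∫ ξ : ℝ, 1 / (1 + |ξ|) ^ 2 :=
      integral_nonneg fun ξ => by positivity
    linarith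
  · rw [← ofReal_integral_eq_lintegral_ofReal h2
      (Filter.Eventually.of_forall fun ξ => by positivity)]
    exact ENNReal.ofReal_le_ofReal (by linarith)

private lemma AStep_lint (M : ℝ) (hM : 0 ≤ M) {J : ℝ} (hJ : 0 < J)
    (h : ∫⁻ ξ : ℝ, ENNReal.ofReal (1 / (1 + |ξ|) ^ 2) ≤ ENNReal.ofReal J) :
    ∫⁻ ξ : ℝ, ENNReal.ofReal (M * (1 / (1 + |ξ|) ^ 2)) ≤ ENNReal.ofReal (M * J) := by
  have e : ∀ ξ : ℝ, ENNReal.ofReal (M * (1 / (1 + |ξ|) ^ 2)) =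
      ENNReal.ofReal M * ENNReal.ofReal (1 / (1 + |ξ|) ^ 2) := fun ξ =>
    ENNReal.ofReal_mul hM
  rw [lintegral_congr e, lintegral_const_mul', ENNReal.ofReal_mul hM]
  · exact mul_le_mul_right h _
  · exact ENNReal.ofReal_ne_top

/-- the size of the factor in the functional equation -/
private lemma AStep_pow {T c τ ξ t : ℝ} (hT : 3 ≤ T) (hc : 2 ≤ c) (hl : 2 * c ≤ Real.log T)
    (hτ : |τ| ≤ Real.sqrt T) (ht1 : T / 2 ≤ t) (ht2 : t ≤ 3 * T) :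
    (1 + |t + (τ - 2 * Real.pi * ξ) / Real.log T|) ^ (c / 2 / Real.log T) ≤
      8 * Real.exp (3 / 4 * c) * (1 + 2 * Real.pi * |ξ|) := by
  have hl1 : 1 ≤ Real.log T := by linarith
  have hl0 : 0 < Real.log T := by linarith
  have hT0 : 0 < T := by linarith
  have hpi := Real.pi_pos
  have hx0 : 0 ≤ |τ| := abs_nonneg _
  have hy0 : 0 ≤ 2 * Real.pi * |ξ| := by positivity
  have hs1 : 1 ≤ Real.sqrt T := by
    rw [Real.one_le_sqrt]
    linarith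
  have he0 : 0 ≤ c / 2 / Real.log T := by positivity
  have he1 : c / 2 / Real.log T ≤ 1 := by
    rw [div_le_one hl0]
    linarith
  have h1 : |t + (τ - 2 * Real.pi * ξ) / Real.log T| ≤ 3 * T + |τ| + 2 * Real.pi * |ξ| := by
    have h2 : |(τ - 2 * Real.pi * ξ) / Real.log T| ≤ |τ| + 2 * Real.pi * |ξ| := by
      rw [abs_div, abs_of_pos hl0]
      refine (div_le_self (abs_nonneg _) hl1).trans ?_
      refine (abs_sub _ _).trans ?_
      rw [abs_mul, abs_of_pos (by positivity : 0 < 2 * Real.pi)]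
    have h3 : |t| ≤ 3 * T := by
      rw [abs_of_nonneg (by linarith)]
      exact ht2
    refine (abs_add_le _ _).trans ?_
    linarith
  have hbase : 1 + |t + (τ - 2 * Real.pi * ξ) / Real.log T| ≤
      8 * (T * Real.sqrt T) * (1 + 2 * Real.pi * |ξ|) := by
    have h4 : 1 + |τ| ≤ 2 * Real.sqrt T := by linarith
    have h5 : 1 + (3 * T + |τ| + 2 * Real.pi * |ξ|) ≤
        4 * T * (1 + |τ|) * (1 + 2 * Real.pi * |ξ|) := by
      have h6 : 0 ≤ T * |τ| := by positivity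
      have h7 : 0 ≤ T * (2 * Real.pi * |ξ|) := by positivity
      have h8 : 0 ≤ T * |τ| * (2 * Real.pi * |ξ|) := by positivity
      have h9 : |τ| ≤ T * |τ| := le_mul_of_one_le_left hx0 (by linarith)
      have h10 : 2 * Real.pi * |ξ| ≤ T * (2 * Real.pi * |ξ|) :=
        le_mul_of_one_le_left hy0 (by linarith)
      nlinarith
    have h11 : 4 * T * (1 + |τ|) * (1 + 2 * Real.pi * |ξ|) ≤
        4 * T * (2 * Real.sqrt T) * (1 + 2 * Real.pi * |ξ|) := by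
      refine mul_le_mul_of_nonneg_right ?_ (by positivity)
      exact mul_le_mul_of_nonneg_left h4 (by positivity)
    have h12 : 4 * T * (2 * Real.sqrt T) * (1 + 2 * Real.pi * |ξ|) =
        8 * (T * Real.sqrt T) * (1 + 2 * Real.pi * |ξ|) := by ring
    linarith
  have hpos : 0 ≤ 1 + |t + (τ - 2 * Real.pi * ξ) / Real.log T| := by positivity
  refine (Real.rpow_le_rpow hpos hbase he0).trans ?_
  have hTs : 0 < T * Real.sqrt T := by positivity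
  rw [Real.mul_rpow (by positivity) (by positivity), Real.mul_rpow (by norm_num) hTs.le]
  have g1 : (8 : ℝ) ^ (c / 2 / Real.log T) ≤ 8 := by
    have := Real.rpow_le_rpow_of_exponent_le (by norm_num : (1 : ℝ) ≤ 8) he1
    rwa [Real.rpow_one] at this
  have g2 : (T * Real.sqrt T) ^ (c / 2 / Real.log T) = Real.exp (3 / 4 * c) := by
    rw [Real.rpow_def_of_pos hTs, Real.log_mul hT0.ne' (by positivity), Real.log_sqrt hT0.le]
    congr 1
    field_simp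
    ring
  have g3 : (1 + 2 * Real.pi * |ξ|) ^ (c / 2 / Real.log T) ≤ 1 + 2 * Real.pi * |ξ| := by
    have := Real.rpow_le_rpow_of_exponent_le (by linarith : (1 : ℝ) ≤ 1 + 2 * Real.pi * |ξ|) he1
    rwa [Real.rpow_one] at this
  rw [g2]
  have g4 : (0 : ℝ) ≤ (1 + 2 * Real.pi * |ξ|) ^ (c / 2 / Real.log T) := by positivity
  refine mul_le_mul ?_ g3 g4 (by positivity)
  exact mul_le_mul_of_nonneg_right g1 (Real.exp_pos _).le

theorem step_refl (B : ℕ) : ∃ C₃ : ℝ, 0 < C₃ ∧ ∀ c : ℝ, 2 ≤ c → ∃ T₀ : ℝ, 3 ≤ T₀ ∧ ∀ T : ℝ, T₀ ≤ T → ∀ δ α' α τ Z : ℝ,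
    1 ≤ c / 2 + α → α ≤ c → |τ| ≤ Real.sqrt T → 0 ≤ Z →
    (∀ τ' : ℝ, FL δ T α' (c / 2) τ' ≤ ENNReal.ofReal (Z * (1 + |τ'|) ^ B)) →
    ∫⁻ t in Icc (T / 2) (3 * T), ENNReal.ofReal
      (‖(∫ ξ : ℝ, kk (c / 2 + α) ξ * riemannZeta (zp T α τ t - (((c / 2 + α : ℝ) : ℂ) + 2 * Real.pi * ξ * I) / Real.log T)) *
        MM δ T (zp T α' 0 t)‖ ^ 2) ≤
      ENNReal.ofReal (C₃ * Real.exp (3 / 2 * c - 48 / 25 * (c / 2 + α)) * Z * (1 + |τ|) ^ B) := by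
  obtain ⟨C, hC1, hfe⟩ := zp_fe
  obtain ⟨K, hK, hkk⟩ := kk_bound (B + 4)
  obtain ⟨J, hJ, hJle⟩ := AStep_J
  have hpi := Real.pi_pos
  refine ⟨K * J * (64 * C ^ 2 * K * (2 * Real.pi) ^ (B + 2) * J), by positivity, fun c hc =>
    ⟨max 3 (Real.exp (2 * c)), le_max_left _ _, ?_⟩⟩
  intro T hTT δ α' α τ Z hck hαc hτ hZ hFL
  have hT3 : 3 ≤ T := (le_max_left _ _).trans hTT
  have hT0 : 0 < T := by linarith
  have hl : 2 * c ≤ Real.log T := by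
    have h := Real.log_le_log (Real.exp_pos _) ((le_max_right _ _).trans hTT)
    rwa [Real.log_exp] at h
  have hl0 : 0 < Real.log T := by linarith
  set ck : ℝ := c / 2 + α with hck'
  set E : ℝ := Real.exp (-(24 / 25 * ck)) with hE
  have hE0 : 0 < E := Real.exp_pos _
  have hshift : ∀ ξ t : ℝ, zp T α τ t - ((ck : ℂ) + 2 * Real.pi * ξ * I) / Real.log T =
      zp T (-(c / 2)) (τ - 2 * Real.pi * ξ) t := by
    intro ξ t
    rw [zp_shift]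
    congr 1
    rw [hck']
    ring
  have hcont : Continuous (Function.uncurry fun ξ t : ℝ =>
      riemannZeta (zp T α τ t - ((ck : ℂ) + 2 * Real.pi * ξ * I) / Real.log T)) := by
    have h1 := zp_cont T (-(c / 2)) hT3 (by
      have : 0 < c / 2 / Real.log T := by positivity
      rw [neg_div]
      linarith)
    have h2 : Continuous (fun p : ℝ × ℝ => ((τ - 2 * Real.pi * p.1, p.2) : ℝ × ℝ)) := by fun_prop
    have h3 := h1.comp h2
    refine h3.congr fun p => ?_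
    show riemannZeta (zp T (-(c / 2)) (τ - 2 * Real.pi * p.1) p.2) =
      riemannZeta (zp T α τ p.2 - ((ck : ℂ) + 2 * Real.pi * p.1 * I) / Real.log T)
    rw [hshift]
  have hcs := cs_tonelli (kk ck) (kk_cont ck hck) (fun ξ t : ℝ =>
    riemannZeta (zp T α τ t - ((ck : ℂ) + 2 * Real.pi * ξ * I) / Real.log T)) hcont
    (fun t => MM δ T (zp T α' 0 t)) (MM_cont δ T α') (Icc (T / 2) (3 * T)) measurableSet_Icc
  refine hcs.trans ?_
  have hkb : ∀ ξ : ℝ, ‖kk ck ξ‖ ≤ K * E * (1 / (1 + |ξ|) ^ (B + 4)) := by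
    intro ξ
    have h := hkk ck ξ hck
    rw [mul_one_div]
    exact h
  -- the first factor
  have hfirst : ∫⁻ ξ : ℝ, ENNReal.ofReal ‖kk ck ξ‖ ≤ ENNReal.ofReal (K * E * J) := by
    refine (lintegral_mono fun ξ => ENNReal.ofReal_le_ofReal ?_).trans
      (AStep_lint (K * E) (by positivity) hJ hJle)
    refine (hkb ξ).trans (mul_le_mul_of_nonneg_left ?_ (by positivity))
    refine one_div_le_one_div_of_le (by positivity) ?_
    exact pow_le_pow_right₀ (by linarith [abs_nonneg ξ]) (by omega)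
  -- the inner integrals
  have hinner : ∀ ξ : ℝ, ∫⁻ t in Icc (T / 2) (3 * T), ENNReal.ofReal
      (‖riemannZeta (zp T α τ t - ((ck : ℂ) + 2 * Real.pi * ξ * I) / Real.log T) *
        MM δ T (zp T α' 0 t)‖ ^ 2) ≤
      ENNReal.ofReal (64 * C ^ 2 * Real.exp (3 / 2 * c) * Z * (1 + |τ|) ^ B *
        (1 + 2 * Real.pi * |ξ|) ^ (B + 2)) := by
    intro ξ
    set A : ℝ := (C * (8 * Real.exp (3 / 4 * c) * (1 + 2 * Real.pi * |ξ|))) ^ 2 with hA
    have hA0 : 0 ≤ A := by positivity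
    have h1 : ∫⁻ t in Icc (T / 2) (3 * T), ENNReal.ofReal
        (‖riemannZeta (zp T α τ t - ((ck : ℂ) + 2 * Real.pi * ξ * I) / Real.log T) *
          MM δ T (zp T α' 0 t)‖ ^ 2) ≤
        ∫⁻ t in Icc (T / 2) (3 * T), ENNReal.ofReal A * ENNReal.ofReal
          (‖riemannZeta (zp T (c / 2) (τ - 2 * Real.pi * ξ) t) * MM δ T (zp T α' 0 t)‖ ^ 2) := by
      refine setLIntegral_mono' measurableSet_Icc fun t ht => ?_
      rw [← ENNReal.ofReal_mul hA0]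
      refine ENNReal.ofReal_le_ofReal ?_
      rw [hA, ← mul_pow]
      refine pow_le_pow_left₀ (norm_nonneg _) ?_ 2
      rw [hshift, norm_mul, norm_mul, ← mul_assoc]
      refine mul_le_mul_of_nonneg_right ?_ (norm_nonneg _)
      have h2 := hfe T (c / 2) (τ - 2 * Real.pi * ξ) t hT3 (by linarith) (by
        rw [div_le_iff₀ hl0]
        linarith)
      refine h2.trans ?_
      refine mul_le_mul_of_nonneg_right ?_ (norm_nonneg _)
      exact mul_le_mul_of_nonneg_left (AStep_pow hT3 hc hl hτ ht.1 ht.2) (by linarith)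
    refine h1.trans ?_
    rw [lintegral_const_mul' _ _ ENNReal.ofReal_ne_top]
    have h3 := hFL (τ - 2 * Real.pi * ξ)
    have h4 : ENNReal.ofReal A * (∫⁻ t in Icc (T / 2) (3 * T), ENNReal.ofReal
          (‖riemannZeta (zp T (c / 2) (τ - 2 * Real.pi * ξ) t) * MM δ T (zp T α' 0 t)‖ ^ 2)) ≤
        ENNReal.ofReal A * ENNReal.ofReal (Z * (1 + |τ - 2 * Real.pi * ξ|) ^ B) :=
      mul_le_mul_right h3 _
    refine h4.trans ?_
    rw [← ENNReal.ofReal_mul hA0]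
    refine ENNReal.ofReal_le_ofReal ?_
    have h5 : 1 + |τ - 2 * Real.pi * ξ| ≤ (1 + |τ|) * (1 + 2 * Real.pi * |ξ|) := by
      have h6 : |τ - 2 * Real.pi * ξ| ≤ |τ| + 2 * Real.pi * |ξ| := by
        refine (abs_sub _ _).trans ?_
        rw [abs_mul, abs_of_pos (by positivity : 0 < 2 * Real.pi)]
      have h7 : 0 ≤ |τ| * (2 * Real.pi * |ξ|) := by positivity
      nlinarith
    have h8 : (1 + |τ - 2 * Real.pi * ξ|) ^ B ≤
        (1 + |τ|) ^ B * (1 + 2 * Real.pi * |ξ|) ^ B := by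
      rw [← mul_pow]
      exact pow_le_pow_left₀ (by positivity) h5 B
    have h9 : A * (Z * (1 + |τ - 2 * Real.pi * ξ|) ^ B) ≤
        A * (Z * ((1 + |τ|) ^ B * (1 + 2 * Real.pi * |ξ|) ^ B)) :=
      mul_le_mul_of_nonneg_left (mul_le_mul_of_nonneg_left h8 hZ) hA0
    refine h9.trans (le_of_eq ?_)
    have h10 : Real.exp (3 / 2 * c) = Real.exp (3 / 4 * c) ^ 2 := by
      rw [← Real.exp_nat_mul]
      congr 1
      push_cast
      ring
    rw [hA, h10]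
    ring
  have hsecond : ∫⁻ ξ : ℝ, ENNReal.ofReal ‖kk ck ξ‖ * (∫⁻ t in Icc (T / 2) (3 * T), ENNReal.ofReal
      (‖riemannZeta (zp T α τ t - ((ck : ℂ) + 2 * Real.pi * ξ * I) / Real.log T) *
        MM δ T (zp T α' 0 t)‖ ^ 2)) ≤
      ENNReal.ofReal (64 * C ^ 2 * Real.exp (3 / 2 * c) * Z * (1 + |τ|) ^ B * K * E *
        (2 * Real.pi) ^ (B + 2) * J) := by
    refine (lintegral_mono fun ξ => ?_).trans (AStep_lint
      (64 * C ^ 2 * Real.exp (3 / 2 * c) * Z * (1 + |τ|) ^ B * K * E *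
        (2 * Real.pi) ^ (B + 2)) (by positivity) hJ hJle)
    refine (mul_le_mul_right (hinner ξ) _).trans ?_
    rw [← ENNReal.ofReal_mul (norm_nonneg _)]
    refine ENNReal.ofReal_le_ofReal ?_
    have h1 : 0 < 1 + |ξ| := by positivity
    have h2 : 1 + 2 * Real.pi * |ξ| ≤ 2 * Real.pi * (1 + |ξ|) := by
      have := Real.pi_gt_three
      linarith
    have h3 : (1 + 2 * Real.pi * |ξ|) ^ (B + 2) ≤ (2 * Real.pi) ^ (B + 2) * (1 + |ξ|) ^ (B + 2) := by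
      rw [← mul_pow]
      exact pow_le_pow_left₀ (by positivity) h2 _
    have h4 : ‖kk ck ξ‖ * (1 + 2 * Real.pi * |ξ|) ^ (B + 2) ≤
        K * E * (1 / (1 + |ξ|) ^ (B + 4)) * ((2 * Real.pi) ^ (B + 2) * (1 + |ξ|) ^ (B + 2)) :=
      mul_le_mul (hkb ξ) h3 (by positivity) (by positivity)
    have h5 : K * E * (1 / (1 + |ξ|) ^ (B + 4)) * ((2 * Real.pi) ^ (B + 2) * (1 + |ξ|) ^ (B + 2)) =
        K * E * (2 * Real.pi) ^ (B + 2) * (1 / (1 + |ξ|) ^ 2) := by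
      have h6 : (1 + |ξ|) ^ (B + 4) = (1 + |ξ|) ^ (B + 2) * (1 + |ξ|) ^ 2 := by
        rw [← pow_add]
      rw [h6]
      field_simp
    rw [h5] at h4
    have h7 : 0 ≤ 64 * C ^ 2 * Real.exp (3 / 2 * c) * Z * (1 + |τ|) ^ B := by positivity
    have h8 := mul_le_mul_of_nonneg_left h4 h7
    calc ‖kk ck ξ‖ * (64 * C ^ 2 * Real.exp (3 / 2 * c) * Z * (1 + |τ|) ^ B *
          (1 + 2 * Real.pi * |ξ|) ^ (B + 2))
        = 64 * C ^ 2 * Real.exp (3 / 2 * c) * Z * (1 + |τ|) ^ B *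
          (‖kk ck ξ‖ * (1 + 2 * Real.pi * |ξ|) ^ (B + 2)) := by ring
      _ ≤ 64 * C ^ 2 * Real.exp (3 / 2 * c) * Z * (1 + |τ|) ^ B *
          (K * E * (2 * Real.pi) ^ (B + 2) * (1 / (1 + |ξ|) ^ 2)) := h8
      _ = _ := by ring
  refine (mul_le_mul' hfirst hsecond).trans ?_
  rw [← ENNReal.ofReal_mul (by positivity)]
  refine ENNReal.ofReal_le_ofReal (le_of_eq ?_)
  have h1 : Real.exp (3 / 2 * c - 48 / 25 * ck) = Real.exp (3 / 2 * c) * (E * E) := by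
    rw [hE, ← Real.exp_add, ← Real.exp_add]
    congr 1
    ring
  rw [h1]
  ring

end Pool.Agent.Lib.MP_ec260d_ntB.IA
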