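import Mathlib
import Pool.Agent.Lib.MP_ec260d_ntB.ASize
import Pool.Agent.Lib.MP_ec260d_ntB.AExp
import Pool.Agent.Lib.MP_ec260d_ntB.AZp
import Pool.Agent.Lib.MP_ec260d_ntB.AKer
import Pool.Agent.Lib.MP_9c2ea5_nt.AZser

/-!
# JOB ATriv: trivial bounds (about 200 lines)

SETUP.  `l = log T`.  `T ≥ T₀(δ, c₁)` large (in particular `l ≥ 4 c₁ + 4`).
* `M_triv`: `MM_eq`: `‖MM δ T s‖ ≤ ∑_H h^(-Re s)`, `Re s = 1/2 + α'/l ≥ -c₁/l`, `h ≤ T^(1/400)`: `h^(-Re s) ≤ max 1 (h^(c₁/l)) ≤ e^(c₁)`; `|HH| ≤ T^(1/400)`; total `≤ T^(1/400) e^(c₁) ≤ T^(1/100)` for `T` large.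
* `Z_triv`: `|α| ≤ c₁`: `Re (zp) = 1/2 + α/l ∈ [1/4, 3/4]`, `ζ(s) = 1/(s-1) + riemannZeta₀ s`, `‖s-1‖ ≥ 1/4`, `zeta0_le s _ 1` (`MP_9c2ea5_nt.An`): `‖riemannZeta₀ s‖ ≤ 2 + 4‖s‖`, `‖s‖ ≤ 1 + |τ| + 3T`: so
  `‖ζ‖ ≤ 100 T (1 + |τ|)` for `t ∈ [T/2, 3T]`.
* `FL_triv`: `FL ≤ 3T (100 T (1+|τ|) T)² ≤ 10^5 T^5 (1+|τ|)²`.
* `FL_far`: for `|τ| ≥ √T`: `T^4 ≤ |τ|^8`, so `FL ≤ 10^5 T (1+|τ|)^10`.
* `R_near`: `|α| ≤ c₁`, `|τ| ≤ √T`, `t ∈ [T/2, 3T]`: `|Im zp| ≥ T/2 - √T ≥ T/4`, `RR_bound 4`: `‖RR‖ ≤ C T^(3/4)/((T/4)(l T/4)^4)`, `‖MM‖ ≤ T`, so `‖RR · MM‖ ≤ 1`.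
* `R_far`: `0 ≤ x ≤ 3`, `s = 1/2 + x + it`: `‖1 - s‖ ≥ T/2`, so `‖RR T s‖ ≤ C T^(1/2)/(T/2)^5 ≤ T^(-4)`, `‖MM δ T s‖ ≤ T^(1/100)` (`M_triv`-type bound, `Re s ≥ 0`): `‖RR MM‖ ≤ T^(-3)`.
-/

namespace Pool.Agent.Lib.MP_ec260d_ntB.IA

open Complex Set Filter Topology MeasureTheory

theorem M_triv : ∃ δ₀ : ℝ, 0 < δ₀ ∧ δ₀ ≤ 1 ∧ ∀ δ c₁ : ℝ, 0 < δ → δ ≤ δ₀ → 0 ≤ c₁ → ∃ T₀ : ℝ, 3 ≤ T₀ ∧ ∀ T : ℝ, T₀ ≤ T →
    ∀ s : ℂ, -(c₁ / Real.log T) ≤ s.re → ‖MM δ T s‖ ≤ T ^ (1 / 100 : ℝ) := by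
  obtain ⟨δ₀, h0, h1, hδ⟩ := hp_size
  refine ⟨δ₀, h0, h1, fun δ c₁ hδ0 hδ1 hc => ?_⟩
  obtain ⟨T₁, hT1, hT⟩ := hδ δ hδ0 hδ1
  refine ⟨max T₁ (Real.exp (c₁ * (400 / 3))), hT1.trans (le_max_left _ _), fun T hT2 s hs => ?_⟩
  have hTT1 : T₁ ≤ T := (le_max_left _ _).trans hT2
  have hTe : Real.exp (c₁ * (400 / 3)) ≤ T := (le_max_right _ _).trans hT2
  have hT3 : 3 ≤ T := hT1.trans hTT1
  have hT0 : 0 < T := by linarith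
  have hl : 0 < Real.log T := Real.log_pos (by linarith)
  obtain ⟨hA, hB⟩ := hT T hTT1
  rw [MM_eq hδ0 (by linarith)]
  have hterm : ∀ H ∈ HH δ T, ‖((-1 : ℂ)) ^ H.card * (hp H : ℂ) ^ (-s)‖ ≤ Real.exp c₁ := by
    intro H hH
    have hpos : 0 < hp H := hp_pos hH
    have hge : (1 : ℝ) ≤ (hp H : ℝ) := by exact_mod_cast hpos
    rw [norm_mul, norm_pow, norm_neg, norm_one, one_pow, one_mul, Complex.norm_natCast_cpow_of_pos hpos]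
    have e1 : ((hp H : ℝ)) ^ ((-s).re) ≤ (hp H : ℝ) ^ (c₁ / Real.log T) := by
      apply Real.rpow_le_rpow_of_exponent_le hge
      rw [Complex.neg_re]
      linarith
    have hq : 0 ≤ c₁ / Real.log T := div_nonneg hc hl.le
    have e2 : (hp H : ℝ) ≤ T := by
      refine (hA H hH).trans ?_
      calc T ^ (1 / 400 : ℝ) ≤ T ^ (1 : ℝ) :=
            Real.rpow_le_rpow_of_exponent_le (by linarith) (by norm_num)
        _ = T := Real.rpow_one T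
    have e3 : (hp H : ℝ) ^ (c₁ / Real.log T) ≤ T ^ (c₁ / Real.log T) :=
      Real.rpow_le_rpow (by linarith) e2 hq
    have e4 : T ^ (c₁ / Real.log T) = Real.exp c₁ := by
      rw [Real.rpow_def_of_pos hT0]
      congr 1
      field_simp
    exact e1.trans (e3.trans e4.le)
  have hsum : ‖∑ H ∈ HH δ T, ((-1 : ℂ)) ^ H.card * (hp H : ℂ) ^ (-s)‖ ≤ (HH δ T).card * Real.exp c₁ := by
    refine (norm_sum_le _ _).trans ?_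
    refine (Finset.sum_le_sum hterm).trans ?_
    rw [Finset.sum_const, nsmul_eq_mul]
  have he : Real.exp c₁ ≤ T ^ (3 / 400 : ℝ) := by
    have h5 : (Real.exp (c₁ * (400 / 3))) ^ (3 / 400 : ℝ) ≤ T ^ (3 / 400 : ℝ) :=
      Real.rpow_le_rpow (Real.exp_pos _).le hTe (by norm_num)
    have h6 : (Real.exp (c₁ * (400 / 3))) ^ (3 / 400 : ℝ) = Real.exp c₁ := by
      rw [← Real.exp_mul]
      congr 1
      ring
    rw [h6] at h5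
    exact h5
  calc _ ≤ ((HH δ T).card : ℝ) * Real.exp c₁ := hsum
    _ ≤ T ^ (1 / 400 : ℝ) * T ^ (3 / 400 : ℝ) :=
        mul_le_mul hB he (Real.exp_pos _).le (Real.rpow_nonneg hT0.le _)
    _ = T ^ (1 / 100 : ℝ) := by
        rw [← Real.rpow_add hT0]
        norm_num

theorem Z_triv (c₁ : ℝ) (hc : 0 ≤ c₁) : ∃ T₀ : ℝ, 3 ≤ T₀ ∧ ∀ T : ℝ, T₀ ≤ T → ∀ α τ t : ℝ, |α| ≤ c₁ → T / 2 ≤ t → t ≤ 3 * T →
    ‖riemannZeta (zp T α τ t)‖ ≤ 100 * T * (1 + |τ|) := by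
  refine ⟨max 3 (Real.exp (4 * c₁)), le_max_left _ _, fun T hT α τ t hα ht1 ht2 => ?_⟩
  have hT3 : 3 ≤ T := (le_max_left _ _).trans hT
  have hTe : Real.exp (4 * c₁) ≤ T := (le_max_right _ _).trans hT
  have hT0 : 0 < T := by linarith
  have hl : 1 ≤ Real.log T := by
    rw [Real.le_log_iff_exp_le hT0]
    have := Real.exp_one_lt_d9
    linarith
  have hl0 : 0 < Real.log T := by linarith
  have hl4 : 4 * c₁ ≤ Real.log T := by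
    rw [Real.le_log_iff_exp_le hT0]
    exact hTe
  set s := zp T α τ t with hs
  have hre : s.re = 1 / 2 + α / Real.log T := zp_re T α τ t
  have him : s.im = τ / Real.log T + t := zp_im T α τ t
  have habs : |α / Real.log T| ≤ 1 / 4 := by
    rw [abs_div, abs_of_pos hl0, div_le_iff₀ hl0]
    linarith
  have h1 := abs_le.mp habs
  have hr1 : 1 / 4 ≤ s.re := by rw [hre]; linarith [h1.1]
  have hr2 : s.re ≤ 3 / 4 := by rw [hre]; linarith [h1.2]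
  have hs1 : s ≠ 1 := by
    intro h
    rw [h, Complex.one_re] at hr2
    linarith
  have hnorm : ‖s‖ ≤ 3 / 4 + (|τ| + 3 * T) := by
    refine (Complex.norm_le_abs_re_add_abs_im s).trans ?_
    have a1 : |s.re| ≤ 3 / 4 := by
      rw [abs_of_nonneg (by linarith)]
      exact hr2
    have a2 : |s.im| ≤ |τ| + 3 * T := by
      rw [him]
      refine (abs_add_le _ _).trans ?_
      have a3 : |τ / Real.log T| ≤ |τ| := by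
        rw [abs_div, abs_of_pos hl0]
        exact div_le_self (abs_nonneg _) hl
      have a4 : |t| ≤ 3 * T := by
        rw [abs_of_nonneg (by linarith)]
        exact ht2
      linarith
    linarith
  have hinv : ‖(s - 1)⁻¹‖ ≤ 4 := by
    rw [norm_inv]
    have b1 : 1 / 4 ≤ ‖s - 1‖ := by
      refine le_trans ?_ (Complex.abs_re_le_norm _)
      rw [Complex.sub_re, Complex.one_re, abs_sub_comm, abs_of_nonneg (by linarith)]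
      linarith
    calc ‖s - 1‖⁻¹ ≤ (1 / 4 : ℝ)⁻¹ := inv_anti₀ (by norm_num) b1
      _ = 4 := by norm_num
  have hz0 : ‖riemannZeta₀ s‖ ≤ 2 + 4 * ‖s‖ := by
    refine (Pool.Agent.Lib.MP_9c2ea5_nt.An.zeta0_le s (by linarith) 1 le_rfl).trans ?_
    have c1 : ∑ k ∈ Finset.Ioc (0 : ℕ) 1, (k : ℝ) ^ (-s.re) = 1 := by
      have : Finset.Ioc (0 : ℕ) 1 = {1} := by decide
      rw [this, Finset.sum_singleton]
      simp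
    rw [c1]
    have c2 : (((1 : ℕ) : ℝ)) ^ (-s.re) = 1 := by simp
    rw [c2, mul_one, mul_one]
    have c3 : ‖s‖ / s.re ≤ 4 * ‖s‖ := by
      rw [div_le_iff₀ (by linarith)]
      nlinarith [norm_nonneg s]
    linarith
  have hz : riemannZeta s = (s - 1)⁻¹ + riemannZeta₀ s := riemannZeta_eq_inv_sub_add hs1
  rw [hz]
  refine (norm_add_le _ _).trans ?_
  have hτ : 0 ≤ |τ| := abs_nonneg τ
  nlinarith [mul_nonneg hT0.le hτ]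

private theorem atrivb_big (K : ℝ) : ∃ T₀ : ℝ, 3 ≤ T₀ ∧ ∀ T : ℝ, T₀ ≤ T → K ≤ Real.log T ∧
    K ≤ T ^ (1 / 5 : ℝ) ∧ 16 ≤ T := by
  have h1 := Real.tendsto_log_atTop.eventually_ge_atTop K
  have h2 := (tendsto_rpow_atTop (show (0 : ℝ) < 1 / 5 by norm_num)).eventually_ge_atTop K
  have h3 := Filter.eventually_ge_atTop (16 : ℝ)
  obtain ⟨T₁, hT₁⟩ := Filter.eventually_atTop.1 (h1.and (h2.and h3))
  refine ⟨max T₁ 3, le_max_right _ _, fun T hT => ?_⟩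
  exact hT₁ T ((le_max_left _ _).trans hT)

private theorem atrivb_pt {δ T c₁ α' α τ : ℝ} (hT : 3 ≤ T)
    (hM : ∀ s : ℂ, -(c₁ / Real.log T) ≤ s.re → ‖MM δ T s‖ ≤ T ^ (1 / 100 : ℝ))
    (hZ : ∀ α τ t : ℝ, |α| ≤ c₁ → T / 2 ≤ t → t ≤ 3 * T →
      ‖riemannZeta (zp T α τ t)‖ ≤ 100 * T * (1 + |τ|)) (hα : |α| ≤ c₁) (hα' : -c₁ ≤ α') (t : ℝ)
    (h1 : T / 2 ≤ t) (h2 : t ≤ 3 * T) :
    ‖riemannZeta (zp T α τ t) * MM δ T (zp T α' 0 t)‖ ^ 2 ≤ 10 ^ 4 * T ^ 4 * (1 + |τ|) ^ 2 := by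
  have hl : 0 < Real.log T := Real.log_pos (by linarith)
  have hre : -(c₁ / Real.log T) ≤ (zp T α' 0 t).re := by
    rw [zp_re, ← neg_div]
    have : -c₁ / Real.log T ≤ α' / Real.log T := div_le_div_of_nonneg_right hα' hl.le
    linarith
  have a1 := hM _ hre
  have a2 := hZ α τ t hα h1 h2
  have a3 : T ^ (1 / 100 : ℝ) ≤ T := by
    calc T ^ (1 / 100 : ℝ) ≤ T ^ (1 : ℝ) :=
          Real.rpow_le_rpow_of_exponent_le (by linarith) (by norm_num)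
      _ = T := Real.rpow_one T
  have hτ : 0 ≤ |τ| := abs_nonneg _
  have hT0 : 0 < T := by linarith
  have a4 : ‖riemannZeta (zp T α τ t) * MM δ T (zp T α' 0 t)‖ ≤ 100 * T * (1 + |τ|) * T := by
    rw [norm_mul]
    exact mul_le_mul a2 (a1.trans a3) (norm_nonneg _) (by positivity)
  calc _ ≤ (100 * T * (1 + |τ|) * T) ^ 2 := pow_le_pow_left₀ (norm_nonneg _) a4 2
    _ = _ := by ring

theorem FL_triv : ∃ δ₀ : ℝ, 0 < δ₀ ∧ δ₀ ≤ 1 ∧ ∀ δ c₁ : ℝ, 0 < δ → δ ≤ δ₀ → 0 ≤ c₁ → ∃ T₀ : ℝ, 3 ≤ T₀ ∧ ∀ T : ℝ, T₀ ≤ T →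
    ∀ α' α τ : ℝ, |α| ≤ c₁ → -c₁ ≤ α' → FL δ T α' α τ ≤ ENNReal.ofReal (10 ^ 5 * T ^ 5 * (1 + |τ|) ^ 2) := by
  obtain ⟨δ₀, hδ₀, hδ₁, hM⟩ := M_triv
  refine ⟨δ₀, hδ₀, hδ₁, fun δ c₁ hδ hδδ hc => ?_⟩
  obtain ⟨T₁, hT₁, h1⟩ := hM δ c₁ hδ hδδ hc
  obtain ⟨T₂, hT₂, h2⟩ := Z_triv c₁ hc
  refine ⟨max T₁ T₂, le_trans hT₁ (le_max_left _ _), fun T hT α' α τ hα hα' => ?_⟩
  have g1 : T₁ ≤ T := (le_max_left _ _).trans hT
  have g2 : T₂ ≤ T := (le_max_right _ _).trans hT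
  have g3 : 3 ≤ T := hT₁.trans g1
  have hT0 : 0 < T := by linarith
  unfold FL
  have k1 : ∫⁻ t in Icc (T / 2) (3 * T),
      ENNReal.ofReal (‖riemannZeta (zp T α τ t) * MM δ T (zp T α' 0 t)‖ ^ 2) ≤
      ∫⁻ _ in Icc (T / 2) (3 * T), ENNReal.ofReal (10 ^ 4 * T ^ 4 * (1 + |τ|) ^ 2) := by
    refine setLIntegral_mono' measurableSet_Icc fun t ht => ?_
    exact ENNReal.ofReal_le_ofReal (atrivb_pt g3 (h1 T g1) (h2 T g2) hα hα' t ht.1 ht.2)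
  refine k1.trans ?_
  rw [setLIntegral_const, Real.volume_Icc, ← ENNReal.ofReal_mul (by positivity)]
  refine ENNReal.ofReal_le_ofReal ?_
  have e : 10 ^ 5 * T ^ 5 * (1 + |τ|) ^ 2 - 10 ^ 4 * T ^ 4 * (1 + |τ|) ^ 2 * (3 * T - T / 2) =
      75000 * T ^ 5 * (1 + |τ|) ^ 2 := by ring
  have e2 : 0 ≤ 75000 * T ^ 5 * (1 + |τ|) ^ 2 := by positivity
  linarith

theorem FL_far : ∃ δ₀ : ℝ, 0 < δ₀ ∧ δ₀ ≤ 1 ∧ ∀ δ c₁ : ℝ, 0 < δ → δ ≤ δ₀ → 0 ≤ c₁ → ∃ T₀ : ℝ, 3 ≤ T₀ ∧ ∀ T : ℝ, T₀ ≤ T →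
    ∀ α' α τ : ℝ, |α| ≤ c₁ → -c₁ ≤ α' → Real.sqrt T ≤ |τ| → FL δ T α' α τ ≤ ENNReal.ofReal (10 ^ 5 * T * (1 + |τ|) ^ 10) := by
  obtain ⟨δ₀, hδ₀, hδ₁, hF⟩ := FL_triv
  refine ⟨δ₀, hδ₀, hδ₁, fun δ c₁ hδ hδδ hc => ?_⟩
  obtain ⟨T₁, hT₁, h1⟩ := hF δ c₁ hδ hδδ hc
  refine ⟨T₁, hT₁, fun T hT α' α τ hα hα' hτ => ?_⟩
  refine (h1 T hT α' α τ hα hα').trans (ENNReal.ofReal_le_ofReal ?_)
  have hT0 : 0 < T := by linarith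
  have hτ0 : 0 ≤ |τ| := abs_nonneg _
  have k1 : T ≤ |τ| ^ 2 := by
    have := pow_le_pow_left₀ (Real.sqrt_nonneg T) hτ 2
    rwa [Real.sq_sqrt hT0.le] at this
  have k2 : T ≤ (1 + |τ|) ^ 2 := k1.trans (pow_le_pow_left₀ hτ0 (by linarith) 2)
  have k3 : T ^ 4 ≤ ((1 + |τ|) ^ 2) ^ 4 := pow_le_pow_left₀ hT0.le k2 4
  calc 10 ^ 5 * T ^ 5 * (1 + |τ|) ^ 2 = T ^ 4 * (10 ^ 5 * T * (1 + |τ|) ^ 2) := by ring
    _ ≤ ((1 + |τ|) ^ 2) ^ 4 * (10 ^ 5 * T * (1 + |τ|) ^ 2) :=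
        mul_le_mul_of_nonneg_right k3 (by positivity)
    _ = _ := by ring

theorem R_near : ∃ δ₀ : ℝ, 0 < δ₀ ∧ δ₀ ≤ 1 ∧ ∀ δ c₁ : ℝ, 0 < δ → δ ≤ δ₀ → 0 ≤ c₁ → ∃ T₀ : ℝ, 3 ≤ T₀ ∧ ∀ T : ℝ, T₀ ≤ T →
    ∀ α' α τ t : ℝ, |α| ≤ c₁ → -c₁ ≤ α' → |τ| ≤ Real.sqrt T → T / 2 ≤ t → t ≤ 3 * T →
    ‖RR T (zp T α τ t) * MM δ T (zp T α' 0 t)‖ ≤ 1 := by
  obtain ⟨δ₀, hδ₀, hδ₁, hM⟩ := M_triv
  obtain ⟨C, hC, hR⟩ := RR_bound 0
  refine ⟨δ₀, hδ₀, hδ₁, fun δ c₁ hδ hδδ hc => ?_⟩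
  obtain ⟨T₁, hT₁, h1⟩ := hM δ c₁ hδ hδδ hc
  obtain ⟨T₂, hT₂, h2⟩ := atrivb_big (max (4 * c₁ + 4) (4 * C))
  refine ⟨max T₁ T₂, le_trans hT₁ (le_max_left _ _), fun T hT α' α τ t hα hα' hτ ht1 ht2 => ?_⟩
  have g1 : T₁ ≤ T := (le_max_left _ _).trans hT
  obtain ⟨b1, b2, b3⟩ := h2 T ((le_max_right _ _).trans hT)
  have b1' : 4 * c₁ + 4 ≤ Real.log T := (le_max_left _ _).trans b1
  have b2' : 4 * C ≤ T ^ (1 / 5 : ℝ) := (le_max_right _ _).trans b2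
  have hT0 : 0 < T := by linarith
  have hl : 0 < Real.log T := by linarith
  have hl1 : 1 ≤ Real.log T := by linarith
  have hre : -(c₁ / Real.log T) ≤ (zp T α' 0 t).re := by
    rw [zp_re, ← neg_div]
    have : -c₁ / Real.log T ≤ α' / Real.log T := div_le_div_of_nonneg_right hα' hl.le
    linarith
  have a1 := h1 T g1 _ hre
  obtain ⟨s, hs⟩ : ∃ s : ℂ, s = zp T α τ t := ⟨_, rfl⟩
  have hsre : s.re = 1 / 2 + α / Real.log T := by rw [hs, zp_re]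
  have hsim : s.im = τ / Real.log T + t := by rw [hs, zp_im]
  have d1 : |α / Real.log T| ≤ 1 / 4 := by
    rw [abs_div, abs_of_pos hl, div_le_iff₀ hl]
    linarith
  have d2 : |τ / Real.log T| ≤ T / 4 := by
    rw [abs_div, abs_of_pos hl]
    have e1 : |τ| / Real.log T ≤ |τ| := div_le_self (abs_nonneg _) hl1
    have e2 : Real.sqrt T ≤ T / 4 := by
      rw [Real.sqrt_le_left (by linarith)]
      nlinarith
    linarith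
  have d3 : T / 4 ≤ s.im := by
    have := (abs_le.1 d2).1
    rw [hsim]
    linarith
  have d4 : T / 4 ≤ ‖1 - s‖ := by
    have e1 := (le_abs_self _).trans (Complex.abs_im_le_norm (s - 1))
    rw [Complex.sub_im, Complex.one_im, sub_zero] at e1
    rw [norm_sub_rev]
    linarith
  have d5 : s ≠ 1 := by
    intro h
    rw [h, Complex.one_im] at d3
    linarith
  have a2 := hR T s (by linarith) d5
  rw [pow_zero, mul_one] at a2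
  have d6 : max 0 (1 - s.re) ≤ 3 / 4 := by
    refine max_le (by norm_num) ?_
    have := (abs_le.1 d1).1
    rw [hsre]
    linarith
  have d7 : T ^ (max 0 (1 - s.re)) ≤ T ^ (3 / 4 : ℝ) :=
    Real.rpow_le_rpow_of_exponent_le (by linarith) d6
  have d8 : ‖RR T s‖ * (T / 4) ≤ C * T ^ (3 / 4 : ℝ) :=
    (mul_le_mul_of_nonneg_left d4 (norm_nonneg _)).trans
      (a2.trans (mul_le_mul_of_nonneg_left d7 hC.le))
  rw [← hs, norm_mul]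
  have d9 : ‖RR T s‖ * ‖MM δ T (zp T α' 0 t)‖ * (T / 4) ≤ C * T ^ (3 / 4 : ℝ) * T ^ (1 / 100 : ℝ) := by
    calc ‖RR T s‖ * ‖MM δ T (zp T α' 0 t)‖ * (T / 4) =
        ‖RR T s‖ * (T / 4) * ‖MM δ T (zp T α' 0 t)‖ := by ring
      _ ≤ _ := mul_le_mul d8 a1 (norm_nonneg _) (by positivity)
  have d10 : C * T ^ (3 / 4 : ℝ) * T ^ (1 / 100 : ℝ) ≤ T / 4 := by
    rw [mul_assoc, ← Real.rpow_add hT0]
    have e1 : 4 * C * T ^ ((3 : ℝ) / 4 + 1 / 100) ≤ T ^ (1 / 5 : ℝ) * T ^ ((3 : ℝ) / 4 + 1 / 100) :=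
      mul_le_mul_of_nonneg_right b2' (by positivity)
    rw [← Real.rpow_add hT0] at e1
    have e2 : T ^ ((1 : ℝ) / 5 + (3 / 4 + 1 / 100)) ≤ T ^ (1 : ℝ) :=
      Real.rpow_le_rpow_of_exponent_le (by linarith) (by norm_num)
    rw [Real.rpow_one] at e2
    linarith
  have d11 : ‖RR T s‖ * ‖MM δ T (zp T α' 0 t)‖ * (T / 4) ≤ 1 * (T / 4) := by linarith
  exact le_of_mul_le_mul_right d11 (by positivity)

theorem R_far : ∃ δ₀ : ℝ, 0 < δ₀ ∧ δ₀ ≤ 1 ∧ ∀ δ : ℝ, 0 < δ → δ ≤ δ₀ → ∃ T₀ : ℝ, 3 ≤ T₀ ∧ ∀ T : ℝ, T₀ ≤ T →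
    ∀ x t : ℝ, 0 ≤ x → x ≤ 3 → T / 2 ≤ t → t ≤ 3 * T →
    ‖RR T (((1 / 2 + x : ℝ) : ℂ) + t * I) * MM δ T (((1 / 2 + x : ℝ) : ℂ) + t * I)‖ ≤ T ^ (-(3 : ℝ)) := by
  obtain ⟨δ₀, hδ₀, hδ₁, hM⟩ := M_triv
  obtain ⟨C, hC, hR⟩ := RR_bound 4
  refine ⟨δ₀, hδ₀, hδ₁, fun δ hδ hδδ => ?_⟩
  obtain ⟨T₁, hT₁, h1⟩ := hM δ 0 hδ hδδ le_rfl
  obtain ⟨T₂, hT₂, h2⟩ := atrivb_big (max 1 (32 * C))
  refine ⟨max T₁ T₂, le_trans hT₁ (le_max_left _ _), fun T hT x t hx0 hx3 ht1 ht2 => ?_⟩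
  have g1 : T₁ ≤ T := (le_max_left _ _).trans hT
  obtain ⟨b1, b2, b3⟩ := h2 T ((le_max_right _ _).trans hT)
  have hl1 : 1 ≤ Real.log T := (le_max_left _ _).trans b1
  have b2' : 32 * C ≤ T ^ (1 / 5 : ℝ) := (le_max_right _ _).trans b2
  have hT0 : 0 < T := by linarith
  obtain ⟨s, hs⟩ : ∃ s : ℂ, s = ((1 / 2 + x : ℝ) : ℂ) + t * I := ⟨_, rfl⟩
  rw [← hs]
  have hsre : s.re = 1 / 2 + x := by
    rw [hs, Complex.add_re, Complex.ofReal_re, Complex.re_ofReal_mul, Complex.I_re, mul_zero,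
      add_zero]
  have hsim : s.im = t := by
    rw [hs, Complex.add_im, Complex.ofReal_im, Complex.im_ofReal_mul, Complex.I_im, mul_one,
      zero_add]
  have hre : -(0 / Real.log T) ≤ s.re := by
    rw [zero_div, neg_zero, hsre]
    linarith
  have a1 := h1 T g1 s hre
  have d4 : T / 2 ≤ ‖1 - s‖ := by
    have e1 := (le_abs_self _).trans (Complex.abs_im_le_norm (s - 1))
    rw [Complex.sub_im, Complex.one_im, sub_zero, hsim] at e1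
    rw [norm_sub_rev]
    linarith
  have d5 : s ≠ 1 := by
    intro h
    rw [h, Complex.one_im] at hsim
    linarith
  have a2 := hR T s (by linarith) d5
  have d6 : max 0 (1 - s.re) ≤ 1 / 2 := by
    refine max_le (by norm_num) ?_
    rw [hsre]
    linarith
  have d7 : T ^ (max 0 (1 - s.re)) ≤ T ^ (1 / 2 : ℝ) :=
    Real.rpow_le_rpow_of_exponent_le (by linarith) d6
  have d8 : T / 2 ≤ Real.log T * ‖1 - s‖ := by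
    calc T / 2 ≤ 1 * ‖1 - s‖ := by rw [one_mul]; exact d4
      _ ≤ _ := mul_le_mul_of_nonneg_right hl1 (norm_nonneg _)
  have d9 : T / 2 * (T / 2) ^ 4 ≤ ‖1 - s‖ * (Real.log T * ‖1 - s‖) ^ 4 :=
    mul_le_mul d4 (pow_le_pow_left₀ (by positivity) d8 4) (by positivity) (norm_nonneg _)
  have d10 : ‖RR T s‖ * (T / 2 * (T / 2) ^ 4) ≤ C * T ^ (1 / 2 : ℝ) :=
    (mul_le_mul_of_nonneg_left d9 (norm_nonneg _)).trans
      (a2.trans (mul_le_mul_of_nonneg_left d7 hC.le))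
  have d11 : ‖RR T s‖ * T ^ 5 ≤ T ^ (7 / 10 : ℝ) := by
    have e1 : ‖RR T s‖ * T ^ 5 = 32 * (‖RR T s‖ * (T / 2 * (T / 2) ^ 4)) := by ring
    rw [e1]
    calc 32 * (‖RR T s‖ * (T / 2 * (T / 2) ^ 4)) ≤ 32 * (C * T ^ (1 / 2 : ℝ)) := by linarith
      _ = 32 * C * T ^ (1 / 2 : ℝ) := by ring
      _ ≤ T ^ (1 / 5 : ℝ) * T ^ (1 / 2 : ℝ) := mul_le_mul_of_nonneg_right b2' (by positivity)
      _ = T ^ (7 / 10 : ℝ) := by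
          rw [← Real.rpow_add hT0]
          norm_num
  rw [norm_mul]
  have d12 : ‖RR T s‖ * ‖MM δ T s‖ * T ^ 5 ≤ T ^ (7 / 10 : ℝ) * T ^ (1 / 100 : ℝ) := by
    calc ‖RR T s‖ * ‖MM δ T s‖ * T ^ 5 = ‖RR T s‖ * T ^ 5 * ‖MM δ T s‖ := by ring
      _ ≤ _ := mul_le_mul d11 a1 (norm_nonneg _) (by positivity)
  have d13 : T ^ (7 / 10 : ℝ) * T ^ (1 / 100 : ℝ) ≤ T ^ (-(3 : ℝ)) * T ^ 5 := by
    rw [← Real.rpow_add hT0, ← Real.rpow_natCast, ← Real.rpow_add hT0]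
    exact Real.rpow_le_rpow_of_exponent_le (by linarith) (by norm_num)
  exact le_of_mul_le_mul_right (d12.trans d13) (by positivity)

end Pool.Agent.Lib.MP_ec260d_ntB.IA
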