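import Mathlib

/-!
# JOB AHol: holomorphic dependence of integrals (about 90 lines)

PROOF.  Let `s₀ ∈ U`, `ε`, `b` as in `hb`.  For `s ∈ ball s₀ (ε/2)` and every `ξ`, Cauchy's estimate on the circle of radius `ε/2` around `s` (`Complex.norm_deriv_le_of_forall_mem_sphere_norm_le`) gives
`‖∂_s g s ξ‖ ≤ (2/ε) b ξ`.  Now `hasDerivAt_integral_of_dominated_loc_of_deriv_le` with `F = g`, `F' s ξ = deriv (fun s => g s ξ) s`, bound `(2/ε) b ξ` (the measurability of `F' s₀`: limit of difference quotients, e.g.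
`aestronglyMeasurable_of_tendsto_ae` with `(g (s₀ + 1/n) ξ - g s₀ ξ) n`, eventually in the ball).
-/

namespace Pool.Agent.Lib.MP_ec260d_ntB.IA

open Complex Set Filter Topology MeasureTheory

theorem hol_int {U : Set ℂ} (hU : IsOpen U) (g : ℂ → ℝ → ℂ) (hg : ∀ ξ, DifferentiableOn ℂ (fun s => g s ξ) U)
    (hm : ∀ s ∈ U, AEStronglyMeasurable (g s) volume)
    (hb : ∀ s₀ ∈ U, ∃ ε : ℝ, 0 < ε ∧ ∃ b : ℝ → ℝ, Integrable b ∧ Metric.ball s₀ ε ⊆ U ∧
      ∀ s ∈ Metric.ball s₀ ε, ∀ ξ, ‖g s ξ‖ ≤ b ξ) :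
    DifferentiableOn ℂ (fun s => ∫ ξ : ℝ, g s ξ) U := by
  intro s₀ hs₀
  obtain ⟨ε, hε, b, hbi, hball, hbd⟩ := hb s₀ hs₀
  have hε2 : 0 < ε / 2 := by linarith
  have hd : ∀ ξ, ∀ s ∈ Metric.ball s₀ ε, DifferentiableAt ℂ (fun s => g s ξ) s :=
    fun ξ s hs => (hg ξ).differentiableAt (hU.mem_nhds (hball hs))
  have hder : ∀ ξ, ∀ s ∈ Metric.ball s₀ (ε / 2), ‖deriv (fun s => g s ξ) s‖ ≤ b ξ / (ε / 2) := by
    intro ξ s hs
    rw [Metric.mem_ball] at hs
    have hsub : Metric.closedBall s (ε / 2) ⊆ Metric.ball s₀ ε := by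
      intro z hz
      rw [Metric.mem_closedBall] at hz
      rw [Metric.mem_ball]
      have := dist_triangle z s s₀
      linarith
    refine Complex.norm_deriv_le_of_forall_mem_sphere_norm_le hε2 ?_ ?_
    · refine DifferentiableOn.diffContOnCl ?_
      refine (hg ξ).mono ?_
      exact (Metric.closure_ball_subset_closedBall.trans hsub).trans hball
    · intro z hz
      exact hbd z (hsub (Metric.sphere_subset_closedBall hz)) ξ
  have hmeas : AEStronglyMeasurable (fun ξ => deriv (fun s => g s ξ) s₀) volume := by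
    have hy0 : ∀ n : ℕ, (0 : ℝ) < ε / 2 / ((n : ℝ) + 1) := fun n => div_pos hε2 (by positivity)
    have hyt : Tendsto (fun n : ℕ => s₀ + ((ε / 2 / ((n : ℝ) + 1) : ℝ) : ℂ)) atTop (𝓝 s₀) := by
      have h1 : Tendsto (fun n : ℕ => ε / 2 / ((n : ℝ) + 1)) atTop (𝓝 0) := by
        have := (tendsto_one_div_add_atTop_nhds_zero_nat (𝕜 := ℝ)).const_mul (ε / 2)
        rw [mul_zero] at this
        refine this.congr fun n => ?_
        rw [mul_one_div]
      have h2 : Tendsto (fun n : ℕ => ((ε / 2 / ((n : ℝ) + 1) : ℝ) : ℂ)) atTop (𝓝 ((0 : ℝ) : ℂ)) :=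
        (Complex.continuous_ofReal.tendsto 0).comp h1
      have h3 := h2.const_add s₀
      rw [Complex.ofReal_zero, add_zero] at h3
      exact h3
    have hyne : ∀ n : ℕ, s₀ + ((ε / 2 / ((n : ℝ) + 1) : ℝ) : ℂ) ≠ s₀ := by
      intro n h
      have h1 : ((ε / 2 / ((n : ℝ) + 1) : ℝ) : ℂ) = 0 := by
        simpa using h
      rw [Complex.ofReal_eq_zero] at h1
      exact (hy0 n).ne' h1
    have hyb : ∀ n : ℕ, s₀ + ((ε / 2 / ((n : ℝ) + 1) : ℝ) : ℂ) ∈ Metric.ball s₀ ε := by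
      intro n
      rw [Metric.mem_ball, dist_eq_norm, add_sub_cancel_left, Complex.norm_real, Real.norm_eq_abs,
        abs_of_pos (hy0 n)]
      have h1 : ε / 2 / ((n : ℝ) + 1) ≤ ε / 2 := div_le_self hε2.le (by
        have : (0 : ℝ) ≤ n := Nat.cast_nonneg n
        linarith)
      linarith
    refine aestronglyMeasurable_of_tendsto_ae atTop
      (f := fun (n : ℕ) ξ => slope (fun s => g s ξ) s₀ (s₀ + ((ε / 2 / ((n : ℝ) + 1) : ℝ) : ℂ))) ?_ ?_
    · intro n
      have h1 := ((hm _ (hball (hyb n))).sub (hm s₀ hs₀)).const_smul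
        ((s₀ + ((ε / 2 / ((n : ℝ) + 1) : ℝ) : ℂ) - s₀)⁻¹)
      exact h1
    · refine Eventually.of_forall fun ξ => ?_
      have h1 := hasDerivAt_iff_tendsto_slope.1 (hd ξ s₀ (Metric.mem_ball_self hε)).hasDerivAt
      refine h1.comp ?_
      rw [tendsto_nhdsWithin_iff]
      exact ⟨hyt, Eventually.of_forall fun n => hyne n⟩
  have hint : Integrable (g s₀) volume :=
    hbi.mono' (hm s₀ hs₀) (Eventually.of_forall fun ξ => hbd s₀ (Metric.mem_ball_self hε) ξ)
  have hkey := hasDerivAt_integral_of_dominated_loc_of_deriv_le (μ := volume) (F := g)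
    (F' := fun s ξ => deriv (fun s => g s ξ) s) (x₀ := s₀) (bound := fun ξ => b ξ / (ε / 2))
    (s := Metric.ball s₀ (ε / 2)) (Metric.ball_mem_nhds s₀ hε2)
    (by
      filter_upwards [Metric.ball_mem_nhds s₀ hε] with s hs
      exact hm s (hball hs))
    hint hmeas (Eventually.of_forall fun ξ s hs => hder ξ s hs) (hbi.div_const _)
    (Eventually.of_forall fun ξ s hs =>
      (hd ξ s (Metric.ball_subset_ball (by linarith) hs)).hasDerivAt)
  exact hkey.2.differentiableAt.differentiableWithinAt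

end Pool.Agent.Lib.MP_ec260d_ntB.IA
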