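import Mathlib
import Pool.Agent.Lib.MP_ec260d_ntB.AKer

/-!
# JOB AZa: the splitting of zeta in the region of absolute convergence, and the polar part (about 220 lines)

SETUP.  `l = log T ≥ 1`, `c ≥ 1`, `v ξ = (c + 2 π ξ i)/l`.
* `split_conv`: `Re s > 1 + c/l`.  `ζ(s - v ξ) = ∑_(n ≥ 1) n^(-s) n^(v ξ)` and `n^(v ξ) = exp ((c + 2πξ i) (log n/l))`; interchange sum and integral (`integral_tsum`/`hasSum_integral_of_summable_integral_norm`):
  `‖kk c ξ n^(-s) n^(v ξ)‖ = ‖kk c ξ‖ n^(-(Re s - c/l))`, summable in `n`, `kk c` integrable (`kk_bound` with `r = 2`, `kk_cont`).  By `kk_inv` at `x = log n/l`: `∑ n^(-s) (1 - Th (log n/l)) = ζ(s) - DD T s`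
  (for `n > T`, `log n/l > 1`, `Th = 0`, `Th_zero`; `zeta_eq_tsum_one_div_nat_add_one_cpow`).
* `pole_right`: `Re s > 1 + c/l`: `1/(s - 1 - v ξ) = l ∫_0^∞ exp (-(s-1-v ξ) l x) dx`; Fubini (absolutely convergent) and `kk_inv`:
  `∫ kk c ξ/(s-1-v ξ) dξ = l ∫_0^∞ e^(-(s-1) l x) (1 - Th x) dx = 1/(s-1) - l ∫_0^∞ e^(-(s-1) l x) Th x dx`, and by parts (`Th 0 = 1`, `Th x = 0` for `x ≥ 99/100`):
  `l ∫_0^∞ e^(-(s-1) l x) Th x dx = 1/(s-1) + (1/(s-1)) ∫ Th'(x) e^(-(s-1) l x) dx = 1/(s-1) - RR T s` (`RR T s = (1/(1-s)) ∫ Th'(u) e^(l(1-s)u) du`, `Th'` is supported in `[96/100, 99/100]`).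
  So the result is `RR T s`.
* `pole_left`: `Re s < 1 + c/l`: `1/(s-1-v ξ) = -l ∫_(-∞)^0 exp (-(s-1-v ξ) l x) dx`; Fubini and `kk_inv`, `Th x = 1` for `x ≤ 0`: the result is `0`.
-/

namespace Pool.Agent.Lib.MP_ec260d_ntB.IA

open Complex Set Filter Topology MeasureTheory

private theorem AZaA_int (c : ℝ) (hc : 1 ≤ c) : Integrable (kk c) := by
  obtain ⟨C, hC, hb⟩ := kk_bound 2
  have h1 : Integrable (fun ξ : ℝ => C * (1 + ξ ^ 2)⁻¹) := integrable_inv_one_add_sq.const_mul C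
  refine h1.mono' (kk_cont c hc).aestronglyMeasurable (Eventually.of_forall fun ξ => ?_)
  refine (hb c ξ hc).trans ?_
  have h2 : Real.exp (-(24 / 25 * c)) ≤ 1 := Real.exp_le_one_iff.2 (by linarith)
  have h3 : (1 + ξ ^ 2) ≤ (1 + |ξ|) ^ 2 := by nlinarith [abs_nonneg ξ, sq_abs ξ]
  rw [div_eq_mul_inv]
  have h4 : ((1 + |ξ|) ^ 2)⁻¹ ≤ (1 + ξ ^ 2)⁻¹ := inv_anti₀ (by positivity) h3
  calc C * Real.exp (-(24 / 25 * c)) * ((1 + |ξ|) ^ 2)⁻¹ ≤ C * 1 * (1 + ξ ^ 2)⁻¹ := by gcongr
    _ = C * (1 + ξ ^ 2)⁻¹ := by ring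

private theorem AZaA_pow (n : ℕ) (s v : ℂ) :
    1 / ((n : ℂ) + 1) ^ (s - v) = ((n : ℂ) + 1) ^ (-s) * cexp (v * ((Real.log ((n : ℝ) + 1) : ℝ) : ℂ)) := by
  have hn : ((n : ℂ) + 1) ≠ 0 := by exact_mod_cast Nat.succ_ne_zero n
  have hlog : Complex.log ((n : ℂ) + 1) = ((Real.log ((n : ℝ) + 1) : ℝ) : ℂ) := by
    rw [Complex.ofReal_log (by positivity)]
    push_cast
    rfl
  rw [one_div, ← Complex.cpow_neg, show -(s - v) = -s + v by ring, Complex.cpow_add _ _ hn,
    Complex.cpow_def_of_ne_zero hn v, hlog, mul_comm ((Real.log ((n : ℝ) + 1) : ℝ) : ℂ) v]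

private theorem AZaA_norm (n : ℕ) (s v : ℂ) :
    ‖1 / ((n : ℂ) + 1) ^ (s - v)‖ = ((n : ℝ) + 1) ^ (-(s.re - v.re)) := by
  have hn : (0 : ℝ) < (n : ℝ) + 1 := by positivity
  have h1 : ((n : ℂ) + 1) = (((n : ℝ) + 1 : ℝ) : ℂ) := by push_cast; rfl
  rw [one_div, ← Complex.cpow_neg, h1, Complex.norm_cpow_eq_rpow_re_of_pos hn]
  simp

theorem split_conv (T c : ℝ) (hT : 3 ≤ T) (hc : 1 ≤ c) (s : ℂ) (hs : 1 + c / Real.log T < s.re) :
    ∫ ξ : ℝ, kk c ξ * riemannZeta (s - ((c : ℂ) + 2 * Real.pi * ξ * I) / Real.log T) = riemannZeta s - DD T s := by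
  have hl : 0 < Real.log T := Real.log_pos (by linarith)
  set l := Real.log T with hldef
  have hcl : 0 < c / l := by positivity
  have hs1 : 1 < s.re := by linarith
  set F : ℕ → ℝ → ℂ := fun n ξ => kk c ξ * (1 / ((n : ℂ) + 1) ^ (s - ((c : ℂ) + 2 * Real.pi * ξ * I) / l)) with hF
  have hvre : ∀ ξ : ℝ, (((c : ℂ) + 2 * Real.pi * ξ * I) / l).re = c / l := by
    intro ξ
    rw [Complex.div_ofReal_re]
    simp
  have hsumr : Summable (fun n : ℕ => ((n : ℝ) + 1) ^ (-(s.re - c / l))) := by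
    have h1 : Summable (fun n : ℕ => (n : ℝ) ^ (-(s.re - c / l))) := Real.summable_nat_rpow.2 (by linarith)
    have h2 := (summable_nat_add_iff 1).2 h1
    refine h2.congr fun n => ?_
    push_cast
    rfl
  have hcongr : ∀ ξ : ℝ, kk c ξ * riemannZeta (s - ((c : ℂ) + 2 * Real.pi * ξ * I) / l) = ∑' n, F n ξ := by
    intro ξ
    have h1 : 1 < (s - ((c : ℂ) + 2 * Real.pi * ξ * I) / l).re := by
      rw [Complex.sub_re, hvre]
      linarith
    rw [zeta_eq_tsum_one_div_nat_add_one_cpow h1, ← tsum_mul_left]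
  have hFn : ∀ n ξ, ‖F n ξ‖ = ‖kk c ξ‖ * ((n : ℝ) + 1) ^ (-(s.re - c / l)) := by
    intro n ξ
    rw [hF]
    simp only
    rw [norm_mul, AZaA_norm, hvre]
  have hFeq : ∀ n ξ, F n ξ = ((n : ℂ) + 1) ^ (-s) *
      (kk c ξ * cexp (((c : ℂ) + 2 * Real.pi * ξ * I) * ((Real.log ((n : ℝ) + 1) / l : ℝ) : ℂ))) := by
    intro n ξ
    rw [hF]
    simp only
    rw [AZaA_pow]
    have h1 : ((c : ℂ) + 2 * Real.pi * ξ * I) / l * ((Real.log ((n : ℝ) + 1) : ℝ) : ℂ) =
        ((c : ℂ) + 2 * Real.pi * ξ * I) * ((Real.log ((n : ℝ) + 1) / l : ℝ) : ℂ) := by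
      rw [Complex.ofReal_div]
      ring
    rw [h1]
    ring
  have hFint : ∀ n, Integrable (F n) := by
    intro n
    have h1 : Continuous (F n) := by
      have h2 : F n = fun ξ : ℝ => ((n : ℂ) + 1) ^ (-s) *
          (kk c ξ * cexp (((c : ℂ) + 2 * Real.pi * ξ * I) * ((Real.log ((n : ℝ) + 1) / l : ℝ) : ℂ))) := by
        funext ξ
        exact hFeq n ξ
      rw [h2]
      have h3 := kk_cont c hc
      fun_prop
    refine ((AZaA_int c hc).norm.mul_const (((n : ℝ) + 1) ^ (-(s.re - c / l)))).mono' h1.aestronglyMeasurable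
      (Eventually.of_forall fun ξ => ?_)
    exact (hFn n ξ).le
  have hFsum : Summable fun n => ∫ ξ, ‖F n ξ‖ := by
    have h1 : ∀ n, ∫ ξ, ‖F n ξ‖ = (∫ ξ, ‖kk c ξ‖) * ((n : ℝ) + 1) ^ (-(s.re - c / l)) := by
      intro n
      rw [← integral_mul_const]
      exact integral_congr_ae (Eventually.of_forall fun ξ => hFn n ξ)
    simp only [h1]
    exact hsumr.mul_left _
  have hkey := hasSum_integral_of_summable_integral_norm hFint hFsum
  have hFi : ∀ n, ∫ ξ, F n ξ = ((n : ℂ) + 1) ^ (-s) * ((1 - Th (Real.log ((n : ℝ) + 1) / l) : ℝ) : ℂ) := by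
    intro n
    rw [← kk_inv c hc, ← integral_const_mul]
    exact integral_congr_ae (Eventually.of_forall fun ξ => hFeq n ξ)
  have hlhs : ∫ ξ : ℝ, kk c ξ * riemannZeta (s - ((c : ℂ) + 2 * Real.pi * ξ * I) / l) =
      ∑' n : ℕ, ((n : ℂ) + 1) ^ (-s) * ((1 - Th (Real.log ((n : ℝ) + 1) / l) : ℝ) : ℂ) := by
    rw [integral_congr_ae (Eventually.of_forall hcongr), ← hkey.tsum_eq]
    exact tsum_congr hFi
  rw [hlhs]
  -- the two sums
  have hz : HasSum (fun n : ℕ => ((n : ℂ) + 1) ^ (-s)) (riemannZeta s) := by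
    have h1 : Summable (fun n : ℕ => ((n : ℂ) + 1) ^ (-s)) := by
      have h2 : Summable (fun n : ℕ => 1 / (n : ℂ) ^ s) := Complex.summable_one_div_nat_cpow.2 hs1
      have h3 := (summable_nat_add_iff 1).2 h2
      refine h3.congr fun n => ?_
      rw [Complex.cpow_neg, one_div]
      push_cast
      rfl
    have h2 := h1.hasSum
    rw [zeta_eq_tsum_one_div_nat_add_one_cpow hs1]
    have h3 : (fun n : ℕ => 1 / ((n : ℂ) + 1) ^ s) = fun n : ℕ => ((n : ℂ) + 1) ^ (-s) := by
      funext n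
      rw [Complex.cpow_neg, one_div]
    rw [h3]
    exact h2
  have hD : HasSum (fun n : ℕ => ((n : ℂ) + 1) ^ (-s) * (Th (Real.log ((n : ℝ) + 1) / l) : ℂ)) (DD T s) := by
    have h1 : DD T s = ∑ n ∈ Finset.range ⌊T⌋₊, ((n : ℂ) + 1) ^ (-s) * (Th (Real.log ((n : ℝ) + 1) / l) : ℂ) := by
      unfold DD
      have h2 : Finset.Icc 1 ⌊T⌋₊ = Finset.Ico 1 (⌊T⌋₊ + 1) := by
        ext m
        simp only [Finset.mem_Icc, Finset.mem_Ico]
        omega
      rw [h2, Finset.sum_Ico_eq_sum_range, Nat.add_sub_cancel]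
      refine Finset.sum_congr rfl fun n _ => ?_
      have h3 : ((1 + n : ℕ) : ℝ) = (n : ℝ) + 1 := by push_cast; ring
      have h4 : ((1 + n : ℕ) : ℂ) = (n : ℂ) + 1 := by push_cast; ring
      rw [h3, h4, mul_comm]
    rw [h1]
    refine hasSum_sum_of_ne_finset_zero fun n hn => ?_
    rw [Finset.mem_range, not_lt] at hn
    have h5 : T < (n : ℝ) + 1 := (Nat.floor_lt (by linarith)).1 (by omega : ⌊T⌋₊ < n + 1) |>.trans_le (by push_cast; rfl)
    have h6 : 99 / 100 ≤ Real.log ((n : ℝ) + 1) / l := by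
      rw [le_div_iff₀ hl]
      have h7 : l ≤ Real.log ((n : ℝ) + 1) := Real.log_le_log (by linarith) h5.le
      linarith
    rw [Th_zero _ h6]
    simp
  have hfin := hz.sub hD
  rw [← hfin.tsum_eq]
  refine tsum_congr fun n => ?_
  push_cast
  ring

/-- `kk c` is integrable -/
private theorem AZaB_kk_int (c : ℝ) (hc : 1 ≤ c) : Integrable (kk c) := by
  obtain ⟨C, hC, hb⟩ := kk_bound 2
  have h1 : Integrable (fun ξ : ℝ => C * Real.exp (-(24 / 25 * c)) * (1 + ‖ξ‖) ^ (-(2 : ℝ))) := by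
    refine Integrable.const_mul ?_ _
    refine integrable_one_add_norm (E := ℝ) (μ := volume) (r := 2) ?_
    rw [Module.finrank_self]
    norm_num
  refine h1.mono' (kk_cont c hc).aestronglyMeasurable (Filter.Eventually.of_forall fun ξ => ?_)
  refine (hb c ξ hc).trans (le_of_eq ?_)
  rw [Real.rpow_neg (by positivity), Real.norm_eq_abs, ← div_eq_mul_inv]
  norm_cast

/-- interchange of the integrals -/
private theorem AZaB_fub (c : ℝ) (hc : 1 ≤ c) (a : ℂ) (S : Set ℝ)
    (hint : IntegrableOn (fun x : ℝ => Real.exp ((c - a.re) * x)) S) :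
    ∫ ξ : ℝ, kk c ξ * ∫ x in S, cexp ((((c : ℂ) + 2 * Real.pi * ξ * I) - a) * x) =
      ∫ x in S, cexp (-(a * x)) * ((1 - Th x : ℝ) : ℂ) := by
  have h1 : Integrable (Function.uncurry fun (ξ x : ℝ) =>
      kk c ξ * cexp ((((c : ℂ) + 2 * Real.pi * ξ * I) - a) * x))
      (volume.prod (volume.restrict S)) := by
    have h2 : Integrable (fun z : ℝ × ℝ => ‖kk c z.1‖ * Real.exp ((c - a.re) * z.2))
        (volume.prod (volume.restrict S)) := (AZaB_kk_int c hc).norm.mul_prod hint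
    refine h2.mono' ?_ (Filter.Eventually.of_forall fun z => ?_)
    · have hcont : Continuous (Function.uncurry fun (ξ x : ℝ) =>
          kk c ξ * cexp ((((c : ℂ) + 2 * Real.pi * ξ * I) - a) * x)) := by
        have hk := kk_cont c hc
        unfold Function.uncurry
        fun_prop
      exact hcont.aestronglyMeasurable
    · have h3 : ((((c : ℂ) + 2 * Real.pi * z.1 * I) - a) * z.2).re = (c - a.re) * z.2 := by
        simp
      rw [Function.uncurry, norm_mul, Complex.norm_exp, h3]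
  calc ∫ ξ : ℝ, kk c ξ * ∫ x in S, cexp ((((c : ℂ) + 2 * Real.pi * ξ * I) - a) * x)
      = ∫ ξ : ℝ, ∫ x in S, kk c ξ * cexp ((((c : ℂ) + 2 * Real.pi * ξ * I) - a) * x) := by
        refine integral_congr_ae (Filter.Eventually.of_forall fun ξ => ?_)
        exact (integral_const_mul _ _).symm
    _ = ∫ x in S, ∫ ξ : ℝ, kk c ξ * cexp ((((c : ℂ) + 2 * Real.pi * ξ * I) - a) * x) :=
        integral_integral_swap h1
    _ = ∫ x in S, cexp (-(a * x)) * ((1 - Th x : ℝ) : ℂ) := by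
        refine integral_congr_ae (Filter.Eventually.of_forall fun x => ?_)
        have h4 : ∀ ξ : ℝ, kk c ξ * cexp ((((c : ℂ) + 2 * Real.pi * ξ * I) - a) * x) =
            cexp (-(a * x)) * (kk c ξ * cexp (((c : ℂ) + 2 * Real.pi * ξ * I) * x)) := by
          intro ξ
          have h5 : (((c : ℂ) + 2 * Real.pi * ξ * I) - a) * x =
              -(a * x) + ((c : ℂ) + 2 * Real.pi * ξ * I) * x := by ring
          rw [h5, Complex.exp_add]
          ring
        simp only [h4]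
        rw [integral_const_mul, kk_inv c hc x]

private theorem AZaB_log {T : ℝ} (hT : 3 ≤ T) : 1 ≤ Real.log T := by
  rw [Real.le_log_iff_exp_le (by linarith)]
  exact (Real.exp_one_lt_d9.le.trans (by norm_num)).trans hT

/-- integration by parts -/
private theorem AZaB_ibp (a : ℂ) (ha : 0 < a.re) :
    ∫ x in Ioi (0 : ℝ), cexp (-(a * x)) * ((1 - Th x : ℝ) : ℂ) =
      -(1 / a) * ∫ x : ℝ, ((deriv Th x : ℝ) : ℂ) * cexp (-(a * x)) := by
  have ha0 : a ≠ 0 := by
    intro h
    rw [h, Complex.zero_re] at ha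
    exact lt_irrefl _ ha
  have hTh : Differentiable ℝ Th := (Th_smooth 1).differentiable (by norm_num)
  have hThc : Continuous Th := (Th_smooth 1).continuous
  have hdc : Continuous (deriv Th) := (dTh_smooth 0).continuous
  -- the integrand on the whole line
  have hzero : ∀ x : ℝ, x ≤ 96 / 100 → ((1 - Th x : ℝ) : ℂ) = 0 := by
    intro x hx
    rw [Th_one x hx, sub_self, Complex.ofReal_zero]
  have hI1 : Integrable (fun x : ℝ => cexp (-(a * x)) * ((1 - Th x : ℝ) : ℂ)) := by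
    have h1 : IntegrableOn (fun x : ℝ => cexp (-(a * x)) * ((1 - Th x : ℝ) : ℂ)) (Ioi 0) := by
      have h2 : IntegrableOn (fun x : ℝ => cexp ((-a) * x)) (Ioi 0) :=
        integrableOn_exp_mul_complex_Ioi (by simpa using ha) 0
      refine h2.norm.mono' ?_ (Filter.Eventually.of_forall fun x => ?_)
      · refine Continuous.aestronglyMeasurable ?_
        fun_prop
      · rw [norm_mul, ← neg_mul]
        refine mul_le_of_le_one_right (norm_nonneg _) ?_
        rw [Complex.norm_real, Real.norm_eq_abs, abs_le]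
        obtain ⟨h3, h4⟩ := Th_mem x
        constructor <;> linarith
    refine (integrableOn_iff_integrable_of_support_subset ?_).1 h1
    intro x hx
    rw [Function.mem_support] at hx
    rw [mem_Ioi]
    by_contra hle
    rw [not_lt] at hle
    exact hx (by rw [hzero x (by linarith), mul_zero])
  have hI2 : Integrable (fun x : ℝ => ((deriv Th x : ℝ) : ℂ) * cexp (-(a * x))) := by
    have hcont : Continuous (fun x : ℝ => ((deriv Th x : ℝ) : ℂ) * cexp (-(a * x))) := by
      fun_prop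
    refine hcont.integrable_of_hasCompactSupport ?_
    refine HasCompactSupport.intro (isCompact_Icc (a := (96 / 100 : ℝ)) (b := 99 / 100)) ?_
    intro x hx
    rw [dTh_supp x hx, Complex.ofReal_zero, zero_mul]
  -- the primitive
  have hder : ∀ x : ℝ, HasDerivAt (fun x : ℝ => ((1 - Th x : ℝ) : ℂ) * cexp (-(a * x)))
      (-(((deriv Th x : ℝ) : ℂ) * cexp (-(a * x))) -
        a * (cexp (-(a * x)) * ((1 - Th x : ℝ) : ℂ))) x := by
    intro x
    have h1 : HasDerivAt (fun x : ℝ => ((1 - Th x : ℝ) : ℂ)) (((-(deriv Th x) : ℝ)) : ℂ) x := by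
      have h2 : HasDerivAt (fun x : ℝ => 1 - Th x) (-(deriv Th x)) x := by
        have h3 := ((hTh x).hasDerivAt).const_sub 1
        exact h3
      exact h2.ofReal_comp
    have h4 : HasDerivAt (fun x : ℝ => cexp (-(a * x))) (cexp (-(a * x)) * (-a)) x := by
      have h5 : HasDerivAt (fun x : ℝ => -(a * (x : ℂ))) (-a) x := by
        have e : (fun x : ℝ => -(a * (x : ℂ))) = fun x : ℝ => (-a) * (x : ℂ) := by
          funext y
          ring
        have h6 : HasDerivAt (fun x : ℝ => (-a) * (x : ℂ)) ((-a) * (1 : ℝ)) x :=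
          ((hasDerivAt_id' x).ofReal_comp).const_mul (-a)
        rw [e]
        refine h6.congr_deriv ?_
        rw [Complex.ofReal_one, mul_one]
      exact h5.cexp
    have h7 := h1.mul h4
    refine h7.congr_deriv ?_
    push_cast
    ring
  have hI3 : Integrable (fun x : ℝ => -(((deriv Th x : ℝ) : ℂ) * cexp (-(a * x))) -
        a * (cexp (-(a * x)) * ((1 - Th x : ℝ) : ℂ))) := hI2.neg.sub (hI1.const_mul a)
  have hbot : Tendsto (fun x : ℝ => ((1 - Th x : ℝ) : ℂ) * cexp (-(a * x))) atBot (𝓝 0) := by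
    refine tendsto_const_nhds.congr' ?_
    filter_upwards [Filter.eventually_le_atBot (96 / 100 : ℝ)] with x hx
    rw [hzero x hx, zero_mul]
  have htop : Tendsto (fun x : ℝ => ((1 - Th x : ℝ) : ℂ) * cexp (-(a * x))) atTop (𝓝 0) := by
    rw [tendsto_zero_iff_norm_tendsto_zero]
    have h1 : Tendsto (fun x : ℝ => Real.exp (-(a.re * x))) atTop (𝓝 0) := by
      refine Real.tendsto_exp_neg_atTop_nhds_zero.comp ?_
      exact Filter.Tendsto.const_mul_atTop ha tendsto_id
    refine squeeze_zero (fun x => norm_nonneg _) (fun x => ?_) h1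
    rw [norm_mul, Complex.norm_exp]
    have h2 : (-(a * (x : ℂ))).re = -(a.re * x) := by simp
    rw [h2]
    refine mul_le_of_le_one_left (Real.exp_pos _).le ?_
    rw [Complex.norm_real, Real.norm_eq_abs, abs_le]
    obtain ⟨h3, h4⟩ := Th_mem x
    constructor <;> linarith
  have hmain := integral_of_hasDerivAt_of_tendsto hder hI3 hbot htop
  have e1 : Integrable (fun x : ℝ => -(((deriv Th x : ℝ) : ℂ) * cexp (-(a * x)))) := hI2.neg
  rw [sub_zero, integral_sub e1 (hI1.const_mul a), integral_neg, integral_const_mul] at hmain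
  have hset : ∫ x in Ioi (0 : ℝ), cexp (-(a * x)) * ((1 - Th x : ℝ) : ℂ) =
      ∫ x : ℝ, cexp (-(a * x)) * ((1 - Th x : ℝ) : ℂ) := by
    refine setIntegral_eq_integral_of_forall_compl_eq_zero fun x hx => ?_
    rw [mem_Ioi, not_lt] at hx
    rw [hzero x (by linarith), mul_zero]
  rw [hset]
  have h8 : a * ∫ x : ℝ, cexp (-(a * x)) * ((1 - Th x : ℝ) : ℂ) =
      -∫ x : ℝ, ((deriv Th x : ℝ) : ℂ) * cexp (-(a * x)) := by
    linear_combination -hmain
  field_simp
  linear_combination h8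

theorem pole_right (T c : ℝ) (hT : 3 ≤ T) (hc : 1 ≤ c) (s : ℂ) (hs : 1 + c / Real.log T < s.re) :
    ∫ ξ : ℝ, kk c ξ * (1 / (s - 1 - ((c : ℂ) + 2 * Real.pi * ξ * I) / Real.log T)) = RR T s := by
  have hl := AZaB_log hT
  have hl0 : 0 < Real.log T := by linarith
  have hlC : (Real.log T : ℂ) ≠ 0 := by
    exact_mod_cast hl0.ne'
  set a : ℂ := (Real.log T : ℂ) * (s - 1) with ha
  have hare : a.re = Real.log T * (s.re - 1) := by
    rw [ha, Complex.re_ofReal_mul, Complex.sub_re, Complex.one_re]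
  have hca : c < a.re := by
    rw [hare]
    have h1 : c / Real.log T < s.re - 1 := by linarith
    rw [div_lt_iff₀ hl0] at h1
    linarith
  have ha0 : 0 < a.re := by linarith
  have h1 : ∀ ξ : ℝ, kk c ξ * (1 / (s - 1 - ((c : ℂ) + 2 * Real.pi * ξ * I) / Real.log T)) =
      (Real.log T : ℂ) * (kk c ξ * ∫ x in Ioi (0 : ℝ),
        cexp ((((c : ℂ) + 2 * Real.pi * ξ * I) - a) * x)) := by
    intro ξ
    set b : ℂ := ((c : ℂ) + 2 * Real.pi * ξ * I) - a with hb
    have hbre : b.re = c - a.re := by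
      rw [hb]
      simp
    have hbneg : b.re < 0 := by rw [hbre]; linarith
    have hb0 : b ≠ 0 := by
      intro h
      rw [h, Complex.zero_re] at hbneg
      exact lt_irrefl _ hbneg
    rw [integral_exp_mul_complex_Ioi hbneg 0, Complex.ofReal_zero, mul_zero, Complex.exp_zero]
    have h2 : s - 1 - ((c : ℂ) + 2 * Real.pi * ξ * I) / Real.log T = -b / Real.log T := by
      rw [hb, ha]
      field_simp
      ring
    rw [h2]
    field_simp
  simp only [h1]
  rw [integral_const_mul, AZaB_fub c hc a (Ioi 0) ?_, AZaB_ibp a ha0]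
  · unfold RR
    have h3 : ∀ x : ℝ, ((deriv Th x : ℝ) : ℂ) * cexp (-(a * x)) =
        ((deriv Th x : ℝ) : ℂ) * cexp (Real.log T * (1 - s) * x) := by
      intro x
      have h4 : -(a * (x : ℂ)) = Real.log T * (1 - s) * x := by
        rw [ha]
        ring
      rw [h4]
    simp only [h3]
    have hs1 : (1 - s) ≠ 0 := by
      intro h
      have h5 : s = 1 := by linear_combination -h
      rw [h5, Complex.one_re] at hs
      have h6 : 0 < c / Real.log T := by positivity
      linarith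
    have hane : a ≠ 0 := by
      intro h
      rw [h, Complex.zero_re] at ha0
      exact lt_irrefl _ ha0
    rw [← mul_assoc]
    congr 1
    rw [ha] at hane ⊢
    have hs2 : s - 1 ≠ 0 := by
      intro h
      exact hs1 (by linear_combination -h)
    rw [mul_neg, neg_eq_iff_eq_neg, one_div, one_div, mul_inv, ← mul_assoc,
      mul_inv_cancel₀ hlC, one_mul, ← inv_neg, neg_sub]
  · have h2 : IntegrableOn (fun x : ℝ => cexp (((c - a.re : ℝ) : ℂ) * x)) (Ioi 0) :=
      integrableOn_exp_mul_complex_Ioi (by rw [Complex.ofReal_re]; linarith) 0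
    refine h2.norm.congr (Filter.Eventually.of_forall fun x => ?_)
    beta_reduce
    rw [Complex.norm_exp, ← Complex.ofReal_mul, Complex.ofReal_re]

theorem pole_left (T c : ℝ) (hT : 3 ≤ T) (hc : 1 ≤ c) (s : ℂ) (hs : s.re < 1 + c / Real.log T) :
    ∫ ξ : ℝ, kk c ξ * (1 / (s - 1 - ((c : ℂ) + 2 * Real.pi * ξ * I) / Real.log T)) = 0 := by
  have hl := AZaB_log hT
  have hl0 : 0 < Real.log T := by linarith
  have hlC : (Real.log T : ℂ) ≠ 0 := by
    exact_mod_cast hl0.ne'
  set a : ℂ := (Real.log T : ℂ) * (s - 1) with ha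
  have hare : a.re = Real.log T * (s.re - 1) := by
    rw [ha, Complex.re_ofReal_mul, Complex.sub_re, Complex.one_re]
  have hca : a.re < c := by
    rw [hare]
    have h1 : s.re - 1 < c / Real.log T := by linarith
    rw [lt_div_iff₀ hl0] at h1
    linarith
  have h1 : ∀ ξ : ℝ, kk c ξ * (1 / (s - 1 - ((c : ℂ) + 2 * Real.pi * ξ * I) / Real.log T)) =
      (-(Real.log T : ℂ)) * (kk c ξ * ∫ x in Iic (0 : ℝ),
        cexp ((((c : ℂ) + 2 * Real.pi * ξ * I) - a) * x)) := by
    intro ξ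
    set b : ℂ := ((c : ℂ) + 2 * Real.pi * ξ * I) - a with hb
    have hbre : b.re = c - a.re := by
      rw [hb]
      simp
    have hbpos : 0 < b.re := by rw [hbre]; linarith
    have hb0 : b ≠ 0 := by
      intro h
      rw [h, Complex.zero_re] at hbpos
      exact lt_irrefl _ hbpos
    rw [integral_exp_mul_complex_Iic hbpos 0, Complex.ofReal_zero, mul_zero, Complex.exp_zero]
    have h2 : s - 1 - ((c : ℂ) + 2 * Real.pi * ξ * I) / Real.log T = -b / Real.log T := by
      rw [hb, ha]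
      field_simp
      ring
    rw [h2]
    field_simp
  simp only [h1]
  rw [integral_const_mul, AZaB_fub c hc a (Iic 0) ?_]
  · have h3 : ∫ x in Iic (0 : ℝ), cexp (-(a * x)) * ((1 - Th x : ℝ) : ℂ) = 0 := by
      refine setIntegral_eq_zero_of_forall_eq_zero fun x hx => ?_
      rw [mem_Iic] at hx
      rw [Th_one x (by linarith), sub_self, Complex.ofReal_zero, mul_zero]
    rw [h3, mul_zero]
  · have h2 : IntegrableOn (fun x : ℝ => cexp (((c - a.re : ℝ) : ℂ) * x)) (Iic 0) :=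
      integrableOn_exp_mul_complex_Iic (by rw [Complex.ofReal_re]; linarith) 0
    refine h2.norm.congr (Filter.Eventually.of_forall fun x => ?_)
    beta_reduce
    rw [Complex.norm_exp, ← Complex.ofReal_mul, Complex.ofReal_re]

end Pool.Agent.Lib.MP_ec260d_ntB.IA
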