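import Mathlib
import Pool.Agent.Lib.MP_ec260d_ntB.AZa
import Pool.Agent.Lib.MP_ec260d_ntB.AHol
import Pool.Agent.Lib.MP_9c2ea5_nt.AZser

/-!
# JOB AZs: the splitting of zeta in the critical strip (about 170 lines)

SETUP.  `l = log T`, `v ξ = (c + 2πξ i)/l`.  Mathlib (`ZetaAsymp`): `riemannZeta s = (s-1)⁻¹ + riemannZeta₀ s` for `s ≠ 1`, `riemannZeta₀` entire.  Growth: `Pool.Agent.Lib.MP_9c2ea5_nt.An.zeta0_le s hs 1`:
`‖riemannZeta₀ s‖ ≤ 2 + ‖s‖/Re s` for `Re s > 0`.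
PROOF.  Let `U = {s : Re s > c/l}` and `F(s) = ∫ kk c ξ riemannZeta₀ (s - v ξ) dξ`.  By `hol_int` (bound on a small ball around `s₀`, where `Re s - c/l ≥ η > 0`: `‖kk c ξ‖ (2 + (‖s₀‖ + 1 + ‖v ξ‖)/η)`, integrable by
`kk_bound` with `r = 3`) `F` is analytic on `U`.  The right side `G(s) = riemannZeta₀ s - DD T s + (1/(s-1) - RR T s)` extends analytically: `1/(s-1) - RR T s = l ∫_0^∞ e^(l(1-s)x) Th x dx = l ∫_0^1 e^(l(1-s)x) Th x dx`
(this identity for `s ≠ 1` is integration by parts, see `AZa`), an entire function `E(s)` of `s` (`hol_int` or a parametric interval integral).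
For `Re s > 1 + c/l`: `riemannZeta (s - v ξ) = 1/(s - 1 - v ξ) + riemannZeta₀ (s - v ξ)`, so `F(s) = (ζ(s) - DD T s) - RR T s` (`split_conv`, `pole_right`; both integrands are integrable)
`= 1/(s-1) + riemannZeta₀ s - DD T s - RR T s = riemannZeta₀ s - DD T s + E(s)`.  `U` is convex, hence by the identity theorem (`AnalyticOnNhd.eqOn_of_preconnected_of_eventuallyEq`)
`F(s) = riemannZeta₀ s - DD T s + E(s)` on `U`.  For `s ∈ U`, `s ≠ 1`, `Re s < 1 + c/l`: `∫ kk c ξ riemannZeta (s - v ξ) dξ = F(s) + 0` (`pole_left`; `s - v ξ ≠ 1`), i.e.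
`ζ(s) = 1/(s-1) + riemannZeta₀ s = 1/(s-1) + F(s) + DD T s - E(s) = F(s) + DD T s + RR T s`.
-/

namespace Pool.Agent.Lib.MP_ec260d_ntB.IA

open Complex Set Filter Topology MeasureTheory

private theorem azs_w : Integrable (fun ξ : ℝ => 1 / (1 + |ξ|) ^ 2) := by
  have h := integrable_one_add_norm (E := ℝ) (μ := volume) (r := ((2 : ℕ) : ℝ)) (by
    rw [Module.finrank_self]
    norm_num)
  refine h.congr (Filter.Eventually.of_forall fun ξ => ?_)
  show (1 + ‖ξ‖) ^ (-((2 : ℕ) : ℝ)) = 1 / (1 + |ξ|) ^ 2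
  rw [Real.norm_eq_abs, Real.rpow_neg (by positivity), Real.rpow_natCast, one_div]

private theorem azs_kk {c : ℝ} (hc : 1 ≤ c) : ∃ D : ℝ, 0 < D ∧ ∀ (ξ K : ℝ) (z : ℂ), 0 ≤ K →
    ‖z‖ ≤ K * (1 + |ξ|) → ‖kk c ξ * z‖ ≤ (D * K) * (1 / (1 + |ξ|) ^ 2) := by
  obtain ⟨C, hC, hb⟩ := kk_bound 3
  refine ⟨C * Real.exp (-(24 / 25 * c)), by positivity, fun ξ K z hK hz => ?_⟩
  have h1 := hb c ξ hc
  have h2 : 0 < 1 + |ξ| := by positivity
  rw [norm_mul]
  calc ‖kk c ξ‖ * ‖z‖ ≤ (C * Real.exp (-(24 / 25 * c)) / (1 + |ξ|) ^ 3) * (K * (1 + |ξ|)) :=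
        mul_le_mul h1 hz (norm_nonneg _) (by positivity)
    _ = (C * Real.exp (-(24 / 25 * c)) * K) * (1 / (1 + |ξ|) ^ 2) := by
        field_simp

private theorem azs_re (c l ξ : ℝ) (s : ℂ) :
    (s - ((c : ℂ) + 2 * Real.pi * ξ * I) / (l : ℂ)).re = s.re - c / l := by
  rw [Complex.sub_re, Complex.div_ofReal_re]
  simp

private theorem azs_norm {c l : ℝ} (hc : 1 ≤ c) (hl : 0 < l) (ξ : ℝ) :
    ‖((c : ℂ) + 2 * Real.pi * ξ * I) / (l : ℂ)‖ ≤ (c / l + 2 * Real.pi / l) * (1 + |ξ|) := by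
  rw [norm_div, Complex.norm_real, Real.norm_eq_abs, abs_of_pos hl]
  have h1 : ‖(c : ℂ) + 2 * Real.pi * ξ * I‖ ≤ c + 2 * Real.pi * |ξ| := by
    refine (norm_add_le _ _).trans (le_of_eq ?_)
    rw [Complex.norm_real, Real.norm_eq_abs, abs_of_pos (by linarith), norm_mul, norm_mul, norm_mul,
      Complex.norm_I, Complex.norm_real, Complex.norm_real, Real.norm_eq_abs, Real.norm_eq_abs,
      abs_of_pos Real.pi_pos]
    simp
  rw [← add_div, div_mul_eq_mul_div]
  refine div_le_div_of_nonneg_right (h1.trans ?_) hl.le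
  have := Real.pi_pos
  nlinarith [abs_nonneg ξ]

private theorem azs_zeta0 {c l : ℝ} (hc : 1 ≤ c) (hl : 0 < l) (s₀ : ℂ) {η : ℝ} (hη : 0 < η)
    (h : c / l + 2 * η ≤ s₀.re) (s : ℂ) (hs : s ∈ Metric.ball s₀ η) (ξ : ℝ) :
    ‖riemannZeta₀ (s - ((c : ℂ) + 2 * Real.pi * ξ * I) / (l : ℂ))‖ ≤
      (2 + (‖s₀‖ + η + (c / l + 2 * Real.pi / l)) / η) * (1 + |ξ|) := by
  set w : ℂ := s - ((c : ℂ) + 2 * Real.pi * ξ * I) / (l : ℂ) with hw
  have hd : ‖s - s₀‖ < η := by rwa [Metric.mem_ball, dist_eq_norm] at hs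
  have hre : η ≤ w.re := by
    rw [hw, azs_re]
    have h1 := (Complex.abs_re_le_norm (s - s₀)).trans hd.le
    rw [Complex.sub_re, abs_le] at h1
    linarith [h1.1]
  have hsn : ‖s‖ ≤ ‖s₀‖ + η := by
    have h2 : s = s₀ + (s - s₀) := by ring
    rw [h2]
    exact (norm_add_le _ _).trans (by linarith)
  have h0 : 0 ≤ c / l + 2 * Real.pi / l := by positivity
  have hwn : ‖w‖ ≤ (‖s₀‖ + η + (c / l + 2 * Real.pi / l)) * (1 + |ξ|) := by
    rw [hw]
    refine (norm_sub_le _ _).trans ?_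
    have h3 := azs_norm hc hl ξ
    have h4 := norm_nonneg s₀
    have h5 := abs_nonneg ξ
    nlinarith
  have h6 := Pool.Agent.Lib.MP_9c2ea5_nt.An.zeta0_le w (lt_of_lt_of_le hη hre) 1 le_rfl
  rw [show Finset.Ioc 0 1 = ({1} : Finset ℕ) from rfl, Finset.sum_singleton, Nat.cast_one,
    Real.one_rpow, mul_one, mul_one] at h6
  refine h6.trans ?_
  have h7 : ‖w‖ / w.re ≤ ((‖s₀‖ + η + (c / l + 2 * Real.pi / l)) * (1 + |ξ|)) / η := by
    refine (div_le_div_of_nonneg_left (norm_nonneg w) hη hre).trans ?_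
    exact div_le_div_of_nonneg_right hwn hη.le
  have h8 := abs_nonneg ξ
  calc 2 + ‖w‖ / w.re ≤ 2 * (1 + |ξ|) +
        ((‖s₀‖ + η + (c / l + 2 * Real.pi / l)) * (1 + |ξ|)) / η := by linarith
    _ = (2 + (‖s₀‖ + η + (c / l + 2 * Real.pi / l)) / η) * (1 + |ξ|) := by ring

private theorem azs_cont0 (c l : ℝ) (hc : 1 ≤ c) (s : ℂ) : Continuous (fun ξ : ℝ =>
    kk c ξ * riemannZeta₀ (s - ((c : ℂ) + 2 * Real.pi * ξ * I) / (l : ℂ))) := by
  refine (kk_cont c hc).mul (differentiable_riemannZeta₀.continuous.comp ?_)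
  fun_prop

private theorem azs_int0 {c l : ℝ} (hc : 1 ≤ c) (hl : 0 < l) (s : ℂ) (hs : c / l < s.re) :
    Integrable (fun ξ : ℝ =>
      kk c ξ * riemannZeta₀ (s - ((c : ℂ) + 2 * Real.pi * ξ * I) / (l : ℂ))) := by
  obtain ⟨D, hD, hk⟩ := azs_kk hc
  set η : ℝ := (s.re - c / l) / 2 with hη
  have hη0 : 0 < η := by rw [hη]; linarith
  have h0 : 0 ≤ 2 + (‖s‖ + η + (c / l + 2 * Real.pi / l)) / η := by positivity
  refine Integrable.mono' (azs_w.const_mul _) (azs_cont0 c l hc s).aestronglyMeasurable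
    (Filter.Eventually.of_forall fun ξ => hk ξ _ _ h0 ?_)
  exact azs_zeta0 hc hl s hη0 (by rw [hη]; linarith) s (Metric.mem_ball_self hη0) ξ

private theorem azs_ne {c l : ℝ} (s : ℂ) (hs : s.re ≠ 1 + c / l) (ξ : ℝ) :
    s - 1 - ((c : ℂ) + 2 * Real.pi * ξ * I) / (l : ℂ) ≠ 0 := by
  intro h
  have h1 := congrArg Complex.re h
  rw [azs_re, Complex.sub_re, Complex.one_re, Complex.zero_re] at h1
  exact hs (by linarith)

private theorem azs_intp {c l : ℝ} (hc : 1 ≤ c) (s : ℂ) (hs : s.re ≠ 1 + c / l) :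
    Integrable (fun ξ : ℝ =>
      kk c ξ * (1 / (s - 1 - ((c : ℂ) + 2 * Real.pi * ξ * I) / (l : ℂ)))) := by
  obtain ⟨D, hD, hk⟩ := azs_kk hc
  set ρ : ℝ := |s.re - 1 - c / l| with hρ
  have hρ0 : 0 < ρ := abs_pos.2 (fun h => hs (by linarith))
  have hcont : Continuous (fun ξ : ℝ =>
      kk c ξ * (1 / (s - 1 - ((c : ℂ) + 2 * Real.pi * ξ * I) / (l : ℂ)))) := by
    refine (kk_cont c hc).mul (continuous_const.div (by fun_prop) fun ξ => azs_ne s hs ξ)
  refine Integrable.mono' (azs_w.const_mul (D * (1 / ρ))) hcont.aestronglyMeasurable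
    (Filter.Eventually.of_forall fun ξ => hk ξ (1 / ρ) _ (by positivity) ?_)
  rw [norm_div, norm_one]
  have h1 := Complex.abs_re_le_norm (s - 1 - ((c : ℂ) + 2 * Real.pi * ξ * I) / (l : ℂ))
  rw [azs_re, Complex.sub_re, Complex.one_re, ← hρ] at h1
  calc 1 / ‖s - 1 - ((c : ℂ) + 2 * Real.pi * ξ * I) / (l : ℂ)‖ ≤ 1 / ρ :=
        one_div_le_one_div_of_le hρ0 h1
    _ ≤ 1 / ρ * (1 + |ξ|) := le_mul_of_one_le_right (by positivity) (by linarith [abs_nonneg ξ])

private theorem azs_sum {c l : ℝ} (hc : 1 ≤ c) (hl : 0 < l) (s : ℂ) (h1 : c / l < s.re)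
    (h2 : s.re ≠ 1 + c / l) :
    ∫ ξ : ℝ, kk c ξ * riemannZeta (s - ((c : ℂ) + 2 * Real.pi * ξ * I) / (l : ℂ)) =
      (∫ ξ : ℝ, kk c ξ * (1 / (s - 1 - ((c : ℂ) + 2 * Real.pi * ξ * I) / (l : ℂ)))) +
        ∫ ξ : ℝ, kk c ξ * riemannZeta₀ (s - ((c : ℂ) + 2 * Real.pi * ξ * I) / (l : ℂ)) := by
  rw [← integral_add (azs_intp hc s h2) (azs_int0 hc hl s h1)]
  refine integral_congr_ae (Filter.Eventually.of_forall fun ξ => ?_)
  have h3 := azs_ne s h2 ξ
  have h4 : s - ((c : ℂ) + 2 * Real.pi * ξ * I) / (l : ℂ) ≠ 1 := by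
    intro h
    apply h3
    rw [sub_right_comm, h, sub_self]
  show kk c ξ * riemannZeta (s - ((c : ℂ) + 2 * Real.pi * ξ * I) / (l : ℂ)) =
    kk c ξ * (1 / (s - 1 - ((c : ℂ) + 2 * Real.pi * ξ * I) / (l : ℂ))) +
      kk c ξ * riemannZeta₀ (s - ((c : ℂ) + 2 * Real.pi * ξ * I) / (l : ℂ))
  rw [riemannZeta_eq_inv_sub_add h4, ← mul_add, one_div, sub_right_comm]

private theorem azs_dth : Continuous (deriv Th) := (dTh_smooth 0).continuous

private theorem azs_J (l : ℝ) (hl : 0 < l) : DifferentiableOn ℂ (fun s : ℂ =>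
    ∫ u : ℝ, ((deriv Th u : ℝ) : ℂ) * cexp ((l : ℂ) * (1 - s) * u)) univ := by
  have hd : Integrable (deriv Th) := by
    refine azs_dth.integrable_of_hasCompactSupport ?_
    exact HasCompactSupport.intro (isCompact_Icc (a := (96 / 100 : ℝ)) (b := 99 / 100)) dTh_supp
  refine hol_int isOpen_univ (fun s u => ((deriv Th u : ℝ) : ℂ) * cexp ((l : ℂ) * (1 - s) * u))
    (fun u => ?_) (fun s _ => ?_) (fun s₀ _ => ?_)
  · refine Differentiable.differentiableOn ?_
    fun_prop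
  · refine Continuous.aestronglyMeasurable ?_
    exact (Complex.continuous_ofReal.comp azs_dth).mul (by fun_prop)
  · refine ⟨1, one_pos, fun u => |deriv Th u| * Real.exp (l * (‖s₀‖ + 2)),
      hd.abs.mul_const _, subset_univ _, fun s hs u => ?_⟩
    rw [norm_mul, Complex.norm_real, Real.norm_eq_abs]
    by_cases hu : u ∈ Icc (96 / 100 : ℝ) (99 / 100)
    · refine mul_le_mul_of_nonneg_left ?_ (abs_nonneg _)
      rw [Complex.norm_exp]
      apply Real.exp_le_exp.2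
      have h1 : ((l : ℂ) * (1 - s) * u).re = l * (1 - s.re) * u := by simp
      rw [h1]
      have h2 : ‖s - s₀‖ < 1 := by rwa [Metric.mem_ball, dist_eq_norm] at hs
      have h3 : -(‖s₀‖ + 1) ≤ s.re := by
        have h4 := (Complex.abs_re_le_norm (s - s₀)).trans h2.le
        have h5 := Complex.abs_re_le_norm s₀
        rw [Complex.sub_re, abs_le] at h4
        rw [abs_le] at h5
        linarith [h4.1, h5.1]
      have h6 : 0 < u := by linarith [hu.1]
      have h7 : u ≤ 1 := by linarith [hu.2]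
      have h8 : 0 ≤ l * (‖s₀‖ + 2) := by positivity
      calc l * (1 - s.re) * u ≤ (l * (‖s₀‖ + 2)) * u := by
            refine mul_le_mul_of_nonneg_right (mul_le_mul_of_nonneg_left ?_ hl.le) h6.le
            linarith
        _ ≤ l * (‖s₀‖ + 2) := mul_le_of_le_one_right h8 h7
    · rw [dTh_supp u hu, abs_zero, zero_mul]
      positivity

private theorem azs_DD (T : ℝ) : Differentiable ℂ (DD T) := by
  unfold DD
  refine Differentiable.fun_sum fun m hm => ?_
  have hm1 : (m : ℂ) ≠ 0 := by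
    rw [Finset.mem_Icc] at hm
    exact_mod_cast (by omega : m ≠ 0)
  exact (differentiable_const _).mul (differentiable_neg.const_cpow (Or.inl hm1))

theorem zeta_split (T c : ℝ) (hT : 3 ≤ T) (hc : 1 ≤ c) (s : ℂ) (h1 : c / Real.log T < s.re)
    (h2 : s.re < 1 + c / Real.log T) (hs : s ≠ 1) :
    riemannZeta s = DD T s +
      (∫ ξ : ℝ, kk c ξ * riemannZeta (s - ((c : ℂ) + 2 * Real.pi * ξ * I) / Real.log T)) + RR T s := by
  set l : ℝ := Real.log T with hl'
  have hl : 0 < l := Real.log_pos (by linarith)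
  set U : Set ℂ := {s : ℂ | c / l < s.re} with hU
  have hUo : IsOpen U := isOpen_lt continuous_const Complex.continuous_re
  have hUc : IsPreconnected U := by
    have h3 : Convex ℝ U := convex_halfSpace_re_gt (c / l)
    exact h3.isPreconnected
  set F : ℂ → ℂ := fun s => ∫ ξ : ℝ,
    kk c ξ * riemannZeta₀ (s - ((c : ℂ) + 2 * Real.pi * ξ * I) / (l : ℂ)) with hF
  set J : ℂ → ℂ := fun s => ∫ u : ℝ, ((deriv Th u : ℝ) : ℂ) * cexp ((l : ℂ) * (1 - s) * u) with hJ
  have hFd : DifferentiableOn ℂ F U := by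
    obtain ⟨D, hD, hk⟩ := azs_kk hc
    refine hol_int hUo (fun s ξ =>
      kk c ξ * riemannZeta₀ (s - ((c : ℂ) + 2 * Real.pi * ξ * I) / (l : ℂ)))
      (fun ξ => ?_) (fun s _ => (azs_cont0 c l hc s).aestronglyMeasurable) (fun s₀ hs₀ => ?_)
    · refine Differentiable.differentiableOn ?_
      refine (differentiable_const _).mul (differentiable_riemannZeta₀.comp ?_)
      fun_prop
    · have hs₀' : c / l < s₀.re := hs₀
      set η : ℝ := (s₀.re - c / l) / 2 with hη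
      have hη0 : 0 < η := by rw [hη]; linarith
      have h0 : 0 ≤ 2 + (‖s₀‖ + η + (c / l + 2 * Real.pi / l)) / η := by positivity
      refine ⟨η, hη0, _, azs_w.const_mul (D * (2 + (‖s₀‖ + η + (c / l + 2 * Real.pi / l)) / η)),
        ?_, fun s hs ξ => ?_⟩
      · intro s hs
        rw [Metric.mem_ball, dist_eq_norm] at hs
        have h4 := (Complex.abs_re_le_norm (s - s₀)).trans hs.le
        rw [Complex.sub_re, abs_le] at h4
        show c / l < s.re
        linarith [h4.1]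
      · exact hk ξ _ _ h0 (azs_zeta0 hc hl s₀ hη0 (by rw [hη]; linarith) s hs ξ)
  have hJd : DifferentiableOn ℂ J U := (azs_J l hl).mono (subset_univ _)
  have hRR : ∀ s : ℂ, RR T s = 1 / (1 - s) * J s := fun s => rfl
  have hA1 : AnalyticOnNhd ℂ (fun s => (s - 1) * (F s - riemannZeta₀ s + DD T s)) U := by
    refine DifferentiableOn.analyticOnNhd ?_ hUo
    refine DifferentiableOn.mul (by fun_prop) ?_
    exact (hFd.sub differentiable_riemannZeta₀.differentiableOn).add (azs_DD T).differentiableOn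
  have hA2 : AnalyticOnNhd ℂ (fun s => 1 + J s) U :=
    DifferentiableOn.analyticOnNhd ((differentiableOn_const _).add hJd) hUo
  have hz0 : (((2 + c / l : ℝ)) : ℂ) ∈ U := by
    show c / l < (((2 + c / l : ℝ)) : ℂ).re
    rw [Complex.ofReal_re]
    linarith
  have hev : (fun s => (s - 1) * (F s - riemannZeta₀ s + DD T s)) =ᶠ[𝓝 (((2 + c / l : ℝ)) : ℂ)]
      fun s => 1 + J s := by
    have hO : IsOpen {s : ℂ | 1 + c / l < s.re} := isOpen_lt continuous_const Complex.continuous_re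
    have hmem : (((2 + c / l : ℝ)) : ℂ) ∈ {s : ℂ | 1 + c / l < s.re} := by
      show 1 + c / l < (((2 + c / l : ℝ)) : ℂ).re
      rw [Complex.ofReal_re]
      linarith
    filter_upwards [hO.mem_nhds hmem] with z hz
    have hz' : 1 + c / l < z.re := hz
    have hcl : 0 < c / l := by positivity
    have e1 := split_conv T c hT hc z hz'
    have e2 := pole_right T c hT hc z hz'
    have e3 := azs_sum hc hl z (by linarith) (ne_of_gt hz')
    have e4 : F z = riemannZeta z - DD T z - RR T z := by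
      rw [← hl'] at e1 e2
      rw [e1, e2] at e3
      show (∫ ξ : ℝ, kk c ξ * riemannZeta₀ (z - ((c : ℂ) + 2 * Real.pi * ξ * I) / (l : ℂ))) = _
      rw [e3]
      ring
    have hz1 : z ≠ 1 := by
      rintro rfl
      rw [Complex.one_re] at hz'
      linarith
    have hz2 : z - 1 ≠ 0 := sub_ne_zero.2 hz1
    have hz3 : 1 - z ≠ 0 := sub_ne_zero.2 (Ne.symm hz1)
    rw [e4, riemannZeta_eq_inv_sub_add hz1, hRR]
    field_simp
    ring
  have hid := hA1.eqOn_of_preconnected_of_eventuallyEq hA2 hUc hz0 hev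
  have hsU : s ∈ U := h1
  have e5 : (s - 1) * (F s - riemannZeta₀ s + DD T s) = 1 + J s := hid hsU
  have e6 := azs_sum hc hl s h1 (ne_of_lt h2)
  have e7 := pole_left T c hT hc s h2
  rw [← hl'] at e7
  rw [e7, zero_add] at e6
  rw [e6]
  have hs2 : s - 1 ≠ 0 := sub_ne_zero.2 hs
  have hs3 : 1 - s ≠ 0 := sub_ne_zero.2 (Ne.symm hs)
  rw [hRR, riemannZeta_eq_inv_sub_add hs]
  have e8 : (s - 1)⁻¹ + riemannZeta₀ s = DD T s + F s + 1 / (1 - s) * J s := by
    have e9 : J s = (s - 1) * (F s - riemannZeta₀ s + DD T s) - 1 := by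
      rw [e5]
      ring
    rw [e9]
    field_simp
    ring
  exact e8

end Pool.Agent.Lib.MP_ec260d_ntB.IA
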