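import Mathlib
import Pool.Agent.Lib.MP_ec260d_ntB.ADB
import Pool.Agent.Lib.MP_ec260d_ntB.ATriv
import Pool.Agent.Lib.MP_ec260d_ntB.AStep
import Pool.Agent.Lib.MP_ec260d_ntB.AZs

/-!
# JOB AImp: the bound for the mean square of `ζ M` near the critical line (about 220 lines)

SETUP.  `l = log T`.  `A, δ₀` from `DM_bound` (and the other `δ₀`, take the minimum), `B := A + 10`, `C₃` from `step_refl B`.
STEP 1 (one inequality).  Let `c ≥ 2`, `a = c/2`, `|α| ≤ c₁`, `α' ≥ -c₁`, `a + α ≥ 1`, `α ≤ c`, `T ≥ T₀(δ, c, c₁)`, `|τ| ≤ √T`, and `∀ τ', FL δ T α' a τ' ≤ Z (1+|τ'|)^B`.  `zeta_split` at `s = zp T α τ t` with the parameter `ck = a + α`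
(`Re s = 1/2 + α/l > ck/l` for `l` large, `Re s < 1`, so `s ≠ 1`): `ζ M = DD M + (∫ kk ck ζ(s - ...)) M + RR M`.  `‖x + y + z‖² ≤ 3(‖x‖² + ‖y‖² + ‖z‖²)`, integrate: `DM_bound` (with `max c c₁` as constant), `step_refl`, `R_near`:
`FL δ T α' α τ ≤ 3 C T (1+|τ|)^A (1+|α'|)^A + 3 C₃ e^(3c/2 - (48/25)(a+α)) Z (1+|τ|)^B + 9 T`.
STEP 2 (`α = a`).  `3c/2 - (48/25) c = -(21/50) c`; choose `c ≥ max (2 c₁ + 2) 2` with `3 C₃ e^(-(21/50)c) ≤ 1/2`.  With `K = C' T (1+|α'|)^B`: for `|τ| ≤ √T` `FL δ T α' a τ ≤ (K + Z/2)(1+|τ|)^B`; for `|τ| ≥ √T` the same by `FL_far`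
(`B ≥ 10`, `C' ≥ 10^5`).  Start with `Z₀ = 10^5 T^5` (`FL_triv`, `B ≥ 2`); iterate `n` times: `FL ≤ (2K + Z₀/2^n)(1+|τ|)^B`; `n → ∞`: `FL δ T α' a τ ≤ 2K (1+|τ|)^B`.
STEP 3 (general `|α| ≤ c₁`).  `a + α ≥ 1` because `c ≥ 2c₁ + 2`; STEP 1 with `Z = 2K`, and `FL_far` for `|τ| ≥ √T`.
-/

namespace Pool.Agent.Lib.MP_ec260d_ntB.IA

open Complex Set Filter Topology MeasureTheory

private lemma aimp_meas (δ T α τ α' : ℝ) :
    Measurable fun t : ℝ => ENNReal.ofReal (3 * ‖DD T (zp T α τ t) * MM δ T (zp T α' 0 t)‖ ^ 2) := by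
  have h1 : ∀ β σ : ℝ, Measurable fun t : ℝ => zp T β σ t := by
    intro β σ
    unfold zp
    fun_prop
  have h2 : Measurable fun t : ℝ => DD T (zp T α τ t) := by
    unfold DD
    refine Finset.measurable_sum _ fun m _ => ?_
    exact ((h1 α τ).neg.const_pow (m : ℂ)).const_mul _
  have h3 : Measurable fun t : ℝ => MM δ T (zp T α' 0 t) := by
    unfold MM Mj
    refine Measurable.mul ?_ ?_
    · refine Finset.measurable_prod _ fun m _ => ?_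
      exact ((h1 α' 0).neg.const_pow (m : ℂ)).const_sub _
    · refine Finset.measurable_prod _ fun j _ => ?_
      refine Finset.measurable_sum _ fun S _ => ?_
      refine Measurable.const_mul ?_ _
      refine Finset.measurable_prod _ fun m _ => ?_
      exact (h1 α' 0).neg.const_pow (m : ℂ)
  exact (((h2.mul h3).norm.pow_const 2).const_mul 3).ennreal_ofReal

private lemma aimp_three (x y z : ℂ) (hz : ‖z‖ ≤ 1) :
    ‖x + y + z‖ ^ 2 ≤ 3 * ‖x‖ ^ 2 + (3 * ‖y‖ ^ 2 + 3) := by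
  have h1 : ‖x + y + z‖ ≤ ‖x‖ + ‖y‖ + ‖z‖ := norm_add₃_le
  have h2 := norm_nonneg (x + y + z)
  have h3 := norm_nonneg x
  have h4 := norm_nonneg y
  have h5 := norm_nonneg z
  have h6 : ‖x + y + z‖ ^ 2 ≤ (‖x‖ + ‖y‖ + ‖z‖) ^ 2 := pow_le_pow_left₀ h2 h1 2
  nlinarith [sq_nonneg (‖x‖ - ‖y‖), sq_nonneg (‖y‖ - ‖z‖), sq_nonneg (‖x‖ - ‖z‖)]

/-- Step 1 of the header. -/
private lemma aimp_step (δ c T C C₃ : ℝ) (A B : ℕ) (hT : 3 ≤ T) (hc : 2 ≤ c)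
    (hlog : 2 * c < Real.log T) (α' α τ Z : ℝ) (hC : 0 ≤ C) (hC₃ : 0 < C₃)
    (hα : |α| ≤ c) (h1 : 1 ≤ c / 2 + α) (hZ : 0 ≤ Z)
    (hD : ∫⁻ t in Icc (T / 2) (3 * T),
      ENNReal.ofReal (‖DD T (zp T α τ t) * MM δ T (zp T α' 0 t)‖ ^ 2) ≤
      ENNReal.ofReal (C * T * (1 + |τ|) ^ A * (1 + |α'|) ^ A))
    (hS : ∫⁻ t in Icc (T / 2) (3 * T), ENNReal.ofReal
      (‖(∫ ξ : ℝ, kk (c / 2 + α) ξ * riemannZeta (zp T α τ t -
        (((c / 2 + α : ℝ) : ℂ) + 2 * Real.pi * ξ * I) / Real.log T)) *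
        MM δ T (zp T α' 0 t)‖ ^ 2) ≤
      ENNReal.ofReal (C₃ * Real.exp (3 / 2 * c - 48 / 25 * (c / 2 + α)) * Z * (1 + |τ|) ^ B))
    (hR : ∀ t : ℝ, T / 2 ≤ t → t ≤ 3 * T →
      ‖RR T (zp T α τ t) * MM δ T (zp T α' 0 t)‖ ≤ 1) :
    FL δ T α' α τ ≤ ENNReal.ofReal (3 * (C * T * (1 + |τ|) ^ A * (1 + |α'|) ^ A) +
      3 * (C₃ * Real.exp (3 / 2 * c - 48 / 25 * (c / 2 + α)) * Z * (1 + |τ|) ^ B) + 9 * T) := by
  have hl0 : 0 < Real.log T := by linarith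
  have hα2 : α ≤ c := (le_abs_self α).trans hα
  have hpt : ∀ t ∈ Icc (T / 2) (3 * T),
      ENNReal.ofReal (‖riemannZeta (zp T α τ t) * MM δ T (zp T α' 0 t)‖ ^ 2) ≤
      ENNReal.ofReal (3 * ‖DD T (zp T α τ t) * MM δ T (zp T α' 0 t)‖ ^ 2) +
      (ENNReal.ofReal (3 * ‖(∫ ξ : ℝ, kk (c / 2 + α) ξ * riemannZeta (zp T α τ t -
        (((c / 2 + α : ℝ) : ℂ) + 2 * Real.pi * ξ * I) / Real.log T)) *
        MM δ T (zp T α' 0 t)‖ ^ 2) + ENNReal.ofReal 3) := by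
    intro t ht
    have hre : (zp T α τ t).re = 1 / 2 + α / Real.log T := by
      unfold zp
      have e : ((α : ℂ) + τ * I) / Real.log T = ((α / Real.log T : ℝ) : ℂ) +
          ((τ / Real.log T : ℝ) : ℂ) * I := by
        push_cast
        field_simp
      rw [e]
      simp
    have hs : riemannZeta (zp T α τ t) = DD T (zp T α τ t) +
        (∫ ξ : ℝ, kk (c / 2 + α) ξ * riemannZeta (zp T α τ t -
          (((c / 2 + α : ℝ) : ℂ) + 2 * Real.pi * ξ * I) / Real.log T)) + RR T (zp T α τ t) := by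
      refine zeta_split T (c / 2 + α) hT h1 _ ?_ ?_ ?_
      · rw [hre, add_div]
        have h2 : c / 2 / Real.log T < 1 / 2 := by
          rw [div_lt_iff₀ hl0]
          linarith
        linarith
      · rw [hre, add_div]
        have h2 : 0 ≤ c / 2 / Real.log T := by positivity
        linarith
      · intro h
        have h2 := congrArg Complex.re h
        rw [hre, Complex.one_re] at h2
        have h3 : α / Real.log T < 1 / 2 := by
          rw [div_lt_iff₀ hl0]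
          linarith
        linarith
    have hpos : ∀ x : ℂ, 0 ≤ 3 * ‖x‖ ^ 2 := fun x => by positivity
    rw [← ENNReal.ofReal_add (hpos _) (by norm_num), ← ENNReal.ofReal_add (hpos _)
      (add_nonneg (hpos _) (by norm_num))]
    refine ENNReal.ofReal_le_ofReal ?_
    rw [hs, add_mul, add_mul]
    exact aimp_three _ _ _ (hR t ht.1 ht.2)
  have h2 : FL δ T α' α τ ≤ ∫⁻ t in Icc (T / 2) (3 * T),
      (ENNReal.ofReal (3 * ‖DD T (zp T α τ t) * MM δ T (zp T α' 0 t)‖ ^ 2) +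
      (ENNReal.ofReal (3 * ‖(∫ ξ : ℝ, kk (c / 2 + α) ξ * riemannZeta (zp T α τ t -
        (((c / 2 + α : ℝ) : ℂ) + 2 * Real.pi * ξ * I) / Real.log T)) *
        MM δ T (zp T α' 0 t)‖ ^ 2) + ENNReal.ofReal 3)) :=
    setLIntegral_mono' measurableSet_Icc hpt
  refine h2.trans ?_
  rw [lintegral_add_left (aimp_meas δ T α τ α'), lintegral_add_right _ measurable_const]
  have e3 : ∀ f : ℝ → ℝ, (∀ t, 0 ≤ f t) → ∫⁻ t in Icc (T / 2) (3 * T), ENNReal.ofReal (3 * f t) =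
      ENNReal.ofReal 3 * ∫⁻ t in Icc (T / 2) (3 * T), ENNReal.ofReal (f t) := by
    intro f _
    rw [← lintegral_const_mul' _ _ ENNReal.ofReal_ne_top]
    refine lintegral_congr fun t => ?_
    rw [ENNReal.ofReal_mul (by norm_num)]
  rw [e3 (fun t => ‖DD T (zp T α τ t) * MM δ T (zp T α' 0 t)‖ ^ 2) (fun t => by positivity),
    e3 (fun t => ‖(∫ ξ : ℝ, kk (c / 2 + α) ξ * riemannZeta (zp T α τ t -
        (((c / 2 + α : ℝ) : ℂ) + 2 * Real.pi * ξ * I) / Real.log T)) *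
        MM δ T (zp T α' 0 t)‖ ^ 2) (fun t => by positivity)]
  have hvol : ∫⁻ _ in Icc (T / 2) (3 * T), ENNReal.ofReal 3 ≤ ENNReal.ofReal (9 * T) := by
    rw [lintegral_const, Measure.restrict_apply_univ, Real.volume_Icc,
      ← ENNReal.ofReal_mul (by norm_num)]
    exact ENNReal.ofReal_le_ofReal (by linarith)
  have hA0 : 0 ≤ C * T * (1 + |τ|) ^ A * (1 + |α'|) ^ A := by positivity
  have hB0 : 0 ≤ C₃ * Real.exp (3 / 2 * c - 48 / 25 * (c / 2 + α)) * Z * (1 + |τ|) ^ B := by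
    positivity
  have hT0 : 0 ≤ 9 * T := by linarith
  rw [ENNReal.ofReal_add (by positivity) hT0, ENNReal.ofReal_add (by positivity) (by positivity),
    ENNReal.ofReal_mul (by norm_num : (0 : ℝ) ≤ 3), ENNReal.ofReal_mul (by norm_num : (0 : ℝ) ≤ 3),
    add_assoc]
  exact add_le_add (mul_le_mul_right hD _) (add_le_add (mul_le_mul_right hS _) hvol)

theorem z_bound : ∃ (B : ℕ) (δ₀ : ℝ), 0 < δ₀ ∧ δ₀ ≤ 1 ∧ ∀ δ c₁ : ℝ, 0 < δ → δ ≤ δ₀ → 0 ≤ c₁ → ∃ C T₀ : ℝ, 0 ≤ C ∧ 3 ≤ T₀ ∧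
    ∀ T : ℝ, T₀ ≤ T → ∀ α' α τ : ℝ, |α| ≤ c₁ → -c₁ ≤ α' →
    FL δ T α' α τ ≤ ENNReal.ofReal (C * T * (1 + |τ|) ^ B * (1 + |α'|) ^ B) := by
  obtain ⟨A, δ₁, hδ₁, hδ₁', hDM⟩ := DM_bound
  obtain ⟨C₃, hC₃, hstep⟩ := step_refl (A + 10)
  obtain ⟨δ₂, hδ₂, -, htriv⟩ := FL_triv
  obtain ⟨δ₃, hδ₃, -, hfar⟩ := FL_far
  obtain ⟨δ₄, hδ₄, -, hnear⟩ := R_near
  refine ⟨A + 10, min (min δ₁ δ₂) (min δ₃ δ₄), lt_min (lt_min hδ₁ hδ₂) (lt_min hδ₃ hδ₄),
    ((min_le_left _ _).trans (min_le_left _ _)).trans hδ₁', fun δ c₁ hδ hδ' hc₁ => ?_⟩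
  have d1 : δ ≤ δ₁ := hδ'.trans ((min_le_left _ _).trans (min_le_left _ _))
  have d2 : δ ≤ δ₂ := hδ'.trans ((min_le_left _ _).trans (min_le_right _ _))
  have d3 : δ ≤ δ₃ := hδ'.trans ((min_le_right _ _).trans (min_le_left _ _))
  have d4 : δ ≤ δ₄ := hδ'.trans ((min_le_right _ _).trans (min_le_right _ _))
  -- the choice of `c`
  obtain ⟨c, hcc, hcsm⟩ : ∃ c : ℝ, 2 * c₁ + 2 ≤ c ∧ 3 * C₃ * Real.exp (-(21 / 50 * c)) ≤ 1 / 2 := by
    refine ⟨max (2 * c₁ + 2) (50 / 21 * Real.log (6 * C₃)), le_max_left _ _, ?_⟩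
    have h1 : Real.log (6 * C₃) ≤ 21 / 50 * max (2 * c₁ + 2) (50 / 21 * Real.log (6 * C₃)) := by
      have := le_max_right (2 * c₁ + 2) (50 / 21 * Real.log (6 * C₃))
      linarith
    have h2 := Real.exp_le_exp.2 (neg_le_neg h1)
    have h3 : Real.exp (-Real.log (6 * C₃)) = (6 * C₃)⁻¹ := by
      rw [Real.exp_neg, Real.exp_log (by positivity)]
    rw [h3] at h2
    have h4 := mul_le_mul_of_nonneg_left h2 (by positivity : (0 : ℝ) ≤ 3 * C₃)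
    have h5 : 3 * C₃ * (6 * C₃)⁻¹ = 1 / 2 := by
      field_simp
      norm_num
    linarith
  have hc2 : 2 ≤ c := by linarith
  have hc0 : 0 ≤ c := by linarith
  obtain ⟨C, T₁, hC, hT₁, hDM'⟩ := hDM δ c hδ d1 hc0
  obtain ⟨T₂, hT₂, hstep'⟩ := hstep c hc2
  obtain ⟨T₃, hT₃, htriv'⟩ := htriv δ c hδ d2 hc0
  obtain ⟨T₄, hT₄, hfar'⟩ := hfar δ c hδ d3 hc0
  obtain ⟨T₅, hT₅, hnear'⟩ := hnear δ c hδ d4 hc0
  obtain ⟨C', hC'⟩ : ∃ C' : ℝ, C' = 3 * C + 9 + 10 ^ 5 := ⟨_, rfl⟩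
  have hC'0 : 0 ≤ C' := by rw [hC']; positivity
  refine ⟨C' + 6 * C₃ * Real.exp (3 / 2 * c) * C',
    max (max (max T₁ T₂) (max T₃ T₄)) (max T₅ (Real.exp (2 * c + 1))), by positivity,
    ((hT₁.trans (le_max_left _ _)).trans (le_max_left _ _)).trans (le_max_left _ _),
    fun T hT α' α τ hα hα' => ?_⟩
  have t1 : T₁ ≤ T := (((le_max_left _ _).trans (le_max_left _ _)).trans (le_max_left _ _)).trans hT
  have t2 : T₂ ≤ T := (((le_max_right _ _).trans (le_max_left _ _)).trans (le_max_left _ _)).trans hT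
  have t3 : T₃ ≤ T := (((le_max_left _ _).trans (le_max_right _ _)).trans (le_max_left _ _)).trans hT
  have t4 : T₄ ≤ T := (((le_max_right _ _).trans (le_max_right _ _)).trans (le_max_left _ _)).trans hT
  have t5 : T₅ ≤ T := ((le_max_left _ _).trans (le_max_right _ _)).trans hT
  have t6 : Real.exp (2 * c + 1) ≤ T := ((le_max_right _ _).trans (le_max_right _ _)).trans hT
  have hT3 : 3 ≤ T := hT₁.trans t1
  have hT0 : 0 < T := by linarith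
  have hlog : 2 * c < Real.log T := by
    have := (Real.le_log_iff_exp_le hT0).2 t6
    linarith
  have hα'c : -c ≤ α' := by linarith
  have hA1 : (1 : ℝ) ≤ 1 + |α'| := by
    have := abs_nonneg α'
    linarith
  obtain ⟨K, hK⟩ : ∃ K : ℝ, K = C' * T * (1 + |α'|) ^ (A + 10) := ⟨_, rfl⟩
  have hK0 : 0 ≤ K := by rw [hK]; positivity
  have hpow : ∀ σ : ℝ, (1 : ℝ) ≤ 1 + |σ| := fun σ => by
    have := abs_nonneg σ
    linarith
  -- the far range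
  have hfarK : ∀ β σ : ℝ, |β| ≤ c → Real.sqrt T ≤ |σ| →
      FL δ T α' β σ ≤ ENNReal.ofReal (K * (1 + |σ|) ^ (A + 10)) := by
    intro β σ hβ hσ
    refine (hfar' T t4 α' β σ hβ hα'c hσ).trans (ENNReal.ofReal_le_ofReal ?_)
    have h1 : (1 + |σ|) ^ 10 ≤ (1 + |σ|) ^ (A + 10) := pow_le_pow_right₀ (hpow σ) (by omega)
    have h2 : (1 : ℝ) ≤ (1 + |α'|) ^ (A + 10) := one_le_pow₀ hA1
    have h3 : (10 : ℝ) ^ 5 ≤ C' := by rw [hC']; linarith
    have h4 : (10 : ℝ) ^ 5 * T ≤ K := by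
      rw [hK]
      have h5 : (10 : ℝ) ^ 5 * T ≤ C' * T := mul_le_mul_of_nonneg_right h3 hT0.le
      have h6 : C' * T * 1 ≤ C' * T * (1 + |α'|) ^ (A + 10) :=
        mul_le_mul_of_nonneg_left h2 (by positivity)
      linarith
    exact mul_le_mul h4 h1 (by positivity) hK0
  -- the near range
  have hnearK : ∀ β σ Z : ℝ, |β| ≤ c → 1 ≤ c / 2 + β → |σ| ≤ Real.sqrt T → 0 ≤ Z →
      (∀ τ' : ℝ, FL δ T α' (c / 2) τ' ≤ ENNReal.ofReal (Z * (1 + |τ'|) ^ (A + 10))) →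
      FL δ T α' β σ ≤ ENNReal.ofReal ((K + 3 * C₃ *
        Real.exp (3 / 2 * c - 48 / 25 * (c / 2 + β)) * Z) * (1 + |σ|) ^ (A + 10)) := by
    intro β σ Z hβ h1 hσ hZ hZ'
    refine (aimp_step δ c T C C₃ A (A + 10) hT3 hc2 hlog α' β σ Z hC hC₃ hβ h1 hZ
      (hDM' T t1 β σ α' hβ hα'c)
      (hstep' T t2 δ α' β σ Z h1 ((le_abs_self β).trans hβ) hσ hZ hZ')
      (fun t ht1 ht2 => hnear' T t5 α' β σ t hβ hα'c hσ ht1 ht2)).trans
      (ENNReal.ofReal_le_ofReal ?_)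
    have g1 : (1 + |σ|) ^ A ≤ (1 + |σ|) ^ (A + 10) := pow_le_pow_right₀ (hpow σ) (by omega)
    have g2 : (1 + |α'|) ^ A ≤ (1 + |α'|) ^ (A + 10) := pow_le_pow_right₀ hA1 (by omega)
    have g3 : (1 : ℝ) ≤ (1 + |α'|) ^ (A + 10) := one_le_pow₀ hA1
    have g4 : (1 : ℝ) ≤ (1 + |σ|) ^ (A + 10) := one_le_pow₀ (hpow σ)
    have g5 : C * T * (1 + |σ|) ^ A * (1 + |α'|) ^ A ≤
        C * T * (1 + |σ|) ^ (A + 10) * (1 + |α'|) ^ (A + 10) := by
      gcongr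
    have g6 : T ≤ T * (1 + |σ|) ^ (A + 10) * (1 + |α'|) ^ (A + 10) := by
      have g7 : (1 : ℝ) ≤ (1 + |σ|) ^ (A + 10) * (1 + |α'|) ^ (A + 10) :=
        one_le_mul_of_one_le_of_one_le g4 g3
      calc T = T * 1 := (mul_one T).symm
        _ ≤ T * ((1 + |σ|) ^ (A + 10) * (1 + |α'|) ^ (A + 10)) :=
          mul_le_mul_of_nonneg_left g7 hT0.le
        _ = T * (1 + |σ|) ^ (A + 10) * (1 + |α'|) ^ (A + 10) := by ring
    have g8 : 0 ≤ T * (1 + |σ|) ^ (A + 10) * (1 + |α'|) ^ (A + 10) := by positivity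
    rw [hK, hC']
    linarith only [g5, g6, g8]
  -- step 2
  have hexp : Real.exp (3 / 2 * c - 48 / 25 * (c / 2 + c / 2)) = Real.exp (-(21 / 50 * c)) := by
    congr 1
    ring
  have hhalf : |c / 2| ≤ c := by
    rw [abs_of_nonneg (by linarith)]
    linarith
  have hiter : ∀ n : ℕ, ∀ σ : ℝ, FL δ T α' (c / 2) σ ≤
      ENNReal.ofReal ((2 * K + 10 ^ 5 * T ^ 5 / 2 ^ n) * (1 + |σ|) ^ (A + 10)) := by
    intro n
    induction n with
    | zero =>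
      intro σ
      refine (htriv' T t3 α' (c / 2) σ hhalf hα'c).trans (ENNReal.ofReal_le_ofReal ?_)
      have h1 : (1 + |σ|) ^ 2 ≤ (1 + |σ|) ^ (A + 10) := pow_le_pow_right₀ (hpow σ) (by omega)
      have h2 : (10 : ℝ) ^ 5 * T ^ 5 ≤ 2 * K + 10 ^ 5 * T ^ 5 / 2 ^ 0 := by
        rw [pow_zero, div_one]
        linarith
      exact mul_le_mul h2 h1 (by positivity) (by positivity)
    | succ n ih =>
      intro σ
      have hZ0 : 0 ≤ 2 * K + 10 ^ 5 * T ^ 5 / 2 ^ n := by positivity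
      have hgoal : K + (2 * K + 10 ^ 5 * T ^ 5 / 2 ^ n) / 2 =
          2 * K + 10 ^ 5 * T ^ 5 / 2 ^ (n + 1) := by
        rw [pow_succ]
        ring
      rcases le_total (Real.sqrt T) |σ| with h | h
      · refine (hfarK (c / 2) σ hhalf h).trans (ENNReal.ofReal_le_ofReal ?_)
        refine mul_le_mul_of_nonneg_right ?_ (by positivity)
        rw [← hgoal]
        linarith
      · refine (hnearK (c / 2) σ _ hhalf (by linarith) h hZ0 ih).trans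
          (ENNReal.ofReal_le_ofReal ?_)
        refine mul_le_mul_of_nonneg_right ?_ (by positivity)
        rw [hexp, ← hgoal]
        have := mul_le_mul_of_nonneg_right hcsm hZ0
        linarith
  have hlim : ∀ σ : ℝ, FL δ T α' (c / 2) σ ≤ ENNReal.ofReal (2 * K * (1 + |σ|) ^ (A + 10)) := by
    intro σ
    have h1 : Tendsto (fun n : ℕ => ENNReal.ofReal ((2 * K + 10 ^ 5 * T ^ 5 / 2 ^ n) *
        (1 + |σ|) ^ (A + 10))) atTop (𝓝 (ENNReal.ofReal ((2 * K + 0) * (1 + |σ|) ^ (A + 10)))) := by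
      refine ENNReal.tendsto_ofReal ?_
      refine Tendsto.mul_const _ (Tendsto.const_add _ ?_)
      exact tendsto_const_nhds.div_atTop (tendsto_pow_atTop_atTop_of_one_lt (by norm_num))
    rw [add_zero] at h1
    exact ge_of_tendsto' h1 fun n => hiter n σ
  -- step 3
  have hαc : |α| ≤ c := by linarith
  have hα1 : 1 ≤ c / 2 + α := by
    have := neg_abs_le α
    linarith
  have hfin : ∀ x : ℝ, x ≤ (C' + 6 * C₃ * Real.exp (3 / 2 * c) * C') * T * (1 + |α'|) ^ (A + 10) →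
      x * (1 + |τ|) ^ (A + 10) ≤ (C' + 6 * C₃ * Real.exp (3 / 2 * c) * C') * T *
        (1 + |τ|) ^ (A + 10) * (1 + |α'|) ^ (A + 10) := by
    intro x hx
    have := mul_le_mul_of_nonneg_right hx (by positivity : (0 : ℝ) ≤ (1 + |τ|) ^ (A + 10))
    linarith
  have hKfin : (C' + 6 * C₃ * Real.exp (3 / 2 * c) * C') * T * (1 + |α'|) ^ (A + 10) =
      K + 6 * C₃ * Real.exp (3 / 2 * c) * K := by
    rw [hK]
    ring
  rcases le_total (Real.sqrt T) |τ| with h | h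
  · refine (hfarK α τ hαc h).trans (ENNReal.ofReal_le_ofReal (hfin K ?_))
    rw [hKfin]
    have : 0 ≤ 6 * C₃ * Real.exp (3 / 2 * c) * K := by positivity
    linarith
  · refine (hnearK α τ (2 * K) hαc hα1 h (by positivity) hlim).trans
      (ENNReal.ofReal_le_ofReal (hfin _ ?_))
    rw [hKfin]
    have h1 : Real.exp (3 / 2 * c - 48 / 25 * (c / 2 + α)) ≤ Real.exp (3 / 2 * c) :=
      Real.exp_le_exp.2 (by linarith)
    have h2 := mul_le_mul_of_nonneg_left h1 (by positivity : 0 ≤ 3 * C₃ * (2 * K))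
    linarith only [h2]

end Pool.Agent.Lib.MP_ec260d_ntB.IA
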