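import Mathlib
import Pool.Agent.Lib.MP_ec260d_ntB.AImp

/-!
# JOB AE2: `(ζ - DD) · MM` to the right of the critical line (about 180 lines)

SETUP.  `l = log T`, `s = 1/2 + x + it = zp T (x l) 0 t`, `0 ≤ x ≤ 3`, `c = x l + 1 ≥ 1`.
`zeta_split` (`c/l = x + 1/l < 1/2 + x` for `l > 2`, `Re s = 1/2 + x < 1 + c/l`, `s ≠ 1` since `t > 0`): `ζ(s) - DD T s = ∫ kk c ξ ζ(s - (c + 2πξi)/l) dξ + RR T s`, and `s - (c + 2πξ i)/l = zp T (-1) (-2πξ) t` (`zp_shift`, `x l - c = -1`).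
`cs_tonelli` (`k = kk c`, `g ξ t = ζ(zp T (-1) (-2πξ) t)`, `m t = MM δ T (zp T (x l) 0 t)`): the mean square of the first part times `MM` is
`≤ (∫‖kk c‖) ∫ ‖kk c ξ‖ FL δ T (x l) (-1) (-2πξ) dξ`, and `z_bound` with `c₁ = 1` (`α = -1`, `α' = x l ≥ 0`): `FL ≤ C T (1+2π|ξ|)^B (1 + x l)^B`; `kk_bound` with `r = B + 2`:
`≤ C' e^(-(48/25) c) T (1 + x l)^B ≤ C'' T e^(-x l)` (`(1+u)^B e^(-(23/25) u)` is bounded for `u ≥ 0`).
`R_far`: `‖RR MM‖² ≤ T^(-6) ≤ e^(-2 x l)` as `x ≤ 3`.  `‖a + b‖² ≤ 2‖a‖² + 2‖b‖²`.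
-/

namespace Pool.Agent.Lib.MP_ec260d_ntB.IA

open Complex Set Filter Topology MeasureTheory

/-- the integral of `(1 + |ξ|) ^ (-2)` is finite -/
private lemma AE2_J : ∃ J : ℝ, 0 < J ∧
    ∫⁻ ξ : ℝ, ENNReal.ofReal (1 / (1 + |ξ|) ^ 2) ≤ ENNReal.ofReal J := by
  have h1 : Integrable (fun ξ : ℝ => (1 + ‖ξ‖) ^ (-(2 : ℝ))) :=
    integrable_one_add_norm (by simp)
  have e : ∀ ξ : ℝ, (1 + ‖ξ‖) ^ (-(2 : ℝ)) = 1 / (1 + |ξ|) ^ 2 := by
    intro ξ
    have h0 : 0 ≤ 1 + ‖ξ‖ := by positivity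
    rw [Real.rpow_neg h0, one_div, Real.norm_eq_abs]
    norm_num
  have h2 : Integrable (fun ξ : ℝ => 1 / (1 + |ξ|) ^ 2) :=
    h1.congr (Filter.Eventually.of_forall e)
  refine ⟨(∫ ξ : ℝ, 1 / (1 + |ξ|) ^ 2) + 1, ?_, ?_⟩
  · have h3 : 0 ≤ ∫ ξ : ℝ, 1 / (1 + |ξ|) ^ 2 :=
      integral_nonneg fun ξ => by positivity
    linarith
  · rw [← ofReal_integral_eq_lintegral_ofReal h2
      (Filter.Eventually.of_forall fun ξ => by positivity)]
    exact ENNReal.ofReal_le_ofReal (by linarith)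

private lemma AE2_lint (M : ℝ) (hM : 0 ≤ M) {J : ℝ}
    (h : ∫⁻ ξ : ℝ, ENNReal.ofReal (1 / (1 + |ξ|) ^ 2) ≤ ENNReal.ofReal J) :
    ∫⁻ ξ : ℝ, ENNReal.ofReal (M * (1 / (1 + |ξ|) ^ 2)) ≤ ENNReal.ofReal (M * J) := by
  have e : ∀ ξ : ℝ, ENNReal.ofReal (M * (1 / (1 + |ξ|) ^ 2)) =
      ENNReal.ofReal M * ENNReal.ofReal (1 / (1 + |ξ|) ^ 2) := fun ξ =>
    ENNReal.ofReal_mul hM
  rw [lintegral_congr e, lintegral_const_mul', ENNReal.ofReal_mul hM]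
  · exact mul_le_mul_right h _
  · exact ENNReal.ofReal_ne_top

private lemma AE2_exp (B : ℕ) {u : ℝ} (hu : 0 ≤ u) :
    (1 + u) ^ B ≤ (25 / 23) ^ B * (B.factorial : ℝ) * Real.exp (23 / 25) *
      Real.exp (23 / 25 * u) := by
  have h := Real.pow_div_factorial_le_exp (23 / 25 * (1 + u)) (by positivity) B
  have hB : (0 : ℝ) < B.factorial := by positivity
  rw [div_le_iff₀ hB, mul_pow] at h
  have h2 : Real.exp (23 / 25 * (1 + u)) = Real.exp (23 / 25) * Real.exp (23 / 25 * u) := by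
    rw [← Real.exp_add]
    congr 1
    ring
  have h3 : (25 / 23 : ℝ) ^ B * (23 / 25) ^ B = 1 := by
    rw [← mul_pow]
    norm_num
  calc (1 + u) ^ B = (25 / 23 : ℝ) ^ B * ((23 / 25) ^ B * (1 + u) ^ B) := by
        rw [← mul_assoc, h3, one_mul]
    _ ≤ (25 / 23 : ℝ) ^ B * (Real.exp (23 / 25 * (1 + u)) * (B.factorial : ℝ)) :=
        mul_le_mul_of_nonneg_left h (by positivity)
    _ = _ := by
        rw [h2]
        ring

theorem zd_bound : ∃ δ₀ : ℝ, 0 < δ₀ ∧ δ₀ ≤ 1 ∧ ∀ δ : ℝ, 0 < δ → δ ≤ δ₀ → ∃ C T₀ : ℝ, 0 ≤ C ∧ 3 ≤ T₀ ∧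
    ∀ T : ℝ, T₀ ≤ T → ∀ x : ℝ, 0 ≤ x → x ≤ 3 →
    ∫⁻ t in Icc (T / 2) (3 * T), ENNReal.ofReal
      (‖(riemannZeta (((1 / 2 + x : ℝ) : ℂ) + t * I) - DD T (((1 / 2 + x : ℝ) : ℂ) + t * I)) *
        MM δ T (((1 / 2 + x : ℝ) : ℂ) + t * I)‖ ^ 2) ≤ ENNReal.ofReal (C * T * Real.exp (-(x * Real.log T))) := by
  obtain ⟨B, δ1, hδ1, hδ1', hz⟩ := z_bound
  obtain ⟨δ2, hδ2, hδ2', hRf⟩ := R_far
  obtain ⟨K, hK, hkk⟩ := kk_bound (B + 2)
  obtain ⟨J, hJ, hJle⟩ := AE2_J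
  have hpi := Real.pi_pos
  refine ⟨min δ1 δ2, lt_min hδ1 hδ2, (min_le_left _ _).trans hδ1', fun δ hδ hδ' => ?_⟩
  obtain ⟨C, T1, hC, hT1, hz1⟩ := hz δ 1 hδ (hδ'.trans (min_le_left _ _)) zero_le_one
  obtain ⟨T2, hT2, hR⟩ := hRf δ hδ (hδ'.trans (min_le_right _ _))
  set D : ℝ := (25 / 23 : ℝ) ^ B * (B.factorial : ℝ) * Real.exp (23 / 25) with hD
  have hD0 : 0 ≤ D := by positivity
  refine ⟨2 * (K * J * (C * (2 * Real.pi) ^ B * K * J)) * D + 5, max (max T1 T2) (Real.exp 3),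
    by positivity, (hT1.trans (le_max_left _ _)).trans (le_max_left _ _), ?_⟩
  intro T hTT x hx0 hx3
  have hTa : T1 ≤ T := (le_max_left _ _).trans ((le_max_left _ _).trans hTT)
  have hTb : T2 ≤ T := (le_max_right _ _).trans ((le_max_left _ _).trans hTT)
  have hT3 : 3 ≤ T := hT1.trans hTa
  have hT0 : 0 < T := by linarith
  have hl : 3 ≤ Real.log T := by
    have h := Real.log_le_log (Real.exp_pos _) ((le_max_right _ _).trans hTT)
    rwa [Real.log_exp] at h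
  have hl0 : 0 < Real.log T := by linarith
  set l : ℝ := Real.log T with hlT
  set u : ℝ := x * l with hu
  have hu0 : 0 ≤ u := by positivity
  set c : ℝ := u + 1 with hc
  have hc1 : 1 ≤ c := by linarith
  have hcl : c / l = x + 1 / l := by
    rw [hc, hu]
    field_simp
  have h1l : 1 / l ≤ 1 / 3 := one_div_le_one_div_of_le (by norm_num) hl
  have h1l0 : 0 < 1 / l := by positivity
  set E : ℝ := Real.exp (-(24 / 25 * c)) with hE
  have hE0 : 0 < E := Real.exp_pos _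
  have hs : ∀ t : ℝ, (((1 / 2 + x : ℝ) : ℂ) + t * I) = zp T u 0 t := by
    intro t
    unfold zp
    rw [← hlT, hu]
    have hl' : (l : ℂ) ≠ 0 := by exact_mod_cast hl0.ne'
    push_cast
    field_simp
    ring
  have hshift : ∀ ξ t : ℝ, zp T u 0 t - ((c : ℂ) + 2 * Real.pi * ξ * I) / l =
      zp T (-1) (-(2 * Real.pi * ξ)) t := by
    intro ξ t
    rw [hlT, zp_shift]
    congr 1
    · rw [hc]
      ring
    · ring
  -- the main part
  have hcont : Continuous (Function.uncurry fun ξ t : ℝ =>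
      riemannZeta (zp T (-1) (-(2 * Real.pi * ξ)) t)) := by
    have h1 := zp_cont T (-1) hT3 (by
      rw [← hlT, neg_div]
      linarith)
    have h2 : Continuous (fun p : ℝ × ℝ => ((-(2 * Real.pi * p.1), p.2) : ℝ × ℝ)) := by fun_prop
    have h3 := h1.comp h2
    refine h3.congr fun p => ?_
    show riemannZeta (zp T (-1) (-(2 * Real.pi * p.1)) p.2) =
      riemannZeta (zp T (-1) (-(2 * Real.pi * p.1)) p.2)
    rfl
  have hcs := cs_tonelli (kk c) (kk_cont c hc1) (fun ξ t : ℝ =>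
    riemannZeta (zp T (-1) (-(2 * Real.pi * ξ)) t)) hcont
    (fun t => MM δ T (zp T u 0 t)) (MM_cont δ T u) (Icc (T / 2) (3 * T)) measurableSet_Icc
  have hkb : ∀ ξ : ℝ, ‖kk c ξ‖ ≤ K * E * (1 / (1 + |ξ|) ^ (B + 2)) := by
    intro ξ
    have h := hkk c ξ hc1
    rw [mul_one_div]
    exact h
  have hfirst : ∫⁻ ξ : ℝ, ENNReal.ofReal ‖kk c ξ‖ ≤ ENNReal.ofReal (K * E * J) := by
    refine (lintegral_mono fun ξ => ENNReal.ofReal_le_ofReal ?_).trans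
      (AE2_lint (K * E) (by positivity) hJle)
    refine (hkb ξ).trans (mul_le_mul_of_nonneg_left ?_ (by positivity))
    refine one_div_le_one_div_of_le (by positivity) ?_
    exact pow_le_pow_right₀ (by linarith [abs_nonneg ξ]) (by omega)
  have hsecond : ∫⁻ ξ : ℝ, ENNReal.ofReal ‖kk c ξ‖ * (∫⁻ t in Icc (T / 2) (3 * T), ENNReal.ofReal
      (‖riemannZeta (zp T (-1) (-(2 * Real.pi * ξ)) t) * MM δ T (zp T u 0 t)‖ ^ 2)) ≤
      ENNReal.ofReal (C * T * (1 + u) ^ B * K * E * (2 * Real.pi) ^ B * J) := by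
    refine (lintegral_mono fun ξ => ?_).trans (AE2_lint
      (C * T * (1 + u) ^ B * K * E * (2 * Real.pi) ^ B) (by positivity) hJle)
    have h0 := hz1 T hTa u (-1) (-(2 * Real.pi * ξ)) (by rw [abs_neg, abs_one]) (by linarith)
    refine (mul_le_mul_right h0 _).trans ?_
    rw [← ENNReal.ofReal_mul (norm_nonneg _)]
    refine ENNReal.ofReal_le_ofReal ?_
    have ha : |-(2 * Real.pi * ξ)| = 2 * Real.pi * |ξ| := by
      rw [abs_neg, abs_mul, abs_of_pos (by positivity : 0 < 2 * Real.pi)]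
    rw [ha, abs_of_nonneg hu0]
    have h1 : 0 < 1 + |ξ| := by positivity
    have h2 : 1 + 2 * Real.pi * |ξ| ≤ 2 * Real.pi * (1 + |ξ|) := by
      have := Real.pi_gt_three
      linarith
    have h3 : (1 + 2 * Real.pi * |ξ|) ^ B ≤ (2 * Real.pi) ^ B * (1 + |ξ|) ^ B := by
      rw [← mul_pow]
      exact pow_le_pow_left₀ (by positivity) h2 _
    have h4 : ‖kk c ξ‖ * (1 + 2 * Real.pi * |ξ|) ^ B ≤
        K * E * (1 / (1 + |ξ|) ^ (B + 2)) * ((2 * Real.pi) ^ B * (1 + |ξ|) ^ B) :=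
      mul_le_mul (hkb ξ) h3 (by positivity) (by positivity)
    have h5 : K * E * (1 / (1 + |ξ|) ^ (B + 2)) * ((2 * Real.pi) ^ B * (1 + |ξ|) ^ B) =
        K * E * (2 * Real.pi) ^ B * (1 / (1 + |ξ|) ^ 2) := by
      have h6 : (1 + |ξ|) ^ (B + 2) = (1 + |ξ|) ^ B * (1 + |ξ|) ^ 2 := by
        rw [← pow_add]
      rw [h6]
      field_simp
    rw [h5] at h4
    have h7 : 0 ≤ C * T * (1 + u) ^ B := by positivity
    have h8 := mul_le_mul_of_nonneg_left h4 h7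
    calc ‖kk c ξ‖ * (C * T * (1 + 2 * Real.pi * |ξ|) ^ B * (1 + u) ^ B)
        = C * T * (1 + u) ^ B * (‖kk c ξ‖ * (1 + 2 * Real.pi * |ξ|) ^ B) := by ring
      _ ≤ C * T * (1 + u) ^ B * (K * E * (2 * Real.pi) ^ B * (1 / (1 + |ξ|) ^ 2)) := h8
      _ = _ := by ring
  have hmain := hcs.trans ((mul_le_mul' hfirst hsecond).trans
    (le_of_eq (ENNReal.ofReal_mul (by positivity)).symm))
  -- pointwise
  have hpt : ∀ t ∈ Icc (T / 2) (3 * T), ENNReal.ofReal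
      (‖(riemannZeta (((1 / 2 + x : ℝ) : ℂ) + t * I) - DD T (((1 / 2 + x : ℝ) : ℂ) + t * I)) *
        MM δ T (((1 / 2 + x : ℝ) : ℂ) + t * I)‖ ^ 2) ≤
      ENNReal.ofReal 2 * ENNReal.ofReal (‖(∫ ξ : ℝ, kk c ξ *
        riemannZeta (zp T (-1) (-(2 * Real.pi * ξ)) t)) * MM δ T (zp T u 0 t)‖ ^ 2) +
      ENNReal.ofReal (2 * (T ^ (-(3 : ℝ))) ^ 2) := by
    intro t ht
    have htpos : 0 < t := by linarith [ht.1]
    have hre : (((1 / 2 + x : ℝ) : ℂ) + t * I).re = 1 / 2 + x := by simp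
    have him : (((1 / 2 + x : ℝ) : ℂ) + t * I).im = t := by simp
    have hne : (((1 / 2 + x : ℝ) : ℂ) + t * I) ≠ 1 := by
      intro h
      rw [h, Complex.one_im] at him
      linarith
    have hsplit := zeta_split T c hT3 hc1 (((1 / 2 + x : ℝ) : ℂ) + t * I)
      (by rw [hre, ← hlT, hcl]; linarith) (by rw [hre, ← hlT, hcl]; linarith) hne
    have hRt := hR T hTb x t hx0 hx3 ht.1 ht.2
    have hint : (∫ ξ : ℝ, kk c ξ * riemannZeta ((((1 / 2 + x : ℝ) : ℂ) + t * I) -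
        ((c : ℂ) + 2 * Real.pi * ξ * I) / Real.log T)) =
        ∫ ξ : ℝ, kk c ξ * riemannZeta (zp T (-1) (-(2 * Real.pi * ξ)) t) := by
      refine integral_congr_ae (Filter.Eventually.of_forall fun ξ => ?_)
      show kk c ξ * riemannZeta ((((1 / 2 + x : ℝ) : ℂ) + t * I) -
        ((c : ℂ) + 2 * Real.pi * ξ * I) / Real.log T) =
        kk c ξ * riemannZeta (zp T (-1) (-(2 * Real.pi * ξ)) t)
      rw [hs, ← hlT, hshift]
    rw [hint] at hsplit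
    set Q : ℂ := ∫ ξ : ℝ, kk c ξ * riemannZeta (zp T (-1) (-(2 * Real.pi * ξ)) t) with hQ
    have e1 : (riemannZeta (((1 / 2 + x : ℝ) : ℂ) + t * I) - DD T (((1 / 2 + x : ℝ) : ℂ) + t * I)) *
        MM δ T (((1 / 2 + x : ℝ) : ℂ) + t * I) =
        Q * MM δ T (zp T u 0 t) + RR T (((1 / 2 + x : ℝ) : ℂ) + t * I) *
          MM δ T (((1 / 2 + x : ℝ) : ℂ) + t * I) := by
      rw [hsplit, ← hs]
      ring
    rw [e1, ← ENNReal.ofReal_mul (by norm_num), ← ENNReal.ofReal_add (by positivity) (by positivity)]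
    refine ENNReal.ofReal_le_ofReal ?_
    set a : ℂ := Q * MM δ T (zp T u 0 t) with ha
    set b : ℂ := RR T (((1 / 2 + x : ℝ) : ℂ) + t * I) * MM δ T (((1 / 2 + x : ℝ) : ℂ) + t * I) with hb
    have h1 : ‖a + b‖ ≤ ‖a‖ + ‖b‖ := norm_add_le _ _
    have h2 : ‖b‖ ^ 2 ≤ (T ^ (-(3 : ℝ))) ^ 2 := pow_le_pow_left₀ (norm_nonneg _) hRt 2
    have h3 : ‖a + b‖ ^ 2 ≤ (‖a‖ + ‖b‖) ^ 2 := pow_le_pow_left₀ (norm_nonneg _) h1 2
    nlinarith [sq_nonneg (‖a‖ - ‖b‖)]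
  refine (setLIntegral_mono' measurableSet_Icc hpt).trans ?_
  rw [lintegral_add_right _ measurable_const, lintegral_const_mul' _ _ ENNReal.ofReal_ne_top,
    setLIntegral_const, Real.volume_Icc]
  have hsum : ENNReal.ofReal 2 * (∫⁻ t in Icc (T / 2) (3 * T), ENNReal.ofReal (‖(∫ ξ : ℝ, kk c ξ *
        riemannZeta (zp T (-1) (-(2 * Real.pi * ξ)) t)) * MM δ T (zp T u 0 t)‖ ^ 2)) ≤
      ENNReal.ofReal (2 * (K * E * J * (C * T * (1 + u) ^ B * K * E * (2 * Real.pi) ^ B * J))) := by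
    rw [ENNReal.ofReal_mul (by norm_num : (0 : ℝ) ≤ 2)]
    exact mul_le_mul_right hmain _
  refine (add_le_add_left hsum _).trans ?_
  rw [← ENNReal.ofReal_mul (by positivity), ← ENNReal.ofReal_add (by positivity)
    (mul_nonneg (by positivity) (by linarith))]
  refine ENNReal.ofReal_le_ofReal ?_
  have hexp : E * E * Real.exp (23 / 25 * u) ≤ Real.exp (-u) := by
    rw [hE, ← Real.exp_add, ← Real.exp_add]
    refine Real.exp_le_exp.2 ?_
    rw [hc]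
    linarith
  have hpw := AE2_exp B hu0
  rw [← hD] at hpw
  have hA : 2 * (K * E * J * (C * T * (1 + u) ^ B * K * E * (2 * Real.pi) ^ B * J)) ≤
      2 * (K * J * (C * (2 * Real.pi) ^ B * K * J)) * D * T * Real.exp (-u) := by
    have h1 : 2 * (K * E * J * (C * T * (1 + u) ^ B * K * E * (2 * Real.pi) ^ B * J)) =
        2 * (K * J * (C * (2 * Real.pi) ^ B * K * J)) * T * (E * E * (1 + u) ^ B) := by ring
    have h2 : E * E * (1 + u) ^ B ≤ D * Real.exp (-u) := by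
      calc E * E * (1 + u) ^ B ≤ E * E * (D * Real.exp (23 / 25 * u)) :=
            mul_le_mul_of_nonneg_left hpw (by positivity)
        _ = D * (E * E * Real.exp (23 / 25 * u)) := by ring
        _ ≤ D * Real.exp (-u) := mul_le_mul_of_nonneg_left hexp hD0
    rw [h1]
    have h3 := mul_le_mul_of_nonneg_left h2
      (by positivity : 0 ≤ 2 * (K * J * (C * (2 * Real.pi) ^ B * K * J)) * T)
    refine h3.trans (le_of_eq ?_)
    ring
  have hTm3 : T ^ (-(3 : ℝ)) ≤ Real.exp (-u) := by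
    rw [Real.rpow_def_of_pos hT0, ← hlT]
    refine Real.exp_le_exp.2 ?_
    rw [hu]
    have := mul_le_mul_of_nonneg_right hx3 hl0.le
    linarith
  have hTm1 : T ^ (-(3 : ℝ)) ≤ 1 := Real.rpow_le_one_of_one_le_of_nonpos (by linarith) (by norm_num)
  have hTp : 0 ≤ T ^ (-(3 : ℝ)) := by positivity
  have hB2 : 2 * (T ^ (-(3 : ℝ))) ^ 2 * (3 * T - T / 2) ≤ 5 * T * Real.exp (-u) := by
    have h1 : (T ^ (-(3 : ℝ))) ^ 2 ≤ Real.exp (-u) := by
      rw [sq]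
      calc T ^ (-(3 : ℝ)) * T ^ (-(3 : ℝ)) ≤ 1 * Real.exp (-u) :=
            mul_le_mul hTm1 hTm3 hTp zero_le_one
        _ = Real.exp (-u) := one_mul _
    have h2 : 2 * (T ^ (-(3 : ℝ))) ^ 2 * (3 * T - T / 2) = 5 * T * (T ^ (-(3 : ℝ))) ^ 2 := by ring
    rw [h2]
    exact mul_le_mul_of_nonneg_left h1 (by positivity)
  have hfin : (2 * (K * J * (C * (2 * Real.pi) ^ B * K * J)) * D + 5) * T * Real.exp (-u) =
      2 * (K * J * (C * (2 * Real.pi) ^ B * K * J)) * D * T * Real.exp (-u) +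
        5 * T * Real.exp (-u) := by ring
  rw [hfin]
  linarith

end Pool.Agent.Lib.MP_ec260d_ntB.IA
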