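import Mathlib
import Pool.Agent.Lib.MP_ec260d_ntB.AE1
import Pool.Agent.Lib.MP_ec260d_ntB.AE2

/-!
# JOB AFin: interface A (about 230 lines)

`MS_le`.  `ζ MM - 1 = (DD MM - 1) + (ζ - DD) MM`; `‖a+b‖² ≤ 2‖a‖²+2‖b‖²`, `dm_one`, `zd_bound`; `MS T F x = (1/T) ∫_(T/2)^(3T) ‖F(1/2+x+it)‖² dt` is the `toReal` of the lintegral over `Icc` divided by `T` (the integrand is continuous: `t > 0`
so `s ≠ 1`, `differentiableAt_riemannZeta`, `MM_diff`).
`small_int`.  `l = log T`, for `0 < δ ≤ δ₀` let `S(x)` be the right side of `MS_le`.  `√S(x) ≤ √(2C₂) δ^(-A₁/2) (e^(-δ x l) + ∑_j e^(-d_j/2 - d_j δ e^(-(j+1)) x l)) + √C e^(-x l/2)`.  Integrate `l dx` over `[W/l, 3]`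
(`l ∫_(W/l)^∞ e^(-κ x l) dx = e^(-κ W)/κ`):
`≤ √(2C₂) δ^(-A₁/2) [ e^(-δW)/δ + ∑_j e^(-d_j/2)/(d_j δ e^(-(j+1))) ] + 2√C e^(-W/2)`.
`d_j δ e^(-j) ≥ (δ e^(-j))^(1/4)` (`dd_low`), and `d_j ≥ (δe^(-j))^(-3/4)`; with `y = (δ e^(-j))^(-1/4) = δ^(-1/4) e^(j/4) ≥ 1`: the `j`-th term is `≤ e · y e^(-y³/2) ≤ C e^(-y) `, and
`∑_j e^(-δ^(-1/4) e^(j/4)) ≤ ∑_j e^(-δ^(-1/4)(1 + j/4)) ≤ 10 e^(-δ^(-1/4))` (`e^(j/4) ≥ 1 + j/4`), which beats `δ^(-A₁/2)` as `δ → 0`.  So: given `ε` choose `δ₁` such that the middle part is `≤ ε/3` for all `δ ≤ δ₁`, then `W₀`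
(depending on `δ`) such that the first and last parts are `≤ ε/3` for `W ≥ W₀`.
The second integral (without square root): `S(x) ≤ 2C₂ δ^(-A₁)(e^(-2δxl) + ∑_j e^(-d_j - 2 d_j δ e^(-(j+1)) x l)) + C e^(-xl)`, integrated in the same way.
In both cases use `intervalIntegral.norm_integral_le_of_norm_le` (no measurability of `x ↦ MS` is needed) or `integral_mono_of_nonneg`.
`bdd`.  `MS T (ζ MM) x = (1/T) (FL δ T (x l) (x l) 0).toReal`, `z_bound`.
-/

namespace Pool.Agent.Lib.MP_ec260d_ntB.IA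

open Complex Set Filter Topology MeasureTheory

private theorem AFinA_DD_cont (T : ℝ) : Continuous (DD T) := by
  unfold DD
  refine continuous_finsetSum _ ?_
  intro m hm
  have hm0 : (m : ℂ) ≠ 0 := by
    have := (Finset.mem_Icc.1 hm).1
    exact_mod_cast (by omega : m ≠ 0)
  refine continuous_const.mul ?_
  exact Continuous.const_cpow continuous_neg (Or.inl hm0)

private theorem AFinA_sq (a b : ℂ) : ‖a + b‖ ^ 2 ≤ 2 * ‖a‖ ^ 2 + 2 * ‖b‖ ^ 2 := by
  have h := norm_add_le a b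
  have h0 := norm_nonneg (a + b)
  have h1 := norm_nonneg a
  have h2 := norm_nonneg b
  nlinarith [sq_nonneg (‖a‖ - ‖b‖), mul_nonneg h0 (sub_nonneg.2 h), mul_nonneg (add_nonneg h1 h2) (sub_nonneg.2 h)]

private theorem AFinA_core {a b X Y : ℝ} {f g h : ℝ → ℝ} (hab : a ≤ b) (hX : 0 ≤ X) (hY : 0 ≤ Y)
    (hg : Measurable g) (hf0 : ∀ t, 0 ≤ f t) (hg0 : ∀ t, 0 ≤ g t) (hh0 : ∀ t, 0 ≤ h t)
    (hfgh : ∀ t, f t ≤ 2 * g t + 2 * h t)
    (h1 : ∫⁻ t in Icc a b, ENNReal.ofReal (g t) ≤ ENNReal.ofReal X)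
    (h2 : ∫⁻ t in Icc a b, ENNReal.ofReal (h t) ≤ ENNReal.ofReal Y) :
    ∫ t in a..b, f t ≤ 2 * X + 2 * Y := by
  rw [intervalIntegral.integral_of_le hab]
  have e1 : ∫ t in Ioc a b, f t ≤ (∫⁻ t in Ioc a b, ENNReal.ofReal ‖f t‖).toReal :=
    (Real.le_norm_self _).trans (norm_integral_le_lintegral_norm _)
  refine e1.trans (ENNReal.toReal_le_of_le_ofReal (by positivity) ?_)
  calc ∫⁻ t in Ioc a b, ENNReal.ofReal ‖f t‖
      ≤ ∫⁻ t in Icc a b, ENNReal.ofReal ‖f t‖ := lintegral_mono_set Ioc_subset_Icc_self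
    _ ≤ ∫⁻ t in Icc a b, (2 * ENNReal.ofReal (g t) + 2 * ENNReal.ofReal (h t)) := by
        refine lintegral_mono ?_
        intro t
        show ENNReal.ofReal ‖f t‖ ≤ 2 * ENNReal.ofReal (g t) + 2 * ENNReal.ofReal (h t)
        rw [Real.norm_of_nonneg (hf0 t)]
        calc ENNReal.ofReal (f t) ≤ ENNReal.ofReal (2 * g t + 2 * h t) := ENNReal.ofReal_le_ofReal (hfgh t)
          _ = 2 * ENNReal.ofReal (g t) + 2 * ENNReal.ofReal (h t) := by
              rw [ENNReal.ofReal_add (mul_nonneg zero_le_two (hg0 t)) (mul_nonneg zero_le_two (hh0 t)),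
                ENNReal.ofReal_mul zero_le_two, ENNReal.ofReal_mul zero_le_two, ENNReal.ofReal_ofNat]
    _ = 2 * (∫⁻ t in Icc a b, ENNReal.ofReal (g t)) + 2 * ∫⁻ t in Icc a b, ENNReal.ofReal (h t) := by
        rw [lintegral_add_left (hg.ennreal_ofReal.const_mul _),
          lintegral_const_mul' _ _ ENNReal.ofNat_ne_top, lintegral_const_mul' _ _ ENNReal.ofNat_ne_top]
    _ ≤ 2 * ENNReal.ofReal X + 2 * ENNReal.ofReal Y :=
        add_le_add (mul_le_mul_right h1 2) (mul_le_mul_right h2 2)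
    _ = ENNReal.ofReal (2 * X + 2 * Y) := by
        rw [ENNReal.ofReal_add (by positivity) (by positivity),
          ENNReal.ofReal_mul zero_le_two, ENNReal.ofReal_mul zero_le_two, ENNReal.ofReal_ofNat]

theorem MS_le : ∃ A₁ C₂ δ₀ : ℝ, 0 < A₁ ∧ 0 < C₂ ∧ 0 < δ₀ ∧ δ₀ ≤ 1 ∧ ∀ δ : ℝ, 0 < δ → δ ≤ δ₀ → ∃ C T₀ : ℝ, 0 ≤ C ∧ 10000 ≤ T₀ ∧
    ∀ T : ℝ, T₀ ≤ T → ∀ x : ℝ, 0 ≤ x → x ≤ 3 →
    MS T (fun s => riemannZeta s * MM δ T s - 1) x ≤ 2 * C₂ * δ ^ (-A₁) * (Real.exp (-(2 * δ * x * Real.log T)) +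
        ∑ j ∈ Finset.range (JJ T), Real.exp (-(dd δ j : ℝ) -
          2 * (dd δ j : ℝ) * (δ * Real.exp (-((j : ℝ) + 1))) * x * Real.log T)) +
        C * Real.exp (-(x * Real.log T)) := by
  obtain ⟨A₁, C₂, δa, hA, hC, hδa, hδa1, Ha⟩ := dm_one
  obtain ⟨δb, hδb, hδb1, Hb⟩ := zd_bound
  refine ⟨A₁, C₂, min δa δb, hA, hC, lt_min hδa hδb, (min_le_left _ _).trans hδa1, ?_⟩
  intro δ hδ hδ'
  obtain ⟨Ca, Ta, hCa, hTa, ha⟩ := Ha δ hδ (hδ'.trans (min_le_left _ _))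
  obtain ⟨Cb, Tb, hCb, hTb, hb⟩ := Hb δ hδ (hδ'.trans (min_le_right _ _))
  refine ⟨2 * Ca + 2 * Cb, max Ta Tb, by positivity, hTa.trans (le_max_left _ _), ?_⟩
  intro T hT x hx0 hx3
  have hTa' : Ta ≤ T := (le_max_left _ _).trans hT
  have hTb' : Tb ≤ T := (le_max_right _ _).trans hT
  have hT0 : 0 < T := by linarith
  have h1 := ha T hTa' x hx0 hx3
  have h2 := hb T hTb' x hx0 hx3
  set E : ℝ := Real.exp (-(2 * δ * x * Real.log T)) +
        ∑ j ∈ Finset.range (JJ T), Real.exp (-(dd δ j : ℝ) -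
          2 * (dd δ j : ℝ) * (δ * Real.exp (-((j : ℝ) + 1))) * x * Real.log T) with hE
  have hE0 : 0 ≤ E := add_nonneg (Real.exp_pos _).le (Finset.sum_nonneg fun j _ => (Real.exp_pos _).le)
  have hδp : 0 ≤ δ ^ (-A₁) := Real.rpow_nonneg hδ.le _
  have hX : 0 ≤ T * (C₂ * δ ^ (-A₁) * E + Ca * Real.exp (-(x * Real.log T))) := by positivity
  have hY : 0 ≤ Cb * T * Real.exp (-(x * Real.log T)) := by positivity
  have hMM : Continuous (MM δ T) := (MM_diff δ T).continuous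
  have hg : Measurable (fun t : ℝ => ‖DD T (((1 / 2 + x : ℝ) : ℂ) + t * I) *
      MM δ T (((1 / 2 + x : ℝ) : ℂ) + t * I) - 1‖ ^ 2) := by
    have hl : Continuous (fun t : ℝ => ((1 / 2 + x : ℝ) : ℂ) + t * I) := by fun_prop
    exact (((((AFinA_DD_cont T).comp hl).mul (hMM.comp hl)).sub continuous_const).norm.pow 2).measurable
  have key := AFinA_core (a := T / 2) (b := 3 * T)
    (f := fun t : ℝ => ‖riemannZeta (((1 / 2 + x : ℝ) : ℂ) + t * I) *
      MM δ T (((1 / 2 + x : ℝ) : ℂ) + t * I) - 1‖ ^ 2)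
    (g := fun t : ℝ => ‖DD T (((1 / 2 + x : ℝ) : ℂ) + t * I) *
      MM δ T (((1 / 2 + x : ℝ) : ℂ) + t * I) - 1‖ ^ 2)
    (h := fun t : ℝ => ‖(riemannZeta (((1 / 2 + x : ℝ) : ℂ) + t * I) - DD T (((1 / 2 + x : ℝ) : ℂ) + t * I)) *
        MM δ T (((1 / 2 + x : ℝ) : ℂ) + t * I)‖ ^ 2)
    (by linarith) hX hY hg (fun t => sq_nonneg _) (fun t => sq_nonneg _) (fun t => sq_nonneg _)
    (fun t => by
      refine le_trans (le_of_eq ?_) (AFinA_sq _ _)
      refine congrArg (fun z : ℂ => ‖z‖ ^ 2) ?_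
      ring) h1 h2
  have hMS : MS T (fun s => riemannZeta s * MM δ T s - 1) x ≤
      (1 / T) * (2 * (T * (C₂ * δ ^ (-A₁) * E + Ca * Real.exp (-(x * Real.log T)))) +
        2 * (Cb * T * Real.exp (-(x * Real.log T)))) := by
    unfold MS
    exact mul_le_mul_of_nonneg_left key (by positivity)
  refine hMS.trans (le_of_eq ?_)
  field_simp
  ring

private lemma ddt_term (A : ℝ) (k : ℕ) (hk : |A| + 1 ≤ (3 * (k : ℝ) - 1) / 4) {δ : ℝ} (hδ : 0 < δ) (hδ1 : δ ≤ 1) (j : ℕ) :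
    Real.exp (-(dd δ j : ℝ) / 2) / ((dd δ j : ℝ) * (δ * Real.exp (-((j : ℝ) + 1)))) ≤
      (Real.exp 1 * (k.factorial : ℝ) * 2 ^ k) * (δ ^ (|A| + 1) * Real.exp (-(j : ℝ))) := by
  obtain ⟨h1, -⟩ := dd_low hδ hδ1 j
  have hb : 0 < δ * Real.exp (-(j : ℝ)) := by positivity
  have hej : Real.exp (-(j : ℝ)) ≤ 1 := by
    rw [Real.exp_le_one_iff]
    have : (0 : ℝ) ≤ (j : ℝ) := Nat.cast_nonneg j
    linarith
  have hb1 : δ * Real.exp (-(j : ℝ)) ≤ 1 := by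
    have h0 : 0 < Real.exp (-(j : ℝ)) := Real.exp_pos _
    nlinarith
  have hden : δ * Real.exp (-((j : ℝ) + 1)) = (δ * Real.exp (-(j : ℝ))) * Real.exp (-1) := by
    rw [mul_assoc, ← Real.exp_add]
    ring_nf
  have hbA : (δ * Real.exp (-(j : ℝ))) ^ (|A| + 1) ≤ δ ^ (|A| + 1) * Real.exp (-(j : ℝ)) := by
    rw [Real.mul_rpow hδ.le (Real.exp_pos _).le]
    refine mul_le_mul_of_nonneg_left ?_ (Real.rpow_nonneg hδ.le _)
    have h0 : 0 < Real.exp (-(j : ℝ)) := Real.exp_pos _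
    calc Real.exp (-(j : ℝ)) ^ (|A| + 1) ≤ Real.exp (-(j : ℝ)) ^ (1 : ℝ) :=
          Real.rpow_le_rpow_of_exponent_ge h0 hej (by linarith [abs_nonneg A])
      _ = Real.exp (-(j : ℝ)) := Real.rpow_one _
  rw [hden]
  generalize hbd : δ * Real.exp (-(j : ℝ)) = b at h1 hb hb1 hbA
  generalize hDd : (dd δ j : ℝ) = D at h1
  have hbp : 0 < b ^ (-(3 / 4) : ℝ) := Real.rpow_pos_of_pos hb _
  have hD : 0 < D := lt_of_lt_of_le hbp h1
  have hD1 : 1 / D ≤ b ^ ((3 / 4) : ℝ) := by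
    rw [div_le_iff₀ hD]
    have h5 : b ^ ((3 / 4) : ℝ) * b ^ (-(3 / 4) : ℝ) = 1 := by
      rw [← Real.rpow_add hb]
      norm_num
    calc (1 : ℝ) = b ^ ((3 / 4) : ℝ) * b ^ (-(3 / 4) : ℝ) := h5.symm
      _ ≤ b ^ ((3 / 4) : ℝ) * D := mul_le_mul_of_nonneg_left h1 (Real.rpow_nonneg hb.le _)
  have h2 : Real.exp (-D / 2) ≤ (k.factorial : ℝ) * (2 / D) ^ k := by
    have h6 : (D / 2) ^ k / (k.factorial : ℝ) ≤ Real.exp (D / 2) :=
      Real.pow_div_factorial_le_exp (D / 2) (by positivity) k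
    have hf : (0 : ℝ) < (k.factorial : ℝ) := by exact_mod_cast Nat.factorial_pos k
    have h7 : 0 < (D / 2) ^ k := by positivity
    have h8 : Real.exp (-D / 2) = 1 / Real.exp (D / 2) := by
      rw [show -D / 2 = -(D / 2) by ring, Real.exp_neg, one_div]
    rw [h8]
    calc 1 / Real.exp (D / 2) ≤ 1 / ((D / 2) ^ k / (k.factorial : ℝ)) :=
          one_div_le_one_div_of_le (by positivity) h6
      _ = (k.factorial : ℝ) * (2 / D) ^ k := by
          rw [one_div_div, div_pow, div_pow]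
          field_simp
  have h3 : (2 / D) ^ k ≤ 2 ^ k * (b ^ ((3 / 4) : ℝ)) ^ k := by
    rw [← mul_pow]
    refine pow_le_pow_left₀ (by positivity) ?_ k
    calc 2 / D = 2 * (1 / D) := by ring
      _ ≤ 2 * b ^ ((3 / 4) : ℝ) := by linarith
  have h4 : 1 / (D * (b * Real.exp (-1))) ≤ Real.exp 1 * (b ^ ((3 / 4) : ℝ) / b) := by
    have h9 : 1 / (D * (b * Real.exp (-1))) = Real.exp 1 * ((1 / D) / b) := by
      rw [Real.exp_neg]
      field_simp
    rw [h9]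
    refine mul_le_mul_of_nonneg_left ?_ (Real.exp_pos _).le
    exact div_le_div_of_nonneg_right hD1 hb.le
  have hf : (0 : ℝ) < (k.factorial : ℝ) := by exact_mod_cast Nat.factorial_pos k
  have h10 : (b ^ ((3 / 4) : ℝ)) ^ k * (b ^ ((3 / 4) : ℝ) / b) = b ^ ((3 / 4 : ℝ) * k + (3 / 4 - 1)) := by
    rw [← Real.rpow_natCast, ← Real.rpow_mul hb.le, Real.rpow_add hb, Real.rpow_sub hb, Real.rpow_one]
  have h11 : b ^ ((3 / 4 : ℝ) * k + (3 / 4 - 1)) ≤ b ^ (|A| + 1) :=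
    Real.rpow_le_rpow_of_exponent_ge hb hb1 (by linarith)
  calc Real.exp (-D / 2) / (D * (b * Real.exp (-1)))
      = Real.exp (-D / 2) * (1 / (D * (b * Real.exp (-1)))) := by ring
    _ ≤ ((k.factorial : ℝ) * (2 ^ k * (b ^ ((3 / 4) : ℝ)) ^ k)) * (Real.exp 1 * (b ^ ((3 / 4) : ℝ) / b)) := by
        refine mul_le_mul ?_ h4 (by positivity) (by positivity)
        exact h2.trans (mul_le_mul_of_nonneg_left h3 hf.le)
    _ = (Real.exp 1 * (k.factorial : ℝ) * 2 ^ k) * ((b ^ ((3 / 4) : ℝ)) ^ k * (b ^ ((3 / 4) : ℝ) / b)) := by ring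
    _ = (Real.exp 1 * (k.factorial : ℝ) * 2 ^ k) * b ^ ((3 / 4 : ℝ) * k + (3 / 4 - 1)) := by rw [h10]
    _ ≤ (Real.exp 1 * (k.factorial : ℝ) * 2 ^ k) * (δ ^ (|A| + 1) * Real.exp (-(j : ℝ))) := by
        refine mul_le_mul_of_nonneg_left (h11.trans hbA) (by positivity)

private lemma ddt_geo (J : ℕ) : ∑ j ∈ Finset.range J, Real.exp (-(j : ℝ)) ≤ 2 := by
  have h1 : ∀ j : ℕ, Real.exp (-(j : ℝ)) ≤ (1 / 2 : ℝ) ^ j := by
    intro j
    have h2 : Real.exp (-(j : ℝ)) = (Real.exp (-1)) ^ j := by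
      rw [← Real.exp_nat_mul]
      ring_nf
    rw [h2]
    refine pow_le_pow_left₀ (Real.exp_pos _).le ?_ j
    have h3 : (2 : ℝ) ≤ Real.exp 1 := by linarith [Real.add_one_le_exp (1 : ℝ)]
    rw [Real.exp_neg, ← one_div]
    exact one_div_le_one_div_of_le (by norm_num) h3
  calc ∑ j ∈ Finset.range J, Real.exp (-(j : ℝ)) ≤ ∑ j ∈ Finset.range J, (1 / 2 : ℝ) ^ j :=
        Finset.sum_le_sum fun j _ => h1 j
    _ ≤ 2 := by
        rw [geom_sum_eq (by norm_num)]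
        have : (0 : ℝ) < (1 / 2 : ℝ) ^ J := by positivity
        rw [div_le_iff_of_neg (by norm_num)]
        linarith

theorem dd_tail (A : ℝ) (ε : ℝ) (hε : 0 < ε) : ∃ δ₁ : ℝ, 0 < δ₁ ∧ δ₁ ≤ 1 ∧ ∀ δ : ℝ, 0 < δ → δ ≤ δ₁ → ∀ J : ℕ,
    δ ^ (-A) * ∑ j ∈ Finset.range J, Real.exp (-(dd δ j : ℝ) / 2) / ((dd δ j : ℝ) * (δ * Real.exp (-((j : ℝ) + 1)))) ≤ ε := by
  have hk : |A| + 1 ≤ (3 * ((2 * ⌈|A|⌉₊ + 3 : ℕ) : ℝ) - 1) / 4 := by
    have h1 : |A| ≤ (⌈|A|⌉₊ : ℝ) := Nat.le_ceil _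
    have h2 : 0 ≤ |A| := abs_nonneg A
    push_cast
    linarith
  generalize 2 * ⌈|A|⌉₊ + 3 = k at hk
  have hf : (0 : ℝ) < (k.factorial : ℝ) := by exact_mod_cast Nat.factorial_pos k
  have hK : 0 < Real.exp 1 * (k.factorial : ℝ) * 2 ^ k := by positivity
  generalize hKd : Real.exp 1 * (k.factorial : ℝ) * 2 ^ k = K at hK
  refine ⟨min 1 (ε / (2 * K)), lt_min one_pos (by positivity), min_le_left _ _, fun δ hδ hδ1 J => ?_⟩
  have hδ2 : δ ≤ 1 := hδ1.trans (min_le_left _ _)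
  have hδ3 : δ ≤ ε / (2 * K) := hδ1.trans (min_le_right _ _)
  have h1 : ∑ j ∈ Finset.range J, Real.exp (-(dd δ j : ℝ) / 2) / ((dd δ j : ℝ) * (δ * Real.exp (-((j : ℝ) + 1)))) ≤
      K * (δ ^ (|A| + 1) * 2) := by
    calc ∑ j ∈ Finset.range J, Real.exp (-(dd δ j : ℝ) / 2) / ((dd δ j : ℝ) * (δ * Real.exp (-((j : ℝ) + 1))))
        ≤ ∑ j ∈ Finset.range J, K * (δ ^ (|A| + 1) * Real.exp (-(j : ℝ))) := by
          refine Finset.sum_le_sum fun j _ => ?_
          rw [← hKd]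
          exact ddt_term A k hk hδ hδ2 j
      _ = K * (δ ^ (|A| + 1) * ∑ j ∈ Finset.range J, Real.exp (-(j : ℝ))) := by
          rw [Finset.mul_sum, Finset.mul_sum]
      _ ≤ K * (δ ^ (|A| + 1) * 2) := by
          refine mul_le_mul_of_nonneg_left ?_ hK.le
          exact mul_le_mul_of_nonneg_left (ddt_geo J) (Real.rpow_nonneg hδ.le _)
  have h2 : δ ^ (-A) * δ ^ (|A| + 1) ≤ δ := by
    rw [← Real.rpow_add hδ]
    calc δ ^ (-A + (|A| + 1)) ≤ δ ^ (1 : ℝ) :=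
          Real.rpow_le_rpow_of_exponent_ge hδ hδ2 (by linarith [le_abs_self A])
      _ = δ := Real.rpow_one _
  calc δ ^ (-A) * ∑ j ∈ Finset.range J, Real.exp (-(dd δ j : ℝ) / 2) / ((dd δ j : ℝ) * (δ * Real.exp (-((j : ℝ) + 1))))
      ≤ δ ^ (-A) * (K * (δ ^ (|A| + 1) * 2)) := mul_le_mul_of_nonneg_left h1 (Real.rpow_nonneg hδ.le _)
    _ = 2 * K * (δ ^ (-A) * δ ^ (|A| + 1)) := by ring
    _ ≤ 2 * K * δ := mul_le_mul_of_nonneg_left h2 (by positivity)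
    _ ≤ 2 * K * (ε / (2 * K)) := mul_le_mul_of_nonneg_left hδ3 (by positivity)
    _ = ε := by field_simp

private theorem AFinC_exp {κ l W : ℝ} (hκ : 0 < κ) (hl : 0 < l) :
    l * ∫ x in (W / l)..3, Real.exp (-(κ * x * l)) ≤ Real.exp (-(κ * W)) / κ := by
  have h1 : ∀ x ∈ uIcc (W / l) 3, HasDerivAt (fun x : ℝ => -(Real.exp (-(κ * x * l)) / (κ * l)))
      (Real.exp (-(κ * x * l))) x := by
    intro x _
    have h2 : HasDerivAt (fun x : ℝ => -(κ * x * l)) (-(κ * l)) x := by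
      have h3 := (((hasDerivAt_id x).const_mul κ).mul_const l).neg
      rw [mul_one] at h3
      exact h3
    have h5 := (h2.exp.div_const (κ * l)).neg
    refine h5.congr_deriv ?_
    field_simp
  rw [intervalIntegral.integral_eq_sub_of_hasDerivAt h1
    ((by fun_prop : Continuous fun x : ℝ => Real.exp (-(κ * x * l))).intervalIntegrable _ _)]
  have h6 : κ * (W / l) * l = κ * W := by field_simp
  rw [h6]
  have h7 : l * (-(Real.exp (-(κ * 3 * l)) / (κ * l)) - -(Real.exp (-(κ * W)) / (κ * l))) =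
      (Real.exp (-(κ * W)) - Real.exp (-(κ * 3 * l))) / κ := by
    field_simp
    ring
  rw [h7]
  exact div_le_div_of_nonneg_right (by linarith [Real.exp_pos (-(κ * 3 * l))]) hκ.le

private theorem AFinC_gen {l W : ℝ} (hl : 0 < l) (hW : W / l ≤ 3) {a b ka kb : ℝ} (ha : 0 ≤ a)
    (hb : 0 ≤ b) (hka : 0 < ka) (hkb : 0 < kb) (J : Finset ℕ) (c k : ℕ → ℝ) (hc : ∀ j, 0 ≤ c j)
    (hk : ∀ j, 0 < k j) (f : ℝ → ℝ)
    (hf : ∀ x ∈ Icc (W / l) 3, ‖f x‖ ≤ a * Real.exp (-(ka * x * l)) +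
      ∑ j ∈ J, c j * Real.exp (-(k j * x * l)) + b * Real.exp (-(kb * x * l))) :
    l * ∫ x in (W / l)..3, f x ≤ a * (Real.exp (-(ka * W)) / ka) +
      ∑ j ∈ J, c j * (Real.exp (-(k j * W)) / k j) + b * (Real.exp (-(kb * W)) / kb) := by
  have hi : ∀ κ : ℝ, IntervalIntegrable (fun x : ℝ => Real.exp (-(κ * x * l))) volume (W / l) 3 :=
    fun κ => (by fun_prop : Continuous fun x : ℝ => Real.exp (-(κ * x * l))).intervalIntegrable _ _
  have hs : IntervalIntegrable (fun x : ℝ => ∑ j ∈ J, c j * Real.exp (-(k j * x * l))) volume (W / l) 3 :=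
    (by fun_prop : Continuous fun x : ℝ => ∑ j ∈ J, c j * Real.exp (-(k j * x * l))).intervalIntegrable _ _
  have hg : IntervalIntegrable (fun x : ℝ => a * Real.exp (-(ka * x * l)) +
      ∑ j ∈ J, c j * Real.exp (-(k j * x * l)) + b * Real.exp (-(kb * x * l))) volume (W / l) 3 :=
    (((hi ka).const_mul a).add hs).add ((hi kb).const_mul b)
  have h1 : ∫ x in (W / l)..3, f x ≤ ∫ x in (W / l)..3, (a * Real.exp (-(ka * x * l)) +
      ∑ j ∈ J, c j * Real.exp (-(k j * x * l)) + b * Real.exp (-(kb * x * l))) := by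
    refine (le_abs_self _).trans ?_
    rw [← Real.norm_eq_abs]
    exact intervalIntegral.norm_integral_le_of_norm_le hW
      (Filter.Eventually.of_forall fun x hx => hf x ⟨hx.1.le, hx.2⟩) hg
  have h2 : ∫ x in (W / l)..3, (a * Real.exp (-(ka * x * l)) +
      ∑ j ∈ J, c j * Real.exp (-(k j * x * l)) + b * Real.exp (-(kb * x * l))) =
      a * (∫ x in (W / l)..3, Real.exp (-(ka * x * l))) +
      ∑ j ∈ J, c j * (∫ x in (W / l)..3, Real.exp (-(k j * x * l))) +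
      b * ∫ x in (W / l)..3, Real.exp (-(kb * x * l)) := by
    rw [intervalIntegral.integral_add (((hi ka).const_mul a).add hs) ((hi kb).const_mul b),
      intervalIntegral.integral_add ((hi ka).const_mul a) hs,
      intervalIntegral.integral_const_mul, intervalIntegral.integral_const_mul,
      intervalIntegral.integral_finsetSum fun j _ => (hi (k j)).const_mul (c j)]
    congr 1
    congr 1
    refine Finset.sum_congr rfl fun j _ => ?_
    rw [intervalIntegral.integral_const_mul]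
  rw [h2] at h1
  have h3 := mul_le_mul_of_nonneg_left h1 hl.le
  refine h3.trans ?_
  have h4 : l * (a * (∫ x in (W / l)..3, Real.exp (-(ka * x * l))) +
      ∑ j ∈ J, c j * (∫ x in (W / l)..3, Real.exp (-(k j * x * l))) +
      b * ∫ x in (W / l)..3, Real.exp (-(kb * x * l))) =
      a * (l * ∫ x in (W / l)..3, Real.exp (-(ka * x * l))) +
      ∑ j ∈ J, c j * (l * ∫ x in (W / l)..3, Real.exp (-(k j * x * l))) +
      b * (l * ∫ x in (W / l)..3, Real.exp (-(kb * x * l))) := by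
    rw [mul_add, mul_add, Finset.mul_sum]
    have h5 : ∀ j ∈ J, l * (c j * (∫ x in (W / l)..3, Real.exp (-(k j * x * l)))) =
        c j * (l * ∫ x in (W / l)..3, Real.exp (-(k j * x * l))) := fun j _ => by ring
    rw [Finset.sum_congr rfl h5]
    ring
  rw [h4]
  refine add_le_add (add_le_add ?_ ?_) ?_
  · exact mul_le_mul_of_nonneg_left (AFinC_exp hka hl) ha
  · exact Finset.sum_le_sum fun j _ => mul_le_mul_of_nonneg_left (AFinC_exp (hk j) hl) (hc j)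
  · exact mul_le_mul_of_nonneg_left (AFinC_exp hkb hl) hb

private theorem AFinC_sqrt {K C e0 e1 : ℝ} (hK : 0 ≤ K) (hC : 0 ≤ C) (h0 : 0 ≤ e0) (h1 : 0 ≤ e1)
    (J : Finset ℕ) (e : ℕ → ℝ) (he : ∀ j, 0 ≤ e j) :
    Real.sqrt (K * (e0 ^ 2 + ∑ j ∈ J, e j ^ 2) + C * e1 ^ 2) ≤
      Real.sqrt K * (e0 + ∑ j ∈ J, e j) + Real.sqrt C * e1 := by
  have hs : 0 ≤ ∑ j ∈ J, e j := Finset.sum_nonneg fun j _ => he j
  have hsq : ∑ j ∈ J, e j ^ 2 ≤ (∑ j ∈ J, e j) ^ 2 := by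
    rw [pow_two, Finset.sum_mul]
    refine Finset.sum_le_sum fun j hj => ?_
    rw [pow_two]
    exact mul_le_mul_of_nonneg_left (Finset.single_le_sum (fun i _ => he i) hj) (he j)
  have hsK := Real.sqrt_nonneg K
  have hsC := Real.sqrt_nonneg C
  refine Real.sqrt_le_iff.2 ⟨by positivity, ?_⟩
  have h2 : (Real.sqrt K * (e0 + ∑ j ∈ J, e j) + Real.sqrt C * e1) ^ 2 =
      Real.sqrt K ^ 2 * (e0 + ∑ j ∈ J, e j) ^ 2 + Real.sqrt C ^ 2 * e1 ^ 2 +
      2 * (Real.sqrt K * (e0 + ∑ j ∈ J, e j)) * (Real.sqrt C * e1) := by ring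
  rw [h2, Real.sq_sqrt hK, Real.sq_sqrt hC]
  have h3 : 0 ≤ 2 * (Real.sqrt K * (e0 + ∑ j ∈ J, e j)) * (Real.sqrt C * e1) := by positivity
  have h4 : e0 ^ 2 + ∑ j ∈ J, e j ^ 2 ≤ (e0 + ∑ j ∈ J, e j) ^ 2 := by
    have h5 : (e0 + ∑ j ∈ J, e j) ^ 2 = e0 ^ 2 + (∑ j ∈ J, e j) ^ 2 + 2 * (e0 * ∑ j ∈ J, e j) := by ring
    have h6 : 0 ≤ e0 * ∑ j ∈ J, e j := mul_nonneg h0 hs
    rw [h5]
    linarith
  have h7 := mul_le_mul_of_nonneg_left h4 hK
  linarith

private theorem AFinC_ev (c κ ε : ℝ) (hκ : 0 < κ) (hε : 0 < ε) :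
    ∀ᶠ W : ℝ in atTop, c * Real.exp (-(κ * W)) ≤ ε := by
  have h1 : Tendsto (fun W : ℝ => κ * W) atTop atTop := tendsto_id.const_mul_atTop hκ
  have h2 : Tendsto (fun W : ℝ => c * Real.exp (-(κ * W))) atTop (𝓝 (c * 0)) :=
    (Real.tendsto_exp_neg_atTop_nhds_zero.comp h1).const_mul c
  rw [mul_zero] at h2
  exact h2.eventually_le_const hε

private theorem AFinC_MS_nonneg {T : ℝ} (hT : 0 < T) (F : ℂ → ℂ) (x : ℝ) : 0 ≤ MS T F x := by
  unfold MS
  refine mul_nonneg (by positivity) ?_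
  exact intervalIntegral.integral_nonneg (by linarith) fun t _ => by positivity

private theorem AFinC_dd_pos {δ : ℝ} (hδ : 0 < δ) (j : ℕ) : 0 < (dd δ j : ℝ) := by
  have h1 : 0 < dd δ j := by
    unfold dd
    rw [Nat.ceil_pos]
    exact Real.rpow_pos_of_pos (mul_pos hδ (Real.exp_pos _)) _
  exact_mod_cast h1

theorem small_int (ε : ℝ) (hε : 0 < ε) : ∃ δ₁ : ℝ, 0 < δ₁ ∧ ∀ δ : ℝ, 0 < δ → δ ≤ δ₁ →
    ∃ W₀ : ℝ, 1 ≤ W₀ ∧ ∀ W : ℝ, W₀ ≤ W → ∃ T₀ : ℝ, 2 ≤ T₀ ∧ ∀ T : ℝ, T₀ ≤ T →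
      Real.log T * (∫ x in (W / Real.log T)..3,
        Real.sqrt (MS T (fun s => riemannZeta s * MM δ T s - 1) x)) ≤ ε ∧
      Real.log T * (∫ x in (W / Real.log T)..3,
        MS T (fun s => riemannZeta s * MM δ T s - 1) x) ≤ ε := by
  obtain ⟨A₁, C₂, δ₀, hA, hC₂, hδ₀, hδ₀1, hMS⟩ := MS_le
  have hs2 : 0 < Real.sqrt (2 * C₂) := Real.sqrt_pos.2 (by linarith)
  obtain ⟨δa, hδa, _, hda⟩ := dd_tail (A₁ / 2) (ε / (3 * Real.sqrt (2 * C₂))) (by positivity)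
  obtain ⟨δb, hδb, _, hdb⟩ := dd_tail A₁ (ε / (3 * (2 * C₂))) (by positivity)
  refine ⟨min δ₀ (min δa δb), lt_min hδ₀ (lt_min hδa hδb), fun δ hδ hδ1 => ?_⟩
  have hd0 : δ ≤ δ₀ := hδ1.trans (min_le_left _ _)
  have hd1 : δ ≤ δa := hδ1.trans ((min_le_right _ _).trans (min_le_left _ _))
  have hd2 : δ ≤ δb := hδ1.trans ((min_le_right _ _).trans (min_le_right _ _))
  obtain ⟨C, T₀, hC, hT₀, hM⟩ := hMS δ hδ hd0
  have hK0 : 0 < 2 * C₂ * δ ^ (-A₁) := by
    have := Real.rpow_pos_of_pos hδ (-A₁)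
    positivity
  set K : ℝ := 2 * C₂ * δ ^ (-A₁) with hK
  have hev : ∀ᶠ W : ℝ in atTop, (Real.sqrt K / δ) * Real.exp (-(δ * W)) ≤ ε / 3 ∧
      (2 * Real.sqrt C) * Real.exp (-((1 / 2) * W)) ≤ ε / 3 ∧
      (K / (2 * δ)) * Real.exp (-((2 * δ) * W)) ≤ ε / 3 ∧
      C * Real.exp (-(1 * W)) ≤ ε / 3 :=
    (AFinC_ev _ _ _ hδ (by positivity)).and ((AFinC_ev _ _ _ (by norm_num) (by positivity)).and
      ((AFinC_ev _ _ _ (by positivity) (by positivity)).and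
        (AFinC_ev _ _ _ one_pos (by positivity))))
  obtain ⟨W₀, hW₀⟩ := Filter.eventually_atTop.1 hev
  refine ⟨max 1 W₀, le_max_left _ _, fun W hW => ?_⟩
  have hW1 : 1 ≤ W := (le_max_left _ _).trans hW
  have hWn : 0 ≤ W := by linarith
  obtain ⟨g1, g2, g3, g4⟩ := hW₀ W ((le_max_right _ _).trans hW)
  refine ⟨max T₀ (Real.exp W), le_trans (by linarith) (le_max_left _ _), fun T hT => ?_⟩
  have hT1 : T₀ ≤ T := (le_max_left _ _).trans hT
  have hT2 : Real.exp W ≤ T := (le_max_right _ _).trans hT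
  have hTpos : 0 < T := (Real.exp_pos W).trans_le hT2
  have hlW : W ≤ Real.log T := (Real.le_log_iff_exp_le hTpos).2 hT2
  have hl : 0 < Real.log T := by linarith
  have hWl : W / Real.log T ≤ 3 := by
    rw [div_le_iff₀ hl]
    linarith
  have hWl0 : 0 ≤ W / Real.log T := by positivity
  have hdp : ∀ j, 0 < (dd δ j : ℝ) * (δ * Real.exp (-((j : ℝ) + 1))) := fun j =>
    mul_pos (AFinC_dd_pos hδ j) (mul_pos hδ (Real.exp_pos _))
  have hS : ∀ x ∈ Icc (W / Real.log T) 3, MS T (fun s => riemannZeta s * MM δ T s - 1) x ≤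
      K * (Real.exp (-(δ * x * Real.log T)) ^ 2 + ∑ j ∈ Finset.range (JJ T),
        (Real.exp (-(dd δ j : ℝ) / 2) * Real.exp (-((dd δ j : ℝ) * (δ * Real.exp (-((j : ℝ) + 1))) * x *
          Real.log T))) ^ 2) + C * Real.exp (-(1 / 2 * x * Real.log T)) ^ 2 := by
    intro x hx
    refine (hM T hT1 x (hWl0.trans hx.1) hx.2).trans (le_of_eq ?_)
    have e1 : Real.exp (-(2 * δ * x * Real.log T)) = Real.exp (-(δ * x * Real.log T)) ^ 2 := by
      rw [← Real.exp_nat_mul]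
      congr 1
      push_cast
      ring
    have e2 : Real.exp (-(x * Real.log T)) = Real.exp (-(1 / 2 * x * Real.log T)) ^ 2 := by
      rw [← Real.exp_nat_mul]
      congr 1
      push_cast
      ring
    have e3 : ∀ j ∈ Finset.range (JJ T), Real.exp (-(dd δ j : ℝ) -
          2 * (dd δ j : ℝ) * (δ * Real.exp (-((j : ℝ) + 1))) * x * Real.log T) =
        (Real.exp (-(dd δ j : ℝ) / 2) * Real.exp (-((dd δ j : ℝ) * (δ * Real.exp (-((j : ℝ) + 1))) * x *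
          Real.log T))) ^ 2 := by
      intro j _
      rw [← Real.exp_add, ← Real.exp_nat_mul]
      congr 1
      push_cast
      ring
    rw [e1, e2, Finset.sum_congr rfl e3]
  constructor
  · have hf : ∀ x ∈ Icc (W / Real.log T) 3,
        ‖Real.sqrt (MS T (fun s => riemannZeta s * MM δ T s - 1) x)‖ ≤
        Real.sqrt K * Real.exp (-(δ * x * Real.log T)) + ∑ j ∈ Finset.range (JJ T),
          (Real.sqrt K * Real.exp (-(dd δ j : ℝ) / 2)) *
            Real.exp (-((dd δ j : ℝ) * (δ * Real.exp (-((j : ℝ) + 1))) * x * Real.log T)) +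
        Real.sqrt C * Real.exp (-(1 / 2 * x * Real.log T)) := by
      intro x hx
      rw [Real.norm_of_nonneg (Real.sqrt_nonneg _)]
      refine (Real.sqrt_le_sqrt (hS x hx)).trans ?_
      refine (AFinC_sqrt hK0.le hC (Real.exp_pos _).le (Real.exp_pos _).le _ _
        (fun j => by positivity)).trans (le_of_eq ?_)
      rw [mul_add, Finset.mul_sum]
      congr 1
      congr 1
      refine Finset.sum_congr rfl fun j _ => ?_
      ring
    have h1 := AFinC_gen hl hWl (Real.sqrt_nonneg K) (Real.sqrt_nonneg C) hδ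
      (by norm_num : (0 : ℝ) < 1 / 2) (Finset.range (JJ T))
      (fun j => Real.sqrt K * Real.exp (-(dd δ j : ℝ) / 2))
      (fun j => (dd δ j : ℝ) * (δ * Real.exp (-((j : ℝ) + 1))))
      (fun j => by positivity) hdp _ hf
    refine h1.trans ?_
    have h2 : ∑ j ∈ Finset.range (JJ T), Real.sqrt K * Real.exp (-(dd δ j : ℝ) / 2) *
        (Real.exp (-((dd δ j : ℝ) * (δ * Real.exp (-((j : ℝ) + 1))) * W)) /
          ((dd δ j : ℝ) * (δ * Real.exp (-((j : ℝ) + 1))))) ≤ ε / 3 := by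
      have h3 : ∑ j ∈ Finset.range (JJ T), Real.sqrt K * Real.exp (-(dd δ j : ℝ) / 2) *
          (Real.exp (-((dd δ j : ℝ) * (δ * Real.exp (-((j : ℝ) + 1))) * W)) /
          ((dd δ j : ℝ) * (δ * Real.exp (-((j : ℝ) + 1))))) ≤
          Real.sqrt (2 * C₂) * (δ ^ (-(A₁ / 2)) * ∑ j ∈ Finset.range (JJ T),
            Real.exp (-(dd δ j : ℝ) / 2) / ((dd δ j : ℝ) * (δ * Real.exp (-((j : ℝ) + 1))))) := by
        have hsK : Real.sqrt K = Real.sqrt (2 * C₂) * δ ^ (-(A₁ / 2)) := by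
          rw [hK, Real.sqrt_mul (by linarith), Real.sqrt_eq_rpow (δ ^ (-A₁)), ← Real.rpow_mul hδ.le]
          congr 2
          ring
        rw [hsK, ← mul_assoc, Finset.mul_sum]
        refine Finset.sum_le_sum fun j _ => ?_
        have h4 : Real.exp (-((dd δ j : ℝ) * (δ * Real.exp (-((j : ℝ) + 1))) * W)) ≤ 1 := by
          rw [Real.exp_le_one_iff]
          have := mul_nonneg (hdp j).le hWn
          linarith
        rw [mul_assoc (Real.sqrt (2 * C₂) * δ ^ (-(A₁ / 2)))]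
        have h5 : 0 ≤ Real.sqrt (2 * C₂) * δ ^ (-(A₁ / 2)) :=
          mul_nonneg hs2.le (Real.rpow_pos_of_pos hδ _).le
        refine mul_le_mul_of_nonneg_left ?_ h5
        rw [← mul_div_assoc]
        refine div_le_div_of_nonneg_right ?_ (hdp j).le
        have h6 := Real.exp_pos (-(dd δ j : ℝ) / 2)
        nlinarith
      refine h3.trans ?_
      have h7 := mul_le_mul_of_nonneg_left (hda δ hδ hd1 (JJ T)) hs2.le
      refine h7.trans (le_of_eq ?_)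
      field_simp
    have h8 : Real.sqrt K * (Real.exp (-(δ * W)) / δ) ≤ ε / 3 := by
      refine le_trans (le_of_eq ?_) g1
      ring
    have h9 : Real.sqrt C * (Real.exp (-(1 / 2 * W)) / (1 / 2)) ≤ ε / 3 := by
      refine le_trans (le_of_eq ?_) g2
      ring
    linarith
  · have hf : ∀ x ∈ Icc (W / Real.log T) 3,
        ‖MS T (fun s => riemannZeta s * MM δ T s - 1) x‖ ≤
        K * Real.exp (-(2 * δ * x * Real.log T)) + ∑ j ∈ Finset.range (JJ T),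
          (K * Real.exp (-(dd δ j : ℝ))) *
            Real.exp (-(2 * ((dd δ j : ℝ) * (δ * Real.exp (-((j : ℝ) + 1)))) * x * Real.log T)) +
        C * Real.exp (-(1 * x * Real.log T)) := by
      intro x hx
      rw [Real.norm_of_nonneg (AFinC_MS_nonneg hTpos _ _)]
      refine (hM T hT1 x (hWl0.trans hx.1) hx.2).trans (le_of_eq ?_)
      rw [mul_add, Finset.mul_sum]
      have e3 : ∀ j ∈ Finset.range (JJ T), K * Real.exp (-(dd δ j : ℝ) -
          2 * (dd δ j : ℝ) * (δ * Real.exp (-((j : ℝ) + 1))) * x * Real.log T) =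
          (K * Real.exp (-(dd δ j : ℝ))) *
            Real.exp (-(2 * ((dd δ j : ℝ) * (δ * Real.exp (-((j : ℝ) + 1)))) * x * Real.log T)) := by
        intro j _
        rw [mul_assoc K, ← Real.exp_add]
        congr 2
        ring
      rw [Finset.sum_congr rfl e3, one_mul]
    have h1 := AFinC_gen hl hWl hK0.le hC (by positivity : 0 < 2 * δ) one_pos
      (Finset.range (JJ T)) (fun j => K * Real.exp (-(dd δ j : ℝ)))
      (fun j => 2 * ((dd δ j : ℝ) * (δ * Real.exp (-((j : ℝ) + 1)))))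
      (fun j => by positivity) (fun j => by have := hdp j; linarith) _ hf
    refine h1.trans ?_
    have h2 : ∑ j ∈ Finset.range (JJ T), K * Real.exp (-(dd δ j : ℝ)) *
        (Real.exp (-(2 * ((dd δ j : ℝ) * (δ * Real.exp (-((j : ℝ) + 1)))) * W)) /
          (2 * ((dd δ j : ℝ) * (δ * Real.exp (-((j : ℝ) + 1)))))) ≤ ε / 3 := by
      have h3 : ∑ j ∈ Finset.range (JJ T), K * Real.exp (-(dd δ j : ℝ)) *
          (Real.exp (-(2 * ((dd δ j : ℝ) * (δ * Real.exp (-((j : ℝ) + 1)))) * W)) /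
          (2 * ((dd δ j : ℝ) * (δ * Real.exp (-((j : ℝ) + 1)))))) ≤
          (2 * C₂) * (δ ^ (-A₁) * ∑ j ∈ Finset.range (JJ T),
            Real.exp (-(dd δ j : ℝ) / 2) / ((dd δ j : ℝ) * (δ * Real.exp (-((j : ℝ) + 1))))) := by
        rw [← mul_assoc, ← hK, Finset.mul_sum]
        refine Finset.sum_le_sum fun j _ => ?_
        have h4 : Real.exp (-(2 * ((dd δ j : ℝ) * (δ * Real.exp (-((j : ℝ) + 1)))) * W)) ≤ 1 := by
          rw [Real.exp_le_one_iff]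
          have := mul_nonneg (hdp j).le hWn
          linarith
        have h5 : Real.exp (-(dd δ j : ℝ)) ≤ Real.exp (-(dd δ j : ℝ) / 2) := by
          refine Real.exp_le_exp.2 ?_
          have := AFinC_dd_pos hδ j
          linarith
        rw [mul_assoc K]
        refine mul_le_mul_of_nonneg_left ?_ hK0.le
        rw [← mul_div_assoc]
        have h6 := Real.exp_pos (-(dd δ j : ℝ))
        have h7 := Real.exp_pos (-(2 * ((dd δ j : ℝ) * (δ * Real.exp (-((j : ℝ) + 1)))) * W))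
        have h8 := hdp j
        rw [div_le_div_iff₀ (by linarith) h8]
        have h9 : Real.exp (-(dd δ j : ℝ)) *
            Real.exp (-(2 * ((dd δ j : ℝ) * (δ * Real.exp (-((j : ℝ) + 1)))) * W)) ≤
            Real.exp (-(dd δ j : ℝ) / 2) := by nlinarith
        have h10 := mul_le_mul_of_nonneg_right h9 h8.le
        have h11 : 0 ≤ Real.exp (-(dd δ j : ℝ) / 2) * ((dd δ j : ℝ) * (δ * Real.exp (-((j : ℝ) + 1)))) :=
          mul_nonneg (Real.exp_pos _).le h8.le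
        linarith
      refine h3.trans ?_
      have h7 := mul_le_mul_of_nonneg_left (hdb δ hδ hd2 (JJ T)) (by linarith : 0 ≤ 2 * C₂)
      refine h7.trans (le_of_eq ?_)
      field_simp
    have h8 : K * (Real.exp (-(2 * δ * W)) / (2 * δ)) ≤ ε / 3 := by
      refine le_trans (le_of_eq ?_) g3
      ring
    have h9 : C * (Real.exp (-(1 * W)) / 1) ≤ ε / 3 := by
      refine le_trans (le_of_eq ?_) g4
      ring
    linarith

theorem bdd : ∃ δ₁ : ℝ, 0 < δ₁ ∧ ∀ δ : ℝ, 0 < δ → δ ≤ δ₁ → ∀ c : ℝ, 0 ≤ c →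
    ∃ C T₀ : ℝ, 0 ≤ C ∧ 2 ≤ T₀ ∧ ∀ T : ℝ, T₀ ≤ T → ∀ x : ℝ, |x| ≤ c / Real.log T →
      MS T (fun s => riemannZeta s * MM δ T s) x ≤ C := by
  obtain ⟨B, δ₀, hδ₀, _, h⟩ := z_bound
  refine ⟨δ₀, hδ₀, fun δ hδ hδ' c hc => ?_⟩
  obtain ⟨C, T₀, hC, hT₀, h1⟩ := h δ c hδ hδ' hc
  refine ⟨C * (1 + c) ^ B, T₀, by positivity, by linarith, fun T hT x hx => ?_⟩
  have hT3 : 3 ≤ T := hT₀.trans hT
  have hT0 : 0 < T := by linarith
  have hl : 0 < Real.log T := Real.log_pos (by linarith)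
  have hl0 : (Real.log T : ℂ) ≠ 0 := Complex.ofReal_ne_zero.mpr hl.ne'
  have hα : |x * Real.log T| ≤ c := by
    rw [abs_mul, abs_of_pos hl]
    exact (le_div_iff₀ hl).mp hx
  have h2 := h1 T hT (x * Real.log T) (x * Real.log T) 0 hα (neg_le_of_abs_le hα)
  have h3 : C * T * (1 + |(0 : ℝ)|) ^ B * (1 + |x * Real.log T|) ^ B ≤ C * T * (1 + c) ^ B := by
    rw [abs_zero, add_zero, one_pow, mul_one]
    have h31 : (1 + |x * Real.log T|) ^ B ≤ (1 + c) ^ B :=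
      pow_le_pow_left₀ (by positivity) (by linarith) B
    exact mul_le_mul_of_nonneg_left h31 (by positivity)
  have h4 : FL δ T (x * Real.log T) (x * Real.log T) 0 ≤ ENNReal.ofReal (C * T * (1 + c) ^ B) :=
    h2.trans (ENNReal.ofReal_le_ofReal h3)
  have hz : ∀ t : ℝ, zp T (x * Real.log T) 0 t = ((1 / 2 + x : ℝ) : ℂ) + t * I := by
    intro t
    unfold zp
    push_cast
    rw [zero_mul, add_zero, mul_div_assoc, div_self hl0]
    ring
  set F : ℝ → ℝ := fun t => ‖riemannZeta (((1 / 2 + x : ℝ) : ℂ) + t * I) *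
    MM δ T (((1 / 2 + x : ℝ) : ℂ) + t * I)‖ ^ 2 with hF
  have h5 : FL δ T (x * Real.log T) (x * Real.log T) 0 =
      ∫⁻ t in Icc (T / 2) (3 * T), ENNReal.ofReal (F t) := by
    unfold FL
    apply lintegral_congr
    intro t
    rw [hz t]
  have h6 : ∫ t in (T / 2)..(3 * T), F t ≤ C * T * (1 + c) ^ B := by
    rw [intervalIntegral.integral_of_le (by linarith), ← integral_Icc_eq_integral_Ioc]
    by_cases hi : Integrable F (volume.restrict (Icc (T / 2) (3 * T)))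
    · rw [integral_eq_lintegral_of_nonneg_ae (ae_of_all _ fun t => by positivity)
        hi.aestronglyMeasurable, ← h5]
      exact ENNReal.toReal_le_of_le_ofReal (by positivity) h4
    · rw [integral_undef hi]
      positivity
  have h7 : MS T (fun s => riemannZeta s * MM δ T s) x = (1 / T) * ∫ t in (T / 2)..(3 * T), F t := rfl
  rw [h7]
  calc (1 / T) * ∫ t in (T / 2)..(3 * T), F t ≤ (1 / T) * (C * T * (1 + c) ^ B) :=
        mul_le_mul_of_nonneg_left h6 (by positivity)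
    _ = C * (1 + c) ^ B := by
        field_simp

end Pool.Agent.Lib.MP_ec260d_ntB.IA
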