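import Mathlib
import Pool.Agent.Lib.MP_ec260d_ntB.AFin

/-!
# Interface A: the mollified second moment
-/

namespace Pool.Agent.Lib.MP_ec260d_ntB

open Complex Set Filter Topology MeasureTheory

theorem a_small (ε : ℝ) (hε : 0 < ε) : ∃ δ₁ : ℝ, 0 < δ₁ ∧ ∀ δ : ℝ, 0 < δ → δ ≤ δ₁ →
    ∃ W₀ : ℝ, 1 ≤ W₀ ∧ ∀ W : ℝ, W₀ ≤ W → ∃ T₀ : ℝ, 2 ≤ T₀ ∧ ∀ T : ℝ, T₀ ≤ T →
      Real.log T * (∫ x in (W / Real.log T)..3,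
        Real.sqrt (MS T (fun s => riemannZeta s * MM δ T s - 1) x)) ≤ ε ∧
      Real.log T * (∫ x in (W / Real.log T)..3,
        MS T (fun s => riemannZeta s * MM δ T s - 1) x) ≤ ε :=
  IA.small_int ε hε

theorem a_bdd : ∃ δ₁ : ℝ, 0 < δ₁ ∧ ∀ δ : ℝ, 0 < δ → δ ≤ δ₁ → ∀ c : ℝ, 0 ≤ c →
    ∃ C T₀ : ℝ, 0 ≤ C ∧ 2 ≤ T₀ ∧ ∀ T : ℝ, T₀ ≤ T → ∀ x : ℝ, |x| ≤ c / Real.log T →
      MS T (fun s => riemannZeta s * MM δ T s) x ≤ C :=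
  IA.bdd

end Pool.Agent.Lib.MP_ec260d_ntB
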