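import Mathlib
import Pool.Agent.Lib.MP_ec260d_ntB.IA
import Pool.Agent.Lib.MP_ec260d_ntB.BMean
import Pool.Agent.Lib.MP_ec260d_ntB.BWin
import Pool.Agent.Lib.MP_ec260d_ntB.BQQ
import Pool.Agent.Lib.MP_ec260d_ntB.GLam

/-!
# JOB BSup: `ζ M` is close to `1` to the right of `1/2 + W / log T`, for most heights

`l = log T`, `h = hT T = 2 π / l`, `f s = ζ(s) M(s) - 1`, `M = MM δ T`; `f` is differentiable at all `s ≠ 1` (`differentiableAt_riemannZeta`, `MM_diff`), so on `Im s ≥ T/2 > 0`.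
* `ms_int`: for `0 ≤ a ≤ b ≤ 3`, `T ≥ 2`: `BI (1/2 + a) (1/2 + b) (T/2) (3T) (‖f‖ ^ 2) = T * ∫ x in a..b, MS T f x` (`bi_iter`, `bint_cont`, substitution `x → 1/2 + x`, definition of `MS`), and `x ↦ MS T f x` is continuous on `[0, 3]` (continuity of a parametric integral over the compact interval `[T/2, 3T]`:
  `intervalIntegral.continuous_parametric_intervalIntegral_of_continuous`-type results or `continuousOn`), so interval integrable, also its square root. `BI (1/2 + a) (1/2 + b) (T/2) (3T) ‖f‖ ≤ 3 T ∫ x in a..b, sqrt (MS T f x)` (Cauchy - Schwarz in `t`: `∫ ‖f‖ ≤ sqrt (5/2 T) sqrt (T MS) ≤ 3 T sqrt MS` (`(5/2) ≤ 9`)).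
* `zm_good`: apply `a_small` with `ε' = c ε` (`c` a small absolute constant) and `W / 2` in place of `W` (so `W₀ = 2 W₀'` if `a_small` gives `W₀'`). Let `r = W / (2 l)`.
  (i) for `s` with `Re s ≥ 1/2 + W / l`, `Re s ≤ 2`, `|Im s - t| ≤ h`: `area_mean` for `g = f ^ 2` and radius `r`: `π r ^ 2 ‖f s‖ ^ 2 ≤ BI over the square around s of ‖f‖ ^ 2 ≤ BI (1/2 + W/(2 l)) 3 (t - L) (t + L) (‖f‖ ^ 2)`, `L = h + r ≤ 1/2` (`T` large), `2 + r ≤ 3`. `win_meas` with the threshold `λ = π r ^ 2 / 16`: outside of a set of measure at most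
  `2 L / λ * BI (..) (T/2) (3T) ≤ (2 (2 π + W/2) / l) * (64 l ^ 2 / (π W ^ 2)) * T ∫ x in (W/(2 l))..(5/2), MS ≤ C l T ∫ x in (W/2/l)..3, MS ≤ C ε' T` (`W ≥ 1`, `MS ≥ 0`) we get `‖f s‖ ^ 2 ≤ 1/16`.
  (ii) `win_meas` with `‖f‖`, box `[1/2 + W/l, 2]`, `L = h`, `λ = h / l`: exceptional measure at most `2 l * BI (1/2 + W/l) 2 (T/2) (3T) ‖f‖ ≤ 2 l * 3 T ∫ x in (W/l)..(3/2), sqrt MS ≤ 6 ε' T` (`∫ over [W/(2l), 3]` is larger).
  The union of the two sets; `ε'` small.
-/

namespace Pool.Agent.Lib.MP_ec260d_ntB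

open Complex Set Filter Topology MeasureTheory

private theorem BSup_diff (δ T : ℝ) {s : ℂ} (hs : s ≠ 1) :
    DifferentiableAt ℂ (fun s => riemannZeta s * MM δ T s - 1) s :=
  ((differentiableAt_riemannZeta hs).mul (MM_diff δ T s)).sub_const 1

private theorem BSup_ne {s : ℂ} (h : 0 < s.im) : s ≠ 1 := by
  rintro rfl
  rw [Complex.one_im] at h
  exact lt_irrefl _ h

private theorem BSup_contOn (δ T : ℝ) {a b A B : ℝ} (hA : 0 < A) :
    ContinuousOn (fun s => riemannZeta s * MM δ T s - 1) (CB a b A B) := fun _ hs =>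
  (BSup_diff δ T (BSup_ne (lt_of_lt_of_le hA hs.2.2.1))).continuousAt.continuousWithinAt

private theorem BSup_contX (δ T : ℝ) :
    Continuous (fun z : ℝ × ℝ => riemannZeta (((1 / 2 + z.1 : ℝ) : ℂ) + (max z.2 1 : ℝ) * I) *
      MM δ T (((1 / 2 + z.1 : ℝ) : ℂ) + (max z.2 1 : ℝ) * I) - 1) := by
  rw [continuous_iff_continuousAt]
  intro z
  have h1 : 0 < ((((1 / 2 + z.1 : ℝ) : ℂ) + (max z.2 1 : ℝ) * I)).im := by
    have h2 : ((((1 / 2 + z.1 : ℝ) : ℂ) + (max z.2 1 : ℝ) * I)).im = max z.2 1 := by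
      simp
    rw [h2]
    exact lt_of_lt_of_le one_pos (le_max_right _ _)
  have h3 : ContinuousAt (fun z : ℝ × ℝ => ((1 / 2 + z.1 : ℝ) : ℂ) + (max z.2 1 : ℝ) * I) z := by
    apply Continuous.continuousAt
    fun_prop
  exact ContinuousAt.comp (g := fun s => riemannZeta s * MM δ T s - 1)
    (f := fun z : ℝ × ℝ => ((1 / 2 + z.1 : ℝ) : ℂ) + (max z.2 1 : ℝ) * I)
    (BSup_diff δ T (BSup_ne h1)).continuousAt h3

private theorem BSup_cont1 (δ T x : ℝ) {A B : ℝ} (hA : 0 < A) :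
    ContinuousOn (fun t : ℝ => ‖riemannZeta (((x : ℝ) : ℂ) + t * I) *
      MM δ T (((x : ℝ) : ℂ) + t * I) - 1‖) (Icc A B) := by
  intro t ht
  apply ContinuousAt.continuousWithinAt
  apply ContinuousAt.norm
  have h1 : 0 < (((x : ℝ) : ℂ) + t * I).im := by
    have h2 : (((x : ℝ) : ℂ) + t * I).im = t := by simp
    rw [h2]
    exact lt_of_lt_of_le hA ht.1
  have h3 : ContinuousAt (fun t : ℝ => ((x : ℝ) : ℂ) + t * I) t := by
    apply Continuous.continuousAt
    fun_prop
  exact ContinuousAt.comp (g := fun s => riemannZeta s * MM δ T s - 1)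
    (f := fun t : ℝ => ((x : ℝ) : ℂ) + t * I) (BSup_diff δ T (BSup_ne h1)).continuousAt h3

private theorem BSup_cs {g : ℝ → ℝ} {a b : ℝ} (hab : a < b) (hg : ContinuousOn g (Icc a b)) :
    (∫ t in a..b, g t) ^ 2 ≤ (b - a) * ∫ t in a..b, g t ^ 2 := by
  have hl : 0 < b - a := by linarith
  rw [← Set.uIcc_of_le hab.le] at hg
  have i1 : IntervalIntegrable g volume a b := hg.intervalIntegrable
  have i2 : IntervalIntegrable (fun t => g t ^ 2) volume a b := (hg.pow 2).intervalIntegrable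
  set A := ∫ t in a..b, g t with hA
  have h0 : 0 ≤ ∫ t in a..b, (g t - A / (b - a)) ^ 2 :=
    intervalIntegral.integral_nonneg hab.le fun t _ => sq_nonneg _
  have h1 : (∫ t in a..b, (g t - A / (b - a)) ^ 2) =
      (∫ t in a..b, g t ^ 2) - 2 * (A / (b - a)) * A + (b - a) * (A / (b - a)) ^ 2 := by
    have h2 : ∀ t, (g t - A / (b - a)) ^ 2 =
        (g t ^ 2 - 2 * (A / (b - a)) * g t) + (A / (b - a)) ^ 2 := fun t => by ring
    simp_rw [h2]
    rw [intervalIntegral.integral_add (i2.sub (i1.const_mul _)) intervalIntegrable_const,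
      intervalIntegral.integral_sub i2 (i1.const_mul _), intervalIntegral.integral_const_mul,
      intervalIntegral.integral_const, smul_eq_mul]
  rw [h1] at h0
  have h3 : 2 * (A / (b - a)) * A - (b - a) * (A / (b - a)) ^ 2 = A ^ 2 / (b - a) := by
    field_simp
    ring
  have h4 : A ^ 2 / (b - a) ≤ ∫ t in a..b, g t ^ 2 := by linarith
  rw [div_le_iff₀ hl] at h4
  linarith

private theorem BSup_nn {T : ℝ} (hT : 2 ≤ T) (F : ℂ → ℂ) (x : ℝ) : 0 ≤ MS T F x := by
  unfold MS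
  apply mul_nonneg
  · positivity
  · exact intervalIntegral.integral_nonneg (by linarith) fun t _ => sq_nonneg _

theorem ms_cont {δ T : ℝ} (hT2 : 2 ≤ T) :
    Continuous (fun x : ℝ => MS T (fun s => riemannZeta s * MM δ T s - 1) x) := by
  unfold MS
  have h1 : ∀ x : ℝ, (∫ t in (T / 2)..(3 * T),
      ‖riemannZeta (((1 / 2 + x : ℝ) : ℂ) + t * I) * MM δ T (((1 / 2 + x : ℝ) : ℂ) + t * I) - 1‖ ^ 2) =
      ∫ t in (T / 2)..(3 * T), ‖riemannZeta (((1 / 2 + x : ℝ) : ℂ) + (max t 1 : ℝ) * I) *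
        MM δ T (((1 / 2 + x : ℝ) : ℂ) + (max t 1 : ℝ) * I) - 1‖ ^ 2 := by
    intro x
    refine intervalIntegral.integral_congr fun t ht => ?_
    rw [Set.uIcc_of_le (by linarith)] at ht
    have h2 : max t 1 = t := max_eq_left (by linarith [ht.1])
    simp only [h2]
  simp only [h1]
  apply Continuous.const_mul
  apply intervalIntegral.continuous_parametric_intervalIntegral_of_continuous'
  exact (BSup_contX δ T).norm.pow 2

theorem ms_int {δ T : ℝ} (hT2 : 2 ≤ T) {a b : ℝ} (hab : a ≤ b) :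
    BI (1 / 2 + a) (1 / 2 + b) (T / 2) (3 * T) (fun s => ‖riemannZeta s * MM δ T s - 1‖ ^ 2) =
      T * ∫ x in a..b, MS T (fun s => riemannZeta s * MM δ T s - 1) x := by
  have hT0 : 0 < T := by linarith
  rw [bi_iter (by linarith) (by linarith) (bint_cont
    (f := fun s => ‖riemannZeta s * MM δ T s - 1‖ ^ 2) ((BSup_contOn δ T (by linarith)).norm.pow 2)),
    ← intervalIntegral.integral_comp_add_left (fun x : ℝ => ∫ t in (T / 2)..(3 * T),
      ‖riemannZeta ((x : ℂ) + t * I) * MM δ T ((x : ℂ) + t * I) - 1‖ ^ 2) (1 / 2),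
    ← intervalIntegral.integral_const_mul]
  refine intervalIntegral.integral_congr fun x _ => ?_
  show _ = T * MS T (fun s => riemannZeta s * MM δ T s - 1) x
  unfold MS
  rw [← mul_assoc, mul_one_div_cancel hT0.ne', one_mul]

theorem ms_int1 {δ T : ℝ} (hT2 : 2 ≤ T) {a b : ℝ} (hab : a ≤ b) :
    BI (1 / 2 + a) (1 / 2 + b) (T / 2) (3 * T) (fun s => ‖riemannZeta s * MM δ T s - 1‖) ≤
      3 * T * ∫ x in a..b, Real.sqrt (MS T (fun s => riemannZeta s * MM δ T s - 1) x) := by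
  have hT0 : 0 < T := by linarith
  rw [bi_iter (by linarith) (by linarith) (bint_cont ((BSup_contOn δ T (by linarith)).norm)),
    ← intervalIntegral.integral_comp_add_left (fun x : ℝ => ∫ t in (T / 2)..(3 * T),
      ‖riemannZeta ((x : ℂ) + t * I) * MM δ T ((x : ℂ) + t * I) - 1‖) (1 / 2),
    ← intervalIntegral.integral_const_mul]
  have hc : Continuous (fun x : ℝ => ∫ t in (T / 2)..(3 * T),
      ‖riemannZeta (((1 / 2 + x : ℝ) : ℂ) + t * I) * MM δ T (((1 / 2 + x : ℝ) : ℂ) + t * I) - 1‖) := by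
    have h1 : ∀ x : ℝ, (∫ t in (T / 2)..(3 * T),
        ‖riemannZeta (((1 / 2 + x : ℝ) : ℂ) + t * I) * MM δ T (((1 / 2 + x : ℝ) : ℂ) + t * I) - 1‖) =
        ∫ t in (T / 2)..(3 * T), ‖riemannZeta (((1 / 2 + x : ℝ) : ℂ) + (max t 1 : ℝ) * I) *
          MM δ T (((1 / 2 + x : ℝ) : ℂ) + (max t 1 : ℝ) * I) - 1‖ := by
      intro x
      refine intervalIntegral.integral_congr fun t ht => ?_
      rw [Set.uIcc_of_le (by linarith)] at ht
      have h2 : max t 1 = t := max_eq_left (by linarith [ht.1])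
      simp only [h2]
    simp only [h1]
    apply intervalIntegral.continuous_parametric_intervalIntegral_of_continuous'
    exact (BSup_contX δ T).norm
  refine intervalIntegral.integral_mono_on hab (hc.intervalIntegrable _ _)
    (((ms_cont hT2).sqrt.const_mul (3 * T)).intervalIntegrable _ _) ?_
  intro x _
  have h1 := BSup_cs (a := T / 2) (b := 3 * T) (by linarith)
    (BSup_cont1 δ T (1 / 2 + x) (B := 3 * T) (by linarith : 0 < T / 2))
  have h2 : (∫ t in (T / 2)..(3 * T), ‖riemannZeta (((1 / 2 + x : ℝ) : ℂ) + t * I) *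
      MM δ T (((1 / 2 + x : ℝ) : ℂ) + t * I) - 1‖ ^ 2) =
      T * MS T (fun s => riemannZeta s * MM δ T s - 1) x := by
    unfold MS
    rw [← mul_assoc, mul_one_div_cancel hT0.ne', one_mul]
  rw [h2] at h1
  have h3 := BSup_nn hT2 (fun s => riemannZeta s * MM δ T s - 1) x
  have h4 : (∫ t in (T / 2)..(3 * T), ‖riemannZeta (((1 / 2 + x : ℝ) : ℂ) + t * I) *
      MM δ T (((1 / 2 + x : ℝ) : ℂ) + t * I) - 1‖) ^ 2 ≤
      (3 * T * Real.sqrt (MS T (fun s => riemannZeta s * MM δ T s - 1) x)) ^ 2 := by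
    rw [mul_pow, Real.sq_sqrt h3]
    refine h1.trans ?_
    have h5 : 0 ≤ T ^ 2 * MS T (fun s => riemannZeta s * MM δ T s - 1) x := by positivity
    linarith only [h5]
  exact le_trans (le_abs_self _) (abs_le_of_sq_le_sq h4 (by positivity))

theorem zm_good (ε : ℝ) (hε : 0 < ε) : ∃ δ₁ : ℝ, 0 < δ₁ ∧ ∀ δ : ℝ, 0 < δ → δ ≤ δ₁ →
    ∃ W₀ : ℝ, 1 ≤ W₀ ∧ ∀ W : ℝ, W₀ ≤ W → ∃ T₀ : ℝ, 2 ≤ T₀ ∧ ∀ T : ℝ, T₀ ≤ T →
      ∃ Bad : Set ℝ, MeasurableSet Bad ∧ volume Bad ≤ ENNReal.ofReal (ε * T) ∧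
        ∀ t ∈ Icc T (3 * T - 1), t ∉ Bad →
          (∀ s : ℂ, 1 / 2 + W / Real.log T ≤ s.re → s.re ≤ 2 → |s.im - t| ≤ hT T →
            ‖riemannZeta s * MM δ T s - 1‖ ≤ 1 / 4) ∧
          BI (1 / 2 + W / Real.log T) 2 (t - hT T) (t + hT T)
            (fun s => ‖riemannZeta s * MM δ T s - 1‖) ≤ hT T / Real.log T := by
  obtain ⟨δ₁, hδ₁, H⟩ := a_small (ε / 100) (by positivity)
  refine ⟨δ₁, hδ₁, fun δ hδ hδ' => ?_⟩
  obtain ⟨W₀, hW₀, H⟩ := H δ hδ hδ'
  refine ⟨2 * W₀, by linarith, fun W hW => ?_⟩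
  obtain ⟨T₀, hT₀, H⟩ := H (W / 2) (by linarith)
  have hW2 : 2 ≤ W := by linarith
  have hpi := Real.pi_pos
  have hpi3 := Real.pi_gt_three
  have hpi4 := Real.pi_le_four
  obtain ⟨T₁, hT₁, H1⟩ := hT_small (min (1 / 4) (Real.pi / W)) (by positivity)
  refine ⟨max T₀ T₁, le_trans hT₀ (le_max_left _ _), fun T hTT => ?_⟩
  have hTa : T₀ ≤ T := le_trans (le_max_left _ _) hTT
  have hTb : T₁ ≤ T := le_trans (le_max_right _ _) hTT
  have hT2 : 2 ≤ T := hT₀.trans hTa
  have hT0 : 0 < T := by linarith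
  have hl : 0 < Real.log T := Real.log_pos (by linarith)
  obtain ⟨Hs, Hq⟩ := H T hTa
  have hh := H1 T hTb
  have hh0 := hT_pos hT2
  have hhm := hT_mul hT2
  set l := Real.log T with hldef
  set h := hT T with hhdef
  have hh1 : h ≤ 1 / 4 := hh.trans (min_le_left _ _)
  have hh2 : h ≤ Real.pi / W := hh.trans (min_le_right _ _)
  set r := W / 2 / l with hr
  have hr0 : 0 < r := by positivity
  have hrh : r * (4 * Real.pi) = W * h := by
    rw [hr]
    field_simp
    linarith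
  have hr1 : r ≤ 1 / 4 := by
    have h1 : W * h ≤ Real.pi := by
      rw [le_div_iff₀ (by linarith)] at hh2
      linarith
    have h2 : r * (4 * Real.pi) ≤ 1 / 4 * (4 * Real.pi) := by
      rw [hrh]
      linarith
    exact le_of_mul_le_mul_right h2 (by positivity)
  have hWl : W / l = 2 * r := by
    rw [hr]
    ring
  have hrl : r * l = W / 2 := by
    rw [hr]
    field_simp
  have hc : Continuous (fun x : ℝ => MS T (fun s => riemannZeta s * MM δ T s - 1) x) := ms_cont hT2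
  have hcs : Continuous (fun x : ℝ =>
      Real.sqrt (MS T (fun s => riemannZeta s * MM δ T s - 1) x)) := hc.sqrt
  have hnn := BSup_nn hT2 (fun s => riemannZeta s * MM δ T s - 1)
  -- first exceptional set
  have I1 : BI (1 / 2 + r) (1 / 2 + 5 / 2) (T / 2) (3 * T)
      (fun s => ‖riemannZeta s * MM δ T s - 1‖ ^ 2) ≤ T * (ε / 100 / l) := by
    rw [ms_int hT2 (by linarith)]
    apply mul_le_mul_of_nonneg_left _ hT0.le
    have h1 : (∫ x in r..(5 / 2 : ℝ), MS T (fun s => riemannZeta s * MM δ T s - 1) x) ≤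
        ∫ x in r..(3 : ℝ), MS T (fun s => riemannZeta s * MM δ T s - 1) x := by
      rw [← intervalIntegral.integral_add_adjacent_intervals (hc.intervalIntegrable r (5 / 2))
        (hc.intervalIntegrable (5 / 2) 3)]
      have h2 : 0 ≤ ∫ x in (5 / 2 : ℝ)..3, MS T (fun s => riemannZeta s * MM δ T s - 1) x :=
        intervalIntegral.integral_nonneg (by norm_num) fun x _ => hnn x
      linarith
    refine h1.trans ?_
    rw [le_div_iff₀ hl, mul_comm]
    exact Hq
  have I2 : BI (1 / 2 + W / l) (1 / 2 + 3 / 2) (T / 2) (3 * T)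
      (fun s => ‖riemannZeta s * MM δ T s - 1‖) ≤ 3 * T * (ε / 100 / l) := by
    refine (ms_int1 hT2 (by rw [hWl]; linarith)).trans ?_
    apply mul_le_mul_of_nonneg_left _ (by positivity)
    have h1 : (∫ x in (W / l)..(3 / 2 : ℝ),
        Real.sqrt (MS T (fun s => riemannZeta s * MM δ T s - 1) x)) ≤
        ∫ x in r..(3 : ℝ), Real.sqrt (MS T (fun s => riemannZeta s * MM δ T s - 1) x) := by
      rw [← intervalIntegral.integral_add_adjacent_intervals (hcs.intervalIntegrable r (W / l))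
        (hcs.intervalIntegrable (W / l) 3),
        ← intervalIntegral.integral_add_adjacent_intervals (hcs.intervalIntegrable (W / l) (3 / 2))
        (hcs.intervalIntegrable (3 / 2) 3)]
      have h2 : 0 ≤ ∫ x in r..(W / l), Real.sqrt (MS T (fun s => riemannZeta s * MM δ T s - 1) x) :=
        intervalIntegral.integral_nonneg (by rw [hWl]; linarith) fun x _ => Real.sqrt_nonneg _
      have h3 : 0 ≤ ∫ x in (3 / 2 : ℝ)..3,
          Real.sqrt (MS T (fun s => riemannZeta s * MM δ T s - 1) x) :=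
        intervalIntegral.integral_nonneg (by norm_num) fun x _ => Real.sqrt_nonneg _
      linarith
    refine h1.trans ?_
    rw [le_div_iff₀ hl, mul_comm]
    exact Hs
  obtain ⟨B1, hB1m, hB1v, hB1⟩ := win_meas T hT2 (1 / 2 + r) (1 / 2 + 5 / 2) (by linarith)
    (fun s => ‖riemannZeta s * MM δ T s - 1‖ ^ 2) ((BSup_contOn δ T (by linarith)).norm.pow 2)
    (fun s _ => sq_nonneg _) (h + r) (Real.pi * r ^ 2 / 16) (by linarith) (by linarith)
    (by positivity)
  obtain ⟨B2, hB2m, hB2v, hB2⟩ := win_meas T hT2 (1 / 2 + W / l) (1 / 2 + 3 / 2)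
    (by rw [hWl]; linarith)
    (fun s => ‖riemannZeta s * MM δ T s - 1‖) ((BSup_contOn δ T (by linarith)).norm)
    (fun s _ => norm_nonneg _) h (h / l) hh0 (by linarith) (by positivity)
  refine ⟨B1 ∪ B2, hB1m.union hB2m, ?_, ?_⟩
  · have e1 : 2 * (h + r) / (Real.pi * r ^ 2 / 16) * BI (1 / 2 + r) (1 / 2 + 5 / 2) (T / 2) (3 * T)
        (fun s => ‖riemannZeta s * MM δ T s - 1‖ ^ 2) ≤ 9 / 10 * (ε * T) := by
      have h1 : 0 ≤ 2 * (h + r) / (Real.pi * r ^ 2 / 16) := by positivity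
      refine (mul_le_mul_of_nonneg_left I1 h1).trans ?_
      have h2 : 2 * (h + r) / (Real.pi * r ^ 2 / 16) * (T * (ε / 100 / l)) =
          (ε * T) * (32 * (h + r) / (100 * Real.pi * r ^ 2 * l)) := by
        field_simp
        norm_num
      rw [h2, mul_comm (9 / 10 : ℝ)]
      apply mul_le_mul_of_nonneg_left _ (by positivity)
      rw [div_le_iff₀ (by positivity)]
      -- 32 (h + r) ≤ 90 π r (r l) = 45 π r W
      have h3 : 9 / 10 * (100 * Real.pi * r ^ 2 * l) = 45 * Real.pi * r * W := by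
        have : r ^ 2 * l = r * (W / 2) := by rw [sq, mul_assoc, hrl]
        calc 9 / 10 * (100 * Real.pi * r ^ 2 * l) = 90 * Real.pi * (r ^ 2 * l) := by ring
          _ = 45 * Real.pi * r * W := by rw [this]; ring
      rw [h3]
      -- h = 4 π r / W ≤ 2 π r
      have h4 : h ≤ 2 * Real.pi * r := by
        have : 2 * h ≤ W * h := mul_le_mul_of_nonneg_right hW2 hh0.le
        linarith only [this, hrh]
      have h5 : 3 * r ≤ Real.pi * r := mul_le_mul_of_nonneg_right hpi3.le hr0.le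
      have h6 : Real.pi * r * 2 ≤ Real.pi * r * W := mul_le_mul_of_nonneg_left hW2 (by positivity)
      linarith only [h4, h5, h6, hr0]
    have e2 : 2 * h / (h / l) * BI (1 / 2 + W / l) (1 / 2 + 3 / 2) (T / 2) (3 * T)
        (fun s => ‖riemannZeta s * MM δ T s - 1‖) ≤ 1 / 10 * (ε * T) := by
      have h1 : 0 ≤ 2 * h / (h / l) := by positivity
      refine (mul_le_mul_of_nonneg_left I2 h1).trans ?_
      have h2 : 2 * h / (h / l) * (3 * T * (ε / 100 / l)) = 6 / 100 * (ε * T) := by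
        field_simp
        ring
      rw [h2]
      linarith only [mul_pos hε hT0]
    calc volume (B1 ∪ B2) ≤ volume B1 + volume B2 := measure_union_le _ _
      _ ≤ ENNReal.ofReal (9 / 10 * (ε * T)) + ENNReal.ofReal (1 / 10 * (ε * T)) :=
        add_le_add (hB1v.trans (ENNReal.ofReal_le_ofReal e1))
          (hB2v.trans (ENNReal.ofReal_le_ofReal e2))
      _ = ENNReal.ofReal (ε * T) := by
        rw [← ENNReal.ofReal_add (by positivity) (by positivity)]
        exact congrArg ENNReal.ofReal (by ring)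
  · intro t ht htB
    rw [Set.mem_union, not_or] at htB
    have k1 := hB1 t ht htB.1
    have k2 := hB2 t ht htB.2
    constructor
    · intro s hs1 hs2 hs3
      rw [hWl] at hs1
      have hs3' := abs_le.1 hs3
      have him : 0 < t - (h + r) := by
        have := ht.1
        linarith
      have hm := area_mean (fun s => (riemannZeta s * MM δ T s - 1) ^ 2) s r hr0 (by
        intro s' hs'
        apply (BSup_diff δ T (BSup_ne _)).pow 2
        have := hs'.2.2.1
        linarith)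
      have h1 : BI (s.re - r) (s.re + r) (s.im - r) (s.im + r)
          (fun s => ‖(riemannZeta s * MM δ T s - 1) ^ 2‖) ≤ Real.pi * r ^ 2 / 16 := by
        have h2 : BI (s.re - r) (s.re + r) (s.im - r) (s.im + r)
            (fun s => ‖(riemannZeta s * MM δ T s - 1) ^ 2‖) =
            BI (s.re - r) (s.re + r) (s.im - r) (s.im + r)
            (fun s => ‖riemannZeta s * MM δ T s - 1‖ ^ 2) :=
          bi_congr fun s _ => norm_pow _ _
        rw [h2]
        refine le_trans ?_ k1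
        exact bi_subset (bint_cont ((BSup_contOn δ T him).norm.pow 2)) (fun s _ => sq_nonneg _)
          (by linarith) (by linarith) (by linarith [hs3'.1]) (by linarith [hs3'.2])
      have h3 : Real.pi * r ^ 2 * ‖(riemannZeta s * MM δ T s - 1) ^ 2‖ ≤
          Real.pi * r ^ 2 * (1 / 16) := by
        refine (hm.trans h1).trans (le_of_eq ?_)
        ring
      have h4 : ‖riemannZeta s * MM δ T s - 1‖ ^ 2 ≤ (1 / 4) ^ 2 := by
        rw [← norm_pow]
        have h5 := le_of_mul_le_mul_left h3 (by positivity)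
        norm_num
        norm_num at h5
        exact h5
      exact le_trans (le_abs_self _) (abs_le_of_sq_le_sq h4 (by norm_num))
    · have h1 : (1 / 2 + 3 / 2 : ℝ) = 2 := by norm_num
      rw [h1] at k2
      exact k2

end Pool.Agent.Lib.MP_ec260d_ntB
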