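import Mathlib
import Pool.Agent.Lib.MP_ec260d_nt.ZetaInt
import Pool.Agent.Lib.MP_ec260d_ntB.GLam

/-!
# JOB GArg: two terms of the formula for the smoothed number of zeros

`φ = stp T u1 - stp T u2` (`stp_tst`, `stp_bd`), `A = u1 - hT T`, `B = u2`, `T/4 ≤ A` for `T` large.
* `arg_part`: `|∫ t in A..B, φ t * Re (logDeriv ζ (2 + i t)) dt| ≤ C`: let `h t = Im (Complex.log (ζ (2 + i t)))`, `|h| ≤ π`, with derivative `Re (logDeriv ζ (2 + i t))` (see the proof of `zeta_int_bdd` in MP_ec260d_nt/ZetaInt.lean; `ZetaInt_re_pos`); integration by parts: `= - ∫ φ' t * h t dt` (`φ = 0` at `A`, `B`), and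
  `∫ |φ'| ≤ 2` (`stp1_int`; `stp1 T u = 0` outside of `[u - hT T, u]`).
* `main_part`: `|∫ t in A..B, φ t * (1/(2 π)) log (t/(2 π)) dt - (LL u2 - LL u1)| ≤ C`: `LL' t = (1/(2 π)) log (t/(2 π))`, `∫_{u1}^{u2} LL' = LL u2 - LL u1`; `φ` differs from the indicator of `[u1, u2]` by at most `1` and only on `[u1 - h, u1]` and `[max u1 (u2 - h), u2]`, total length `≤ 2 h`, where `|LL'| ≤ log T`
  (`T/4 ≤ t ≤ 4 T`), and `h log T = 2 π` (`hT_mul`).
-/

namespace Pool.Agent.Lib.MP_ec260d_ntB

open Complex Set Filter Topology MeasureTheory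

open Pool.Agent.Lib.MP_ec260d_nt in
private theorem GArg_der (t : ℝ) : HasDerivAt (fun t : ℝ => (Complex.log (riemannZeta (2 + t * I))).im)
    (logDeriv riemannZeta (2 + t * I)).re t := by
  have hre : 1 < (2 + (t : ℂ) * I).re := by simp
  have hne : (2 + (t : ℂ) * I) ≠ 1 := by
    intro h0
    rw [h0] at hre
    simp at hre
  have h1 : HasDerivAt riemannZeta (deriv riemannZeta (2 + t * I)) (2 + (t : ℂ) * I) :=
    (differentiableAt_riemannZeta hne).hasDerivAt
  have h2 : HasDerivAt (fun t : ℝ => 2 + (t : ℂ) * I) I t := by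
    have h3 : HasDerivAt (fun t : ℝ => (t : ℂ)) 1 t := Complex.ofRealCLM.hasDerivAt
    have h4 := (h3.mul_const I).const_add 2
    simpa using h4
  have h5 : HasDerivAt (fun t : ℝ => riemannZeta (2 + t * I)) (deriv riemannZeta (2 + t * I) * I) t :=
    HasDerivAt.comp (h₂ := riemannZeta) (h := fun t : ℝ => 2 + (t : ℂ) * I) t h1 h2
  have hmem : riemannZeta (2 + t * I) ∈ slitPlane := Or.inl (ZetaInt_re_pos t)
  have h6 : HasDerivAt (fun t : ℝ => Complex.log (riemannZeta (2 + t * I)))
      (deriv riemannZeta (2 + t * I) * I / riemannZeta (2 + t * I)) t :=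
    h5.clog_real hmem
  have h7 := Complex.imCLM.hasFDerivAt.comp_hasDerivAt t h6
  have h8 : (deriv riemannZeta (2 + t * I) * I / riemannZeta (2 + t * I)).im =
      (logDeriv riemannZeta (2 + t * I)).re := by
    rw [logDeriv_apply, mul_comm, mul_div_assoc, Complex.mul_im]
    simp
  rw [← h8]
  exact h7

private theorem GArg_cont : Continuous (fun t : ℝ => (logDeriv riemannZeta (2 + t * I)).re) :=
  Complex.continuous_re.comp Pool.Agent.Lib.MP_ec260d_nt.ZetaInt_cont

theorem arg_part : ∃ C T₀ : ℝ, 0 ≤ C ∧ 2 ≤ T₀ ∧ ∀ T : ℝ, T₀ ≤ T → ∀ u1 u2 : ℝ, T / 2 ≤ u1 → u1 ≤ u2 →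
    |∫ t in (u1 - hT T)..u2, (stp T u1 t - stp T u2 t) * (logDeriv riemannZeta (2 + t * I)).re| ≤ C := by
  refine ⟨2 * Real.pi, 2, by positivity, le_rfl, fun T hT2 u1 u2 _ hu => ?_⟩
  have hh := hT_pos hT2
  have hTst := stp_tst hT2 hu
  set h := hT T with hhdef
  have hAB : u1 - h ≤ u2 := by linarith
  have hparts := intervalIntegral.integral_mul_deriv_eq_deriv_mul
    (a := u1 - h) (b := u2)
    (u := fun t => stp T u1 t - stp T u2 t) (v := fun t : ℝ => (Complex.log (riemannZeta (2 + t * I))).im)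
    (u' := fun t => stp1 T u1 t - stp1 T u2 t) (v' := fun t : ℝ => (logDeriv riemannZeta (2 + t * I)).re)
    (fun t _ => hTst.d1 t) (fun t _ => GArg_der t) (hTst.c1.intervalIntegrable _ _)
    (GArg_cont.intervalIntegrable _ _)
  have hA : stp T u1 (u1 - h) - stp T u2 (u1 - h) = 0 := hTst.zeroA.1
  have hB : stp T u1 u2 - stp T u2 u2 = 0 := hTst.zeroB.1
  beta_reduce at hparts
  rw [hA, hB, zero_mul, zero_mul, sub_zero, zero_sub] at hparts
  rw [hparts, abs_neg]
  have hc1 : Continuous (stp1 T u1) := continuous_iff_continuousAt.2 fun t => (stp_d2 T u1 t).continuousAt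
  have hc2 : Continuous (stp1 T u2) := continuous_iff_continuousAt.2 fun t => (stp_d2 T u2 t).continuousAt
  have h1 : |∫ t in (u1 - h)..u2, (stp1 T u1 t - stp1 T u2 t) * (Complex.log (riemannZeta (2 + t * I))).im| ≤
      ∫ t in (u1 - h)..u2, (stp1 T u1 t + stp1 T u2 t) * Real.pi := by
    rw [← Real.norm_eq_abs]
    refine intervalIntegral.norm_integral_le_of_norm_le hAB ?_ ?_
    · refine Filter.Eventually.of_forall fun t _ => ?_
      rw [Real.norm_eq_abs, abs_mul]
      have p1 := (stp1_int hT2 u1).1 t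
      have p2 := (stp1_int hT2 u2).1 t
      have p3 : |stp1 T u1 t - stp1 T u2 t| ≤ stp1 T u1 t + stp1 T u2 t := by
        rw [abs_le]
        constructor <;> linarith
      have p4 : |(Complex.log (riemannZeta (2 + t * I))).im| ≤ Real.pi := by
        rw [Complex.log_im]
        exact Complex.abs_arg_le_pi _
      exact mul_le_mul p3 p4 (abs_nonneg _) (by linarith)
    · exact ((hc1.add hc2).mul continuous_const).intervalIntegrable _ _
  refine h1.trans (le_of_eq ?_)
  rw [intervalIntegral.integral_mul_const, intervalIntegral.integral_add (hc1.intervalIntegrable _ _)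
    (hc2.intervalIntegrable _ _),
    intervalIntegral.integral_eq_sub_of_hasDerivAt (fun t _ => stp_d1 T u1 t) (hc1.intervalIntegrable _ _),
    intervalIntegral.integral_eq_sub_of_hasDerivAt (fun t _ => stp_d1 T u2 t) (hc2.intervalIntegrable _ _),
    (stp_one hT2 hu).1, (stp_zero hT2 (le_refl (u1 - h))).1, (stp_one hT2 (le_refl u2)).1,
    (stp_zero hT2 (by linarith : u1 - h ≤ u2 - hT T)).1]
  ring

theorem main_part : ∃ C T₀ : ℝ, 0 ≤ C ∧ 2 ≤ T₀ ∧ ∀ T : ℝ, T₀ ≤ T → ∀ u1 u2 : ℝ, T / 2 ≤ u1 → u1 ≤ u2 →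
    u2 ≤ 4 * T →
    |(∫ t in (u1 - hT T)..u2, (stp T u1 t - stp T u2 t) *
      (1 / (2 * Real.pi) * Real.log (t / (2 * Real.pi)))) - (LL u2 - LL u1)| ≤ C := by
  obtain ⟨T₁, hT₁, hsm⟩ := hT_small 1 one_pos
  refine ⟨2, max T₁ 32, by norm_num, hT₁.trans (le_max_left _ _), fun T hTT u1 u2 h1 h12 h2 => ?_⟩
  have hTa : T₁ ≤ T := (le_max_left _ _).trans hTT
  have hTb : 32 ≤ T := (le_max_right _ _).trans hTT
  have hT2 : 2 ≤ T := by linarith
  have hh := hT_pos hT2
  have hh1 := hsm T hTa
  have hhm := hT_mul hT2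
  have hTst := stp_tst hT2 h12
  set h := hT T with hhdef
  have hpi := Real.pi_gt_three
  have hpi4 := Real.pi_lt_four
  have h2pi : 0 < 2 * Real.pi := by linarith
  have hlogT : 0 ≤ Real.log T := Real.log_nonneg (by linarith)
  set g : ℝ → ℝ := fun t => 1 / (2 * Real.pi) * Real.log (t / (2 * Real.pi)) with hg
  -- the bound of `g`
  have hgb : ∀ t, T / 4 ≤ t → t ≤ 4 * T → |g t| ≤ 1 / (2 * Real.pi) * Real.log T := by
    intro t ht1 ht2
    have e1 : 1 ≤ t / (2 * Real.pi) := by
      rw [le_div_iff₀ h2pi]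
      linarith
    have e2 : t / (2 * Real.pi) ≤ T := by
      rw [div_le_iff₀ h2pi]
      nlinarith
    have e3 : 0 ≤ Real.log (t / (2 * Real.pi)) := Real.log_nonneg e1
    have e4 : Real.log (t / (2 * Real.pi)) ≤ Real.log T := Real.log_le_log (by linarith) e2
    have e5 : 0 ≤ 1 / (2 * Real.pi) := by positivity
    rw [hg]
    beta_reduce
    rw [abs_of_nonneg (mul_nonneg e5 e3)]
    exact mul_le_mul_of_nonneg_left e4 e5
  have hgc : ∀ t, 0 < t → ContinuousAt g t := by
    intro t ht
    have e1 : ContinuousAt (fun t : ℝ => t / (2 * Real.pi)) t := continuousAt_id.div_const _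
    exact continuousAt_const.mul (e1.log (div_pos ht h2pi).ne')
  have hA : T / 4 ≤ u1 - h := by linarith
  have hgi : ∀ a b : ℝ, 0 < a → 0 < b → IntervalIntegrable g volume a b := by
    intro a b ha hb
    refine ContinuousOn.intervalIntegrable fun t ht => (hgc t ?_).continuousWithinAt
    have := ht.1
    exact lt_of_lt_of_le (lt_min ha hb) this
  have hφgi : ∀ a b : ℝ, 0 < a → 0 < b → IntervalIntegrable (fun t => (stp T u1 t - stp T u2 t) * g t) volume a b := by
    intro a b ha hb
    refine ContinuousOn.intervalIntegrable fun t ht => ?_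
    have h0 : 0 < t := lt_of_lt_of_le (lt_min ha hb) ht.1
    exact (hTst.c0.continuousAt.mul (hgc t h0)).continuousWithinAt
  have hLL : ∫ t in u1..u2, g t = LL u2 - LL u1 := by
    refine intervalIntegral.integral_eq_sub_of_hasDerivAt (fun t ht => ?_) (hgi _ _ (by linarith) (by linarith))
    have h0 : 0 < t := by
      rw [Set.uIcc_of_le h12] at ht
      linarith [ht.1]
    have d1 : HasDerivAt (fun t : ℝ => t / (2 * Real.pi)) (1 / (2 * Real.pi)) t :=
      (hasDerivAt_id t).div_const _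
    have d2 := d1.log (div_pos h0 h2pi).ne'
    have d3 := (d1.mul d2).sub d1
    have e1 : 1 / (2 * Real.pi) * Real.log (t / (2 * Real.pi)) +
        t / (2 * Real.pi) * (1 / (2 * Real.pi) / (t / (2 * Real.pi))) - 1 / (2 * Real.pi) = g t := by
      have e2 : t / (2 * Real.pi) * (1 / (2 * Real.pi) / (t / (2 * Real.pi))) = 1 / (2 * Real.pi) := by
        have := (div_pos h0 h2pi).ne'
        rw [mul_div_cancel₀]
        exact this
      rw [e2]
      show _ = 1 / (2 * Real.pi) * Real.log (t / (2 * Real.pi))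
      ring
    rw [← e1]
    exact d3
  have hu1 : 0 < u1 := by linarith
  have hu2 : 0 < u2 := by linarith
  have hA0 : 0 < u1 - h := by linarith
  set m := max u1 (u2 - h) with hm
  have hm1 : u1 ≤ m := le_max_left _ _
  have hm2 : m ≤ u2 := max_le h12 (by linarith)
  have hm3 : u2 - h ≤ m := le_max_right _ _
  have hm0 : 0 < m := by linarith
  have hone : h * (1 / (2 * Real.pi) * Real.log T) = 1 := by
    have e1 : h * (1 / (2 * Real.pi) * Real.log T) = (h * Real.log T) / (2 * Real.pi) := by ring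
    rw [e1, hhm, div_self h2pi.ne']
  have hcn : 0 ≤ 1 / (2 * Real.pi) * Real.log T := by positivity
  have hsplit : (∫ t in (u1 - h)..u2, (stp T u1 t - stp T u2 t) * g t) - ∫ t in u1..u2, g t =
      (∫ t in (u1 - h)..u1, (stp T u1 t - stp T u2 t) * g t) +
        ((∫ t in u1..m, (stp T u1 t - stp T u2 t - 1) * g t) +
          ∫ t in m..u2, (stp T u1 t - stp T u2 t - 1) * g t) := by
    have e1 : ∀ a b : ℝ, 0 < a → 0 < b → ∫ t in a..b, (stp T u1 t - stp T u2 t - 1) * g t =
        (∫ t in a..b, (stp T u1 t - stp T u2 t) * g t) - ∫ t in a..b, g t := by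
      intro a b ha hb
      rw [← intervalIntegral.integral_sub (hφgi a b ha hb) (hgi a b ha hb)]
      refine intervalIntegral.integral_congr fun t _ => ?_
      ring
    rw [e1 _ _ hu1 hm0, e1 _ _ hm0 hu2,
      ← intervalIntegral.integral_add_adjacent_intervals (hφgi _ _ hA0 hu1) (hφgi _ _ hu1 hu2),
      ← intervalIntegral.integral_add_adjacent_intervals (hφgi _ _ hu1 hm0) (hφgi _ _ hm0 hu2),
      ← intervalIntegral.integral_add_adjacent_intervals (hgi _ _ hu1 hm0) (hgi _ _ hm0 hu2)]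
    ring
  have b1 : |∫ t in (u1 - h)..u1, (stp T u1 t - stp T u2 t) * g t| ≤ 1 := by
    rw [← Real.norm_eq_abs]
    refine (intervalIntegral.norm_integral_le_of_norm_le_const
      (C := 1 / (2 * Real.pi) * Real.log T) fun t ht => ?_).trans (le_of_eq ?_)
    · rw [Set.uIoc_of_le (by linarith)] at ht
      rw [Real.norm_eq_abs, abs_mul]
      obtain ⟨q1, q2, -⟩ := stp_bd hT2 h12 t
      have q3 : |stp T u1 t - stp T u2 t| ≤ 1 := by
        rw [abs_of_nonneg q1]
        exact q2
      have q4 := hgb t (by linarith [ht.1]) (by linarith [ht.2])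
      calc |stp T u1 t - stp T u2 t| * |g t| ≤ 1 * (1 / (2 * Real.pi) * Real.log T) :=
            mul_le_mul q3 q4 (abs_nonneg _) zero_le_one
        _ = 1 / (2 * Real.pi) * Real.log T := one_mul _
    · have e1 : |u1 - (u1 - h)| = h := by
        have : u1 - (u1 - h) = h := by ring
        rw [this, abs_of_pos hh]
      rw [e1, mul_comm, hone]
  have b2 : |∫ t in u1..m, (stp T u1 t - stp T u2 t - 1) * g t| ≤ 0 := by
    rw [← Real.norm_eq_abs]
    refine (intervalIntegral.norm_integral_le_of_norm_le_const (C := 0) fun t ht => ?_).trans (le_of_eq ?_)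
    · rw [Set.uIoc_of_le hm1] at ht
      have q1 : t ≤ u2 - h := by
        rcases le_max_iff.1 (le_of_eq hm) with q | q
        · linarith [ht.1, ht.2]
        · linarith [ht.2]
      have q2 := (stp_bd hT2 h12 t).2.2 ht.1.le q1
      rw [q2, sub_self, zero_mul, norm_zero]
    · rw [zero_mul]
  have b3 : |∫ t in m..u2, (stp T u1 t - stp T u2 t - 1) * g t| ≤ 1 := by
    rw [← Real.norm_eq_abs]
    refine (intervalIntegral.norm_integral_le_of_norm_le_const
      (C := 1 / (2 * Real.pi) * Real.log T) fun t ht => ?_).trans ?_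
    · rw [Set.uIoc_of_le hm2] at ht
      rw [Real.norm_eq_abs, abs_mul]
      obtain ⟨q1, q2, -⟩ := stp_bd hT2 h12 t
      have q3 : |stp T u1 t - stp T u2 t - 1| ≤ 1 := by
        rw [abs_le]
        constructor <;> linarith
      have q4 := hgb t (by linarith [ht.1]) (by linarith [ht.2])
      calc |stp T u1 t - stp T u2 t - 1| * |g t| ≤ 1 * (1 / (2 * Real.pi) * Real.log T) :=
            mul_le_mul q3 q4 (abs_nonneg _) zero_le_one
        _ = 1 / (2 * Real.pi) * Real.log T := one_mul _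
    · have e1 : |u2 - m| ≤ h := by
        rw [abs_of_nonneg (by linarith)]
        linarith
      calc 1 / (2 * Real.pi) * Real.log T * |u2 - m| ≤ 1 / (2 * Real.pi) * Real.log T * h :=
            mul_le_mul_of_nonneg_left e1 hcn
        _ = 1 := by rw [mul_comm, hone]
  rw [← hLL, hsplit]
  refine (abs_add_le _ _).trans ?_
  have b4 := abs_add_le (∫ t in u1..m, (stp T u1 t - stp T u2 t - 1) * g t)
    (∫ t in m..u2, (stp T u1 t - stp T u2 t - 1) * g t)
  linarith

end Pool.Agent.Lib.MP_ec260d_ntB
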