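import Mathlib
import Pool.Agent.Lib.MP_ec260d_ntB.BBox
import Pool.Agent.Lib.MP_ec260d_ntB.GTst

/-!
# JOB GHarm: the Green formula for `log ‖g‖`, `g` without zeros

`g` is holomorphic and nonzero at (and near) every point of the closed box; `L s = logDeriv g s = g' s / g s` is holomorphic near the box.
Proof. (1) For fixed `x`: `t ↦ log ‖g (x + i t)‖` has the derivative `Re (i L (x + i t)) = - Im L (x + i t)`, and this has the derivative `- Im (i L' (x + i t)) = - Re L' (x + i t)`
(`log ‖g‖ = Re (log g)` locally, or: `log ‖g‖ = (1/2) log (‖g‖ ^ 2)`, `‖g‖ ^ 2 = Re ^ 2 + Im ^ 2`, differentiate: `Re (conj g * g' * i) / ‖g‖ ^ 2 = Re (i g' / g)`). Two integrations by parts (`φ`, `φ1` vanish at `A` and `B`):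
`∫ t in A..B, φ2 t * log ‖g (x + i t)‖ = - ∫ φ t * Re L' (x + i t) dt`.
(2) `∫ x in a..b, ∫ t in A..B, φ t * Re L' (x + i t) = ∫ t in A..B, φ t * ∫ x in a..b, Re L' (x + i t)` (continuous integrand on a compact rectangle, `bi_iter`, `bi_iter'` or `intervalIntegral_integral_interchange`), and the inner integral is `Re L (b + i t) - Re L (a + i t)` (fundamental theorem; `d/dx Re L (x + i t) = Re L' (x + i t)`).
-/

namespace Pool.Agent.Lib.MP_ec260d_ntB

open Complex Set Filter Topology MeasureTheory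


/-- derivative along a vertical line -/
private theorem gharm_vert {f : ℂ → ℂ} {x t : ℝ} (hf : AnalyticAt ℂ f ((x : ℂ) + t * I)) :
    HasDerivAt (fun u : ℝ => f ((x : ℂ) + u * I)) (deriv f ((x : ℂ) + t * I) * I) t := by
  have h1 : HasDerivAt (fun u : ℝ => (x : ℂ) + (u : ℂ) * I) I t := by
    have h2 : HasDerivAt (fun u : ℝ => (u : ℂ)) 1 t := Complex.ofRealCLM.hasDerivAt
    have h3 := (h2.mul_const I).const_add (x : ℂ)
    rwa [one_mul] at h3
  exact HasDerivAt.comp t hf.differentiableAt.hasDerivAt h1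

/-- derivative along a horizontal line -/
private theorem gharm_hor {f : ℂ → ℂ} {x t : ℝ} (hf : AnalyticAt ℂ f ((x : ℂ) + t * I)) :
    HasDerivAt (fun u : ℝ => f ((u : ℂ) + t * I)) (deriv f ((x : ℂ) + t * I)) x := by
  have h1 : HasDerivAt (fun u : ℝ => (u : ℂ) + (t : ℂ) * I) 1 x := by
    have h2 : HasDerivAt (fun u : ℝ => (u : ℂ)) 1 x := Complex.ofRealCLM.hasDerivAt
    exact h2.add_const ((t : ℂ) * I)
  have h2 := HasDerivAt.comp x hf.differentiableAt.hasDerivAt h1
  rwa [mul_one] at h2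

private theorem gharm_re {f : ℝ → ℂ} {f' : ℂ} {x : ℝ} (hf : HasDerivAt f f' x) :
    HasDerivAt (fun u => (f u).re) f'.re x :=
  (Complex.reCLM.hasFDerivAt.comp_hasDerivAt x hf :)

private theorem gharm_im {f : ℝ → ℂ} {f' : ℂ} {x : ℝ} (hf : HasDerivAt f f' x) :
    HasDerivAt (fun u => (f u).im) f'.im x :=
  (Complex.imCLM.hasFDerivAt.comp_hasDerivAt x hf :)

/-- derivative of the logarithm of the absolute value -/
private theorem gharm_log {f : ℝ → ℂ} {f' : ℂ} {x : ℝ} (hf : HasDerivAt f f' x) (h0 : f x ≠ 0) :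
    HasDerivAt (fun u => Real.log ‖f u‖) (f' / f x).re x := by
  have h1 : HasDerivAt (fun u => ‖f u‖ ^ 2) (2 * inner ℝ (f x) f') x := hf.norm_sq
  have hn : ‖f x‖ ^ 2 ≠ 0 := pow_ne_zero _ (norm_ne_zero_iff.2 h0)
  have h2 := (h1.log hn).const_mul (1 / 2 : ℝ)
  have h3 : (fun u => (1 / 2 : ℝ) * Real.log (‖f u‖ ^ 2)) = fun u => Real.log ‖f u‖ := by
    funext u
    rw [Real.log_pow]
    push_cast
    ring
  have h4 : (1 / 2 : ℝ) * (2 * inner ℝ (f x) f' / ‖f x‖ ^ 2) = (f' / f x).re := by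
    rw [Complex.inner, Complex.div_re, Complex.normSq_eq_norm_sq]
    simp only [Complex.mul_re, Complex.conj_re, Complex.conj_im]
    field_simp
    ring
  rw [h3, h4] at h2
  exact h2

theorem green_harm {φ φ1 φ2 : ℝ → ℝ} {A B : ℝ} (h : Tst φ φ1 φ2 A B) (hAB : A ≤ B) (a b : ℝ)
    (hab : a ≤ b) (g : ℂ → ℂ) (hg : ∀ s ∈ CB a b A B, AnalyticAt ℂ g s ∧ g s ≠ 0) :
    BI a b A B (fun s => φ2 s.im * Real.log ‖g s‖) =
      -(∫ t in A..B, φ t * ((logDeriv g ((b : ℂ) + t * I)).re - (logDeriv g ((a : ℂ) + t * I)).re)) := by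
  set L : ℂ → ℂ := logDeriv g with hL
  have hLA : ∀ s ∈ CB a b A B, AnalyticAt ℂ L s := fun s hs => by
    have h1 := (hg s hs).1.deriv.div (hg s hs).1 (hg s hs).2
    exact h1
  have hmem : ∀ x ∈ Icc a b, ∀ t ∈ Icc A B, (x : ℂ) + t * I ∈ CB a b A B := fun x hx t ht => by
    have e1 : ((x : ℂ) + t * I).re = x := by simp
    have e2 : ((x : ℂ) + t * I).im = t := by simp
    refine ⟨?_, ?_, ?_, ?_⟩
    · rw [e1]; exact hx.1
    · rw [e1]; exact hx.2
    · rw [e2]; exact ht.1
    · rw [e2]; exact ht.2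
  have him : ∀ x t : ℝ, ((x : ℂ) + t * I).im = t := fun x t => by simp
  have hc1 : ContinuousOn (fun s => Real.log ‖g s‖) (CB a b A B) := by
    refine ContinuousOn.log (fun s hs => (hg s hs).1.continuousAt.continuousWithinAt.norm) ?_
    intro s hs
    exact norm_ne_zero_iff.2 (hg s hs).2
  have hc2 : ContinuousOn (fun s => (deriv L s).re) (CB a b A B) := fun s hs =>
    (Complex.continuous_re.continuousAt.comp (hLA s hs).deriv.continuousAt).continuousWithinAt
  have hI1 : BInt a b A B (fun s => φ2 s.im * Real.log ‖g s‖) := bint_mul φ2 h.cont (bint_cont hc1)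
  have hI2 : BInt a b A B (fun s => φ s.im * (deriv L s).re) := bint_mul φ h.c0 (bint_cont hc2)
  have hu : uIcc A B = Icc A B := uIcc_of_le hAB
  have hu' : uIcc a b = Icc a b := uIcc_of_le hab
  have step : ∀ x ∈ Icc a b, ∫ t in A..B, φ2 t * Real.log ‖g ((x : ℂ) + t * I)‖ =
      -∫ t in A..B, φ t * (deriv L ((x : ℂ) + t * I)).re := by
    intro x hx
    have hF : ∀ t ∈ uIcc A B, HasDerivAt (fun u : ℝ => Real.log ‖g ((x : ℂ) + u * I)‖)
        (-(L ((x : ℂ) + t * I)).im) t := by
      intro t ht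
      rw [hu] at ht
      have hm := hmem x hx t ht
      have h1 := gharm_log (gharm_vert (hg _ hm).1) (hg _ hm).2
      have h2 : (deriv g ((x : ℂ) + t * I) * I / g ((x : ℂ) + t * I)).re =
          -(L ((x : ℂ) + t * I)).im := by
        rw [hL, logDeriv_apply, mul_div_right_comm]
        simp
      rwa [h2] at h1
    have hG : ∀ t ∈ uIcc A B, HasDerivAt (fun u : ℝ => -(L ((x : ℂ) + u * I)).im)
        (-(deriv L ((x : ℂ) + t * I)).re) t := by
      intro t ht
      rw [hu] at ht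
      have hm := hmem x hx t ht
      have h1 := (gharm_im (gharm_vert (hLA _ hm))).neg
      have h2 : (deriv L ((x : ℂ) + t * I) * I).im = (deriv L ((x : ℂ) + t * I)).re := by simp
      rwa [h2] at h1
    have hGc : ContinuousOn (fun u : ℝ => -(L ((x : ℂ) + u * I)).im) (uIcc A B) :=
      fun t ht => (hG t ht).continuousAt.continuousWithinAt
    have hRc : ContinuousOn (fun u : ℝ => -(deriv L ((x : ℂ) + u * I)).re) (uIcc A B) := by
      intro t ht
      rw [hu] at ht
      have hm := hmem x hx t ht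
      have h1 := (gharm_re (gharm_vert (hLA _ hm).deriv)).neg
      exact h1.continuousAt.continuousWithinAt
    have i1 := intervalIntegral.integral_mul_deriv_eq_deriv_mul hF (fun t _ => h.d2 t)
      hGc.intervalIntegrable (h.cont.intervalIntegrable A B)
    have i2 := intervalIntegral.integral_mul_deriv_eq_deriv_mul hG (fun t _ => h.d1 t)
      hRc.intervalIntegrable (h.c1.intervalIntegrable A B)
    rw [h.zeroA.2.1, h.zeroB.2.1, mul_zero, mul_zero, sub_zero, zero_sub] at i1
    rw [h.zeroA.1, h.zeroB.1, mul_zero, mul_zero, sub_zero, zero_sub] at i2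
    have e1 : ∫ t in A..B, φ2 t * Real.log ‖g ((x : ℂ) + t * I)‖ =
        ∫ t in A..B, Real.log ‖g ((x : ℂ) + t * I)‖ * φ2 t :=
      intervalIntegral.integral_congr fun t _ => mul_comm _ _
    rw [e1, i1, i2, neg_neg, ← intervalIntegral.integral_neg]
    refine intervalIntegral.integral_congr fun t _ => ?_
    show -(deriv L ((x : ℂ) + t * I)).re * φ t = -(φ t * (deriv L ((x : ℂ) + t * I)).re)
    ring
  have eq1 : BI a b A B (fun s => φ2 s.im * Real.log ‖g s‖) =
      -BI a b A B (fun s => φ s.im * (deriv L s).re) := by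
    rw [bi_iter hab hAB hI1, bi_iter hab hAB hI2, ← intervalIntegral.integral_neg]
    refine intervalIntegral.integral_congr fun x hx => ?_
    rw [hu'] at hx
    have h1 : ∫ t in A..B, φ2 ((x : ℂ) + t * I).im * Real.log ‖g ((x : ℂ) + t * I)‖ =
        ∫ t in A..B, φ2 t * Real.log ‖g ((x : ℂ) + t * I)‖ :=
      intervalIntegral.integral_congr fun t _ => by
        show φ2 ((x : ℂ) + t * I).im * _ = _
        rw [him]
    have h2 : ∫ t in A..B, φ ((x : ℂ) + t * I).im * (deriv L ((x : ℂ) + t * I)).re =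
        ∫ t in A..B, φ t * (deriv L ((x : ℂ) + t * I)).re :=
      intervalIntegral.integral_congr fun t _ => by
        show φ ((x : ℂ) + t * I).im * _ = _
        rw [him]
    show (∫ t in A..B, φ2 ((x : ℂ) + t * I).im * Real.log ‖g ((x : ℂ) + t * I)‖) =
      -(∫ t in A..B, φ ((x : ℂ) + t * I).im * (deriv L ((x : ℂ) + t * I)).re)
    rw [h1, h2, step x hx]
  rw [eq1, bi_iter' hab hAB hI2]
  congr 1
  refine intervalIntegral.integral_congr fun t ht => ?_
  rw [hu] at ht
  have hR : ∀ x ∈ uIcc a b, HasDerivAt (fun u : ℝ => (L ((u : ℂ) + t * I)).re)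
      ((deriv L ((x : ℂ) + t * I)).re) x := by
    intro x hx
    rw [hu'] at hx
    exact gharm_re (gharm_hor (hLA _ (hmem x hx t ht)))
  have hRc : ContinuousOn (fun u : ℝ => (deriv L ((u : ℂ) + t * I)).re) (uIcc a b) := by
    intro x hx
    rw [hu'] at hx
    exact (gharm_re (gharm_hor (hLA _ (hmem x hx t ht)).deriv)).continuousAt.continuousWithinAt
  have h3 := intervalIntegral.integral_eq_sub_of_hasDerivAt hR hRc.intervalIntegrable
  have h4 : ∫ x in a..b, φ ((x : ℂ) + t * I).im * (deriv L ((x : ℂ) + t * I)).re =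
      ∫ x in a..b, φ t * (deriv L ((x : ℂ) + t * I)).re :=
    intervalIntegral.integral_congr fun x _ => by
      show φ ((x : ℂ) + t * I).im * _ = _
      rw [him]
  show (∫ x in a..b, φ ((x : ℂ) + t * I).im * (deriv L ((x : ℂ) + t * I)).re) =
    φ t * ((L ((b : ℂ) + t * I)).re - (L ((a : ℂ) + t * I)).re)
  rw [h4, intervalIntegral.integral_const_mul, h3]

end Pool.Agent.Lib.MP_ec260d_ntB
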