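import Mathlib
import Pool.Agent.Lib.MP_ec260d_ntB.GHarm
import Pool.Agent.Lib.MP_ec260d_nt.DigammaC

/-!
# JOB GGam: the Gamma factor does not contribute

`G s = s (1 - s) Gammaℝ s`, holomorphic and nonzero for `Re s > 0`, `Im s > 0`.
* `gam_diff`: `|Re (logDeriv G (2 + i t)) - Re (logDeriv G (1/2 + i t))| ≤ C / t` for `t ≥ 1`. `logDeriv G s = 1/s - 1/(1 - s) - (log π)/2 + digamma (s/2) / 2` (`Gammaℝ_def`: `Gammaℝ s = π ^ (-s/2) * Gamma (s/2)`; see the proof of `logDeriv_xi_formula` in MP_ec260d_nt/LogDerivXi.lean).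
  The rational terms are at most `1/t` each in absolute value. `digamma (1 + i y) - digamma (1/4 + i y)` with `y = t / 2`: by `digamma_hasSum` (MP_ec260d_nt/DigammaC.lean) the difference of the `n`-th terms is `1/(n + 1/4 + i y) - 1/(n + 1 + i y) = (3/4) / ((n + 1/4 + i y) (n + 1 + i y))`,
  of norm at most `(3/4) / (n ^ 2 + y ^ 2)`, and `∑_{n ≥ 0} 1/(n ^ 2 + y ^ 2) ≤ 1/y ^ 2 + π/(2 y)` (compare with the integral; or the simple bound `n ^ 2 + y ^ 2 ≥ (n + y) ^ 2 / 2` and the telescoping `1/(n + y) ^ 2 ≤ 1/(n + y - 1/2) - 1/(n + y + 1/2)`, `y ≥ 1/2`: take `t ≥ 2`, `y ≥ 1`).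
* `gam_green`: for `2 ≤ A`: `green_harm` for `g = G`, `a = 1/2`, `b = 2`, and `gam_diff`: `|∫ φ t (..)| ≤ (C / A) ∫ |φ|`.
-/

namespace Pool.Agent.Lib.MP_ec260d_ntB

open Complex Set Filter Topology MeasureTheory

private lemma GGam_logDeriv {s : ℂ} (hs : 0 < s.re) (him : 0 < s.im) :
    logDeriv (fun s : ℂ => s * (1 - s) * Gammaℝ s) s = 1 / s + 1 / (s - 1) -
      (Real.log Real.pi : ℂ) / 2 + Complex.digamma (s / 2) / 2 := by
  have hs0 : s ≠ 0 := by rintro rfl; simp at hs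
  have hs1 : s ≠ 1 := by rintro rfl; simp at him
  have hs1' : (1 : ℂ) - s ≠ 0 := sub_ne_zero.2 (Ne.symm hs1)
  have hs1'' : s - 1 ≠ 0 := sub_ne_zero.2 hs1
  have hpi : (Real.pi : ℂ) ≠ 0 := by exact_mod_cast Real.pi_ne_zero
  have hre : 0 < (s / 2).re := by
    have : (s / 2).re = s.re / 2 := by simp
    rw [this]
    linarith
  have hG : Complex.Gamma (s / 2) ≠ 0 := Complex.Gamma_ne_zero_of_re_pos hre
  have hp : (Real.pi : ℂ) ^ (-s / 2) ≠ 0 := by
    rw [Ne, Complex.cpow_eq_zero_iff]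
    exact fun h => hpi h.1
  have hdG0 : DifferentiableAt ℂ Complex.Gamma (s / 2) := by
    refine Complex.differentiableAt_Gamma _ ?_
    intro m h
    have h2 := congrArg Complex.re h
    have h3 : (-(m : ℂ)).re = -(m : ℝ) := by simp
    rw [h3] at h2
    have h4 : (0 : ℝ) ≤ m := Nat.cast_nonneg m
    linarith
  have hdh : DifferentiableAt ℂ (fun w : ℂ => w / 2) s := by fun_prop
  have hdG : DifferentiableAt ℂ (fun w : ℂ => Complex.Gamma (w / 2)) s :=
    DifferentiableAt.comp s (f := fun w : ℂ => w / 2) hdG0 hdh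
  have hdp : HasDerivAt (fun w : ℂ => (Real.pi : ℂ) ^ (-w / 2))
      ((Real.pi : ℂ) ^ (-s / 2) * Complex.log Real.pi * (-1 / 2)) s := by
    refine HasDerivAt.const_cpow ?_ (Or.inl hpi)
    exact (hasDerivAt_neg s).div_const 2
  have hev : (fun w : ℂ => w * (1 - w) * Gammaℝ w) =ᶠ[𝓝 s] fun w => w * ((1 - w) *
      ((Real.pi : ℂ) ^ (-w / 2) * Complex.Gamma (w / 2))) := by
    refine Filter.Eventually.of_forall fun w => ?_
    show w * (1 - w) * Gammaℝ w = _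
    rw [Gammaℝ_def]
    ring
  have hld := (logDeriv_congr_nhds hev).self_of_nhds
  have d3 : DifferentiableAt ℂ (fun w : ℂ => (Real.pi : ℂ) ^ (-w / 2) *
      Complex.Gamma (w / 2)) s := hdp.differentiableAt.mul hdG
  have d1 : DifferentiableAt ℂ (fun w : ℂ => 1 - w) s := by fun_prop
  have d2 : DifferentiableAt ℂ (fun w : ℂ => (1 - w) * ((Real.pi : ℂ) ^ (-w / 2) *
      Complex.Gamma (w / 2))) s := d1.mul d3
  have m1 : logDeriv (fun w : ℂ => w * ((1 - w) * ((Real.pi : ℂ) ^ (-w / 2) *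
      Complex.Gamma (w / 2)))) s = logDeriv (fun w : ℂ => w) s +
      logDeriv (fun w : ℂ => (1 - w) * ((Real.pi : ℂ) ^ (-w / 2) *
      Complex.Gamma (w / 2))) s :=
    logDeriv_mul (f := fun w : ℂ => w) s hs0
      (mul_ne_zero hs1' (mul_ne_zero hp hG)) differentiableAt_id d2
  have m2 : logDeriv (fun w : ℂ => (1 - w) * ((Real.pi : ℂ) ^ (-w / 2) *
      Complex.Gamma (w / 2))) s = logDeriv (fun w : ℂ => 1 - w) s +
      logDeriv (fun w : ℂ => (Real.pi : ℂ) ^ (-w / 2) * Complex.Gamma (w / 2)) s :=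
    logDeriv_mul (f := fun w : ℂ => 1 - w) s hs1' (mul_ne_zero hp hG) d1 d3
  have m3 : logDeriv (fun w : ℂ => (Real.pi : ℂ) ^ (-w / 2) * Complex.Gamma (w / 2)) s =
      logDeriv (fun w : ℂ => (Real.pi : ℂ) ^ (-w / 2)) s +
      logDeriv (fun w : ℂ => Complex.Gamma (w / 2)) s :=
    logDeriv_mul (f := fun w : ℂ => (Real.pi : ℂ) ^ (-w / 2)) s hp hG
      hdp.differentiableAt hdG
  have e1 : logDeriv (fun w : ℂ => w) s = 1 / s := by
    rw [logDeriv_apply]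
    simp
  have e2 : logDeriv (fun w : ℂ => 1 - w) s = 1 / (s - 1) := by
    rw [logDeriv_apply]
    have : deriv (fun w : ℂ => 1 - w) s = -1 := by
      rw [deriv_const_sub, deriv_id'']
    rw [this]
    field_simp
    ring
  have e3 : logDeriv (fun w : ℂ => (Real.pi : ℂ) ^ (-w / 2)) s =
      -((Real.log Real.pi : ℂ) / 2) := by
    rw [logDeriv_apply, hdp.deriv, ← Complex.ofReal_log Real.pi_pos.le]
    field_simp
  have e4 : logDeriv (fun w : ℂ => Complex.Gamma (w / 2)) s =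
      Complex.digamma (s / 2) / 2 := by
    have h := logDeriv_comp (f := Complex.Gamma) (g := fun w : ℂ => w / 2) (x := s) hdG0 hdh
    have hd : deriv (fun w : ℂ => w / 2) s = 1 / 2 := by
      simp
    rw [hd] at h
    have h' : logDeriv (fun w : ℂ => Complex.Gamma (w / 2)) s =
        logDeriv Complex.Gamma (s / 2) * (1 / 2) := h
    rw [h', Complex.digamma_def]
    ring
  rw [hld, m1, m2, m3, e1, e2, e3, e4]
  ring

private lemma GGam_tel {y : ℝ} (hy : 1 ≤ y) :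
    HasSum (fun n : ℕ => 3 / 2 * (1 / ((n : ℝ) + y - 1 / 2) - 1 / (((n + 1 : ℕ) : ℝ) + y - 1 / 2)))
      (3 / 2 * (1 / (y - 1 / 2))) := by
  have hnn : ∀ n : ℕ, 0 ≤ 3 / 2 * (1 / ((n : ℝ) + y - 1 / 2) -
      1 / (((n + 1 : ℕ) : ℝ) + y - 1 / 2)) := by
    intro n
    have hn : (0 : ℝ) ≤ n := Nat.cast_nonneg n
    have h1 : 0 < (n : ℝ) + y - 1 / 2 := by linarith
    have h2 : (n : ℝ) + y - 1 / 2 ≤ ((n + 1 : ℕ) : ℝ) + y - 1 / 2 := by
      push_cast
      linarith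
    have h3 := one_div_le_one_div_of_le h1 h2
    linarith
  rw [hasSum_iff_tendsto_nat_of_nonneg hnn]
  have hsum : ∀ N : ℕ, ∑ n ∈ Finset.range N, 3 / 2 * (1 / ((n : ℝ) + y - 1 / 2) -
      1 / (((n + 1 : ℕ) : ℝ) + y - 1 / 2)) =
      3 / 2 * (1 / (y - 1 / 2) - 1 / ((N : ℝ) + y - 1 / 2)) := by
    intro N
    rw [← Finset.mul_sum, Finset.sum_range_sub' (fun n : ℕ => 1 / ((n : ℝ) + y - 1 / 2))]
    simp
  simp_rw [hsum]
  have h1 : Tendsto (fun N : ℕ => 1 / ((N : ℝ) + y - 1 / 2)) atTop (𝓝 0) := by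
    have h2 : Tendsto (fun N : ℕ => (N : ℝ) + (y - 1 / 2)) atTop atTop :=
      tendsto_atTop_add_const_right _ _ tendsto_natCast_atTop_atTop
    have h3 := h2.inv_tendsto_atTop
    refine h3.congr fun N => ?_
    show ((N : ℝ) + (y - 1 / 2))⁻¹ = 1 / ((N : ℝ) + y - 1 / 2)
    have e : (N : ℝ) + (y - 1 / 2) = (N : ℝ) + y - 1 / 2 := by ring
    rw [e, inv_eq_one_div]
  have h4 := (tendsto_const_nhds (x := 1 / (y - 1 / 2))).sub h1
  rw [sub_zero] at h4
  exact h4.const_mul (3 / 2)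

private lemma GGam_norm {n y r : ℝ} (hn : 0 ≤ n) (hr : 0 ≤ r) {w : ℂ}
    (hw : w.re = n + r) (hi : w.im = y) : (n + y) ^ 2 / 2 ≤ ‖w‖ ^ 2 := by
  rw [← Complex.normSq_eq_norm_sq, Complex.normSq_apply, hw, hi]
  nlinarith [sq_nonneg (n - y), mul_nonneg hn hr, mul_nonneg hr hr]

private lemma GGam_dig {y : ℝ} (hy : 1 ≤ y) :
    ‖Complex.digamma (1 + y * I) - Complex.digamma (((1 / 4 : ℝ) : ℂ) + y * I)‖ ≤ 3 / y := by
  have hz1 : 0 < (1 + (y : ℂ) * I).re := by simp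
  have hz0 : 0 < (((1 / 4 : ℝ) : ℂ) + y * I).re := by simp
  have h1 := Pool.Agent.Lib.MP_ec260d_nt.digamma_hasSum hz1
  have h0 := Pool.Agent.Lib.MP_ec260d_nt.digamma_hasSum hz0
  have h := h1.sub h0
  have e : Complex.digamma (1 + y * I) + (Real.eulerMascheroniConstant : ℂ) -
      (Complex.digamma (((1 / 4 : ℝ) : ℂ) + y * I) + (Real.eulerMascheroniConstant : ℂ)) =
      Complex.digamma (1 + y * I) - Complex.digamma (((1 / 4 : ℝ) : ℂ) + y * I) := by ring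
  rw [e] at h
  have hb := HasSum.norm_le_of_bounded h (GGam_tel hy) (fun n => ?_)
  · refine hb.trans ?_
    rw [mul_one_div, div_le_div_iff₀ (by linarith) (by linarith)]
    linarith
  have hn : (0 : ℝ) ≤ n := Nat.cast_nonneg n
  set w1 : ℂ := (n : ℂ) + (1 + (y : ℂ) * I) with hw1
  set w0 : ℂ := (n : ℂ) + (((1 / 4 : ℝ) : ℂ) + y * I) with hw0
  have r1 : w1.re = n + 1 := by simp [hw1]
  have i1 : w1.im = y := by simp [hw1]
  have r0 : w0.re = n + 1 / 4 := by simp [hw0]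
  have i0 : w0.im = y := by simp [hw0]
  have n1 := GGam_norm hn zero_le_one r1 i1
  have n0 := GGam_norm hn (by norm_num : (0 : ℝ) ≤ 1 / 4) r0 i0
  have hw1' : w1 ≠ 0 := by
    intro h'
    rw [h', Complex.zero_im] at i1
    linarith
  have hw0' : w0 ≠ 0 := by
    intro h'
    rw [h', Complex.zero_im] at i0
    linarith
  have p1 : 0 < ‖w1‖ := norm_pos_iff.2 hw1'
  have p0 : 0 < ‖w0‖ := norm_pos_iff.2 hw0'
  have hny : 0 < (n : ℝ) + y := by linarith
  have e2 : 1 / ((n : ℂ) + 1) - 1 / w1 - (1 / ((n : ℂ) + 1) - 1 / w0) =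
      ((3 / 4 : ℝ) : ℂ) / (w0 * w1) := by
    have e3 : w1 - w0 = ((3 / 4 : ℝ) : ℂ) := by
      rw [hw1, hw0]
      push_cast
      ring
    rw [← e3]
    field_simp
    ring
  rw [e2, norm_div, norm_mul, Complex.norm_real, Real.norm_of_nonneg (by norm_num)]
  have hprod : ((n : ℝ) + y) ^ 2 / 2 ≤ ‖w0‖ * ‖w1‖ := by
    have h5 : (((n : ℝ) + y) ^ 2 / 2) ^ 2 ≤ (‖w0‖ * ‖w1‖) ^ 2 := by
      rw [mul_pow, sq (((n : ℝ) + y) ^ 2 / 2)]
      exact mul_le_mul n0 n1 (by positivity) (by positivity)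
    exact abs_le_of_sq_le_sq' h5 (by positivity) |>.2
  have hb1 : (3 / 4 : ℝ) / (‖w0‖ * ‖w1‖) ≤ 3 / 2 / ((n : ℝ) + y) ^ 2 := by
    rw [div_le_div_iff₀ (by positivity) (by positivity)]
    linarith
  refine hb1.trans ?_
  have h6 : 0 < (n : ℝ) + y - 1 / 2 := by linarith
  have h7 : 0 < ((n + 1 : ℕ) : ℝ) + y - 1 / 2 := by
    push_cast
    linarith
  have e4 : 1 / ((n : ℝ) + y - 1 / 2) - 1 / (((n + 1 : ℕ) : ℝ) + y - 1 / 2) =
      1 / (((n : ℝ) + y - 1 / 2) * (((n + 1 : ℕ) : ℝ) + y - 1 / 2)) := by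
    rw [div_sub_div _ _ h6.ne' h7.ne']
    congr 1
    push_cast
    ring
  rw [e4, div_eq_mul_one_div]
  refine mul_le_mul_of_nonneg_left ?_ (by norm_num)
  refine one_div_le_one_div_of_le (mul_pos h6 h7) ?_
  push_cast
  nlinarith

theorem gam_diff : ∃ C : ℝ, 0 ≤ C ∧ ∀ t : ℝ, 2 ≤ t →
    |(logDeriv (fun s : ℂ => s * (1 - s) * Gammaℝ s) (2 + t * I)).re -
      (logDeriv (fun s : ℂ => s * (1 - s) * Gammaℝ s) (((1 / 2 : ℝ) : ℂ) + t * I)).re| ≤ C / t := by
  refine ⟨7, by norm_num, fun t ht => ?_⟩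
  have ht0 : 0 < t := by linarith
  set s1 : ℂ := 2 + (t : ℂ) * I with hs1
  set s0 : ℂ := ((1 / 2 : ℝ) : ℂ) + (t : ℂ) * I with hs0
  have r1 : s1.re = 2 := by simp [hs1]
  have i1 : s1.im = t := by simp [hs1]
  have r0 : s0.re = 1 / 2 := by simp [hs0]
  have i0 : s0.im = t := by simp [hs0]
  have hl1 := GGam_logDeriv (s := s1) (by rw [r1]; norm_num) (by rw [i1]; exact ht0)
  have hl0 := GGam_logDeriv (s := s0) (by rw [r0]; norm_num) (by rw [i0]; exact ht0)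
  rw [hl1, hl0, ← Complex.sub_re]
  refine (Complex.abs_re_le_norm _).trans ?_
  have hinv : ∀ w : ℂ, w.im = t → ‖1 / w‖ ≤ 1 / t := by
    intro w hw
    rw [norm_div, norm_one]
    refine one_div_le_one_div_of_le ht0 ?_
    have h := Complex.abs_im_le_norm w
    rw [hw, abs_of_pos ht0] at h
    exact h
  have ha := hinv s1 i1
  have hb := hinv s0 i0
  have hc := hinv (s1 - 1) (by rw [Complex.sub_im, i1, Complex.one_im, sub_zero])
  have hd := hinv (s0 - 1) (by rw [Complex.sub_im, i0, Complex.one_im, sub_zero])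
  have hdig := GGam_dig (y := t / 2) (by linarith)
  have e1 : s1 / 2 = 1 + ((t / 2 : ℝ) : ℂ) * I := by
    rw [hs1]
    push_cast
    ring
  have e0 : s0 / 2 = ((1 / 4 : ℝ) : ℂ) + ((t / 2 : ℝ) : ℂ) * I := by
    rw [hs0]
    push_cast
    ring
  rw [← e1, ← e0] at hdig
  have e : 1 / s1 + 1 / (s1 - 1) - (Real.log Real.pi : ℂ) / 2 + Complex.digamma (s1 / 2) / 2 -
      (1 / s0 + 1 / (s0 - 1) - (Real.log Real.pi : ℂ) / 2 + Complex.digamma (s0 / 2) / 2) =
      ((1 / s1 - 1 / s0) + (1 / (s1 - 1) - 1 / (s0 - 1))) +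
        (Complex.digamma (s1 / 2) - Complex.digamma (s0 / 2)) / 2 := by ring
  rw [e]
  have hN : ‖(Complex.digamma (s1 / 2) - Complex.digamma (s0 / 2)) / 2‖ ≤ 3 / t := by
    rw [norm_div, RCLike.norm_ofNat]
    have h8 : 3 / (t / 2) = 2 * (3 / t) := by
      field_simp
    rw [h8] at hdig
    linarith
  have hA := norm_sub_le (1 / s1) (1 / s0)
  have hB := norm_sub_le (1 / (s1 - 1)) (1 / (s0 - 1))
  have hC := norm_add_le (1 / s1 - 1 / s0) (1 / (s1 - 1) - 1 / (s0 - 1))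
  have hD := norm_add_le ((1 / s1 - 1 / s0) + (1 / (s1 - 1) - 1 / (s0 - 1)))
    ((Complex.digamma (s1 / 2) - Complex.digamma (s0 / 2)) / 2)
  have h9 : 7 / t = 4 * (1 / t) + 3 / t := by ring
  rw [h9]
  linarith

private lemma GGam_dGam {s : ℂ} (hs : 0 < s.re) : DifferentiableAt ℂ Gammaℝ s := by
  have hpi : (Real.pi : ℂ) ≠ 0 := by exact_mod_cast Real.pi_ne_zero
  have hdG0 : DifferentiableAt ℂ Complex.Gamma (s / 2) := by
    refine Complex.differentiableAt_Gamma _ ?_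
    intro m h
    have h2 := congrArg Complex.re h
    have h3 : (-(m : ℂ)).re = -(m : ℝ) := by simp
    have h5 : (s / 2).re = s.re / 2 := by simp
    rw [h3, h5] at h2
    have h4 : (0 : ℝ) ≤ m := Nat.cast_nonneg m
    linarith
  have hdh : DifferentiableAt ℂ (fun w : ℂ => w / 2) s := by fun_prop
  have hdG : DifferentiableAt ℂ (fun w : ℂ => Complex.Gamma (w / 2)) s :=
    DifferentiableAt.comp s (f := fun w : ℂ => w / 2) hdG0 hdh
  have hdp : HasDerivAt (fun w : ℂ => (Real.pi : ℂ) ^ (-w / 2))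
      ((Real.pi : ℂ) ^ (-s / 2) * Complex.log Real.pi * (-1 / 2)) s := by
    refine HasDerivAt.const_cpow ?_ (Or.inl hpi)
    exact (hasDerivAt_neg s).div_const 2
  have hmul := hdp.differentiableAt.mul hdG
  refine hmul.congr_of_eventuallyEq (Filter.Eventually.of_forall fun w => ?_)
  show Gammaℝ w = (Real.pi : ℂ) ^ (-w / 2) * Complex.Gamma (w / 2)
  exact Gammaℝ_def w

theorem gam_green : ∃ C : ℝ, 0 ≤ C ∧ ∀ (φ φ1 φ2 : ℝ → ℝ) (A B : ℝ), Tst φ φ1 φ2 A B → 2 ≤ A → A ≤ B →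
    |BI (1 / 2) 2 A B (fun s => φ2 s.im * Real.log ‖s * (1 - s) * Gammaℝ s‖)| ≤
      C / A * ∫ t in A..B, |φ t| := by
  obtain ⟨C, hC, hdiff⟩ := gam_diff
  refine ⟨C, hC, fun φ φ1 φ2 A B h hA hAB => ?_⟩
  have hA0 : 0 < A := by linarith
  have hU : IsOpen {s : ℂ | 0 < s.re} := isOpen_lt continuous_const Complex.continuous_re
  have hdG : DifferentiableOn ℂ (fun s : ℂ => s * (1 - s) * Gammaℝ s) {s : ℂ | 0 < s.re} := by
    intro s hs
    have hs : 0 < s.re := hs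
    have h1 : DifferentiableAt ℂ Gammaℝ s := GGam_dGam hs
    have h2 : DifferentiableAt ℂ (fun s : ℂ => s * (1 - s)) s := by fun_prop
    exact (h2.mul h1).differentiableWithinAt
  have hg : ∀ s ∈ CB (1 / 2) 2 A B, AnalyticAt ℂ (fun s : ℂ => s * (1 - s) * Gammaℝ s) s ∧
      s * (1 - s) * Gammaℝ s ≠ 0 := by
    intro s hs
    have hre : 0 < s.re := lt_of_lt_of_le (by norm_num) hs.1
    have him : 0 < s.im := lt_of_lt_of_le hA0 hs.2.2.1
    refine ⟨hdG.analyticAt (hU.mem_nhds hre), ?_⟩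
    have hs0 : s ≠ 0 := by rintro rfl; simp at hre
    have hs1 : s ≠ 1 := by rintro rfl; simp at him
    exact mul_ne_zero (mul_ne_zero hs0 (sub_ne_zero.2 (Ne.symm hs1)))
      (Gammaℝ_ne_zero_of_re_pos hre)
  rw [green_harm h hAB (1 / 2) 2 (by norm_num) _ hg, abs_neg]
  have hint : IntervalIntegrable (fun t => C / A * |φ t|) volume A B :=
    (continuous_const.mul h.c0.abs).intervalIntegrable _ _
  have hle := intervalIntegral.norm_integral_le_of_norm_le (μ := volume) hAB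
    (f := fun t => φ t * ((logDeriv (fun s : ℂ => s * (1 - s) * Gammaℝ s) (((2 : ℝ) : ℂ) + t * I)).re -
      (logDeriv (fun s : ℂ => s * (1 - s) * Gammaℝ s) (((1 / 2 : ℝ) : ℂ) + t * I)).re))
    (g := fun t => C / A * |φ t|)
    (Filter.Eventually.of_forall fun t ht => ?_) hint
  · rw [intervalIntegral.integral_const_mul] at hle
    exact hle
  · have ht2 : A < t := ht.1
    have h3 := hdiff t (by linarith)
    rw [Complex.ofReal_ofNat]
    rw [norm_mul, Real.norm_eq_abs, Real.norm_eq_abs, mul_comm (C / A)]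
    refine mul_le_mul_of_nonneg_left (h3.trans ?_) (abs_nonneg _)
    exact div_le_div_of_nonneg_left hC hA0 ht2.le

end Pool.Agent.Lib.MP_ec260d_ntB
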