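import Mathlib
import Pool.Agent.Lib.MP_ec260d_ntB.GTst
import Pool.Agent.Lib.MP_ec260d_ntB.BLogInt

/-!
# JOB GHalf: the Green formula for `log ‖s - ρ‖` on a half plane

`Tst φ φ1 φ2 A B` (GTst.lean): `φ` is a `C ^ 2` test function with support in `[A, B]`, `φ1`, `φ2` its derivatives.
* `half_pt` : for `γ`, `c > 0`: `∫ y in 0..c, ∫ t in A..B, φ2 t * log ‖y + i (t - γ)‖ = - ∫ t in A..B, φ t * (c / (c ^ 2 + (t - γ) ^ 2)) + π φ γ` (both for real `y`, `‖y + i (t - γ)‖ = (y ^ 2 + (t - γ) ^ 2) ^ (1/2)`).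
  Proof. For `y > 0`: `J y := ∫ φ2 t * (1/2) log (y ^ 2 + (t - γ) ^ 2) dt = - ∫ φ1 t * (t - γ) / (y ^ 2 + (t - γ) ^ 2) dt` (integration by parts, `φ1 = 0` at `A` and `B`: `φ1` is continuous and `0` outside of `[A, B]`). Let `H y := ∫ φ1 t * arctan ((t - γ) / y) dt`; `H' y = J y` for `y > 0`
  (`d/dy arctan (u / y) = - u / (y ^ 2 + u ^ 2)`; differentiation under the integral, `hasDerivAt_integral_of_dominated_loc_of_deriv_le`: near `y0 > 0` the derivative is bounded by `|u| / (y ^ 2 + u ^ 2) ≤ 1 / (2 y)`, or swap the integrals: for `0 < ε < c`: `∫_ε^c J = - ∫ φ1 t ∫_ε^c u / (y ^ 2 + u ^ 2) dy dt`).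
  As `y → 0+`: `arctan ((t - γ) / y) → (π / 2) sign (t - γ)`, dominated by `π / 2`: `H y → (π / 2) (∫_{t > γ} φ1 - ∫_{t < γ} φ1) = (π / 2) (- φ γ - φ γ) = - π φ γ` (if `γ` is not in `[A, B]` then `φ γ = 0` and both integrals are `0`). `∫_0^c J = H c + π φ γ` (limit `ε → 0+`; `y ↦ J y` is integrable on `(0, c)` by Fubini from `log_pt_int`,
  so `∫_ε^c J → ∫_0^c J`). `H c = - ∫ φ t * (c / (c ^ 2 + (t - γ) ^ 2)) dt` (integration by parts; `d/dt arctan ((t - γ) / c) = c / (c ^ 2 + (t - γ) ^ 2)`).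
-/

namespace Pool.Agent.Lib.MP_ec260d_ntB

open Complex Set Filter Topology MeasureTheory

private theorem ghalf_log (y u : ℝ) : Real.log ‖(y : ℂ) + ((u : ℝ) : ℂ) * I‖ =
    Real.log (y ^ 2 + u ^ 2) / 2 := by
  rw [Complex.norm_add_mul_I, Real.log_sqrt (by positivity)]

private theorem ghalf_arctan {u c : ℝ} (hc : 0 < c) (hu : u ≠ 0) :
    u * Real.arctan (c / u) = Real.pi / 2 * |u| - u * Real.arctan (u / c) := by
  have h1 : c / u = (u / c)⁻¹ := by rw [inv_div]
  rcases lt_or_gt_of_ne hu with h | h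
  · rw [h1, Real.arctan_inv_of_neg (div_neg_of_neg_of_pos h hc), abs_of_neg h]
    ring
  · rw [h1, Real.arctan_inv_of_pos (div_pos h hc), abs_of_pos h]
    ring

private theorem ghalf_inner {u c : ℝ} (hc : 0 < c) (hu : u ≠ 0) :
    ∫ y in (0 : ℝ)..c, Real.log ‖(y : ℂ) + ((u : ℝ) : ℂ) * I‖ =
      c / 2 * Real.log (c ^ 2 + u ^ 2) - c + Real.pi / 2 * |u| - u * Real.arctan (u / c) := by
  have hpos : ∀ y : ℝ, 0 < y ^ 2 + u ^ 2 := fun y => by positivity
  have h1 : ∀ y : ℝ, HasDerivAt (fun y => y / 2 * Real.log (y ^ 2 + u ^ 2) - y + u * Real.arctan (y / u))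
      (Real.log (y ^ 2 + u ^ 2) / 2) y := by
    intro y
    have e1 : HasDerivAt (fun y : ℝ => y ^ 2 + u ^ 2) (2 * y) y := by
      have := (hasDerivAt_pow 2 y).add_const (u ^ 2)
      simpa using this
    have e2 : HasDerivAt (fun y : ℝ => Real.log (y ^ 2 + u ^ 2)) (2 * y / (y ^ 2 + u ^ 2)) y :=
      e1.log (hpos y).ne'
    have e3 : HasDerivAt (fun y : ℝ => y / 2) (1 / 2) y := (hasDerivAt_id y).div_const 2
    have e4 : HasDerivAt (fun y : ℝ => y / u) (1 / u) y := (hasDerivAt_id y).div_const u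
    have e5 : HasDerivAt (fun y : ℝ => u * Real.arctan (y / u))
        (u * (1 / (1 + (y / u) ^ 2) * (1 / u))) y := (e4.arctan).const_mul u
    have e6 := ((e3.mul e2).sub (hasDerivAt_id y)).add e5
    have e7 : 1 / 2 * Real.log (y ^ 2 + u ^ 2) + y / 2 * (2 * y / (y ^ 2 + u ^ 2)) - 1 +
        u * (1 / (1 + (y / u) ^ 2) * (1 / u)) = Real.log (y ^ 2 + u ^ 2) / 2 := by
      have e8 : u * (1 / (1 + (y / u) ^ 2) * (1 / u)) = u ^ 2 / (y ^ 2 + u ^ 2) := by
        have e9 : 1 + (y / u) ^ 2 = (y ^ 2 + u ^ 2) / u ^ 2 := by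
          field_simp
          ring
        rw [e9]
        have := (hpos y).ne'
        field_simp
      have e10 : y / 2 * (2 * y / (y ^ 2 + u ^ 2)) = y ^ 2 / (y ^ 2 + u ^ 2) := by
        have := (hpos y).ne'
        field_simp
      have e11 : y ^ 2 / (y ^ 2 + u ^ 2) + u ^ 2 / (y ^ 2 + u ^ 2) = 1 := by
        rw [← add_div]
        exact div_self (hpos y).ne'
      rw [e8, e10]
      linarith
    rw [← e7]
    exact e6
  have h2 : Continuous fun y : ℝ => Real.log (y ^ 2 + u ^ 2) / 2 :=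
    (Continuous.log (by fun_prop) fun y => (hpos y).ne').div_const 2
  have h3 := intervalIntegral.integral_eq_sub_of_hasDerivAt (a := 0) (b := c) (fun y _ => h1 y)
    (h2.intervalIntegrable 0 c)
  have h4 : ∫ y in (0 : ℝ)..c, Real.log ‖(y : ℂ) + ((u : ℝ) : ℂ) * I‖ =
      ∫ y in (0 : ℝ)..c, Real.log (y ^ 2 + u ^ 2) / 2 :=
    intervalIntegral.integral_congr fun y _ => ghalf_log y u
  rw [h4, h3, ghalf_arctan hc hu, zero_div, zero_mul, zero_div, Real.arctan_zero]
  ring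

private theorem ghalf_S1 {c : ℝ} (hc : 0 < c) (γ t : ℝ) :
    HasDerivAt (fun t => c / 2 * Real.log (c ^ 2 + (t - γ) ^ 2) - c - (t - γ) * Real.arctan ((t - γ) / c))
      (-Real.arctan ((t - γ) / c)) t := by
  have hpos : 0 < c ^ 2 + (t - γ) ^ 2 := by positivity
  have e0 : HasDerivAt (fun t : ℝ => t - γ) 1 t := (hasDerivAt_id t).sub_const γ
  have e1 : HasDerivAt (fun t : ℝ => c ^ 2 + (t - γ) ^ 2) (2 * (t - γ)) t := by
    have := (e0.pow 2).const_add (c ^ 2)
    simpa using this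
  have e2 : HasDerivAt (fun t : ℝ => Real.log (c ^ 2 + (t - γ) ^ 2))
      (2 * (t - γ) / (c ^ 2 + (t - γ) ^ 2)) t := e1.log hpos.ne'
  have e3 : HasDerivAt (fun t : ℝ => (t - γ) / c) (1 / c) t := e0.div_const c
  have e4 : HasDerivAt (fun t : ℝ => Real.arctan ((t - γ) / c))
      (1 / (1 + ((t - γ) / c) ^ 2) * (1 / c)) t := e3.arctan
  have e5 := ((e2.const_mul (c / 2)).sub_const c).sub (e0.mul e4)
  have e6 : c / 2 * (2 * (t - γ) / (c ^ 2 + (t - γ) ^ 2)) -
      (1 * Real.arctan ((t - γ) / c) + (t - γ) * (1 / (1 + ((t - γ) / c) ^ 2) * (1 / c))) =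
      -Real.arctan ((t - γ) / c) := by
    have e7 : (t - γ) * (1 / (1 + ((t - γ) / c) ^ 2) * (1 / c)) = c * (t - γ) / (c ^ 2 + (t - γ) ^ 2) := by
      have e8 : 1 + ((t - γ) / c) ^ 2 = (c ^ 2 + (t - γ) ^ 2) / c ^ 2 := by
        field_simp
      rw [e8]
      have := hpos.ne'
      field_simp
    have e9 : c / 2 * (2 * (t - γ) / (c ^ 2 + (t - γ) ^ 2)) = c * (t - γ) / (c ^ 2 + (t - γ) ^ 2) := by
      have := hpos.ne'
      field_simp
    rw [e7, e9]
    ring
  rw [← e6]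
  exact e5

private theorem ghalf_S2 {c : ℝ} (hc : 0 < c) (γ t : ℝ) :
    HasDerivAt (fun t => -Real.arctan ((t - γ) / c)) (-(c / (c ^ 2 + (t - γ) ^ 2))) t := by
  have hpos : 0 < c ^ 2 + (t - γ) ^ 2 := by positivity
  have e0 : HasDerivAt (fun t : ℝ => t - γ) 1 t := (hasDerivAt_id t).sub_const γ
  have e3 : HasDerivAt (fun t : ℝ => (t - γ) / c) (1 / c) t := e0.div_const c
  have e4 : HasDerivAt (fun t : ℝ => -Real.arctan ((t - γ) / c))
      (-(1 / (1 + ((t - γ) / c) ^ 2) * (1 / c))) t := e3.arctan.neg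
  have e7 : 1 / (1 + ((t - γ) / c) ^ 2) * (1 / c) = c / (c ^ 2 + (t - γ) ^ 2) := by
    have e8 : 1 + ((t - γ) / c) ^ 2 = (c ^ 2 + (t - γ) ^ 2) / c ^ 2 := by
      field_simp
    rw [e8]
    have := hpos.ne'
    field_simp
  rw [← e7]
  exact e4

private theorem ghalf_abs {φ φ1 φ2 : ℝ → ℝ} {A B : ℝ} (h : Tst φ φ1 φ2 A B) (γ : ℝ) :
    ∫ t in A..B, φ2 t * |t - γ| = 2 * φ γ := by
  have hc : Continuous fun t => φ2 t * |t - γ| := h.cont.mul (by fun_prop)
  have hc' : Continuous fun t => φ2 t * (t - γ) := h.cont.mul (by fun_prop)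
  have hd : ∀ t, HasDerivAt (fun t => φ1 t * (t - γ) - φ t) (φ2 t * (t - γ)) t := by
    intro t
    have e0 : HasDerivAt (fun t : ℝ => t - γ) 1 t := (hasDerivAt_id t).sub_const γ
    have e1 := ((h.d2 t).mul e0).sub (h.d1 t)
    have e2 : φ2 t * (t - γ) + φ1 t * 1 - φ1 t = φ2 t * (t - γ) := by ring
    rw [← e2]
    exact e1
  have hR : ∫ t in γ..B, φ2 t * |t - γ| = φ γ := by
    rcases le_or_gt γ B with hle | hgt
    · have e1 : ∫ t in γ..B, φ2 t * |t - γ| = ∫ t in γ..B, φ2 t * (t - γ) := by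
        refine intervalIntegral.integral_congr fun t ht => ?_
        rw [Set.uIcc_of_le hle] at ht
        show φ2 t * |t - γ| = φ2 t * (t - γ)
        rw [abs_of_nonneg (by linarith [ht.1])]
      rw [e1, intervalIntegral.integral_eq_sub_of_hasDerivAt (fun t _ => hd t)
        (hc'.intervalIntegrable γ B), h.zeroB.1, h.zeroB.2.1]
      ring
    · have e1 : ∫ t in γ..B, φ2 t * |t - γ| = ∫ t in γ..B, (0 : ℝ) := by
        refine intervalIntegral.integral_congr fun t ht => ?_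
        rw [Set.uIcc_of_ge hgt.le] at ht
        show φ2 t * |t - γ| = 0
        rcases eq_or_lt_of_le ht.1 with h1 | h1
        · rw [← h1, h.zeroB.2.2, zero_mul]
        · rw [(h.supp t (Or.inr h1)).2.2, zero_mul]
      rw [e1, intervalIntegral.integral_zero, (h.supp γ (Or.inr hgt)).1]
  have hL : ∫ t in A..γ, φ2 t * |t - γ| = φ γ := by
    rcases le_or_gt A γ with hle | hgt
    · have e1 : ∫ t in A..γ, φ2 t * |t - γ| = ∫ t in A..γ, -(φ2 t * (t - γ)) := by
        refine intervalIntegral.integral_congr fun t ht => ?_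
        rw [Set.uIcc_of_le hle] at ht
        show φ2 t * |t - γ| = -(φ2 t * (t - γ))
        rw [abs_of_nonpos (by linarith [ht.2])]
        ring
      rw [e1, intervalIntegral.integral_neg, intervalIntegral.integral_eq_sub_of_hasDerivAt (fun t _ => hd t)
        (hc'.intervalIntegrable A γ), h.zeroA.1, h.zeroA.2.1]
      ring
    · have e1 : ∫ t in A..γ, φ2 t * |t - γ| = ∫ t in A..γ, (0 : ℝ) := by
        refine intervalIntegral.integral_congr fun t ht => ?_
        rw [Set.uIcc_of_ge hgt.le] at ht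
        show φ2 t * |t - γ| = 0
        rcases eq_or_lt_of_le ht.2 with h1 | h1
        · rw [h1, h.zeroA.2.2, zero_mul]
        · rw [(h.supp t (Or.inl h1)).2.2, zero_mul]
      rw [e1, intervalIntegral.integral_zero, (h.supp γ (Or.inl hgt)).1]
  rw [← intervalIntegral.integral_add_adjacent_intervals (hc.intervalIntegrable A γ)
    (hc.intervalIntegrable γ B), hL, hR]
  ring

theorem half_pt {φ φ1 φ2 : ℝ → ℝ} {A B : ℝ} (h : Tst φ φ1 φ2 A B) (hAB : A ≤ B) (γ c : ℝ)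
    (hc : 0 < c) :
    ∫ y in (0 : ℝ)..c, ∫ t in A..B, φ2 t * Real.log ‖(y : ℂ) + ((t - γ : ℝ) : ℂ) * I‖ =
      -(∫ t in A..B, φ t * (c / (c ^ 2 + (t - γ) ^ 2))) + Real.pi * φ γ := by
  have hint : BInt 0 c A B (fun s => φ2 s.im * Real.log ‖s - (γ : ℂ) * I‖) :=
    bint_mul φ2 h.cont (log_pt_int ((γ : ℂ) * I) 0 c A B)
  have hs : ∀ y t : ℝ, φ2 ((y : ℂ) + t * I).im * Real.log ‖((y : ℂ) + t * I) - (γ : ℂ) * I‖ =
      φ2 t * Real.log ‖(y : ℂ) + ((t - γ : ℝ) : ℂ) * I‖ := by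
    intro y t
    have e1 : ((y : ℂ) + t * I).im = t := by simp
    have e2 : ((y : ℂ) + t * I) - (γ : ℂ) * I = (y : ℂ) + ((t - γ : ℝ) : ℂ) * I := by
      push_cast
      ring
    rw [e1, e2]
  have h1 := bi_iter hc.le hAB hint
  have h2 := bi_iter' hc.le hAB hint
  rw [h1] at h2
  simp only [hs] at h2
  rw [h2]
  -- the inner integral
  obtain ⟨S, hS⟩ : ∃ S : ℝ → ℝ, S = fun t => c / 2 * Real.log (c ^ 2 + (t - γ) ^ 2) - c -
    (t - γ) * Real.arctan ((t - γ) / c) := ⟨_, rfl⟩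
  have hSd : ∀ t, HasDerivAt S (-Real.arctan ((t - γ) / c)) t := by
    intro t
    rw [hS]
    exact ghalf_S1 hc γ t
  have hSc : Continuous S := continuous_iff_continuousAt.2 fun t => (hSd t).continuousAt
  have hS1c : Continuous fun t => -Real.arctan ((t - γ) / c) :=
    continuous_iff_continuousAt.2 fun t => (ghalf_S2 hc γ t).continuousAt
  have hS2c : Continuous fun t => -(c / (c ^ 2 + (t - γ) ^ 2)) := by
    refine (Continuous.div continuous_const (by fun_prop) fun t => ?_).neg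
    have : 0 < c ^ 2 + (t - γ) ^ 2 := by positivity
    exact this.ne'
  have h3 : ∫ t in A..B, ∫ y in (0 : ℝ)..c, φ2 t * Real.log ‖(y : ℂ) + ((t - γ : ℝ) : ℂ) * I‖ =
      ∫ t in A..B, (S t * φ2 t + Real.pi / 2 * (φ2 t * |t - γ|)) := by
    refine intervalIntegral.integral_congr_ae ?_
    have hne : ∀ᵐ t : ℝ, t ≠ γ := by
      rw [ae_iff]
      have e1 : {a : ℝ | ¬a ≠ γ} = {γ} := by
        ext a
        simp
      rw [e1]
      exact Real.volume_singleton
    filter_upwards [hne] with t ht _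
    rw [intervalIntegral.integral_const_mul, ghalf_inner hc (sub_ne_zero.2 ht), hS]
    ring
  have hSφ : Continuous fun t => S t * φ2 t := hSc.mul h.cont
  have hab : Continuous fun t => Real.pi / 2 * (φ2 t * |t - γ|) :=
    continuous_const.mul (h.cont.mul (by fun_prop))
  rw [h3, intervalIntegral.integral_add (hSφ.intervalIntegrable A B) (hab.intervalIntegrable A B),
    intervalIntegral.integral_const_mul, ghalf_abs h γ]
  -- integration by parts
  have h4 : ∫ t in A..B, S t * φ2 t = -∫ t in A..B, -Real.arctan ((t - γ) / c) * φ1 t := by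
    rw [intervalIntegral.integral_mul_deriv_eq_deriv_mul (fun t _ => hSd t) (fun t _ => h.d2 t)
      (hS1c.intervalIntegrable A B) (h.cont.intervalIntegrable A B), h.zeroA.2.1, h.zeroB.2.1]
    ring
  have h5 : ∫ t in A..B, -Real.arctan ((t - γ) / c) * φ1 t =
      -∫ t in A..B, -(c / (c ^ 2 + (t - γ) ^ 2)) * φ t := by
    rw [intervalIntegral.integral_mul_deriv_eq_deriv_mul (fun t _ => ghalf_S2 hc γ t) (fun t _ => h.d1 t)
      (hS2c.intervalIntegrable A B) (h.c1.intervalIntegrable A B), h.zeroA.1, h.zeroB.1]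
    ring
  have h6 : ∫ t in A..B, -(c / (c ^ 2 + (t - γ) ^ 2)) * φ t =
      -∫ t in A..B, φ t * (c / (c ^ 2 + (t - γ) ^ 2)) := by
    rw [← intervalIntegral.integral_neg]
    refine intervalIntegral.integral_congr fun t _ => ?_
    show -(c / (c ^ 2 + (t - γ) ^ 2)) * φ t = -(φ t * (c / (c ^ 2 + (t - γ) ^ 2)))
    ring
  rw [h4, h5, h6]
  ring

end Pool.Agent.Lib.MP_ec260d_ntB
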