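import Mathlib
import Pool.Agent.Lib.MP_ec260d_ntB.GHalf

/-!
# JOB GPt: the Green formula for `log ‖s - ρ‖`

* `green_pt`: `BI a b A B (..) = ∫ x in a..b, ∫ t in A..B, φ2 t * log ‖(x - ρ.re) + i (t - ρ.im)‖` (`bi_iter`, `log_pt_int`, `bint_mul`); split at `x = ρ.re`, substitute `x = ρ.re + y` on the right and `x = ρ.re - y` on the left (`‖-y + i u‖ = ‖y + i u‖`), `half_pt` with `c = b - ρ.re` and `c = ρ.re - a`.
-/

namespace Pool.Agent.Lib.MP_ec260d_ntB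

open Complex Set Filter Topology MeasureTheory


private theorem gpt_norm (y u : ℝ) : ‖-(y : ℂ) + (u : ℂ) * I‖ = ‖(y : ℂ) + (u : ℂ) * I‖ := by
  have h1 : -(y : ℂ) + (u : ℂ) * I = -((starRingEnd ℂ) ((y : ℂ) + (u : ℂ) * I)) := by
    simp only [map_add, map_mul, Complex.conj_ofReal, Complex.conj_I]
    ring
  rw [h1, norm_neg, Complex.norm_conj]

private theorem gpt_cont {φ : ℝ → ℝ} (hφ : Continuous φ) (c γ : ℝ) (hc : 0 < c) :
    Continuous fun t : ℝ => φ t * (c / (c ^ 2 + (t - γ) ^ 2)) := by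
  refine hφ.mul (continuous_const.div (by fun_prop) fun t => ?_)
  positivity

theorem green_pt {φ φ1 φ2 : ℝ → ℝ} {A B : ℝ} (h : Tst φ φ1 φ2 A B) (hAB : A ≤ B) (ρ : ℂ) (a b : ℝ)
    (ha : a < ρ.re) (hb : ρ.re < b) :
    BI a b A B (fun s => φ2 s.im * Real.log ‖s - ρ‖) =
      -(∫ t in A..B, φ t * ((b - ρ.re) / ((b - ρ.re) ^ 2 + (t - ρ.im) ^ 2) +
        (ρ.re - a) / ((ρ.re - a) ^ 2 + (t - ρ.im) ^ 2))) + 2 * Real.pi * φ ρ.im := by
  have hint : ∀ a' b' : ℝ, BInt a' b' A B (fun s => φ2 s.im * Real.log ‖s - ρ‖) := fun a' b' =>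
    bint_mul φ2 h.cont (log_pt_int ρ a' b' A B)
  rw [bi_split ha.le hb.le (hint a b), bi_iter ha.le hAB (hint a ρ.re),
    bi_iter hb.le hAB (hint ρ.re b)]
  set f : ℝ → ℝ := fun x => ∫ t in A..B, φ2 ((x : ℂ) + t * I).im * Real.log ‖(x : ℂ) + t * I - ρ‖
    with hf
  have hR : ∫ x in ρ.re..b, f x = -(∫ t in A..B, φ t * ((b - ρ.re) / ((b - ρ.re) ^ 2 + (t - ρ.im) ^ 2))) +
      Real.pi * φ ρ.im := by
    have h1 : ∫ x in ρ.re..b, f x = ∫ y in (0 : ℝ)..(b - ρ.re), f (y + ρ.re) := by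
      rw [intervalIntegral.integral_comp_add_right f ρ.re, zero_add, sub_add_cancel]
    rw [h1, ← half_pt h hAB ρ.im (b - ρ.re) (by linarith)]
    refine intervalIntegral.integral_congr fun y _ => ?_
    show f (y + ρ.re) = _
    rw [hf]
    refine intervalIntegral.integral_congr fun t _ => ?_
    have e1 : (((y + ρ.re : ℝ) : ℂ) + t * I).im = t := by simp
    have e2 : ((y + ρ.re : ℝ) : ℂ) + t * I - ρ = (y : ℂ) + ((t - ρ.im : ℝ) : ℂ) * I := by
      apply Complex.ext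
      · simp
      · simp
    show φ2 (((y + ρ.re : ℝ) : ℂ) + t * I).im * Real.log ‖((y + ρ.re : ℝ) : ℂ) + t * I - ρ‖ = _
    rw [e1, e2]
  have hLft : ∫ x in a..ρ.re, f x = -(∫ t in A..B, φ t * ((ρ.re - a) / ((ρ.re - a) ^ 2 + (t - ρ.im) ^ 2))) +
      Real.pi * φ ρ.im := by
    have h1 : ∫ x in a..ρ.re, f x = ∫ y in (0 : ℝ)..(ρ.re - a), f (ρ.re - y) := by
      rw [intervalIntegral.integral_comp_sub_left f ρ.re, sub_zero, sub_sub_cancel]
    rw [h1, ← half_pt h hAB ρ.im (ρ.re - a) (by linarith)]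
    refine intervalIntegral.integral_congr fun y _ => ?_
    show f (ρ.re - y) = _
    rw [hf]
    refine intervalIntegral.integral_congr fun t _ => ?_
    have e1 : (((ρ.re - y : ℝ) : ℂ) + t * I).im = t := by simp
    have e2 : ((ρ.re - y : ℝ) : ℂ) + t * I - ρ = -(y : ℂ) + ((t - ρ.im : ℝ) : ℂ) * I := by
      apply Complex.ext
      · simp
      · simp
    show φ2 (((ρ.re - y : ℝ) : ℂ) + t * I).im * Real.log ‖((ρ.re - y : ℝ) : ℂ) + t * I - ρ‖ = _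
    rw [e1, e2, gpt_norm]
  rw [hR, hLft]
  have hs : ∫ t in A..B, φ t * ((b - ρ.re) / ((b - ρ.re) ^ 2 + (t - ρ.im) ^ 2) +
        (ρ.re - a) / ((ρ.re - a) ^ 2 + (t - ρ.im) ^ 2)) =
      (∫ t in A..B, φ t * ((b - ρ.re) / ((b - ρ.re) ^ 2 + (t - ρ.im) ^ 2))) +
        ∫ t in A..B, φ t * ((ρ.re - a) / ((ρ.re - a) ^ 2 + (t - ρ.im) ^ 2)) := by
    rw [← intervalIntegral.integral_add
      ((gpt_cont h.c0 (b - ρ.re) ρ.im (by linarith)).intervalIntegrable _ _)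
      ((gpt_cont h.c0 (ρ.re - a) ρ.im (by linarith)).intervalIntegrable _ _)]
    refine intervalIntegral.integral_congr fun t _ => ?_
    exact mul_add _ _ _
  rw [hs]
  ring

end Pool.Agent.Lib.MP_ec260d_ntB
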