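import Mathlib
import Pool.Agent.Lib.MP_00e05b_nt.Star
import Pool.Agent.Lib.MP_ec260d_ntB.GHarm
import Pool.Agent.Lib.MP_ec260d_ntB.GPt

/-!
# JOB GXiF: the Green formula for `xi` on the strip `[-1, 2]`

`mx a = analyticOrderNatAt xi a` (MP_00e05b_nt/Star.lean), all zeros of `xi` have `0 < Re < 1` (`xi_zero_re`), `xi ≠ 0` for `Re s ≥ 1` (`xi_ne_zero`), `xi (1 - s) = xi s` (`xi_one_sub`), `xi (conj s) = conj (xi s)` (`xi_conj`).
* `green_xi_full`: `Z` = the zeros of `xi` in `CB (-1) 2 A B`. `exists_factor` (MP_00e05b_nt/Factor.lean): `xi z = (∏ ρ ∈ Z, (z - ρ) ^ mx ρ) * g z`, `g` entire, `g ≠ 0` on `Z`, so `g ≠ 0` on the box. Almost everywhere on the box (off `Z`) `log ‖xi s‖ = ∑ mx ρ * log ‖s - ρ‖ + log ‖g s‖`; multiply by `φ2 s.im` and integrate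
  (`bi_add`, finite sums, `bint_mul`, `log_pt_int`, `bint_cont`; an almost everywhere version of `bi_congr`: `setIntegral_congr_ae`), `green_pt` for every `ρ` (`-1 < 0 < ρ.re < 1 < 2`) and `green_harm` for `g`. On the lines `Re s = 2` and `Re s = -1` (where `xi ≠ 0`: for `Re s = -1` by `xi_one_sub`)
  `logDeriv xi s = ∑ mx ρ / (s - ρ) + logDeriv g s` (`logDeriv_mul`, `logDeriv_prod`, `logDeriv_pow` or similar) and `Re (1 / (b + i t - ρ)) = (b - ρ.re) / ((b - ρ.re) ^ 2 + (t - ρ.im) ^ 2)`, `- Re (1 / (a + i t - ρ)) = (ρ.re - a) / ((ρ.re - a) ^ 2 + (t - ρ.im) ^ 2)`.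
-/

namespace Pool.Agent.Lib.MP_ec260d_ntB

open Complex Set Filter Topology MeasureTheory
open Pool.Agent.Lib.MP_00e05b_nt (xi mx)

private theorem gxif_null (Z : Finset ℂ) : ∀ᵐ z : ℝ × ℝ, pt z ∉ Z := by
  have h1 : {z : ℝ × ℝ | pt z ∈ Z}.Finite := by
    have h2 : {z : ℝ × ℝ | pt z ∈ Z} ⊆ (fun s : ℂ => (s.re, s.im)) '' (Z : Set ℂ) := by
      intro z hz
      refine ⟨pt z, hz, ?_⟩
      show ((pt z).re, (pt z).im) = z
      rw [pt_re, pt_im]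
    exact (Z.finite_toSet.image _).subset h2
  rw [ae_iff]
  have h3 : {z : ℝ × ℝ | ¬ pt z ∉ Z} = {z : ℝ × ℝ | pt z ∈ Z} := by
    ext z
    simp
  rw [h3]
  exact h1.measure_zero volume

private theorem gxif_congr {a b A B : ℝ} {f g : ℂ → ℝ} (Z : Finset ℂ)
    (h : ∀ s ∈ CB a b A B, s ∉ Z → f s = g s) : BI a b A B f = BI a b A B g := by
  unfold BI
  refine setIntegral_congr_ae (bx_meas a b A B) ?_
  filter_upwards [gxif_null Z] with z hz hb using h _ (pt_mem.2 hb) hz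

private theorem gxif_sum {a b A B : ℝ} (Z : Finset ℂ) (F : ℂ → ℂ → ℝ)
    (hF : ∀ ρ ∈ Z, BInt a b A B (F ρ)) :
    BInt a b A B (fun s => ∑ ρ ∈ Z, F ρ s) ∧
      BI a b A B (fun s => ∑ ρ ∈ Z, F ρ s) = ∑ ρ ∈ Z, BI a b A B (F ρ) :=
  ⟨integrable_finsetSum Z hF, integral_finsetSum Z hF⟩

private theorem gxif_log {g : ℂ → ℂ} (Z : Finset ℂ)
    (hfg : ∀ z, xi z = (∏ a ∈ Z, (z - a) ^ mx a) * g z) {s : ℂ} (hs : s ∉ Z) (hg : g s ≠ 0) :
    Real.log ‖xi s‖ = ∑ ρ ∈ Z, (mx ρ : ℝ) * Real.log ‖s - ρ‖ + Real.log ‖g s‖ := by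
  have h1 : ∀ ρ ∈ Z, s - ρ ≠ 0 := by
    intro ρ hρ h
    rw [sub_eq_zero] at h
    exact hs (h ▸ hρ)
  have h2 : ∀ ρ ∈ Z, ‖(s - ρ) ^ mx ρ‖ ≠ 0 := fun ρ hρ =>
    norm_ne_zero_iff.2 (pow_ne_zero _ (h1 ρ hρ))
  rw [hfg, norm_mul, norm_prod, Real.log_mul (Finset.prod_ne_zero_iff.2 h2) (norm_ne_zero_iff.2 hg),
    Real.log_prod h2]
  congr 1
  refine Finset.sum_congr rfl fun ρ _ => ?_
  rw [norm_pow, Real.log_pow]

private theorem gxif_ld {g : ℂ → ℂ} (hg : Differentiable ℂ g) (Z : Finset ℂ)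
    (hfg : ∀ z, xi z = (∏ a ∈ Z, (z - a) ^ mx a) * g z) {s : ℂ} (hs : s ∉ Z) (hgs : g s ≠ 0) :
    (logDeriv xi s).re = ∑ ρ ∈ Z, (mx ρ : ℝ) *
      ((s.re - ρ.re) / ((s.re - ρ.re) ^ 2 + (s.im - ρ.im) ^ 2)) + (logDeriv g s).re := by
  have h1 : ∀ ρ ∈ Z, s - ρ ≠ 0 := by
    intro ρ hρ h
    rw [sub_eq_zero] at h
    exact hs (h ▸ hρ)
  have h2 : ∀ ρ ∈ Z, (s - ρ) ^ mx ρ ≠ 0 := fun ρ hρ => pow_ne_zero _ (h1 ρ hρ)
  have hd : ∀ ρ : ℂ, DifferentiableAt ℂ (fun z : ℂ => (z - ρ) ^ mx ρ) s := fun ρ => by fun_prop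
  have e : xi = fun z => (∏ a ∈ Z, (z - a) ^ mx a) * g z := funext hfg
  rw [e, logDeriv_mul s (Finset.prod_ne_zero_iff.2 h2) hgs
    (DifferentiableAt.fun_finsetProd fun ρ _ => hd ρ) (hg s), Complex.add_re]
  congr 1
  rw [logDeriv_prod h2 fun ρ _ => hd ρ, Complex.re_sum]
  refine Finset.sum_congr rfl fun ρ _ => ?_
  have h3 : DifferentiableAt ℂ (fun z : ℂ => z - ρ) s := by fun_prop
  rw [logDeriv_fun_pow h3, logDeriv_apply, deriv_sub_const, deriv_id'', one_div]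
  rw [Complex.mul_re, Complex.natCast_re, Complex.natCast_im, zero_mul, sub_zero, Complex.inv_re,
    Complex.sub_re, Complex.normSq_apply, Complex.sub_re, Complex.sub_im, pow_two, pow_two]

theorem green_xi_full {φ φ1 φ2 : ℝ → ℝ} {A B : ℝ} (h : Tst φ φ1 φ2 A B) (hAB : A ≤ B)
    (Z : Finset ℂ) (hZ : ∀ ρ : ℂ, ρ ∈ Z ↔ xi ρ = 0 ∧ A ≤ ρ.im ∧ ρ.im ≤ B) :
    BI (-1) 2 A B (fun s => φ2 s.im * Real.log ‖xi s‖) =
      -(∫ t in A..B, φ t * ((logDeriv xi (2 + t * I)).re - (logDeriv xi (-1 + t * I)).re)) +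
        2 * Real.pi * ∑ ρ ∈ Z, (mx ρ : ℝ) * φ ρ.im := by
  classical
  obtain ⟨g, hg, hfg', hgZ⟩ := Pool.Agent.Lib.MP_00e05b_nt.exists_factor
    Pool.Agent.Lib.MP_00e05b_nt.differentiable_xi (z₀ := 0)
    (by rw [Pool.Agent.Lib.MP_00e05b_nt.xi_zero]; norm_num) Z
  have hfg : ∀ z, xi z = (∏ a ∈ Z, (z - a) ^ mx a) * g z := hfg'
  have hgb : ∀ s : ℂ, A ≤ s.im → s.im ≤ B → g s ≠ 0 := by
    intro s h1 h2 h3
    have h4 : xi s = 0 := by rw [hfg, h3, mul_zero]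
    exact hgZ s ((hZ s).2 ⟨h4, h1, h2⟩) h3
  have hre : ∀ ρ ∈ Z, 0 < ρ.re ∧ ρ.re < 1 := fun ρ hρ =>
    Pool.Agent.Lib.MP_00e05b_nt.xi_zero_re ((hZ ρ).1 hρ).1
  -- step 1
  have e1 : BI (-1) 2 A B (fun s => φ2 s.im * Real.log ‖xi s‖) =
      BI (-1) 2 A B (fun s => (∑ ρ ∈ Z, (mx ρ : ℝ) * (φ2 s.im * Real.log ‖s - ρ‖)) +
        φ2 s.im * Real.log ‖g s‖) := by
    refine gxif_congr Z fun s hs hsZ => ?_
    rw [gxif_log Z hfg hsZ (hgb s hs.2.2.1 hs.2.2.2), mul_add, Finset.mul_sum]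
    congr 1
    refine Finset.sum_congr rfl fun ρ _ => ?_
    ring
  have i1 : ∀ ρ ∈ Z, BInt (-1) 2 A B
      ((fun ρ s => (mx ρ : ℝ) * (φ2 s.im * Real.log ‖s - ρ‖)) ρ) := fun ρ _ =>
    bint_const_mul _ (bint_mul φ2 h.cont (log_pt_int ρ (-1) 2 A B))
  obtain ⟨i2, e2⟩ := gxif_sum Z (fun ρ s => (mx ρ : ℝ) * (φ2 s.im * Real.log ‖s - ρ‖)) i1
  have i3 : BInt (-1) 2 A B (fun s => φ2 s.im * Real.log ‖g s‖) := by
    refine bint_mul φ2 h.cont (bint_cont ?_)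
    refine ContinuousOn.log hg.continuous.norm.continuousOn fun s hs => ?_
    exact norm_ne_zero_iff.2 (hgb s hs.2.2.1 hs.2.2.2)
  have e3 : BI (-1) 2 A B (fun s => (∑ ρ ∈ Z, (mx ρ : ℝ) * (φ2 s.im * Real.log ‖s - ρ‖)) +
        φ2 s.im * Real.log ‖g s‖) =
      BI (-1) 2 A B (fun s => ∑ ρ ∈ Z, (mx ρ : ℝ) * (φ2 s.im * Real.log ‖s - ρ‖)) +
        BI (-1) 2 A B (fun s => φ2 s.im * Real.log ‖g s‖) := bi_add i2 i3
  have e4 := green_harm h hAB (-1) 2 (by norm_num) g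
    fun s hs => ⟨hg.analyticAt s, hgb s hs.2.2.1 hs.2.2.2⟩
  set P : ℂ → ℝ → ℝ := fun ρ t => (2 - ρ.re) / ((2 - ρ.re) ^ 2 + (t - ρ.im) ^ 2) +
    (ρ.re - -1) / ((ρ.re - -1) ^ 2 + (t - ρ.im) ^ 2) with hP
  have e5 : ∀ ρ ∈ Z, BI (-1) 2 A B (fun s => (mx ρ : ℝ) * (φ2 s.im * Real.log ‖s - ρ‖)) =
      -((mx ρ : ℝ) * ∫ t in A..B, φ t * P ρ t) + 2 * Real.pi * ((mx ρ : ℝ) * φ ρ.im) := by
    intro ρ hρ
    rw [bi_const_mul, green_pt h hAB ρ (-1) 2 (by linarith [(hre ρ hρ).1])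
      (by linarith [(hre ρ hρ).2])]
    ring
  set G : ℝ → ℝ := fun t => (logDeriv g (((2 : ℝ) : ℂ) + t * I)).re -
    (logDeriv g (((-1 : ℝ) : ℂ) + t * I)).re with hG
  have hPc : ∀ ρ ∈ Z, Continuous fun t => φ t * P ρ t := by
    intro ρ hρ
    obtain ⟨h1, h2⟩ := hre ρ hρ
    have d1 : ∀ t : ℝ, (2 - ρ.re) ^ 2 + (t - ρ.im) ^ 2 ≠ 0 := fun t => by
      have : 0 < (2 - ρ.re) ^ 2 := by
        have : 0 < 2 - ρ.re := by linarith
        positivity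
      positivity
    have d2 : ∀ t : ℝ, (ρ.re - -1) ^ 2 + (t - ρ.im) ^ 2 ≠ 0 := fun t => by
      have : 0 < (ρ.re - -1) ^ 2 := by
        have : 0 < ρ.re - -1 := by linarith
        positivity
      positivity
    refine h.c0.mul (Continuous.add ?_ ?_)
    · exact continuous_const.div (by fun_prop) d1
    · exact continuous_const.div (by fun_prop) d2
  have hld : ∀ c : ℝ, ContinuousOn (fun t : ℝ => (logDeriv g ((c : ℂ) + t * I)).re) (Icc A B) := by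
    intro c
    have h1 : ContinuousOn (fun t : ℝ => logDeriv g ((c : ℂ) + t * I)) (Icc A B) := by
      have h2 : Continuous (deriv g) := hg.contDiff.continuous_deriv le_rfl
      have h3 : Continuous (fun t : ℝ => (c : ℂ) + t * I) := by fun_prop
      refine ContinuousOn.div (h2.comp h3).continuousOn (hg.continuous.comp h3).continuousOn ?_
      intro t ht
      refine hgb _ ?_ ?_
      · simpa using ht.1
      · simpa using ht.2
    exact Complex.continuous_re.comp_continuousOn h1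
  have hGi : IntervalIntegrable (fun t => φ t * G t) volume A B := by
    refine ContinuousOn.intervalIntegrable ?_
    rw [uIcc_of_le hAB]
    exact h.c0.continuousOn.mul ((hld 2).sub (hld (-1)))
  have hPi : ∀ ρ ∈ Z, IntervalIntegrable ((fun ρ t => (mx ρ : ℝ) * (φ t * P ρ t)) ρ) volume A B :=
    fun ρ hρ => ((hPc ρ hρ).const_mul _).intervalIntegrable _ _
  have e6 : ∫ t in A..B, φ t * ((logDeriv xi (2 + t * I)).re - (logDeriv xi (-1 + t * I)).re) =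
      ∫ t in A..B, ((∑ ρ ∈ Z, (mx ρ : ℝ) * (φ t * P ρ t)) + φ t * G t) := by
    refine intervalIntegral.integral_congr fun t ht => ?_
    rw [uIcc_of_le hAB] at ht
    have r2 : ((2 : ℂ) + t * I).re = 2 := by simp
    have m2 : ((2 : ℂ) + t * I).im = t := by simp
    have r1 : ((-1 : ℂ) + t * I).re = -1 := by simp
    have m1 : ((-1 : ℂ) + t * I).im = t := by simp
    have n2 : (2 : ℂ) + t * I ∉ Z := by
      intro hc
      have := (hre _ hc).2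
      rw [r2] at this
      linarith
    have n1 : (-1 : ℂ) + t * I ∉ Z := by
      intro hc
      have := (hre _ hc).1
      rw [r1] at this
      linarith
    have k2 := gxif_ld hg Z hfg n2 (hgb _ (by rw [m2]; exact ht.1) (by rw [m2]; exact ht.2))
    have k1 := gxif_ld hg Z hfg n1 (hgb _ (by rw [m1]; exact ht.1) (by rw [m1]; exact ht.2))
    rw [r2, m2] at k2
    rw [r1, m1] at k1
    have c2 : (((2 : ℝ) : ℂ) + t * I) = 2 + t * I := by push_cast; rfl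
    have c1 : (((-1 : ℝ) : ℂ) + t * I) = -1 + t * I := by push_cast; rfl
    simp only [hG, hP]
    rw [k2, k1, c2, c1]
    have s1 : ∑ ρ ∈ Z, (mx ρ : ℝ) * (φ t * ((2 - ρ.re) / ((2 - ρ.re) ^ 2 + (t - ρ.im) ^ 2) +
        (ρ.re - -1) / ((ρ.re - -1) ^ 2 + (t - ρ.im) ^ 2))) =
        φ t * (∑ ρ ∈ Z, (mx ρ : ℝ) * ((2 - ρ.re) / ((2 - ρ.re) ^ 2 + (t - ρ.im) ^ 2)) -
          ∑ ρ ∈ Z, (mx ρ : ℝ) * ((-1 - ρ.re) / ((-1 - ρ.re) ^ 2 + (t - ρ.im) ^ 2))) := by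
      rw [← Finset.sum_sub_distrib, Finset.mul_sum]
      refine Finset.sum_congr rfl fun ρ _ => ?_
      have q1 : (ρ.re - -1) / ((ρ.re - -1) ^ 2 + (t - ρ.im) ^ 2) =
          -((-1 - ρ.re) / ((-1 - ρ.re) ^ 2 + (t - ρ.im) ^ 2)) := by
        have q2 : (ρ.re - -1) ^ 2 = (-1 - ρ.re) ^ 2 := by ring
        rw [q2, ← neg_div]
        congr 1
        ring
      rw [q1]
      ring
    rw [s1]
    ring
  have e7 : ∫ t in A..B, ((∑ ρ ∈ Z, (mx ρ : ℝ) * (φ t * P ρ t)) + φ t * G t) =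
      (∑ ρ ∈ Z, (mx ρ : ℝ) * ∫ t in A..B, φ t * P ρ t) + ∫ t in A..B, φ t * G t := by
    have i4 : IntervalIntegrable (fun t => ∑ ρ ∈ Z, (mx ρ : ℝ) * (φ t * P ρ t)) volume A B := by
      refine Continuous.intervalIntegrable ?_ _ _
      exact continuous_finsetSum Z fun ρ hρ => (hPc ρ hρ).const_mul _
    rw [intervalIntegral.integral_add i4 hGi,
      intervalIntegral.integral_finsetSum (f := fun ρ t => (mx ρ : ℝ) * (φ t * P ρ t)) hPi]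
    congr 1
    refine Finset.sum_congr rfl fun ρ _ => ?_
    exact intervalIntegral.integral_const_mul _ _
  rw [e1, e3, e2, e4, e6, e7, Finset.sum_congr rfl e5, Finset.sum_add_distrib,
    Finset.sum_neg_distrib, ← Finset.mul_sum]
  ring

end Pool.Agent.Lib.MP_ec260d_ntB
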