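import Mathlib
import Pool.Agent.Lib.MP_ec260d_nt.Conj
import Pool.Agent.Lib.MP_ec260d_ntB.BLogXi
import Pool.Agent.Lib.MP_ec260d_ntB.GXiF

/-!
# JOB GXi: the Green formula for `xi` on the strip `[1/2, 2]`

`mx a = analyticOrderNatAt xi a` (MP_00e05b_nt/Star.lean), all zeros of `xi` have `0 < Re < 1` (`xi_zero_re`), `xi ≠ 0` for `Re s ≥ 1` (`xi_ne_zero`), `xi (1 - s) = xi s` (`xi_one_sub`), `xi (conj s) = conj (xi s)` (`xi_conj`).
* `green_xi`: (1) `Re (logDeriv xi (-1 + i t)) = - Re (logDeriv xi (2 + i t))`: `logDeriv xi (1 - s) = - logDeriv xi s` (differentiate `xi_one_sub`), `1 - (-1 + i t) = 2 - i t = conj (2 + i t)`, `logDeriv xi (conj s) = conj (logDeriv xi s)` (see the private `logDeriv_conj` in MP_ec260d_nt/RePart.lean; copy its proof).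
  (2) `BI (-1) 2 A B (φ2 log ‖xi‖) = 2 BI (1/2) 2 A B (φ2 log ‖xi‖)`: `bi_split` at `1/2`, `bi_iter`, substitution `x = 1 - x'` and `‖xi (1 - x + i t)‖ = ‖xi (x - i t)‖ = ‖xi (x + i t)‖` (`xi_one_sub`, `xi_conj`). `log_int_xi` and `bint_mul` for integrability. Divide by 2.
-/

namespace Pool.Agent.Lib.MP_ec260d_ntB

open Complex Set Filter Topology MeasureTheory
open Pool.Agent.Lib.MP_00e05b_nt (xi mx)

private theorem gxi_conj (z : ℂ) :
    logDeriv xi ((starRingEnd ℂ) z) = (starRingEnd ℂ) (logDeriv xi z) := by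
  have h1 : (starRingEnd ℂ) ∘ xi ∘ (starRingEnd ℂ) = xi := by
    funext s
    simp only [Function.comp_apply]
    rw [Pool.Agent.Lib.MP_ec260d_nt.xi_conj, Complex.conj_conj]
  have h2 : deriv xi ((starRingEnd ℂ) z) = (starRingEnd ℂ) (deriv xi z) := by
    have h3 := congrFun (deriv_conj_conj (f := xi)) ((starRingEnd ℂ) z)
    rw [h1] at h3
    rw [h3]
    simp
  rw [logDeriv_apply, logDeriv_apply, h2, Pool.Agent.Lib.MP_ec260d_nt.xi_conj, map_div₀]

private theorem gxi_sub (s : ℂ) : logDeriv xi (1 - s) = -logDeriv xi s := by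
  have h1 : (fun x : ℂ => xi (1 - x)) = xi := by
    funext x
    exact Pool.Agent.Lib.MP_00e05b_nt.xi_one_sub x
  have h2 := deriv_comp_const_sub (f := xi) (a := 1) (x := s)
  rw [h1] at h2
  rw [logDeriv_apply, logDeriv_apply, Pool.Agent.Lib.MP_00e05b_nt.xi_one_sub, h2]
  ring

private theorem gxi_re (t : ℝ) :
    (logDeriv xi (-1 + t * I)).re = -(logDeriv xi (2 + t * I)).re := by
  have e : (-1 + (t : ℂ) * I) = 1 - (starRingEnd ℂ) (2 + (t : ℂ) * I) := by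
    rw [map_add, map_mul, Complex.conj_ofReal, Complex.conj_I, Complex.conj_ofNat]
    ring
  rw [e, gxi_sub, gxi_conj, Complex.neg_re, Complex.conj_re]

private theorem gxi_norm (x t : ℝ) :
    ‖xi (((1 - x : ℝ) : ℂ) + (t : ℂ) * I)‖ = ‖xi ((x : ℂ) + (t : ℂ) * I)‖ := by
  have e : (((1 - x : ℝ) : ℂ) + (t : ℂ) * I) = 1 - (starRingEnd ℂ) ((x : ℂ) + (t : ℂ) * I) := by
    rw [map_add, map_mul, Complex.conj_ofReal, Complex.conj_ofReal, Complex.conj_I]
    push_cast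
    ring
  rw [e, Pool.Agent.Lib.MP_00e05b_nt.xi_one_sub, Pool.Agent.Lib.MP_ec260d_nt.xi_conj, Complex.norm_conj]

theorem green_xi {φ φ1 φ2 : ℝ → ℝ} {A B : ℝ} (h : Tst φ φ1 φ2 A B) (hAB : A ≤ B)
    (Z : Finset ℂ) (hZ : ∀ ρ : ℂ, ρ ∈ Z ↔ xi ρ = 0 ∧ A ≤ ρ.im ∧ ρ.im ≤ B) :
    Real.pi * ∑ ρ ∈ Z, (mx ρ : ℝ) * φ ρ.im =
      (∫ t in A..B, φ t * (logDeriv xi (2 + t * I)).re) +
        BI (1 / 2) 2 A B (fun s => φ2 s.im * Real.log ‖xi s‖) := by
  have h1 := green_xi_full h hAB Z hZ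
  have hint : BInt (-1) 2 A B (fun s => φ2 s.im * Real.log ‖xi s‖) :=
    bint_mul φ2 h.cont (log_int_xi (-1) 2 A B)
  have hs := bi_split (a := -1) (m := 1 / 2) (b := 2) (by norm_num) (by norm_num) hint
  have hl : BI (-1) (1 / 2) A B (fun s => φ2 s.im * Real.log ‖xi s‖) =
      BI (1 / 2) 2 A B (fun s => φ2 s.im * Real.log ‖xi s‖) := by
    rw [bi_iter (by norm_num) hAB (bint_mono hint le_rfl (by norm_num) le_rfl le_rfl),
      bi_iter (by norm_num) hAB (bint_mono hint (by norm_num) le_rfl le_rfl le_rfl)]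
    have h2 := intervalIntegral.integral_comp_sub_left (a := 1 / 2) (b := 2)
      (fun x : ℝ => ∫ t in A..B, φ2 (((x : ℂ) + t * I)).im * Real.log ‖xi ((x : ℂ) + t * I)‖) 1
    have e1 : (1 : ℝ) - 2 = -1 := by norm_num
    have e2 : (1 : ℝ) - 1 / 2 = 1 / 2 := by norm_num
    rw [e1, e2] at h2
    rw [← h2]
    refine intervalIntegral.integral_congr fun x _ => ?_
    refine intervalIntegral.integral_congr fun t _ => ?_
    show φ2 ((((1 - x : ℝ) : ℂ) + t * I)).im * Real.log ‖xi (((1 - x : ℝ) : ℂ) + t * I)‖ =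
      φ2 (((x : ℂ) + t * I)).im * Real.log ‖xi ((x : ℂ) + t * I)‖
    rw [gxi_norm]
    congr 2
  have hr : (∫ t in A..B, φ t * ((logDeriv xi (2 + t * I)).re - (logDeriv xi (-1 + t * I)).re)) =
      2 * ∫ t in A..B, φ t * (logDeriv xi (2 + t * I)).re := by
    rw [← intervalIntegral.integral_const_mul]
    refine intervalIntegral.integral_congr fun t _ => ?_
    show φ t * ((logDeriv xi (2 + t * I)).re - (logDeriv xi (-1 + t * I)).re) =
      2 * (φ t * (logDeriv xi (2 + t * I)).re)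
    rw [gxi_re]
    ring
  rw [hs, hl, hr] at h1
  linarith

end Pool.Agent.Lib.MP_ec260d_ntB
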