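import Mathlib
import Pool.Agent.Lib.MP_ec260d_nt.Theta
import Pool.Agent.Lib.MP_ec260d_ntB.GArg
import Pool.Agent.Lib.MP_ec260d_ntB.GGam
import Pool.Agent.Lib.MP_ec260d_ntB.GXi

/-!
# JOB GCnt: the smoothed number of zeros

`φ = stp T u1 - stp T u2` (`stp_tst`, `stp_bd`), `A = u1 - hT T`, `B = u2`, `T/4 ≤ A` for `T` large.
* `cnt_smooth`: `green_xi` with this `φ`: `π ∑ mx ρ φ(Im ρ) = ∫ φ Re (logDeriv xi (2 + i t)) + BI (1/2) 2 A B (φ2 log ‖xi‖)`. On the box `xi s = (s (1 - s) Gammaℝ s) ζ s` (`xi_eq_zeta`), so `log ‖xi s‖ = log ‖s (1 - s) Gammaℝ s‖ + log ‖ζ s‖` wherever `ζ s ≠ 0`, so almost everywhere on the box (finitely many zeros) ; linearity (`bint_mul`, `log_int_zeta`,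
  `log_int_xi`): the last term is `(≤ C by gam_green: (C/A) ∫ |φ| ≤ (4 C / T) (4 T)) + π (Lam T u1 - Lam T u2)` (`lam_eq`). The first: `Theta_R` (MP_ec260d_nt/Theta.lean): `Re (logDeriv xi (2 + i t)) = Re (logDeriv ζ (2 + i t)) + (- (log π)/2 + (1/2) log (1 + t/2)) + O(1/(1 + t))`,
  `- (log π)/2 + (1/2) log (1 + t/2) = (1/2) log (t/(2 π)) + O(1/t)` (`log (1 + t/2) - log (t/2) = log (1 + 2/t) ≤ 2/t`), `arg_part`, `main_part` times `π`, and `∫ |φ| O(1/t) ≤ C` (`∫_{T/4}^{4 T} 1/t = log 16`). Divide by `π`.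
-/

namespace Pool.Agent.Lib.MP_ec260d_ntB

open Complex Set Filter Topology MeasureTheory
open Pool.Agent.Lib.MP_00e05b_nt (xi mx)

private theorem gcnt_pt_inj : Function.Injective pt := by
  intro z w h
  have h1 := congrArg Complex.re h
  have h2 := congrArg Complex.im h
  rw [pt_re, pt_re] at h1
  rw [pt_im, pt_im] at h2
  exact Prod.ext h1 h2

private theorem gcnt_ae {A B : ℝ} (hA : 0 < A) (Z : Finset ℂ)
    (hZ : ∀ ρ : ℂ, ρ ∈ Z ↔ xi ρ = 0 ∧ A ≤ ρ.im ∧ ρ.im ≤ B) :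
    ∀ᵐ z ∂(volume.restrict (bx (1 / 2) 2 A B)),
      Real.log ‖xi (pt z)‖ = Real.log ‖pt z * (1 - pt z) * Gammaℝ (pt z)‖ +
        Real.log ‖riemannZeta (pt z)‖ := by
  have hfin : (pt ⁻¹' (Z : Set ℂ)).Finite := Z.finite_toSet.preimage gcnt_pt_inj.injOn
  have h0 : ∀ᵐ z ∂(volume : Measure (ℝ × ℝ)), z ∉ pt ⁻¹' (Z : Set ℂ) :=
    measure_eq_zero_iff_ae_notMem.1 (hfin.measure_zero _)
  refine (ae_restrict_iff' (bx_meas _ _ _ _)).2 ?_
  filter_upwards [h0] with z hz hb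
  have hb2 := pt_mem.2 hb
  have him : 0 < (pt z).im := lt_of_lt_of_le hA hb2.2.2.1
  have hre : 0 < (pt z).re := lt_of_lt_of_le (by norm_num) hb2.1
  have hz0 : pt z ≠ 0 := by
    intro h
    rw [h, Complex.zero_im] at him
    exact lt_irrefl _ him
  have hz1 : pt z ≠ 1 := by
    intro h
    rw [h, Complex.one_im] at him
    exact lt_irrefl _ him
  have hx := Pool.Agent.Lib.MP_00e05b_nt.xi_eq_zeta hre hz1
  have hxn : xi (pt z) ≠ 0 := fun h => hz ((hZ _).2 ⟨h, hb2.2.2.1, hb2.2.2.2⟩)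
  have hzn : riemannZeta (pt z) ≠ 0 := by
    intro h
    rw [h, mul_zero] at hx
    exact hxn hx
  have hgn : pt z * (1 - pt z) * Gammaℝ (pt z) ≠ 0 :=
    mul_ne_zero (mul_ne_zero hz0 (sub_ne_zero.2 (Ne.symm hz1))) (Gammaℝ_ne_zero_of_re_pos hre)
  rw [hx, norm_mul, Real.log_mul (norm_ne_zero_iff.2 hgn) (norm_ne_zero_iff.2 hzn)]

private theorem gcnt_split {A B : ℝ} (hA : 0 < A) (Z : Finset ℂ)
    (hZ : ∀ ρ : ℂ, ρ ∈ Z ↔ xi ρ = 0 ∧ A ≤ ρ.im ∧ ρ.im ≤ B) {ψ : ℝ → ℝ} (hψ : Continuous ψ) :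
    BI (1 / 2) 2 A B (fun s => ψ s.im * Real.log ‖xi s‖) =
      BI (1 / 2) 2 A B (fun s => ψ s.im * Real.log ‖s * (1 - s) * Gammaℝ s‖) +
      BI (1 / 2) 2 A B (fun s => ψ s.im * Real.log ‖riemannZeta s‖) := by
  have hae := gcnt_ae hA Z hZ
  have hx : BInt (1 / 2) 2 A B (fun s => Real.log ‖xi s‖) := log_int_xi _ _ _ _
  have hz : BInt (1 / 2) 2 A B (fun s => Real.log ‖riemannZeta s‖) := log_int_zeta A B hA
  have hg : BInt (1 / 2) 2 A B (fun s => Real.log ‖s * (1 - s) * Gammaℝ s‖) := by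
    have h1 := bint_sub hx hz
    refine Integrable.congr h1 ?_
    filter_upwards [hae] with z hz1
    rw [hz1]
    ring
  rw [← bi_add (bint_mul ψ hψ hg) (bint_mul ψ hψ hz)]
  unfold BI
  refine integral_congr_ae ?_
  filter_upwards [hae] with z hz1
  rw [hz1]
  ring

private theorem gcnt_m {C t : ℝ} (ht : 0 < t) {w z : ℝ}
    (h : |w - z - (-(Real.log Real.pi / 2) + 1 / 2 * Real.log (1 + t / 2))| ≤ C / (1 + t))
    (hC : 0 ≤ C) :
    |w - z - Real.pi * (1 / (2 * Real.pi) * Real.log (t / (2 * Real.pi)))| ≤ (C + 1) / t := by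
  have hpi := Real.pi_pos
  have h1 : Real.pi * (1 / (2 * Real.pi) * Real.log (t / (2 * Real.pi))) =
      1 / 2 * (Real.log (t / 2) - Real.log Real.pi) := by
    have e1 : t / (2 * Real.pi) = t / 2 / Real.pi := by rw [div_div]
    rw [e1, Real.log_div (by positivity) (by positivity)]
    field_simp
  have h2 : Real.log (1 + t / 2) - Real.log (t / 2) = Real.log (1 + 2 / t) := by
    rw [← Real.log_div (by positivity) (by positivity)]
    congr 1
    field_simp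
    ring
  have h3 : Real.log (1 + 2 / t) ≤ 2 / t := by
    have := Real.log_le_sub_one_of_pos (show 0 < 1 + 2 / t by positivity)
    linarith
  have h4 : 0 ≤ Real.log (1 + 2 / t) := Real.log_nonneg (by
    have : 0 < 2 / t := by positivity
    linarith)
  have h5 : C / (1 + t) ≤ C / t := by
    apply div_le_div_of_nonneg_left hC ht
    linarith
  have h6 : (C + 1) / t = C / t + 1 / 2 * (2 / t) := by field_simp
  rw [h1, h6]
  have h7 : w - z - 1 / 2 * (Real.log (t / 2) - Real.log Real.pi) =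
      (w - z - (-(Real.log Real.pi / 2) + 1 / 2 * Real.log (1 + t / 2))) +
      1 / 2 * Real.log (1 + 2 / t) := by
    rw [← h2]
    ring
  rw [h7]
  refine (abs_add_le _ _).trans ?_
  rw [abs_of_nonneg (mul_nonneg (by norm_num : (0:ℝ) ≤ 1 / 2) h4)]
  linarith

theorem cnt_smooth : ∃ C T₀ : ℝ, 0 ≤ C ∧ 2 ≤ T₀ ∧ ∀ T : ℝ, T₀ ≤ T → ∀ u1 u2 : ℝ, T / 2 ≤ u1 → u1 ≤ u2 →
    u2 ≤ 4 * T → ∀ Z : Finset ℂ, (∀ ρ : ℂ, ρ ∈ Z ↔ xi ρ = 0 ∧ u1 - hT T ≤ ρ.im ∧ ρ.im ≤ u2) →
    |∑ ρ ∈ Z, (mx ρ : ℝ) * (stp T u1 ρ.im - stp T u2 ρ.im) - (LL u2 - LL u1) -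
      (Lam T u1 - Lam T u2)| ≤ C := by
  obtain ⟨C1, T1, hC1, hT1, h1⟩ := arg_part
  obtain ⟨C2, T2, hC2, hT2, h2⟩ := main_part
  obtain ⟨C3, hC3, h3⟩ := Pool.Agent.Lib.MP_ec260d_nt.Theta_R
  obtain ⟨C4, hC4, h4⟩ := gam_green
  obtain ⟨T3, hT3, h5⟩ := hT_small 1 one_pos
  have hpi := Real.pi_pos
  refine ⟨(C1 + Real.pi * C2 + 16 * (C3 + 1) + 16 * C4) / Real.pi,
    max (max T1 T2) (max T3 8), by positivity, ?_, ?_⟩
  · exact le_trans hT1 (le_trans (le_max_left _ _) (le_max_left _ _))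
  intro T hTT u1 u2 hu1 hu hu2 Z hZ
  have g1 : T1 ≤ T := le_trans (le_trans (le_max_left _ _) (le_max_left _ _)) hTT
  have g2 : T2 ≤ T := le_trans (le_trans (le_max_right _ _) (le_max_left _ _)) hTT
  have g3 : T3 ≤ T := le_trans (le_trans (le_max_left _ _) (le_max_right _ _)) hTT
  have g4 : 8 ≤ T := le_trans (le_trans (le_max_right _ _) (le_max_right _ _)) hTT
  have gT : 2 ≤ T := by linarith
  have hh := h5 T g3
  have hhp := hT_pos gT
  have hTp : 0 < T := by linarith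
  obtain ⟨A, hA⟩ : ∃ A : ℝ, A = u1 - hT T := ⟨_, rfl⟩
  have hAT : T / 4 ≤ A := by rw [hA]; linarith
  have hA2 : 2 ≤ A := by linarith
  have hAp : 0 < A := by linarith
  have hAB : A ≤ u2 := by rw [hA]; linarith
  have hB4 : u2 - A ≤ 4 * T := by linarith
  have hB0 : 0 ≤ u2 - A := by linarith
  have htst := stp_tst gT hu
  have hbd := stp_bd gT hu
  have k1 := h1 T g1 u1 u2 hu1 hu
  have k2 := h2 T g2 u1 u2 hu1 hu hu2
  have kl := lam_eq gT hu (by rw [← hA]; exact hAp)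
  have kg := h4 _ _ _ _ _ htst (by rw [← hA]; exact hA2) (by rw [← hA]; exact hAB)
  have kx := green_xi htst (by rw [← hA]; exact hAB) Z hZ
  rw [← hA] at k1 k2 kl kg kx hZ htst
  have ksp := gcnt_split hAp Z hZ htst.cont
  obtain ⟨φ, hφ⟩ : ∃ φ : ℝ → ℝ, φ = fun t => stp T u1 t - stp T u2 t := ⟨_, rfl⟩
  have hφc : Continuous φ := by rw [hφ]; exact htst.c0
  have hφ0 : ∀ t, |φ t| ≤ 1 := by
    intro t
    rw [hφ]
    have := hbd t
    exact abs_le.2 ⟨by linarith [this.1], this.2.1⟩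
  have hφt : ∀ t, φ t = stp T u1 t - stp T u2 t := by
    intro t
    rw [hφ]
  simp only [← hφt] at k1 k2 kx kg ⊢
  rw [ksp] at kx
  have hgam : |BI (1 / 2) 2 A u2 (fun s => (stp2 T u1 s.im - stp2 T u2 s.im) *
      Real.log ‖s * (1 - s) * Gammaℝ s‖)| ≤ 16 * C4 := by
    refine kg.trans ?_
    have e1 : ∫ t in A..u2, |φ t| ≤ ∫ t in A..u2, (1 : ℝ) :=
      intervalIntegral.integral_mono_on hAB (hφc.abs.intervalIntegrable _ _)
        (continuous_const.intervalIntegrable _ _) (fun t _ => hφ0 t)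
    rw [intervalIntegral.integral_const, smul_eq_mul, mul_one] at e1
    have e2 : C4 / A ≤ C4 / (T / 4) := div_le_div_of_nonneg_left hC4 (by positivity) hAT
    have e3 : C4 / A * ∫ t in A..u2, |φ t| ≤ C4 / (T / 4) * (4 * T) :=
      mul_le_mul e2 (e1.trans hB4) (intervalIntegral.integral_nonneg hAB fun t _ => abs_nonneg _)
        (by positivity)
    have e4 : C4 / (T / 4) * (4 * T) = 16 * C4 := by field_simp; ring
    linarith
  have hwc : Continuous (fun t : ℝ => (logDeriv xi (2 + t * I)).re) :=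
    Pool.Agent.Lib.MP_ec260d_nt.Theta_contL
  have hzc : Continuous (fun t : ℝ => (logDeriv riemannZeta (2 + t * I)).re) :=
    Complex.continuous_re.comp Pool.Agent.Lib.MP_ec260d_nt.ZetaInt_cont
  have hmc : ContinuousOn (fun t : ℝ => 1 / (2 * Real.pi) * Real.log (t / (2 * Real.pi)))
      (Set.uIcc A u2) := by
    refine ContinuousOn.mul continuousOn_const (ContinuousOn.log (by fun_prop) ?_)
    intro t ht
    rw [Set.uIcc_of_le hAB] at ht
    have : 0 < t := lt_of_lt_of_le hAp ht.1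
    positivity
  have iw : IntervalIntegrable (fun t : ℝ => φ t * (logDeriv xi (2 + t * I)).re) volume A u2 :=
    (hφc.mul hwc).intervalIntegrable _ _
  have iz : IntervalIntegrable (fun t : ℝ => φ t * (logDeriv riemannZeta (2 + t * I)).re)
      volume A u2 := (hφc.mul hzc).intervalIntegrable _ _
  have im : IntervalIntegrable (fun t : ℝ => φ t *
      (1 / (2 * Real.pi) * Real.log (t / (2 * Real.pi)))) volume A u2 :=
    (hφc.continuousOn.mul hmc).intervalIntegrable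
  have hE : |(∫ t in A..u2, φ t * (logDeriv xi (2 + t * I)).re) -
      (∫ t in A..u2, φ t * (logDeriv riemannZeta (2 + t * I)).re) -
      Real.pi * ∫ t in A..u2, φ t * (1 / (2 * Real.pi) * Real.log (t / (2 * Real.pi)))| ≤
      16 * (C3 + 1) := by
    rw [← intervalIntegral.integral_const_mul, ← intervalIntegral.integral_sub iw iz,
      ← intervalIntegral.integral_sub (iw.sub iz) (im.const_mul _)]
    have e1 : ∀ t ∈ Set.uIoc A u2, ‖φ t * (logDeriv xi (2 + t * I)).re -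
        φ t * (logDeriv riemannZeta (2 + t * I)).re -
        Real.pi * (φ t * (1 / (2 * Real.pi) * Real.log (t / (2 * Real.pi))))‖ ≤
        (C3 + 1) / (T / 4) := by
      intro t ht
      rw [Set.uIoc_of_le hAB] at ht
      have ht0 : 0 < t := lt_trans hAp ht.1
      have e2 := gcnt_m ht0 (h3 t ht0.le) hC3
      have e3 : (C3 + 1) / t ≤ (C3 + 1) / (T / 4) :=
        div_le_div_of_nonneg_left (by positivity) (by positivity) (hAT.trans ht.1.le)
      have e4 : φ t * (logDeriv xi (2 + t * I)).re -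
          φ t * (logDeriv riemannZeta (2 + t * I)).re -
          Real.pi * (φ t * (1 / (2 * Real.pi) * Real.log (t / (2 * Real.pi)))) =
          φ t * ((logDeriv xi (2 + t * I)).re - (logDeriv riemannZeta (2 + t * I)).re -
            Real.pi * (1 / (2 * Real.pi) * Real.log (t / (2 * Real.pi)))) := by ring
      rw [e4, Real.norm_eq_abs, abs_mul]
      calc |φ t| * _ ≤ 1 * ((C3 + 1) / (T / 4)) :=
            mul_le_mul (hφ0 t) (e2.trans e3) (abs_nonneg _) zero_le_one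
        _ = _ := one_mul _
    have e5 := intervalIntegral.norm_integral_le_of_norm_le_const e1
    rw [Real.norm_eq_abs] at e5
    refine e5.trans ?_
    rw [abs_of_nonneg hB0]
    calc (C3 + 1) / (T / 4) * (u2 - A) ≤ (C3 + 1) / (T / 4) * (4 * T) :=
          mul_le_mul_of_nonneg_left hB4 (by positivity)
      _ = 16 * (C3 + 1) := by field_simp; ring
  rw [kl] at kx
  rw [le_div_iff₀ hpi]
  have hfin : |∑ ρ ∈ Z, (mx ρ : ℝ) * φ ρ.im - (LL u2 - LL u1) - (Lam T u1 - Lam T u2)| * Real.pi =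
      |Real.pi * ∑ ρ ∈ Z, (mx ρ : ℝ) * φ ρ.im - Real.pi * (LL u2 - LL u1) -
        Real.pi * (Lam T u1 - Lam T u2)| := by
    rw [mul_comm, ← abs_of_pos hpi, ← abs_mul, abs_of_pos hpi]
    congr 1
    ring
  rw [hfin, kx]
  obtain ⟨a1, b1⟩ := abs_le.1 k1
  obtain ⟨a2, b2⟩ := abs_le.1 k2
  obtain ⟨a3, b3⟩ := abs_le.1 hE
  obtain ⟨a4, b4⟩ := abs_le.1 hgam
  have a2' := mul_le_mul_of_nonneg_left a2 hpi.le
  have b2' := mul_le_mul_of_nonneg_left b2 hpi.le
  rw [abs_le]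
  constructor <;> linarith

end Pool.Agent.Lib.MP_ec260d_ntB
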