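import Mathlib
import Pool.Agent.Lib.MP_ec260d_ntB.GCnt
import Pool.Agent.Lib.MP_ec260d_nt.ZCount

/-!
# JOB GN: one sided bounds for the number of zeros

`NN t = zeroCount t = NZ t = ∑' a, mx a * [0 < a.im ≤ t]` (`zeroCount_eq` in MP_ec260d_nt/ZCount.lean, `NZ` in MP_ec260d_nt/RvM.lean), `mx a ≠ 0 ↔ xi a = 0` (`mx_ne_zero_iff`).
* `nn_sum`: for `0 < t1 ≤ t2` and a finite set `Z` containing all zeros of `xi` with `t1 < Im ≤ t2`: `NN t2 - NN t1 = ∑ over ρ ∈ Z of mx ρ * [t1 < ρ.im ≤ t2]` (the zeros with `0 < Im ≤ t2` are a finite set, `finite_zeros` with `xi_growth` since `0 < Re < 1` (`xi_zero_re`); both tsums are finite sums).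
* `zset`: for `A ≤ B` there is a finite set `Z` with `ρ ∈ Z ↔ xi ρ = 0 ∧ A ≤ ρ.im ∧ ρ.im ≤ B` (same finiteness).
* `n_upper`: `u1 = t1`, `u2 = t2 + hT T`: `stp T u1 - stp T u2 ≥ [t1 < t ≤ t2]` (`stp_bd`: it is `1` on `[t1, t2]` and nonnegative), so `NN t2 - NN t1 ≤ ∑ mx (..) ≤ LL (t2 + h) - LL t1 + Lam T t1 - Lam T (t2 + h) + C` (`cnt_smooth`) and `LL (t2 + h) - LL t2 ≤ C` (mean value theorem, `LL' ≤ log T` on `[T, 4 T]`, `h log T = 2 π`).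
* `n_lower`: `u1 = t1 + h ≤ u2 = t2`: `stp T u1 t - stp T u2 t ≤ [t1 < t ≤ t2]`: it is at most `1`, and for `t ≤ t1 = u1 - h` it is `0 - stp T u2 t ≤ 0`, for `t ≥ t2 = u2` it is `≤ 1 - 1 = 0` (at `t = t2` also `0`). So `NN t2 - NN t1 ≥ ∑ mx (..)`, and `|LL (t1 + h) - LL t1| ≤ C`.
-/

namespace Pool.Agent.Lib.MP_ec260d_ntB

open Complex Set Filter Topology MeasureTheory
open Pool.Agent.Lib.MP_00e05b_nt (xi mx)

private lemma GN_finite (R : ℝ) : {ρ : ℂ | xi ρ = 0 ∧ |ρ.im| ≤ R}.Finite := by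
  obtain ⟨C, hC⟩ := Pool.Agent.Lib.MP_00e05b_nt.xi_growth
  refine (Pool.Agent.Lib.MP_00e05b_nt.finite_zeros hC (1 + R)).subset ?_
  rintro ρ ⟨h1, h2⟩
  refine ⟨h1, ?_⟩
  obtain ⟨h5, h6⟩ := Pool.Agent.Lib.MP_00e05b_nt.xi_zero_re h1
  refine (Complex.norm_le_abs_re_add_abs_im ρ).trans ?_
  rw [abs_of_pos h5]
  linarith

theorem zset (A B : ℝ) : ∃ Z : Finset ℂ, ∀ ρ : ℂ, ρ ∈ Z ↔ xi ρ = 0 ∧ A ≤ ρ.im ∧ ρ.im ≤ B := by
  have hf : {ρ : ℂ | xi ρ = 0 ∧ A ≤ ρ.im ∧ ρ.im ≤ B}.Finite := by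
    refine (GN_finite (|A| + |B|)).subset ?_
    rintro ρ ⟨h1, h2, h3⟩
    refine ⟨h1, abs_le.2 ⟨?_, ?_⟩⟩
    · have := neg_abs_le A
      have := abs_nonneg B
      linarith
    · have := le_abs_self B
      have := abs_nonneg A
      linarith
  exact ⟨hf.toFinset, fun ρ => hf.mem_toFinset⟩

private lemma GN_mx {ρ : ℂ} (h : xi ρ ≠ 0) : (mx ρ : ℝ) = 0 := by
  have h1 : mx ρ = 0 := by
    by_contra h2
    exact h ((Pool.Agent.Lib.MP_ec260d_nt.mx_ne_zero_iff ρ).1 h2)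
  rw [h1, Nat.cast_zero]

/-- the number of zeros as a finite sum -/
private lemma GN_nn {t R : ℝ} (ht : t ≤ R) {W : Finset ℂ}
    (hW : ∀ ρ : ℂ, xi ρ = 0 → |ρ.im| ≤ R → ρ ∈ W) :
    NN t = ∑ ρ ∈ W, (mx ρ : ℝ) * (if 0 < ρ.im ∧ ρ.im ≤ t then 1 else 0) := by
  unfold NN
  rw [Pool.Agent.Lib.MP_ec260d_nt.zeroCount_eq]
  unfold Pool.Agent.Lib.MP_ec260d_nt.NZ
  refine tsum_eq_sum fun ρ hρ => ?_
  by_cases h : 0 < ρ.im ∧ ρ.im ≤ t
  · have h1 : xi ρ ≠ 0 := by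
      intro h2
      refine hρ (hW ρ h2 ?_)
      rw [abs_of_pos h.1]
      linarith [h.2]
    rw [GN_mx h1, zero_mul]
  · rw [if_neg h, mul_zero]

theorem nn_sum {t1 t2 : ℝ} (h0 : 0 < t1) (h12 : t1 ≤ t2) (Z : Finset ℂ)
    (hZ : ∀ ρ : ℂ, xi ρ = 0 → t1 < ρ.im → ρ.im ≤ t2 → ρ ∈ Z) :
    NN t2 - NN t1 = ∑ ρ ∈ Z, (mx ρ : ℝ) * (if t1 < ρ.im ∧ ρ.im ≤ t2 then 1 else 0) := by
  classical
  have hf := GN_finite t2
  have hW : ∀ ρ : ℂ, xi ρ = 0 → |ρ.im| ≤ t2 → ρ ∈ hf.toFinset ∪ Z := fun ρ h1 h2 =>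
    Finset.mem_union_left _ (hf.mem_toFinset.2 ⟨h1, h2⟩)
  rw [GN_nn le_rfl hW, GN_nn h12 hW, ← Finset.sum_sub_distrib]
  have e : ∀ ρ ∈ hf.toFinset ∪ Z, (mx ρ : ℝ) * (if 0 < ρ.im ∧ ρ.im ≤ t2 then 1 else 0) -
      (mx ρ : ℝ) * (if 0 < ρ.im ∧ ρ.im ≤ t1 then 1 else 0) =
      (mx ρ : ℝ) * (if t1 < ρ.im ∧ ρ.im ≤ t2 then 1 else 0) := by
    intro ρ _
    rw [← mul_sub]
    congr 1
    by_cases ha : t1 < ρ.im
    · have h1 : 0 < ρ.im := h0.trans ha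
      have h2 : ¬ ρ.im ≤ t1 := not_le.2 ha
      simp [h1, h2, ha]
    · have h2 : ρ.im ≤ t1 := not_lt.1 ha
      have h3 : ρ.im ≤ t2 := h2.trans h12
      by_cases h1 : 0 < ρ.im
      · simp [h1, h2, h3, ha]
      · simp [h1, ha]
  rw [Finset.sum_congr rfl e]
  refine (Finset.sum_subset Finset.subset_union_right fun ρ _ hρ => ?_).symm
  by_cases h : t1 < ρ.im ∧ ρ.im ≤ t2
  · have h1 : xi ρ ≠ 0 := fun h2 => hρ (hZ ρ h2 h.1 h.2)
    rw [GN_mx h1, zero_mul]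
  · rw [if_neg h, mul_zero]

private lemma GN_LL_deriv {t : ℝ} (ht : 0 < t) :
    HasDerivAt LL (1 / (2 * Real.pi) * Real.log (t / (2 * Real.pi))) t := by
  have hpi : 0 < 2 * Real.pi := by positivity
  have h1 : HasDerivAt (fun t : ℝ => t / (2 * Real.pi)) (1 / (2 * Real.pi)) t :=
    (hasDerivAt_id t).div_const _
  have h2 := h1.log (by positivity)
  have h3 := (h1.mul h2).sub h1
  have e : 1 / (2 * Real.pi) * Real.log (t / (2 * Real.pi)) + t / (2 * Real.pi) *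
      (1 / (2 * Real.pi) / (t / (2 * Real.pi))) - 1 / (2 * Real.pi) =
      1 / (2 * Real.pi) * Real.log (t / (2 * Real.pi)) := by
    field_simp
    ring
  rw [e] at h3
  exact h3

private lemma GN_h8 {T : ℝ} (hTT : 1000 ≤ T) : hT T ≤ 8 := by
  have hT2 : 2 ≤ T := by linarith
  have hh := hT_pos hT2
  have hmul := hT_mul hT2
  have hpi4 := Real.pi_lt_four
  have hlog2 : 1 ≤ Real.log T := by
    have h3 : Real.exp 1 ≤ T := by
      have := Real.exp_one_lt_d9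
      linarith
    have h4 := Real.log_le_log (Real.exp_pos 1) h3
    rwa [Real.log_exp] at h4
  by_contra hcon
  have h5 : 8 * 1 < hT T * Real.log T :=
    mul_lt_mul (not_le.1 hcon) hlog2 one_pos hh.le
  linarith

theorem ll_incr : ∃ C T₀ : ℝ, 0 ≤ C ∧ 2 ≤ T₀ ∧ ∀ T : ℝ, T₀ ≤ T → ∀ t : ℝ, T ≤ t → t ≤ 3 * T + 1 →
    |LL (t + hT T) - LL t| ≤ C := by
  refine ⟨2 * Real.pi, 1000, by positivity, by norm_num, fun T hTT t h1 h2 => ?_⟩
  have hT2 : 2 ≤ T := by linarith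
  have hh := hT_pos hT2
  have hmul := hT_mul hT2
  have hT0 : 0 < T := by linarith
  have ht0 : 0 < t := by linarith
  have hpi3 := Real.pi_gt_three
  have hpi4 := Real.pi_lt_four
  have hlog2 : 1 ≤ Real.log T := by
    have h3 : Real.exp 1 ≤ T := by
      have := Real.exp_one_lt_d9
      linarith
    have h4 := Real.log_le_log (Real.exp_pos 1) h3
    rwa [Real.log_exp] at h4
  have hh7 : hT T ≤ 8 := by
    by_contra hcon
    have h5 : 8 * 1 < hT T * Real.log T :=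
      mul_lt_mul (not_le.1 hcon) hlog2 one_pos hh.le
    linarith
  have hlogpos : 0 ≤ Real.log T := by linarith
  have hbound : ∀ u ∈ Icc t (t + hT T), ‖1 / (2 * Real.pi) * Real.log (u / (2 * Real.pi))‖ ≤
      Real.log T := by
    intro u hu
    have hu1 := hu.1
    have hu2 := hu.2
    have hu0 : 0 < u := by linarith
    have h2pi : 0 < 2 * Real.pi := by positivity
    have h6 : 1 ≤ u / (2 * Real.pi) := by
      rw [le_div_iff₀ h2pi]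
      linarith
    have h7 : u / (2 * Real.pi) ≤ T := by
      rw [div_le_iff₀ h2pi]
      nlinarith
    have h8 : 0 ≤ Real.log (u / (2 * Real.pi)) := Real.log_nonneg h6
    have h9 : Real.log (u / (2 * Real.pi)) ≤ Real.log T := Real.log_le_log (by linarith) h7
    rw [Real.norm_eq_abs, abs_of_nonneg (by positivity)]
    have h10 : 1 / (2 * Real.pi) ≤ 1 := by
      rw [div_le_one h2pi]
      linarith
    calc 1 / (2 * Real.pi) * Real.log (u / (2 * Real.pi)) ≤ 1 * Real.log T :=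
          mul_le_mul h10 h9 h8 zero_le_one
      _ = Real.log T := one_mul _
  have hmv := (convex_Icc t (t + hT T)).norm_image_sub_le_of_norm_hasDerivWithin_le
    (f := LL) (f' := fun u => 1 / (2 * Real.pi) * Real.log (u / (2 * Real.pi)))
    (fun u hu => (GN_LL_deriv (by linarith [hu.1])).hasDerivWithinAt) hbound
    (left_mem_Icc.2 (by linarith)) (right_mem_Icc.2 (by linarith))
  have e : t + hT T - t = hT T := by ring
  rw [e, Real.norm_eq_abs, Real.norm_eq_abs, abs_of_pos hh] at hmv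
  linarith

private lemma GN_mono {Z : Finset ℂ} {f g : ℂ → ℝ} (h : ∀ ρ ∈ Z, f ρ ≤ g ρ) :
    ∑ ρ ∈ Z, (mx ρ : ℝ) * f ρ ≤ ∑ ρ ∈ Z, (mx ρ : ℝ) * g ρ :=
  Finset.sum_le_sum fun ρ hρ => mul_le_mul_of_nonneg_left (h ρ hρ) (Nat.cast_nonneg _)

theorem n_upper : ∃ C T₀ : ℝ, 0 ≤ C ∧ 2 ≤ T₀ ∧ ∀ T : ℝ, T₀ ≤ T → ∀ t1 t2 : ℝ, T ≤ t1 → t1 ≤ t2 →
    t2 ≤ 3 * T → NN t2 - NN t1 ≤ LL t2 - LL t1 + Lam T t1 - Lam T (t2 + hT T) + C := by
  obtain ⟨C1, T1, hC1, hT1, h1⟩ := cnt_smooth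
  obtain ⟨C2, T2, hC2, hT2, h2⟩ := ll_incr
  refine ⟨C1 + C2, max (max T1 T2) 1000, by linarith, le_max_of_le_right (by norm_num), ?_⟩
  intro T hTT t1 t2 ha hb hc
  have k1 : T1 ≤ T := (le_max_left _ _).trans ((le_max_left _ _).trans hTT)
  have k2 : T2 ≤ T := (le_max_right _ _).trans ((le_max_left _ _).trans hTT)
  have k3 : 1000 ≤ T := (le_max_right _ _).trans hTT
  have hT2' : 2 ≤ T := by linarith
  have hh := hT_pos hT2'
  have hh8 : hT T ≤ 8 := GN_h8 k3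
  obtain ⟨Z, hZ⟩ := zset (t1 - hT T) (t2 + hT T)
  have hcnt := h1 T k1 t1 (t2 + hT T) (by linarith) (by linarith) (by linarith) Z hZ
  have hll := h2 T k2 t2 (by linarith) (by linarith)
  have hsum := nn_sum (t1 := t1) (t2 := t2) (by linarith) hb Z
    (fun ρ hρ h3 h4 => (hZ ρ).2 ⟨hρ, by linarith, by linarith⟩)
  have hle : ∑ ρ ∈ Z, (mx ρ : ℝ) * (if t1 < ρ.im ∧ ρ.im ≤ t2 then 1 else 0) ≤
      ∑ ρ ∈ Z, (mx ρ : ℝ) * (stp T t1 ρ.im - stp T (t2 + hT T) ρ.im) := by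
    refine GN_mono fun ρ _ => ?_
    obtain ⟨b1, b2, b3⟩ := stp_bd hT2' (u1 := t1) (u2 := t2 + hT T) (by linarith) ρ.im
    by_cases h : t1 < ρ.im ∧ ρ.im ≤ t2
    · rw [if_pos h, b3 h.1.le (by linarith [h.2])]
    · rw [if_neg h]
      exact b1
  rw [hsum]
  have q1 := (abs_le.1 hcnt).2
  have q2 := (abs_le.1 hll).2
  linarith

theorem n_lower : ∃ C T₀ : ℝ, 0 ≤ C ∧ 2 ≤ T₀ ∧ ∀ T : ℝ, T₀ ≤ T → ∀ t1 t2 : ℝ, T ≤ t1 →
    t1 + hT T ≤ t2 → t2 ≤ 3 * T →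
    LL t2 - LL t1 + Lam T (t1 + hT T) - Lam T t2 - C ≤ NN t2 - NN t1 := by
  obtain ⟨C1, T1, hC1, hT1, h1⟩ := cnt_smooth
  obtain ⟨C2, T2, hC2, hT2, h2⟩ := ll_incr
  refine ⟨C1 + C2, max (max T1 T2) 1000, by linarith, le_max_of_le_right (by norm_num), ?_⟩
  intro T hTT t1 t2 ha hb hc
  have k1 : T1 ≤ T := (le_max_left _ _).trans ((le_max_left _ _).trans hTT)
  have k2 : T2 ≤ T := (le_max_right _ _).trans ((le_max_left _ _).trans hTT)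
  have k3 : 1000 ≤ T := (le_max_right _ _).trans hTT
  have hT2' : 2 ≤ T := by linarith
  have hh := hT_pos hT2'
  obtain ⟨Z, hZ⟩ := zset (t1 + hT T - hT T) t2
  have hcnt := h1 T k1 (t1 + hT T) t2 (by linarith) hb (by linarith) Z hZ
  have hll := h2 T k2 t1 ha (by linarith)
  have hsum := nn_sum (t1 := t1) (t2 := t2) (by linarith) (by linarith) Z
    (fun ρ hρ h3 h4 => (hZ ρ).2 ⟨hρ, by linarith, by linarith⟩)
  have hle : ∑ ρ ∈ Z, (mx ρ : ℝ) * (stp T (t1 + hT T) ρ.im - stp T t2 ρ.im) ≤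
      ∑ ρ ∈ Z, (mx ρ : ℝ) * (if t1 < ρ.im ∧ ρ.im ≤ t2 then 1 else 0) := by
    refine GN_mono fun ρ _ => ?_
    obtain ⟨b1, b2, b3⟩ := stp_bd hT2' (u1 := t1 + hT T) (u2 := t2) hb ρ.im
    by_cases h : t1 < ρ.im ∧ ρ.im ≤ t2
    · rw [if_pos h]
      exact b2
    · rw [if_neg h]
      rcases le_or_gt ρ.im t1 with h3 | h3
      · rw [(stp_zero hT2' (u := t1 + hT T) (t := ρ.im) (by linarith)).1]
        have h4 := (stp_zero hT2' (u := t2) (t := ρ.im) (by linarith)).1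
        rw [h4, sub_zero]
      · have h4 : t2 < ρ.im := by
          by_contra h5
          exact h ⟨h3, not_lt.1 h5⟩
        rw [(stp_one hT2' (u := t1 + hT T) (t := ρ.im) (by linarith)).1,
          (stp_one hT2' (u := t2) (t := ρ.im) h4.le).1, sub_self]
  rw [hsum]
  have q1 := (abs_le.1 hcnt).1
  have q2 := (abs_le.1 hll).2
  linarith

end Pool.Agent.Lib.MP_ec260d_ntB
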