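import Mathlib
import Pool.Agent.Lib.MP_ec260d_ntB.IA
import Pool.Agent.Lib.MP_ec260d_ntB.BWin
import Pool.Agent.Lib.MP_ec260d_ntB.BQQ

/-!
# JOB BBdd: the integral of `|ζ M|` over a small square near the critical line, for most heights

`l = log T`, `r = (2 W + 7) / l`, `F s = ζ(s) MM δ T s`, box `[1/2 + 2 W/l - r, 1/2 + 2 W/l + r] = [1/2 - 7/l, 1/2 + (4 W + 7)/l]`. `a_bdd` with `c = 4 W + 7`: `MS T F x ≤ C` for `|x| ≤ c / l`, so for the full strip: `BI (1/2 - 7/l) (1/2 + (4 W + 7)/l) (T/2) (3T) (‖F‖ ^ 2) = T ∫ x in (-7/l)..((4 W + 7)/l), MS T F x ≤ 2 r C T`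
(`bi_iter`, `bint_cont` (`F` is continuous on `Im s ≥ T/2`: `ζ` is differentiable at `s ≠ 1`, `MM_diff`), substitution `x → 1/2 + x`; `intervalIntegral.norm_integral_le_of_norm_le_const` or `integral_mono_on` with a constant). `win_meas` with `‖F‖ ^ 2`, `L = r ≤ 1/2` (`T` large), `λ = K' / l ^ 2`:
exceptional measure at most `2 r / λ * 2 r C T = 4 (2 W + 7) ^ 2 C T / K' ≤ ε T` for `K' = 4 (2 W + 7) ^ 2 (C + 1) / ε`. For the other `t`: `BI .. ‖F‖ ≤ BI .. (1 + ‖F‖ ^ 2) ≤ (2 r) ^ 2 + K' / l ^ 2 = (4 (2 W + 7) ^ 2 + K') / l ^ 2 =: K / l ^ 2` (`‖F‖ ≤ 1 + ‖F‖ ^ 2`, `bi_mono`, `bi_const`).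
-/

namespace Pool.Agent.Lib.MP_ec260d_ntB

open Complex Set Filter Topology MeasureTheory

private theorem BBdd_cont {a b A B δ T : ℝ} (hA : 0 < A) :
    ContinuousOn (fun s : ℂ => ‖riemannZeta s * MM δ T s‖) (CB a b A B) := by
  intro s hs
  have h1 : s ≠ 1 := by
    intro h
    have h2 : A ≤ s.im := hs.2.2.1
    rw [h, one_im] at h2
    linarith
  exact (((differentiableAt_riemannZeta h1).continuousAt.mul
    (MM_diff δ T).continuous.continuousAt).norm).continuousWithinAt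

private theorem BBdd_bi {δ T C c a b : ℝ} (hT : 2 ≤ T) (hC : 0 ≤ C) (hab : a ≤ b)
    (ha : 1 / 2 - c ≤ a) (hb : b ≤ 1 / 2 + c)
    (h : ∀ x : ℝ, |x| ≤ c → MS T (fun s => riemannZeta s * MM δ T s) x ≤ C) :
    BI a b (T / 2) (3 * T) (fun s => ‖riemannZeta s * MM δ T s‖ ^ 2) ≤ (b - a) * (C * T) := by
  have hT0 : (0 : ℝ) < T := by linarith
  have hcont : ContinuousOn (fun s : ℂ => ‖riemannZeta s * MM δ T s‖ ^ 2)
      (CB a b (T / 2) (3 * T)) := (BBdd_cont (by linarith)).pow 2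
  rw [bi_iter hab (by linarith) (bint_cont hcont)]
  have h1 : ∀ x ∈ Set.uIoc a b,
      ‖∫ t in (T / 2)..(3 * T), ‖riemannZeta ((x : ℂ) + t * I) * MM δ T ((x : ℂ) + t * I)‖ ^ 2‖ ≤
        C * T := by
    intro x hx
    rw [Set.uIoc_of_le hab] at hx
    have h2 := h (x - 1 / 2) (by
      rw [abs_le]
      constructor <;> linarith [hx.1, hx.2])
    unfold MS at h2
    rw [add_sub_cancel, one_div, inv_mul_le_iff₀ hT0, mul_comm T C] at h2
    rw [Real.norm_of_nonneg]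
    · exact h2
    · exact intervalIntegral.integral_nonneg (by linarith) fun t _ => sq_nonneg _
  have h3 := intervalIntegral.norm_integral_le_of_norm_le_const h1
  have h4 := (le_abs_self _).trans h3
  rw [abs_of_nonneg (sub_nonneg.2 hab), mul_comm (C * T)] at h4
  exact h4

theorem zm_bdd : ∃ δ₁ : ℝ, 0 < δ₁ ∧ ∀ δ : ℝ, 0 < δ → δ ≤ δ₁ → ∀ W : ℝ, 1 ≤ W → ∀ ε : ℝ, 0 < ε →
    ∃ K T₀ : ℝ, 0 < K ∧ 2 ≤ T₀ ∧ ∀ T : ℝ, T₀ ≤ T →
      ∃ Bad : Set ℝ, MeasurableSet Bad ∧ volume Bad ≤ ENNReal.ofReal (ε * T) ∧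
        ∀ t ∈ Icc T (3 * T - 1), t ∉ Bad →
          BI (1 / 2 + 2 * W / Real.log T - (2 * W + 7) / Real.log T)
            (1 / 2 + 2 * W / Real.log T + (2 * W + 7) / Real.log T) (t - (2 * W + 7) / Real.log T)
            (t + (2 * W + 7) / Real.log T) (fun s => ‖riemannZeta s * MM δ T s‖) ≤
              K / Real.log T ^ 2 := by
  obtain ⟨δ₁, hδ₁, h⟩ := a_bdd
  refine ⟨δ₁, hδ₁, fun δ hδ hδ' W hW ε hε => ?_⟩
  obtain ⟨C, T₀, hC, hT₀, h⟩ := h δ hδ hδ' (4 * W + 7) (by linarith)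
  set K' : ℝ := 4 * (2 * W + 7) ^ 2 * (C + 1) / ε with hK'
  have hK'0 : 0 < K' := by
    have : 0 < 2 * W + 7 := by linarith
    positivity
  refine ⟨4 * (2 * W + 7) ^ 2 + K', max T₀ (Real.exp (2 * (2 * W + 7))), by positivity,
    hT₀.trans (le_max_left _ _), fun T hT => ?_⟩
  have hT1 : T₀ ≤ T := (le_max_left _ _).trans hT
  have hT2 : (2 : ℝ) ≤ T := hT₀.trans hT1
  have hT0 : (0 : ℝ) < T := by linarith
  have hl : 2 * (2 * W + 7) ≤ Real.log T := by
    rw [Real.le_log_iff_exp_le hT0]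
    exact (le_max_right _ _).trans hT
  set l := Real.log T with hldef
  have hW7 : 0 < 2 * W + 7 := by linarith
  have hl0 : 0 < l := by linarith
  set r : ℝ := (2 * W + 7) / l with hr
  have hr0 : 0 < r := div_pos hW7 hl0
  have hr2 : r ≤ 1 / 2 := by
    rw [hr, div_le_iff₀ hl0]
    linarith
  have hbi : BI (1 / 2 + 2 * W / l - r) (1 / 2 + 2 * W / l + r) (T / 2) (3 * T)
      (fun s => ‖riemannZeta s * MM δ T s‖ ^ 2) ≤ (2 * r) * (C * T) := by
    have h1 : 0 ≤ 2 * W / l := by positivity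
    have h2 : (4 * W + 7) / l = 2 * W / l + r := by
      rw [hr]
      field_simp
      ring
    have h3 := BBdd_bi (δ := δ) (T := T) (C := C) (c := (4 * W + 7) / l)
      (a := 1 / 2 + 2 * W / l - r) (b := 1 / 2 + 2 * W / l + r) hT2 hC (by linarith)
      (by rw [h2]; linarith) (by rw [h2]; linarith) (h T hT1)
    have h4 : 1 / 2 + 2 * W / l + r - (1 / 2 + 2 * W / l - r) = 2 * r := by ring
    rw [h4] at h3
    exact h3
  have hl2 : (0 : ℝ) < K' / l ^ 2 := by positivity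
  obtain ⟨Bad, hBm, hBv, hBt⟩ := win_meas T hT2 (1 / 2 + 2 * W / l - r) (1 / 2 + 2 * W / l + r)
    (by linarith) (fun s => ‖riemannZeta s * MM δ T s‖ ^ 2) ((BBdd_cont (by linarith)).pow 2)
    (fun s _ => sq_nonneg _) r (K' / l ^ 2) hr0 hr2 hl2
  refine ⟨Bad, hBm, hBv.trans (ENNReal.ofReal_le_ofReal ?_), fun t ht htB => ?_⟩
  · calc 2 * r / (K' / l ^ 2) * BI (1 / 2 + 2 * W / l - r) (1 / 2 + 2 * W / l + r) (T / 2) (3 * T)
          (fun s => ‖riemannZeta s * MM δ T s‖ ^ 2)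
        ≤ 2 * r / (K' / l ^ 2) * ((2 * r) * (C * T)) :=
          mul_le_mul_of_nonneg_left hbi (by positivity)
      _ = 4 * (2 * W + 7) ^ 2 * C * T / K' := by
          rw [hr]
          field_simp
          ring
      _ = ε * T * (C / (C + 1)) := by
          rw [hK']
          have hC1 : C + 1 ≠ 0 := by linarith
          field_simp
      _ ≤ ε * T * 1 := by
          refine mul_le_mul_of_nonneg_left ?_ (by positivity)
          rw [div_le_one (by linarith)]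
          linarith
      _ = ε * T := mul_one _
  · have h1 := hBt t ht htB
    have htr : T / 2 ≤ t - r := by linarith [ht.1]
    have h0 : (0 : ℝ) < t - r := by linarith
    have h2 : BInt (1 / 2 + 2 * W / l - r) (1 / 2 + 2 * W / l + r) (t - r) (t + r)
        (fun s => ‖riemannZeta s * MM δ T s‖) := bint_cont (BBdd_cont h0)
    have h3 : BInt (1 / 2 + 2 * W / l - r) (1 / 2 + 2 * W / l + r) (t - r) (t + r)
        (fun s => ‖riemannZeta s * MM δ T s‖ ^ 2) := bint_cont ((BBdd_cont h0).pow 2)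
    have h4 : BInt (1 / 2 + 2 * W / l - r) (1 / 2 + 2 * W / l + r) (t - r) (t + r)
        (fun _ => (1 : ℝ)) := bint_cont continuousOn_const
    have h5 : BI (1 / 2 + 2 * W / l - r) (1 / 2 + 2 * W / l + r) (t - r) (t + r)
        (fun s => ‖riemannZeta s * MM δ T s‖) ≤
        BI (1 / 2 + 2 * W / l - r) (1 / 2 + 2 * W / l + r) (t - r) (t + r)
          (fun s => 1 + ‖riemannZeta s * MM δ T s‖ ^ 2) := by
      refine bi_mono h2 (h4.add h3) fun s _ => ?_
      nlinarith [sq_nonneg (‖riemannZeta s * MM δ T s‖ - 1), norm_nonneg (riemannZeta s * MM δ T s)]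
    have h6 : BI (1 / 2 + 2 * W / l - r) (1 / 2 + 2 * W / l + r) (t - r) (t + r)
          (fun s => 1 + ‖riemannZeta s * MM δ T s‖ ^ 2) =
        BI (1 / 2 + 2 * W / l - r) (1 / 2 + 2 * W / l + r) (t - r) (t + r) (fun _ => (1 : ℝ)) +
        BI (1 / 2 + 2 * W / l - r) (1 / 2 + 2 * W / l + r) (t - r) (t + r)
          (fun s => ‖riemannZeta s * MM δ T s‖ ^ 2) := integral_add h4 h3
    have h7 : BI (1 / 2 + 2 * W / l - r) (1 / 2 + 2 * W / l + r) (t - r) (t + r)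
        (fun _ => (1 : ℝ)) = 4 * (2 * W + 7) ^ 2 / l ^ 2 := by
      rw [bi_const (by linarith) (by linarith)]
      rw [hr]
      field_simp
      ring
    calc _ ≤ _ := h5
      _ = _ := h6
      _ ≤ 4 * (2 * W + 7) ^ 2 / l ^ 2 + K' / l ^ 2 := by
          rw [h7]
          exact add_le_add le_rfl h1
      _ = (4 * (2 * W + 7) ^ 2 + K') / l ^ 2 := by ring

end Pool.Agent.Lib.MP_ec260d_ntB
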