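import Mathlib
import Pool.Agent.Lib.MP_ec260d_ntB.BA0
import Pool.Agent.Lib.MP_ec260d_ntB.BBox

/-!
# Good heights
-/

namespace Pool.Agent.Lib.MP_ec260d_ntB

open Complex Set Filter Topology MeasureTheory

/-- the height `t` is good -/
structure Good (δ W T K t : ℝ) : Prop where
  g1 : ∀ j ∈ Finset.range (JJ T), ∀ s : ℂ, 1 / 2 ≤ s.re → s.re ≤ 2 → |s.im - t| ≤ hT T →
    Real.exp (Real.log T * bet δ (j + 1) * (s.re - 1 / 2) / 2) * ‖Pj δ T j s‖ ≤ 1 / 100 * dd δ j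
  g2 : ∀ s : ℂ, 1 / 2 + W / Real.log T ≤ s.re → s.re ≤ 2 → |s.im - t| ≤ hT T →
    ‖riemannZeta s * MM δ T s - 1‖ ≤ 1 / 4
  g3 : BI (1 / 2 + W / Real.log T) 2 (t - hT T) (t + hT T)
    (fun s => ‖riemannZeta s * MM δ T s - 1‖) ≤ hT T / Real.log T
  g4 : BI (1 / 2 + 2 * W / Real.log T - (2 * W + 7) / Real.log T)
    (1 / 2 + 2 * W / Real.log T + (2 * W + 7) / Real.log T) (t - (2 * W + 7) / Real.log T)
    (t + (2 * W + 7) / Real.log T) (fun s => ‖riemannZeta s * MM δ T s‖) ≤ K / Real.log T ^ 2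
  g5 : BI (1 / 2) (1 / 2 + W / Real.log T) (t - hT T) (t + hT T) (fun s => ‖deriv (PP δ T) s‖) ≤
    K / Real.log T
  g6 : ∫ v in (t - hT T)..(t + hT T), ‖deriv (PP δ T) (sW W T v)‖ ≤ K

end Pool.Agent.Lib.MP_ec260d_ntB
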