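import Mathlib
import Pool.Agent.Lib.MP_ec260d_ntB.BBox

/-!
# JOB BJen: the Jensen inequality over a disc

`F` is holomorphic at all points of the closed square `Q` with centre `c` and half side `r`, `‖F c‖ ≥ 3/4`; the box `CB a b A B` is contained in the closed disc `D` with centre `c` and radius `r`. Then `log ‖F‖` is integrable over the
box and `∫ over the box of |log ‖F‖| ≤ 2 ∫ over Q of ‖F‖ + r ^ 2`.
Proof. (1) For `0 < ρ < r`: `θ ↦ log ‖F (c + ρ e ^ (i θ))‖` is interval integrable (`circleIntegrable_log_norm_meromorphicOn` or similar, `F` is analytic at all points of the closed disc) and its mean is at least `log ‖F c‖`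
(Jensen: Mathlib `MeromorphicOn.circleAverage_log_norm` for the closed disc: the mean is `∑ over the zeros u in the disc of (order) * log (ρ ‖c - u‖⁻¹) + (order at c) * log ρ + log ‖trailing coefficient at c‖`; here
`F c ≠ 0`, so the order at `c` is `0` and the trailing coefficient is `F c`; the other terms are nonnegative). Now `|log x| = 2 max (log x) 0 - log x ≤ 2 x - log x` for `x ≥ 0` (`log 0 = 0`), so
`∫_0^{2 π} |log ‖F (c + ρ e ^ (i θ))‖| dθ ≤ 2 ∫_0^{2 π} ‖F (c + ρ e ^ (i θ))‖ dθ - 2 π log (3/4)`.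
(2) Multiply by `ρ`, integrate over `(0, r)`, polar coordinates for the lower Lebesgue integral (`lintegral_comp_polarCoord_symm` or the version for `ℂ`): the lower integral over `D` of `|log ‖F‖|` is at most (the real number)
`2 ∫_D ‖F‖ - π r ^ 2 log (3/4)`, and `- π log (3/4) = π log (4/3) ≤ 1` (`log (4/3) ≤ 0.2877`: `Real.log_le_sub_one_of_pos` gives `1/3`, too weak; use `log (4/3) = - log (3/4)` and for example
`Real.log_two_lt_d9`, `(4/3) ^ 5 < 4.22`, `log ((4/3) ^ 5) ≤ log 4.22 ≤ 2 log 2 + log 1.055 ≤ 1.3863 + 0.055`, so `log (4/3) ≤ 0.2883`, `π * 0.2883 ≤ 0.906`). So `log ‖F‖` is integrable on `D` (measurability: `F` is continuous on `Q`, `log` and the norm are measurable) and the bound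
follows; `D ⊆ Q` and `CB a b A B ⊆ D` with nonnegative integrands.
-/

namespace Pool.Agent.Lib.MP_ec260d_ntB

open Complex Set Filter Topology MeasureTheory

private theorem BJen_arc (f : ℂ → ℝ) (c : ℂ) (ρ : ℝ) :
    ∫ θ in Ioo (-Real.pi) Real.pi, f (circleMap c ρ θ) = ∫ θ in (0 : ℝ)..2 * Real.pi, f (circleMap c ρ θ) := by
  have hp : (fun θ => f (circleMap c ρ θ)).Periodic (2 * Real.pi) :=
    fun x => by simp [periodic_circleMap c ρ x]
  have h := hp.intervalIntegral_add_eq (-Real.pi) 0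
  have e1 : -Real.pi + 2 * Real.pi = Real.pi := by ring
  rw [e1, zero_add] at h
  rw [← h, intervalIntegral.integral_of_le (by linarith [Real.pi_pos]), integral_Ioc_eq_integral_Ioo]

private theorem BJen_pt (c : ℂ) (p : ℝ × ℝ) :
    pt ((c.re, c.im) + polarCoord.symm p) = circleMap c p.1 p.2 := by
  rw [polarCoord_symm_apply]
  apply Complex.ext
  · rw [pt_re]
    simp [circleMap, Complex.exp_ofReal_mul_I_re, Complex.exp_ofReal_mul_I_im]
  · rw [pt_im]
    simp [circleMap, Complex.exp_ofReal_mul_I_re, Complex.exp_ofReal_mul_I_im]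

private theorem BJen_meas (c : ℂ) (r : ℝ) : MeasurableSet {z : ℝ × ℝ | ‖pt z - c‖ ≤ r} :=
  (isClosed_le ((pt_cont.sub continuous_const).norm) continuous_const).measurableSet

private theorem BJen_mem (c : ℂ) (r : ℝ) {p : ℝ × ℝ} (hp : 0 < p.1) :
    (c.re, c.im) + polarCoord.symm p ∈ {z : ℝ × ℝ | ‖pt z - c‖ ≤ r} ↔ p ∈ Iic r ×ˢ (univ : Set ℝ) := by
  rw [Set.mem_ofPred_eq, BJen_pt, circleMap_sub_center, norm_circleMap_zero, abs_of_pos hp, Set.mem_prod]
  simp

private theorem BJen_set (r : ℝ) : polarCoord.target ∩ (Iic r ×ˢ (univ : Set ℝ)) = Ioc 0 r ×ˢ Ioo (-Real.pi) Real.pi := by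
  rw [polarCoord_target]
  ext p
  simp only [Set.mem_inter_iff, Set.mem_prod, Set.mem_Ioi, Set.mem_Ioo, Set.mem_Iic, Set.mem_univ, Set.mem_Ioc]
  tauto

private theorem BJen_polar (h : ℂ → ℝ) (c : ℂ) (r : ℝ) :
    ∫ z in {z : ℝ × ℝ | ‖pt z - c‖ ≤ r}, h (pt z) =
      ∫ p in Ioc 0 r ×ˢ Ioo (-Real.pi) Real.pi, p.1 * h (circleMap c p.1 p.2) := by
  rw [← integral_indicator (BJen_meas c r), ← integral_add_left_eq_self _ ((c.re, c.im) : ℝ × ℝ),
    ← integral_comp_polarCoord_symm, ← BJen_set r,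
    ← setIntegral_indicator (measurableSet_Iic.prod MeasurableSet.univ)]
  refine setIntegral_congr_fun polarCoord.open_target.measurableSet (fun p hp => ?_)
  have hp1 : 0 < p.1 := hp.1
  by_cases hm : p ∈ Iic r ×ˢ (univ : Set ℝ)
  · have hm2 := (BJen_mem c r hp1).2 hm
    simp only [indicator_of_mem hm, smul_eq_mul]
    rw [indicator_of_mem hm2, BJen_pt]
  · have hm2 := fun h' => hm ((BJen_mem c r hp1).1 h')
    simp only [indicator_of_notMem hm, smul_eq_mul]
    rw [indicator_of_notMem hm2, mul_zero]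

private theorem BJen_in {c : ℂ} {r : ℝ} {z : ℂ} (h : ‖z - c‖ ≤ r) :
    z ∈ CB (c.re - r) (c.re + r) (c.im - r) (c.im + r) := by
  have h1 := (abs_le.1 ((Complex.abs_re_le_norm (z - c)).trans h))
  have h2 := (abs_le.1 ((Complex.abs_im_le_norm (z - c)).trans h))
  rw [Complex.sub_re] at h1
  rw [Complex.sub_im] at h2
  exact ⟨by linarith [h1.1], by linarith [h1.2], by linarith [h2.1], by linarith [h2.2]⟩

private theorem BJen_int {h : ℂ → ℝ} {c : ℂ} {r : ℝ}
    (hc : ContinuousOn h (CB (c.re - r) (c.re + r) (c.im - r) (c.im + r))) :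
    IntegrableOn (fun p : ℝ × ℝ => p.1 * h (circleMap c p.1 p.2)) (Ioc 0 r ×ˢ Ioo (-Real.pi) Real.pi)
      (volume.prod volume) := by
  have h1 : ContinuousOn (fun p : ℝ × ℝ => p.1 * h (circleMap c p.1 p.2)) (Icc 0 r ×ˢ Icc (-Real.pi) Real.pi) := by
    refine ContinuousOn.mul continuous_fst.continuousOn (hc.comp ?_ ?_)
    · refine Continuous.continuousOn ?_
      unfold circleMap
      fun_prop
    · intro p hp
      refine BJen_in ?_
      rw [circleMap_sub_center, norm_circleMap_zero, abs_of_nonneg hp.1.1]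
      exact hp.1.2
  have h2 := h1.integrableOn_compact (μ := (volume.prod volume)) (isCompact_Icc.prod isCompact_Icc)
  exact h2.mono_set (Set.prod_mono Ioc_subset_Icc_self Ioo_subset_Icc_self)

private theorem BJen_lpolar (k : ℂ → ENNReal) (c : ℂ) (r : ℝ) :
    ∫⁻ z in {z : ℝ × ℝ | ‖pt z - c‖ ≤ r}, k (pt z) =
      ∫⁻ p in Ioc 0 r ×ˢ Ioo (-Real.pi) Real.pi, ENNReal.ofReal p.1 * k (circleMap c p.1 p.2) := by
  rw [← lintegral_indicator (BJen_meas c r), ← lintegral_add_left_eq_self _ ((c.re, c.im) : ℝ × ℝ),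
    ← lintegral_comp_polarCoord_symm, ← BJen_set r, Set.inter_comm,
    ← setLIntegral_indicator (measurableSet_Iic.prod MeasurableSet.univ)]
  refine setLIntegral_congr_fun polarCoord.open_target.measurableSet (fun p hp => ?_)
  have hp1 : 0 < p.1 := hp.1
  by_cases hm : p ∈ Iic r ×ˢ (univ : Set ℝ)
  · have hm2 := (BJen_mem c r hp1).2 hm
    simp only [indicator_of_mem hm, smul_eq_mul]
    rw [indicator_of_mem hm2, BJen_pt]
  · have hm2 := fun h' => hm ((BJen_mem c r hp1).1 h')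
    simp only [indicator_of_notMem hm, smul_eq_mul]
    rw [indicator_of_notMem hm2, mul_zero]

private theorem BJen_lprod (k : ℂ → ENNReal) (c : ℂ) (r : ℝ) :
    ∫⁻ z in {z : ℝ × ℝ | ‖pt z - c‖ ≤ r}, k (pt z) ≤
      ∫⁻ ρ in Ioo 0 r, ENNReal.ofReal ρ * ∫⁻ θ in Ioo (-Real.pi) Real.pi, k (circleMap c ρ θ) := by
  rw [BJen_lpolar, Measure.volume_eq_prod, ← Measure.prod_restrict]
  refine (lintegral_prod_le _).trans (le_of_eq ?_)
  rw [setLIntegral_congr (Ioo_ae_eq_Ioc (μ := volume) (a := (0 : ℝ)) (b := r)).symm]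
  refine lintegral_congr (fun ρ => ?_)
  rw [lintegral_const_mul' _ _ ENNReal.ofReal_ne_top]

private theorem BJen_log43 : Real.pi * Real.log (4 / 3) ≤ 1 := by
  have h1 : Real.log (4 / 3) ≤ 3 / 10 := by
    rw [Real.log_le_iff_le_exp (by norm_num)]
    have := Real.quadratic_le_exp_of_nonneg (show (0 : ℝ) ≤ 3 / 10 by norm_num)
    refine le_trans ?_ this
    norm_num
  have h2 : Real.pi ≤ 3.15 := Real.pi_lt_d2.le
  have h3 : 0 ≤ Real.log (4 / 3) := Real.log_nonneg (by norm_num)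
  calc Real.pi * Real.log (4 / 3) ≤ 3.15 * (3 / 10) :=
        mul_le_mul h2 h1 h3 (by norm_num)
    _ ≤ 1 := by norm_num

private theorem BJen_abs {x : ℝ} (hx : 0 ≤ x) : |Real.log x| ≤ 2 * x - Real.log x := by
  rcases le_total 0 (Real.log x) with h | h
  · rw [abs_of_nonneg h]
    linarith [Real.log_le_self hx]
  · rw [abs_of_nonpos h]
    linarith

private theorem BJen_an {F : ℂ → ℂ} {c : ℂ} {r ρ : ℝ} (h0 : 0 < ρ) (h1 : ρ < r)
    (hF : ∀ s, ‖s - c‖ ≤ r → DifferentiableAt ℂ F s) : AnalyticOnNhd ℂ F (Metric.closedBall c |ρ|) := by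
  intro z hz
  have hd : DifferentiableOn ℂ F (Metric.ball c r) := by
    intro w hw
    rw [Metric.mem_ball, dist_eq_norm] at hw
    exact (hF w hw.le).differentiableWithinAt
  refine hd.analyticAt (Metric.isOpen_ball.mem_nhds ?_)
  rw [Metric.mem_closedBall, abs_of_pos h0] at hz
  rw [Metric.mem_ball]
  exact lt_of_le_of_lt hz h1

private theorem BJen_circle {F : ℂ → ℂ} {c : ℂ} {r ρ : ℝ} (h0 : 0 < ρ) (h1 : ρ < r)
    (hF : ∀ s, ‖s - c‖ ≤ r → DifferentiableAt ℂ F s) (hc : 3 / 4 ≤ ‖F c‖) :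
    IntegrableOn (fun θ => |Real.log ‖F (circleMap c ρ θ)‖|) (Ioo (-Real.pi) Real.pi) ∧
      ∫ θ in Ioo (-Real.pi) Real.pi, |Real.log ‖F (circleMap c ρ θ)‖| ≤
        2 * (∫ θ in Ioo (-Real.pi) Real.pi, ‖F (circleMap c ρ θ)‖) + 2 * Real.pi * Real.log (4 / 3) := by
  have ha := BJen_an h0 h1 hF
  have hne : F c ≠ 0 := by
    intro h
    rw [h, norm_zero] at hc
    norm_num at hc
  have J := ha.circleAverage_log_norm h0.ne' hne
  have hs : 0 ≤ ∑ᶠ u, MeromorphicOn.divisor F (Metric.closedBall c |ρ|) u * Real.log (ρ * ‖c - u‖⁻¹) := by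
    refine finsum_nonneg (fun u => ?_)
    by_cases hu : u ∈ Metric.closedBall c |ρ|
    · refine mul_nonneg ?_ ?_
      · exact_mod_cast (MeromorphicOn.AnalyticOnNhd.divisor_nonneg ha) u
      · rcases eq_or_ne u c with rfl | huc
        · simp
        · rw [Metric.mem_closedBall, dist_comm, dist_eq_norm, abs_of_pos h0] at hu
          have hp : 0 < ‖c - u‖ := norm_pos_iff.2 (sub_ne_zero.2 huc.symm)
          refine Real.log_nonneg ?_
          rw [← div_eq_mul_inv, le_div_iff₀ hp, one_mul]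
          exact hu
    · rw [Function.locallyFinsuppWithin.apply_eq_zero_of_notMem _ hu]
      simp
  have hlog : Real.log (3 / 4) ≤ Real.log ‖F c‖ := Real.log_le_log (by norm_num) hc
  have hci : IntervalIntegrable (fun θ => Real.log ‖F (circleMap c ρ θ)‖) volume 0 (2 * Real.pi) :=
    (ha.mono Metric.sphere_subset_closedBall).meromorphicOn.circleIntegrable_log_norm
  have hper : (fun θ => Real.log ‖F (circleMap c ρ θ)‖).Periodic (2 * Real.pi) :=
    fun x => by simp [periodic_circleMap c ρ x]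
  have hpi : (2 * Real.pi) ≠ 0 := by positivity
  have hi2 := hper.intervalIntegrable₀ hpi hci (-Real.pi) Real.pi
  constructor
  · have h3 := ((intervalIntegrable_iff_integrableOn_Ioc_of_le (by linarith [Real.pi_pos])).1 hi2).mono_set
      Ioo_subset_Ioc_self
    exact h3.abs
  · rw [BJen_arc (fun s => |Real.log ‖F s‖|) c ρ, BJen_arc (fun s => ‖F s‖) c ρ]
    have hcF : Continuous (fun θ => ‖F (circleMap c ρ θ)‖) := by
      refine (continuous_iff_continuousAt.2 (fun θ => ?_)).norm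
      have hd : DifferentiableAt ℂ F (circleMap c ρ θ) := by
        refine hF _ ?_
        rw [circleMap_sub_center, norm_circleMap_zero, abs_of_pos h0]
        exact h1.le
      exact ContinuousAt.comp (g := F) (f := circleMap c ρ) hd.continuousAt (continuous_circleMap c ρ).continuousAt
    have h4 : ∫ θ in (0 : ℝ)..2 * Real.pi, |Real.log ‖F (circleMap c ρ θ)‖| ≤
        ∫ θ in (0 : ℝ)..2 * Real.pi, (2 * ‖F (circleMap c ρ θ)‖ - Real.log ‖F (circleMap c ρ θ)‖) := by
      refine intervalIntegral.integral_mono_on (by positivity) hci.abs ?_ (fun θ _ => BJen_abs (norm_nonneg _))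
      exact ((hcF.intervalIntegrable _ _).const_mul 2).sub hci
    rw [intervalIntegral.integral_sub ((hcF.intervalIntegrable _ _).const_mul 2) hci,
      intervalIntegral.integral_const_mul] at h4
    have h5 : ∫ θ in (0 : ℝ)..2 * Real.pi, Real.log ‖F (circleMap c ρ θ)‖ =
        2 * Real.pi * Real.circleAverage (fun s => Real.log ‖F s‖) c ρ := by
      rw [Real.circleAverage_def, smul_eq_mul, ← mul_assoc, mul_inv_cancel₀ hpi, one_mul]
    have h6 : Real.log (3 / 4) = - Real.log (4 / 3) := by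
      rw [← Real.log_inv]
      norm_num
    have h7 : -Real.log (4 / 3) ≤ Real.circleAverage (fun s => Real.log ‖F s‖) c ρ := by
      have : Real.circleAverage (fun s => Real.log ‖F s‖) c ρ =
        ∑ᶠ u, MeromorphicOn.divisor F (Metric.closedBall c |ρ|) u * Real.log (ρ * ‖c - u‖⁻¹) + Real.log ‖F c‖ := J
      rw [this]
      linarith
    have h8 := mul_le_mul_of_nonneg_left h7 (show 0 ≤ 2 * Real.pi by positivity)
    linarith

theorem jensen_box (F : ℂ → ℂ) (c : ℂ) (r : ℝ) (hr : 0 < r)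
    (hF : ∀ s ∈ CB (c.re - r) (c.re + r) (c.im - r) (c.im + r), DifferentiableAt ℂ F s)
    (hc : 3 / 4 ≤ ‖F c‖) (a b A B : ℝ) (hb : ∀ s ∈ CB a b A B, ‖s - c‖ ≤ r) :
    BInt a b A B (fun s => Real.log ‖F s‖) ∧
      BI a b A B (fun s => |Real.log ‖F s‖|) ≤
        2 * BI (c.re - r) (c.re + r) (c.im - r) (c.im + r) (fun s => ‖F s‖) + r ^ 2 := by
  have hF' : ∀ s, ‖s - c‖ ≤ r → DifferentiableAt ℂ F s := fun s hs => hF s (BJen_in hs)
  have hcont : ContinuousOn (fun s => ‖F s‖) (CB (c.re - r) (c.re + r) (c.im - r) (c.im + r)) :=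
    fun s hs => (hF s hs).continuousAt.norm.continuousWithinAt
  have hi := BJen_int hcont
  have hi2 : Integrable (fun p : ℝ × ℝ => p.1 * ‖F (circleMap c p.1 p.2)‖)
      ((volume.restrict (Ioc 0 r)).prod (volume.restrict (Ioo (-Real.pi) Real.pi))) := by
    rw [Measure.prod_restrict]
    exact hi
  have hi3 := hi2.integral_prod_left
  have hS : ∫ z in {z : ℝ × ℝ | ‖pt z - c‖ ≤ r}, ‖F (pt z)‖ ≤
      BI (c.re - r) (c.re + r) (c.im - r) (c.im + r) (fun s => ‖F s‖) := by
    refine setIntegral_mono_set (bint_cont hcont) (Eventually.of_forall fun z => norm_nonneg _)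
      (Eventually.of_forall fun z hz => ?_)
    exact pt_mem.1 (BJen_in hz)
  have hS2 : ∫ z in {z : ℝ × ℝ | ‖pt z - c‖ ≤ r}, ‖F (pt z)‖ =
      ∫ ρ in Ioc 0 r, ∫ θ in Ioo (-Real.pi) Real.pi, ρ * ‖F (circleMap c ρ θ)‖ := by
    rw [BJen_polar (fun s => ‖F s‖) c r, Measure.volume_eq_prod, setIntegral_prod _ hi]
  have hG : IntegrableOn (fun ρ : ℝ => ρ * (2 * (∫ θ in Ioo (-Real.pi) Real.pi, ‖F (circleMap c ρ θ)‖) +
      2 * Real.pi * Real.log (4 / 3))) (Ioc 0 r) := by
    have e : (fun ρ : ℝ => ρ * (2 * (∫ θ in Ioo (-Real.pi) Real.pi, ‖F (circleMap c ρ θ)‖) +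
        2 * Real.pi * Real.log (4 / 3))) =
        fun ρ : ℝ => 2 * (∫ θ in Ioo (-Real.pi) Real.pi, ρ * ‖F (circleMap c ρ θ)‖) +
          ρ * (2 * Real.pi * Real.log (4 / 3)) := by
      funext ρ
      rw [integral_const_mul]
      ring
    rw [e]
    refine Integrable.add (hi3.const_mul 2) ?_
    exact (Continuous.integrableOn_Icc (by fun_prop)).mono_set Ioc_subset_Icc_self
  have hGe : ∫ ρ in Ioc 0 r, ρ * (2 * (∫ θ in Ioo (-Real.pi) Real.pi, ‖F (circleMap c ρ θ)‖) +
      2 * Real.pi * Real.log (4 / 3)) = 2 * (∫ z in {z : ℝ × ℝ | ‖pt z - c‖ ≤ r}, ‖F (pt z)‖) +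
        r ^ 2 * (Real.pi * Real.log (4 / 3)) := by
    have e : (fun ρ : ℝ => ρ * (2 * (∫ θ in Ioo (-Real.pi) Real.pi, ‖F (circleMap c ρ θ)‖) +
        2 * Real.pi * Real.log (4 / 3))) =
        fun ρ : ℝ => 2 * (∫ θ in Ioo (-Real.pi) Real.pi, ρ * ‖F (circleMap c ρ θ)‖) +
          ρ * (2 * Real.pi * Real.log (4 / 3)) := by
      funext ρ
      rw [integral_const_mul]
      ring
    have hid : ∫ ρ in Ioc 0 r, ρ = r ^ 2 / 2 := by
      rw [← intervalIntegral.integral_of_le hr.le, integral_id]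
      ring
    rw [e, integral_add (hi3.const_mul 2), integral_const_mul, hS2, integral_mul_const, hid]
    · ring
    · exact (Continuous.integrableOn_Icc (by fun_prop)).mono_set Ioc_subset_Icc_self
  have key : ∫⁻ z in {z : ℝ × ℝ | ‖pt z - c‖ ≤ r}, ENNReal.ofReal |Real.log ‖F (pt z)‖| ≤
      ENNReal.ofReal (2 * BI (c.re - r) (c.re + r) (c.im - r) (c.im + r) (fun s => ‖F s‖) + r ^ 2) := by
    refine (BJen_lprod (fun s => ENNReal.ofReal |Real.log ‖F s‖|) c r).trans ?_
    have h1 : ∫⁻ ρ in Ioo 0 r, ENNReal.ofReal ρ * ∫⁻ θ in Ioo (-Real.pi) Real.pi,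
        ENNReal.ofReal |Real.log ‖F (circleMap c ρ θ)‖| ≤
        ∫⁻ ρ in Ioo 0 r, ENNReal.ofReal (ρ * (2 * (∫ θ in Ioo (-Real.pi) Real.pi, ‖F (circleMap c ρ θ)‖) +
          2 * Real.pi * Real.log (4 / 3))) := by
      refine setLIntegral_mono' measurableSet_Ioo (fun ρ hρ => ?_)
      obtain ⟨c1, c2⟩ := BJen_circle hρ.1 hρ.2 hF' hc
      rw [← ofReal_integral_eq_lintegral_ofReal c1 (Eventually.of_forall fun θ => abs_nonneg _),
        ENNReal.ofReal_mul hρ.1.le]
      exact mul_le_mul_right (ENNReal.ofReal_le_ofReal c2) _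
    refine h1.trans ?_
    rw [setLIntegral_congr (Ioo_ae_eq_Ioc (μ := volume) (a := (0 : ℝ)) (b := r)),
      ← ofReal_integral_eq_lintegral_ofReal hG ?_, hGe]
    · refine ENNReal.ofReal_le_ofReal ?_
      have h2 := mul_le_mul_of_nonneg_left BJen_log43 (sq_nonneg r)
      linarith
    · refine (ae_restrict_iff' measurableSet_Ioc).2 (Eventually.of_forall fun ρ hρ => ?_)
      have h3 : 0 ≤ ∫ θ in Ioo (-Real.pi) Real.pi, ‖F (circleMap c ρ θ)‖ := integral_nonneg fun θ => norm_nonneg _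
      have h4 : 0 ≤ Real.log (4 / 3) := Real.log_nonneg (by norm_num)
      have h5 : 0 < ρ := hρ.1
      positivity
  have hsub : bx a b A B ⊆ {z : ℝ × ℝ | ‖pt z - c‖ ≤ r} := fun z hz => hb _ (pt_mem.2 hz)
  have key2 : ∫⁻ z in bx a b A B, ENNReal.ofReal |Real.log ‖F (pt z)‖| ≤
      ENNReal.ofReal (2 * BI (c.re - r) (c.re + r) (c.im - r) (c.im + r) (fun s => ‖F s‖) + r ^ 2) :=
    (lintegral_mono_set hsub).trans key
  have hm : AEStronglyMeasurable (fun z => Real.log ‖F (pt z)‖) (volume.restrict (bx a b A B)) := by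
    have h1 : ContinuousOn (fun z => ‖F (pt z)‖) (bx a b A B) := by
      intro z hz
      have hd := (hF' (pt z) (hsub hz)).continuousAt
      exact (ContinuousAt.comp (g := F) (f := pt) hd pt_cont.continuousAt).norm.continuousWithinAt
    exact (Real.measurable_log.comp_aemeasurable (h1.aemeasurable (bx_meas a b A B))).aestronglyMeasurable
  constructor
  · refine ⟨hm, ?_⟩
    unfold HasFiniteIntegral
    refine lt_of_le_of_lt (le_trans (le_of_eq ?_) key2) ENNReal.ofReal_lt_top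
    refine lintegral_congr (fun z => ?_)
    rw [Real.enorm_eq_ofReal_abs]
  · have hm2 : AEStronglyMeasurable (fun z => |Real.log ‖F (pt z)‖|) (volume.restrict (bx a b A B)) := hm.norm
    show ∫ z in bx a b A B, |Real.log ‖F (pt z)‖| ≤ _
    rw [integral_eq_lintegral_of_nonneg_ae (Eventually.of_forall fun z => abs_nonneg _) hm2]
    refine ENNReal.toReal_le_of_le_ofReal ?_ key2
    have h3 : 0 ≤ BI (c.re - r) (c.re + r) (c.im - r) (c.im + r) (fun s => ‖F s‖) :=
      bi_nonneg fun s _ => norm_nonneg _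
    positivity

end Pool.Agent.Lib.MP_ec260d_ntB
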