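import Mathlib

/-!
# JOB BTail: the tail of a product (Cauchy's inequality)

`∏_{p ∈ S} (1 - z w p) = ∑_{U ⊆ S} (-z) ^ |U| ∏_{p ∈ U} w p = ∑_r (-1) ^ r e_r z ^ r`, `e_r = ∑_{|U| = r} ∏_{p ∈ U} w p` (`Finset.prod_add` / `Finset.prod_one_sub...`, `Finset.powerset`, `Finset.sum_fiberwise` over the cardinality).
If this has modulus `≤ K` for all `|z| = R` then `|e_r| ≤ K R ^ (-r)` (Cauchy's inequality for the coefficients of the polynomial `Q = ∑_r (-1) ^ r e_r X ^ r`: for example `Complex.norm_iteratedDeriv_le_of_forall_mem_sphere_norm_le` with `iteratedDeriv r Q 0 = r! * coeff r`; or directly: for `N > deg Q` and the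
`N`-th roots of unity `ζ ^ k`: `∑_{k < N} Q(R ζ ^ k) ζ ^ (-r k) = N R ^ r coeff r` for `r < N`, `Finset` geometric sums; or the circle integral of `Q z / z ^ (r + 1)`). So for `R ≥ 2`:
`‖∑_{U ⊆ S, |U| > d} (-1) ^ |U| ∏_{p ∈ U} w p‖ = ‖∑_{r > d} (-1) ^ r e_r‖ ≤ K ∑_{r > d} R ^ (-r) ≤ 2 K R ^ (-(d+1))`, i.e. `≤ K R ^ (-d)` (`2 / R ≤ 1`).
-/

namespace Pool.Agent.Lib.MP_ec260d_ntB

open Complex Set Filter Topology MeasureTheory

private theorem BTail_geom (x : ℝ) (h0 : 0 ≤ x) (h1 : x ≤ 1 / 2) (d m : ℕ) :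
    ∑ r ∈ Finset.Ico (d + 1) (d + m + 1), x ^ r ≤ x ^ d - x ^ (d + m) := by
  induction m with
  | zero => simp
  | succ m ih =>
    have e : d + (m + 1) + 1 = (d + m + 1) + 1 := by ring
    rw [e, Finset.sum_Ico_succ_top (by omega)]
    have h2 : x ^ (d + (m + 1)) = x ^ (d + m) * x := by
      rw [← add_assoc, pow_succ]
    have h3 : 0 ≤ x ^ (d + m) := pow_nonneg h0 _
    have h4 : x ^ (d + m + 1) = x ^ (d + m) * x := pow_succ _ _
    rw [h2, h4]
    nlinarith

private theorem BTail_coeff (Q : Polynomial ℂ) (R K : ℝ) (hR : 0 < R)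
    (hK : ∀ z : ℂ, ‖z‖ = R → ‖Q.eval z‖ ≤ K) (r : ℕ) : ‖Q.coeff r‖ ≤ K * (R⁻¹) ^ r := by
  have hd : DiffContOnCl ℂ (fun z => Q.eval z) (Metric.ball (0:ℂ) R) :=
    (Q.differentiable).diffContOnCl
  have h := Complex.norm_iteratedDeriv_le_of_forall_mem_sphere_norm_le r hR hd
    (C := K) (fun z hz => hK z (by simpa using hz))
  have h2 : iteratedDeriv r (fun z => Q.eval z) 0 = (r.factorial : ℂ) * Q.coeff r := by
    have h3 : ∀ (k : ℕ), iteratedDeriv k (fun z => Q.eval z) =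
        fun z => (Polynomial.derivative^[k] Q).eval z := by
      intro k
      induction k with
      | zero => simp
      | succ k ih =>
        rw [iteratedDeriv_succ, ih]
        funext z
        rw [Polynomial.deriv, Function.iterate_succ_apply']
    rw [h3]
    simp only []
    rw [← Polynomial.coeff_zero_eq_eval_zero, Polynomial.coeff_iterate_derivative]
    simp [Nat.descFactorial_self]
  rw [h2, norm_mul, Complex.norm_natCast] at h
  have hf : (0:ℝ) < (r.factorial : ℝ) := by positivity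
  have h4 : (r.factorial : ℝ) * ‖Q.coeff r‖ ≤ (r.factorial : ℝ) * (K * (R⁻¹) ^ r) := by
    refine h.trans (le_of_eq ?_)
    rw [inv_pow, div_eq_mul_inv]
    ring
  exact le_of_mul_le_mul_left h4 hf

theorem prod_tail (S : Finset ℕ) (w : ℕ → ℂ) (d : ℕ) (R K : ℝ) (hR : 2 ≤ R)
    (hK : ∀ z : ℂ, ‖z‖ = R → ‖∏ p ∈ S, (1 - z * w p)‖ ≤ K) :
    ‖(∑ U ∈ S.powerset.filter (fun U => U.card ≤ d), (-1) ^ U.card * ∏ p ∈ U, w p) -
      ∏ p ∈ S, (1 - w p)‖ ≤ K * (R ^ d)⁻¹ := by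
  classical
  set n := S.card with hn
  set c : ℕ → ℂ := fun r => ∑ U ∈ S.powersetCard r, (-1) ^ U.card * ∏ p ∈ U, w p with hc
  have hF : ∀ z : ℂ, ∏ p ∈ S, (1 - z * w p) = ∑ r ∈ Finset.range (n + 1), c r * z ^ r := by
    intro z
    have h1 : ∏ p ∈ S, (1 - z * w p) = ∏ p ∈ S, (1 + (-z) * w p) :=
      Finset.prod_congr rfl (fun p _ => by ring)
    rw [h1, Finset.prod_one_add, Finset.sum_powerset]
    refine Finset.sum_congr rfl (fun r _ => ?_)
    rw [hc]
    simp only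
    rw [Finset.sum_mul]
    refine Finset.sum_congr rfl (fun U hU => ?_)
    have hU2 : U.card = r := (Finset.mem_powersetCard.mp hU).2
    rw [Finset.prod_mul_distrib, Finset.prod_const, hU2, neg_pow]
    ring
  set Q : Polynomial ℂ := ∑ r ∈ Finset.range (n + 1), Polynomial.C (c r) * Polynomial.X ^ r with hQ
  have hQe : ∀ z : ℂ, Q.eval z = ∏ p ∈ S, (1 - z * w p) := by
    intro z
    rw [hF, hQ, Polynomial.eval_finsetSum]
    refine Finset.sum_congr rfl (fun r _ => ?_)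
    simp
  have hQc : ∀ r ∈ Finset.range (n + 1), Q.coeff r = c r := by
    intro r hr
    rw [hQ, Polynomial.finsetSum_coeff]
    simp only [Polynomial.coeff_C_mul_X_pow]
    rw [Finset.sum_ite_eq]
    rw [if_pos hr]
  have hR0 : 0 < R := by linarith
  have hb : ∀ r ∈ Finset.range (n + 1), ‖c r‖ ≤ K * (R⁻¹) ^ r := by
    intro r hr
    rw [← hQc r hr]
    exact BTail_coeff Q R K hR0 (fun z hz => by rw [hQe]; exact hK z hz) r
  have hK0 : 0 ≤ K := by
    have h := hb 0 (by simp)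
    have h2 : ‖c 0‖ ≤ K := by simpa using h
    exact (norm_nonneg _).trans h2
  have e1 : ∏ p ∈ S, (1 - w p) = ∑ r ∈ Finset.range (n + 1), c r := by
    have h := hF 1
    simpa using h
  have e2 : (∑ U ∈ S.powerset.filter (fun U => U.card ≤ d), (-1) ^ U.card * ∏ p ∈ U, w p) =
      ∑ r ∈ (Finset.range (n + 1)).filter (fun r => r ≤ d), c r := by
    rw [Finset.sum_filter, Finset.sum_powerset, Finset.sum_filter]
    refine Finset.sum_congr rfl (fun r _ => ?_)
    by_cases hrd : r ≤ d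
    · rw [if_pos hrd, hc]
      refine Finset.sum_congr rfl (fun U hU => ?_)
      have hU2 : U.card = r := (Finset.mem_powersetCard.mp hU).2
      rw [if_pos (by omega)]
    · rw [if_neg hrd]
      refine Finset.sum_eq_zero (fun U hU => ?_)
      have hU2 : U.card = r := (Finset.mem_powersetCard.mp hU).2
      rw [if_neg (by omega)]
  have e3 : (∑ r ∈ (Finset.range (n + 1)).filter (fun r => r ≤ d), c r) -
      ∑ r ∈ Finset.range (n + 1), c r =
      -∑ r ∈ (Finset.range (n + 1)).filter (fun r => ¬ r ≤ d), c r := by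
    rw [← Finset.sum_filter_add_sum_filter_not (Finset.range (n + 1)) (fun r => r ≤ d) c]
    ring
  rw [e1, e2, e3, norm_neg]
  have hx0 : 0 ≤ R⁻¹ := by positivity
  have hx1 : R⁻¹ ≤ 1 / 2 := by
    rw [one_div]
    exact inv_anti₀ (by norm_num) hR
  have h5 : ‖∑ r ∈ (Finset.range (n + 1)).filter (fun r => ¬ r ≤ d), c r‖ ≤
      ∑ r ∈ (Finset.range (n + 1)).filter (fun r => ¬ r ≤ d), K * (R⁻¹) ^ r := by
    refine (norm_sum_le _ _).trans (Finset.sum_le_sum (fun r hr => ?_))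
    exact hb r (Finset.mem_filter.mp hr).1
  have h6 : ∑ r ∈ (Finset.range (n + 1)).filter (fun r => ¬ r ≤ d), K * (R⁻¹) ^ r ≤
      ∑ r ∈ Finset.Ico (d + 1) (d + n + 1), K * (R⁻¹) ^ r := by
    refine Finset.sum_le_sum_of_subset_of_nonneg ?_ (fun r _ _ => by positivity)
    intro r hr
    rw [Finset.mem_filter, Finset.mem_range] at hr
    rw [Finset.mem_Ico]
    omega
  have h7 : ∑ r ∈ Finset.Ico (d + 1) (d + n + 1), K * (R⁻¹) ^ r ≤ K * (R⁻¹) ^ d := by
    rw [← Finset.mul_sum]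
    have h8 := BTail_geom R⁻¹ hx0 hx1 d n
    have h9 : 0 ≤ (R⁻¹) ^ (d + n) := pow_nonneg hx0 _
    exact mul_le_mul_of_nonneg_left (by linarith) hK0
  calc _ ≤ _ := h5
    _ ≤ _ := h6
    _ ≤ _ := h7
    _ = K * (R ^ d)⁻¹ := by rw [inv_pow]

end Pool.Agent.Lib.MP_ec260d_ntB
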