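import Mathlib
import Pool.Agent.Lib.MP_ec260d_ntB.BA0
import Pool.Agent.Lib.MP_ec260d_ntB.BTail

/-!
# JOB BMexp: the truncated Euler product of a block is close to the Euler product

`l = log T`, `β = bet δ (j+1)`, `d = dd δ j`, `x = s.re - 1/2 ∈ [0, 3/2]`, `kpj δ j = β d`. Hypothesis: `exp (l β x / 2) ‖Pj s‖ ≤ d / 100`.
* `prod_exp`: for a finite set `S` and `|u p| ≤ 1/2`: `‖∏ (1 - u p)‖ ≤ exp (‖∑ u p‖ + ∑ ‖u p‖ ^ 2)` and `‖∏ (1 - u p)‖ ≥ exp (- ‖∑ u p‖ - ∑ ‖u p‖ ^ 2)`: `1 - u = exp (log (1 - u))` and `‖log (1 - u) + u‖ ≤ ‖u‖ ^ 2` for `‖u‖ ≤ 1/2` (Mathlib: `Complex.norm_log_one_add_sub_self_le` or similar: `‖log (1 + z) - z‖ ≤ ‖z‖ ^ 2 (1 - ‖z‖)⁻¹ / 2`).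
* `mexp`: `prod_tail` with `S = Pr δ T j`, `w p = (p : ℂ) ^ (-s)`, `R = 20 exp (l β x / 2)`. For `‖z‖ = R`, `p ∈ Pr`: `p > xs δ T (j+1) = exp (l β)` and `p > 10000`, `‖p ^ (-s)‖ = p ^ (-1/2 - x) ≤ p ^ (-1/2) exp (- l β x)`, so `‖z p ^ (-s)‖ ≤ 20 p ^ (-1/2) ≤ 1/5` (also `‖z p ^ (-s)‖ ^ 2 ≤ 400 / p`), and
  `‖∑ z p ^ (-s)‖ = R ‖Pj s‖ ≤ 20 d / 100 = d / 5`. `prod_exp`: `‖∏ (1 - z p ^ (-s))‖ ≤ exp (d / 5 + 400 * 3) =: K` (`a0_block`: `∑ 1/p ≤ 3`). So `‖Mj - Ej‖ ≤ K R ^ (-d) = K 20 ^ (-d) exp (- l β x d / 2)`.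
  `‖Ej‖ ≥ exp (- d / 100 - 3)` (`prod_exp` with `u p = p ^ (-s)`, `‖Pj s‖ ≤ d / 100` since `x ≥ 0`, `∑ ‖p ^ (-s)‖ ^ 2 ≤ ∑ 1/p ≤ 3`). It remains: `K 20 ^ (-d) ≤ exp (-d) exp (- d/100 - 3)`, i.e. `d/5 + 1200 + d + d/100 + 3 ≤ d log 20`, true if `d ≥ 700`: `log 20 ≥ 2.99` (`exp 2.99 ≤ 20`), `2.99 - 1.21 = 1.78`, `1.78 d ≥ 1203`.
  `d ≥ 700` if `δ ^ (-3/4) ≥ 700` (`dd ≥ (bet δ j) ^ (-3/4) ≥ δ ^ (-3/4)`, `bet_le`): choose `δ₁` accordingly (for example `δ₁ = 700 ^ (-4/3)` or any smaller number such as `1 / 10 ^ 4`: `(10 ^ 4) ^ (3/4) = 1000`).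
-/

namespace Pool.Agent.Lib.MP_ec260d_ntB

open Complex Set Filter Topology MeasureTheory

/-- the exponent of the gain in the `j`-th block -/
noncomputable def kpj (δ : ℝ) (j : ℕ) : ℝ := bet δ (j + 1) * dd δ j

theorem prod_exp (S : Finset ℕ) (u : ℕ → ℂ) (hu : ∀ p ∈ S, ‖u p‖ ≤ 1 / 2) :
    ‖∏ p ∈ S, (1 - u p)‖ ≤ Real.exp (‖∑ p ∈ S, u p‖ + ∑ p ∈ S, ‖u p‖ ^ 2) ∧
      Real.exp (-(‖∑ p ∈ S, u p‖ + ∑ p ∈ S, ‖u p‖ ^ 2)) ≤ ‖∏ p ∈ S, (1 - u p)‖ := by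
  have hne : ∀ p ∈ S, 1 - u p ≠ 0 := by
    intro p hp h0
    have h1 : u p = 1 := (sub_eq_zero.1 h0).symm
    have h2 := hu p hp
    rw [h1, norm_one] at h2
    norm_num at h2
  have hlog : ∀ p ∈ S, ‖Complex.log (1 - u p) + u p‖ ≤ ‖u p‖ ^ 2 := by
    intro p hp
    have h2 := hu p hp
    have h1 := Complex.norm_log_one_add_sub_self_le (z := -u p) (by
      rw [norm_neg]
      linarith)
    rw [norm_neg, ← sub_eq_add_neg, sub_neg_eq_add] at h1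
    have h3 : (1 - ‖u p‖)⁻¹ ≤ 2 := by
      rw [inv_le_comm₀ (by linarith) (by norm_num)]
      linarith
    have h4 : ‖u p‖ ^ 2 * (1 - ‖u p‖)⁻¹ ≤ ‖u p‖ ^ 2 * 2 :=
      mul_le_mul_of_nonneg_left h3 (sq_nonneg _)
    linarith
  obtain ⟨L, hL⟩ : ∃ L : ℂ, L = ∑ p ∈ S, Complex.log (1 - u p) := ⟨_, rfl⟩
  have hprod : ∏ p ∈ S, (1 - u p) = Complex.exp L := by
    rw [hL, Complex.exp_sum]
    exact Finset.prod_congr rfl fun p hp => (Complex.exp_log (hne p hp)).symm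
  have hLn : ‖L‖ ≤ ‖∑ p ∈ S, u p‖ + ∑ p ∈ S, ‖u p‖ ^ 2 := by
    have h1 : L = -(∑ p ∈ S, u p) + ∑ p ∈ S, (Complex.log (1 - u p) + u p) := by
      rw [hL, Finset.sum_add_distrib]
      ring
    rw [h1]
    refine (norm_add_le _ _).trans ?_
    rw [norm_neg]
    refine add_le_add le_rfl ?_
    exact (norm_sum_le _ _).trans (Finset.sum_le_sum hlog)
  have h1 := Complex.abs_re_le_norm L
  rw [abs_le] at h1
  rw [hprod, Complex.norm_exp]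
  exact ⟨Real.exp_le_exp.2 (by linarith [h1.2]), Real.exp_le_exp.2 (by linarith [h1.1])⟩

private theorem bmexp_dd {δ : ℝ} (hδ : 0 < δ) (hδ1 : δ ≤ 1 / 10 ^ 4) (j : ℕ) :
    (1000 : ℝ) ≤ dd δ j := by
  have h1 : (δ * Real.exp (-(j : ℝ))) ^ (-(3 / 4) : ℝ) ≤ dd δ j := Nat.le_ceil _
  refine le_trans ?_ h1
  have h2 : (1 / 10 ^ 4 : ℝ) ^ (-(3 / 4) : ℝ) = 1000 := by
    have h3 : (1 / 10 ^ 4 : ℝ) = (10 : ℝ) ^ (-4 : ℝ) := by
      rw [Real.rpow_neg (by norm_num), one_div]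
      norm_num
    rw [h3, ← Real.rpow_mul (by norm_num)]
    norm_num
  rw [← h2]
  exact Real.rpow_le_rpow_of_nonpos (bet_pos hδ j) ((bet_le hδ j).trans hδ1) (by norm_num)

private theorem bmexp_20 : Real.exp (5 / 2) ≤ 20 := by
  have h1 : Real.exp (5 / 2) ^ 2 = Real.exp 1 ^ 5 := by
    rw [← Real.exp_nat_mul, ← Real.exp_nat_mul]
    norm_num
  have h2 := Real.exp_one_lt_d9
  have h3 : Real.exp 1 ^ 5 ≤ 2.7182818286 ^ 5 :=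
    pow_le_pow_left₀ (Real.exp_pos 1).le h2.le _
  refine (pow_le_pow_iff_left₀ (Real.exp_pos _).le (by norm_num) two_ne_zero).1 ?_
  rw [h1]
  refine h3.trans ?_
  norm_num

/-- the size of a term -/
private theorem bmexp_term {δ T : ℝ} {j p : ℕ} (hp : p ∈ Pr δ T j) {s : ℂ}
    (hs : 1 / 2 ≤ s.re) :
    ‖(p : ℂ) ^ (-s)‖ ≤ (p : ℝ) ^ (-(1 / 2) : ℝ) *
      Real.exp (-(Real.log T * bet δ (j + 1) * (s.re - 1 / 2))) := by
  rw [mem_Pr] at hp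
  obtain ⟨h1, h2, h3, h4⟩ := hp
  have hp0 : (0 : ℝ) < p := by exact_mod_cast h1.pos
  rw [Complex.norm_natCast_cpow_of_pos h1.pos]
  have e1 : (-s).re = -(1 / 2) + -(s.re - 1 / 2) := by
    rw [Complex.neg_re]
    ring
  rw [e1, Real.rpow_add hp0]
  refine mul_le_mul_of_nonneg_left ?_ (Real.rpow_pos_of_pos hp0 _).le
  rw [Real.rpow_def_of_pos hp0]
  refine Real.exp_le_exp.2 ?_
  have h5 : Real.log T * bet δ (j + 1) ≤ Real.log p := by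
    rw [← log_xs]
    exact (Real.log_lt_log (xs_pos _ _ _) h3).le
  have h6 : 0 ≤ s.re - 1 / 2 := by linarith
  nlinarith

private theorem bmexp_half {p : ℕ} (hp : 10000 < p) :
    (p : ℝ) ^ (-(1 / 2) : ℝ) ≤ 1 / 100 ∧ ((p : ℝ) ^ (-(1 / 2) : ℝ)) ^ 2 = 1 / (p : ℝ) := by
  have hp0 : (0 : ℝ) < p := by
    have : 0 < p := by omega
    exact_mod_cast this
  have h1 : ((p : ℝ) ^ (-(1 / 2) : ℝ)) ^ 2 = 1 / (p : ℝ) := by
    rw [← Real.rpow_natCast, ← Real.rpow_mul hp0.le]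
    norm_num
    rw [Real.rpow_neg_one]
  refine ⟨?_, h1⟩
  have h2 : ((p : ℝ) ^ (-(1 / 2) : ℝ)) ^ 2 ≤ (1 / 100) ^ 2 := by
    rw [h1, div_le_iff₀ hp0]
    have : (10000 : ℝ) < p := by exact_mod_cast hp
    linarith
  exact (pow_le_pow_iff_left₀ (Real.rpow_pos_of_pos hp0 _).le (by norm_num) two_ne_zero).1 h2

theorem mexp : ∃ δ₁ : ℝ, 0 < δ₁ ∧ δ₁ ≤ 1 / 4 ∧ ∀ δ : ℝ, 0 < δ → δ ≤ δ₁ → ∀ T : ℝ, 2 ≤ T →
    ∀ (j : ℕ) (s : ℂ), 1 / 2 ≤ s.re → s.re ≤ 2 →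
      Real.exp (Real.log T * bet δ (j + 1) * (s.re - 1 / 2) / 2) * ‖Pj δ T j s‖ ≤ 1 / 100 * dd δ j →
      ‖Mj δ T j s - Ej δ T j s‖ ≤
        Real.exp (-(dd δ j : ℝ) - kpj δ j * (s.re - 1 / 2) * Real.log T / 2) * ‖Ej δ T j s‖ := by
  refine ⟨1 / 10 ^ 4, by norm_num, by norm_num, ?_⟩
  intro δ hδ hδ1 T hT j s hs1 hs2 hP
  have hT1 : 1 ≤ T := by linarith
  have hl : 0 ≤ Real.log T := Real.log_nonneg hT1
  have hβ : 0 < bet δ (j + 1) := bet_pos hδ _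
  have hd := bmexp_dd hδ hδ1 j
  obtain ⟨d, hdd⟩ : ∃ d : ℕ, d = dd δ j := ⟨_, rfl⟩
  obtain ⟨x, hx⟩ : ∃ x : ℝ, x = s.re - 1 / 2 := ⟨_, rfl⟩
  have hx0 : 0 ≤ x := by rw [hx]; linarith
  obtain ⟨lb, hlb⟩ : ∃ lb : ℝ, lb = Real.log T * bet δ (j + 1) := ⟨_, rfl⟩
  have hlb0 : 0 ≤ lb := by
    rw [hlb]
    exact mul_nonneg hl hβ.le
  have hterm : ∀ p ∈ Pr δ T j, ‖(p : ℂ) ^ (-s)‖ ≤ (p : ℝ) ^ (-(1 / 2) : ℝ) *
      Real.exp (-(lb * x)) := by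
    intro p hp
    rw [hlb, hx]
    exact bmexp_term hp hs1
  rw [← hdd] at hd hP
  rw [← hx, ← hlb] at hP
  have hlbx : 0 ≤ lb * x := mul_nonneg hlb0 hx0
  have hE1 : 1 ≤ Real.exp (lb * x / 2) := Real.one_le_exp (by linarith)
  obtain ⟨R, hR⟩ : ∃ R : ℝ, R = 20 * Real.exp (lb * x / 2) := ⟨_, rfl⟩
  have hR2 : 2 ≤ R := by rw [hR]; linarith
  have hR0 : 0 < R := by linarith
  have hPj : ‖∑ p ∈ Pr δ T j, (p : ℂ) ^ (-s)‖ ≤ d / 100 := by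
    have h1 : ‖Pj δ T j s‖ ≤ Real.exp (lb * x / 2) * ‖Pj δ T j s‖ :=
      le_mul_of_one_le_left (norm_nonneg _) hE1
    have h2 : Pj δ T j s = ∑ p ∈ Pr δ T j, (p : ℂ) ^ (-s) := rfl
    rw [← h2]
    linarith
  have hblock := a0_block δ hT1 j
  have hexp1 : Real.exp (-(lb * x)) ≤ 1 := Real.exp_le_one_iff.2 (by linarith)
  -- the product is not small
  have hEj : Real.exp (-((d : ℝ) / 100 + 3)) ≤ ‖Ej δ T j s‖ := by
    have h1 := (prod_exp (Pr δ T j) (fun p => (p : ℂ) ^ (-s)) (by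
      intro p hp
      have h2 := hterm p hp
      have h3 := (bmexp_half (mem_Pr.1 hp).2.1).1
      have h4 : (0 : ℝ) ≤ (p : ℝ) ^ (-(1 / 2) : ℝ) := Real.rpow_nonneg (Nat.cast_nonneg p) _
      nlinarith [Real.exp_pos (-(lb * x))])).2
    refine le_trans (Real.exp_le_exp.2 ?_) h1
    have h5 : ∑ p ∈ Pr δ T j, ‖(p : ℂ) ^ (-s)‖ ^ 2 ≤ 3 := by
      refine (Finset.sum_le_sum fun p hp => ?_).trans hblock
      have h2 := hterm p hp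
      have h3 := (bmexp_half (mem_Pr.1 hp).2.1).2
      have h4 : (0 : ℝ) ≤ (p : ℝ) ^ (-(1 / 2) : ℝ) := Real.rpow_nonneg (Nat.cast_nonneg p) _
      rw [← h3]
      refine pow_le_pow_left₀ (norm_nonneg _) (h2.trans ?_) 2
      exact mul_le_of_le_one_right h4 hexp1
    linarith
  -- the bound on the circle
  have hK : ∀ z : ℂ, ‖z‖ = R → ‖∏ p ∈ Pr δ T j, (1 - z * (p : ℂ) ^ (-s))‖ ≤
      Real.exp ((d : ℝ) / 5 + 1200) := by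
    intro z hz
    have hu : ∀ p ∈ Pr δ T j, ‖z * (p : ℂ) ^ (-s)‖ ≤ 20 * (p : ℝ) ^ (-(1 / 2) : ℝ) := by
      intro p hp
      have h2 := hterm p hp
      have h4 : (0 : ℝ) ≤ (p : ℝ) ^ (-(1 / 2) : ℝ) := Real.rpow_nonneg (Nat.cast_nonneg p) _
      rw [norm_mul, hz, hR]
      have h6 : Real.exp (lb * x / 2) * Real.exp (-(lb * x)) ≤ 1 := by
        rw [← Real.exp_add]
        exact Real.exp_le_one_iff.2 (by linarith)
      calc 20 * Real.exp (lb * x / 2) * ‖(p : ℂ) ^ (-s)‖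
          ≤ 20 * Real.exp (lb * x / 2) * ((p : ℝ) ^ (-(1 / 2) : ℝ) * Real.exp (-(lb * x))) :=
            mul_le_mul_of_nonneg_left h2 (by positivity)
        _ = 20 * (p : ℝ) ^ (-(1 / 2) : ℝ) *
            (Real.exp (lb * x / 2) * Real.exp (-(lb * x))) := by ring
        _ ≤ 20 * (p : ℝ) ^ (-(1 / 2) : ℝ) * 1 := mul_le_mul_of_nonneg_left h6 (by positivity)
        _ = _ := mul_one _
    have h1 := (prod_exp (Pr δ T j) (fun p => z * (p : ℂ) ^ (-s)) (by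
      intro p hp
      have h2 := hu p hp
      have h3 := (bmexp_half (mem_Pr.1 hp).2.1).1
      linarith)).1
    refine h1.trans (Real.exp_le_exp.2 ?_)
    have h5 : ∑ p ∈ Pr δ T j, ‖z * (p : ℂ) ^ (-s)‖ ^ 2 ≤ 400 * 3 := by
      calc ∑ p ∈ Pr δ T j, ‖z * (p : ℂ) ^ (-s)‖ ^ 2
          ≤ ∑ p ∈ Pr δ T j, 400 * (1 / (p : ℝ)) := by
            refine Finset.sum_le_sum fun p hp => ?_
            have h2 := hu p hp
            have h3 := (bmexp_half (mem_Pr.1 hp).2.1).2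
            rw [← h3]
            calc ‖z * (p : ℂ) ^ (-s)‖ ^ 2 ≤ (20 * (p : ℝ) ^ (-(1 / 2) : ℝ)) ^ 2 :=
                  pow_le_pow_left₀ (norm_nonneg _) h2 2
              _ = _ := by ring
        _ = 400 * ∑ p ∈ Pr δ T j, 1 / (p : ℝ) := by rw [Finset.mul_sum]
        _ ≤ _ := by linarith
    have h6 : ‖∑ p ∈ Pr δ T j, z * (p : ℂ) ^ (-s)‖ ≤ (d : ℝ) / 5 := by
      rw [← Finset.mul_sum, norm_mul, hz, hR]
      have h7 : Pj δ T j s = ∑ p ∈ Pr δ T j, (p : ℂ) ^ (-s) := rfl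
      rw [← h7]
      linarith
    linarith
  have htail := prod_tail (Pr δ T j) (fun p => (p : ℂ) ^ (-s)) d R _ hR2 hK
  have hM : Mj δ T j s = ∑ U ∈ (Pr δ T j).powerset.filter (fun U => U.card ≤ d),
      (-1) ^ U.card * ∏ p ∈ U, (p : ℂ) ^ (-s) := by
    rw [hdd]
    rfl
  have hE : Ej δ T j s = ∏ p ∈ Pr δ T j, (1 - (p : ℂ) ^ (-s)) := rfl
  rw [← hM, ← hE] at htail
  refine htail.trans ?_
  -- the numbers
  have h20 : Real.exp (5 / 2 * d) ≤ 20 ^ d := by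
    have h1 : Real.exp (5 / 2 * d) = Real.exp (5 / 2) ^ d := by
      rw [← Real.exp_nat_mul]
      congr 1
      ring
    rw [h1]
    exact pow_le_pow_left₀ (Real.exp_pos _).le bmexp_20 d
  have hRd : Real.exp (5 / 2 * d + lb * x / 2 * d) ≤ R ^ d := by
    rw [hR, mul_pow, Real.exp_add]
    have h1 : Real.exp (lb * x / 2 * d) = Real.exp (lb * x / 2) ^ d := by
      rw [← Real.exp_nat_mul]
      congr 1
      ring
    rw [h1]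
    exact mul_le_mul_of_nonneg_right h20 (by positivity)
  have hRi : (R ^ d)⁻¹ ≤ Real.exp (-(5 / 2 * d + lb * x / 2 * d)) := by
    rw [Real.exp_neg]
    exact inv_anti₀ (Real.exp_pos _) hRd
  have hkp : (d : ℝ) * (lb * x) = kpj δ j * x * Real.log T := by
    rw [kpj, ← hdd, hlb]
    ring
  rw [← hx, ← hdd]
  calc Real.exp ((d : ℝ) / 5 + 1200) * (R ^ d)⁻¹
      ≤ Real.exp ((d : ℝ) / 5 + 1200) * Real.exp (-(5 / 2 * d + lb * x / 2 * d)) :=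
        mul_le_mul_of_nonneg_left hRi (Real.exp_pos _).le
    _ = Real.exp (((d : ℝ) / 5 + 1200) + -(5 / 2 * d + lb * x / 2 * d)) :=
        (Real.exp_add _ _).symm
    _ ≤ Real.exp ((-(d : ℝ) - kpj δ j * x * Real.log T / 2) + -((d : ℝ) / 100 + 3)) := by
        refine Real.exp_le_exp.2 ?_
        rw [← hkp]
        linarith
    _ = Real.exp (-(d : ℝ) - kpj δ j * x * Real.log T / 2) *
          Real.exp (-((d : ℝ) / 100 + 3)) := Real.exp_add _ _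
    _ ≤ _ := mul_le_mul_of_nonneg_left hEj (Real.exp_pos _).le

end Pool.Agent.Lib.MP_ec260d_ntB
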