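import Mathlib
import Pool.Agent.Lib.MP_ec260d_ntB.BMexp

/-!
# JOB BLogM: the logarithm of the mollifier

* `kpj_pos`, `sum_dd`: `d = dd δ j ≥ β ^ (-3/4)` with `β = bet δ j = e bet δ (j+1)`, so `kpj δ j = bet δ (j+1) d ≥ e⁻¹ β ^ (1/4)` and `1 / kpj ≤ e β ^ (-1/4) ≤ e (β ^ (-3/4)) ≤ e d` (`β ≤ 1`). `exp (-d) (1 + 1/kpj) ≤ exp (-d) (1 + 3 d) ≤ 6 exp (-d/2)` or similar (`1 + 3 d ≤ 6 exp (d/2)`), and
  `d ≥ β ^ (-3/4) ≥ e ^ (3 j / 4) ≥ 3 j / 4` (`δ ≤ 1`), so the sum over `j < n` is at most `6 ∑ exp (- 3 j / 8) ≤ 6 / (1 - exp (-3/8))`, a constant.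
* `log_mm`: `MM s = ∏_{p ∈ P0} (1 - p ^ (-s)) * ∏_{j < JJ T} Mj s`. `Re (PP s) = - ∑_{P0} log ‖1 - p ^ (-s)‖ - ∑_j ∑_{p ∈ Pr j} log ‖1 - p ^ (-s)‖` (`Complex.log_re`), and `∑_{p ∈ Pr j} log ‖1 - p ^ (-s)‖ = log ‖Ej s‖` (all factors are nonzero: `‖p ^ (-s)‖ < 1` as `s.re > 0`, `p ≥ 2`).
  By `mexp`: `Mj = Ej (1 + w)` with `‖w‖ ≤ ε_j := exp (- dd - kpj (s.re - 1/2) l / 2) ≤ exp (-1) ≤ 1/2` (`dd ≥ 1`), so `Mj ≠ 0` and `|log ‖Mj‖ - log ‖Ej‖| = |log ‖1 + w‖| ≤ 2 ‖w‖` (for `‖w‖ ≤ 1/2`: `1 - ‖w‖ ≤ ‖1 + w‖ ≤ 1 + ‖w‖`, `log (1 + y) ≤ y`, `log (1 - y) ≥ - 2 y` on `[0, 1/2]`). Sum over `j`.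
-/

namespace Pool.Agent.Lib.MP_ec260d_ntB

open Complex Set Filter Topology MeasureTheory

theorem dd_ge {δ : ℝ} (hδ : 0 < δ) (j : ℕ) : (bet δ j) ^ (-(3 / 4) : ℝ) ≤ dd δ j ∧ 1 ≤ dd δ j := by
  constructor
  · exact Nat.le_ceil _
  · have h : 0 < (δ * Real.exp (-(j : ℝ))) ^ (-(3 / 4) : ℝ) :=
      Real.rpow_pos_of_pos (mul_pos hδ (Real.exp_pos _)) _
    exact Nat.ceil_pos.2 h

theorem kpj_pos {δ : ℝ} (hδ : 0 < δ) (j : ℕ) : 0 < kpj δ j := by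
  have h : 1 ≤ dd δ j := (dd_ge hδ j).2
  have h1 : (1 : ℝ) ≤ dd δ j := by exact_mod_cast h
  exact mul_pos (bet_pos hδ _) (by linarith)

private theorem BLogM_term {δ : ℝ} (hδ : 0 < δ) (hδ1 : δ ≤ 1) (j : ℕ) :
    Real.exp (-(dd δ j : ℝ)) * (1 + 1 / kpj δ j) ≤ 8 * Real.exp (-(3 / 8)) ^ j := by
  obtain ⟨h1, h2⟩ := dd_ge hδ j
  have hd1 : (1 : ℝ) ≤ dd δ j := by exact_mod_cast h2
  set d : ℝ := (dd δ j : ℝ) with hd
  have hβ : 0 < bet δ j := bet_pos hδ j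
  have hβ1 : bet δ j ≤ 1 := (bet_le hδ j).trans hδ1
  have hb' : 0 < bet δ (j + 1) := bet_pos hδ (j + 1)
  have he0 := Real.exp_pos 1
  have he2 : Real.exp 1 < 2.7182818286 := Real.exp_one_lt_d9
  -- the inverse of kpj
  have hinv : 1 / bet δ j ≤ d ^ 2 := by
    have h3 : (bet δ j) ^ (-(3 / 4) : ℝ) * (bet δ j) ^ (-(3 / 4) : ℝ) ≤ d * d :=
      mul_le_mul h1 h1 (Real.rpow_nonneg hβ.le _) (by linarith)
    rw [← Real.rpow_add hβ] at h3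
    have h4 : (bet δ j) ^ (-1 : ℝ) ≤ (bet δ j) ^ (-(3 / 4) + -(3 / 4) : ℝ) :=
      Real.rpow_le_rpow_of_exponent_ge hβ hβ1 (by norm_num)
    rw [Real.rpow_neg_one] at h4
    rw [one_div, sq]
    exact h4.trans h3
  have hk : 1 / kpj δ j ≤ Real.exp 1 * d := by
    have hkp := kpj_pos hδ j
    rw [div_le_iff₀ hkp]
    have h5 : kpj δ j = bet δ (j + 1) * d := rfl
    have h6 : 1 ≤ d ^ 2 * bet δ j := by
      rwa [div_le_iff₀ hβ] at hinv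
    rw [bet_succ] at h6
    rw [h5]
    calc (1 : ℝ) ≤ d ^ 2 * (Real.exp 1 * bet δ (j + 1)) := h6
      _ = Real.exp 1 * d * (bet δ (j + 1) * d) := by ring
  have h7 : 1 + 1 / kpj δ j ≤ 4 * d := by nlinarith
  have h8 : d ≤ 2 * Real.exp (d / 2) := by
    have := Real.add_one_le_exp (d / 2)
    linarith
  have h9 : Real.exp (-d) * (4 * d) ≤ 8 * Real.exp (-(d / 2)) := by
    have h10 : Real.exp (-d) * Real.exp (d / 2) = Real.exp (-(d / 2)) := by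
      rw [← Real.exp_add]
      ring_nf
    have h11 := Real.exp_pos (-d)
    calc Real.exp (-d) * (4 * d) ≤ Real.exp (-d) * (4 * (2 * Real.exp (d / 2))) := by
          refine mul_le_mul_of_nonneg_left ?_ h11.le
          linarith
      _ = 8 * (Real.exp (-d) * Real.exp (d / 2)) := by ring
      _ = 8 * Real.exp (-(d / 2)) := by rw [h10]
  have h12 : 3 / 4 * (j : ℝ) ≤ d := by
    have h13 : bet δ j ≤ Real.exp (-(j : ℝ)) := by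
      have h14 := Real.exp_pos (-(j : ℝ))
      unfold bet
      nlinarith
    have h15 : Real.exp (-(j : ℝ)) ^ (-(3 / 4) : ℝ) ≤ (bet δ j) ^ (-(3 / 4) : ℝ) :=
      Real.rpow_le_rpow_of_nonpos hβ h13 (by norm_num)
    rw [← Real.exp_mul] at h15
    have h16 := Real.add_one_le_exp (-(j : ℝ) * -(3 / 4))
    linarith
  have h17 : Real.exp (-(d / 2)) ≤ Real.exp (-(3 / 8)) ^ j := by
    rw [← Real.exp_nat_mul]
    refine Real.exp_le_exp.2 ?_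
    linarith
  calc Real.exp (-d) * (1 + 1 / kpj δ j) ≤ Real.exp (-d) * (4 * d) :=
        mul_le_mul_of_nonneg_left h7 (Real.exp_pos _).le
    _ ≤ 8 * Real.exp (-(d / 2)) := h9
    _ ≤ 8 * Real.exp (-(3 / 8)) ^ j := by linarith

theorem sum_dd : ∃ C : ℝ, 0 ≤ C ∧ ∀ δ : ℝ, 0 < δ → δ ≤ 1 → ∀ n : ℕ,
    ∑ j ∈ Finset.range n, Real.exp (-(dd δ j : ℝ)) * (1 + 1 / kpj δ j) ≤ C := by
  have hr0 : 0 ≤ Real.exp (-(3 / 8) : ℝ) := (Real.exp_pos _).le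
  have hr1 : Real.exp (-(3 / 8) : ℝ) < 1 := Real.exp_lt_one_iff.2 (by norm_num)
  refine ⟨8 * (1 - Real.exp (-(3 / 8) : ℝ))⁻¹, ?_, ?_⟩
  · have : 0 ≤ (1 - Real.exp (-(3 / 8) : ℝ))⁻¹ := inv_nonneg.2 (by linarith)
    linarith
  · intro δ hδ hδ1 n
    have hsum : ∑ j ∈ Finset.range n, Real.exp (-(3 / 8) : ℝ) ^ j ≤
        (1 - Real.exp (-(3 / 8) : ℝ))⁻¹ := by
      rw [← tsum_geometric_of_lt_one hr0 hr1]
      exact (summable_geometric_of_lt_one hr0 hr1).sum_le_tsum _ fun _ _ => pow_nonneg hr0 _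
    calc ∑ j ∈ Finset.range n, Real.exp (-(dd δ j : ℝ)) * (1 + 1 / kpj δ j)
        ≤ ∑ j ∈ Finset.range n, 8 * Real.exp (-(3 / 8)) ^ j :=
          Finset.sum_le_sum fun j _ => BLogM_term hδ hδ1 j
      _ = 8 * ∑ j ∈ Finset.range n, Real.exp (-(3 / 8) : ℝ) ^ j := by rw [Finset.mul_sum]
      _ ≤ 8 * (1 - Real.exp (-(3 / 8) : ℝ))⁻¹ := by linarith

private theorem BLogM_ne {p : ℕ} (hp : p.Prime) {s : ℂ} (hs : 1 / 2 ≤ s.re) :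
    (1 - (p : ℂ) ^ (-s)) ≠ 0 := by
  intro h
  have h1 : ‖(p : ℂ) ^ (-s)‖ < 1 := by
    rw [Complex.norm_natCast_cpow_of_pos hp.pos, Complex.neg_re]
    exact Real.rpow_lt_one_of_one_lt_of_neg (by exact_mod_cast hp.one_lt) (by linarith)
  have h2 : (p : ℂ) ^ (-s) = 1 := (sub_eq_zero.1 h).symm
  rw [h2, norm_one] at h1
  exact lt_irrefl _ h1

private theorem BLogM_cmp (a b : ℂ) (ε : ℝ) (hb : b ≠ 0) (hε0 : 0 ≤ ε) (hε : ε ≤ 1 / 2)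
    (h : ‖a - b‖ ≤ ε * ‖b‖) : a ≠ 0 ∧ |Real.log ‖a‖ - Real.log ‖b‖| ≤ 2 * ε := by
  have hb0 : 0 < ‖b‖ := norm_pos_iff.2 hb
  have h1 : (1 - ε) * ‖b‖ ≤ ‖a‖ := by
    have h2 : ‖b‖ ≤ ‖a‖ + ‖a - b‖ := by
      have h3 : b = a - (a - b) := by ring
      calc ‖b‖ = ‖a - (a - b)‖ := by rw [← h3]
        _ ≤ ‖a‖ + ‖a - b‖ := norm_sub_le _ _
    linarith
  have h2 : ‖a‖ ≤ (1 + ε) * ‖b‖ := by
    have h3 : a = b + (a - b) := by ring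
    calc ‖a‖ = ‖b + (a - b)‖ := by rw [← h3]
      _ ≤ ‖b‖ + ‖a - b‖ := norm_add_le _ _
      _ ≤ (1 + ε) * ‖b‖ := by linarith
  have hε1 : 0 < 1 - ε := by linarith
  have ha0 : 0 < ‖a‖ := lt_of_lt_of_le (mul_pos hε1 hb0) h1
  refine ⟨norm_pos_iff.1 ha0, ?_⟩
  rw [abs_le]
  constructor
  · have h3 := Real.log_le_log (mul_pos hε1 hb0) h1
    rw [Real.log_mul hε1.ne' hb0.ne'] at h3
    have h4 := Real.one_sub_inv_le_log_of_pos hε1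
    have h5 : (1 - ε)⁻¹ ≤ 1 + 2 * ε := by
      rw [inv_le_iff_one_le_mul₀ hε1]
      nlinarith
    linarith
  · have h3 := Real.log_le_log ha0 h2
    have h1ε : 0 < 1 + ε := by linarith
    rw [Real.log_mul h1ε.ne' hb0.ne'] at h3
    have h4 := Real.log_le_sub_one_of_pos h1ε
    linarith

theorem log_mm : ∃ δ₁ : ℝ, 0 < δ₁ ∧ δ₁ ≤ 1 / 4 ∧ ∀ δ : ℝ, 0 < δ → δ ≤ δ₁ → ∀ T : ℝ, 2 ≤ T →
    ∀ s : ℂ, 1 / 2 ≤ s.re → s.re ≤ 2 →
      (∀ j ∈ Finset.range (JJ T),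
        Real.exp (Real.log T * bet δ (j + 1) * (s.re - 1 / 2) / 2) * ‖Pj δ T j s‖ ≤ 1 / 100 * dd δ j) →
      MM δ T s ≠ 0 ∧ |Real.log ‖MM δ T s‖ + (PP δ T s).re| ≤
        ∑ j ∈ Finset.range (JJ T),
          2 * Real.exp (-(dd δ j : ℝ) - kpj δ j * (s.re - 1 / 2) * Real.log T / 2) := by
  obtain ⟨δ₁, hδ₁, hδ₁4, hm⟩ := mexp
  refine ⟨δ₁, hδ₁, hδ₁4, ?_⟩
  intro δ hδ hδδ T hT s hs1 hs2 hyp
  have hlT : 0 ≤ Real.log T := Real.log_nonneg (by linarith)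
  -- Euler factors
  have hP0 : ∀ p ∈ P0, (1 - (p : ℂ) ^ (-s)) ≠ 0 := by
    intro p hp
    exact BLogM_ne (Finset.mem_filter.1 hp).2 hs1
  have hPr : ∀ j : ℕ, ∀ p ∈ Pr δ T j, (1 - (p : ℂ) ^ (-s)) ≠ 0 := by
    intro j p hp
    exact BLogM_ne (mem_Pr.1 hp).1 hs1
  have hE : ∀ j : ℕ, Ej δ T j s ≠ 0 := fun j => Finset.prod_ne_zero_iff.2 (hPr j)
  have hEl : ∀ j : ℕ, Real.log ‖Ej δ T j s‖ =
      ∑ p ∈ Pr δ T j, Real.log ‖1 - (p : ℂ) ^ (-s)‖ := by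
    intro j
    unfold Ej
    rw [norm_prod, Real.log_prod fun p hp => norm_ne_zero_iff.2 (hPr j p hp)]
  have hM : ∀ j ∈ Finset.range (JJ T), Mj δ T j s ≠ 0 ∧
      |Real.log ‖Mj δ T j s‖ - Real.log ‖Ej δ T j s‖| ≤
        2 * Real.exp (-(dd δ j : ℝ) - kpj δ j * (s.re - 1 / 2) * Real.log T / 2) := by
    intro j hj
    have h1 := hm δ hδ hδδ T hT j s hs1 hs2 (hyp j hj)
    refine BLogM_cmp _ _ _ (hE j) (Real.exp_pos _).le ?_ h1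
    have h2 : (1 : ℝ) ≤ dd δ j := by exact_mod_cast (dd_ge hδ j).2
    have h3 : 0 ≤ kpj δ j * (s.re - 1 / 2) * Real.log T / 2 := by
      have h4 := (kpj_pos hδ j).le
      have h5 : 0 ≤ s.re - 1 / 2 := by linarith
      positivity
    have h6 : Real.exp (-(dd δ j : ℝ) - kpj δ j * (s.re - 1 / 2) * Real.log T / 2) ≤
        Real.exp (-1) := Real.exp_le_exp.2 (by linarith)
    have h7 : Real.exp (-1) ≤ 1 / 2 := by
      rw [Real.exp_neg, inv_eq_one_div]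
      have h8 := Real.add_one_le_exp (1 : ℝ)
      exact one_div_le_one_div_of_le (by norm_num) (by linarith)
    exact h6.trans h7
  have hMM0 : MM δ T s ≠ 0 := by
    unfold MM
    exact mul_ne_zero (Finset.prod_ne_zero_iff.2 hP0)
      (Finset.prod_ne_zero_iff.2 fun j hj => (hM j hj).1)
  refine ⟨hMM0, ?_⟩
  have hMMl : Real.log ‖MM δ T s‖ = ∑ p ∈ P0, Real.log ‖1 - (p : ℂ) ^ (-s)‖ +
      ∑ j ∈ Finset.range (JJ T), Real.log ‖Mj δ T j s‖ := by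
    unfold MM
    rw [norm_mul, norm_prod, norm_prod, Real.log_mul, Real.log_prod, Real.log_prod]
    · exact fun j hj => norm_ne_zero_iff.2 (hM j hj).1
    · exact fun p hp => norm_ne_zero_iff.2 (hP0 p hp)
    · exact Finset.prod_ne_zero_iff.2 fun p hp => norm_ne_zero_iff.2 (hP0 p hp)
    · exact Finset.prod_ne_zero_iff.2 fun j hj => norm_ne_zero_iff.2 (hM j hj).1
  have hPPr : (PP δ T s).re = -∑ p ∈ P0, Real.log ‖1 - (p : ℂ) ^ (-s)‖ -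
      ∑ j ∈ Finset.range (JJ T), Real.log ‖Ej δ T j s‖ := by
    unfold PP
    rw [Complex.add_re, Complex.re_sum, Complex.re_sum]
    have h1 : ∑ p ∈ P0, (-Complex.log (1 - (p : ℂ) ^ (-s))).re =
        -∑ p ∈ P0, Real.log ‖1 - (p : ℂ) ^ (-s)‖ := by
      rw [← Finset.sum_neg_distrib]
      refine Finset.sum_congr rfl fun p _ => ?_
      rw [Complex.neg_re, Complex.log_re]
    have h2 : ∑ j ∈ Finset.range (JJ T), (∑ p ∈ Pr δ T j, -Complex.log (1 - (p : ℂ) ^ (-s))).re =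
        -∑ j ∈ Finset.range (JJ T), Real.log ‖Ej δ T j s‖ := by
      rw [← Finset.sum_neg_distrib]
      refine Finset.sum_congr rfl fun j _ => ?_
      rw [Complex.re_sum, hEl j, ← Finset.sum_neg_distrib]
      refine Finset.sum_congr rfl fun p _ => ?_
      rw [Complex.neg_re, Complex.log_re]
    rw [h1, h2]
    ring
  rw [hMMl, hPPr]
  have hdiff : ∑ p ∈ P0, Real.log ‖1 - (p : ℂ) ^ (-s)‖ +
      ∑ j ∈ Finset.range (JJ T), Real.log ‖Mj δ T j s‖ +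
      (-∑ p ∈ P0, Real.log ‖1 - (p : ℂ) ^ (-s)‖ -
        ∑ j ∈ Finset.range (JJ T), Real.log ‖Ej δ T j s‖) =
      ∑ j ∈ Finset.range (JJ T), (Real.log ‖Mj δ T j s‖ - Real.log ‖Ej δ T j s‖) := by
    rw [Finset.sum_sub_distrib]
    ring
  rw [hdiff]
  exact (Finset.abs_sum_le_sum_abs _ _).trans (Finset.sum_le_sum fun j hj => (hM j hj).2)

end Pool.Agent.Lib.MP_ec260d_ntB
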