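import Mathlib
import Pool.Agent.Lib.MP_ec260d_ntB.BGood
import Pool.Agent.Lib.MP_ec260d_ntB.BJen
import Pool.Agent.Lib.MP_ec260d_ntB.BLogM
import Pool.Agent.Lib.MP_ec260d_ntB.BQQ
import Pool.Agent.Lib.MP_ec260d_ntB.GLam

/-!
# JOB BDL: the part of `Lam` to the left of `σ₀ = 1/2 + W / log T`, for a good height

`l = log T`, `h = hT T`, box `Q = [1/2, σ₀] × [t - h, t]`, `F s = ζ(s) M(s)`, `M = MM δ T`, `s_e = sW W T t = σ₀ + i t`, `c = 1/2 + 2 W / l + i t`, `r = (2 W + 7) / l`.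
(1) Almost everywhere on `Q` (off the finitely many zeros of `ζ` there; `log_int_zeta`): `log ‖ζ s‖ = log ‖F s‖ - log ‖M s‖` (`M s ≠ 0` on `Q` by `log_mm`, `g1`) `= log ‖F s‖ - (log ‖M s‖ + Re (PP s)) + (Re (PP s) - Re (PP s_e)) + Re (PP s_e)`. To avoid the zeros: if `ζ s = 0` then `F s = 0` and both logarithms are `0`: the identity fails only on the zeros;
  they are a null set (zeros of `ζ` in `Q` are zeros of `xi`, finite: `zset` in GN.lean or `finite_zeros`; or: the set where `log ‖ζ‖ ≠ log ‖F‖ - log ‖M‖` is contained in the zero set of an analytic function).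
(2) `∫ u in (t - h)..t, stp2 T t u = 0` (`stp2_int`), so the constant `Re (PP s_e)` contributes `0` (`bi_iter`).
(3) So `|BI Q (stp2 log ‖ζ‖)| ≤ (15 / h ^ 2) (BI Q |log ‖F‖| + BI Q ∑_j 2 exp (- d_j) + BI Q ‖PP s - PP s_e‖)` (`stp2_abs`, `bi_abs_le`, `bi_mono`).
  * `BI Q |log ‖F‖| ≤ 2 K / l ^ 2 + r ^ 2`: `jensen_box` with centre `c` and radius `r`: `‖F c‖ ≥ 3/4` by `g2` (`1/2 + W / l ≤ Re c = 1/2 + 2 W / l ≤ 2`, `|Im c - t| = 0`), `Q` is inside the disc: `‖s - c‖ ≤ 2 W / l + h = (2 W + 2 π) / l ≤ r` (`2 π ≤ 7`), `F` is differentiable on the square (`s ≠ 1` since `Im s > 0`: `t ≥ T ≥ 100`, `r ≤ 1`), `g4`.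
  * `BI Q ∑_j 2 exp (- d_j) ≤ (W / l) h 2 C` (`sum_dd`; `exp (- d_j - ..) ≤ exp (- d_j)`).
  * `‖PP s - PP s_e‖ ≤ ∫ y in s.re..σ₀, ‖PP' (y + i s.im)‖ + ∫ v in (s.im)..t, ‖PP' (σ₀ + i v)‖ ≤ ∫ y in (1/2)..σ₀, ‖PP' (y + i s.im)‖ + K` (`g6`), and `BI Q` of this is at most `(W / l) (K / l) + (W / l) h K` (`bi_iter'`, `g5`, `bi_subset`).
(4) `h l = 2 π` (`hT_mul`): everything is at most `C (W + 1) ^ 2 (K + 1)`: `(15 / (4 π ^ 2)) (2 K + (2 W + 7) ^ 2 + 4 π W C + W K + 2 π W K)`, `K ≥ 0`.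
-/

namespace Pool.Agent.Lib.MP_ec260d_ntB

open Complex Set Filter Topology MeasureTheory

/-- zeros of zeta in a box away from the real axis form a null set -/
private theorem BDL_null (a b A B : ℝ) (ha : 0 < a) (hA : 0 < A) :
    volume {z : ℝ × ℝ | z ∈ bx a b A B ∧ riemannZeta (pt z) = 0} = 0 := by
  obtain ⟨C, hC⟩ := Pool.Agent.Lib.MP_00e05b_nt.xi_growth
  have hfin := Pool.Agent.Lib.MP_00e05b_nt.finite_zeros hC (|b| + |B|)
  have h1 : {z : ℝ × ℝ | z ∈ bx a b A B ∧ riemannZeta (pt z) = 0} ⊆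
      pt ⁻¹' {a : ℂ | Pool.Agent.Lib.MP_00e05b_nt.xi a = 0 ∧ ‖a‖ ≤ |b| + |B|} := by
    rintro z ⟨hz, h0⟩
    have hz' := pt_mem.2 hz
    obtain ⟨z1, z2, z3, z4⟩ := hz'
    have hne : pt z ≠ 1 := by
      intro h
      have := congrArg Complex.im h
      rw [Complex.one_im] at this
      linarith
    constructor
    · rw [Pool.Agent.Lib.MP_00e05b_nt.xi_eq_zeta (by linarith) hne, h0, mul_zero]
    · refine (Complex.norm_le_abs_re_add_abs_im (pt z)).trans ?_
      rw [abs_of_nonneg (by linarith : 0 ≤ (pt z).re), abs_of_nonneg (by linarith : 0 ≤ (pt z).im)]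
      have := le_abs_self b
      have := le_abs_self B
      linarith
  have hinj : Function.Injective pt := by
    intro z w h
    have e1 := congrArg Complex.re h
    have e2 := congrArg Complex.im h
    rw [pt_re, pt_re] at e1
    rw [pt_im, pt_im] at e2
    exact Prod.ext e1 e2
  exact measure_mono_null h1 ((hfin.preimage hinj.injOn).measure_zero volume)

private theorem BDL_ppc {δ T : ℝ} (hδ : 0 < δ) (hT : 1 ≤ T) : ContinuousOn (PP δ T) {s | 0 < s.re} :=
  fun _ hs => (PP_der hδ hT hs).continuousAt.continuousWithinAt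

private theorem BDL_open : IsOpen {s : ℂ | 0 < s.re} := isOpen_lt continuous_const Complex.continuous_re

private theorem BDL_dc {δ T : ℝ} (hδ : 0 < δ) (hT : 1 ≤ T) :
    ContinuousOn (deriv (PP δ T)) {s | 0 < s.re} := by
  have h : DifferentiableOn ℂ (PP δ T) {s | 0 < s.re} :=
    fun _ hs => (PP_der hδ hT hs).differentiableAt.differentiableWithinAt
  exact (h.deriv BDL_open).continuousOn

/-- horizontal increments -/
private theorem BDL_hor {δ T : ℝ} (hδ : 0 < δ) (hT : 1 ≤ T) {x y v : ℝ} (hx : 1 / 2 ≤ x) (hxy : x ≤ y) :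
    ‖PP δ T ((x : ℂ) + v * I) - PP δ T ((y : ℂ) + v * I)‖ ≤
      ∫ w in (1 / 2 : ℝ)..y, ‖deriv (PP δ T) ((w : ℂ) + v * I)‖ := by
  have hre : ∀ w : ℝ, ((w : ℂ) + v * I).re = w := by intro w; simp
  have hcont : ContinuousOn (fun w : ℝ => deriv (PP δ T) ((w : ℂ) + v * I)) (Set.Icc (1 / 2) y) := by
    refine (BDL_dc hδ hT).comp (by fun_prop) ?_
    intro w hw
    show 0 < ((w : ℂ) + v * I).re
    rw [hre]
    linarith [hw.1]
  have hd : ∀ w ∈ Set.uIcc x y, HasDerivAt (fun w : ℝ => PP δ T ((w : ℂ) + v * I))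
      (deriv (PP δ T) ((w : ℂ) + v * I)) w := by
    intro w hw
    rw [Set.uIcc_of_le hxy] at hw
    have h0 : 0 < ((w : ℂ) + v * I).re := by rw [hre]; linarith [hw.1]
    have h1 := (PP_der hδ hT h0).differentiableAt.hasDerivAt
    have h2 : HasDerivAt (fun w : ℝ => (w : ℂ) + v * I) 1 w := by
      have := (Complex.ofRealCLM.hasDerivAt (x := w)).add_const (v * I)
      simpa using this
    have h3 := HasDerivAt.comp w h1 h2
    rw [mul_one] at h3
    exact h3
  have hsub : Set.uIcc x y ⊆ Set.Icc (1 / 2) y := by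
    rw [Set.uIcc_of_le hxy]
    exact Set.Icc_subset_Icc hx le_rfl
  have hint : IntervalIntegrable (fun w : ℝ => deriv (PP δ T) ((w : ℂ) + v * I)) volume x y :=
    (hcont.mono hsub).intervalIntegrable
  have hftc := intervalIntegral.integral_eq_sub_of_hasDerivAt hd hint
  have hint2 : IntervalIntegrable (fun w : ℝ => ‖deriv (PP δ T) ((w : ℂ) + v * I)‖) volume (1 / 2) y := by
    refine ContinuousOn.intervalIntegrable ?_
    rw [Set.uIcc_of_le (hx.trans hxy)]
    exact hcont.norm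
  rw [norm_sub_rev, ← hftc]
  refine (intervalIntegral.norm_integral_le_integral_norm hxy).trans ?_
  refine intervalIntegral.integral_mono_interval hx hxy le_rfl ?_ hint2
  exact Filter.Eventually.of_forall fun w => norm_nonneg _

/-- vertical increments on the line `σ₀` -/
private theorem BDL_ver {δ T W : ℝ} (hδ : 0 < δ) (hT : 1 ≤ T) (hσ : 0 < 1 / 2 + W / Real.log T) {t v h : ℝ}
    (hv1 : t - h ≤ v) (hv2 : v ≤ t) (_hh : 0 ≤ h) :
    ‖PP δ T (sW W T v) - PP δ T (sW W T t)‖ ≤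
      ∫ w in (t - h)..(t + h), ‖deriv (PP δ T) (sW W T w)‖ := by
  have hre : ∀ w : ℝ, (sW W T w).re = 1 / 2 + W / Real.log T := by
    intro w
    unfold sW
    rw [Complex.add_re, Complex.ofReal_re]
    simp
  have hcs : Continuous (sW W T) := by unfold sW; fun_prop
  have hcont : Continuous (fun w : ℝ => deriv (PP δ T) (sW W T w)) := by
    refine (BDL_dc hδ hT).comp_continuous hcs ?_
    intro w
    show 0 < (sW W T w).re
    rw [hre]
    exact hσ
  have hd : ∀ w ∈ Set.uIcc v t, HasDerivAt (fun w : ℝ => PP δ T (sW W T w))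
      (deriv (PP δ T) (sW W T w) * I) w := by
    intro w _
    have h0 : 0 < (sW W T w).re := by rw [hre]; exact hσ
    have h1 := (PP_der hδ hT h0).differentiableAt.hasDerivAt
    have h2 : HasDerivAt (sW W T) I w := by
      unfold sW
      have := ((Complex.ofRealCLM.hasDerivAt (x := w)).mul_const I).const_add
        (((1 / 2 + W / Real.log T : ℝ) : ℂ))
      simpa using this
    exact HasDerivAt.comp w h1 h2
  have hint : IntervalIntegrable (fun w : ℝ => deriv (PP δ T) (sW W T w) * I) volume v t :=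
    (hcont.mul continuous_const).intervalIntegrable _ _
  have hftc := intervalIntegral.integral_eq_sub_of_hasDerivAt hd hint
  rw [norm_sub_rev, ← hftc]
  refine (intervalIntegral.norm_integral_le_integral_norm hv2).trans ?_
  have e : ∀ w : ℝ, ‖deriv (PP δ T) (sW W T w) * I‖ = ‖deriv (PP δ T) (sW W T w)‖ := by
    intro w
    rw [norm_mul, Complex.norm_I, mul_one]
  simp only [e]
  refine intervalIntegral.integral_mono_interval hv1 hv2 (by linarith) ?_
    (hcont.norm.intervalIntegrable _ _)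
  exact Filter.Eventually.of_forall fun w => norm_nonneg _

/-- the integral over a box of the horizontal integrals -/
private theorem BDL_box {g : ℂ → ℝ} (hg : ContinuousOn g {s | 0 < s.re}) {b A B : ℝ} (hb : 1 / 2 ≤ b)
    (hAB : A ≤ B) :
    BInt (1 / 2) b A B (fun s => ∫ w in (1 / 2 : ℝ)..b, g ((w : ℂ) + s.im * I)) ∧
    BI (1 / 2) b A B (fun s => ∫ w in (1 / 2 : ℝ)..b, g ((w : ℂ) + s.im * I)) =
      (b - 1 / 2) * BI (1 / 2) b A B g := by
  have hc : Continuous (fun q : ℝ × ℝ => g (((max (1 / 2) q.2 : ℝ) : ℂ) + q.1 * I)) := by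
    refine hg.comp_continuous (by fun_prop) ?_
    intro q
    show 0 < (((max (1 / 2) q.2 : ℝ) : ℂ) + q.1 * I).re
    simp only [Complex.add_re, Complex.ofReal_re, Complex.mul_re, Complex.I_re, mul_zero,
      Complex.ofReal_im, Complex.I_im, mul_one, sub_self, add_zero]
    exact lt_of_lt_of_le (by norm_num) (le_max_left _ _)
  have hG : Continuous (fun v : ℝ => ∫ w in (1 / 2 : ℝ)..b, g (((max (1 / 2) w : ℝ) : ℂ) + v * I)) :=
    intervalIntegral.continuous_parametric_intervalIntegral_of_continuous' hc (1 / 2) b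
  have e : ∀ v : ℝ, (∫ w in (1 / 2 : ℝ)..b, g (((max (1 / 2) w : ℝ) : ℂ) + v * I)) =
      ∫ w in (1 / 2 : ℝ)..b, g ((w : ℂ) + v * I) := by
    intro v
    refine intervalIntegral.integral_congr fun w hw => ?_
    rw [Set.uIcc_of_le hb] at hw
    simp only [max_eq_right hw.1]
  simp only [e] at hG
  have h1 : BInt (1 / 2) b A B (fun s => ∫ w in (1 / 2 : ℝ)..b, g ((w : ℂ) + s.im * I)) := by
    refine bint_cont ?_
    exact (hG.comp Complex.continuous_im).continuousOn
  refine ⟨h1, ?_⟩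
  have h2 : BInt (1 / 2) b A B g := bint_cont (hg.mono fun s hs => by
    show 0 < s.re
    linarith [hs.1])
  rw [bi_iter' hb hAB h1, bi_iter' hb hAB h2, ← intervalIntegral.integral_const_mul]
  refine intervalIntegral.integral_congr fun v _ => ?_
  have e2 : ∀ x : ℝ, ((x : ℂ) + v * I).im = v := by intro x; simp
  simp only [e2]
  rw [intervalIntegral.integral_const, smul_eq_mul]

private theorem BDL_fac : 15 / (4 * Real.pi ^ 2) ≤ 1 := by
  have hpi := Real.pi_gt_three
  rw [div_le_one (by positivity)]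
  have : 3 * 3 ≤ Real.pi * Real.pi := mul_le_mul hpi.le hpi.le (by norm_num) (by linarith)
  rw [sq]
  linarith

private theorem BDL_num {W C K : ℝ} (hW : 0 ≤ W) (hC : 0 ≤ C) (hK : 0 ≤ K) :
    2 * K + (2 * W + 7) ^ 2 + 4 * Real.pi * W * C + W * K + 2 * Real.pi * W * K ≤
      (60 + 16 * C) * (W + 1) ^ 2 * (K + 1) := by
  have hpi : Real.pi ≤ 4 := Real.pi_le_four
  have hWK : 0 ≤ W * K := mul_nonneg hW hK
  have hWC : 0 ≤ W * C := mul_nonneg hW hC
  have q1 : Real.pi * (W * C) ≤ 4 * (W * C) := mul_le_mul_of_nonneg_right hpi hWC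
  have q2 : Real.pi * (W * K) ≤ 4 * (W * K) := mul_le_mul_of_nonneg_right hpi hWK
  have hW2 : 0 ≤ W ^ 2 := sq_nonneg W
  have hW2K : 0 ≤ W ^ 2 * K := mul_nonneg hW2 hK
  have hCK : 0 ≤ C * K := mul_nonneg hC hK
  have hCWK : 0 ≤ C * (W * K) := mul_nonneg hC hWK
  have hCW2 : 0 ≤ C * W ^ 2 := mul_nonneg hC hW2
  have hCW2K : 0 ≤ C * (W ^ 2 * K) := mul_nonneg hC hW2K
  have e : (60 + 16 * C) * (W + 1) ^ 2 * (K + 1) =
      60 + 120 * W + 60 * W ^ 2 + 60 * K + 120 * (W * K) + 60 * (W ^ 2 * K) +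
      16 * C + 32 * (W * C) + 16 * (C * W ^ 2) + 16 * (C * K) + 32 * (C * (W * K)) +
      16 * (C * (W ^ 2 * K)) := by ring
  have e2 : 2 * K + (2 * W + 7) ^ 2 + 4 * Real.pi * W * C + W * K + 2 * Real.pi * W * K =
      2 * K + 4 * W ^ 2 + 28 * W + 49 + 4 * (Real.pi * (W * C)) + W * K + 2 * (Real.pi * (W * K)) := by
    ring
  rw [e, e2]
  linarith

private theorem BDL_alg {l W K C h r : ℝ} (hl : l ≠ 0) (hh : h = 2 * Real.pi / l)
    (hr : r = (2 * W + 7) / l) :
    15 * (h ^ 2)⁻¹ * ((2 * (K / l ^ 2) + r ^ 2) + (W / l) * h * (2 * C) +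
      ((W / l) * (K / l) + (W / l) * h * K)) =
      15 / (4 * Real.pi ^ 2) * (2 * K + (2 * W + 7) ^ 2 + 4 * Real.pi * W * C + W * K +
        2 * Real.pi * W * K) := by
  have hp := Real.pi_ne_zero
  subst hh hr
  field_simp
  ring

theorem det_left : ∃ δ₁ C : ℝ, 0 < δ₁ ∧ δ₁ ≤ 1 / 4 ∧ 0 ≤ C ∧ ∀ δ : ℝ, 0 < δ → δ ≤ δ₁ →
    ∀ T W K t : ℝ, 100 ≤ T → 1 ≤ W → (2 * W + 7) / Real.log T ≤ 1 → 0 ≤ K → T ≤ t →
    Good δ W T K t →
    |BI (1 / 2) (1 / 2 + W / Real.log T) (t - hT T) t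
      (fun s => stp2 T t s.im * Real.log ‖riemannZeta s‖)| ≤ C * (W + 1) ^ 2 * (K + 1) := by
  obtain ⟨δ₁, hδ₁, hδ₁', hlm⟩ := log_mm
  obtain ⟨C₀, hC₀, hsd⟩ := sum_dd
  refine ⟨δ₁, 60 + 16 * C₀, hδ₁, hδ₁', by positivity, ?_⟩
  intro δ hδ hδδ T W K t hT100 hW hWl hK hTt hgood
  have hT2 : 2 ≤ T := by linarith
  have hT1 : 1 ≤ T := by linarith
  have hl : 0 < Real.log T := Real.log_pos (by linarith)
  have hh := hT_pos hT2
  have hhl := hT_mul hT2
  have hpi := Real.pi_gt_three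
  have hpi2 := Real.pi_lt_d2
  set l := Real.log T with hldef
  set h := hT T with hhdef
  have hW0 : 0 < W := by linarith
  have hWl0 : 0 < W / l := div_pos hW0 hl
  have hsum : 2 * W / l + 7 / l ≤ 1 := by rw [← add_div]; exact hWl
  have h7 : 0 < 7 / l := by positivity
  have h2W : 2 * W / l = 2 * (W / l) := by ring
  have hheq : h = 2 * Real.pi / l := by
    rw [eq_div_iff hl.ne']
    exact hhl
  have hh7 : h ≤ 7 / l := by
    rw [hheq]
    exact div_le_div_of_nonneg_right (by linarith) hl.le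
  have hWl1 : W / l ≤ 1 / 2 := by linarith
  have hh1 : h ≤ 1 := by linarith
  -- the disc
  set c : ℂ := ((1 / 2 + 2 * W / l : ℝ) : ℂ) + t * I with hc
  have hcre : c.re = 1 / 2 + 2 * W / l := by rw [hc]; simp
  have hcim : c.im = t := by rw [hc]; simp
  set r : ℝ := (2 * W + 7) / l with hr
  have hr0 : 0 < r := by rw [hr]; positivity
  have hr1 : r ≤ 1 := hWl
  have hrs : r = 2 * W / l + 7 / l := by rw [hr, add_div]
  obtain ⟨j1, j2⟩ := jensen_box (fun s => riemannZeta s * MM δ T s) c r hr0 (by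
    intro s hs
    have hne : s ≠ 1 := by
      rintro rfl
      have h1 := hs.2.2.1
      rw [hcim, Complex.one_im] at h1
      linarith
    exact (differentiableAt_riemannZeta hne).mul (MM_diff δ T s)) (by
    have h2 := hgood.g2 c (by rw [hcre]; linarith) (by rw [hcre]; linarith) (by
      rw [hcim, sub_self, abs_zero]; exact hh.le)
    have h3 := norm_sub_norm_le (1 : ℂ) (1 - riemannZeta c * MM δ T c)
    rw [sub_sub_cancel, norm_one, norm_sub_rev] at h3
    show 3 / 4 ≤ ‖riemannZeta c * MM δ T c‖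
    linarith) (1 / 2) (1 / 2 + W / l) (t - h) t (by
    intro s hs
    obtain ⟨s1, s2, s3, s4⟩ := hs
    refine (Complex.norm_le_abs_re_add_abs_im (s - c)).trans ?_
    have e1 : |(s - c).re| ≤ 2 * W / l := by
      rw [Complex.sub_re, hcre, abs_le]
      constructor <;> linarith
    have e2 : |(s - c).im| ≤ h := by
      rw [Complex.sub_im, hcim, abs_le]
      constructor <;> linarith
    rw [hrs]
    linarith)
  have j3 : BI (1 / 2) (1 / 2 + W / l) (t - h) t (fun s => |Real.log ‖riemannZeta s * MM δ T s‖|) ≤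
      2 * (K / l ^ 2) + r ^ 2 := by
    refine j2.trans ?_
    have h4 := hgood.g4
    rw [hcre, hcim]
    linarith
  -- log of the mollifier
  have hd1 : δ ≤ 1 := by linarith
  have hMM : ∀ s ∈ CB (1 / 2) (1 / 2 + W / l) (t - h) t,
      MM δ T s ≠ 0 ∧ |Real.log ‖MM δ T s‖ + (PP δ T s).re| ≤ 2 * C₀ := by
    intro s hs
    obtain ⟨s1, s2, s3, s4⟩ := hs
    have hsim : |s.im - t| ≤ hT T := by
      rw [abs_le]
      constructor <;> linarith
    obtain ⟨m1, m2⟩ := hlm δ hδ hδδ T hT2 s s1 (by linarith)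
      (fun j hj => hgood.g1 j hj s s1 (by linarith) hsim)
    refine ⟨m1, m2.trans ?_⟩
    have m3 := hsd δ hδ hd1 (JJ T)
    calc ∑ j ∈ Finset.range (JJ T),
          2 * Real.exp (-(dd δ j : ℝ) - kpj δ j * (s.re - 1 / 2) * Real.log T / 2)
        ≤ ∑ j ∈ Finset.range (JJ T), 2 * (Real.exp (-(dd δ j : ℝ)) * (1 + 1 / kpj δ j)) := by
          refine Finset.sum_le_sum fun j _ => ?_
          have k1 := kpj_pos hδ j
          have k2 : 0 ≤ kpj δ j * (s.re - 1 / 2) * Real.log T / 2 := by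
            have : 0 ≤ s.re - 1 / 2 := by linarith
            positivity
          have k3 : Real.exp (-(dd δ j : ℝ) - kpj δ j * (s.re - 1 / 2) * Real.log T / 2) ≤
              Real.exp (-(dd δ j : ℝ)) := Real.exp_le_exp.2 (by linarith)
          have k4 : Real.exp (-(dd δ j : ℝ)) ≤ Real.exp (-(dd δ j : ℝ)) * (1 + 1 / kpj δ j) := by
            have : 0 < 1 / kpj δ j := by positivity
            exact le_mul_of_one_le_right (Real.exp_pos _).le (by linarith)
          linarith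
      _ = 2 * ∑ j ∈ Finset.range (JJ T), Real.exp (-(dd δ j : ℝ)) * (1 + 1 / kpj δ j) := by
          rw [Finset.mul_sum]
      _ ≤ 2 * C₀ := by linarith
  -- continuity
  have hQre : ∀ s ∈ CB (1 / 2) (1 / 2 + W / l) (t - h) t, s ∈ {s : ℂ | 0 < s.re} := by
    intro s hs
    show 0 < s.re
    linarith [hs.1]
  have hPPre : ContinuousOn (fun s => (PP δ T s).re) (CB (1 / 2) (1 / 2 + W / l) (t - h) t) :=
    Complex.continuous_re.comp_continuousOn ((BDL_ppc hδ hT1).mono hQre)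
  have hLMc : BInt (1 / 2) (1 / 2 + W / l) (t - h) t (fun s => Real.log ‖MM δ T s‖ + (PP δ T s).re) := by
    refine bint_cont (ContinuousOn.add ?_ hPPre)
    refine ContinuousOn.log ((MM_diff δ T).continuous.norm.continuousOn) ?_
    intro s hs
    exact norm_ne_zero_iff.2 (hMM s hs).1
  set c0 : ℝ := (PP δ T (sW W T t)).re with hc0
  have hDc : BInt (1 / 2) (1 / 2 + W / l) (t - h) t (fun s => (PP δ T s).re - c0) :=
    bint_cont (hPPre.sub continuousOn_const)
  -- the bound for the difference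
  have hσ : 0 < 1 / 2 + W / Real.log T := by
    rw [← hldef]; positivity
  have hD : ∀ s ∈ CB (1 / 2) (1 / 2 + W / l) (t - h) t, |(PP δ T s).re - c0| ≤
      (∫ w in (1 / 2 : ℝ)..(1 / 2 + W / l), ‖deriv (PP δ T) ((w : ℂ) + s.im * I)‖) + K := by
    intro s hs
    obtain ⟨s1, s2, s3, s4⟩ := hs
    have a1 := BDL_hor hδ hT1 (v := s.im) s1 s2
    have a2 := BDL_ver (W := W) hδ hT1 hσ (t := t) (v := s.im) (h := h) s3 s4 hh.le
    have a3 := hgood.g6
    have es : (s.re : ℂ) + (s.im : ℂ) * I = s := Complex.re_add_im s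
    have es2 : sW W T s.im = ((1 / 2 + W / l : ℝ) : ℂ) + (s.im : ℂ) * I := rfl
    rw [es] at a1
    rw [es2] at a2
    have a4 : |(PP δ T s).re - c0| ≤ ‖PP δ T s - PP δ T (sW W T t)‖ := by
      rw [hc0, ← Complex.sub_re]
      exact Complex.abs_re_le_norm _
    have a5 : ‖PP δ T s - PP δ T (sW W T t)‖ ≤
        ‖PP δ T s - PP δ T (((1 / 2 + W / l : ℝ) : ℂ) + (s.im : ℂ) * I)‖ +
        ‖PP δ T (((1 / 2 + W / l : ℝ) : ℂ) + (s.im : ℂ) * I) - PP δ T (sW W T t)‖ :=
      norm_sub_le_norm_sub_add_norm_sub _ _ _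
    linarith
  obtain ⟨b1, b2⟩ := BDL_box (g := fun s => ‖deriv (PP δ T) s‖) (BDL_dc hδ hT1).norm
    (b := 1 / 2 + W / l) (A := t - h) (B := t) (by linarith) (by linarith)
  have hdn : BInt (1 / 2) (1 / 2 + W / l) (t - h) (t + h) (fun s => ‖deriv (PP δ T) s‖) := by
    refine bint_cont ((BDL_dc hδ hT1).norm.mono ?_)
    intro s hs
    show 0 < s.re
    linarith [hs.1]
  have b3 : BI (1 / 2) (1 / 2 + W / l) (t - h) t (fun s => ‖deriv (PP δ T) s‖) ≤ K / l := by
    refine (bi_subset hdn (fun s _ => norm_nonneg _) le_rfl le_rfl le_rfl (by linarith)).trans ?_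
    exact hgood.g5
  have hDI : BI (1 / 2) (1 / 2 + W / l) (t - h) t (fun s => |(PP δ T s).re - c0|) ≤
      (W / l) * (K / l) + (W / l) * h * K := by
    have hcK : BInt (1 / 2) (1 / 2 + W / l) (t - h) t (fun _ => K) := bint_cont continuousOn_const
    refine (bi_mono (bint_abs hDc) (bint_add b1 hcK) hD).trans ?_
    rw [bi_add b1 hcK, b2, bi_const (by linarith) (by linarith)]
    have e1 : 1 / 2 + W / l - 1 / 2 = W / l := by ring
    have e2 : t - (t - h) = h := by ring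
    rw [e1, e2]
    have := mul_le_mul_of_nonneg_left b3 hWl0.le
    linarith
  have hLMI : BI (1 / 2) (1 / 2 + W / l) (t - h) t
      (fun s => |Real.log ‖MM δ T s‖ + (PP δ T s).re|) ≤ (W / l) * h * (2 * C₀) := by
    have hcC : BInt (1 / 2) (1 / 2 + W / l) (t - h) t (fun _ => 2 * C₀) := bint_cont continuousOn_const
    refine (bi_mono (bint_abs hLMc) hcC (fun s hs => (hMM s hs).2)).trans ?_
    rw [bi_const (by linarith) (by linarith)]
    have e1 : 1 / 2 + W / l - 1 / 2 = W / l := by ring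
    have e2 : t - (t - h) = h := by ring
    rw [e1, e2]
  -- the identity
  have hLF : BInt (1 / 2) (1 / 2 + W / l) (t - h) t (fun s => Real.log ‖riemannZeta s * MM δ T s‖) := j1
  have hR : BInt (1 / 2) (1 / 2 + W / l) (t - h) t (fun s => Real.log ‖riemannZeta s * MM δ T s‖ -
      (Real.log ‖MM δ T s‖ + (PP δ T s).re) + ((PP δ T s).re - c0)) :=
    bint_add (bint_sub hLF hLMc) hDc
  have hcc : BInt (1 / 2) (1 / 2 + W / l) (t - h) t (fun _ => c0) := bint_cont continuousOn_const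
  have hid : BI (1 / 2) (1 / 2 + W / l) (t - h) t
      (fun s => stp2 T t s.im * Real.log ‖riemannZeta s‖) =
      BI (1 / 2) (1 / 2 + W / l) (t - h) t
      (fun s => stp2 T t s.im * (Real.log ‖riemannZeta s * MM δ T s‖ -
      (Real.log ‖MM δ T s‖ + (PP δ T s).re) + ((PP δ T s).re - c0)) + stp2 T t s.im * c0) := by
    unfold BI
    have hnull := BDL_null (1 / 2) (1 / 2 + W / l) (t - h) t (by norm_num) (by linarith)
    refine setIntegral_congr_ae (bx_meas _ _ _ _) ?_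
    have hae : ∀ᵐ z : ℝ × ℝ, ¬ (z ∈ bx (1 / 2) (1 / 2 + W / l) (t - h) t ∧ riemannZeta (pt z) = 0) :=
      measure_eq_zero_iff_ae_notMem.1 hnull
    filter_upwards [hae] with z hz hzb
    have hz0 : riemannZeta (pt z) ≠ 0 := fun h0 => hz ⟨hzb, h0⟩
    have hM0 := (hMM (pt z) (pt_mem.2 hzb)).1
    rw [norm_mul, Real.log_mul (norm_ne_zero_iff.2 hz0) (norm_ne_zero_iff.2 hM0)]
    ring
  have hs2c := stp2_cont T t
  have hzero : BI (1 / 2) (1 / 2 + W / l) (t - h) t (fun s => stp2 T t s.im * c0) = 0 := by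
    rw [bi_iter (by linarith) (by linarith) (bint_mul _ hs2c hcc)]
    have e2 : ∀ x u : ℝ, ((x : ℂ) + u * I).im = u := by intro x u; simp
    simp only [e2]
    have e3 : ∫ u in (t - h)..t, stp2 T t u * c0 = 0 := by
      rw [intervalIntegral.integral_mul_const, stp2_int hT2 t, zero_mul]
    simp only [e3]
    simp
  rw [hid, bi_add (bint_mul _ hs2c hR) (bint_mul _ hs2c hcc), hzero, add_zero]
  have hbd := bi_abs_le (f := fun s => stp2 T t s.im * (Real.log ‖riemannZeta s * MM δ T s‖ -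
      (Real.log ‖MM δ T s‖ + (PP δ T s).re) + ((PP δ T s).re - c0)))
    (g := fun s => 15 * (h ^ 2)⁻¹ * (|Real.log ‖riemannZeta s * MM δ T s‖| +
      |Real.log ‖MM δ T s‖ + (PP δ T s).re| + |(PP δ T s).re - c0|))
    (bint_const_mul _ (bint_add (bint_add (bint_abs hLF) (bint_abs hLMc)) (bint_abs hDc)))
    (fun s _ => by
      rw [abs_mul]
      have k1 := stp2_abs T t s.im
      have k2 : |Real.log ‖riemannZeta s * MM δ T s‖ - (Real.log ‖MM δ T s‖ + (PP δ T s).re) +
          ((PP δ T s).re - c0)| ≤ |Real.log ‖riemannZeta s * MM δ T s‖| +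
          |Real.log ‖MM δ T s‖ + (PP δ T s).re| + |(PP δ T s).re - c0| := by
        refine (abs_add_le _ _).trans ?_
        have := abs_sub (Real.log ‖riemannZeta s * MM δ T s‖) (Real.log ‖MM δ T s‖ + (PP δ T s).re)
        linarith
      exact mul_le_mul k1 k2 (abs_nonneg _) (by positivity))
  refine hbd.trans ?_
  rw [bi_const_mul, bi_add (bint_add (bint_abs hLF) (bint_abs hLMc)) (bint_abs hDc),
    bi_add (bint_abs hLF) (bint_abs hLMc)]
  have htot : BI (1 / 2) (1 / 2 + W / l) (t - h) t (fun s => |Real.log ‖riemannZeta s * MM δ T s‖|) +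
      BI (1 / 2) (1 / 2 + W / l) (t - h) t (fun s => |Real.log ‖MM δ T s‖ + (PP δ T s).re|) +
      BI (1 / 2) (1 / 2 + W / l) (t - h) t (fun s => |(PP δ T s).re - c0|) ≤
      (2 * (K / l ^ 2) + r ^ 2) + (W / l) * h * (2 * C₀) + ((W / l) * (K / l) + (W / l) * h * K) := by
    linarith
  refine (mul_le_mul_of_nonneg_left htot (by positivity)).trans ?_
  have hfinal : 15 * (h ^ 2)⁻¹ * ((2 * (K / l ^ 2) + r ^ 2) + (W / l) * h * (2 * C₀) +
      ((W / l) * (K / l) + (W / l) * h * K)) =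
      15 / (4 * Real.pi ^ 2) * (2 * K + (2 * W + 7) ^ 2 + 4 * Real.pi * W * C₀ + W * K +
        2 * Real.pi * W * K) := by
    exact BDL_alg hl.ne' hheq hr
  rw [hfinal]
  have hfac : 15 / (4 * Real.pi ^ 2) ≤ 1 := BDL_fac
  have hWK : 0 ≤ W * K := by positivity
  have hWC : 0 ≤ W * C₀ := by positivity
  have hin : 0 ≤ 2 * K + (2 * W + 7) ^ 2 + 4 * Real.pi * W * C₀ + W * K + 2 * Real.pi * W * K := by
    positivity
  refine (mul_le_of_le_one_left hin hfac).trans ?_
  exact BDL_num hW0.le hC₀ hK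

end Pool.Agent.Lib.MP_ec260d_ntB
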