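import Mathlib
import Pool.Agent.Lib.MP_ec260d_ntB.GLam
import Pool.Agent.Lib.MP_ec260d_ntB.BQQ

/-!
# JOB BMain: the main term, by the Cauchy - Riemann equations

`l = log T`, `h = hT T`, `σ₀ = 1/2 + W / l ≤ 3/2`. `PP = PP δ T` is holomorphic for `Re s > 0` (`PP_der`), `π YY δ W T t = Im (PP (sW W T t))`.
(1) `BI σ₀ 2 (t - h) t (stp2 (Im s) * Re (PP s)) = ∫ x in σ₀..2, ∫ u in (t - h)..t, stp2 T t u * Re (PP (x + i u))` (`bi_iter`, `bint_cont`). Integrate by parts in `u` (`stp1 = 0` at `u = t - h` and `u = t`: `stp_zero`, `stp_one`): `∫ stp2 u * Re (PP (x + i u)) du = - ∫ stp1 u * Re (i PP' (x + i u)) du = ∫ stp1 u * Im (PP' (x + i u)) du`.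
(2) Swap (continuous integrand; `bi_iter`, `bi_iter'`): `∫ u, stp1 u * ∫ x in σ₀..2, Im (PP' (x + i u)) dx = ∫ u, stp1 u * (Im (PP (2 + i u)) - Im (PP (σ₀ + i u)))` (`d/dx Im (PP (x + i u)) = Im (PP' (x + i u))`). Continuity of `PP'`: `PP` is holomorphic on `Re s > 0`, so its derivative is holomorphic too (`DifferentiableOn.deriv`).
(3) `∫ stp1 = 1`, `stp1 ≥ 0` (`stp1_int`): the sum with `π YY = Im (PP (sW t))` is `∫ stp1 u * Im (PP (2 + i u)) + ∫ stp1 u * (Im (PP (sW t)) - Im (PP (sW u)))`; the first is at most `C` in absolute value (`PP_two`), the second at most `sup_{u ∈ [t - h, t]} |Im (PP (sW t)) - Im (PP (sW u))| ≤ ∫ v in (t - h)..t, ‖PP' (sW v)‖`.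
* `yy_osc`: for `|u - t| ≤ r`: `|YY u - YY t| ≤ ∫ v in (t - r)..(t + r), ‖PP' (sW v)‖` (`1/π ≤ 1`).
-/

namespace Pool.Agent.Lib.MP_ec260d_ntB

open Complex Set Filter Topology MeasureTheory

private theorem BMain_hd {δ T : ℝ} (hδ : 0 < δ) (hT1 : 1 ≤ T) {s : ℂ} (hs : 0 < s.re) :
    HasDerivAt (PP δ T) (deriv (PP δ T) s) s :=
  (PP_der hδ hT1 hs).differentiableAt.hasDerivAt

private theorem BMain_open : IsOpen {s : ℂ | 0 < s.re} :=
  isOpen_lt continuous_const Complex.continuous_re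

private theorem BMain_cd {δ T : ℝ} (hδ : 0 < δ) (hT1 : 1 ≤ T) :
    ContinuousOn (deriv (PP δ T)) {s : ℂ | 0 < s.re} := by
  have h1 : DifferentiableOn ℂ (PP δ T) {s : ℂ | 0 < s.re} := fun s hs =>
    (PP_der hδ hT1 hs).differentiableAt.differentiableWithinAt
  exact (h1.deriv BMain_open).continuousOn

private theorem BMain_c {δ T : ℝ} (hδ : 0 < δ) (hT1 : 1 ≤ T) :
    ContinuousOn (PP δ T) {s : ℂ | 0 < s.re} := fun s hs =>
  (PP_der hδ hT1 hs).continuousAt.continuousWithinAt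

private theorem BMain_re (x u : ℝ) : ((x : ℂ) + u * I).re = x := by simp

private theorem BMain_im (x u : ℝ) : ((x : ℂ) + u * I).im = u := by simp

/-- the vertical derivative -/
private theorem BMain_vert {δ T : ℝ} (hδ : 0 < δ) (hT1 : 1 ≤ T) {x : ℝ} (hx : 0 < x) (u : ℝ) :
    HasDerivAt (fun v : ℝ => PP δ T ((x : ℂ) + v * I)) (deriv (PP δ T) ((x : ℂ) + u * I) * I) u := by
  have h1 : HasDerivAt (fun v : ℝ => (x : ℂ) + v * I) I u := by
    have h2 : HasDerivAt (fun v : ℝ => ((v : ℝ) : ℂ)) 1 u := Complex.ofRealCLM.hasDerivAt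
    have h3 := (h2.mul_const I).const_add (x : ℂ)
    rwa [one_mul] at h3
  exact (BMain_hd hδ hT1 (by rw [BMain_re]; exact hx)).comp u h1

/-- the horizontal derivative -/
private theorem BMain_hor {δ T : ℝ} (hδ : 0 < δ) (hT1 : 1 ≤ T) {x : ℝ} (hx : 0 < x) (u : ℝ) :
    HasDerivAt (fun v : ℝ => PP δ T ((v : ℂ) + u * I)) (deriv (PP δ T) ((x : ℂ) + u * I)) x := by
  have h1 : HasDerivAt (fun v : ℝ => (v : ℂ) + u * I) 1 x := by
    have h2 : HasDerivAt (fun v : ℝ => ((v : ℝ) : ℂ)) 1 x := Complex.ofRealCLM.hasDerivAt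
    exact h2.add_const _
  have h2 := (BMain_hd hδ hT1 (s := (x : ℂ) + u * I) (by rw [BMain_re]; exact hx)).comp x h1
  rwa [mul_one] at h2

private theorem BMain_imd {g : ℝ → ℂ} {g' : ℂ} {x : ℝ} (h : HasDerivAt g g' x) :
    HasDerivAt (fun v => (g v).im) g'.im x :=
  Complex.imCLM.hasFDerivAt.comp_hasDerivAt x h

private theorem BMain_red {g : ℝ → ℂ} {g' : ℂ} {x : ℝ} (h : HasDerivAt g g' x) :
    HasDerivAt (fun v => (g v).re) g'.re x :=
  Complex.reCLM.hasFDerivAt.comp_hasDerivAt x h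

private theorem BMain_sW (W T v : ℝ) : sW W T v = ((1 / 2 + W / Real.log T : ℝ) : ℂ) + v * I := rfl

private theorem BMain_sig {T W : ℝ} (hT2 : 2 ≤ T) (hW : 1 ≤ W) : 0 < 1 / 2 + W / Real.log T := by
  have h1 : 0 < Real.log T := Real.log_pos (by linarith)
  have h2 : 0 < W / Real.log T := div_pos (by linarith) h1
  linarith

/-- continuity of the derivative on a vertical line -/
private theorem BMain_cv {δ T : ℝ} (hδ : 0 < δ) (hT1 : 1 ≤ T) {x : ℝ} (hx : 0 < x) :
    Continuous (fun v : ℝ => deriv (PP δ T) ((x : ℂ) + v * I)) := by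
  rw [← continuousOn_univ]
  refine (BMain_cd hδ hT1).comp (Continuous.continuousOn (by fun_prop)) fun v _ => ?_
  change 0 < ((x : ℂ) + v * I).re
  rw [BMain_re]
  exact hx

private theorem BMain_osc {δ T W : ℝ} (hδ : 0 < δ) (hT2 : 2 ≤ T) (hW : 1 ≤ W) (t u r : ℝ)
    (hu : |u - t| ≤ r) :
    ‖PP δ T (sW W T u) - PP δ T (sW W T t)‖ ≤
      ∫ v in (t - r)..(t + r), ‖deriv (PP δ T) (sW W T v)‖ := by
  have hT1 : 1 ≤ T := by linarith
  have hs := BMain_sig hT2 hW
  have hc : Continuous (fun v : ℝ => deriv (PP δ T) (sW W T v)) := BMain_cv hδ hT1 hs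
  have h1 : ∫ v in t..u, deriv (PP δ T) (sW W T v) * I = PP δ T (sW W T u) - PP δ T (sW W T t) :=
    intervalIntegral.integral_eq_sub_of_hasDerivAt
      (fun v _ => BMain_vert hδ hT1 hs v) ((hc.mul continuous_const).intervalIntegrable _ _)
  rw [← h1]
  have h2 : ‖∫ v in t..u, deriv (PP δ T) (sW W T v) * I‖ ≤
      |∫ v in t..u, ‖deriv (PP δ T) (sW W T v) * I‖| :=
    intervalIntegral.norm_integral_le_abs_integral_norm
  have h3 : (fun v : ℝ => ‖deriv (PP δ T) (sW W T v) * I‖) =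
      fun v : ℝ => ‖deriv (PP δ T) (sW W T v)‖ := by
    funext v
    rw [norm_mul, Complex.norm_I, mul_one]
  have h4 : |∫ v in t..u, ‖deriv (PP δ T) (sW W T v) * I‖| =
      |∫ v in t..u, ‖deriv (PP δ T) (sW W T v)‖| := by rw [h3]
  rw [h4] at h2
  have hr : 0 ≤ r := (abs_nonneg _).trans hu
  obtain ⟨h5, h6⟩ := abs_le.1 hu
  have hsub : Set.uIoc t u ⊆ Set.uIoc (t - r) (t + r) := by
    rw [Set.uIoc_of_le (by linarith : t - r ≤ t + r)]
    intro v hv
    rw [Set.mem_uIoc] at hv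
    rcases hv with hv | hv
    · exact ⟨by linarith, by linarith⟩
    · exact ⟨by linarith, by linarith⟩
  have h7 : |∫ v in t..u, ‖deriv (PP δ T) (sW W T v)‖| ≤
      |∫ v in (t - r)..(t + r), ‖deriv (PP δ T) (sW W T v)‖| :=
    intervalIntegral.abs_integral_mono_interval hsub
      (Filter.Eventually.of_forall fun v => norm_nonneg _) (hc.norm.intervalIntegrable _ _)
  have h8 : 0 ≤ ∫ v in (t - r)..(t + r), ‖deriv (PP δ T) (sW W T v)‖ :=
    intervalIntegral.integral_nonneg (by linarith) fun v _ => norm_nonneg _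
  rw [abs_of_nonneg h8] at h7
  exact h2.trans h7

theorem yy_osc {δ T W : ℝ} (hδ : 0 < δ) (hT2 : 2 ≤ T) (hW : 1 ≤ W) (t u r : ℝ) (hu : |u - t| ≤ r) :
    |YY δ W T u - YY δ W T t| ≤ ∫ v in (t - r)..(t + r), ‖deriv (PP δ T) (sW W T v)‖ := by
  refine le_trans ?_ (BMain_osc hδ hT2 hW t u r hu)
  unfold YY
  rw [← mul_sub, ← Complex.sub_im, abs_mul]
  have h1 : |1 / Real.pi| ≤ 1 := by
    rw [abs_of_pos (by positivity)]
    exact (div_le_one Real.pi_pos).2 (by linarith [Real.pi_gt_three])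
  calc |1 / Real.pi| * |(PP δ T (sW W T u) - PP δ T (sW W T t)).im| ≤
      1 * |(PP δ T (sW W T u) - PP δ T (sW W T t)).im| :=
        mul_le_mul_of_nonneg_right h1 (abs_nonneg _)
    _ = |(PP δ T (sW W T u) - PP δ T (sW W T t)).im| := one_mul _
    _ ≤ _ := Complex.abs_im_le_norm _

private theorem BMain_stp1_cont (T u : ℝ) : Continuous (stp1 T u) :=
  continuous_iff_continuousAt.2 fun t => (stp_d2 T u t).continuousAt

/-- integration by parts on a vertical segment -/
private theorem BMain_parts {δ T : ℝ} (hδ : 0 < δ) (hT2 : 2 ≤ T) {x : ℝ} (hx : 0 < x) (t : ℝ) :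
    ∫ u in (t - hT T)..t, stp2 T t u * (PP δ T ((x : ℂ) + u * I)).re =
      ∫ u in (t - hT T)..t, stp1 T t u * (deriv (PP δ T) ((x : ℂ) + u * I)).im := by
  have hT1 : 1 ≤ T := by linarith
  have h1 : ∀ u ∈ Set.uIcc (t - hT T) t, HasDerivAt (fun v : ℝ => (PP δ T ((x : ℂ) + v * I)).re)
      (deriv (PP δ T) ((x : ℂ) + u * I) * I).re u := fun u _ =>
    BMain_red (BMain_vert hδ hT1 hx u)
  have h2 : ∀ u ∈ Set.uIcc (t - hT T) t, HasDerivAt (stp1 T t) (stp2 T t u) u :=
    fun u _ => stp_d2 T t u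
  have hc := BMain_cv hδ hT1 hx (δ := δ) (T := T)
  have hi : IntervalIntegrable (fun u : ℝ => (deriv (PP δ T) ((x : ℂ) + u * I) * I).re) volume
      (t - hT T) t :=
    (Complex.continuous_re.comp (hc.mul continuous_const)).intervalIntegrable _ _
  have hj : IntervalIntegrable (stp2 T t) volume (t - hT T) t :=
    (stp2_cont T t).intervalIntegrable _ _
  have h3 := intervalIntegral.integral_mul_deriv_eq_deriv_mul h1 h2 hi hj
  rw [(stp_one hT2 (le_refl t)).2.1, (stp_zero hT2 (le_refl (t - hT T))).2.1, mul_zero, mul_zero,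
    sub_zero, zero_sub, ← intervalIntegral.integral_neg] at h3
  have e1 : (∫ u in (t - hT T)..t, stp2 T t u * (PP δ T ((x : ℂ) + u * I)).re) =
      ∫ u in (t - hT T)..t, (PP δ T ((x : ℂ) + u * I)).re * stp2 T t u :=
    intervalIntegral.integral_congr fun u _ => mul_comm _ _
  rw [e1, h3]
  refine intervalIntegral.integral_congr fun u _ => ?_
  change -((deriv (PP δ T) ((x : ℂ) + u * I) * I).re * stp1 T t u) =
    stp1 T t u * (deriv (PP δ T) ((x : ℂ) + u * I)).im
  rw [Complex.mul_I_re]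
  ring

theorem main_term : ∃ C : ℝ, 0 ≤ C ∧ ∀ δ T W t : ℝ, 0 < δ → 2 ≤ T → 1 ≤ W → W / Real.log T ≤ 1 →
    |BI (1 / 2 + W / Real.log T) 2 (t - hT T) t (fun s => stp2 T t s.im * (PP δ T s).re) +
      Real.pi * YY δ W T t| ≤
        C + ∫ v in (t - hT T)..(t + hT T), ‖deriv (PP δ T) (sW W T v)‖ := by
  obtain ⟨C, hC0, hC⟩ := PP_two
  refine ⟨C, hC0, fun δ T W t hδ hT2 hW hWT => ?_⟩
  have hT1 : 1 ≤ T := by linarith
  have hh := hT_pos hT2
  have hs := BMain_sig hT2 hW
  have hs2 : 1 / 2 + W / Real.log T ≤ 2 := by linarith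
  have hle : t - hT T ≤ t := by linarith
  have hCB : CB (1 / 2 + W / Real.log T) 2 (t - hT T) t ⊆ {s : ℂ | 0 < s.re} := fun _ hs' =>
    lt_of_lt_of_le hs hs'.1
  have hi1 : BInt (1 / 2 + W / Real.log T) 2 (t - hT T) t
      (fun s => stp2 T t s.im * (PP δ T s).re) := by
    refine bint_mul (stp2 T t) (stp2_cont T t) (bint_cont ?_)
    exact Complex.continuous_re.comp_continuousOn ((BMain_c hδ hT1).mono hCB)
  have hi2 : BInt (1 / 2 + W / Real.log T) 2 (t - hT T) t
      (fun s => stp1 T t s.im * (deriv (PP δ T) s).im) := by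
    refine bint_mul (stp1 T t) (BMain_stp1_cont T t) (bint_cont ?_)
    exact Complex.continuous_im.comp_continuousOn ((BMain_cd hδ hT1).mono hCB)
  have e1 : BI (1 / 2 + W / Real.log T) 2 (t - hT T) t (fun s => stp2 T t s.im * (PP δ T s).re) =
      BI (1 / 2 + W / Real.log T) 2 (t - hT T) t
        (fun s => stp1 T t s.im * (deriv (PP δ T) s).im) := by
    rw [bi_iter hs2 hle hi1, bi_iter hs2 hle hi2]
    refine intervalIntegral.integral_congr fun x hx => ?_
    rw [Set.uIcc_of_le hs2] at hx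
    have hx0 : 0 < x := lt_of_lt_of_le hs hx.1
    change (∫ u in (t - hT T)..t, stp2 T t ((x : ℂ) + u * I).im * (PP δ T ((x : ℂ) + u * I)).re) =
      ∫ u in (t - hT T)..t, stp1 T t ((x : ℂ) + u * I).im *
        (deriv (PP δ T) ((x : ℂ) + u * I)).im
    simp only [BMain_im]
    exact BMain_parts hδ hT2 hx0 t
  have e2 : BI (1 / 2 + W / Real.log T) 2 (t - hT T) t
        (fun s => stp1 T t s.im * (deriv (PP δ T) s).im) =
      ∫ u in (t - hT T)..t, stp1 T t u * ((PP δ T (((2 : ℝ) : ℂ) + u * I)).im -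
        (PP δ T (sW W T u)).im) := by
    rw [bi_iter' hs2 hle hi2]
    refine intervalIntegral.integral_congr fun u _ => ?_
    change (∫ x in (1 / 2 + W / Real.log T)..2, stp1 T t ((x : ℂ) + u * I).im *
        (deriv (PP δ T) ((x : ℂ) + u * I)).im) = _
    simp only [BMain_im]
    rw [intervalIntegral.integral_const_mul]
    congr 1
    have hco : ContinuousOn (fun x : ℝ => (deriv (PP δ T) ((x : ℂ) + u * I)).im)
        (Set.uIcc (1 / 2 + W / Real.log T) 2) := by
      refine Complex.continuous_im.comp_continuousOn ((BMain_cd hδ hT1).comp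
        (Continuous.continuousOn (by fun_prop)) fun x hx => ?_)
      rw [Set.uIcc_of_le hs2] at hx
      change 0 < ((x : ℂ) + u * I).re
      rw [BMain_re]
      exact lt_of_lt_of_le hs hx.1
    exact intervalIntegral.integral_eq_sub_of_hasDerivAt (f := fun x : ℝ =>
        (PP δ T ((x : ℂ) + u * I)).im)
      (fun x hx => BMain_imd (BMain_hor hδ hT1 (by
        rw [Set.uIcc_of_le hs2] at hx
        exact lt_of_lt_of_le hs hx.1) u)) hco.intervalIntegrable
  have e3 : Real.pi * YY δ W T t = (PP δ T (sW W T t)).im := by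
    unfold YY
    rw [← mul_assoc, mul_one_div, div_self Real.pi_ne_zero, one_mul]
  obtain ⟨hp, hint⟩ := stp1_int hT2 t
  have hcv2 : Continuous (fun u : ℝ => (PP δ T (((2 : ℝ) : ℂ) + u * I)).im) :=
    Complex.continuous_im.comp (continuous_iff_continuousAt.2 fun u =>
      (BMain_vert hδ hT1 (by norm_num) u).continuousAt)
  have hcvs : Continuous (fun u : ℝ => (PP δ T (sW W T u)).im) :=
    Complex.continuous_im.comp (continuous_iff_continuousAt.2 fun u =>
      (BMain_vert hδ hT1 hs u).continuousAt)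
  have hc1 := BMain_stp1_cont T t
  have e4 : (∫ u in (t - hT T)..t, stp1 T t u * ((PP δ T (((2 : ℝ) : ℂ) + u * I)).im -
        (PP δ T (sW W T u)).im)) + (PP δ T (sW W T t)).im =
      ∫ u in (t - hT T)..t, stp1 T t u * ((PP δ T (((2 : ℝ) : ℂ) + u * I)).im -
        ((PP δ T (sW W T u)).im - (PP δ T (sW W T t)).im)) := by
    have h1 : (∫ u in (t - hT T)..t, stp1 T t u * (PP δ T (sW W T t)).im) =
        (PP δ T (sW W T t)).im := by
      rw [intervalIntegral.integral_mul_const, hint, one_mul]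
    have h2 := intervalIntegral.integral_add (μ := volume) (a := t - hT T) (b := t)
      (f := fun u => stp1 T t u * ((PP δ T (((2 : ℝ) : ℂ) + u * I)).im - (PP δ T (sW W T u)).im))
      (g := fun u => stp1 T t u * (PP δ T (sW W T t)).im)
      ((hc1.mul (hcv2.sub hcvs)).intervalIntegrable _ _)
      ((hc1.mul continuous_const).intervalIntegrable _ _)
    rw [h1] at h2
    rw [← h2]
    refine intervalIntegral.integral_congr fun u _ => ?_
    change stp1 T t u * _ + stp1 T t u * _ = stp1 T t u * _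
    ring
  rw [e1, e2, e3, e4]
  set E : ℝ := ∫ v in (t - hT T)..(t + hT T), ‖deriv (PP δ T) (sW W T v)‖ with hE
  have h5 := intervalIntegral.norm_integral_le_of_norm_le (μ := volume) (a := t - hT T) (b := t)
      (f := fun u => stp1 T t u * ((PP δ T (((2 : ℝ) : ℂ) + u * I)).im -
        ((PP δ T (sW W T u)).im - (PP δ T (sW W T t)).im)))
      (g := fun u => stp1 T t u * (C + E)) hle
      (Filter.Eventually.of_forall fun u hu => by
        rw [Real.norm_eq_abs, abs_mul, abs_of_nonneg (hp u)]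
        refine mul_le_mul_of_nonneg_left ?_ (hp u)
        have h6 : |(PP δ T (((2 : ℝ) : ℂ) + u * I)).im| ≤ C :=
          (Complex.abs_im_le_norm _).trans (hC δ T hδ hT1 _ (BMain_re 2 u))
        have h7 : |(PP δ T (sW W T u)).im - (PP δ T (sW W T t)).im| ≤ E := by
          rw [← Complex.sub_im]
          refine (Complex.abs_im_le_norm _).trans (BMain_osc hδ hT2 hW t u (hT T) ?_)
          rw [abs_le]
          constructor <;> linarith [hu.1, hu.2]
        exact (abs_sub _ _).trans (add_le_add h6 h7))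
      ((hc1.mul continuous_const).intervalIntegrable _ _)
  rw [intervalIntegral.integral_mul_const, hint, one_mul, Real.norm_eq_abs] at h5
  exact h5

end Pool.Agent.Lib.MP_ec260d_ntB
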