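import Mathlib
import Pool.Agent.Lib.MP_ec260d_ntB.BMain
import Pool.Agent.Lib.MP_ec260d_ntB.BLogM
import Pool.Agent.Lib.MP_ec260d_ntB.BGood

/-!
# JOB BDR: the part of `Lam` to the right of `σ₀ = 1/2 + W / log T`, for a good height

`l = log T`, `h = hT T`, `x = s.re - 1/2`, `f s = ζ(s) M(s) - 1`, `M = MM δ T`. On the box `[σ₀, 2] × [t - h, t]`: `‖f‖ ≤ 1/4` (`g2`), so `ζ M ≠ 0` and `log ‖ζ s‖ = log ‖1 + f s‖ - log ‖M s‖ = Re (PP s) + (log ‖1 + f s‖) - (log ‖M s‖ + Re (PP s))`, `|log ‖1 + f‖| ≤ 2 ‖f‖` (for `‖f‖ ≤ 1/2`), and by `log_mm` (with `g1`)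
`|log ‖M‖ + Re PP| ≤ ∑_j 2 exp (- d_j - κ_j x l / 2)`, `d_j = dd δ j`, `κ_j = kpj δ j`.
So `|BI σ₀ 2 (t-h) t (stp2 log ‖ζ‖) - BI σ₀ 2 (t-h) t (stp2 Re PP)| ≤ BI σ₀ 2 (t-h) t (|stp2| (2 ‖f‖ + ∑_j 2 exp (- d_j - κ_j x l / 2)))` (`bi_abs_le` after `bi_sub`; all functions are continuous on the box: `ζ` is differentiable for `s ≠ 1`, `Im s ≥ t - h > 0`, `MM_diff`, `PP_der`), and `|stp2| ≤ 15 / h ^ 2` (`stp2_abs`):
`≤ (15 / h ^ 2) (2 h / l + h ∑_j 2 ∫_{W/l}^{3/2} exp (- d_j - κ_j x l / 2) dx) ≤ (15 / h ^ 2) (2 h / l + h ∑_j 4 exp (- d_j) / (κ_j l))` (`g3`, `bi_subset` for the first; `bi_iter'` and `∫_0^∞ exp (- κ x l / 2) dx = 2 / (κ l)` for the second) `= (15 / (h l)) (2 + 4 ∑ exp (- d_j) / κ_j) ≤ (15 / (2 π)) (2 + 4 C)` (`hT_mul`, `sum_dd`).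
With `main_term` and `g6`: the claim.
-/

namespace Pool.Agent.Lib.MP_ec260d_ntB

open Complex Set Filter Topology MeasureTheory

private theorem BDR_log {f : ℂ} (hf : ‖f - 1‖ ≤ 1 / 4) : f ≠ 0 ∧ |Real.log ‖f‖| ≤ 2 * ‖f - 1‖ := by
  have h1 : 1 - ‖f - 1‖ ≤ ‖f‖ := by
    have h := norm_sub_norm_le (1 : ℂ) (1 - f)
    rw [norm_one, sub_sub_cancel, norm_sub_rev] at h
    exact h
  have h2 : ‖f‖ ≤ 1 + ‖f - 1‖ := by
    have h := norm_add_le (1 : ℂ) (f - 1)
    rw [norm_one, add_sub_cancel] at h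
    exact h
  have h3 : 3 / 4 ≤ ‖f‖ := by linarith
  have h0 : 0 < ‖f‖ := by linarith
  have h4 : 0 ≤ ‖f - 1‖ := norm_nonneg _
  refine ⟨norm_pos_iff.1 h0, ?_⟩
  rw [abs_le]
  constructor
  · have h5 := Real.one_sub_inv_le_log_of_pos h0
    have h7 : ‖f‖⁻¹ ≤ 1 + 2 * ‖f - 1‖ := by
      rw [inv_le_iff_one_le_mul₀ h0]
      nlinarith
    linarith
  · have h5 := Real.log_le_sub_one_of_pos h0
    linarith

private theorem BDR_sum {a b A B : ℝ} (S : Finset ℕ) (F : ℕ → ℂ → ℝ)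
    (hF : ∀ j ∈ S, BInt a b A B (F j)) :
    BI a b A B (fun s => ∑ j ∈ S, F j s) = ∑ j ∈ S, BI a b A B (F j) :=
  integral_finsetSum S hF

private theorem BDR_exp {d κ l W t h : ℝ} (hκ : 0 < κ) (hl : 0 < l) (hW : 0 ≤ W) (hWl : W / l ≤ 1)
    (hh : 0 ≤ h) :
    BI (1 / 2 + W / l) 2 (t - h) t (fun s => Real.exp (-d - κ * (s.re - 1 / 2) * l / 2)) ≤
      h * (Real.exp (-d) * (2 / (κ * l))) := by
  have hab : 1 / 2 + W / l ≤ 2 := by linarith
  have hAB : t - h ≤ t := by linarith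
  have hint : BInt (1 / 2 + W / l) 2 (t - h) t
      (fun s => Real.exp (-d - κ * (s.re - 1 / 2) * l / 2)) := by
    refine bint_cont (Continuous.continuousOn ?_)
    fun_prop
  rw [bi_iter' hab hAB hint]
  have h1 : ∀ u : ℝ, (∫ x in (1 / 2 + W / l)..2,
      Real.exp (-d - κ * (((x : ℂ) + u * I).re - 1 / 2) * l / 2)) ≤
        Real.exp (-d) * (2 / (κ * l)) := by
    intro u
    have h2 : ∀ x : ℝ, ((x : ℂ) + u * I).re = x := by
      intro x
      simp
    simp only [h2]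
    have h3 : ∀ x ∈ Set.uIcc (1 / 2 + W / l) 2,
        HasDerivAt (fun x : ℝ => -(2 / (κ * l)) * Real.exp (-d - κ * (x - 1 / 2) * l / 2))
          (Real.exp (-d - κ * (x - 1 / 2) * l / 2)) x := by
      intro x _
      have h4 : HasDerivAt (fun x : ℝ => -d - κ * (x - 1 / 2) * l / 2) (-(κ * 1 * l / 2)) x :=
        ((((hasDerivAt_id' x).sub_const (1 / 2)).const_mul κ).mul_const l).div_const 2
          |>.const_sub (-d)
      have h7 := h4.exp.const_mul (-(2 / (κ * l)))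
      refine h7.congr_deriv ?_
      field_simp
    rw [intervalIntegral.integral_eq_sub_of_hasDerivAt h3
      (Continuous.intervalIntegrable (by fun_prop) _ _)]
    have h8 : 0 < 2 / (κ * l) := by positivity
    have h9 : Real.exp (-d - κ * (1 / 2 + W / l - 1 / 2) * l / 2) ≤ Real.exp (-d) := by
      refine Real.exp_le_exp.2 ?_
      have h10 : 0 ≤ κ * (1 / 2 + W / l - 1 / 2) * l / 2 := by
        have h11 : 0 ≤ W / l := by positivity
        have h12 : 1 / 2 + W / l - 1 / 2 = W / l := by ring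
        rw [h12]
        positivity
      linarith
    have h13 : 0 ≤ 2 / (κ * l) * Real.exp (-d - κ * (2 - 1 / 2) * l / 2) := by positivity
    have h14 := mul_le_mul_of_nonneg_left h9 h8.le
    linarith
  have hc : Continuous fun u : ℝ => ∫ x in (1 / 2 + W / l)..2,
      Real.exp (-d - κ * (((x : ℂ) + u * I).re - 1 / 2) * l / 2) := by
    have h2 : ∀ x u : ℝ, ((x : ℂ) + u * I).re = x := by
      intro x u
      simp
    simp only [h2]
    exact continuous_const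
  have h15 := intervalIntegral.integral_mono_on (μ := volume) hAB (hc.intervalIntegrable _ _)
    (continuous_const.intervalIntegrable _ _) (fun u _ => h1 u)
  refine h15.trans (le_of_eq ?_)
  rw [intervalIntegral.integral_const, smul_eq_mul]
  ring

theorem det_right : ∃ δ₁ C : ℝ, 0 < δ₁ ∧ δ₁ ≤ 1 / 4 ∧ 0 ≤ C ∧ ∀ δ : ℝ, 0 < δ → δ ≤ δ₁ →
    ∀ T W K t : ℝ, 100 ≤ T → 1 ≤ W → W / Real.log T ≤ 1 → T ≤ t → Good δ W T K t →
    |BI (1 / 2 + W / Real.log T) 2 (t - hT T) t (fun s => stp2 T t s.im * Real.log ‖riemannZeta s‖) +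
      Real.pi * YY δ W T t| ≤ C + K := by
  obtain ⟨C1, hC1, hmain⟩ := main_term
  obtain ⟨C2, hC2, hsum⟩ := sum_dd
  obtain ⟨δ₁, hδ₁, hδ14, hlog⟩ := log_mm
  have hpi := Real.pi_pos
  refine ⟨δ₁, C1 + 15 / (2 * Real.pi) * (2 + 4 * C2), hδ₁, hδ14, by positivity, ?_⟩
  intro δ hδ hδδ T W K t hT100 hW hWl hTt hgood
  have hT2 : 2 ≤ T := by linarith
  have hl1 : 1 ≤ Real.log T := by
    rw [Real.le_log_iff_exp_le (by linarith)]
    have h := Real.exp_one_lt_d9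
    linarith
  have hmul := hT_mul hT2
  have hh0 := hT_pos hT2
  set l := Real.log T with hl
  set h := hT T with hh
  have hl0 : 0 < l := by linarith
  have hh7 : h ≤ 7 := by
    have h1 : h * 1 ≤ h * l := mul_le_mul_of_nonneg_left hl1 hh0.le
    have h2 := Real.pi_lt_d2
    linarith
  have hth : 0 < t - h := by linarith
  have hW0 : 0 ≤ W / l := by positivity
  have hre : ∀ s ∈ CB (1 / 2 + W / l) 2 (t - h) (t + h), 1 / 2 ≤ s.re ∧ s.re ≤ 2 ∧
      |s.im - t| ≤ h := by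
    intro s hs
    refine ⟨by linarith [hs.1], hs.2.1, abs_le.2 ⟨by linarith [hs.2.2.1], by linarith [hs.2.2.2]⟩⟩
  have hsub : CB (1 / 2 + W / l) 2 (t - h) t ⊆ CB (1 / 2 + W / l) 2 (t - h) (t + h) :=
    CB_mono le_rfl le_rfl le_rfl (by linarith)
  have hne1 : ∀ s ∈ CB (1 / 2 + W / l) 2 (t - h) (t + h), s ≠ 1 := by
    intro s hs h1
    have h2 := hs.2.2.1
    rw [h1, one_im] at h2
    linarith
  have hzc : ContinuousOn riemannZeta (CB (1 / 2 + W / l) 2 (t - h) (t + h)) := fun s hs =>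
    (differentiableAt_riemannZeta (hne1 s hs)).continuousAt.continuousWithinAt
  have hmc : Continuous (MM δ T) := (MM_diff δ T).continuous
  have hfc : ContinuousOn (fun s => ‖riemannZeta s * MM δ T s - 1‖)
      (CB (1 / 2 + W / l) 2 (t - h) (t + h)) :=
    ((hzc.mul hmc.continuousOn).sub continuousOn_const).norm
  have hzM : ∀ s ∈ CB (1 / 2 + W / l) 2 (t - h) (t + h), riemannZeta s * MM δ T s ≠ 0 ∧
      |Real.log ‖riemannZeta s * MM δ T s‖| ≤ 2 * ‖riemannZeta s * MM δ T s - 1‖ := by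
    intro s hs
    exact BDR_log (hgood.g2 s hs.1 hs.2.1 (hre s hs).2.2)
  have hMM : ∀ s ∈ CB (1 / 2 + W / l) 2 (t - h) (t + h), MM δ T s ≠ 0 ∧
      |Real.log ‖MM δ T s‖ + (PP δ T s).re| ≤ ∑ j ∈ Finset.range (JJ T),
        2 * Real.exp (-(dd δ j : ℝ) - kpj δ j * (s.re - 1 / 2) * l / 2) := by
    intro s hs
    obtain ⟨h1, h2, h3⟩ := hre s hs
    exact hlog δ hδ hδδ T hT2 s h1 h2 fun j hj => hgood.g1 j hj s h1 h2 h3
  have hpc : ContinuousOn (fun s => stp2 T t s.im * (PP δ T s).re)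
      (CB (1 / 2 + W / l) 2 (t - h) t) := by
    refine ContinuousOn.mul ((stp2_cont T t).comp continuous_im).continuousOn ?_
    refine continuous_re.comp_continuousOn ?_
    intro s hs
    exact (PP_der hδ (by linarith) (by linarith [(hre s (hsub hs)).1])).continuousAt.continuousWithinAt
  have hlc : ContinuousOn (fun s => stp2 T t s.im * Real.log ‖riemannZeta s‖)
      (CB (1 / 2 + W / l) 2 (t - h) t) := by
    refine ContinuousOn.mul ((stp2_cont T t).comp continuous_im).continuousOn ?_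
    refine ContinuousOn.log (hzc.mono hsub).norm ?_
    intro s hs
    exact norm_ne_zero_iff.2 (left_ne_zero_of_mul (hzM s (hsub hs)).1)
  have hkp : ∀ j, 0 < kpj δ j := fun j => kpj_pos hδ j
  have hec : ∀ j, BInt (1 / 2 + W / l) 2 (t - h) t
      (fun s => Real.exp (-(dd δ j : ℝ) - kpj δ j * (s.re - 1 / 2) * l / 2)) := by
    intro j
    refine bint_cont (Continuous.continuousOn ?_)
    fun_prop
  have hec2 : ∀ j ∈ Finset.range (JJ T), BInt (1 / 2 + W / l) 2 (t - h) t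
      (fun s => 2 * Real.exp (-(dd δ j : ℝ) - kpj δ j * (s.re - 1 / 2) * l / 2)) :=
    fun j _ => bint_const_mul 2 (hec j)
  have hsc : BInt (1 / 2 + W / l) 2 (t - h) t (fun s => ∑ j ∈ Finset.range (JJ T),
      2 * Real.exp (-(dd δ j : ℝ) - kpj δ j * (s.re - 1 / 2) * l / 2)) := by
    refine bint_cont (Continuous.continuousOn ?_)
    fun_prop
  have hfi : BInt (1 / 2 + W / l) 2 (t - h) (t + h) (fun s => ‖riemannZeta s * MM δ T s - 1‖) :=
    bint_cont hfc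
  have hfi' : BInt (1 / 2 + W / l) 2 (t - h) t (fun s => ‖riemannZeta s * MM δ T s - 1‖) :=
    bint_mono hfi le_rfl le_rfl le_rfl (by linarith)
  have hgi := bint_const_mul (15 * (h ^ 2)⁻¹) (bint_add (bint_const_mul 2 hfi') hsc)
  have e1 := bi_sub (bint_cont hlc) (bint_cont hpc)
  have hpw : ∀ s ∈ CB (1 / 2 + W / l) 2 (t - h) t, |stp2 T t s.im * Real.log ‖riemannZeta s‖ -
      stp2 T t s.im * (PP δ T s).re| ≤ 15 * (h ^ 2)⁻¹ * (2 * ‖riemannZeta s * MM δ T s - 1‖ +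
        ∑ j ∈ Finset.range (JJ T),
          2 * Real.exp (-(dd δ j : ℝ) - kpj δ j * (s.re - 1 / 2) * l / 2)) := by
    intro s hs
    have hs' := hsub hs
    obtain ⟨h1, h2⟩ := hzM s hs'
    obtain ⟨h3, h4⟩ := hMM s hs'
    have h5 : Real.log ‖riemannZeta s‖ = Real.log ‖riemannZeta s * MM δ T s‖ -
        Real.log ‖MM δ T s‖ := by
      rw [norm_mul, Real.log_mul (norm_ne_zero_iff.2 (left_ne_zero_of_mul h1))
        (norm_ne_zero_iff.2 h3)]
      ring
    rw [← mul_sub, abs_mul]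
    refine mul_le_mul (stp2_abs T t s.im) ?_ (abs_nonneg _) (by positivity)
    have h6 : Real.log ‖riemannZeta s‖ - (PP δ T s).re =
        Real.log ‖riemannZeta s * MM δ T s‖ - (Real.log ‖MM δ T s‖ + (PP δ T s).re) := by
      rw [h5]
      ring
    rw [h6]
    refine (abs_sub _ _).trans ?_
    exact add_le_add h2 h4
  have e2 := bi_abs_le hgi hpw
  have e3 := bi_const_mul (a := 1 / 2 + W / l) (b := 2) (A := t - h) (B := t)
    (f := fun s => 2 * ‖riemannZeta s * MM δ T s - 1‖ + ∑ j ∈ Finset.range (JJ T),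
      2 * Real.exp (-(dd δ j : ℝ) - kpj δ j * (s.re - 1 / 2) * l / 2)) (15 * (h ^ 2)⁻¹)
  have e4 := bi_add (bint_const_mul 2 hfi') hsc
  have e5 := bi_const_mul (a := 1 / 2 + W / l) (b := 2) (A := t - h) (B := t)
    (f := fun s => ‖riemannZeta s * MM δ T s - 1‖) 2
  have e6 := BDR_sum (Finset.range (JJ T)) (fun j s =>
    2 * Real.exp (-(dd δ j : ℝ) - kpj δ j * (s.re - 1 / 2) * l / 2)) hec2
  have e7 : BI (1 / 2 + W / l) 2 (t - h) t (fun s => ‖riemannZeta s * MM δ T s - 1‖) ≤ h / l :=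
    (bi_subset hfi (fun s _ => norm_nonneg _) le_rfl le_rfl le_rfl (by linarith)).trans hgood.g3
  have e8 : ∀ j ∈ Finset.range (JJ T), BI (1 / 2 + W / l) 2 (t - h) t
      (fun s => 2 * Real.exp (-(dd δ j : ℝ) - kpj δ j * (s.re - 1 / 2) * l / 2)) ≤
      4 * (h / l) * (Real.exp (-(dd δ j : ℝ)) * (1 + 1 / kpj δ j)) := by
    intro j _
    have h1 := bi_const_mul (a := 1 / 2 + W / l) (b := 2) (A := t - h) (B := t)
      (f := fun s => Real.exp (-(dd δ j : ℝ) - kpj δ j * (s.re - 1 / 2) * l / 2)) 2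
    have h2 := BDR_exp (d := (dd δ j : ℝ)) (t := t) (hkp j) hl0 (by linarith : 0 ≤ W) hWl hh0.le
    have h3 : h * (Real.exp (-(dd δ j : ℝ)) * (2 / (kpj δ j * l))) =
        2 * (h / l) * (Real.exp (-(dd δ j : ℝ)) * (1 / kpj δ j)) := by
      have := (hkp j).ne'
      field_simp
    have h4 : 0 ≤ 4 * (h / l) * Real.exp (-(dd δ j : ℝ)) := by positivity
    rw [h1]
    rw [h3] at h2
    have h5 : 4 * (h / l) * (Real.exp (-(dd δ j : ℝ)) * (1 + 1 / kpj δ j)) =
        4 * (h / l) * Real.exp (-(dd δ j : ℝ)) +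
          2 * (2 * (h / l) * (Real.exp (-(dd δ j : ℝ)) * (1 / kpj δ j))) := by ring
    rw [h5]
    linarith
  have e9 : ∑ j ∈ Finset.range (JJ T), BI (1 / 2 + W / l) 2 (t - h) t
      (fun s => 2 * Real.exp (-(dd δ j : ℝ) - kpj δ j * (s.re - 1 / 2) * l / 2)) ≤
      4 * (h / l) * C2 := by
    refine (Finset.sum_le_sum e8).trans ?_
    rw [← Finset.mul_sum]
    exact mul_le_mul_of_nonneg_left (hsum δ hδ (by linarith) (JJ T)) (by positivity)
  have e10 : |BI (1 / 2 + W / l) 2 (t - h) t (fun s => stp2 T t s.im * Real.log ‖riemannZeta s‖ -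
      stp2 T t s.im * (PP δ T s).re)| ≤ 15 / (2 * Real.pi) * (2 + 4 * C2) := by
    refine e2.trans ?_
    rw [e3, e4, e5, e6]
    have h1 : 2 * BI (1 / 2 + W / l) 2 (t - h) t (fun s => ‖riemannZeta s * MM δ T s - 1‖) +
        ∑ j ∈ Finset.range (JJ T), BI (1 / 2 + W / l) 2 (t - h) t
          (fun s => 2 * Real.exp (-(dd δ j : ℝ) - kpj δ j * (s.re - 1 / 2) * l / 2)) ≤
        (h / l) * (2 + 4 * C2) := by
      have h2 : (h / l) * (2 + 4 * C2) = 2 * (h / l) + 4 * (h / l) * C2 := by ring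
      rw [h2]
      linarith
    refine (mul_le_mul_of_nonneg_left h1 (by positivity)).trans (le_of_eq ?_)
    have h3 : 15 * (h ^ 2)⁻¹ * (h / l * (2 + 4 * C2)) = 15 / (h * l) * (2 + 4 * C2) := by
      field_simp
    rw [h3, hmul]
  have e11 := hmain δ T W t hδ hT2 hW hWl
  rw [e1] at e10
  have e12 := abs_add_le (BI (1 / 2 + W / l) 2 (t - h) t
      (fun s => stp2 T t s.im * Real.log ‖riemannZeta s‖) -
      BI (1 / 2 + W / l) 2 (t - h) t (fun s => stp2 T t s.im * (PP δ T s).re))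
    (BI (1 / 2 + W / l) 2 (t - h) t (fun s => stp2 T t s.im * (PP δ T s).re) +
      Real.pi * YY δ W T t)
  have e13 : BI (1 / 2 + W / l) 2 (t - h) t
      (fun s => stp2 T t s.im * Real.log ‖riemannZeta s‖) -
      BI (1 / 2 + W / l) 2 (t - h) t (fun s => stp2 T t s.im * (PP δ T s).re) +
      (BI (1 / 2 + W / l) 2 (t - h) t (fun s => stp2 T t s.im * (PP δ T s).re) +
      Real.pi * YY δ W T t) = BI (1 / 2 + W / l) 2 (t - h) t
      (fun s => stp2 T t s.im * Real.log ‖riemannZeta s‖) + Real.pi * YY δ W T t := by ring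
  rw [e13] at e12
  have e14 := hgood.g6
  refine e12.trans ?_
  linarith

end Pool.Agent.Lib.MP_ec260d_ntB
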