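import Mathlib
import Pool.Agent.Lib.MP_ec260d_ntB.BA0
import Pool.Agent.Lib.MP_00e05b_nt.Mont.MV2

/-!
# JOB BPj4: the fourth moment of a block of primes

`∫ t in (T/2)..(3T), ‖Pj (1/2 + x + i t)‖ ^ 4 ≤ C T exp (-4 x l β)`, `l = log T`, `β = bet δ (j+1)`, for `-1/l ≤ x ≤ 3`, `δ ≤ 1/4`, `T ≥ 2`.
Proof. (1) `Pj ^ 2 = ∑_{(p, q) ∈ Pr ^ 2} (p q) ^ (-s) = ∑_{n ∈ S} c n * n ^ (-s)`, `S` the image of `(p, q) ↦ p q`, `c n` the number of `(p, q) ∈ Pr ^ 2` with `p q = n`; `c n ≤ 2` (`p` is one of the two prime factors of `n`: if `p q = p' q'` then `p = p'` or `p = q'`; so the fibre is contained in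
`{(p, q), (q, p)}`). All `n ∈ S` satisfy `1 ≤ n ≤ X := exp (2 l bet δ j) ≤ exp (l / 2) ≤ T` (`mem_Pr`, `bet ≤ δ ≤ 1/4`).
(2) Mean values: `mv2` (MP_00e05b_nt/Mont/MV2.lean) for real coefficients: `∫_0^{T'} ‖∑ a n e ^ (-i t log n)‖ ^ 2 ≤ C (T' + X) ∑ a n ^ 2`; here `T' = 3 T` (the integrand is nonnegative, `∫_{T/2}^{3T} ≤ ∫_0^{3T}`), `a n = c n * n ^ (-1/2 - x)`, `(n : ℂ) ^ (-(σ + i t)) = n ^ (-σ) e ^ (-i t log n)` for `n ≥ 1`.
So the integral is at most `4 C T ∑ c n ^ 2 n ^ (-1 - 2 x) ≤ 8 C T ∑ c n * n ^ (-1 - 2 x) = 8 C T (∑_{p ∈ Pr} p ^ (-1 - 2 x)) ^ 2`.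
(3) For `x ≥ 0`: `p ^ (-2 x) ≤ (xs δ T (j+1)) ^ (-2 x) = exp (-2 x l β)`. For `-1/l ≤ x < 0`: `p ^ (-2 x) = p ^ (2 |x|) ≤ (xs δ T j) ^ (2 |x|) = exp (2 |x| l bet δ j) = exp (2 |x| l e β) = exp (-2 x l β) exp (2 |x| l (e - 1) β) ≤ exp (-2 x l β) e ^ 4` (`|x| l ≤ 1`, `β ≤ 1`, `2 (e - 1) ≤ 4`).
With `∑ 1/p ≤ 3` (`a0_block`): `(∑ p ^ (-1 - 2x)) ^ 2 ≤ 9 e ^ 8 exp (-4 x l β)`.
-/

namespace Pool.Agent.Lib.MP_ec260d_ntB

open Complex Set Filter Topology MeasureTheory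

private theorem bpj4_pow (n : ℕ) (hn : 1 ≤ n) (σ t : ℝ) :
    (n : ℂ) ^ (-((σ : ℂ) + t * I)) =
      (((n : ℝ) ^ (-σ) : ℝ) : ℂ) * cexp (((-(t * Real.log n) : ℝ) : ℂ) * I) := by
  have hn0 : (0 : ℝ) < n := by exact_mod_cast hn
  have hnc : (n : ℂ) ≠ 0 := by exact_mod_cast hn0.ne'
  rw [Complex.cpow_def_of_ne_zero hnc, ← Complex.natCast_log, Real.rpow_def_of_pos hn0,
    Complex.ofReal_exp, ← Complex.exp_add]
  congr 1
  push_cast
  ring

private theorem bpj4_fib (δ T : ℝ) (j n : ℕ) :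
    ((Pr δ T j ×ˢ Pr δ T j).filter (fun z => z.1 * z.2 = n)).card ≤ 2 := by
  classical
  rcases Finset.eq_empty_or_nonempty ((Pr δ T j ×ˢ Pr δ T j).filter (fun z => z.1 * z.2 = n)) with h | h
  · rw [h]; simp
  · obtain ⟨⟨p, q⟩, hz⟩ := h
    rw [Finset.mem_filter, Finset.mem_product] at hz
    obtain ⟨⟨hp, hq⟩, hpq⟩ := hz
    simp only at hp hq hpq
    have hpp := (mem_Pr.1 hp).1
    have hqp := (mem_Pr.1 hq).1
    have hsub : (Pr δ T j ×ˢ Pr δ T j).filter (fun z => z.1 * z.2 = n) ⊆ {(p, q), (q, p)} := by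
      rintro ⟨p', q'⟩ hz
      rw [Finset.mem_filter, Finset.mem_product] at hz
      obtain ⟨⟨hp', hq'⟩, hpq'⟩ := hz
      simp only at hp' hq' hpq'
      have hpp' := (mem_Pr.1 hp').1
      have hd : p' ∣ p * q := by rw [hpq, ← hpq']; exact Dvd.intro _ rfl
      rw [Finset.mem_insert, Finset.mem_singleton]
      rcases (hpp'.dvd_mul).1 hd with h1 | h1
      · have e := (Nat.prime_dvd_prime_iff_eq hpp' hpp).1 h1
        left
        subst e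
        rw [← hpq] at hpq'
        rw [Nat.eq_of_mul_eq_mul_left hpp'.pos hpq']
      · have e := (Nat.prime_dvd_prime_iff_eq hpp' hqp).1 h1
        right
        subst e
        rw [← hpq, mul_comm p p'] at hpq'
        rw [Nat.eq_of_mul_eq_mul_left hpp'.pos hpq']
    exact (Finset.card_le_card hsub).trans Finset.card_le_two

private theorem bpj4_p (δ T : ℝ) (hδ : 0 < δ) (hδ4 : δ ≤ 1 / 4) (hT : 2 ≤ T) (j : ℕ) (x : ℝ)
    (hx : -(1 / Real.log T) ≤ x) (p : ℕ) (hp : p ∈ Pr δ T j) :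
    ((p : ℝ) ^ (-(1 / 2 + x))) ^ 2 ≤
      1 / (p : ℝ) * (Real.exp 4 * Real.exp (-(2 * x * (Real.log T * bet δ (j + 1))))) := by
  obtain ⟨hpp, -, h1, h2⟩ := mem_Pr.1 hp
  have hp0 : (0 : ℝ) < p := by exact_mod_cast hpp.pos
  have hl : 0 < Real.log T := Real.log_pos (by linarith)
  have hb := bet_pos hδ (j + 1)
  have hb1 := bet_le hδ (j + 1)
  have hlow : Real.log T * bet δ (j + 1) ≤ Real.log p := by
    rw [← log_xs]
    exact Real.log_le_log (xs_pos _ _ _) h1.le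
  have hup : Real.log p ≤ Real.log T * (Real.exp 1 * bet δ (j + 1)) := by
    rw [← bet_succ, ← log_xs]
    exact Real.log_le_log hp0 h2
  have e1 : ((p : ℝ) ^ (-(1 / 2 + x))) ^ 2 = 1 / (p : ℝ) * Real.exp (-(2 * x * Real.log p)) := by
    rw [Real.rpow_def_of_pos hp0, ← Real.exp_nat_mul]
    have e2 : 1 / (p : ℝ) = Real.exp (-Real.log p) := by
      rw [Real.exp_neg, Real.exp_log hp0, one_div]
    rw [e2, ← Real.exp_add]
    congr 1
    push_cast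
    ring
  rw [e1, ← Real.exp_add]
  apply mul_le_mul_of_nonneg_left _ (by positivity)
  apply Real.exp_le_exp.2
  rcases le_or_gt 0 x with hx0 | hx0
  · nlinarith [mul_le_mul_of_nonneg_left hlow hx0]
  · have hxl : (-x) * Real.log T ≤ 1 := by
      have : -x ≤ 1 / Real.log T := by linarith
      rwa [le_div_iff₀ hl] at this
    have hxl0 : 0 ≤ (-x) * Real.log T := by
      apply mul_nonneg _ hl.le
      linarith
    have he : Real.exp 1 < 2.7182818286 := Real.exp_one_lt_d9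
    have he0 : 1 ≤ Real.exp 1 := Real.one_le_exp (by norm_num)
    have h3 : (-x) * Real.log p ≤ (-x) * (Real.log T * (Real.exp 1 * bet δ (j + 1))) :=
      mul_le_mul_of_nonneg_left hup (by linarith)
    have h4 : (-x) * (Real.log T * (Real.exp 1 * bet δ (j + 1))) =
        (-x) * (Real.log T * bet δ (j + 1)) +
          ((-x) * Real.log T) * ((Real.exp 1 - 1) * bet δ (j + 1)) := by ring
    have h5 : (Real.exp 1 - 1) * bet δ (j + 1) ≤ 2 * 1 :=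
      mul_le_mul (by linarith) (by linarith) hb.le (by norm_num)
    have h5' : 0 ≤ (Real.exp 1 - 1) * bet δ (j + 1) := mul_nonneg (by linarith) hb.le
    have h6 : ((-x) * Real.log T) * ((Real.exp 1 - 1) * bet δ (j + 1)) ≤ 1 * 2 :=
      mul_le_mul hxl (by linarith) h5' (by norm_num)
    nlinarith

private theorem bpj4_T (δ T : ℝ) (hδ : 0 < δ) (hδ4 : δ ≤ 1 / 4) (hT : 2 ≤ T) (j : ℕ) (p q : ℕ)
    (hp : p ∈ Pr δ T j) (hq : q ∈ Pr δ T j) : 1 ≤ p * q ∧ ((p * q : ℕ) : ℝ) ≤ T := by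
  obtain ⟨hpp, -, -, h2⟩ := mem_Pr.1 hp
  obtain ⟨hqp, -, -, h3⟩ := mem_Pr.1 hq
  refine ⟨Nat.mul_pos hpp.pos hqp.pos, ?_⟩
  have hl : 0 < Real.log T := Real.log_pos (by linarith)
  have hb := bet_pos hδ j
  have hb1 := bet_le hδ j
  push_cast
  calc (p : ℝ) * q ≤ xs δ T j * xs δ T j :=
        mul_le_mul h2 h3 (Nat.cast_nonneg q) (xs_pos _ _ _).le
    _ = Real.exp (Real.log T * bet δ j + Real.log T * bet δ j) := by rw [xs_eq, Real.exp_add]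
    _ ≤ Real.exp (Real.log T) := by
        apply Real.exp_le_exp.2
        nlinarith
    _ = T := Real.exp_log (by linarith)

theorem pj_four : ∃ C : ℝ, 0 ≤ C ∧ ∀ δ : ℝ, 0 < δ → δ ≤ 1 / 4 → ∀ T : ℝ, 2 ≤ T → ∀ (j : ℕ) (x : ℝ),
    -(1 / Real.log T) ≤ x → x ≤ 3 →
    ∫ t in (T / 2)..(3 * T), ‖Pj δ T j (((1 / 2 + x : ℝ) : ℂ) + t * I)‖ ^ 4 ≤
      C * T * Real.exp (-(4 * x * (Real.log T * bet δ (j + 1)))) := by
  classical
  obtain ⟨C0, hC0, hmv⟩ := MP_00e05b_nt.Mont.mv2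
  refine ⟨72 * C0 * Real.exp 8, by positivity, fun δ hδ hδ4 T hT j x hx hx3 => ?_⟩
  set R : Finset (ℕ × ℕ) := Pr δ T j ×ˢ Pr δ T j with hR
  set S : Finset ℕ := R.image (fun z => z.1 * z.2) with hS
  set c : ℕ → ℕ := fun n => (R.filter (fun z => z.1 * z.2 = n)).card with hc
  set a : ℕ → ℝ := fun n => (c n : ℝ) * (n : ℝ) ^ (-(1 / 2 + x)) with ha
  have hmem : ∀ n ∈ S, 1 ≤ n ∧ (n : ℝ) ≤ T := by
    intro n hn
    rw [hS, Finset.mem_image] at hn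
    obtain ⟨⟨p, q⟩, hz, rfl⟩ := hn
    rw [hR, Finset.mem_product] at hz
    exact bpj4_T δ T hδ hδ4 hT j p q hz.1 hz.2
  have hmaps : ∀ z ∈ R, z.1 * z.2 ∈ S := fun z hz => Finset.mem_image_of_mem _ hz
  -- the square of the prime sum
  have hsq : ∀ t : ℝ, Pj δ T j (((1 / 2 + x : ℝ) : ℂ) + t * I) ^ 2 =
      ∑ n ∈ S, (a n : ℂ) * cexp (((-(t * Real.log n) : ℝ) : ℂ) * I) := by
    intro t
    set s : ℂ := ((1 / 2 + x : ℝ) : ℂ) + t * I with hs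
    have e1 : Pj δ T j s ^ 2 = ∑ z ∈ R, ((z.1 * z.2 : ℕ) : ℂ) ^ (-s) := by
      unfold Pj
      rw [sq, Finset.sum_mul_sum, hR, Finset.sum_product]
      apply Finset.sum_congr rfl
      intro p _
      apply Finset.sum_congr rfl
      intro q _
      simp only
      push_cast
      rw [Complex.natCast_mul_natCast_cpow]
    rw [e1, ← Finset.sum_fiberwise_of_maps_to hmaps]
    apply Finset.sum_congr rfl
    intro n hn
    have e2 : ∀ z ∈ R.filter (fun z => z.1 * z.2 = n), ((z.1 * z.2 : ℕ) : ℂ) ^ (-s) = (n : ℂ) ^ (-s) := by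
      intro z hz
      rw [(Finset.mem_filter.1 hz).2]
    rw [Finset.sum_congr rfl e2, Finset.sum_const, nsmul_eq_mul, hs, bpj4_pow n (hmem n hn).1, ha]
    simp only
    push_cast
    ring
  have hf : ∀ t : ℝ, ‖Pj δ T j (((1 / 2 + x : ℝ) : ℂ) + t * I)‖ ^ 4 =
      ‖∑ n ∈ S, (a n : ℂ) * cexp (((-(t * Real.log n) : ℝ) : ℂ) * I)‖ ^ 2 := by
    intro t
    rw [← hsq t, norm_pow, ← pow_mul]
  have hcont : Continuous (fun t : ℝ =>
      ‖∑ n ∈ S, (a n : ℂ) * cexp (((-(t * Real.log n) : ℝ) : ℂ) * I)‖ ^ 2) := by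
    fun_prop
  have hint : ∫ t in (T / 2)..(3 * T), ‖Pj δ T j (((1 / 2 + x : ℝ) : ℂ) + t * I)‖ ^ 4 ≤
      C0 * (3 * T + T) * ∑ n ∈ S, a n ^ 2 := by
    rw [intervalIntegral.integral_congr (g := fun t : ℝ =>
      ‖∑ n ∈ S, (a n : ℂ) * cexp (((-(t * Real.log n) : ℝ) : ℂ) * I)‖ ^ 2) (fun t _ => hf t)]
    refine le_trans ?_ (hmv S a T (3 * T) (by linarith) (by linarith) hmem)
    apply intervalIntegral.integral_mono_interval (by linarith) (by linarith) le_rfl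
    · exact Filter.Eventually.of_forall (fun t => by positivity)
    · exact hcont.intervalIntegrable _ _
  -- the sum of squares
  have hsum : ∑ n ∈ S, a n ^ 2 ≤ 2 * (∑ p ∈ Pr δ T j, ((p : ℝ) ^ (-(1 / 2 + x))) ^ 2) ^ 2 := by
    have e1 : (∑ p ∈ Pr δ T j, ((p : ℝ) ^ (-(1 / 2 + x))) ^ 2) ^ 2 =
        ∑ n ∈ S, (c n : ℝ) * ((n : ℝ) ^ (-(1 / 2 + x))) ^ 2 := by
      have e0 : (∑ p ∈ Pr δ T j, ((p : ℝ) ^ (-(1 / 2 + x))) ^ 2) ^ 2 =
          ∑ z ∈ R, (((z.1 * z.2 : ℕ) : ℝ) ^ (-(1 / 2 + x))) ^ 2 := by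
        rw [sq, Finset.sum_mul_sum, hR, Finset.sum_product]
        apply Finset.sum_congr rfl
        intro p _
        apply Finset.sum_congr rfl
        intro q _
        simp only
        push_cast
        rw [Real.mul_rpow (Nat.cast_nonneg _) (Nat.cast_nonneg _)]
        ring
      rw [e0, ← Finset.sum_fiberwise_of_maps_to hmaps]
      apply Finset.sum_congr rfl
      intro n hn
      have e2 : ∀ z ∈ R.filter (fun z => z.1 * z.2 = n),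
          (((z.1 * z.2 : ℕ) : ℝ) ^ (-(1 / 2 + x))) ^ 2 = ((n : ℝ) ^ (-(1 / 2 + x))) ^ 2 := by
        intro z hz
        rw [(Finset.mem_filter.1 hz).2]
      rw [Finset.sum_congr rfl e2, Finset.sum_const, nsmul_eq_mul]
    rw [e1, Finset.mul_sum]
    apply Finset.sum_le_sum
    intro n _
    have hcn : (c n : ℝ) ≤ 2 := by exact_mod_cast bpj4_fib δ T j n
    have hcn0 : (0 : ℝ) ≤ c n := Nat.cast_nonneg _
    have e3 : a n ^ 2 = (c n : ℝ) * ((c n : ℝ) * ((n : ℝ) ^ (-(1 / 2 + x))) ^ 2) := by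
      rw [ha]; ring
    rw [e3]
    exact mul_le_mul_of_nonneg_right hcn (by positivity)
  set E : ℝ := Real.exp 4 * Real.exp (-(2 * x * (Real.log T * bet δ (j + 1)))) with hE
  have hE0 : 0 < E := by positivity
  have hp : ∑ p ∈ Pr δ T j, ((p : ℝ) ^ (-(1 / 2 + x))) ^ 2 ≤ 3 * E := by
    calc ∑ p ∈ Pr δ T j, ((p : ℝ) ^ (-(1 / 2 + x))) ^ 2
        ≤ ∑ p ∈ Pr δ T j, 1 / (p : ℝ) * E :=
          Finset.sum_le_sum (fun p hp => bpj4_p δ T hδ hδ4 hT j x hx p hp)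
      _ = (∑ p ∈ Pr δ T j, 1 / (p : ℝ)) * E := by rw [Finset.sum_mul]
      _ ≤ 3 * E := mul_le_mul_of_nonneg_right (a0_block δ (by linarith) j) hE0.le
  have hp0 : 0 ≤ ∑ p ∈ Pr δ T j, ((p : ℝ) ^ (-(1 / 2 + x))) ^ 2 :=
    Finset.sum_nonneg (fun p _ => sq_nonneg _)
  have hp2 : (∑ p ∈ Pr δ T j, ((p : ℝ) ^ (-(1 / 2 + x))) ^ 2) ^ 2 ≤ (3 * E) ^ 2 :=
    pow_le_pow_left₀ hp0 hp 2
  have hEE : E ^ 2 = Real.exp 8 * Real.exp (-(4 * x * (Real.log T * bet δ (j + 1)))) := by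
    rw [hE, mul_pow, ← Real.exp_nat_mul, ← Real.exp_nat_mul]
    congr 1
    · congr 1; norm_num
    · congr 1; push_cast; ring
  calc ∫ t in (T / 2)..(3 * T), ‖Pj δ T j (((1 / 2 + x : ℝ) : ℂ) + t * I)‖ ^ 4
      ≤ C0 * (3 * T + T) * ∑ n ∈ S, a n ^ 2 := hint
    _ ≤ C0 * (3 * T + T) * (2 * (3 * E) ^ 2) := by
        apply mul_le_mul_of_nonneg_left _ (by positivity)
        exact hsum.trans (by linarith)
    _ = 72 * C0 * T * E ^ 2 := by ring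
    _ = 72 * C0 * Real.exp 8 * T * Real.exp (-(4 * x * (Real.log T * bet δ (j + 1)))) := by
        rw [hEE]; ring

end Pool.Agent.Lib.MP_ec260d_ntB
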