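import Mathlib
import Pool.Agent.Lib.MP_ec260d_ntB.BPj4
import Pool.Agent.Lib.MP_ec260d_ntB.BMean
import Pool.Agent.Lib.MP_ec260d_ntB.BWin

/-!
# JOB BPJ: the blocks of primes are small near most heights

`l = log T`, `h = hT T = 2 π / l`, `β_j = bet δ j`, `d_j = dd δ j ≥ β_j ^ (-3/4)` (`Nat.le_ceil`), `β_j = e β_{j+1}` (`bet_succ`).
Let `g s = cexp ((l β_{j+1} / 2) (s - 1/2)) * Pj δ T j s`, an entire function (`Pj` is a finite sum of `(p : ℂ) ^ (-s)`, `p ≠ 0`), `‖g s‖ = exp (l β_{j+1} (s.re - 1/2) / 2) * ‖Pj s‖`.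
(1) For each `j`: `win_meas` with `f s = ‖g s‖ ^ 4`, `a = 1/2 - 1/l`, `b = 2 + 1/l`, window `L' = L h + 1/l ≤ 1/2` (`T ≥ T₀(L)`), threshold `λ = (π / l ^ 2) (c d_j) ^ 4`. `BI a b (T/2) (3T) f = ∫ x in (-1/l)..(3/2 + 1/l), exp (2 l β_{j+1} x) ∫ t, ‖Pj (1/2 + x + i t)‖ ^ 4 ≤ ∫ x, C T exp (-2 l β_{j+1} x)` (`bi_iter`, `pj_four`,
`3/2 + 1/l ≤ 3`) `≤ C T exp (2 β_{j+1}) / (2 l β_{j+1}) ≤ C T e / (2 l β_{j+1})` (`∫_{-1/l}^{X} exp (-2 l β x) dx ≤ exp (2 β) / (2 l β)`, `β ≤ 1/4`).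
So `volume Bad_j ≤ 2 L' / λ * BI ≤ 2 (2 π L + 1) / l * l ^ 2 / (π c ^ 4 d_j ^ 4) * C T e / (2 l β_{j+1}) ≤ C' (L + 1) T / (c ^ 4 d_j ^ 4 β_{j+1}) ≤ C' e (L + 1) T β_j ^ 2 / c ^ 4` (`d_j ^ 4 ≥ β_j ^ (-3)`).
(2) For `t ∉ Bad_j` and `s` in the range: `area_mean` for `g ^ 4` and the radius `1/l`: `π / l ^ 2 * ‖g s‖ ^ 4 ≤ BI (s.re - 1/l) (s.re + 1/l) (s.im - 1/l) (s.im + 1/l) (‖g‖ ^ 4) ≤ BI a b (t - L') (t + L') f ≤ λ` (`bi_subset`), so `‖g s‖ ^ 4 ≤ (c d_j) ^ 4` and `‖g s‖ ≤ c d_j`.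
(3) `Bad = ⋃_{j < JJ T} Bad_j`: `volume Bad ≤ ∑_j C' e (L + 1) T δ ^ 2 e ^ (-2 j) / c ^ 4 ≤ 2 C' e (L + 1) δ ^ 2 T / c ^ 4` (geometric series, `measure_biUnion_finset_le`, `ENNReal.ofReal_sum_of_nonneg`).
-/

namespace Pool.Agent.Lib.MP_ec260d_ntB

open Complex Set Filter Topology MeasureTheory

private noncomputable def bpjG (δ T : ℝ) (j : ℕ) (s : ℂ) : ℂ :=
  cexp (((Real.log T * bet δ (j + 1) / 2 : ℝ) : ℂ) * (s - ((1 / 2 : ℝ) : ℂ))) * Pj δ T j s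

private theorem bpj_diff (δ T : ℝ) (j : ℕ) : Differentiable ℂ (bpjG δ T j) := by
  unfold bpjG Pj
  refine Differentiable.mul (by fun_prop) ?_
  refine Differentiable.fun_sum fun p hp => ?_
  have hp0 : (p : ℂ) ≠ 0 := by
    rw [mem_Pr] at hp
    exact_mod_cast hp.1.ne_zero
  exact fun s => (differentiableAt_id.neg).const_cpow (Or.inl hp0)

private theorem bpj_norm (δ T : ℝ) (j : ℕ) (s : ℂ) : ‖bpjG δ T j s‖ =
    Real.exp (Real.log T * bet δ (j + 1) * (s.re - 1 / 2) / 2) * ‖Pj δ T j s‖ := by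
  unfold bpjG
  rw [norm_mul, Complex.norm_exp, Complex.re_ofReal_mul, Complex.sub_re, Complex.ofReal_re]
  have h : Real.log T * bet δ (j + 1) / 2 * (s.re - 1 / 2) =
      Real.log T * bet δ (j + 1) * (s.re - 1 / 2) / 2 := by ring
  rw [h]

private theorem bpj_f (δ T : ℝ) (j : ℕ) (x t : ℝ) : ‖bpjG δ T j ((x : ℂ) + t * I) ^ 4‖ =
    Real.exp (2 * (Real.log T * bet δ (j + 1)) * (x - 1 / 2)) *
      ‖Pj δ T j (((1 / 2 + (x - 1 / 2) : ℝ) : ℂ) + t * I)‖ ^ 4 := by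
  rw [norm_pow, bpj_norm, mul_pow, ← Real.exp_nat_mul]
  have h1 : ((x : ℂ) + t * I).re = x := by simp
  have h2 : (1 / 2 + (x - 1 / 2) : ℝ) = x := by ring
  rw [h1, h2]
  have h3 : ((4 : ℕ) : ℝ) * (Real.log T * bet δ (j + 1) * (x - 1 / 2) / 2) =
      2 * (Real.log T * bet δ (j + 1)) * (x - 1 / 2) := by
    push_cast
    ring
  rw [h3]

private theorem bpj_exp (k a b : ℝ) (hk : 0 < k) :
    ∫ x in a..b, Real.exp (-(k * (x - 1 / 2))) ≤ Real.exp (-(k * (a - 1 / 2))) / k := by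
  have h1 : ∀ x ∈ Set.uIcc a b, HasDerivAt (fun x => -Real.exp (-(k * (x - 1 / 2))) / k)
      (Real.exp (-(k * (x - 1 / 2)))) x := by
    intro x _
    have e1 : HasDerivAt (fun x : ℝ => -(k * (x - 1 / 2))) (-(k * 1)) x :=
      (((hasDerivAt_id x).sub_const (1 / 2)).const_mul k).neg
    have e2 : HasDerivAt (fun x => -Real.exp (-(k * (x - 1 / 2))) / k)
        (-(Real.exp (-(k * (x - 1 / 2))) * -(k * 1)) / k) x := (e1.exp.neg).div_const k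
    have e3 : -(Real.exp (-(k * (x - 1 / 2))) * -(k * 1)) / k = Real.exp (-(k * (x - 1 / 2))) := by
      field_simp
    rw [e3] at e2
    exact e2
  rw [intervalIntegral.integral_eq_sub_of_hasDerivAt h1
    ((by fun_prop : Continuous fun x : ℝ => Real.exp (-(k * (x - 1 / 2)))).intervalIntegrable _ _)]
  have h2 : 0 ≤ Real.exp (-(k * (b - 1 / 2))) / k := by positivity
  rw [neg_div, neg_div]
  linarith

private theorem bpj_bi {C4 : ℝ} (hC0 : 0 ≤ C4)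
    (hC : ∀ δ : ℝ, 0 < δ → δ ≤ 1 / 4 → ∀ T : ℝ, 2 ≤ T → ∀ (j : ℕ) (x : ℝ),
      -(1 / Real.log T) ≤ x → x ≤ 3 →
      ∫ t in (T / 2)..(3 * T), ‖Pj δ T j (((1 / 2 + x : ℝ) : ℂ) + t * I)‖ ^ 4 ≤
        C4 * T * Real.exp (-(4 * x * (Real.log T * bet δ (j + 1)))))
    (δ T : ℝ) (hδ : 0 < δ) (hδ' : δ ≤ 1 / 4) (hT : 2 ≤ T) (hl : 2 ≤ Real.log T) (j : ℕ) :
    BI (1 / 2 - 1 / Real.log T) (2 + 1 / Real.log T) (T / 2) (3 * T)
        (fun s => ‖bpjG δ T j s ^ 4‖) ≤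
      C4 * T * (3 / (2 * (Real.log T * bet δ (j + 1)))) := by
  have hl0 : 0 < Real.log T := by linarith
  have hinv : 0 < 1 / Real.log T := by positivity
  have hinv2 : 1 / Real.log T ≤ 1 / 2 := one_div_le_one_div_of_le (by norm_num) hl
  have hβ := bet_pos hδ (j + 1)
  have hβ4 : bet δ (j + 1) ≤ 1 / 4 := (bet_le hδ _).trans hδ'
  have hcont : Continuous (fun s => ‖bpjG δ T j s ^ 4‖) :=
    ((bpj_diff δ T j).continuous.pow 4).norm
  rw [bi_iter (by linarith) (by linarith) (bint_cont hcont.continuousOn)]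
  have h1 : ∀ x ∈ Set.Icc (1 / 2 - 1 / Real.log T) (2 + 1 / Real.log T),
      ∫ t in (T / 2)..(3 * T), ‖bpjG δ T j ((x : ℂ) + t * I) ^ 4‖ ≤
      C4 * T * Real.exp (-((2 * (Real.log T * bet δ (j + 1))) * (x - 1 / 2))) := by
    intro x hx
    have e0 : (fun t : ℝ => ‖bpjG δ T j ((x : ℂ) + t * I) ^ 4‖) =
        fun t : ℝ => Real.exp (2 * (Real.log T * bet δ (j + 1)) * (x - 1 / 2)) *
          ‖Pj δ T j (((1 / 2 + (x - 1 / 2) : ℝ) : ℂ) + t * I)‖ ^ 4 :=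
      funext fun t => bpj_f δ T j x t
    rw [e0, intervalIntegral.integral_const_mul]
    have e1 := hC δ hδ hδ' T hT j (x - 1 / 2) (by linarith [hx.1]) (by linarith [hx.2])
    refine (mul_le_mul_of_nonneg_left e1 (Real.exp_pos _).le).trans (le_of_eq ?_)
    rw [mul_left_comm, ← Real.exp_add]
    have e2 : 2 * (Real.log T * bet δ (j + 1)) * (x - 1 / 2) +
        -(4 * (x - 1 / 2) * (Real.log T * bet δ (j + 1))) =
        -((2 * (Real.log T * bet δ (j + 1))) * (x - 1 / 2)) := by ring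
    rw [e2]
  have hF : Continuous (fun x : ℝ => ∫ t in (T / 2)..(3 * T), ‖bpjG δ T j ((x : ℂ) + t * I) ^ 4‖) := by
    refine intervalIntegral.continuous_parametric_intervalIntegral_of_continuous' ?_ _ _
    exact hcont.comp (by fun_prop : Continuous fun z : ℝ × ℝ => (z.1 : ℂ) + (z.2 : ℂ) * I)
  have hk : 0 < 2 * (Real.log T * bet δ (j + 1)) := by positivity
  have h2 : ∫ x in (1 / 2 - 1 / Real.log T)..(2 + 1 / Real.log T),
      ∫ t in (T / 2)..(3 * T), ‖bpjG δ T j ((x : ℂ) + t * I) ^ 4‖ ≤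
      ∫ x in (1 / 2 - 1 / Real.log T)..(2 + 1 / Real.log T),
        C4 * T * Real.exp (-((2 * (Real.log T * bet δ (j + 1))) * (x - 1 / 2))) := by
    refine intervalIntegral.integral_mono_on (by linarith) (hF.intervalIntegrable _ _) ?_ h1
    exact Continuous.intervalIntegrable (by fun_prop) _ _
  refine h2.trans ?_
  rw [intervalIntegral.integral_const_mul]
  refine mul_le_mul_of_nonneg_left ?_ (by positivity)
  refine (bpj_exp _ _ _ hk).trans ?_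
  refine div_le_div_of_nonneg_right ?_ hk.le
  have h3 : -(2 * (Real.log T * bet δ (j + 1)) * (1 / 2 - 1 / Real.log T - 1 / 2)) =
      2 * bet δ (j + 1) := by
    field_simp
    ring
  rw [h3]
  have h4 : Real.exp (2 * bet δ (j + 1)) ≤ Real.exp 1 := Real.exp_le_exp.2 (by linarith)
  have h5 : Real.exp 1 < 2.7182818286 := Real.exp_one_lt_d9
  linarith

private theorem bpj_dd {δ : ℝ} (hδ : 0 < δ) (j : ℕ) : 1 ≤ (dd δ j : ℝ) ^ 4 * bet δ j ^ 3 ∧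
    0 < (dd δ j : ℝ) := by
  have hb := bet_pos hδ j
  have h1 : bet δ j ^ (-(3 / 4) : ℝ) ≤ (dd δ j : ℝ) := Nat.le_ceil _
  have h0 : 0 < bet δ j ^ (-(3 / 4) : ℝ) := Real.rpow_pos_of_pos hb _
  refine ⟨?_, h0.trans_le h1⟩
  have h2 : (bet δ j ^ (-(3 / 4) : ℝ)) ^ 4 * bet δ j ^ 3 = 1 := by
    rw [← Real.rpow_natCast, ← Real.rpow_mul hb.le, ← Real.rpow_natCast (bet δ j) 3,
      ← Real.rpow_add hb]
    have : (-(3 / 4) : ℝ) * ((4 : ℕ) : ℝ) + ((3 : ℕ) : ℝ) = 0 := by norm_num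
    rw [this, Real.rpow_zero]
  rw [← h2]
  exact mul_le_mul_of_nonneg_right (pow_le_pow_left₀ h0.le h1 4) (by positivity)

private theorem bpj_one {C4 : ℝ} (hC0 : 0 ≤ C4)
    (hC : ∀ δ : ℝ, 0 < δ → δ ≤ 1 / 4 → ∀ T : ℝ, 2 ≤ T → ∀ (j : ℕ) (x : ℝ),
      -(1 / Real.log T) ≤ x → x ≤ 3 →
      ∫ t in (T / 2)..(3 * T), ‖Pj δ T j (((1 / 2 + x : ℝ) : ℂ) + t * I)‖ ^ 4 ≤
        C4 * T * Real.exp (-(4 * x * (Real.log T * bet δ (j + 1)))))
    (δ T L c : ℝ) (hδ : 0 < δ) (hδ' : δ ≤ 1 / 4) (hTT : 2 ≤ T) (hL : 0 ≤ L) (hc : 0 < c)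
    (hl : 2 * (2 * Real.pi * L + 1) ≤ Real.log T) (j : ℕ) :
    ∃ Bad : Set ℝ, MeasurableSet Bad ∧
      volume Bad ≤ ENNReal.ofReal (18 * C4 * (L + 1) * (c ^ 4)⁻¹ * T * bet δ j ^ 2) ∧
      ∀ t ∈ Icc T (3 * T - 1), t ∉ Bad → ∀ s : ℂ, 1 / 2 ≤ s.re → s.re ≤ 2 →
        |s.im - t| ≤ L * hT T →
        Real.exp (Real.log T * bet δ (j + 1) * (s.re - 1 / 2) / 2) * ‖Pj δ T j s‖ ≤ c * dd δ j := by
  have hpi := Real.pi_pos
  have hpL : 0 ≤ Real.pi * L := by positivity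
  have hl2 : 2 ≤ Real.log T := by nlinarith
  have hl0 : 0 < Real.log T := by linarith
  have hinv : 0 < 1 / Real.log T := by positivity
  have hβ := bet_pos hδ (j + 1)
  have hβj := bet_pos hδ j
  obtain ⟨hd1, hd0⟩ := bpj_dd hδ j
  have hcont : Continuous (fun s => ‖bpjG δ T j s ^ 4‖) :=
    ((bpj_diff δ T j).continuous.pow 4).norm
  have hLh : L * hT T + 1 / Real.log T = (2 * Real.pi * L + 1) / Real.log T := by
    unfold hT
    field_simp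
  have hL1 : 0 < L * hT T + 1 / Real.log T := by
    rw [hLh]
    positivity
  have hL2 : L * hT T + 1 / Real.log T ≤ 1 / 2 := by
    rw [hLh, div_le_div_iff₀ hl0 (by norm_num)]
    linarith
  have hlam : 0 < Real.pi * (1 / Real.log T) ^ 2 * (c * dd δ j) ^ 4 := by positivity
  obtain ⟨Bad, hB1, hB2, hB3⟩ := win_meas T hTT (1 / 2 - 1 / Real.log T) (2 + 1 / Real.log T)
    (by linarith) (fun s => ‖bpjG δ T j s ^ 4‖) hcont.continuousOn (fun s _ => norm_nonneg _)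
    (L * hT T + 1 / Real.log T) (Real.pi * (1 / Real.log T) ^ 2 * (c * dd δ j) ^ 4) hL1 hL2 hlam
  refine ⟨Bad, hB1, hB2.trans (ENNReal.ofReal_le_ofReal ?_), ?_⟩
  · have h1 := bpj_bi hC0 hC δ T hδ hδ' hTT hl2 j
    have h2 : 0 ≤ 2 * (L * hT T + 1 / Real.log T) /
        (Real.pi * (1 / Real.log T) ^ 2 * (c * dd δ j) ^ 4) := by positivity
    refine (mul_le_mul_of_nonneg_left h1 h2).trans ?_
    rw [hLh]
    have h3 : 2 * ((2 * Real.pi * L + 1) / Real.log T) /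
        (Real.pi * (1 / Real.log T) ^ 2 * (c * dd δ j) ^ 4) *
        (C4 * T * (3 / (2 * (Real.log T * bet δ (j + 1))))) =
        3 * C4 * T * (c ^ 4)⁻¹ * ((2 * Real.pi * L + 1) / Real.pi) *
          (1 / ((dd δ j : ℝ) ^ 4 * bet δ (j + 1))) := by
      field_simp
    rw [h3]
    have h4 : (2 * Real.pi * L + 1) / Real.pi ≤ 2 * (L + 1) := by
      rw [div_le_iff₀ hpi]
      nlinarith [Real.pi_gt_three]
    have h5 : 1 / ((dd δ j : ℝ) ^ 4 * bet δ (j + 1)) ≤ 3 * bet δ j ^ 2 := by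
      rw [div_le_iff₀ (by positivity)]
      have h6 : bet δ j ≤ 3 * bet δ (j + 1) := by
        rw [bet_succ]
        have h7 : Real.exp 1 < 2.7182818286 := Real.exp_one_lt_d9
        nlinarith
      calc (1 : ℝ) ≤ (dd δ j : ℝ) ^ 4 * bet δ j ^ 3 := hd1
        _ = ((dd δ j : ℝ) ^ 4 * bet δ j ^ 2) * bet δ j := by ring
        _ ≤ ((dd δ j : ℝ) ^ 4 * bet δ j ^ 2) * (3 * bet δ (j + 1)) :=
          mul_le_mul_of_nonneg_left h6 (by positivity)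
        _ = 3 * bet δ j ^ 2 * ((dd δ j : ℝ) ^ 4 * bet δ (j + 1)) := by ring
    have hc4 : 0 < (c ^ 4)⁻¹ := by positivity
    calc 3 * C4 * T * (c ^ 4)⁻¹ * ((2 * Real.pi * L + 1) / Real.pi) *
          (1 / ((dd δ j : ℝ) ^ 4 * bet δ (j + 1)))
        ≤ 3 * C4 * T * (c ^ 4)⁻¹ * (2 * (L + 1)) * (3 * bet δ j ^ 2) := by
          refine mul_le_mul (mul_le_mul_of_nonneg_left h4 (by positivity)) h5 (by positivity)
            (by positivity)
      _ = 18 * C4 * (L + 1) * (c ^ 4)⁻¹ * T * bet δ j ^ 2 := by ring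
  · intro t ht htB s hs1 hs2 hs3
    have h1 := hB3 t ht htB
    rw [abs_le] at hs3
    have h2 := area_mean (fun s => bpjG δ T j s ^ 4) s (1 / Real.log T) hinv
      (fun z _ => ((bpj_diff δ T j).pow 4) z)
    have h3 : BI (s.re - 1 / Real.log T) (s.re + 1 / Real.log T) (s.im - 1 / Real.log T)
        (s.im + 1 / Real.log T) (fun s => ‖bpjG δ T j s ^ 4‖) ≤
        BI (1 / 2 - 1 / Real.log T) (2 + 1 / Real.log T) (t - (L * hT T + 1 / Real.log T))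
          (t + (L * hT T + 1 / Real.log T)) (fun s => ‖bpjG δ T j s ^ 4‖) :=
      bi_subset (bint_cont hcont.continuousOn) (fun s _ => norm_nonneg _) (by linarith)
        (by linarith) (by linarith [hs3.1]) (by linarith [hs3.2])
    have h4 : Real.pi * (1 / Real.log T) ^ 2 * ‖bpjG δ T j s ^ 4‖ ≤
        Real.pi * (1 / Real.log T) ^ 2 * (c * dd δ j) ^ 4 := h2.trans (h3.trans h1)
    have h5 := le_of_mul_le_mul_left h4 (by positivity)
    rw [norm_pow] at h5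
    have h6 : ‖bpjG δ T j s‖ ≤ c * dd δ j :=
      (pow_le_pow_iff_left₀ (norm_nonneg _) (by positivity) (by norm_num)).1 h5
    rw [bpj_norm] at h6
    exact h6

private theorem bpj_geom (n : ℕ) : ∑ j ∈ Finset.range n, Real.exp (-(j : ℝ)) ^ 2 ≤ 2 := by
  have h1 : ∀ n : ℕ, ∑ j ∈ Finset.range n, (1 / 2 : ℝ) ^ j = 2 - 2 * (1 / 2) ^ n := by
    intro n
    induction n with
    | zero => norm_num
    | succ n ih =>
      rw [Finset.sum_range_succ, ih, pow_succ]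
      ring
  have h2 : ∀ j : ℕ, Real.exp (-(j : ℝ)) ^ 2 ≤ (1 / 2 : ℝ) ^ j := by
    intro j
    have e1 : Real.exp (-(j : ℝ)) ^ 2 = (Real.exp (-1) ^ 2) ^ j := by
      rw [← Real.exp_nat_mul, ← Real.exp_nat_mul, ← Real.exp_nat_mul]
      congr 1
      push_cast
      ring
    rw [e1]
    refine pow_le_pow_left₀ (by positivity) ?_ j
    have e2 : Real.exp (-1) ≤ 1 / 2 := by
      rw [Real.exp_neg, one_div]
      refine inv_anti₀ (by norm_num) ?_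
      have := Real.add_one_le_exp (1 : ℝ)
      linarith
    have e3 := Real.exp_pos (-1)
    nlinarith
  calc ∑ j ∈ Finset.range n, Real.exp (-(j : ℝ)) ^ 2 ≤ ∑ j ∈ Finset.range n, (1 / 2 : ℝ) ^ j :=
        Finset.sum_le_sum fun j _ => h2 j
    _ = 2 - 2 * (1 / 2) ^ n := h1 n
    _ ≤ 2 := by
      have : (0 : ℝ) ≤ (1 / 2) ^ n := by positivity
      linarith

theorem pj_good : ∃ C : ℝ, 0 ≤ C ∧ ∀ L : ℝ, 0 ≤ L → ∃ T₀ : ℝ, 2 ≤ T₀ ∧ ∀ δ : ℝ, 0 < δ → δ ≤ 1 / 4 →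
    ∀ T : ℝ, T₀ ≤ T → ∀ c : ℝ, 0 < c →
    ∃ Bad : Set ℝ, MeasurableSet Bad ∧
      volume Bad ≤ ENNReal.ofReal (C * (L + 1) * (c ^ 4)⁻¹ * δ ^ 2 * T) ∧
      ∀ t ∈ Icc T (3 * T - 1), t ∉ Bad → ∀ j ∈ Finset.range (JJ T), ∀ s : ℂ, 1 / 2 ≤ s.re → s.re ≤ 2 →
        |s.im - t| ≤ L * hT T →
        Real.exp (Real.log T * bet δ (j + 1) * (s.re - 1 / 2) / 2) * ‖Pj δ T j s‖ ≤ c * dd δ j := by
  obtain ⟨C4, hC0, hC⟩ := pj_four
  refine ⟨36 * C4, by positivity, fun L hL => ⟨Real.exp (2 * (2 * Real.pi * L + 1)), ?_, ?_⟩⟩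
  · have h1 := Real.add_one_le_exp (2 * (2 * Real.pi * L + 1))
    have h2 : 0 ≤ Real.pi * L := mul_nonneg Real.pi_pos.le hL
    linarith
  intro δ hδ hδ' T hTT c hc
  have h0 : 2 ≤ Real.exp (2 * (2 * Real.pi * L + 1)) := by
    have h1 := Real.add_one_le_exp (2 * (2 * Real.pi * L + 1))
    have h2 : 0 ≤ Real.pi * L := mul_nonneg Real.pi_pos.le hL
    linarith
  have hT2 : 2 ≤ T := h0.trans hTT
  have hl : 2 * (2 * Real.pi * L + 1) ≤ Real.log T := by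
    rw [Real.le_log_iff_exp_le (by linarith)]
    exact hTT
  choose B hB1 hB2 hB3 using fun j => bpj_one hC0 hC δ T L c hδ hδ' hT2 hL hc hl j
  refine ⟨⋃ j ∈ Finset.range (JJ T), B j, Finset.measurableSet_biUnion _ fun j _ => hB1 j, ?_, ?_⟩
  · refine (measure_biUnion_finset_le _ _).trans ?_
    refine (Finset.sum_le_sum fun j _ => hB2 j).trans ?_
    rw [← ENNReal.ofReal_sum_of_nonneg fun j _ => by positivity]
    refine ENNReal.ofReal_le_ofReal ?_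
    rw [← Finset.mul_sum]
    have h1 : ∑ j ∈ Finset.range (JJ T), bet δ j ^ 2 ≤ δ ^ 2 * 2 := by
      have h2 : ∀ j ∈ Finset.range (JJ T), bet δ j ^ 2 = δ ^ 2 * Real.exp (-(j : ℝ)) ^ 2 := by
        intro j _
        unfold bet
        rw [mul_pow]
      rw [Finset.sum_congr rfl h2, ← Finset.mul_sum]
      exact mul_le_mul_of_nonneg_left (bpj_geom _) (by positivity)
    refine (mul_le_mul_of_nonneg_left h1 (by positivity)).trans (le_of_eq ?_)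
    ring
  · intro t ht htB j hj s hs1 hs2 hs3
    refine hB3 j t ht (fun h => htB ?_) s hs1 hs2 hs3
    rw [Set.mem_iUnion₂]
    exact ⟨j, hj, h⟩

end Pool.Agent.Lib.MP_ec260d_ntB
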