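import Mathlib
import Pool.Agent.Lib.MP_ec260d_ntB.BQQ
import Pool.Agent.Lib.MP_ec260d_ntB.Y.Ms

/-!
# JOB BPPa: mean square of the derivative of `PP`

PROOF (complete). Let `T₀ = 10^16`, `T ≥ T₀`, `l = log T` (`l ≥ 36`: `log 10 ≥ 2.3`), `0 ≤ x ≤ 3/2`, `s = 1/2 + x + it = sW W T t` with `W = x log T ≥ 0`. For `p ∈ QQ δ T`: `log p ≤ max (log 10000) (δ l) ≤ l / 4` (`QQ_mem`, `log 10000 = (1/4) log 10^16`).
`deriv (PP δ T) s = -DP (QQ δ T) (fun p => Real.log p) W T t - R` with `R = ∑_(p ∈ QQ) log p * p^(-2 s) / (1 - p^(-s))` (`PP_der`; `z/(1-z) = z + z^2/(1-z)`).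
`‖p^(-s)‖ ≤ p^(-1/2) ≤ 2^(-1/2) ≤ 3/4`, so `‖R‖ ≤ 4 ∑ log p / p ≤ 4 (l/4 + 8) ≤ 2 l` (`a0_log` with `b = l/4`; `l ≥ 36`).
`∫_(T/2)^(3T) ‖DP‖^2 ≤ ∫_(T/2)^(4T) ‖DP‖^2 ≤ 4 T ∑ (log p)^2/p ≤ 4 T (l/4)(l/4 + 8) ≤ 4 T l^2` (`Y.ms`, `a0_logsq`). `‖a + b‖^2 ≤ 2 ‖a‖^2 + 2 ‖b‖^2`: the integral is at most `8 T l^2 + 2 (5/2) T 4 l^2 = 28 T l^2`; `C = 28`.
(Integrability: everything is continuous in `t`: `Y.DP_cont`, and the derivative equals the continuous function `∑ -(log p p^(-s)/(1 - p^(-s)))`.)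
-/

namespace Pool.Agent.Lib.MP_ec260d_ntB

open Complex Set Filter Topology MeasureTheory

theorem BPPa_slit {p : ℕ} (hp : p.Prime) {s : ℂ} (hs : 0 < s.re) : 1 - (p : ℂ) ^ (-s) ≠ 0 := by
  intro h
  have h1 : ‖(p : ℂ) ^ (-s)‖ < 1 := by
    rw [Complex.norm_natCast_cpow_of_pos hp.pos]
    apply Real.rpow_lt_one_of_one_lt_of_neg
    · exact_mod_cast hp.one_lt
    · simpa using hs
  have h2 : (p : ℂ) ^ (-s) = 1 := (sub_eq_zero.1 h).symm
  rw [h2, norm_one] at h1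
  exact lt_irrefl _ h1

/-- continuity of the derivative on the right half plane -/
theorem pp_d_cont {δ T : ℝ} (hδ : 0 < δ) (hT : 1 ≤ T) :
    ContinuousOn (deriv (PP δ T)) {s : ℂ | 0 < s.re} := by
  have h1 : ContinuousOn (fun s : ℂ => ∑ p ∈ QQ δ T, -((Real.log p : ℂ) * (p : ℂ) ^ (-s) / (1 - (p : ℂ) ^ (-s))))
      {s : ℂ | 0 < s.re} := by
    apply continuousOn_finsetSum
    intro p hp
    have hpp := (QQ_mem hδ hT hp).1
    have hc : Continuous (fun s : ℂ => (p : ℂ) ^ (-s)) :=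
      continuous_iff_continuousAt.2 fun s => ((hasDerivAt_neg s).const_cpow
        (Or.inl (by exact_mod_cast hpp.ne_zero : (p : ℂ) ≠ 0))).continuousAt
    apply ContinuousOn.neg
    apply ContinuousOn.div
    · exact (continuous_const.mul hc).continuousOn
    · exact (continuous_const.sub hc).continuousOn
    · intro s hs
      exact BPPa_slit hpp hs
  refine h1.congr ?_
  intro s hs
  exact (PP_der hδ hT hs).deriv

/-- the estimate at one point -/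
theorem BPPa_pt {δ T x t : ℝ} (hδ : 0 < δ) (hδ4 : δ ≤ 1 / 4) (hT : (10 : ℝ) ^ 16 ≤ T) (hx : 0 ≤ x) :
    ‖deriv (PP δ T) (((1 / 2 + x : ℝ) : ℂ) + t * I)‖ ^ 2 ≤
      2 * ‖Y.DP (QQ δ T) (fun p => (Real.log p : ℂ)) (x * Real.log T) T t‖ ^ 2 + 8 * Real.log T ^ 2 := by
  have hT1 : (1 : ℝ) ≤ T := le_trans (by norm_num) hT
  have hT0 : (0 : ℝ) < T := by linarith
  have e16 : Real.log ((10 : ℝ) ^ 16) = 4 * Real.log 10000 := by
    rw [show ((10 : ℝ) ^ 16) = 10000 ^ 4 from by norm_num, Real.log_pow]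
    norm_num
  have hl16 : 4 * Real.log 10000 ≤ Real.log T := by
    rw [← e16]
    exact Real.log_le_log (by norm_num) hT
  have h9 := log10000
  have hl : 36 ≤ Real.log T := by linarith
  have hl0 : Real.log T ≠ 0 := by linarith
  set s : ℂ := ((1 / 2 + x : ℝ) : ℂ) + t * I with hs
  have hre : s.re = 1 / 2 + x := by simp [hs]
  have hre0 : 0 < s.re := by rw [hre]; linarith
  have hsW : sW (x * Real.log T) T t = s := by
    unfold sW
    rw [mul_div_cancel_right₀ _ hl0]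
  rw [(PP_der hδ hT1 hre0).deriv]
  have hQ : ∀ p ∈ QQ δ T, p.Prime ∧ Real.log p ≤ Real.log T / 4 := by
    intro p hp
    obtain ⟨h1, h2⟩ := QQ_mem hδ hT1 hp
    refine ⟨h1, le_trans h2 (max_le (by linarith) ?_)⟩
    nlinarith
  have hsplit : ∑ p ∈ QQ δ T, -((Real.log p : ℂ) * (p : ℂ) ^ (-s) / (1 - (p : ℂ) ^ (-s))) =
      -Y.DP (QQ δ T) (fun p => (Real.log p : ℂ)) (x * Real.log T) T t -
        ∑ p ∈ QQ δ T, (Real.log p : ℂ) * ((p : ℂ) ^ (-s)) ^ 2 / (1 - (p : ℂ) ^ (-s)) := by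
    unfold Y.DP
    rw [hsW, ← Finset.sum_neg_distrib, ← Finset.sum_sub_distrib]
    refine Finset.sum_congr rfl fun p hp => ?_
    have hne := BPPa_slit (hQ p hp).1 hre0
    field_simp
    ring
  rw [hsplit]
  have hR : ‖∑ p ∈ QQ δ T, (Real.log p : ℂ) * ((p : ℂ) ^ (-s)) ^ 2 / (1 - (p : ℂ) ^ (-s))‖ ≤ 2 * Real.log T := by
    refine le_trans (norm_sum_le _ _) ?_
    have h1 : ∀ p ∈ QQ δ T, ‖(Real.log p : ℂ) * ((p : ℂ) ^ (-s)) ^ 2 / (1 - (p : ℂ) ^ (-s))‖ ≤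
        4 * (Real.log p / p) := by
      intro p hp
      have hpp := (hQ p hp).1
      have hp0 : (0 : ℝ) < p := by exact_mod_cast hpp.pos
      have hp2 : (2 : ℝ) ≤ p := by exact_mod_cast hpp.two_le
      have hlp : 0 ≤ Real.log p := Real.log_natCast_nonneg p
      have hz : ‖(p : ℂ) ^ (-s)‖ ≤ (p : ℝ) ^ (-(1 / 2) : ℝ) := by
        rw [Complex.norm_natCast_cpow_of_pos hpp.pos, Complex.neg_re, hre]
        exact Real.rpow_le_rpow_of_exponent_le (by linarith) (by linarith)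
      have hz2 : ‖(p : ℂ) ^ (-s)‖ ^ 2 ≤ 1 / p := by
        have h3 : ((p : ℝ) ^ (-(1 / 2) : ℝ)) ^ 2 = 1 / p := by
          rw [← Real.rpow_natCast, ← Real.rpow_mul hp0.le]
          norm_num
          rw [Real.rpow_neg_one]
        rw [← h3]
        exact pow_le_pow_left₀ (norm_nonneg _) hz 2
      have hz3 : ‖(p : ℂ) ^ (-s)‖ ≤ 3 / 4 := by
        have h4 : (1 : ℝ) / p ≤ 1 / 2 := one_div_le_one_div_of_le (by norm_num) hp2
        nlinarith [norm_nonneg ((p : ℂ) ^ (-s))]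
      have hd : 1 / 4 ≤ ‖1 - (p : ℂ) ^ (-s)‖ := by
        have h5 := norm_sub_norm_le (1 : ℂ) ((p : ℂ) ^ (-s))
        rw [norm_one] at h5
        linarith
      rw [norm_div, norm_mul, norm_pow, Complex.norm_real, Real.norm_eq_abs, abs_of_nonneg hlp]
      rw [div_le_iff₀ (by linarith)]
      have h6 : Real.log p * ‖(p : ℂ) ^ (-s)‖ ^ 2 ≤ Real.log p * (1 / p) := mul_le_mul_of_nonneg_left hz2 hlp
      have h7 : 0 ≤ Real.log p / p := by positivity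
      have h8 : Real.log p * (1 / p) = Real.log p / p := by ring
      nlinarith
    refine le_trans (Finset.sum_le_sum h1) ?_
    rw [← Finset.mul_sum]
    have h2 := a0_log (QQ δ T) (Real.log T / 4) (by linarith) hQ
    linarith
  set A : ℂ := Y.DP (QQ δ T) (fun p => (Real.log p : ℂ)) (x * Real.log T) T t with hA
  set R : ℂ := ∑ p ∈ QQ δ T, (Real.log p : ℂ) * ((p : ℂ) ^ (-s)) ^ 2 / (1 - (p : ℂ) ^ (-s)) with hRd
  have h3 : ‖-A - R‖ ≤ ‖A‖ + ‖R‖ := by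
    have h4 := norm_sub_le (-A) R
    rwa [norm_neg] at h4
  have h5 : ‖-A - R‖ ^ 2 ≤ (‖A‖ + ‖R‖) ^ 2 := pow_le_pow_left₀ (norm_nonneg _) h3 2
  have h6 : ‖R‖ ^ 2 ≤ (2 * Real.log T) ^ 2 := pow_le_pow_left₀ (norm_nonneg _) hR 2
  nlinarith [sq_nonneg (‖A‖ - ‖R‖)]

theorem pp_d_ms : ∃ C : ℝ, 0 ≤ C ∧ ∀ δ : ℝ, 0 < δ → δ ≤ 1 / 4 → ∃ T₀ : ℝ, 2 ≤ T₀ ∧ ∀ T : ℝ, T₀ ≤ T →
    ∀ x : ℝ, 0 ≤ x → x ≤ 3 / 2 →
      ∫ t in (T / 2)..(3 * T), ‖deriv (PP δ T) (((1 / 2 + x : ℝ) : ℂ) + t * I)‖ ^ 2 ≤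
        C * T * Real.log T ^ 2 := by
  refine ⟨28, by norm_num, ?_⟩
  intro δ hδ hδ4
  refine ⟨(10 : ℝ) ^ 16, by norm_num, ?_⟩
  intro T hT x hx _
  have hT1 : (1 : ℝ) ≤ T := le_trans (by norm_num) hT
  have hT16 : (16 : ℝ) ≤ T := le_trans (by norm_num) hT
  have hT0 : (0 : ℝ) < T := by linarith
  have e16 : Real.log ((10 : ℝ) ^ 16) = 4 * Real.log 10000 := by
    rw [show ((10 : ℝ) ^ 16) = 10000 ^ 4 from by norm_num, Real.log_pow]
    norm_num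
  have hl16 : 4 * Real.log 10000 ≤ Real.log T := by
    rw [← e16]
    exact Real.log_le_log (by norm_num) hT
  have h9 := log10000
  have hl : 36 ≤ Real.log T := by linarith
  have hQ : ∀ p ∈ QQ δ T, p.Prime ∧ Real.log p ≤ Real.log T / 4 := by
    intro p hp
    obtain ⟨h1, h2⟩ := QQ_mem hδ hT1 hp
    refine ⟨h1, le_trans h2 (max_le (by linarith) ?_)⟩
    nlinarith
  have hQ1 : ∀ p ∈ QQ δ T, 1 ≤ p ∧ Real.log p ≤ Real.log T / 4 := fun p hp => ⟨(hQ p hp).1.one_le, (hQ p hp).2⟩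
  have hW : 0 ≤ x * Real.log T := mul_nonneg hx (by linarith)
  have hms := Y.ms hT16 hW hQ1 (fun p => (Real.log p : ℂ))
  have hcont : Continuous (Y.DP (QQ δ T) (fun p => (Real.log p : ℂ)) (x * Real.log T) T) :=
    Y.DP_cont (fun p hp => (hQ1 p hp).1) _
  have hcd : Continuous (fun t : ℝ => deriv (PP δ T) (((1 / 2 + x : ℝ) : ℂ) + t * I)) := by
    apply (pp_d_cont hδ hT1).comp_continuous
    · exact continuous_const.add (Complex.continuous_ofReal.mul continuous_const)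
    · intro t
      change 0 < (((1 / 2 + x : ℝ) : ℂ) + t * I).re
      simp only [Complex.add_re, Complex.ofReal_re, Complex.mul_re, Complex.I_re, Complex.I_im, Complex.ofReal_im]
      nlinarith
  have hI1 : IntervalIntegrable (fun t : ℝ => ‖deriv (PP δ T) (((1 / 2 + x : ℝ) : ℂ) + t * I)‖ ^ 2) volume (T / 2) (3 * T) :=
    (hcd.norm.pow 2).intervalIntegrable _ _
  have hI2 : ∀ a b : ℝ, IntervalIntegrable (fun t : ℝ =>
      ‖Y.DP (QQ δ T) (fun p => (Real.log p : ℂ)) (x * Real.log T) T t‖ ^ 2) volume a b := fun a b =>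
    (hcont.norm.pow 2).intervalIntegrable _ _
  have hI3 : IntervalIntegrable (fun t : ℝ =>
      2 * ‖Y.DP (QQ δ T) (fun p => (Real.log p : ℂ)) (x * Real.log T) T t‖ ^ 2 + 8 * Real.log T ^ 2) volume
        (T / 2) (3 * T) := ((hI2 _ _).const_mul 2).add intervalIntegrable_const
  have s1 : ∫ t in (T / 2)..(3 * T), ‖deriv (PP δ T) (((1 / 2 + x : ℝ) : ℂ) + t * I)‖ ^ 2 ≤
      ∫ t in (T / 2)..(3 * T), (2 * ‖Y.DP (QQ δ T) (fun p => (Real.log p : ℂ)) (x * Real.log T) T t‖ ^ 2 +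
        8 * Real.log T ^ 2) :=
    intervalIntegral.integral_mono_on (by linarith) hI1 hI3 fun t _ => BPPa_pt hδ hδ4 hT hx
  have s2 : ∫ t in (T / 2)..(3 * T), (2 * ‖Y.DP (QQ δ T) (fun p => (Real.log p : ℂ)) (x * Real.log T) T t‖ ^ 2 +
        8 * Real.log T ^ 2) = 2 * (∫ t in (T / 2)..(3 * T),
          ‖Y.DP (QQ δ T) (fun p => (Real.log p : ℂ)) (x * Real.log T) T t‖ ^ 2) +
        (3 * T - T / 2) * (8 * Real.log T ^ 2) := by
    rw [intervalIntegral.integral_add ((hI2 _ _).const_mul 2) intervalIntegrable_const,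
      intervalIntegral.integral_const_mul, intervalIntegral.integral_const, smul_eq_mul]
  have s3 : ∫ t in (T / 2)..(3 * T), ‖Y.DP (QQ δ T) (fun p => (Real.log p : ℂ)) (x * Real.log T) T t‖ ^ 2 ≤
      ∫ t in (T / 2)..(4 * T), ‖Y.DP (QQ δ T) (fun p => (Real.log p : ℂ)) (x * Real.log T) T t‖ ^ 2 := by
    apply intervalIntegral.integral_mono_interval le_rfl (by linarith) (by linarith) _ (hI2 _ _)
    exact Filter.Eventually.of_forall fun t => by positivity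
  have s4 : ∑ p ∈ QQ δ T, ‖((Real.log p : ℝ) : ℂ)‖ ^ 2 / (p : ℝ) ≤ Real.log T / 4 * (Real.log T / 4 + 8) := by
    refine le_trans (le_of_eq ?_) (a0_logsq (QQ δ T) (Real.log T / 4) (by linarith) hQ)
    refine Finset.sum_congr rfl fun p _ => ?_
    rw [Complex.norm_real, Real.norm_eq_abs, sq_abs]
  have s5 : 4 * T * ∑ p ∈ QQ δ T, ‖((Real.log p : ℝ) : ℂ)‖ ^ 2 / (p : ℝ) ≤ T * Real.log T ^ 2 := by
    have h1 : Real.log T / 4 * (Real.log T / 4 + 8) ≤ Real.log T ^ 2 / 4 := by nlinarith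
    have h2 : 0 ≤ 4 * T := by linarith
    nlinarith [mul_le_mul_of_nonneg_left (le_trans s4 h1) h2]
  have h10 : 0 ≤ T * Real.log T ^ 2 := by positivity
  rw [s2] at s1
  nlinarith

end Pool.Agent.Lib.MP_ec260d_ntB
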