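import Mathlib
import Pool.Agent.Lib.MP_ec260d_ntB.BPPa
import Pool.Agent.Lib.MP_ec260d_ntB.BWin

/-!
# JOB BPPms: windows for the derivative of `PP`

PROOF (complete). `C`, `T₀'` from `pp_d_ms` (for this `δ`); `C₁ = C + 3`. For `T` large and `0 ≤ x ≤ 3/2`: `∫_(T/2)^(3T) ‖PP' (1/2 + x + it)‖ dt ≤ C₁ T log T` (`y ≤ (1/2)(log T + y^2 / log T)`: `∫ ≤ (1/2)((5/2) T log T + C T log T) ≤ C₁ T log T`).
Let `h = hT T = 2 π / log T`, `K = 1 + 8 π C₁ (W + L) / ε`... (any `K ≥ 1` with the two inequalities below). `T₀` such that `W / log T ≤ 1`, `L h ≤ 1/2`, `T ≥ T₀'`, `T ≥ 2`.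
(i) `win_meas` with `a = 1/2`, `b = 1/2 + W/log T`, `f = ‖deriv (PP δ T) s‖` (continuous: `pp_d_cont`), window `h`, `lam = K / log T`: `volume Bad₁ ≤ 2 h (log T / K) BI a b (T/2) (3T) f`, and `BI ≤ (W / log T) sup_x ∫_t ≤ (W / log T) C₁ T log T = C₁ W T`
(`bi_iter` : the box integral is the iterated integral `∫ x in a..b, ∫ t in (T/2)..(3T)`, write `x = 1/2 + x'`, `0 ≤ x' ≤ 1`): `volume Bad₁ ≤ 4 π C₁ W T / K ≤ (ε/2) T`.
(ii) `win_meas1` with `F u = ‖deriv (PP δ T) (sW W T u)‖` (`sW W T u = 1/2 + W/log T + u I`), window `L h ≤ 1/2`, `lam = K`: `volume Bad₂ ≤ (2 L h / K) C₁ T log T = 4 π L C₁ T / K ≤ (ε/2) T`.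
`Bad = Bad₁ ∪ Bad₂`.
-/

namespace Pool.Agent.Lib.MP_ec260d_ntB

open Complex Set Filter Topology MeasureTheory

private theorem BPPms_line {δ T : ℝ} (hδ : 0 < δ) (h1T : 1 ≤ T) (x : ℝ) (hx : 0 ≤ x) :
    Continuous fun t : ℝ => ‖deriv (PP δ T) (((1 / 2 + x : ℝ) : ℂ) + t * I)‖ := by
  refine Continuous.norm ?_
  refine (pp_d_cont hδ h1T).comp_continuous (by fun_prop) fun t => ?_
  show 0 < (((1 / 2 + x : ℝ) : ℂ) + t * I).re
  rw [Complex.add_re, Complex.ofReal_re, Complex.mul_re, Complex.ofReal_re, Complex.ofReal_im,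
    Complex.I_re, Complex.I_im]
  linarith

private theorem BPPms_one {δ T C : ℝ} (hδ : 0 < δ) (h2T : 2 ≤ T) (x : ℝ) (hx : 0 ≤ x)
    (h : ∫ t in (T / 2)..(3 * T), ‖deriv (PP δ T) (((1 / 2 + x : ℝ) : ℂ) + t * I)‖ ^ 2 ≤
      C * T * Real.log T ^ 2) :
    ∫ t in (T / 2)..(3 * T), ‖deriv (PP δ T) (((1 / 2 + x : ℝ) : ℂ) + t * I)‖ ≤
      ((C + 5 / 2) / 2) * T * Real.log T := by
  have hl : 0 < Real.log T := Real.log_pos (by linarith)
  set l : ℝ := Real.log T with hldef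
  set F : ℝ → ℝ := fun t => ‖deriv (PP δ T) (((1 / 2 + x : ℝ) : ℂ) + t * I)‖ with hF
  have hFc : Continuous F := BPPms_line hδ (by linarith) x hx
  have hTT : T / 2 ≤ 3 * T := by linarith
  have h1 : ∫ t in (T / 2)..(3 * T), F t ≤
      ∫ t in (T / 2)..(3 * T), (l / 2 + 1 / (2 * l) * F t ^ 2) := by
    refine intervalIntegral.integral_mono_on hTT (hFc.intervalIntegrable _ _) ?_ ?_
    · exact Continuous.intervalIntegrable (by fun_prop) _ _
    · intro t _
      have h2 : 0 ≤ (l - F t) ^ 2 / (2 * l) := by positivity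
      have h3 : (l - F t) ^ 2 / (2 * l) = l / 2 + 1 / (2 * l) * F t ^ 2 - F t := by
        field_simp
        ring
      linarith
  have h4 : ∫ t in (T / 2)..(3 * T), (l / 2 + 1 / (2 * l) * F t ^ 2) =
      (3 * T - T / 2) * (l / 2) + 1 / (2 * l) * ∫ t in (T / 2)..(3 * T), F t ^ 2 := by
    rw [intervalIntegral.integral_add (continuous_const.intervalIntegrable _ _)
      (Continuous.intervalIntegrable (by fun_prop) _ _), intervalIntegral.integral_const,
      smul_eq_mul, intervalIntegral.integral_const_mul]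
  have h5 : 1 / (2 * l) * ∫ t in (T / 2)..(3 * T), F t ^ 2 ≤ 1 / (2 * l) * (C * T * l ^ 2) :=
    mul_le_mul_of_nonneg_left h (by positivity)
  have h6 : 1 / (2 * l) * (C * T * l ^ 2) = C / 2 * T * l := by
    field_simp
  have h7 : (3 * T - T / 2) * (l / 2) = 5 / 4 * T * l := by ring
  have h8 : ((C + 5 / 2) / 2) * T * l = 5 / 4 * T * l + C / 2 * T * l := by ring
  rw [h8]
  linarith

theorem pp_win (δ : ℝ) (hδ : 0 < δ) (hδ' : δ ≤ 1 / 4) (W : ℝ) (hW : 1 ≤ W) (L : ℝ) (hL : 1 ≤ L)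
    (ε : ℝ) (hε : 0 < ε) : ∃ K T₀ : ℝ, 0 < K ∧ 2 ≤ T₀ ∧ ∀ T : ℝ, T₀ ≤ T →
      ∃ Bad : Set ℝ, MeasurableSet Bad ∧ volume Bad ≤ ENNReal.ofReal (ε * T) ∧
        ∀ t ∈ Icc T (3 * T - 1), t ∉ Bad →
          BI (1 / 2) (1 / 2 + W / Real.log T) (t - hT T) (t + hT T)
            (fun s => ‖deriv (PP δ T) s‖) ≤ K / Real.log T ∧
          ∫ v in (t - L * hT T)..(t + L * hT T), ‖deriv (PP δ T) (sW W T v)‖ ≤ K := by
  obtain ⟨C, hC, hms⟩ := pp_d_ms
  obtain ⟨T₁, hT₁, hms1⟩ := hms δ hδ hδ'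
  have hπ := Real.pi_pos
  have hπ3 := Real.pi_gt_three
  set C₁ : ℝ := (C + 5 / 2) / 2 with hC₁
  have hC₁0 : 0 < C₁ := by
    rw [hC₁]
    linarith
  set K : ℝ := 1 + 8 * Real.pi * C₁ * (W + L) / ε with hK
  have hWL : 0 < W + L := by linarith
  have hK0 : 0 < K := by
    have : 0 ≤ 8 * Real.pi * C₁ * (W + L) / ε := by positivity
    rw [hK]
    linarith
  have hKε : 8 * Real.pi * C₁ * (W + L) ≤ K * ε := by
    rw [hK, add_mul, div_mul_cancel₀ _ hε.ne']
    linarith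
  refine ⟨K, max T₁ (Real.exp (W + 4 * Real.pi * L)), hK0, hT₁.trans (le_max_left _ _),
    fun T hTT => ?_⟩
  have hTT1 : T₁ ≤ T := (le_max_left _ _).trans hTT
  have h2T : 2 ≤ T := hT₁.trans hTT1
  have h0T : 0 < T := by linarith
  have hl1 : W + 4 * Real.pi * L ≤ Real.log T :=
    (Real.le_log_iff_exp_le h0T).2 ((le_max_right _ _).trans hTT)
  have hl0 : 0 < Real.log T := Real.log_pos (by linarith)
  set l : ℝ := Real.log T with hldef
  have hπL : 0 < Real.pi * L := by positivity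
  have hlW : W ≤ l := by linarith
  have hlL : 4 * Real.pi * L ≤ l := by linarith
  have hh : hT T = 2 * Real.pi / l := rfl
  have hh0 : 0 < hT T := by
    rw [hh]
    positivity
  have hWl : 0 ≤ W / l := by positivity
  have hWl1 : W / l ≤ 1 := by
    rw [div_le_iff₀ hl0]
    linarith
  have hLh : L * hT T ≤ 1 / 2 := by
    rw [hh, mul_div_assoc', div_le_iff₀ hl0]
    linarith
  have hh12 : hT T ≤ 1 / 2 := by nlinarith
  -- first moments
  have hone : ∀ x : ℝ, 0 ≤ x → x ≤ 3 / 2 →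
      ∫ t in (T / 2)..(3 * T), ‖deriv (PP δ T) (((1 / 2 + x : ℝ) : ℂ) + t * I)‖ ≤ C₁ * T * l :=
    fun x hx hx' => BPPms_one hδ h2T x hx (hms1 T hTT1 x hx hx')
  have hTT2 : T / 2 ≤ 3 * T := by linarith
  -- first exceptional set
  have hab : (1 : ℝ) / 2 ≤ 1 / 2 + W / l := by linarith
  have hfc : ContinuousOn (fun s => ‖deriv (PP δ T) s‖) (CB (1 / 2) (1 / 2 + W / l) (T / 2) (3 * T)) := by
    refine ContinuousOn.norm ((pp_d_cont hδ (by linarith)).mono fun s hs => ?_)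
    have h1 : (1 : ℝ) / 2 ≤ s.re := hs.1
    show 0 < s.re
    linarith
  obtain ⟨Bad₁, hB1, hB2, hB3⟩ := win_meas T h2T (1 / 2) (1 / 2 + W / l) hab
    (fun s => ‖deriv (PP δ T) s‖) hfc (fun s _ => norm_nonneg _) (hT T) (K / l) hh0 hh12
    (div_pos hK0 hl0)
  have hBI : BI (1 / 2) (1 / 2 + W / l) (T / 2) (3 * T) (fun s => ‖deriv (PP δ T) s‖) ≤
      W * C₁ * T := by
    rw [bi_iter hab hTT2 (bint_cont hfc)]
    have h1 : ‖∫ x in (1 / 2 : ℝ)..(1 / 2 + W / l), ∫ t in (T / 2)..(3 * T),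
        ‖deriv (PP δ T) ((x : ℂ) + t * I)‖‖ ≤ C₁ * T * l * |1 / 2 + W / l - 1 / 2| := by
      refine intervalIntegral.norm_integral_le_of_norm_le_const fun x hx => ?_
      rw [uIoc_of_le hab] at hx
      rw [Real.norm_of_nonneg (intervalIntegral.integral_nonneg hTT2 fun t _ => norm_nonneg _)]
      have h2 := hone (x - 1 / 2) (by linarith [hx.1]) (by linarith [hx.2])
      have h3 : (1 / 2 + (x - 1 / 2) : ℝ) = x := by ring
      rw [h3] at h2
      exact h2
    have h4 : |1 / 2 + W / l - 1 / 2| = W / l := by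
      rw [add_sub_cancel_left, abs_of_nonneg hWl]
    rw [h4] at h1
    have h5 : C₁ * T * l * (W / l) = W * C₁ * T := by
      field_simp
    rw [h5] at h1
    exact (le_abs_self _).trans h1
  have hv1 : volume Bad₁ ≤ ENNReal.ofReal (ε * T / 2) := by
    refine hB2.trans (ENNReal.ofReal_le_ofReal ?_)
    have h1 : 2 * hT T / (K / l) = 4 * Real.pi / K := by
      rw [hh]
      field_simp
      ring
    rw [h1]
    calc 4 * Real.pi / K * BI (1 / 2) (1 / 2 + W / l) (T / 2) (3 * T) (fun s => ‖deriv (PP δ T) s‖)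
        ≤ 4 * Real.pi / K * (W * C₁ * T) := mul_le_mul_of_nonneg_left hBI (by positivity)
      _ = 4 * Real.pi * C₁ * W * T / K := by ring
      _ ≤ ε * T / 2 := by
          rw [div_le_iff₀ hK0]
          have h2 : 8 * Real.pi * C₁ * W ≤ K * ε := by
            have h3 : 0 ≤ 8 * Real.pi * C₁ * L := by positivity
            linarith
          have h4 := mul_le_mul_of_nonneg_right h2 h0T.le
          linarith
  -- second exceptional set
  have hFc : Continuous fun v : ℝ => ‖deriv (PP δ T) (sW W T v)‖ :=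
    BPPms_line hδ (by linarith) (W / l) hWl
  obtain ⟨Bad₂, hD1, hD2, hD3⟩ := win_meas1 T h2T (fun v => ‖deriv (PP δ T) (sW W T v)‖)
    hFc.continuousOn (fun v _ => norm_nonneg _) (L * hT T) K (by positivity) hLh hK0
  have hv2 : volume Bad₂ ≤ ENNReal.ofReal (ε * T / 2) := by
    refine hD2.trans (ENNReal.ofReal_le_ofReal ?_)
    have h1 : 2 * (L * hT T) / K = 4 * Real.pi * L / (K * l) := by
      rw [hh]
      field_simp
      ring
    rw [h1]
    have h2 : ∫ u in (T / 2)..(3 * T), ‖deriv (PP δ T) (sW W T u)‖ ≤ C₁ * T * l :=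
      hone (W / l) hWl (by linarith)
    calc 4 * Real.pi * L / (K * l) * ∫ u in (T / 2)..(3 * T), ‖deriv (PP δ T) (sW W T u)‖
        ≤ 4 * Real.pi * L / (K * l) * (C₁ * T * l) := mul_le_mul_of_nonneg_left h2 (by positivity)
      _ = 4 * Real.pi * C₁ * L * T / K := by
          field_simp
      _ ≤ ε * T / 2 := by
          rw [div_le_iff₀ hK0]
          have h2 : 8 * Real.pi * C₁ * L ≤ K * ε := by
            have h3 : 0 ≤ 8 * Real.pi * C₁ * W := by positivity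
            linarith
          have h4 := mul_le_mul_of_nonneg_right h2 h0T.le
          linarith
  refine ⟨Bad₁ ∪ Bad₂, hB1.union hD1, ?_, ?_⟩
  · calc volume (Bad₁ ∪ Bad₂) ≤ volume Bad₁ + volume Bad₂ := measure_union_le _ _
      _ ≤ ENNReal.ofReal (ε * T / 2) + ENNReal.ofReal (ε * T / 2) := add_le_add hv1 hv2
      _ = ENNReal.ofReal (ε * T) := by
          rw [← ENNReal.ofReal_add (by positivity) (by positivity), add_halves]
  · intro t ht hb
    exact ⟨hB3 t ht fun h => hb (Or.inl h), hD3 t ht fun h => hb (Or.inr h)⟩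

end Pool.Agent.Lib.MP_ec260d_ntB
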