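import Mathlib
import Pool.Agent.Lib.MP_ec260d_ntB.BDR
import Pool.Agent.Lib.MP_ec260d_ntB.BDL
import Pool.Agent.Lib.MP_ec260d_ntB.BSup
import Pool.Agent.Lib.MP_ec260d_ntB.BBdd
import Pool.Agent.Lib.MP_ec260d_ntB.BPJ
import Pool.Agent.Lib.MP_ec260d_ntB.BPPms

/-!
# JOB BLam: `Lam + YY` is bounded for most heights

* `lam_good`: for a good height: `π Lam T t = BI (1/2) 2 (t - h) t (stp2 log ‖ζ‖) = BI (1/2) σ₀ .. + BI σ₀ 2 ..` (`bi_split` with `m = σ₀ = 1/2 + W / l`; integrability: `bint_mul`, `log_int_zeta`, `stp2_cont`), so `|Lam + YY| ≤ (1/π) (C₁ (W + 1) ^ 2 (K + 1) + C₂ + K)` by `det_left`, `det_right` (with the smaller of the two `δ₁`).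
* `good_most`: given `ε`: `δ₁` = the minimum of `1/4`, the `δ₁` of `zm_good (ε/8)`, of `zm_bdd`, and `δ` so small that `C (1 + 1) ((1/100) ^ 4)⁻¹ δ ^ 2 ≤ ε / 8` with the constant `C` of `pj_good` (used with `L = 1`, `c = 1/100`). Then `W₀` from `zm_good`; `K` = the maximum of the constants of `zm_bdd (ε/8)` and `pp_win (L = 1) (ε/8)`; `T₀` = the maximum.
  `Bad` = the union of the four exceptional sets, total measure `≤ ε T / 2 ≤ ε T`. (Monotonicity in `K` of `g4`, `g5`, `g6`: `K / l ^ 2`, `K / l` with `l > 0`.)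
* `lam_y`: `good_most`, `lam_good`, and `yy_osc` with `r = hT T` and `g6`. (`T₀ ≥ 100`, `W / l ≤ 1`, `(2 W + 7) / l ≤ 1` for large `T`.)
-/

namespace Pool.Agent.Lib.MP_ec260d_ntB

open Complex Set Filter Topology MeasureTheory

theorem lam_good : ∃ δ₁ C : ℝ, 0 < δ₁ ∧ δ₁ ≤ 1 / 4 ∧ 0 ≤ C ∧ ∀ δ : ℝ, 0 < δ → δ ≤ δ₁ →
    ∀ T W K t : ℝ, 100 ≤ T → 1 ≤ W → (2 * W + 7) / Real.log T ≤ 1 → 0 ≤ K → T ≤ t →
    Good δ W T K t → |Lam T t + YY δ W T t| ≤ C * (W + 1) ^ 2 * (K + 1) := by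
  obtain ⟨δL, CL, hδL, hδL4, hCL, hL⟩ := det_left
  obtain ⟨δR, CR, hδR, hδR4, hCR, hR⟩ := det_right
  refine ⟨min δL δR, CL + CR + 1, lt_min hδL hδR, (min_le_left _ _).trans hδL4, by linarith, ?_⟩
  intro δ hδ hδ1 T W K t hTT hW hWl hK hTt hG
  have hT2 : 2 ≤ T := by linarith
  have hl : 0 < Real.log T := Real.log_pos (by linarith)
  have hWl' : W / Real.log T ≤ 1 := by
    rw [div_le_one hl] at hWl ⊢
    linarith
  have hl9 : 9 ≤ Real.log T := by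
    rw [div_le_one hl] at hWl
    linarith
  have hh := hT_pos hT2
  have hh1 : hT T < 1 := by
    have h1 := hT_mul hT2
    have h2 := Real.pi_lt_four
    nlinarith
  have h1 := hL δ hδ (hδ1.trans (min_le_left _ _)) T W K t hTT hW hWl hK hTt hG
  have h2 := hR δ hδ (hδ1.trans (min_le_right _ _)) T W K t hTT hW hWl' hTt hG
  have hWl0 : 0 ≤ W / Real.log T := div_nonneg (by linarith) hl.le
  have hint : BInt (1 / 2) 2 (t - hT T) t
      (fun s => stp2 T t s.im * Real.log ‖riemannZeta s‖) :=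
    bint_mul (stp2 T t) (stp2_cont T t) (log_int_zeta (t - hT T) t (by linarith))
  have hsplit := bi_split (m := 1 / 2 + W / Real.log T) (by linarith) (by linarith) hint
  unfold Lam
  rw [hsplit]
  obtain ⟨x, hx⟩ : ∃ x : ℝ, x = BI (1 / 2) (1 / 2 + W / Real.log T) (t - hT T) t
      (fun s => stp2 T t s.im * Real.log ‖riemannZeta s‖) := ⟨_, rfl⟩
  obtain ⟨y, hy⟩ : ∃ y : ℝ, y = BI (1 / 2 + W / Real.log T) 2 (t - hT T) t
      (fun s => stp2 T t s.im * Real.log ‖riemannZeta s‖) := ⟨_, rfl⟩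
  rw [← hx, ← hy]
  rw [← hx] at h1
  rw [← hy] at h2
  have hpi := Real.pi_pos
  have e1 : 1 / Real.pi * (x + y) + YY δ W T t =
      1 / Real.pi * (x + (y + Real.pi * YY δ W T t)) := by
    field_simp
    ring
  rw [e1, abs_mul, abs_of_pos (one_div_pos.2 hpi)]
  have h3 : |x + (y + Real.pi * YY δ W T t)| ≤ CL * (W + 1) ^ 2 * (K + 1) + (CR + K) :=
    (abs_add_le _ _).trans (add_le_add h1 h2)
  have h4 : 1 / Real.pi ≤ 1 := by
    rw [div_le_one hpi]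
    linarith [Real.pi_gt_three]
  have h5 : 1 / Real.pi * |x + (y + Real.pi * YY δ W T t)| ≤
      |x + (y + Real.pi * YY δ W T t)| := mul_le_of_le_one_left (abs_nonneg _) h4
  have h6 : 1 ≤ (W + 1) ^ 2 * (K + 1) := by
    have h7 : 1 ≤ (W + 1) ^ 2 := by nlinarith
    nlinarith
  have h7 : K + 1 ≤ (W + 1) ^ 2 * (K + 1) := by
    have h8 : 1 ≤ (W + 1) ^ 2 := by nlinarith
    nlinarith
  have h8 : CR ≤ CR * ((W + 1) ^ 2 * (K + 1)) := le_mul_of_one_le_right hCR h6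
  have h9 : (CL + CR + 1) * (W + 1) ^ 2 * (K + 1) = CL * (W + 1) ^ 2 * (K + 1) +
      CR * ((W + 1) ^ 2 * (K + 1)) + (W + 1) ^ 2 * (K + 1) := by ring
  rw [h9]
  linarith

theorem good_most (ε : ℝ) (hε : 0 < ε) : ∃ δ₁ : ℝ, 0 < δ₁ ∧ ∀ δ : ℝ, 0 < δ → δ ≤ δ₁ →
    ∃ W₀ : ℝ, 1 ≤ W₀ ∧ ∀ W : ℝ, W₀ ≤ W → ∃ K T₀ : ℝ, 0 < K ∧ 2 ≤ T₀ ∧ ∀ T : ℝ, T₀ ≤ T →
      ∃ Bad : Set ℝ, MeasurableSet Bad ∧ volume Bad ≤ ENNReal.ofReal (ε * T) ∧
        ∀ t ∈ Icc T (3 * T - 1), t ∉ Bad → Good δ W T K t := by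
  obtain ⟨δz, hδz, hz⟩ := zm_good (ε / 8) (by linarith)
  obtain ⟨δb, hδb, hb⟩ := zm_bdd
  obtain ⟨C, hC, hp⟩ := pj_good
  obtain ⟨δc, hδc⟩ : ∃ δc : ℝ, δc = ε / (8 * (2 * 10 ^ 8 * C + 1)) := ⟨_, rfl⟩
  have hC1 : 0 < 2 * 10 ^ 8 * C + 1 := by positivity
  have hδc0 : 0 < δc := by
    rw [hδc]
    positivity
  refine ⟨min (min δz δb) (min (1 / 4) δc), lt_min (lt_min hδz hδb) (lt_min (by norm_num) hδc0), ?_⟩
  intro δ hδ hδ1
  have hδ_z : δ ≤ δz := hδ1.trans ((min_le_left _ _).trans (min_le_left _ _))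
  have hδ_b : δ ≤ δb := hδ1.trans ((min_le_left _ _).trans (min_le_right _ _))
  have hδ_4 : δ ≤ 1 / 4 := hδ1.trans ((min_le_right _ _).trans (min_le_left _ _))
  have hδ_c : δ ≤ δc := hδ1.trans ((min_le_right _ _).trans (min_le_right _ _))
  have hCδ : C * (1 + 1) * (((1 : ℝ) / 100) ^ 4)⁻¹ * δ ^ 2 ≤ ε / 8 := by
    have h1 : C * (1 + 1) * (((1 : ℝ) / 100) ^ 4)⁻¹ * δ ^ 2 = 2 * 10 ^ 8 * C * δ ^ 2 := by
      have e : (((1 : ℝ) / 100) ^ 4)⁻¹ = 10 ^ 8 := by norm_num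
      rw [e]
      ring
    have h2 : δ ^ 2 ≤ δ := by nlinarith
    have h3 : 2 * 10 ^ 8 * C * δ ^ 2 ≤ (2 * 10 ^ 8 * C + 1) * δ := by
      have h4 : 2 * 10 ^ 8 * C * δ ^ 2 ≤ 2 * 10 ^ 8 * C * δ :=
        mul_le_mul_of_nonneg_left h2 (by positivity)
      linarith
    have h4 : (2 * 10 ^ 8 * C + 1) * δ ≤ (2 * 10 ^ 8 * C + 1) * δc :=
      mul_le_mul_of_nonneg_left hδ_c hC1.le
    have h5 : (2 * 10 ^ 8 * C + 1) * δc = ε / 8 := by
      rw [hδc]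
      field_simp
    rw [h1]
    linarith
  obtain ⟨W₀, hW₀, hz'⟩ := hz δ hδ hδ_z
  refine ⟨W₀, hW₀, fun W hW => ?_⟩
  have hW1 : 1 ≤ W := hW₀.trans hW
  obtain ⟨T1, hT1, hz2⟩ := hz' W hW
  obtain ⟨K2, T2, hK2, hT2, hb2⟩ := hb δ hδ hδ_b W hW1 (ε / 8) (by linarith)
  obtain ⟨T3, hT3, hp3⟩ := hp 1 zero_le_one
  obtain ⟨K4, T4, hK4, hT4, hw4⟩ := pp_win δ hδ hδ_4 W hW1 1 le_rfl (ε / 8) (by linarith)
  refine ⟨max K2 K4, max (max T1 T2) (max T3 T4), lt_max_of_lt_left hK2,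
    hT1.trans ((le_max_left _ _).trans (le_max_left _ _)), fun T hT => ?_⟩
  have hTT1 : T1 ≤ T := ((le_max_left _ _).trans (le_max_left _ _)).trans hT
  have hTT2 : T2 ≤ T := ((le_max_right _ _).trans (le_max_left _ _)).trans hT
  have hTT3 : T3 ≤ T := ((le_max_left _ _).trans (le_max_right _ _)).trans hT
  have hTT4 : T4 ≤ T := ((le_max_right _ _).trans (le_max_right _ _)).trans hT
  have hT0 : 2 ≤ T := hT1.trans hTT1
  have hl : 0 < Real.log T := Real.log_pos (by linarith)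
  obtain ⟨B1, hB1m, hB1v, hB1⟩ := hz2 T hTT1
  obtain ⟨B2, hB2m, hB2v, hB2⟩ := hb2 T hTT2
  obtain ⟨B3, hB3m, hB3v, hB3⟩ := hp3 δ hδ hδ_4 T hTT3 (1 / 100) (by norm_num)
  obtain ⟨B4, hB4m, hB4v, hB4⟩ := hw4 T hTT4
  refine ⟨(B1 ∪ B2) ∪ (B3 ∪ B4), (hB1m.union hB2m).union (hB3m.union hB4m), ?_, ?_⟩
  · have hB3v' : volume B3 ≤ ENNReal.ofReal (ε / 8 * T) :=
      hB3v.trans (ENNReal.ofReal_le_ofReal (mul_le_mul_of_nonneg_right hCδ (by linarith)))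
    have h0 : 0 ≤ ε / 8 * T := by positivity
    calc volume ((B1 ∪ B2) ∪ (B3 ∪ B4)) ≤ (volume B1 + volume B2) + (volume B3 + volume B4) :=
          (measure_union_le _ _).trans (add_le_add (measure_union_le _ _) (measure_union_le _ _))
      _ ≤ (ENNReal.ofReal (ε / 8 * T) + ENNReal.ofReal (ε / 8 * T)) +
          (ENNReal.ofReal (ε / 8 * T) + ENNReal.ofReal (ε / 8 * T)) :=
          add_le_add (add_le_add hB1v hB2v) (add_le_add hB3v' hB4v)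
      _ = ENNReal.ofReal ((ε / 8 * T + ε / 8 * T) + (ε / 8 * T + ε / 8 * T)) := by
          rw [← ENNReal.ofReal_add h0 h0, ← ENNReal.ofReal_add (add_nonneg h0 h0) (add_nonneg h0 h0)]
      _ ≤ ENNReal.ofReal (ε * T) := ENNReal.ofReal_le_ofReal (by linarith)
  · intro t ht htB
    have h1 : t ∉ B1 := fun h => htB (Or.inl (Or.inl h))
    have h2 : t ∉ B2 := fun h => htB (Or.inl (Or.inr h))
    have h3 : t ∉ B3 := fun h => htB (Or.inr (Or.inl h))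
    have h4 : t ∉ B4 := fun h => htB (Or.inr (Or.inr h))
    obtain ⟨h5, h6⟩ := hB1 t ht h1
    have h7 := hB2 t ht h2
    have h8 := hB3 t ht h3
    obtain ⟨h9, h10⟩ := hB4 t ht h4
    rw [one_mul] at h10
    refine ⟨?_, h5, h6, h7.trans ?_, h9.trans ?_, h10.trans (le_max_right _ _)⟩
    · intro j hj s hs1 hs2 hs3
      refine h8 j hj s hs1 hs2 ?_
      rw [one_mul]
      exact hs3
    · exact div_le_div_of_nonneg_right (le_max_left _ _) (by positivity)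
    · exact div_le_div_of_nonneg_right (le_max_right _ _) hl.le

theorem lam_y (ε : ℝ) (hε : 0 < ε) : ∃ δ₁ : ℝ, 0 < δ₁ ∧ ∀ δ : ℝ, 0 < δ → δ ≤ δ₁ →
    ∃ W₀ : ℝ, 1 ≤ W₀ ∧ ∀ W : ℝ, W₀ ≤ W → ∃ K T₀ : ℝ, 0 < K ∧ 2 ≤ T₀ ∧ ∀ T : ℝ, T₀ ≤ T →
      ∃ Bad : Set ℝ, MeasurableSet Bad ∧ volume Bad ≤ ENNReal.ofReal (ε * T) ∧
        ∀ t ∈ Icc T (3 * T - 1), t ∉ Bad → |Lam T t + YY δ W T t| ≤ K ∧
          ∀ u : ℝ, |u - t| ≤ hT T → |YY δ W T u - YY δ W T t| ≤ K := by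
  obtain ⟨δa, C, hδa, -, hC, hlam⟩ := lam_good
  obtain ⟨δb, hδb, hgm⟩ := good_most ε hε
  refine ⟨min δa δb, lt_min hδa hδb, fun δ hδ hδ1 => ?_⟩
  obtain ⟨W₀, hW₀, h1⟩ := hgm δ hδ (hδ1.trans (min_le_right _ _))
  refine ⟨W₀, hW₀, fun W hW => ?_⟩
  have hW1 : 1 ≤ W := hW₀.trans hW
  obtain ⟨K, T₀, hK, hT₀, h2⟩ := h1 W hW
  have hCK : 0 ≤ C * (W + 1) ^ 2 * (K + 1) := by positivity
  refine ⟨C * (W + 1) ^ 2 * (K + 1) + K, max T₀ (max 100 (Real.exp (2 * W + 7))), by linarith,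
    hT₀.trans (le_max_left _ _), fun T hTT => ?_⟩
  have hTT₀ : T₀ ≤ T := (le_max_left _ _).trans hTT
  have hT100 : 100 ≤ T := ((le_max_left _ _).trans (le_max_right _ _)).trans hTT
  have hTe : Real.exp (2 * W + 7) ≤ T := ((le_max_right _ _).trans (le_max_right _ _)).trans hTT
  have hl : 0 < Real.log T := Real.log_pos (by linarith)
  have hWl : (2 * W + 7) / Real.log T ≤ 1 := by
    rw [div_le_one hl]
    exact (Real.le_log_iff_exp_le (by linarith)).2 hTe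
  obtain ⟨Bad, hBm, hBv, hB⟩ := h2 T hTT₀
  refine ⟨Bad, hBm, hBv, fun t ht htB => ?_⟩
  have hG := hB t ht htB
  have h3 := hlam δ hδ (hδ1.trans (min_le_left _ _)) T W K t hT100 hW1 hWl hK.le ht.1 hG
  refine ⟨by linarith, fun u hu => ?_⟩
  have h4 := yy_osc hδ (by linarith : (2 : ℝ) ≤ T) hW1 t u (hT T) hu
  have h5 := hG.g6
  linarith

end Pool.Agent.Lib.MP_ec260d_ntB
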