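import Mathlib
import Pool.Agent.Lib.MP_ec260d_ntB.Defs
import Pool.Agent.Lib.MP_ec260d_nt.OrdIdx

/-!
# JOB BOrd: ordinates and the counting function

* `ord_le_iff`: for `1 ≤ n`: `ordinate n = sInf {T | n ≤ zeroCount T} ≤ t ↔ n ≤ zeroCount t`. The set `S = {T | n ≤ zeroCount T}` is bounded below by `0` (`zeroCount_nonpos`, `n ≥ 1`), upwards closed (`zeroCount_mono`), nonempty (`zeroCount T → ∞`: `zeroCount_eq`, `rvm` in MP_ec260d_nt/RvM.lean, `NZ T ≥ T/(2π) (log T - c) - C sqrt T`), and contains its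
  infimum `g`: `zeroCount` is right continuous: the zeros with `0 < Im ≤ g + 1` are finite (`ZCount_finite` is private in MP_ec260d_nt/ZCount.lean: the set `{ρ | ζ ρ = 0, 0 < Im ρ ≤ T}` is finite; copy its proof), so there is `η > 0` such that none has `g < Im ≤ g + η`, so `zeroCount (g + η) = zeroCount g`, and `g + η ∈ S`.
* `ord_count`: a finite set `F` of natural numbers with `zeroCount a < n ≤ zeroCount b` for all `n ∈ F` has at most `zeroCount b - zeroCount a` elements (`F ⊆ Finset.Ioc`).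
* `nn_asym`: for `1 ≤ κ`: `|NN (κ' T) - NN T|`.. in the form: exists `C`, for all `T ≥ 2`, `T ≤ b ≤ 4 T`: `NN b - NN T ≤ (b - T) / (2 π) * log T + C T` (`rvm` at `b` and `T`: `b (log b - c) - T (log T - c) = (b - T) log T + b log (b / T) - c (b - T)`, `log (b/T) ≤ log 4`).
-/

namespace Pool.Agent.Lib.MP_ec260d_ntB

open Complex Set Filter Topology MeasureTheory
open Pool.Agent.Lib.MP_ec260d_nt (ordinate zeroCount)

open Pool.Agent.Lib.MP_00e05b_nt in
private lemma BOrd_finite (T : ℝ) :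
    {ρ : ℂ | riemannZeta ρ = 0 ∧ 0 < ρ.im ∧ ρ.im ≤ T}.Finite := by
  obtain ⟨C, hC⟩ := xi_growth
  refine (finite_zeros hC (1 + T)).subset ?_
  rintro ρ ⟨h1, h2, h3⟩
  have h4 : xi ρ = 0 := (Pool.Agent.Lib.MP_ec260d_nt.xi_zero_iff h2).2 h1
  refine ⟨h4, ?_⟩
  obtain ⟨h5, h6⟩ := xi_zero_re h4
  refine (Complex.norm_le_abs_re_add_abs_im ρ).trans ?_
  rw [abs_of_pos h5, abs_of_pos h2]
  linarith

open Pool.Agent.Lib.MP_ec260d_nt in
private lemma BOrd_lower : ∃ X : ℝ, 1 ≤ X ∧ ∀ T : ℝ, X ≤ T → T ≤ NZ T := by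
  obtain ⟨c, C, hC, hr⟩ := rvm
  have hπ := Real.pi_pos
  refine ⟨max 1 (Real.exp (c + 2 * Real.pi * (1 + C))), le_max_left _ _, fun T hT => ?_⟩
  have hT1 : 1 ≤ T := (le_max_left _ _).trans hT
  have hT0 : 0 < T := by linarith
  have hlog : c + 2 * Real.pi * (1 + C) ≤ Real.log T :=
    (Real.le_log_iff_exp_le hT0).2 ((le_max_right _ _).trans hT)
  have h1 := (abs_le.1 (hr T hT1)).1
  have h2 : T ^ ((1 : ℝ) / 2) ≤ T := by
    have := Real.rpow_le_rpow_of_exponent_le hT1 (by norm_num : (1 : ℝ) / 2 ≤ 1)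
    rwa [Real.rpow_one] at this
  have h3 : T / (2 * Real.pi) * (2 * Real.pi * (1 + C)) ≤ T / (2 * Real.pi) * (Real.log T - c) :=
    mul_le_mul_of_nonneg_left (by linarith) (by positivity)
  have h4 : T / (2 * Real.pi) * (2 * Real.pi * (1 + C)) = T * (1 + C) := by
    field_simp
  have h5 : C * T ^ ((1 : ℝ) / 2) ≤ C * T := mul_le_mul_of_nonneg_left h2 hC
  nlinarith

private lemma BOrd_right (g : ℝ) : ∀ᶠ t in 𝓝[>] g, zeroCount t = zeroCount g := by
  have hf := BOrd_finite (g + 1)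
  have h1 : ∀ᶠ t in 𝓝[>] g, ∀ ρ ∈ hf.toFinset, g < ρ.im → t < ρ.im := by
    rw [Filter.eventually_all_finset]
    intro ρ _
    by_cases h : g < ρ.im
    · have h2 : ∀ᶠ t in 𝓝[>] g, t < ρ.im := nhdsWithin_le_nhds (Iio_mem_nhds h)
      filter_upwards [h2] with t ht _
      exact ht
    · exact Filter.Eventually.of_forall fun t h3 => absurd h3 h
  have h2 : ∀ᶠ t in 𝓝[>] g, t < g + 1 := nhdsWithin_le_nhds (Iio_mem_nhds (by linarith))
  filter_upwards [h1, h2, self_mem_nhdsWithin] with t ht1 ht2 ht3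
  have ht4 : g < t := ht3
  have hset : {ρ : ℂ | riemannZeta ρ = 0 ∧ 0 < ρ.im ∧ ρ.im ≤ t} =
      {ρ : ℂ | riemannZeta ρ = 0 ∧ 0 < ρ.im ∧ ρ.im ≤ g} := by
    ext ρ
    constructor
    · rintro ⟨h3, h4, h5⟩
      refine ⟨h3, h4, ?_⟩
      by_contra h6
      push Not at h6
      have h7 := ht1 ρ ((Set.Finite.mem_toFinset hf).2 ⟨h3, h4, by linarith⟩) h6
      linarith
    · rintro ⟨h3, h4, h5⟩
      exact ⟨h3, h4, by linarith⟩
  unfold zeroCount
  rw [hset]

theorem ord_le_iff {n : ℕ} (hn : 1 ≤ n) (t : ℝ) : ordinate n ≤ t ↔ n ≤ zeroCount t := by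
  have hbdd : BddBelow {T : ℝ | n ≤ zeroCount T} := by
    refine ⟨0, fun T hT => ?_⟩
    by_contra hneg
    push Not at hneg
    have h1 := Pool.Agent.Lib.MP_ec260d_nt.zeroCount_nonpos hneg.le
    have h2 : n ≤ zeroCount T := hT
    omega
  have hne : {T : ℝ | n ≤ zeroCount T}.Nonempty := by
    obtain ⟨X, hX1, hX⟩ := BOrd_lower
    refine ⟨max X n, ?_⟩
    have h1 := hX (max X n) (le_max_left _ _)
    rw [← Pool.Agent.Lib.MP_ec260d_nt.zeroCount_eq] at h1
    have h2 : (n : ℝ) ≤ zeroCount (max X n) := (le_max_right _ _).trans h1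
    exact_mod_cast h2
  constructor
  · intro h
    have h1 : n ≤ zeroCount (ordinate n) := by
      obtain ⟨u, hu1, hu2⟩ := ((BOrd_right (ordinate n)).and self_mem_nhdsWithin).exists
      have hu3 : ordinate n < u := hu2
      obtain ⟨T', hT', hlt⟩ := (csInf_lt_iff hbdd hne).1 hu3
      have h2 : n ≤ zeroCount T' := hT'
      have h3 := Pool.Agent.Lib.MP_ec260d_nt.zeroCount_mono hlt.le
      omega
    exact h1.trans (Pool.Agent.Lib.MP_ec260d_nt.zeroCount_mono h)
  · intro h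
    exact csInf_le hbdd h

theorem ord_count (a b : ℝ) (F : Finset ℕ) (hF : ∀ n ∈ F, zeroCount a < n ∧ n ≤ zeroCount b) :
    (F.card : ℝ) ≤ max (NN b - NN a) 0 := by
  have h1 : F ⊆ Finset.Ioc (zeroCount a) (zeroCount b) := fun n hn => Finset.mem_Ioc.2 (hF n hn)
  have h2 := Finset.card_le_card h1
  rw [Nat.card_Ioc] at h2
  have h3 : (F.card : ℝ) ≤ ((zeroCount b - zeroCount a : ℕ) : ℝ) := by exact_mod_cast h2
  refine h3.trans ?_
  rcases le_total (zeroCount a) (zeroCount b) with h | h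
  · rw [Nat.cast_sub h]
    exact le_max_left _ _
  · rw [Nat.sub_eq_zero_of_le h, Nat.cast_zero]
    exact le_max_right _ _

theorem nn_asym : ∃ C : ℝ, 0 ≤ C ∧ ∀ T b : ℝ, 2 ≤ T → T ≤ b → b ≤ 4 * T →
    NN b - NN T ≤ (b - T) / (2 * Real.pi) * Real.log T + C * T := by
  obtain ⟨c, C, hC, hr⟩ := Pool.Agent.Lib.MP_ec260d_nt.rvm
  have hπ := Real.pi_gt_three
  refine ⟨8 + 3 * |c| + 5 * C, by positivity, fun T b hT hTb hb => ?_⟩
  have hT0 : 0 < T := by linarith
  have hb0 : 0 < b := by linarith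
  have h1 := (abs_le.1 (hr b (by linarith))).2
  have h2 := (abs_le.1 (hr T (by linarith))).1
  have hN : ∀ t : ℝ, NN t = Pool.Agent.Lib.MP_ec260d_nt.NZ t := fun t => by
    unfold NN
    exact Pool.Agent.Lib.MP_ec260d_nt.zeroCount_eq t
  rw [hN, hN]
  have hsq : ∀ x : ℝ, 1 ≤ x → x ^ ((1 : ℝ) / 2) ≤ x := by
    intro x hx
    have := Real.rpow_le_rpow_of_exponent_le hx (by norm_num : (1 : ℝ) / 2 ≤ 1)
    rwa [Real.rpow_one] at this
  have h3 : C * b ^ ((1 : ℝ) / 2) ≤ C * (4 * T) :=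
    mul_le_mul_of_nonneg_left ((hsq b (by linarith)).trans hb) hC
  have h4 : C * T ^ ((1 : ℝ) / 2) ≤ C * T := mul_le_mul_of_nonneg_left (hsq T (by linarith)) hC
  have hlog : Real.log b ≤ Real.log T + 2 := by
    have h5 : Real.log b ≤ Real.log (4 * T) := Real.log_le_log hb0 hb
    rw [Real.log_mul (by norm_num) hT0.ne'] at h5
    have h6 : Real.log 4 ≤ 2 := by
      have h7 : Real.log 4 = 2 * Real.log 2 := by
        rw [show (4 : ℝ) = 2 ^ 2 by norm_num, Real.log_pow]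
        norm_num
      have h8 := Real.log_two_lt_d9
      linarith
    linarith
  -- the main terms
  have hp : 0 < 2 * Real.pi := by linarith
  have hmain : b / (2 * Real.pi) * (Real.log b - c) - T / (2 * Real.pi) * (Real.log T - c) ≤
      (b - T) / (2 * Real.pi) * Real.log T + (8 + 3 * |c|) * T := by
    have h5 : b / (2 * Real.pi) * (Real.log b - c) - T / (2 * Real.pi) * (Real.log T - c) =
        (b - T) / (2 * Real.pi) * Real.log T +
          (b * (Real.log b - Real.log T) - c * (b - T)) / (2 * Real.pi) := by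
      field_simp
      ring
    rw [h5]
    have h6 : b * (Real.log b - Real.log T) ≤ 8 * T := by nlinarith
    have h7 : -(c * (b - T)) ≤ 3 * |c| * T := by
      have h8 : -c ≤ |c| := neg_le_abs c
      have h9 : 0 ≤ |c| := abs_nonneg c
      have h10 : -c * (b - T) ≤ |c| * (b - T) := mul_le_mul_of_nonneg_right h8 (by linarith)
      have h11 : |c| * (b - T) ≤ |c| * (3 * T) := mul_le_mul_of_nonneg_left (by linarith) h9
      linarith
    have h8 : (b * (Real.log b - Real.log T) - c * (b - T)) / (2 * Real.pi) ≤ (8 + 3 * |c|) * T := by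
      rw [div_le_iff₀ hp]
      have h9 : 0 ≤ (8 + 3 * |c|) * T := by positivity
      nlinarith
    linarith
  linarith

end Pool.Agent.Lib.MP_ec260d_ntB
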