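import Mathlib
import Pool.Agent.Lib.MP_ec260d_nt.OrdIdx
import Pool.Agent.Lib.MP_ec260d_ntB.BLam
import Pool.Agent.Lib.MP_ec260d_ntB.GN

/-!
# JOB IB: the number of zeros is given by the primes, up to a bounded error, for most heights (interface B)

`lam_y (ε/4)` gives `Bad`, `K`. `G = {t ∈ [T, 3 T - 2] | t ∉ Bad and t + hT T ∉ Bad}` (measurable: preimage under a translation). `hT T ≤ 1` for large `T` (`hT_small`), so `t + hT T ∈ [T, 3 T - 1]` for `t ∈ G`. `[T, 3T] \ G ⊆ [3T - 2, 3T] ∪ Bad ∪ (Bad - hT T)`, of measure at most `2 + 2 (ε/4) T ≤ ε T` (`T ≥ 4/ε`; translation invariance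
`measure_preimage_add_right`).
Let `t₁ ≤ t₂` be in `G`, `h = hT T`, `Y = YY δ W T`.
* Upper bound: `n_upper`: `NN t₂ - NN t₁ ≤ LL t₂ - LL t₁ + Lam T t₁ - Lam T (t₂ + h) + C`, and `Lam T t₁ ≤ - Y t₁ + K`, `- Lam T (t₂ + h) ≤ Y (t₂ + h) + K ≤ Y t₂ + 2 K`.
* Lower bound, `t₁ + h ≤ t₂`: `n_lower`: `NN t₂ - NN t₁ ≥ LL t₂ - LL t₁ + Lam T (t₁ + h) - Lam T t₂ - C ≥ .. - Y (t₁ + h) - K + Y t₂ - K - C ≥ .. - Y t₁ + Y t₂ - 3 K - C`.
* Lower bound, `t₂ < t₁ + h`: `NN t₂ - NN t₁ ≥ 0` (`zeroCount_mono` in MP_ec260d_nt/OrdIdx.lean), `0 ≤ LL t₂ - LL t₁ ≤ LL (t₁ + h) - LL t₁ ≤ C` (`LL` is increasing on `[7, ∞)`: `LL' t = (1/(2π)) log (t/(2π)) ≥ 0` for `t ≥ 2 π`; `ll_incr`), `|Y t₂ - Y t₁| ≤ K` (`|t₂ - t₁| ≤ h`).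
-/

namespace Pool.Agent.Lib.MP_ec260d_ntB

open Complex Set Filter Topology MeasureTheory

private theorem IB_ll_mono {s t : ℝ} (hs : 7 ≤ s) (hst : s ≤ t) : LL s ≤ LL t := by
  have hπ := Real.pi_pos
  have hπ2 : Real.pi < 3.15 := Real.pi_lt_d2
  unfold LL
  set x := s / (2 * Real.pi) with hx
  set y := t / (2 * Real.pi) with hy
  have h2 : (0 : ℝ) < 2 * Real.pi := by positivity
  have hx1 : 1 ≤ x := by
    rw [hx, le_div_iff₀ h2]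
    linarith
  have hxy : x ≤ y := by
    rw [hx, hy]
    exact div_le_div_of_nonneg_right hst h2.le
  have hx0 : 0 < x := by linarith
  have hy0 : 0 < y := by linarith
  have hlx : 0 ≤ Real.log x := Real.log_nonneg hx1
  have h3 : Real.log (x / y) ≤ x / y - 1 := Real.log_le_sub_one_of_pos (div_pos hx0 hy0)
  rw [Real.log_div hx0.ne' hy0.ne'] at h3
  have h4 : y * (Real.log x - Real.log y) ≤ y * (x / y - 1) := mul_le_mul_of_nonneg_left h3 hy0.le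
  have h5 : y * (x / y - 1) = x - y := by field_simp
  have h6 : 0 ≤ (y - x) * Real.log x := mul_nonneg (by linarith) hlx
  nlinarith

private theorem IB_cmp {Y : ℝ → ℝ} {T K C C' h t₁ t₂ : ℝ}
    (h0 : 0 < h) (hT7 : 7 ≤ T) (hK : 0 ≤ K) (hC : 0 ≤ C) (hC' : 0 ≤ C') (hTt : T ≤ t₁)
    (h12 : t₁ ≤ t₂)
    (a1 : |Lam T t₁ + Y t₁| ≤ K) (a2 : |Lam T (t₁ + h) + Y (t₁ + h)| ≤ K)
    (b1 : |Lam T t₂ + Y t₂| ≤ K) (b2 : |Lam T (t₂ + h) + Y (t₂ + h)| ≤ K)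
    (c1 : |Y (t₁ + h) - Y t₁| ≤ K) (c2 : |Y (t₂ + h) - Y t₂| ≤ K)
    (c3 : |t₂ - t₁| ≤ h → |Y t₂ - Y t₁| ≤ K)
    (hup : NN t₂ - NN t₁ ≤ LL t₂ - LL t₁ + Lam T t₁ - Lam T (t₂ + h) + C)
    (hlo : t₁ + h ≤ t₂ → LL t₂ - LL t₁ + Lam T (t₁ + h) - Lam T t₂ - C ≤ NN t₂ - NN t₁)
    (hll : |LL (t₁ + h) - LL t₁| ≤ C') :
    |NN t₂ - NN t₁ - (LL t₂ - LL t₁) - (Y t₂ - Y t₁)| ≤ 3 * K + C + C' := by
  rw [abs_le] at a1 a2 b1 b2 c1 c2 hll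
  rw [abs_le]
  constructor
  · rcases le_or_gt (t₁ + h) t₂ with hc | hc
    · have := hlo hc
      linarith [a2.1, b1.2, c1.2]
    · have h1 : LL t₂ ≤ LL (t₁ + h) := IB_ll_mono (by linarith) hc.le
      have h2 : |t₂ - t₁| ≤ h := by
        rw [abs_le]
        constructor <;> linarith
      have h3 := abs_le.1 (c3 h2)
      have h4 : NN t₁ ≤ NN t₂ := by
        unfold NN
        exact_mod_cast Pool.Agent.Lib.MP_ec260d_nt.zeroCount_mono h12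
      linarith [h3.2, hll.2]
  · linarith [a1.2, b2.1, c2.2]

theorem t_one (ε : ℝ) (hε : 0 < ε) : ∃ δ₁ : ℝ, 0 < δ₁ ∧ ∀ δ : ℝ, 0 < δ → δ ≤ δ₁ →
    ∃ W₀ : ℝ, 1 ≤ W₀ ∧ ∀ W : ℝ, W₀ ≤ W → ∃ K T₀ : ℝ, 0 < K ∧ 2 ≤ T₀ ∧ ∀ T : ℝ, T₀ ≤ T →
      ∃ G : Set ℝ, MeasurableSet G ∧ G ⊆ Icc T (3 * T) ∧
        volume (Icc T (3 * T) \ G) ≤ ENNReal.ofReal (ε * T) ∧
        ∀ t₁ ∈ G, ∀ t₂ ∈ G, t₁ ≤ t₂ →
          |NN t₂ - NN t₁ - (LL t₂ - LL t₁) - (YY δ W T t₂ - YY δ W T t₁)| ≤ K := by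
  obtain ⟨δ₁, hδ₁, H⟩ := lam_y (ε / 4) (by positivity)
  obtain ⟨C1, T1, hC1, hT1, hup⟩ := n_upper
  obtain ⟨C2, T2, hC2, hT2, hlo⟩ := n_lower
  obtain ⟨C3, T3, hC3, hT3, hll⟩ := ll_incr
  obtain ⟨T4, hT4, hsm⟩ := hT_small 1 one_pos
  refine ⟨δ₁, hδ₁, fun δ hδ hδ1 => ?_⟩
  obtain ⟨W₀, hW₀, H1⟩ := H δ hδ hδ1
  refine ⟨W₀, hW₀, fun W hW => ?_⟩
  obtain ⟨K, T₀, hK, hT₀, H2⟩ := H1 W hW
  refine ⟨3 * K + (C1 + C2) + C3, T₀ + T1 + T2 + T3 + T4 + 7 + 4 / ε, by linarith, ?_, fun T hTge => ?_⟩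
  · have : 0 < 4 / ε := by positivity
    linarith
  have h4ε : 0 < 4 / ε := by positivity
  have hTε : 4 / ε ≤ T := by linarith
  have hT0 : T₀ ≤ T := by linarith
  have hTT1 : T1 ≤ T := by linarith
  have hTT2 : T2 ≤ T := by linarith
  have hTT3 : T3 ≤ T := by linarith
  have hTT4 : T4 ≤ T := by linarith
  have hT7 : 7 ≤ T := by linarith
  have hh0 : 0 < hT T := hT_pos (by linarith)
  have hh1 : hT T ≤ 1 := hsm T hTT4
  obtain ⟨Bad, hBm, hBv, hB⟩ := H2 T hT0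
  set h := hT T with hhdef
  set B' : Set ℝ := (fun t => t + h) ⁻¹' Bad with hB'
  have hB'm : MeasurableSet B' := (measurable_id.add_const h) hBm
  have hB'v : volume B' = volume Bad := measure_preimage_add_right volume h Bad
  refine ⟨Icc T (3 * T - 2) ∩ (Badᶜ ∩ B'ᶜ), measurableSet_Icc.inter (hBm.compl.inter hB'm.compl), ?_,
    ?_, ?_⟩
  · intro t ht
    exact ⟨ht.1.1, ht.1.2.trans (by linarith)⟩
  · have hsub : Icc T (3 * T) \ (Icc T (3 * T - 2) ∩ (Badᶜ ∩ B'ᶜ)) ⊆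
        Icc (3 * T - 2) (3 * T) ∪ (Bad ∪ B') := by
      intro t ht
      by_cases hc : t ∈ Bad ∪ B'
      · exact Or.inr hc
      · left
        refine ⟨?_, ht.1.2⟩
        by_contra hlt
        push Not at hlt
        apply ht.2
        refine ⟨⟨ht.1.1, hlt.le⟩, fun hb => hc (Or.inl hb), fun hb => hc (Or.inr hb)⟩
    calc volume (Icc T (3 * T) \ (Icc T (3 * T - 2) ∩ (Badᶜ ∩ B'ᶜ)))
        ≤ volume (Icc (3 * T - 2) (3 * T) ∪ (Bad ∪ B')) := measure_mono hsub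
      _ ≤ volume (Icc (3 * T - 2) (3 * T)) + volume (Bad ∪ B') := measure_union_le _ _
      _ ≤ volume (Icc (3 * T - 2) (3 * T)) + (volume Bad + volume B') := by
          gcongr
          exact measure_union_le _ _
      _ ≤ ENNReal.ofReal 2 + (ENNReal.ofReal (ε / 4 * T) + ENNReal.ofReal (ε / 4 * T)) := by
          refine add_le_add ?_ (add_le_add hBv (hB'v ▸ hBv))
          rw [Real.volume_Icc]
          exact ENNReal.ofReal_le_ofReal (by linarith)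
      _ = ENNReal.ofReal (2 + (ε / 4 * T + ε / 4 * T)) := by
          have h1 : 0 ≤ ε / 4 * T := by positivity
          rw [ENNReal.ofReal_add (by norm_num) (by positivity), ENNReal.ofReal_add h1 h1]
      _ ≤ ENNReal.ofReal (ε * T) := by
          apply ENNReal.ofReal_le_ofReal
          have h2 : 4 ≤ T * ε := (div_le_iff₀ hε).1 hTε
          nlinarith
  · intro t₁ ht₁ t₂ ht₂ h12
    have k1 : t₁ ∈ Icc T (3 * T - 1) := ⟨ht₁.1.1, ht₁.1.2.trans (by linarith)⟩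
    have k2 : t₂ ∈ Icc T (3 * T - 1) := ⟨ht₂.1.1, ht₂.1.2.trans (by linarith)⟩
    have k1' : t₁ + h ∈ Icc T (3 * T - 1) :=
      ⟨by linarith [ht₁.1.1], by linarith [ht₁.1.2]⟩
    have k2' : t₂ + h ∈ Icc T (3 * T - 1) :=
      ⟨by linarith [ht₂.1.1], by linarith [ht₂.1.2]⟩
    have g1 := hB t₁ k1 ht₁.2.1
    have g2 := hB t₂ k2 ht₂.2.1
    have g1' := hB (t₁ + h) k1' ht₁.2.2
    have g2' := hB (t₂ + h) k2' ht₂.2.2
    have habs : ∀ t : ℝ, |t + h - t| ≤ h := fun t => by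
      rw [add_sub_cancel_left, abs_of_pos hh0]
    refine IB_cmp (Y := YY δ W T) hh0 hT7 hK.le (by linarith : (0 : ℝ) ≤ C1 + C2) hC3 ht₁.1.1 h12
      g1.1 g1'.1 g2.1 g2'.1 (g1.2 _ (habs _)) (g2.2 _ (habs _)) (fun hc => g1.2 _ hc) ?_ ?_ ?_
    · have := hup T hTT1 t₁ t₂ ht₁.1.1 h12 (ht₂.1.2.trans (by linarith))
      linarith
    · intro hc
      have := hlo T hTT2 t₁ t₂ ht₁.1.1 hc (ht₂.1.2.trans (by linarith))
      linarith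
    · exact hll T hTT3 t₁ ht₁.1.1 (by linarith [ht₁.1.2])

end Pool.Agent.Lib.MP_ec260d_ntB
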