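import Mathlib
import Pool.Agent.Lib.MP_ec260d_ntB.Y.YBlock
import Pool.Agent.Lib.MP_ec260d_ntB.Y.YFlat
import Pool.Agent.Lib.MP_ec260d_ntB.Y.YInc
import Pool.Agent.Lib.MP_ec260d_ntB.Y.YOsc

/-!
# Interface Y: moments of the prime sums, in the form of exceptional sets

The four statements follow from the statements of the files `Y/YOsc`, `Y/YFlat`, `Y/YBlock`, `Y/YInc` on the
larger interval `[T, 3 T]`.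
-/

namespace Pool.Agent.Lib.MP_ec260d_ntB

open Complex Set Filter Topology MeasureTheory

theorem y_osc (δ W L ε : ℝ) (hδ : 0 < δ) (hδ1 : δ ≤ 1 / 100) (hW : 1 ≤ W) (hL : 0 ≤ L) (hε : 0 < ε) :
    ∃ A T₀ : ℝ, 1 ≤ A ∧ 2 ≤ T₀ ∧ ∀ T : ℝ, T₀ ≤ T →
      volume {t : ℝ | t ∈ Icc T (3 * T - 1) ∧ ∃ s : ℝ, |s - t| ≤ L * hT T ∧
        A < |YY δ W T s - YY δ W T t|} ≤ ENNReal.ofReal (ε * T) := by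
  obtain ⟨A, T₀, hA, hT₀, h⟩ := Y.y_osc δ W L ε hδ hδ1 hW hL hε
  refine ⟨A, T₀, hA, hT₀, fun T hT => (measure_mono ?_).trans (h T hT)⟩
  rintro t ⟨ht, h1⟩
  exact ⟨⟨ht.1, by linarith [ht.2]⟩, h1⟩

theorem y_flat (δ δ' W L ε : ℝ) (hδ : 0 < δ) (hδ1 : δ ≤ 1 / 100) (hδ' : 0 < δ') (hδδ : δ' ≤ δ)
    (hW : 1 ≤ W) (hL : 0 ≤ L) (hε : 0 < ε) :
    ∃ A T₀ : ℝ, 1 ≤ A ∧ 2 ≤ T₀ ∧ ∀ T : ℝ, T₀ ≤ T →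
      volume {t : ℝ | t ∈ Icc T (3 * T - 1) ∧ ∃ s : ℝ, |s - t| ≤ L * hT T ∧
        A < |YY δ W T s - ∑ j ∈ Finset.range (JJ T), YB δ' W T j s|} ≤ ENNReal.ofReal (ε * T) := by
  obtain ⟨A, T₀, hA, hT₀, h⟩ := Y.y_flat δ δ' W L ε hδ hδ1 hδ' hδδ hW hL hε
  refine ⟨A, T₀, hA, hT₀, fun T hT => (measure_mono ?_).trans (h T hT)⟩
  rintro t ⟨ht, h1⟩
  exact ⟨⟨ht.1, by linarith [ht.2]⟩, h1⟩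

theorem y_block (k : ℕ) (L ε : ℝ) (hL : 0 ≤ L) (hε : 0 < ε) :
    ∃ δ₁ : ℝ, 0 < δ₁ ∧ ∀ δ : ℝ, 0 < δ → δ ≤ δ₁ → ∀ W : ℝ, 1 ≤ W → ∃ T₀ : ℝ, 2 ≤ T₀ ∧ ∀ T : ℝ, T₀ ≤ T →
      volume {t : ℝ | t ∈ Icc T (3 * T - 1) ∧ ∃ s : ℝ, |s - t| ≤ L * hT T ∧
        ∃ j ∈ Finset.range (JJ T), (dd δ j : ℝ) / (100 * ((k : ℝ) + 1)) < |YB δ W T j s|} ≤
          ENNReal.ofReal (ε * T) := by
  obtain ⟨δ₁, hδ₁, h⟩ := Y.y_block k L ε hL hε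
  refine ⟨δ₁, hδ₁, fun δ hδ hδ1 W hW => ?_⟩
  obtain ⟨T₀, hT₀, h⟩ := h δ hδ hδ1 W hW
  refine ⟨T₀, hT₀, fun T hT => (measure_mono ?_).trans (h T hT)⟩
  rintro t ⟨ht, h1⟩
  exact ⟨⟨ht.1, by linarith [ht.2]⟩, h1⟩

theorem y_inc (δ W C ε : ℝ) (hδ : 0 < δ) (hδ1 : δ ≤ 1 / 100) (hW : 1 ≤ W) (hC : 0 ≤ C) (hε : 0 < ε) :
    ∃ A T₀ : ℝ, 1 ≤ A ∧ 2 ≤ T₀ ∧ ∀ T : ℝ, T₀ ≤ T → ∀ u : ℝ, 0 ≤ u → u ≤ C →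
      volume {t : ℝ | t ∈ Icc T (11 / 4 * T) ∧
        A * Real.sqrt (Real.log (2 + u * Real.log T)) < |YY δ W T (t + u) - YY δ W T t|} ≤
          ENNReal.ofReal (ε * T) := by
  obtain ⟨A, T₀, hA, hT₀, h⟩ := Y.y_inc δ W C ε hδ hδ1 hW hC hε
  refine ⟨A, T₀, hA, hT₀, fun T hT u hu huC => (measure_mono ?_).trans (h T hT u hu huC)⟩
  rintro t ⟨ht, h1⟩
  exact ⟨⟨ht.1, by linarith [ht.1, ht.2]⟩, h1⟩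

end Pool.Agent.Lib.MP_ec260d_ntB
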