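import Mathlib
import Pool.Agent.Lib.MP_ec260d_ntB.IB
import Pool.Agent.Lib.MP_ec260d_ntB.IY
import Pool.Agent.Lib.MP_ec260d_ntB.BOrd

/-!
# JOB BNu: short intervals rarely have too many zeros

`h = hT T`, `l = log T`, `h l = 2 π`, `ν t = NN (t + b h) - NN t` (`b ≥ 1` real). Claim: for every `ε` and all large `b` (`b ≥ b₀(ε)`) and `T ≥ T₀(b)`: `∫ t in T..(9/4) T, max (ν t - b) 0 ≤ ε b T`.
(1) `max (ν - b) 0 = (ν - b) + max (b - ν) 0`.
(2) `∫_T^{9T/4} ν t dt = ∫_{9T/4}^{9T/4 + b h} NN - ∫_T^{T + b h} NN ≤ b h (NN (9T/4 + b h) - NN T)` (`NN` is monotone, so interval integrable: `Monotone.intervalIntegrable`; `zeroCount_mono`) `≤ b h ((5T/4 + b h) / (2 π) * l + C T)` (`nn_asym`, `9T/4 + b h ≤ 4 T`) `= b (5T/4 + b h) + 2 π b C T / l`. So `∫ (ν - b) ≤ b ^ 2 h + 2 π b C T / l ≤ (ε/4) b T` for `T ≥ T₀(b, ε)`.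
(3) `t_one (ε/64)` and `y_inc`: fix `δ = min δ₁ (1/100)`, `W = W₀`, get `K`, `G` (for each `T`); `y_inc` with this `δ`, `W`, `C = 1`, exceptional measure `(ε/64) T`: constant `A`. For `b h ≤ 1`: for `t ∈ [T, 9T/4]` with `t ∈ G`, `t + b h ∈ G` and `t` not exceptional in `y_inc` for `u = b h`: `ν t ≥ LL (t + b h) - LL t - A sqrt (log (2 + 2 π b)) - K` (`u l = 2 π b`)
  and `LL (t + b h) - LL t ≥ b h (1/(2 π)) log (T/(2 π)) = b (1 - log (2 π) / l) ≥ b - 1` for `l ≥ b log (2 π)`. So `max (b - ν t) 0 ≤ 1 + K + A sqrt (log (2 + 2 π b))`. For the other `t`: `max (b - ν) 0 ≤ b` (`ν ≥ 0`), and their measure is at most `(3 ε/64) T` (`t + b h ∈ [T, 3T]`; translation invariance).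
  So `∫ max (b - ν) 0 ≤ (5/4) T (1 + K + A sqrt (log (2 + 2 π b))) + (3 ε/64) b T ≤ (ε/2) b T` if `b ≥ b₀` (`(1 + K + A sqrt (log (2 + 2 π b))) / b → 0`: choose `b₀` with `(5/4) (1 + K + A sqrt (log (2 + 2 π b))) ≤ (ε/4) b` for all `b ≥ b₀`; for example `log (2 + 2 π b) ≤ 9 b`, `sqrt ≤ 3 sqrt b`).
-/

namespace Pool.Agent.Lib.MP_ec260d_ntB

open Complex Set Filter Topology MeasureTheory

private theorem bnu_mono : Monotone NN := fun a b h => by
  unfold NN
  exact_mod_cast Pool.Agent.Lib.MP_ec260d_nt.zeroCount_mono h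

private theorem bnu_ll {t u : ℝ} (ht : 0 < t) (hu : 0 ≤ u) :
    u / (2 * Real.pi) * Real.log (t / (2 * Real.pi)) ≤ LL (t + u) - LL t := by
  have hpi := Real.pi_pos
  unfold LL
  have hyx : (t + u) / (2 * Real.pi) - t / (2 * Real.pi) = u / (2 * Real.pi) := by ring
  have hx : 0 < t / (2 * Real.pi) := by positivity
  have hy : 0 < (t + u) / (2 * Real.pi) := by positivity
  set x := t / (2 * Real.pi) with hxd
  set y := (t + u) / (2 * Real.pi) with hyd
  have hl : Real.log y = Real.log x + Real.log (y / x) := by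
    rw [Real.log_div hy.ne' hx.ne']; ring
  have h1 := Real.one_sub_inv_le_log_of_pos (div_pos hy hx)
  rw [inv_div] at h1
  have h2 : y * (1 - x / y) = y - x := by field_simp
  have h3 : y * (1 - x / y) ≤ y * Real.log (y / x) := mul_le_mul_of_nonneg_left h1 hy.le
  have h4 : (y - x) * Real.log x = y * Real.log x - x * Real.log x := by ring
  rw [← hyx, hl, h4]
  linarith

private theorem bnu_int {T S u : ℝ} (hu : 0 ≤ u) :
    ∫ t in T..S, (NN (t + u) - NN t) ≤ u * (NN (S + u) - NN T) := by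
  have hI : ∀ a b : ℝ, IntervalIntegrable NN volume a b := fun a b => bnu_mono.intervalIntegrable
  have hm2 : Monotone (fun t : ℝ => NN (t + u)) := fun a b h => bnu_mono (by linarith)
  have hI2 : IntervalIntegrable (fun t : ℝ => NN (t + u)) volume T S := hm2.intervalIntegrable
  rw [intervalIntegral.integral_sub hI2 (hI T S), intervalIntegral.integral_comp_add_right NN u]
  have e1 := intervalIntegral.integral_add_adjacent_intervals (hI T (T + u)) (hI (T + u) (S + u))
  have e2 := intervalIntegral.integral_add_adjacent_intervals (hI T S) (hI S (S + u))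
  have e3 : ∫ t in S..(S + u), NN t ≤ u * NN (S + u) := by
    calc ∫ t in S..(S + u), NN t ≤ ∫ _t in S..(S + u), NN (S + u) :=
          intervalIntegral.integral_mono_on (by linarith) (hI _ _) intervalIntegrable_const
            (fun t ht => bnu_mono ht.2)
      _ = u * NN (S + u) := by
          rw [intervalIntegral.integral_const, smul_eq_mul]; ring
  have e4 : u * NN T ≤ ∫ t in T..(T + u), NN t := by
    calc u * NN T = ∫ _t in T..(T + u), NN T := by
          rw [intervalIntegral.integral_const, smul_eq_mul]; ring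
      _ ≤ ∫ t in T..(T + u), NN t :=
          intervalIntegral.integral_mono_on (by linarith) intervalIntegrable_const (hI _ _)
            (fun t ht => bnu_mono ht.1)
  have e5 : u * (NN (S + u) - NN T) = u * NN (S + u) - u * NN T := by ring
  rw [e5]
  linarith

private theorem bnu_exc {T S M b m : ℝ} (hTS : T ≤ S) (hb : 0 ≤ b) (hm : 0 ≤ m) (D : ℝ → ℝ)
    (E : Set ℝ) (hE : volume E ≤ ENNReal.ofReal m)
    (hD : IntervalIntegrable D volume T S)
    (hgood : ∀ t ∈ Ioc T S, t ∉ E → D t ≤ M) (hall : ∀ t ∈ Ioc T S, D t ≤ b) (hM : 0 ≤ M) :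
    ∫ t in T..S, D t ≤ (S - T) * M + m * b := by
  set E' : Set ℝ := toMeasurable volume E with hE'
  have hEm : MeasurableSet E' := measurableSet_toMeasurable _ _
  have hEv : volume E' ≤ ENNReal.ofReal m := by rw [hE', measure_toMeasurable]; exact hE
  have hsub : E ⊆ E' := subset_toMeasurable _ _
  rw [intervalIntegral.integral_of_le hTS]
  have hDi : IntegrableOn D (Ioc T S) volume := hD.1
  have hind : Integrable (E'.indicator (fun _ : ℝ => b)) (volume.restrict (Ioc T S)) :=
    (integrable_const b).indicator hEm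
  have hcon : Integrable (fun _ : ℝ => M) (volume.restrict (Ioc T S)) := integrable_const M
  calc ∫ t in Ioc T S, D t ≤ ∫ t in Ioc T S, (M + E'.indicator (fun _ : ℝ => b) t) := by
        apply setIntegral_mono_on hDi (hcon.add hind) measurableSet_Ioc
        intro t ht
        show D t ≤ M + E'.indicator (fun _ : ℝ => b) t
        by_cases h : t ∈ E'
        · rw [Set.indicator_of_mem h]
          have := hall t ht
          linarith
        · rw [Set.indicator_of_notMem h, add_zero]
          exact hgood t ht (fun h' => h (hsub h'))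
    _ = (∫ t in Ioc T S, (M : ℝ)) + ∫ t in Ioc T S, E'.indicator (fun _ : ℝ => b) t :=
        integral_add hcon hind
    _ ≤ (S - T) * M + m * b := by
        have h1 : ∫ t in Ioc T S, (M : ℝ) = (S - T) * M := by
          rw [← intervalIntegral.integral_of_le hTS, intervalIntegral.integral_const, smul_eq_mul]
        have h2 : ∫ t in Ioc T S, E'.indicator (fun _ : ℝ => b) t ≤ m * b := by
          rw [integral_indicator_const b hEm, smul_eq_mul]
          apply mul_le_mul_of_nonneg_right _ hb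
          have h3 : (volume.restrict (Ioc T S)) E' ≤ ENNReal.ofReal m :=
            (Measure.restrict_le_self E').trans hEv
          have h4 := ENNReal.toReal_mono ENNReal.ofReal_ne_top h3
          rw [ENNReal.toReal_ofReal hm] at h4
          exact h4
        rw [h1]
        linarith

private theorem bnu_M {ε K A b : ℝ} (hε : 0 < ε) (hK : 0 < K) (hA : 1 ≤ A) (hb1 : 1 ≤ b)
    (hb : (5 * (1 + K + 3 * A) / ε) ^ 2 ≤ b) :
    5 / 4 * (1 + K + A * Real.sqrt (Real.log (2 + 2 * Real.pi * b))) ≤ ε / 4 * b := by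
  have hpi := Real.pi_pos
  have hb0 : 0 < b := by linarith
  have hr : 5 * (1 + K + 3 * A) / ε ≤ Real.sqrt b := by
    apply Real.le_sqrt_of_sq_le
    exact hb
  have hr1 : 1 ≤ Real.sqrt b := by
    rw [← Real.sqrt_one]
    exact Real.sqrt_le_sqrt hb1
  have hsq : Real.sqrt b * Real.sqrt b = b := Real.mul_self_sqrt hb0.le
  have hlog : Real.log (2 + 2 * Real.pi * b) ≤ 9 * b := by
    have h0 : 0 < 2 + 2 * Real.pi * b := by positivity
    have h5 := Real.log_le_sub_one_of_pos h0
    have h6 : Real.pi < 3.15 := Real.pi_lt_d2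
    nlinarith
  have hs : Real.sqrt (Real.log (2 + 2 * Real.pi * b)) ≤ 3 * Real.sqrt b := by
    have h7 := Real.sqrt_le_sqrt hlog
    have h8 : Real.sqrt (9 * b) = 3 * Real.sqrt b := by
      rw [Real.sqrt_mul (by norm_num), show (9 : ℝ) = 3 ^ 2 by norm_num, Real.sqrt_sq (by norm_num)]
    rwa [h8] at h7
  have hM1 : 1 + K + A * Real.sqrt (Real.log (2 + 2 * Real.pi * b)) ≤ (1 + K + 3 * A) * Real.sqrt b := by
    have h9 : A * Real.sqrt (Real.log (2 + 2 * Real.pi * b)) ≤ A * (3 * Real.sqrt b) :=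
      mul_le_mul_of_nonneg_left hs (by linarith)
    have h10 : (1 + K) * 1 ≤ (1 + K) * Real.sqrt b := mul_le_mul_of_nonneg_left hr1 (by linarith)
    nlinarith
  rw [div_le_iff₀ hε] at hr
  have h11 : 5 * ((1 + K + 3 * A) * Real.sqrt b) ≤ ε * b := by
    calc 5 * ((1 + K + 3 * A) * Real.sqrt b) = (5 * (1 + K + 3 * A)) * Real.sqrt b := by ring
      _ ≤ (Real.sqrt b * ε) * Real.sqrt b := mul_le_mul_of_nonneg_right hr (by linarith)
      _ = ε * (Real.sqrt b * Real.sqrt b) := by ring
      _ = ε * b := by rw [hsq]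
  linarith

private theorem bnu_pt {T t u b : ℝ} (hT2 : 2 ≤ T) (ht : T < t) (hu0 : 0 ≤ u) (hu1 : u ≤ 1)
    (hul : u * Real.log T = 2 * Real.pi * b) : b - 1 ≤ LL (t + u) - LL t := by
  have hpi := Real.pi_pos
  have hT0 : 0 < T := by linarith
  have ht0 : 0 < t := by linarith
  have k3 := bnu_ll ht0 hu0
  have k5 : Real.log T - Real.log (2 * Real.pi) ≤ Real.log (t / (2 * Real.pi)) := by
    rw [← Real.log_div hT0.ne' (by positivity)]
    apply Real.log_le_log (by positivity)
    gcongr
  have k6 : Real.log (2 * Real.pi) ≤ 2 * Real.pi := by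
    have := Real.log_le_sub_one_of_pos (show 0 < 2 * Real.pi by positivity)
    linarith
  have k7 : u / (2 * Real.pi) * (Real.log T - Real.log (2 * Real.pi)) ≤
      u / (2 * Real.pi) * Real.log (t / (2 * Real.pi)) :=
    mul_le_mul_of_nonneg_left k5 (by positivity)
  have k8 : u / (2 * Real.pi) * (Real.log T - Real.log (2 * Real.pi)) =
      b - u / (2 * Real.pi) * Real.log (2 * Real.pi) := by
    have : u / (2 * Real.pi) * Real.log T = b := by
      rw [div_mul_eq_mul_div, hul]
      field_simp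
    rw [mul_sub, this]
  have k9 : u / (2 * Real.pi) * Real.log (2 * Real.pi) ≤ u / (2 * Real.pi) * (2 * Real.pi) :=
    mul_le_mul_of_nonneg_left k6 (by positivity)
  have k10 : u / (2 * Real.pi) * (2 * Real.pi) = u := by field_simp
  linarith

private theorem bnu_mean {T b u C ε : ℝ} (hT2 : 2 ≤ T) (hb0 : 0 < b) (hu0 : 0 ≤ u) (hu1 : u ≤ 1)
    (hu : u = b * hT T)
    (hul : u * Real.log T = 2 * Real.pi * b) (hCh : C * hT T ≤ ε / 8) (hTε : 8 ≤ ε * T)
    (e3 : NN (9 / 4 * T + u) - NN T ≤ (9 / 4 * T + u - T) / (2 * Real.pi) * Real.log T + C * T) :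
    ∫ t in T..(9 / 4 * T), (NN (t + u) - NN t) ≤ (9 / 4 * T - T) * b + ε / 4 * b * T := by
  have hpi := Real.pi_pos
  have hT0 : 0 < T := by linarith
  have e2 := bnu_int (T := T) (S := 9 / 4 * T) hu0
  have e4 : u * (NN (9 / 4 * T + u) - NN T) ≤
      u * ((9 / 4 * T + u - T) / (2 * Real.pi) * Real.log T + C * T) :=
    mul_le_mul_of_nonneg_left e3 hu0
  have e5 : u * ((9 / 4 * T + u - T) / (2 * Real.pi) * Real.log T + C * T) =
      b * (5 / 4 * T + u) + b * (C * hT T) * T := by
    have e6 : u * ((9 / 4 * T + u - T) / (2 * Real.pi) * Real.log T + C * T) =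
        (u * Real.log T) * ((9 / 4 * T + u - T) / (2 * Real.pi)) + u * C * T := by ring
    rw [e6, hul]
    have e7 : 2 * Real.pi * b * ((9 / 4 * T + u - T) / (2 * Real.pi)) = b * (5 / 4 * T + u) := by
      field_simp
      ring
    rw [e7, hu]
    ring
  have e8 : b * u ≤ b * (ε * T / 8) := mul_le_mul_of_nonneg_left (by linarith) hb0.le
  have e9 : b * (C * hT T) * T ≤ b * (ε / 8) * T :=
    mul_le_mul_of_nonneg_right (mul_le_mul_of_nonneg_left hCh hb0.le) hT0.le
  nlinarith

theorem nu_bound (ε : ℝ) (hε : 0 < ε) : ∃ b₀ : ℝ, 1 ≤ b₀ ∧ ∀ b : ℝ, b₀ ≤ b → ∃ T₀ : ℝ, 2 ≤ T₀ ∧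
    ∀ T : ℝ, T₀ ≤ T →
      ∫ t in T..(9 / 4 * T), max (NN (t + b * hT T) - NN t - b) 0 ≤ ε * b * T := by
  classical
  have hpi := Real.pi_pos
  obtain ⟨δ₁, hδ₁, h1⟩ := t_one (ε / 64) (by positivity)
  set δ : ℝ := min δ₁ (1 / 100) with hδd
  have hδ : 0 < δ := lt_min hδ₁ (by norm_num)
  obtain ⟨W₀, hW₀, h2⟩ := h1 δ hδ (min_le_left _ _)
  obtain ⟨K, T₁, hK, hT₁, h3⟩ := h2 W₀ le_rfl
  obtain ⟨A, T₂, hA, hT₂, h4⟩ := y_inc δ W₀ 1 (ε / 64) hδ (min_le_right _ _) hW₀ (by norm_num) (by positivity)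
  obtain ⟨C, hC, hnn⟩ := nn_asym
  refine ⟨max 1 ((5 * (1 + K + 3 * A) / ε) ^ 2), le_max_left _ _, fun b hb => ?_⟩
  have hb1 : 1 ≤ b := (le_max_left _ _).trans hb
  have hb0 : 0 < b := by linarith
  -- the constant M
  set M : ℝ := 1 + K + A * Real.sqrt (Real.log (2 + 2 * Real.pi * b)) with hM
  have hM0 : 0 ≤ M := by positivity
  have hMb : 5 / 4 * M ≤ ε / 4 * b := bnu_M hε hK hA hb1 ((le_max_right _ _).trans hb)
  refine ⟨max T₁ (max T₂ (max (Real.exp (2 * Real.pi * b)) (max (8 / ε) (Real.exp (16 * Real.pi * C / ε))))),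
    hT₁.trans (le_max_left _ _), fun T hTT => ?_⟩
  have g1 : T₁ ≤ T := (le_max_left _ _).trans hTT
  have g2 : T₂ ≤ T := ((le_max_left _ _).trans (le_max_right _ _)).trans hTT
  have g3 : Real.exp (2 * Real.pi * b) ≤ T :=
    ((le_max_left _ _).trans ((le_max_right _ _).trans (le_max_right _ _))).trans hTT
  have g4 : 8 / ε ≤ T := ((le_max_left _ _).trans ((le_max_right _ _).trans
    ((le_max_right _ _).trans (le_max_right _ _)))).trans hTT
  have g5 : Real.exp (16 * Real.pi * C / ε) ≤ T := ((le_max_right _ _).trans ((le_max_right _ _).trans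
    ((le_max_right _ _).trans (le_max_right _ _)))).trans hTT
  have hT2 : 2 ≤ T := hT₁.trans g1
  have hT0 : 0 < T := by linarith
  have hl1 : 2 * Real.pi * b ≤ Real.log T := by
    rw [Real.le_log_iff_exp_le hT0]; exact g3
  have hl2 : 16 * Real.pi * C / ε ≤ Real.log T := by
    rw [Real.le_log_iff_exp_le hT0]; exact g5
  have hl0 : 0 < Real.log T := Real.log_pos (by linarith)
  have hh : hT T * Real.log T = 2 * Real.pi := by
    unfold hT
    field_simp
  have hh0 : 0 < hT T := by
    unfold hT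
    positivity
  set u : ℝ := b * hT T with hu
  have hu0 : 0 ≤ u := by positivity
  have hul : u * Real.log T = 2 * Real.pi * b := by
    rw [hu, mul_assoc, hh]; ring
  have hu1 : u ≤ 1 := by
    have h12 : u * Real.log T ≤ 1 * Real.log T := by rw [hul, one_mul]; exact hl1
    exact le_of_mul_le_mul_right h12 hl0
  have hCh : C * hT T ≤ ε / 8 := by
    have h13 : C * hT T * Real.log T ≤ ε / 8 * Real.log T := by
      rw [mul_assoc, hh]
      rw [div_le_iff₀ hε] at hl2
      linarith
    exact le_of_mul_le_mul_right h13 hl0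
  have hTε : 8 ≤ ε * T := by
    rw [div_le_iff₀ hε] at g4
    linarith
  -- the function
  set f : ℝ → ℝ := fun t => NN (t + u) - NN t - b with hf
  have hI : ∀ a b : ℝ, IntervalIntegrable NN volume a b := fun a b => bnu_mono.intervalIntegrable
  have hm2 : Monotone (fun t : ℝ => NN (t + u)) := fun a b h => bnu_mono (by linarith)
  have hI2 : ∀ a b : ℝ, IntervalIntegrable (fun t : ℝ => NN (t + u)) volume a b :=
    fun a b => hm2.intervalIntegrable
  have hI3 : IntervalIntegrable (fun t : ℝ => NN (t + u) - NN t) volume T (9 / 4 * T) :=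
    (hI2 _ _).sub (hI _ _)
  have hfi : IntervalIntegrable f volume T (9 / 4 * T) := hI3.sub intervalIntegrable_const
  have hTS : T ≤ 9 / 4 * T := by linarith
  have hneg : IntervalIntegrable (fun t => max (-f t) 0) volume T (9 / 4 * T) := by
    rw [intervalIntegrable_iff_integrableOn_Ioc_of_le hTS] at hfi ⊢
    exact Integrable.neg_part hfi
  have hsplit : ∫ t in T..(9 / 4 * T), max (NN (t + u) - NN t - b) 0 =
      (∫ t in T..(9 / 4 * T), f t) + ∫ t in T..(9 / 4 * T), max (-f t) 0 := by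
    rw [← intervalIntegral.integral_add hfi hneg]
    apply intervalIntegral.integral_congr
    intro t _
    simp only [hf]
    rcases le_total 0 (NN (t + u) - NN t - b) with h | h
    · rw [max_eq_left h, max_eq_right (by linarith), add_zero]
    · rw [max_eq_right h, max_eq_left (by linarith)]
      ring
  rw [hsplit]
  -- the mean value
  have hmean : ∫ t in T..(9 / 4 * T), f t ≤ ε / 4 * b * T := by
    have e1 : ∫ t in T..(9 / 4 * T), f t =
        (∫ t in T..(9 / 4 * T), (NN (t + u) - NN t)) - (9 / 4 * T - T) * b := by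
      rw [hf, intervalIntegral.integral_sub hI3 intervalIntegrable_const,
        intervalIntegral.integral_const, smul_eq_mul]
    have e3 := bnu_mean hT2 hb0 hu0 hu1 hu hul hCh hTε
      (hnn T (9 / 4 * T + u) hT2 (by linarith) (by linarith))
    rw [e1]
    linarith
  -- the exceptional set
  obtain ⟨G, hGm, hGs, hGv, hG⟩ := h3 T g1
  have hY := h4 T g2 u hu0 hu1
  rw [hul] at hY
  set E1 : Set ℝ := Icc T (3 * T) \ G with hE1
  set E2 : Set ℝ := (fun t => t + u) ⁻¹' E1 with hE2
  set E3 : Set ℝ := {t : ℝ | t ∈ Icc T (11 / 4 * T) ∧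
        A * Real.sqrt (Real.log (2 + 2 * Real.pi * b)) < |YY δ W₀ T (t + u) - YY δ W₀ T t|} with hE3
  have hE2v : volume E2 ≤ ENNReal.ofReal (ε / 64 * T) := by
    rw [hE2, measure_preimage_add_right]
    exact hGv
  have hEv : volume (E1 ∪ E2 ∪ E3) ≤ ENNReal.ofReal (3 * ε / 64 * T) := by
    have e0 : (0 : ℝ) ≤ ε / 64 * T := by positivity
    calc volume (E1 ∪ E2 ∪ E3) ≤ volume (E1 ∪ E2) + volume E3 := measure_union_le _ _
      _ ≤ volume E1 + volume E2 + volume E3 := by gcongr; exact measure_union_le _ _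
      _ ≤ ENNReal.ofReal (ε / 64 * T) + ENNReal.ofReal (ε / 64 * T) + ENNReal.ofReal (ε / 64 * T) := by
          gcongr
      _ = ENNReal.ofReal (3 * ε / 64 * T) := by
          rw [← ENNReal.ofReal_add e0 e0, ← ENNReal.ofReal_add (by linarith) e0]
          congr 1
          ring
  have hDint : ∫ t in T..(9 / 4 * T), max (-f t) 0 ≤ (9 / 4 * T - T) * M + (3 * ε / 64 * T) * b := by
    apply bnu_exc hTS hb0.le (by positivity) (fun t => max (-f t) 0) (E1 ∪ E2 ∪ E3) hEv hneg _ _ hM0
    · intro t ht hnot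
      have n1 : t ∉ E1 := fun h => hnot (Or.inl (Or.inl h))
      have n2 : t ∉ E2 := fun h => hnot (Or.inl (Or.inr h))
      have n3 : t ∉ E3 := fun h => hnot (Or.inr h)
      have m1 : t ∈ Icc T (3 * T) := ⟨ht.1.le, by linarith [ht.2]⟩
      have m2 : t + u ∈ Icc T (3 * T) := ⟨by linarith [ht.1], by linarith [ht.2]⟩
      have tG : t ∈ G := by
        by_contra h
        exact n1 ⟨m1, h⟩
      have tuG : t + u ∈ G := by
        by_contra h
        exact n2 (show t + u ∈ E1 from ⟨m2, h⟩)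
      have k1 := hG t tG (t + u) tuG (by linarith)
      have k2 : |YY δ W₀ T (t + u) - YY δ W₀ T t| ≤ A * Real.sqrt (Real.log (2 + 2 * Real.pi * b)) := by
        by_contra h
        exact n3 ⟨⟨ht.1.le, by linarith [ht.2]⟩, not_le.1 h⟩
      have k4 := bnu_pt hT2 ht.1 hu0 hu1 hul
      have k11 := abs_le.1 k1
      have k12 := abs_le.1 k2
      apply max_le _ hM0
      simp only [hf, hM]
      linarith [k11.1, k12.1]
    · intro t ht
      apply max_le _ hb0.le
      simp only [hf]
      have := bnu_mono (show t ≤ t + u by linarith)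
      linarith
  have hfin1 : (9 / 4 * T - T) * M ≤ ε / 4 * b * T := by
    have : 5 / 4 * M * T ≤ ε / 4 * b * T := mul_le_mul_of_nonneg_right hMb hT0.le
    linarith
  have hpos : 0 ≤ ε * b * T := by positivity
  nlinarith

end Pool.Agent.Lib.MP_ec260d_ntB
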