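import Mathlib
import Pool.Agent.Lib.MP_ec260d_ntB.Defs

/-!
# Definitions for module III (local density of the increments of the prime sums)
-/

namespace Pool.Agent.Lib.MP_ec260d_ntB

open Complex Set Filter Topology MeasureTheory

noncomputable section

/-- completely multiplicative extension of the function `z` on primes -/
def cm (z : ℕ → ℂ) (n : ℕ) : ℂ := n.factorization.prod (fun p k => z p ^ k)

/-- `g` is, on families `z` of complex numbers of absolute value one, a trigonometric polynomial in the `z p`,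
`p ∈ S`, with frequencies `a / b`, `a, b ≤ H`, sum of absolute values of the coefficients at most `B` and mean `m` -/
def Rep (S : Finset ℕ) (H B : ℝ) (m : ℂ) (g : (ℕ → ℂ) → ℂ) : Prop :=
  ∃ (ι : Type) (_ : Fintype ι) (a b : ι → ℕ) (c : ι → ℂ),
    (∀ i, a i ≠ 0 ∧ b i ≠ 0 ∧ (a i : ℝ) ≤ H ∧ (b i : ℝ) ≤ H ∧
      (a i).primeFactors ⊆ S ∧ (b i).primeFactors ⊆ S) ∧
    (∑ i, ‖c i‖ ≤ B) ∧
    (∑ i, if a i = b i then c i else 0) = m ∧
    ∀ z : ℕ → ℂ, (∀ p, ‖z p‖ = 1) →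
      g z = ∑ i, c i * cm z (a i) * (starRingEnd ℂ) (cm z (b i))

/-- `p ^ (- i t)` -/
def zt (t : ℝ) (p : ℕ) : ℂ := cexp (-((t * Real.log p : ℝ) : ℂ) * I)

/-- the point of the torus with coordinates `exp (2 π i θ p)`, `p ∈ S` -/
def zth (S : Finset ℕ) (θ : S → ℝ) (p : ℕ) : ℂ :=
  if h : p ∈ S then cexp (((2 * Real.pi * θ ⟨p, h⟩ : ℝ) : ℂ) * I) else 1

/-- Lebesgue measure on the torus with coordinates in `S` -/
def mth (S : Finset ℕ) : Measure (S → ℝ) :=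
  Measure.pi (fun _ => (volume : Measure ℝ).restrict (Ioc 0 1))

/-- truncated exponential series -/
def ex (d : ℕ) (z : ℂ) : ℂ := ∑ r ∈ Finset.range (d + 1), z ^ r / (r.factorial : ℂ)

/-- Bessel function, `∫ exp (i Im (w e(x))) dx` -/
def Jw (w : ℂ) : ℂ :=
  ∫ x in (0 : ℝ)..1, cexp (((w * cexp (((2 * Real.pi * x : ℝ) : ℂ) * I)).im : ℂ) * I)

/-- real trigonometric polynomial with coefficients `u` -/
def TH (S : Finset ℕ) (u z : ℕ → ℂ) : ℝ := (∑ p ∈ S, u p * z p).im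

/-- the coefficient of `p ^ (-i t)` -/
def uu (W T : ℝ) {k : ℕ} (w : ℕ → ℝ) (ζ : Fin k → ℝ) (p : ℕ) : ℂ :=
  ((1 / Real.pi * (p : ℝ) ^ (-(1 / 2 + W / Real.log T)) : ℝ) : ℂ) *
    ∑ i : Fin k, ((ζ i : ℝ) : ℂ) * (zt (hT T * w ((i : ℕ) + 1)) p - zt (hT T * w (i : ℕ)) p)

/-- the combination of increments of the `j`-th block -/
def Thj (δ W T : ℝ) {k : ℕ} (w : ℕ → ℝ) (ζ : Fin k → ℝ) (j : ℕ) (t : ℝ) : ℝ :=
  ∑ i : Fin k, ζ i * (YB δ W T j (t + hT T * w ((i : ℕ) + 1)) - YB δ W T j (t + hT T * w (i : ℕ)))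

/-- the variance -/
def VV (δ W T : ℝ) {k : ℕ} (w : ℕ → ℝ) (ζ : Fin k → ℝ) : ℝ :=
  ∑ j ∈ Finset.range (JJ T), ∑ p ∈ Pr δ T j, ‖uu W T w ζ p‖ ^ 2

/-- product of the truncated exponentials of the blocks -/
def GG (δ W T : ℝ) {k : ℕ} (w : ℕ → ℝ) (ζ : Fin k → ℝ) (t : ℝ) : ℂ :=
  ∏ j ∈ Finset.range (JJ T), ex (dd δ j) (((Thj δ W T w ζ j t : ℝ) : ℂ) * I)

/-- the box `[-1,1]^k` -/
def box (k : ℕ) : Set (Fin k → ℝ) := Set.pi Set.univ (fun _ => Icc (-1 : ℝ) 1)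

/-- the smoothed detector of the event -/
def FF (δ W T : ℝ) {k : ℕ} (w : ℕ → ℝ) (y : Fin k → ℝ) (K t : ℝ) : ℂ :=
  ∫ ξ in box k, ((∏ i : Fin k, (1 - |ξ i|) : ℝ) : ℂ) *
    cexp (-((∑ i : Fin k, ξ i * y i / K : ℝ) : ℂ) * I) * GG δ W T w (fun i => ξ i / K) t

end

end Pool.Agent.Lib.MP_ec260d_ntB
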