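import Mathlib
import Pool.Agent.Lib.MP_ec260d_ntB.CDefs

/-!
# CAvg: averages over intervals of trigonometric polynomials in `p^(-it)`

`cm_zt`: `cm (zt t) n = exp (-i t log n)` for `n ≠ 0` (`log n = ∑ v_p(n) log p`; `Nat.factorization_prod_pow_eq_self`, `Real.log_prod`..., or induction
on prime multiplication with `Nat.recOnMul`).

`avg`: by the representation, `g (zt t) = ∑ c_i exp (-i t (log a_i - log b_i))`. The terms with `a_i = b_i` give `(b - a) m` after integration. For the others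
`|log a_i - log b_i| ≥ 1 / max (a_i, b_i) ≥ 1 / H` (for `1 ≤ x < y` integers: `log (y/x) ≥ 1 - x/y ≥ 1/y`), so
`|∫_a^b exp (-i t λ) dt| ≤ 2/|λ| ≤ 2 H`. Sum: `≤ 2 H B`.
-/

namespace Pool.Agent.Lib.MP_ec260d_ntB

open Complex Set Filter Topology MeasureTheory

theorem zt_norm (t : ℝ) (p : ℕ) : ‖zt t p‖ = 1 := by
  have h : -((t * Real.log p : ℝ) : ℂ) * I = ((-(t * Real.log p) : ℝ) : ℂ) * I := by
    push_cast
    ring
  unfold zt
  rw [h]
  exact Complex.norm_exp_ofReal_mul_I _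

theorem cm_zt (t : ℝ) {n : ℕ} (hn : n ≠ 0) : cm (zt t) n = zt t n := by
  have hlog : Real.log n = n.factorization.sum (fun p k => (k : ℝ) * Real.log p) :=
    Real.log_nat_eq_sum_factorization n
  unfold cm zt
  rw [hlog]
  unfold Finsupp.prod Finsupp.sum
  have h : -((t * ∑ p ∈ n.factorization.support, (n.factorization p : ℝ) * Real.log p : ℝ) : ℂ) * I =
      ∑ p ∈ n.factorization.support, (n.factorization p : ℂ) * (-((t * Real.log p : ℝ) : ℂ) * I) := by
    push_cast
    rw [Finset.mul_sum, ← Finset.sum_neg_distrib, Finset.sum_mul]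
    refine Finset.sum_congr rfl ?_
    intro p _
    ring
  rw [h, Complex.exp_sum]
  refine Finset.prod_congr rfl ?_
  intro p _
  exact (Complex.exp_nat_mul _ _).symm

private theorem cavg_log {a b : ℕ} {H : ℝ} (ha : a ≠ 0) (hb : (b : ℝ) ≤ H) (hab : a < b) :
    1 / H ≤ Real.log b - Real.log a := by
  have ha' : (0 : ℝ) < a := by exact_mod_cast Nat.pos_of_ne_zero ha
  have hb' : (0 : ℝ) < b := by
    have : (a : ℝ) < b := by exact_mod_cast hab
    linarith
  have h1 : (a : ℝ) + 1 ≤ b := by exact_mod_cast hab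
  have h2 : 1 - ((b : ℝ) / a)⁻¹ ≤ Real.log ((b : ℝ) / a) :=
    Real.one_sub_inv_le_log_of_pos (by positivity)
  rw [Real.log_div hb'.ne' ha'.ne', inv_div] at h2
  have h3 : 1 / (b : ℝ) ≤ 1 - (a : ℝ) / b := by
    rw [div_le_iff₀ hb', sub_mul, div_mul_cancel₀ _ hb'.ne']
    linarith
  have h4 : 1 / H ≤ 1 / (b : ℝ) := one_div_le_one_div_of_le hb' hb
  linarith

private theorem cavg_log_abs {a b : ℕ} {H : ℝ} (ha : a ≠ 0) (hb : b ≠ 0) (haH : (a : ℝ) ≤ H)
    (hbH : (b : ℝ) ≤ H) (hab : a ≠ b) : 1 / H ≤ |Real.log a - Real.log b| := by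
  rcases lt_or_gt_of_ne hab with h | h
  · have h1 := cavg_log ha hbH h
    have h2 : Real.log b - Real.log a ≤ |Real.log a - Real.log b| := by
      rw [abs_sub_comm]
      exact le_abs_self _
    linarith
  · have h1 := cavg_log hb haH h
    have h2 := le_abs_self (Real.log a - Real.log b)
    linarith

private theorem cavg_term (t : ℝ) (a b : ℕ) :
    zt t a * (starRingEnd ℂ) (zt t b) =
      cexp ((-((Real.log a - Real.log b : ℝ) : ℂ) * I) * (t : ℂ)) := by
  unfold zt
  rw [← Complex.exp_conj, ← Complex.exp_add]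
  refine congrArg cexp ?_
  rw [map_mul, map_neg, Complex.conj_ofReal, Complex.conj_I]
  push_cast
  ring

private theorem cavg_int {l H : ℝ} (hH : 1 ≤ H) (hl : 1 / H ≤ |l|) (a b : ℝ) :
    ‖∫ t in a..b, cexp ((-((l : ℝ) : ℂ) * I) * (t : ℂ))‖ ≤ 2 * H := by
  have hHp : 0 < H := by linarith
  have hlp : 0 < |l| := lt_of_lt_of_le (by positivity) hl
  have hl0 : l ≠ 0 := abs_pos.1 hlp
  have hc : (-((l : ℝ) : ℂ) * I) ≠ 0 := by
    refine mul_ne_zero ?_ Complex.I_ne_zero
    exact neg_ne_zero.2 (by exact_mod_cast hl0)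
  rw [integral_exp_mul_complex hc, norm_div]
  have hn : ‖(-((l : ℝ) : ℂ) * I)‖ = |l| := by
    rw [norm_mul, norm_neg, Complex.norm_I, mul_one, Complex.norm_real, Real.norm_eq_abs]
  have he : ∀ x : ℝ, ‖cexp ((-((l : ℝ) : ℂ) * I) * (x : ℂ))‖ = 1 := by
    intro x
    have h : (-((l : ℝ) : ℂ) * I) * (x : ℂ) = ((-(l * x) : ℝ) : ℂ) * I := by
      push_cast
      ring
    rw [h]
    exact Complex.norm_exp_ofReal_mul_I _
  rw [hn, div_le_iff₀ hlp]
  have h1 : ‖cexp ((-((l : ℝ) : ℂ) * I) * (b : ℂ)) - cexp ((-((l : ℝ) : ℂ) * I) * (a : ℂ))‖ ≤ 2 := by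
    refine (norm_sub_le _ _).trans ?_
    rw [he, he]
    norm_num
  have h2 : 1 ≤ H * |l| := by
    have := mul_le_mul_of_nonneg_left hl hHp.le
    rwa [mul_one_div_cancel hHp.ne'] at this
  nlinarith

theorem avg {S : Finset ℕ} {H B : ℝ} {m : ℂ} {g : (ℕ → ℂ) → ℂ} (h : Rep S H B m g)
    (hH : 1 ≤ H) (a b : ℝ) (hab : a ≤ b) :
    ‖(∫ t in a..b, g (zt t)) - ((b - a : ℝ) : ℂ) * m‖ ≤ 2 * H * B := by
  obtain ⟨ι, hι, A, C, c, h1, h2, h3, h4⟩ := h
  have hg : ∀ t : ℝ, g (zt t) =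
      ∑ i, c i * cexp ((-((Real.log (A i) - Real.log (C i) : ℝ) : ℂ) * I) * (t : ℂ)) := by
    intro t
    rw [h4 (zt t) (zt_norm t)]
    refine Finset.sum_congr rfl ?_
    intro i _
    rw [cm_zt t (h1 i).1, cm_zt t (h1 i).2.1, mul_assoc, cavg_term]
  have hI : (∫ t in a..b, g (zt t)) =
      ∑ i, c i * ∫ t in a..b, cexp ((-((Real.log (A i) - Real.log (C i) : ℝ) : ℂ) * I) * (t : ℂ)) := by
    have e1 : (∫ t in a..b, g (zt t)) = ∫ t in a..b,
        ∑ i, c i * cexp ((-((Real.log (A i) - Real.log (C i) : ℝ) : ℂ) * I) * (t : ℂ)) := by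
      refine intervalIntegral.integral_congr ?_
      intro t _
      exact hg t
    rw [e1, intervalIntegral.integral_finsetSum]
    · refine Finset.sum_congr rfl ?_
      intro i _
      exact intervalIntegral.integral_const_mul _ _
    · intro i _
      refine Continuous.intervalIntegrable ?_ _ _
      fun_prop
  have hm : ((b - a : ℝ) : ℂ) * m = ∑ i, c i * (if A i = C i then ((b - a : ℝ) : ℂ) else 0) := by
    rw [← h3, Finset.mul_sum]
    refine Finset.sum_congr rfl ?_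
    intro i _
    by_cases hi : A i = C i
    · rw [if_pos hi, if_pos hi]
      ring
    · rw [if_neg hi, if_neg hi]
      ring
  rw [hI, hm, ← Finset.sum_sub_distrib]
  have hHp : 0 ≤ 2 * H := by linarith
  calc ‖∑ i, (c i * (∫ t in a..b, cexp ((-((Real.log (A i) - Real.log (C i) : ℝ) : ℂ) * I) * (t : ℂ))) -
        c i * (if A i = C i then ((b - a : ℝ) : ℂ) else 0))‖
      ≤ ∑ i, ‖c i * (∫ t in a..b, cexp ((-((Real.log (A i) - Real.log (C i) : ℝ) : ℂ) * I) * (t : ℂ))) -
        c i * (if A i = C i then ((b - a : ℝ) : ℂ) else 0)‖ := norm_sum_le _ _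
    _ ≤ ∑ i, 2 * H * ‖c i‖ := by
        refine Finset.sum_le_sum ?_
        intro i _
        rw [← mul_sub, norm_mul, mul_comm]
        refine mul_le_mul_of_nonneg_right ?_ (norm_nonneg _)
        by_cases hi : A i = C i
        · rw [if_pos hi, hi, sub_self]
          have e2 : (∫ t in a..b, cexp ((-((0 : ℝ) : ℂ) * I) * (t : ℂ))) = ((b - a : ℝ) : ℂ) := by
            have e3 : ∀ t : ℝ, cexp ((-((0 : ℝ) : ℂ) * I) * (t : ℂ)) = 1 := by
              intro t
              rw [Complex.ofReal_zero, neg_zero, zero_mul, zero_mul, Complex.exp_zero]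
            rw [intervalIntegral.integral_congr (g := fun _ => (1 : ℂ)) (fun t _ => e3 t)]
            rw [intervalIntegral.integral_const]
            rw [Complex.real_smul, mul_one]
          rw [e2, sub_self, norm_zero]
          exact hHp
        · rw [if_neg hi, sub_zero]
          exact cavg_int hH (cavg_log_abs (h1 i).1 (h1 i).2.1 (h1 i).2.2.1 (h1 i).2.2.2.1 hi) a b
    _ = 2 * H * ∑ i, ‖c i‖ := by rw [Finset.mul_sum]
    _ ≤ 2 * H * B := mul_le_mul_of_nonneg_left h2 hHp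

end Pool.Agent.Lib.MP_ec260d_ntB
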