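import Mathlib

/-!
# CPr: sums over primes

Chebyshev. For real `u ≥ 2`: the primes in `(u, 2u]` all divide `primorial ⌊2u⌋ ≤ 4 ^ ⌊2u⌋` (`primorial_le_four_pow` or similar in Mathlib), so
(number of them) * log u ≤ 2 u log 4, hence sum of `1/p` over them `≤ 2 log 4 / log u`.

`block_sum`: `S ⊆ (y, y^e]`. Cut into dyadic pieces `(y 2^r, y 2^(r+1)]`, `0 ≤ r ≤ R`, `R = ⌈(e - 1) log y / log 2⌉`. Each piece gives at most
`2 log 4 / log y`; there are at most `(e - 1) log y / log 2 + 2` pieces and `log y ≥ log 2`, so the total is at most an absolute constant.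

`log_ratio_sum`: cut `(y, x]` at `y^(e^m)`, `m = 0, 1, ..`: at most `1 + log (log x / log y) + 1` pieces, use `block_sum` for each.

`tail_sum`: pieces `(y^(e^m), y^(e^(m+1))]`, `m ≥ 0` (finitely many are needed as `S` is finite):
on the `m`-th piece `p^(-σ) ≤ exp (-σ log y e^m) ≤ exp (-c e^m) ≤ exp (-c (1 + m))`, so the sum is `≤ C₁ ∑_m exp (-c (1 + m)) ≤ C₁ / (1 - exp (-c))`.

`sq_sum`: `1/p^2 ≤ 1/(p-1) - 1/p`, telescoping (or compare with the tail of the series).
-/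

namespace Pool.Agent.Lib.MP_ec260d_ntB

open Complex Set Filter Topology MeasureTheory

private theorem cpr_theta (n : ℕ) (S : Finset ℕ) (hS : ∀ p ∈ S, p.Prime ∧ p ≤ n) :
    ∑ p ∈ S, Real.log p ≤ Real.log 4 * n := by
  have h1 := Chebyshev.theta_le_log4_mul_x (x := (n : ℝ)) (Nat.cast_nonneg n)
  have h2 := Chebyshev.theta_eq_sum_primesLE_log n
  rw [h2] at h1
  refine le_trans (Finset.sum_le_sum_of_subset_of_nonneg ?_ ?_) h1
  · intro p hp
    rw [Nat.mem_primesLE]
    exact ⟨(hS p hp).2, (hS p hp).1⟩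
  · intro p _ _
    exact Real.log_natCast_nonneg p

private theorem cpr_div (e : ℕ) (S : Finset ℕ) (hS : ∀ p ∈ S, p.Prime) :
    ∑ p ∈ S with p ∣ e + 1, Real.log p ≤ Real.log ((e + 1 : ℕ) : ℝ) := by
  have h1 : ∑ p ∈ S with p ∣ e + 1, Real.log p ≤ ∑ p ∈ (e + 1).primeFactors, Real.log p := by
    refine Finset.sum_le_sum_of_subset_of_nonneg ?_ ?_
    · intro p hp
      rw [Finset.mem_filter] at hp
      exact Nat.mem_primeFactors.2 ⟨hS p hp.1, hp.2, Nat.succ_ne_zero e⟩
    · intro p _ _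
      exact Real.log_natCast_nonneg p
  refine h1.trans ?_
  rw [← Real.log_prod (fun p hp => by
    exact_mod_cast (Nat.prime_of_mem_primeFactors hp).ne_zero)]
  have h2 : ∏ p ∈ (e + 1).primeFactors, (p : ℝ) = ((∏ p ∈ (e + 1).primeFactors, p : ℕ) : ℝ) := by
    push_cast
    rfl
  rw [h2]
  have h3 := Nat.le_of_dvd (Nat.succ_pos e) (Nat.prod_primeFactors_dvd (e + 1))
  have h4 : 0 < ∏ p ∈ (e + 1).primeFactors, p :=
    Finset.prod_pos (fun p hp => (Nat.prime_of_mem_primeFactors hp).pos)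
  exact Real.log_le_log (by exact_mod_cast h4) (by exact_mod_cast h3)

private theorem cpr_fact (n : ℕ) (S : Finset ℕ) (hS : ∀ p ∈ S, p.Prime) :
    ∑ p ∈ S, ((n / p : ℕ) : ℝ) * Real.log p ≤ n * Real.log n := by
  have h1 : ∑ p ∈ S, ((n / p : ℕ) : ℝ) * Real.log p =
      ∑ e ∈ Finset.range n, ∑ p ∈ S with p ∣ e + 1, Real.log p := by
    have h2 : ∀ p ∈ S, ((n / p : ℕ) : ℝ) * Real.log p =
        ∑ e ∈ Finset.range n, if p ∣ e + 1 then Real.log p else 0 := by
      intro p _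
      rw [← Finset.sum_filter, Finset.sum_const, Nat.card_multiples, nsmul_eq_mul]
    rw [Finset.sum_congr rfl h2, Finset.sum_comm]
    refine Finset.sum_congr rfl (fun e _ => ?_)
    rw [Finset.sum_filter]
  rw [h1]
  calc ∑ e ∈ Finset.range n, ∑ p ∈ S with p ∣ e + 1, Real.log p
      ≤ ∑ e ∈ Finset.range n, Real.log n := by
        refine Finset.sum_le_sum (fun e he => (cpr_div e S hS).trans ?_)
        have h3 : e + 1 ≤ n := Finset.mem_range.1 he
        exact Real.log_le_log (by positivity) (by exact_mod_cast h3)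
    _ = n * Real.log n := by
        rw [Finset.sum_const, Finset.card_range, nsmul_eq_mul]

/-- the upper bound of the first theorem of Mertens -/
private theorem cpr_mertens {n : ℕ} (hn : 1 ≤ n) (S : Finset ℕ) (hS : ∀ p ∈ S, p.Prime ∧ p ≤ n) :
    ∑ p ∈ S, Real.log p / p ≤ Real.log n + Real.log 4 := by
  have hn0 : (0 : ℝ) < n := by exact_mod_cast hn
  have h1 := cpr_fact n S (fun p hp => (hS p hp).1)
  have h2 := cpr_theta n S hS
  have h3 : (n : ℝ) * ∑ p ∈ S, Real.log p / p ≤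
      ∑ p ∈ S, ((n / p : ℕ) : ℝ) * Real.log p + ∑ p ∈ S, Real.log p := by
    rw [Finset.mul_sum, ← Finset.sum_add_distrib]
    refine Finset.sum_le_sum (fun p hp => ?_)
    have hp0 : (0 : ℝ) < p := by exact_mod_cast (hS p hp).1.pos
    have hl : 0 ≤ Real.log p := Real.log_natCast_nonneg p
    have h4 : n ≤ p * (n / p) + p := (Nat.lt_mul_div_succ n (hS p hp).1.pos).le
    have h5 : (n : ℝ) ≤ p * ((n / p : ℕ) : ℝ) + p := by exact_mod_cast h4
    rw [← mul_div_assoc, div_le_iff₀ hp0]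
    nlinarith
  have h6 : (n : ℝ) * ∑ p ∈ S, Real.log p / p ≤ n * (Real.log n + Real.log 4) := by
    nlinarith
  exact le_of_mul_le_mul_left h6 hn0

theorem block_sum : ∃ C : ℝ, 1 ≤ C ∧ ∀ y : ℝ, 2 ≤ y → ∀ S : Finset ℕ,
    (∀ p ∈ S, p.Prime ∧ y < (p : ℝ) ∧ (p : ℝ) ≤ y ^ (Real.exp 1)) →
      ∑ p ∈ S, (1 / (p : ℝ)) ≤ C := by
  refine ⟨Real.exp 1 + 2, ?_, ?_⟩
  · have h := Real.exp_pos 1
    linarith
  intro y hy S hS
  have hl2 : 0 < Real.log 2 := Real.log_pos (by norm_num)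
  have hly : Real.log 2 ≤ Real.log y := Real.log_le_log (by norm_num) hy
  have hly0 : 0 < Real.log y := lt_of_lt_of_le hl2 hly
  have hy1 : (1 : ℝ) ≤ y ^ (Real.exp 1) := Real.one_le_rpow (by linarith) (Real.exp_pos 1).le
  have hn : 1 ≤ ⌊y ^ (Real.exp 1)⌋₊ := Nat.le_floor (by rw [Nat.cast_one]; exact hy1)
  have h1 := cpr_mertens hn S (fun p hp => ⟨(hS p hp).1, Nat.le_floor (hS p hp).2.2⟩)
  have h2 : Real.log ((⌊y ^ (Real.exp 1)⌋₊ : ℕ) : ℝ) ≤ Real.exp 1 * Real.log y := by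
    rw [← Real.log_rpow (by linarith)]
    exact Real.log_le_log (by exact_mod_cast hn) (Nat.floor_le (by linarith))
  have h4 : Real.log 4 = 2 * Real.log 2 := by
    have e : (4 : ℝ) = 2 ^ 2 := by norm_num
    rw [e, Real.log_pow]
    push_cast
    ring
  have h5 : Real.log y * ∑ p ∈ S, (1 / (p : ℝ)) ≤ ∑ p ∈ S, Real.log p / p := by
    rw [Finset.mul_sum]
    refine Finset.sum_le_sum (fun p hp => ?_)
    have hp0 : (0 : ℝ) < p := by exact_mod_cast (hS p hp).1.pos
    rw [mul_one_div]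
    exact div_le_div_of_nonneg_right (Real.log_le_log (by linarith) (hS p hp).2.1.le) hp0.le
  have h6 : Real.log y * ∑ p ∈ S, (1 / (p : ℝ)) ≤ Real.log y * (Real.exp 1 + 2) := by
    nlinarith
  exact le_of_mul_le_mul_left h6 hly0

/-- the number of the piece of `p` -/
private noncomputable def cpr_m (y : ℝ) (p : ℕ) : ℕ := ⌈Real.log (Real.log p / Real.log y)⌉₊ - 1

private theorem cpr_m_spec {y : ℝ} (hy : 2 ≤ y) {p : ℕ} (hp : y < (p : ℝ)) :
    y ^ (Real.exp (cpr_m y p)) < (p : ℝ) ∧ (p : ℝ) ≤ (y ^ (Real.exp (cpr_m y p))) ^ (Real.exp 1) ∧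
    cpr_m y p + 1 = ⌈Real.log (Real.log p / Real.log y)⌉₊ := by
  have hy0 : 0 < y := by linarith
  have hp0 : (0 : ℝ) < p := by linarith
  have hly : 0 < Real.log y := Real.log_pos (by linarith)
  have hlp : Real.log y < Real.log p := Real.log_lt_log hy0 hp
  have hr : 1 < Real.log p / Real.log y := (one_lt_div hly).2 hlp
  have hL : 0 < Real.log (Real.log p / Real.log y) := Real.log_pos hr
  have hc : 1 ≤ ⌈Real.log (Real.log p / Real.log y)⌉₊ := Nat.one_le_ceil_iff.2 hL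
  have hm : cpr_m y p + 1 = ⌈Real.log (Real.log p / Real.log y)⌉₊ := by
    unfold cpr_m
    omega
  have h1 : Real.log (Real.log p / Real.log y) ≤ (cpr_m y p : ℝ) + 1 := by
    have h := Nat.le_ceil (Real.log (Real.log p / Real.log y))
    rw [← hm] at h
    push_cast at h
    exact h
  have h2 : (cpr_m y p : ℝ) < Real.log (Real.log p / Real.log y) := by
    have h : cpr_m y p < ⌈Real.log (Real.log p / Real.log y)⌉₊ := by omega
    exact Nat.lt_ceil.1 h
  have h3 : Real.exp (cpr_m y p) < Real.log p / Real.log y := by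
    rw [Real.lt_log_iff_exp_lt (by linarith)] at h2
    exact h2
  have h4 : Real.log p / Real.log y ≤ Real.exp ((cpr_m y p : ℝ) + 1) := by
    rw [Real.log_le_iff_le_exp (by linarith)] at h1
    exact h1
  rw [lt_div_iff₀ hly] at h3
  rw [div_le_iff₀ hly] at h4
  refine ⟨?_, ?_, hm⟩
  · rw [← Real.log_lt_log_iff (Real.rpow_pos_of_pos hy0 _) hp0, Real.log_rpow hy0]
    exact h3
  · rw [← Real.rpow_mul hy0.le, ← Real.exp_add,
      ← Real.log_le_log_iff hp0 (Real.rpow_pos_of_pos hy0 _), Real.log_rpow hy0]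
    exact h4

private theorem cpr_ge {y : ℝ} (hy : 2 ≤ y) (m : ℕ) : 2 ≤ y ^ (Real.exp m) := by
  refine hy.trans ?_
  have h : y ^ (1 : ℝ) ≤ y ^ (Real.exp m) :=
    Real.rpow_le_rpow_of_exponent_le (by linarith) (Real.one_le_exp (Nat.cast_nonneg m))
  rwa [Real.rpow_one] at h

theorem log_ratio_sum : ∃ C : ℝ, 1 ≤ C ∧ ∀ y x : ℝ, 2 ≤ y → y ≤ x → ∀ S : Finset ℕ,
    (∀ p ∈ S, p.Prime ∧ y < (p : ℝ) ∧ (p : ℝ) ≤ x) →
      ∑ p ∈ S, (1 / (p : ℝ)) ≤ C * (1 + Real.log (Real.log x / Real.log y)) := by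
  obtain ⟨C, hC, hb⟩ := block_sum
  refine ⟨C, hC, ?_⟩
  intro y x hy hx S hS
  have hly : 0 < Real.log y := Real.log_pos (by linarith)
  have hlx : Real.log y ≤ Real.log x := Real.log_le_log (by linarith) hx
  have hL : 0 ≤ Real.log (Real.log x / Real.log y) := Real.log_nonneg ((one_le_div hly).2 hlx)
  have hmap : ∀ p ∈ S, cpr_m y p ∈ Finset.range ⌈Real.log (Real.log x / Real.log y)⌉₊ := by
    intro p hp
    obtain ⟨-, -, h3⟩ := cpr_m_spec hy (hS p hp).2.1
    have hp0 : (0 : ℝ) < p := by linarith [(hS p hp).2.1]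
    have hlp : Real.log y < Real.log p := Real.log_lt_log (by linarith) (hS p hp).2.1
    have h4 : ⌈Real.log (Real.log p / Real.log y)⌉₊ ≤ ⌈Real.log (Real.log x / Real.log y)⌉₊ := by
      apply Nat.ceil_mono
      apply Real.log_le_log (div_pos (by linarith) hly)
      exact div_le_div_of_nonneg_right (Real.log_le_log hp0 (hS p hp).2.2) hly.le
    rw [Finset.mem_range]
    omega
  rw [← Finset.sum_fiberwise_of_maps_to hmap]
  calc ∑ m ∈ Finset.range ⌈Real.log (Real.log x / Real.log y)⌉₊,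
        ∑ p ∈ S with cpr_m y p = m, (1 / (p : ℝ))
      ≤ ∑ m ∈ Finset.range ⌈Real.log (Real.log x / Real.log y)⌉₊, C := by
        refine Finset.sum_le_sum (fun m _ => hb (y ^ (Real.exp m)) (cpr_ge hy m) _ ?_)
        intro p hp
        rw [Finset.mem_filter] at hp
        obtain ⟨h1, h2, -⟩ := cpr_m_spec hy (hS p hp.1).2.1
        rw [hp.2] at h1 h2
        exact ⟨(hS p hp.1).1, h1, h2⟩
    _ = ⌈Real.log (Real.log x / Real.log y)⌉₊ * C := by
        rw [Finset.sum_const, Finset.card_range, nsmul_eq_mul]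
    _ ≤ (Real.log (Real.log x / Real.log y) + 1) * C := by
        exact mul_le_mul_of_nonneg_right (Nat.ceil_lt_add_one hL).le (by linarith)
    _ = C * (1 + Real.log (Real.log x / Real.log y)) := by ring

theorem tail_sum (c : ℝ) (hc : 0 < c) : ∃ C : ℝ, 0 < C ∧ ∀ y σ : ℝ, 2 ≤ y → 0 < σ →
    c ≤ σ * Real.log y → ∀ S : Finset ℕ, (∀ p ∈ S, p.Prime ∧ y < (p : ℝ)) →
      ∑ p ∈ S, (p : ℝ) ^ (-1 - σ) ≤ C := by
  obtain ⟨C, hC, hb⟩ := block_sum
  have hq0 : 0 ≤ Real.exp (-c) := (Real.exp_pos _).le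
  have hq1 : Real.exp (-c) < 1 := by
    rw [Real.exp_lt_one_iff]
    linarith
  refine ⟨C * (1 - Real.exp (-c))⁻¹, ?_, ?_⟩
  · exact mul_pos (by linarith) (inv_pos.2 (by linarith))
  intro y σ hy hσ hcs S hS
  have hy0 : 0 < y := by linarith
  have hly : 0 < Real.log y := Real.log_pos (by linarith)
  have hmap : ∀ p ∈ S, cpr_m y p ∈ Finset.range ((S.image (cpr_m y)).sup id + 1) := by
    intro p hp
    rw [Finset.mem_range]
    have h := Finset.le_sup (f := id) (Finset.mem_image_of_mem (cpr_m y) hp)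
    exact Nat.lt_succ_of_le h
  rw [← Finset.sum_fiberwise_of_maps_to hmap]
  generalize (S.image (cpr_m y)).sup id + 1 = N
  calc ∑ m ∈ Finset.range N, ∑ p ∈ S with cpr_m y p = m, (p : ℝ) ^ (-1 - σ)
      ≤ ∑ m ∈ Finset.range N, C * Real.exp (-c) ^ m := by
        refine Finset.sum_le_sum (fun m _ => ?_)
        have h1 : ∑ p ∈ S with cpr_m y p = m, (p : ℝ) ^ (-1 - σ) ≤
            ∑ p ∈ S with cpr_m y p = m, (1 / (p : ℝ)) * Real.exp (-c) ^ m := by
          refine Finset.sum_le_sum (fun p hp => ?_)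
          rw [Finset.mem_filter] at hp
          obtain ⟨h1, -, -⟩ := cpr_m_spec hy (hS p hp.1).2
          rw [hp.2] at h1
          have hp0 : (0 : ℝ) < p := by exact_mod_cast (hS p hp.1).1.pos
          have h2 : Real.exp m * Real.log y < Real.log p := by
            rw [← Real.log_rpow hy0]
            exact Real.log_lt_log (Real.rpow_pos_of_pos hy0 _) h1
          have h3 : (p : ℝ) ^ (-1 - σ) = (1 / (p : ℝ)) * Real.exp (-(σ * Real.log p)) := by
            rw [Real.rpow_def_of_pos hp0]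
            have e : Real.log p * (-1 - σ) = -Real.log p + -(σ * Real.log p) := by ring
            rw [e, Real.exp_add, Real.exp_neg, Real.exp_log hp0, one_div]
          rw [h3]
          refine mul_le_mul_of_nonneg_left ?_ (by positivity)
          rw [← Real.exp_nat_mul]
          apply Real.exp_le_exp.2
          have h4 : (m : ℝ) + 1 ≤ Real.exp m := Real.add_one_le_exp (m : ℝ)
          have h5 : c * m ≤ σ * Real.log p := by
            have h6 : σ * (Real.exp m * Real.log y) ≤ σ * Real.log p :=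
              mul_le_mul_of_nonneg_left h2.le hσ.le
            have h7 : c * m ≤ (σ * Real.log y) * Real.exp m :=
              mul_le_mul hcs (by linarith) (Nat.cast_nonneg m) (by positivity)
            nlinarith
          linarith
        refine h1.trans ?_
        rw [← Finset.sum_mul]
        refine mul_le_mul_of_nonneg_right ?_ (pow_nonneg hq0 m)
        refine hb (y ^ (Real.exp m)) (cpr_ge hy m) _ ?_
        intro p hp
        rw [Finset.mem_filter] at hp
        obtain ⟨h1, h2, -⟩ := cpr_m_spec hy (hS p hp.1).2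
        rw [hp.2] at h1 h2
        exact ⟨(hS p hp.1).1, h1, h2⟩
    _ = C * ∑ m ∈ Finset.range N, Real.exp (-c) ^ m := by rw [Finset.mul_sum]
    _ ≤ C * (1 - Real.exp (-c))⁻¹ := by
        refine mul_le_mul_of_nonneg_left ?_ (by linarith)
        rw [← tsum_geometric_of_lt_one hq0 hq1]
        exact (summable_geometric_of_lt_one hq0 hq1).sum_le_tsum _ (fun m _ => pow_nonneg hq0 m)

theorem sq_sum (S : Finset ℕ) (hS : ∀ p ∈ S, 10000 < p) :
    ∑ p ∈ S, (1 / (p : ℝ) ^ 2) ≤ 1 / 10000 := by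
  have h1 : S ⊆ Finset.Ioc 10000 (max 10000 (S.sup id)) := by
    intro p hp
    rw [Finset.mem_Ioc]
    exact ⟨hS p hp, le_max_of_le_right (Finset.le_sup (f := id) hp)⟩
  have h2 := sum_Ioc_inv_sq_le_sub (α := ℝ) (k := 10000) (n := max 10000 (S.sup id)) (by norm_num)
    (le_max_left _ _)
  have h3 : ∑ p ∈ S, (1 / (p : ℝ) ^ 2) ≤
      ∑ p ∈ Finset.Ioc 10000 (max 10000 (S.sup id)), ((p : ℝ) ^ 2)⁻¹ := by
    calc ∑ p ∈ S, (1 / (p : ℝ) ^ 2) = ∑ p ∈ S, ((p : ℝ) ^ 2)⁻¹ :=
          Finset.sum_congr rfl (fun p _ => one_div _)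
      _ ≤ _ := Finset.sum_le_sum_of_subset_of_nonneg h1 (fun p _ _ => by positivity)
  refine (h3.trans h2).trans ?_
  have h4 : (0 : ℝ) ≤ ((max 10000 (S.sup id) : ℕ) : ℝ)⁻¹ := by positivity
  have h5 : (((10000 : ℕ) : ℝ))⁻¹ = 1 / 10000 := by norm_num
  rw [h5]
  linarith

end Pool.Agent.Lib.MP_ec260d_ntB
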