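import Mathlib

/-!
# CZ: sums over all primes near `s = 1`

For `Re s > 1`: `exp (∑' p, -log (1 - p^(-s))) = ζ(s)` (`riemannZeta_eulerProduct_exp_log`), so `log |ζ(s)| = ∑' p, Re (-log (1 - p^(-s)))`.
`|-log (1 - z) - z| ≤ |z|^2` for `|z| ≤ 1/2` (`Complex.norm_log_one_sub_inv_sub_self_le` or similar), and `∑ p^(-2)` converges, so
`|∑' p, Re p^(-s) - log |ζ(s)|| ≤ C` for `Re s > 1`. Here `s = 1 + σ + iτ`, `Re p^(-s) = p^(-1-σ) cos (τ log p)`.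

`(s - 1) ζ(s)` is continuous (value 1 at `s = 1`; `riemannZeta_residue_one`, `differentiableAt_riemannZeta`) and nonzero (`riemannZeta_ne_zero_of_one_le_re`) on the compact set
`{1 + σ + iτ : 0 ≤ σ ≤ 1, |τ| ≤ C₂}`, so `log |ζ(s)| = - log |σ + iτ| + O(1)` there.
-/

namespace Pool.Agent.Lib.MP_ec260d_ntB

open Complex Set Filter Topology MeasureTheory

private theorem cz_re (p : Nat.Primes) (σ τ : ℝ) :
    (((p : ℕ) : ℂ) ^ (-(1 + (σ : ℂ) + (τ : ℂ) * I))).re =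
      ((p : ℕ) : ℝ) ^ (-1 - σ) * Real.cos (τ * Real.log ((p : ℕ) : ℝ)) := by
  have hp : (0 : ℝ) < ((p : ℕ) : ℝ) := by exact_mod_cast p.2.pos
  have hp0 : ((p : ℕ) : ℂ) ≠ 0 := by exact_mod_cast p.2.ne_zero
  rw [Complex.cpow_def_of_ne_zero hp0, ← Complex.natCast_log, Complex.exp_re, Real.rpow_def_of_pos hp]
  have h1 : (((Real.log ((p : ℕ) : ℝ) : ℝ) : ℂ) * -(1 + (σ : ℂ) + (τ : ℂ) * I)).re =
      Real.log ((p : ℕ) : ℝ) * (-1 - σ) := by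
    rw [Complex.re_ofReal_mul]
    have h3 : (-(1 + (σ : ℂ) + (τ : ℂ) * I)).re = -1 - σ := by
      simp
      ring
    rw [h3]
  have h2 : (((Real.log ((p : ℕ) : ℝ) : ℝ) : ℂ) * -(1 + (σ : ℂ) + (τ : ℂ) * I)).im =
      -(τ * Real.log ((p : ℕ) : ℝ)) := by
    rw [Complex.im_ofReal_mul]
    have h3 : (-(1 + (σ : ℂ) + (τ : ℂ) * I)).im = -τ := by simp
    rw [h3]
    ring
  rw [h1, h2, Real.cos_neg]

private theorem cz_norm (p : Nat.Primes) (σ τ : ℝ) :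
    ‖((p : ℕ) : ℂ) ^ (-(1 + (σ : ℂ) + (τ : ℂ) * I))‖ = ((p : ℕ) : ℝ) ^ (-1 - σ) := by
  rw [Complex.norm_natCast_cpow_of_pos p.2.pos]
  congr 1
  simp
  ring

private theorem cz_term {z : ℂ} (hz : ‖z‖ ≤ 1 / 2) : ‖-Complex.log (1 - z) - z‖ ≤ ‖z‖ ^ 2 := by
  have h := Complex.norm_log_one_add_sub_self_le (z := -z) (by rw [norm_neg]; linarith)
  rw [norm_neg] at h
  have e : -Complex.log (1 - z) - z = -(Complex.log (1 + -z) - -z) := by
    rw [← sub_eq_add_neg]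
    ring
  rw [e, norm_neg]
  refine h.trans ?_
  have h1 : (1 - ‖z‖)⁻¹ ≤ 2 := by
    rw [inv_le_comm₀ (by linarith) (by norm_num)]
    linarith
  have h2 : (0 : ℝ) ≤ ‖z‖ ^ 2 := by positivity
  nlinarith

private theorem cz_sum (σ τ : ℝ) (hσ : 0 < σ) :
    |(∑' p : Nat.Primes, ((p : ℕ) : ℝ) ^ (-1 - σ) * Real.cos (τ * Real.log ((p : ℕ) : ℝ))) -
      Real.log ‖riemannZeta (1 + (σ : ℂ) + (τ : ℂ) * I)‖| ≤ ∑' p : Nat.Primes, ((p : ℕ) : ℝ) ^ (-2 : ℝ) := by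
  obtain ⟨s, hs⟩ : ∃ s : ℂ, s = 1 + (σ : ℂ) + (τ : ℂ) * I := ⟨_, rfl⟩
  have hre : 1 < s.re := by
    rw [hs]
    simp
    exact hσ
  have hsum0 : Summable fun p : Nat.Primes => ((p : ℕ) : ℝ) ^ (-1 - σ) :=
    Nat.Primes.summable_rpow.2 (by linarith)
  have hsum2 : Summable fun p : Nat.Primes => ((p : ℕ) : ℝ) ^ (-2 : ℝ) :=
    Nat.Primes.summable_rpow.2 (by norm_num)
  have hz : ∀ p : Nat.Primes, ‖((p : ℕ) : ℂ) ^ (-s)‖ ≤ ((p : ℕ) : ℝ) ^ (-1 : ℝ) := by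
    intro p
    rw [hs, cz_norm]
    exact Real.rpow_le_rpow_of_exponent_le (by exact_mod_cast p.2.one_le) (by linarith)
  have hz2 : ∀ p : Nat.Primes, ‖((p : ℕ) : ℂ) ^ (-s)‖ ≤ 1 / 2 := by
    intro p
    refine (hz p).trans ?_
    rw [Real.rpow_neg_one, one_div]
    exact inv_anti₀ (by norm_num) (by exact_mod_cast p.2.two_le)
  have hz3 : ∀ p : Nat.Primes, ‖-Complex.log (1 - ((p : ℕ) : ℂ) ^ (-s)) - ((p : ℕ) : ℂ) ^ (-s)‖ ≤
      ((p : ℕ) : ℝ) ^ (-2 : ℝ) := by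
    intro p
    refine (cz_term (hz2 p)).trans ?_
    have h1 := hz p
    have hp : (0 : ℝ) ≤ ((p : ℕ) : ℝ) := by positivity
    have h2 : ((p : ℕ) : ℝ) ^ (-2 : ℝ) = (((p : ℕ) : ℝ) ^ (-1 : ℝ)) ^ 2 := by
      rw [← Real.rpow_natCast, ← Real.rpow_mul hp]
      norm_num
    rw [h2]
    exact pow_le_pow_left₀ (norm_nonneg _) h1 2
  have hsz : Summable fun p : Nat.Primes => ((p : ℕ) : ℂ) ^ (-s) := by
    refine Summable.of_norm ?_
    refine Summable.congr hsum0 fun p => ?_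
    rw [hs, cz_norm]
  have hsd : Summable fun p : Nat.Primes => -Complex.log (1 - ((p : ℕ) : ℂ) ^ (-s)) - ((p : ℕ) : ℂ) ^ (-s) :=
    Summable.of_norm_bounded hsum2 hz3
  have hsl : Summable fun p : Nat.Primes => -Complex.log (1 - ((p : ℕ) : ℂ) ^ (-s)) :=
    (hsd.add hsz).congr fun p => by ring
  have hE := riemannZeta_eulerProduct_exp_log hre
  have hlog : Real.log ‖riemannZeta s‖ = (∑' p : Nat.Primes, -Complex.log (1 - ((p : ℕ) : ℂ) ^ (-s))).re := by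
    rw [← hE, Complex.norm_exp, Real.log_exp]
  have hcos : (∑' p : Nat.Primes, ((p : ℕ) : ℝ) ^ (-1 - σ) * Real.cos (τ * Real.log ((p : ℕ) : ℝ))) =
      (∑' p : Nat.Primes, ((p : ℕ) : ℂ) ^ (-s)).re := by
    rw [Complex.re_tsum hsz]
    refine tsum_congr fun p => ?_
    rw [hs, cz_re]
  rw [← hs, hcos, hlog, ← Complex.sub_re, ← hsz.tsum_sub hsl]
  refine (Complex.abs_re_le_norm _).trans ?_
  refine tsum_of_norm_bounded hsum2.hasSum fun p => ?_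
  rw [← norm_neg, neg_sub]
  exact hz3 p

private theorem cz_cpt (C₂ : ℝ) : ∃ C : ℝ, ∀ σ τ : ℝ, 0 < σ → σ ≤ 1 → |τ| ≤ C₂ →
    |Real.log ‖riemannZeta (1 + (σ : ℂ) + (τ : ℂ) * I)‖ + Real.log ‖(σ : ℂ) + (τ : ℂ) * I‖| ≤ C := by
  obtain ⟨G, hG⟩ : ∃ G : ℂ → ℂ, G = Function.update (fun s => (s - 1) * riemannZeta s) 1 1 := ⟨_, rfl⟩
  obtain ⟨K, hK⟩ : ∃ K : Set ℂ, K = (Icc (1 : ℝ) 2) ×ℂ (Icc (-C₂) C₂) := ⟨_, rfl⟩
  have hKc : IsCompact K := by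
    rw [hK]
    exact isCompact_Icc.reProdIm isCompact_Icc
  have hGc : Continuous G := by
    rw [continuous_iff_continuousAt]
    intro s
    by_cases hs : s = 1
    · rw [hs, hG, continuousAt_update_same]
      exact riemannZeta_residue_one
    · rw [hG, continuousAt_update_of_ne hs]
      exact (continuousAt_id.sub continuousAt_const).mul (differentiableAt_riemannZeta hs).continuousAt
  have hG0 : ∀ s ∈ K, G s ≠ 0 := by
    intro s hs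
    rw [hK, Complex.mem_reProdIm] at hs
    by_cases h1 : s = 1
    · rw [h1, hG, Function.update_self]
      exact one_ne_zero
    · rw [hG, Function.update_of_ne h1]
      exact mul_ne_zero (sub_ne_zero.2 h1) (riemannZeta_ne_zero_of_one_le_re hs.1.1)
  have hL : ContinuousOn (fun s => Real.log ‖G s‖) K :=
    ContinuousOn.log hGc.norm.continuousOn fun s hs => norm_ne_zero_iff.2 (hG0 s hs)
  obtain ⟨C, hC⟩ := hKc.exists_bound_of_continuousOn hL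
  refine ⟨C, fun σ τ h0 h1 h2 => ?_⟩
  obtain ⟨s, hs⟩ : ∃ s : ℂ, s = 1 + (σ : ℂ) + (τ : ℂ) * I := ⟨_, rfl⟩
  have hsK : s ∈ K := by
    rw [hK, Complex.mem_reProdIm, hs]
    rw [abs_le] at h2
    constructor
    · simp
      constructor <;> linarith
    · simpa using h2
  have hs1 : s ≠ 1 := by
    intro h
    have h3 := congrArg Complex.re h
    rw [hs] at h3
    simp at h3
    linarith
  have hGs : G s = (s - 1) * riemannZeta s := by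
    rw [hG, Function.update_of_ne hs1]
  have h3 := hC s hsK
  rw [hGs, norm_mul, Real.log_mul (norm_ne_zero_iff.2 (sub_ne_zero.2 hs1))
    (norm_ne_zero_iff.2 fun h => hG0 s hsK (by rw [hGs, h, mul_zero])), Real.norm_eq_abs] at h3
  have e : s - 1 = (σ : ℂ) + (τ : ℂ) * I := by
    rw [hs]
    ring
  rw [e, add_comm, hs] at h3
  exact h3

theorem zeta_cos (C₂ : ℝ) : ∃ C : ℝ, 0 < C ∧ ∀ σ τ : ℝ, 0 < σ → σ ≤ 1 → |τ| ≤ C₂ →
    |(∑' p : Nat.Primes, ((p : ℕ) : ℝ) ^ (-1 - σ) * Real.cos (τ * Real.log ((p : ℕ) : ℝ))) +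
      Real.log ‖(σ : ℂ) + (τ : ℂ) * I‖| ≤ C := by
  obtain ⟨C, hC⟩ := cz_cpt C₂
  refine ⟨(∑' p : Nat.Primes, ((p : ℕ) : ℝ) ^ (-2 : ℝ)) + |C| + 1, ?_, ?_⟩
  · have h1 : 0 ≤ ∑' p : Nat.Primes, ((p : ℕ) : ℝ) ^ (-2 : ℝ) := tsum_nonneg fun p => by positivity
    have h2 := abs_nonneg C
    linarith
  · intro σ τ h0 h1 h2
    have h3 := cz_sum σ τ h0
    have h4 := hC σ τ h0 h1 h2
    have h5 := le_abs_self C
    rw [abs_le] at h3 h4 ⊢
    constructor <;> linarith [h3.1, h3.2, h4.1, h4.2]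

end Pool.Agent.Lib.MP_ec260d_ntB
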