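import Mathlib
import Pool.Agent.Lib.MP_ec260d_ntB.CPr
import Pool.Agent.Lib.MP_ec260d_ntB.CZ
import Pool.Agent.Lib.MP_ec260d_ntB.Defs

/-!
# CCos: the sum over the primes in `(10000, T^δ]`

`l = log T`, `σ = 2W/l` (`≤ 1` for large `T`), `τ = hT T * D = 2πD/l ≤ 2π Cw`. By `zeta_cos` the sum over all primes is `-log |σ + iτ| + O(1)`.
The primes `≤ 10000` contribute at most `∑_{p ≤ 10000} 1/p` in absolute value, the primes `> T^δ` at most `C` by `tail_sum` with `y = T^δ = exp (δ l)`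
(`σ log y = 2Wδ =: c`; finite partial sums give the bound for the infinite sum; `y ≥ 2` for large `T`; `|cos| ≤ 1`).

If `D = 0`: `-log σ = log l - log (2W)`. If `D ≥ 1`: `|σ + iτ| = |2W + 2πiD|/l` lies between `2πD/l` and `(2W + 2π) D/l`, so `-log |σ + iτ| = log l - log D + O(1)`.
(`Real.log 0 = 0` covers the case `D = 0` in the statement.)
-/

namespace Pool.Agent.Lib.MP_ec260d_ntB

open Complex Set Filter Topology MeasureTheory

/-- the norm of `σ + iτ` -/
private theorem ccos_norm {l W D : ℝ} (hl : 0 < l) (hW : 1 ≤ W) (hD : D = 0 ∨ 1 ≤ D) :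
    |-Real.log ‖((2 * W / l : ℝ) : ℂ) + ((2 * Real.pi / l * D : ℝ) : ℂ) * I‖ -
      (Real.log l - Real.log D)| ≤ Real.log (2 * W + 2 * Real.pi) := by
  have hpi := Real.pi_gt_three
  have hpi0 : 0 < 2 * Real.pi := by linarith
  have hW0 : 0 < 2 * W := by linarith
  rcases hD with rfl | hD
  · rw [mul_zero, Complex.ofReal_zero, zero_mul, add_zero, Complex.norm_real, Real.norm_eq_abs,
      abs_of_pos (div_pos hW0 hl), Real.log_div hW0.ne' hl.ne', Real.log_zero]
    have h1 : 0 ≤ Real.log (2 * W) := Real.log_nonneg (by linarith)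
    have h2 : Real.log (2 * W) ≤ Real.log (2 * W + 2 * Real.pi) :=
      Real.log_le_log hW0 (by linarith)
    rw [abs_le]
    constructor <;> linarith
  · have hD0 : 0 < D := by linarith
    have hpos : 0 < 2 * Real.pi / l * D := mul_pos (div_pos hpi0 hl) hD0
    have hs : 0 < 2 * W / l := div_pos hW0 hl
    obtain ⟨z, hz⟩ : ∃ z : ℂ, z = ((2 * W / l : ℝ) : ℂ) + ((2 * Real.pi / l * D : ℝ) : ℂ) * I :=
      ⟨_, rfl⟩
    rw [← hz]
    have him : z.im = 2 * Real.pi / l * D := by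
      rw [hz, Complex.add_im, Complex.ofReal_im, Complex.im_ofReal_mul, Complex.I_im, mul_one, zero_add]
    have h1 : 2 * Real.pi / l * D ≤ ‖z‖ := by
      rw [← him]
      exact (le_abs_self _).trans (Complex.abs_im_le_norm z)
    have h2 : ‖z‖ ≤ (2 * W + 2 * Real.pi) * D / l := by
      calc ‖z‖ ≤ ‖((2 * W / l : ℝ) : ℂ)‖ + ‖((2 * Real.pi / l * D : ℝ) : ℂ) * I‖ := by
            rw [hz]
            exact norm_add_le _ _
        _ = 2 * W / l + 2 * Real.pi / l * D := by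
          rw [norm_mul, Complex.norm_I, mul_one, Complex.norm_real, Complex.norm_real,
            Real.norm_eq_abs, Real.norm_eq_abs, abs_of_pos hs, abs_of_pos hpos]
        _ ≤ 2 * W / l * D + 2 * Real.pi / l * D := by
          have h3 : 2 * W / l * 1 ≤ 2 * W / l * D := mul_le_mul_of_nonneg_left hD hs.le
          linarith
        _ = _ := by ring
    have h3 : Real.log (2 * Real.pi / l * D) ≤ Real.log ‖z‖ := Real.log_le_log hpos h1
    have h4 : Real.log ‖z‖ ≤ Real.log ((2 * W + 2 * Real.pi) * D / l) :=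
      Real.log_le_log (hpos.trans_le h1) h2
    have hsum : 0 < 2 * W + 2 * Real.pi := by linarith
    rw [Real.log_mul (div_pos hpi0 hl).ne' hD0.ne', Real.log_div hpi0.ne' hl.ne'] at h3
    rw [Real.log_div (mul_pos hsum hD0).ne' hl.ne', Real.log_mul hsum.ne' hD0.ne'] at h4
    have h5 : 0 ≤ Real.log (2 * Real.pi) := Real.log_nonneg (by linarith)
    have h6 : 0 ≤ Real.log (2 * W + 2 * Real.pi) := Real.log_nonneg (by linarith)
    rw [abs_le]
    constructor <;> linarith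

/-- the summand, extended by zero -/
private noncomputable def ccos_g (σ τ : ℝ) (n : ℕ) : ℝ :=
  if n.Prime then (n : ℝ) ^ (-1 - σ) * Real.cos (τ * Real.log n) else 0

private theorem ccos_abs (σ τ : ℝ) (n : ℕ) : |ccos_g σ τ n| ≤ (n : ℝ) ^ (-1 - σ) := by
  have h0 : 0 ≤ (n : ℝ) ^ (-1 - σ) := Real.rpow_nonneg (Nat.cast_nonneg n) _
  unfold ccos_g
  split_ifs
  · rw [abs_mul, abs_of_nonneg h0]
    exact mul_le_of_le_one_right h0 (Real.abs_cos_le_one _)
  · rw [abs_zero]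
    exact h0

private theorem ccos_summable {σ : ℝ} (hσ : 0 < σ) (τ : ℝ) : Summable (ccos_g σ τ) := by
  refine Summable.of_norm_bounded (g := fun n : ℕ => (n : ℝ) ^ (-1 - σ))
    (Real.summable_nat_rpow.2 (by linarith)) fun n => ?_
  rw [Real.norm_eq_abs]
  exact ccos_abs σ τ n

private theorem ccos_tsum (σ τ : ℝ) :
    (∑' p : Nat.Primes, ((p : ℕ) : ℝ) ^ (-1 - σ) * Real.cos (τ * Real.log ((p : ℕ) : ℝ))) =
      ∑' n : ℕ, ccos_g σ τ n := by
  have h := tsum_subtype {p : ℕ | p.Prime}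
    (fun n : ℕ => (n : ℝ) ^ (-1 - σ) * Real.cos (τ * Real.log n))
  have h2 : ({p : ℕ | p.Prime}.indicator
      fun n : ℕ => (n : ℝ) ^ (-1 - σ) * Real.cos (τ * Real.log n)) = ccos_g σ τ := by
    funext n
    unfold ccos_g
    rw [Set.indicator_apply]
    rfl
  rw [h2] at h
  exact h

/-- the contribution of the primes up to `10000` -/
private theorem ccos_small {σ : ℝ} (hσ : 0 < σ) (τ : ℝ) (N : ℕ) :
    |∑ i ∈ (Finset.range N).filter (fun p => ¬ (p.Prime ∧ 10000 < p)), ccos_g σ τ i| ≤ 10001 := by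
  refine (Finset.abs_sum_le_sum_abs _ _).trans ?_
  have h1 : ∀ i ∈ (Finset.range N).filter (fun p => ¬ (p.Prime ∧ 10000 < p)),
      |ccos_g σ τ i| ≤ if i < 10001 then (1 : ℝ) else 0 := by
    intro i hi
    have hi2 := (Finset.mem_filter.1 hi).2
    by_cases hp : i.Prime
    · have h2 : i < 10001 := by
        by_contra h3
        exact hi2 ⟨hp, by omega⟩
      rw [if_pos h2]
      refine (ccos_abs σ τ i).trans ?_
      exact Real.rpow_le_one_of_one_le_of_nonpos (by exact_mod_cast hp.one_lt.le) (by linarith)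
    · have h2 : ccos_g σ τ i = 0 := by
        unfold ccos_g
        rw [if_neg hp]
      rw [h2, abs_zero]
      split_ifs
      · exact zero_le_one
      · exact le_rfl
  refine (Finset.sum_le_sum h1).trans ?_
  rw [← Finset.sum_filter, Finset.sum_const, nsmul_eq_mul, mul_one]
  have h3 : (((Finset.range N).filter (fun p => ¬ (p.Prime ∧ 10000 < p))).filter
      (fun i => i < 10001)) ⊆ Finset.range 10001 := by
    intro i hi
    exact Finset.mem_range.2 (Finset.mem_filter.1 hi).2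
  have h4 := Finset.card_le_card h3
  rw [Finset.card_range] at h4
  exact_mod_cast h4

/-- the contribution of the large primes -/
private theorem ccos_tail {σ y C : ℝ} (hσ : 0 < σ) (τ : ℝ) (N : ℕ) (hN : y < N)
    (h : ∀ S : Finset ℕ, (∀ p ∈ S, p.Prime ∧ y < (p : ℝ)) → ∑ p ∈ S, (p : ℝ) ^ (-1 - σ) ≤ C) :
    |∑' i : ℕ, ccos_g σ τ (i + N)| ≤ C := by
  have hs : Summable fun i : ℕ => ‖ccos_g σ τ (i + N)‖ :=
    ((summable_nat_add_iff N).2 (ccos_summable hσ τ)).norm
  rw [← Real.norm_eq_abs]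
  refine (norm_tsum_le_tsum_norm hs).trans ?_
  refine hs.tsum_le_of_sum_le fun s => ?_
  have h1 : ∑ i ∈ s, ‖ccos_g σ τ (i + N)‖ = ∑ n ∈ s.image (fun i => i + N), ‖ccos_g σ τ n‖ := by
    rw [Finset.sum_image]
    intro a _ b _ hab
    exact Nat.add_right_cancel hab
  have h2 : ∑ n ∈ s.image (fun i => i + N), ‖ccos_g σ τ n‖ =
      ∑ n ∈ (s.image (fun i => i + N)).filter (fun n => n.Prime), ‖ccos_g σ τ n‖ := by
    rw [Finset.sum_filter]
    refine Finset.sum_congr rfl fun n _ => ?_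
    split_ifs with hn
    · rfl
    · unfold ccos_g
      rw [if_neg hn, norm_zero]
  rw [h1, h2]
  refine le_trans (Finset.sum_le_sum fun n _ => ?_) (h _ ?_)
  · rw [Real.norm_eq_abs]
    exact ccos_abs σ τ n
  · intro p hp
    obtain ⟨hp1, hp2⟩ := Finset.mem_filter.1 hp
    obtain ⟨i, -, rfl⟩ := Finset.mem_image.1 hp1
    refine ⟨hp2, hN.trans_le ?_⟩
    exact_mod_cast Nat.le_add_left N i

theorem cos_sum (δ W Cw : ℝ) (hδ : 0 < δ) (hδ1 : δ ≤ 1) (hW : 1 ≤ W) (hCw : 0 < Cw) :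
    ∃ C T₀ : ℝ, 0 < C ∧ 3 ≤ T₀ ∧ ∀ T : ℝ, T₀ ≤ T → ∀ D : ℝ, (D = 0 ∨ 1 ≤ D) → D ≤ Cw * Real.log T →
      |(∑ p ∈ (Finset.range (⌊Real.exp (δ * Real.log T)⌋₊ + 1)).filter
          (fun p => p.Prime ∧ 10000 < p),
          (p : ℝ) ^ (-1 - 2 * W / Real.log T) * Real.cos (hT T * D * Real.log p)) -
        (Real.log (Real.log T) - Real.log D)| ≤ C := by
  obtain ⟨C1, hC1, hz⟩ := zeta_cos (2 * Real.pi * Cw)
  obtain ⟨C2, hC2, ht⟩ := tail_sum (2 * W * δ) (by positivity)
  have hpi := Real.pi_gt_three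
  have hlog : 0 ≤ Real.log (2 * W + 2 * Real.pi) := Real.log_nonneg (by linarith)
  refine ⟨C1 + 10001 + C2 + Real.log (2 * W + 2 * Real.pi),
    max 3 (Real.exp (max (2 * W) (1 / δ))), by linarith, le_max_left _ _, ?_⟩
  intro T hTT D hD hDW
  have hT3 : 3 ≤ T := (le_max_left _ _).trans hTT
  have hT1 : Real.exp (max (2 * W) (1 / δ)) ≤ T := (le_max_right _ _).trans hTT
  have hT0 : 0 < T := by linarith
  obtain ⟨l, hl⟩ : ∃ l : ℝ, l = Real.log T := ⟨_, rfl⟩
  have hl1 : max (2 * W) (1 / δ) ≤ l := by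
    rw [hl]
    exact (Real.le_log_iff_exp_le hT0).2 hT1
  have hl2 : 2 * W ≤ l := (le_max_left _ _).trans hl1
  have hl3 : 1 / δ ≤ l := (le_max_right _ _).trans hl1
  have hl0 : 0 < l := by linarith
  have hD0 : 0 ≤ D := by
    rcases hD with h | h
    · rw [h]
    · linarith
  rw [← hl] at hDW ⊢
  have hhT : hT T * D = 2 * Real.pi / l * D := by
    unfold hT
    rw [hl]
  rw [hhT]
  have hσ : 0 < 2 * W / l := div_pos (by linarith) hl0
  have hσ1 : 2 * W / l ≤ 1 := (div_le_one hl0).2 hl2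
  have hτ : |2 * Real.pi / l * D| ≤ 2 * Real.pi * Cw := by
    rw [abs_of_nonneg (by positivity)]
    have h1 : 2 * Real.pi / l * D = 2 * Real.pi * (D / l) := by ring
    rw [h1]
    refine mul_le_mul_of_nonneg_left ?_ (by positivity)
    exact (div_le_iff₀ hl0).2 hDW
  have e1 := hz (2 * W / l) (2 * Real.pi / l * D) hσ hσ1 hτ
  rw [ccos_tsum] at e1
  obtain ⟨N, hN⟩ : ∃ N : ℕ, N = ⌊Real.exp (δ * l)⌋₊ + 1 := ⟨_, rfl⟩
  rw [← hN]
  have e2 := (ccos_summable hσ (2 * Real.pi / l * D)).sum_add_tsum_nat_add N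
  have hδl : 1 ≤ δ * l := by
    rw [div_le_iff₀ hδ] at hl3
    linarith
  have hy2 : 2 ≤ Real.exp (δ * l) := by
    have h1 := Real.add_one_le_exp (δ * l)
    linarith
  have hNy : Real.exp (δ * l) < (N : ℝ) := by
    rw [hN]
    push_cast
    exact Nat.lt_floor_add_one _
  have e3 := ccos_tail hσ (2 * Real.pi / l * D) N hNy (ht (Real.exp (δ * l)) (2 * W / l) hy2 hσ (by
    rw [Real.log_exp]
    have h1 : 2 * W / l * (δ * l) = 2 * W * δ := by
      field_simp
    rw [h1]))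
  have e4 := ccos_small hσ (2 * Real.pi / l * D) N
  have e5 := ccos_norm (D := D) hl0 hW hD
  have e6 : ∑ p ∈ (Finset.range N).filter (fun p => p.Prime ∧ 10000 < p),
      (p : ℝ) ^ (-1 - 2 * W / l) * Real.cos (2 * Real.pi / l * D * Real.log p) =
      ∑ p ∈ (Finset.range N).filter (fun p => p.Prime ∧ 10000 < p),
        ccos_g (2 * W / l) (2 * Real.pi / l * D) p := by
    refine Finset.sum_congr rfl fun p hp => ?_
    unfold ccos_g
    rw [if_pos (Finset.mem_filter.1 hp).2.1]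
  rw [e6]
  have e7 := Finset.sum_filter_add_sum_filter_not (Finset.range N)
    (fun p => p.Prime ∧ 10000 < p) (ccos_g (2 * W / l) (2 * Real.pi / l * D))
  rw [abs_le] at e1 e3 e4 e5 ⊢
  constructor
  · linarith [e1.1, e1.2, e3.1, e3.2, e4.1, e4.2, e5.1, e5.2]
  · linarith [e1.1, e1.2, e3.1, e3.2, e4.1, e4.2, e5.1, e5.2]

end Pool.Agent.Lib.MP_ec260d_ntB
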