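import Mathlib
import Pool.Agent.Lib.MP_ec260d_ntB.CDefs

/-!
# CJ: the Bessel function

Put `r = ‖w‖` and `y(x) = Im (w e(x))`, `e(x) = exp (2 π i x)`. Then `|y| ≤ r`, `∫_0^1 y = 0`, `∫_0^1 y^2 = r^2 / 2`
(`y = Re w sin (2 π x) + Im w cos (2 π x)`; integrals of `sin`, `cos`, `sin^2`, `cos^2`, `sin cos` over the period).

`jw_le`: if `r > 1` then `-r^2/12 + r^4 ≥ 0` and `‖Jw w‖ ≤ 1`. If `r ≤ 1`: `|e^(iy) - (1 + iy - y^2/2)| ≤ |y|^3 / 6 ≤ r^3/6 ≤ r^2/6`
(Mathlib: `Complex.norm_exp_I_mul_ofReal_sub_one..`, or Taylor with integral remainder; any constant `≤ 1/6` is fine), so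
`‖Jw w‖ ≤ (1 - r^2/4) + r^2/6 = 1 - r^2/12 ≤ exp (-r^2/12)`.

`mgf_le`: for `|y| ≤ r`, `0 < r`, convexity of `exp` gives `e^y ≤ cosh r + (y/r) sinh r`. Integrate: `≤ cosh r ≤ exp (r^2/2)` (`Real.cosh_le_exp_half_sq`).
-/

namespace Pool.Agent.Lib.MP_ec260d_ntB

open Complex Set Filter Topology MeasureTheory

private noncomputable def CJ_y (w : ℂ) (x : ℝ) : ℝ :=
  (w * cexp (((2 * Real.pi * x : ℝ) : ℂ) * I)).im

private theorem CJ_eq (w : ℂ) (x : ℝ) :
    CJ_y w x = w.re * Real.sin (2 * Real.pi * x) + w.im * Real.cos (2 * Real.pi * x) := by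
  unfold CJ_y
  rw [Complex.mul_im, Complex.exp_ofReal_mul_I_re, Complex.exp_ofReal_mul_I_im]

private theorem CJ_abs (w : ℂ) (x : ℝ) : |CJ_y w x| ≤ ‖w‖ := by
  unfold CJ_y
  refine (Complex.abs_im_le_norm _).trans ?_
  rw [norm_mul, Complex.norm_exp_ofReal_mul_I, mul_one]

private theorem CJ_cont (w : ℂ) : Continuous (CJ_y w) := by
  have h : CJ_y w = fun x =>
      w.re * Real.sin (2 * Real.pi * x) + w.im * Real.cos (2 * Real.pi * x) := by
    funext x
    exact CJ_eq w x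
  rw [h]
  fun_prop

private theorem CJ_int (w : ℂ) : ∫ x in (0 : ℝ)..1, CJ_y w x = 0 := by
  have hpi : (Real.pi : ℝ) ≠ 0 := Real.pi_ne_zero
  have h1 : ∀ x : ℝ, HasDerivAt (fun x : ℝ =>
      -(w.re * Real.cos (2 * Real.pi * x)) / (2 * Real.pi) +
        w.im * Real.sin (2 * Real.pi * x) / (2 * Real.pi)) (CJ_y w x) x := by
    intro x
    have hl : HasDerivAt (fun x : ℝ => 2 * Real.pi * x) (2 * Real.pi) x := by
      simpa using (hasDerivAt_id x).const_mul (2 * Real.pi)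
    have h2 := (((hl.cos).const_mul w.re).neg.div_const (2 * Real.pi)).add
      (((hl.sin).const_mul w.im).div_const (2 * Real.pi))
    rw [CJ_eq]
    refine h2.congr_deriv ?_
    field_simp
  rw [intervalIntegral.integral_eq_sub_of_hasDerivAt (fun x _ => h1 x)
    ((CJ_cont w).intervalIntegrable 0 1)]
  simp

private theorem CJ_int2 (w : ℂ) : ∫ x in (0 : ℝ)..1, CJ_y w x ^ 2 = ‖w‖ ^ 2 / 2 := by
  have hpi : (Real.pi : ℝ) ≠ 0 := Real.pi_ne_zero
  have hw : ‖w‖ ^ 2 = w.re ^ 2 + w.im ^ 2 := by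
    rw [← Complex.normSq_eq_norm_sq, Complex.normSq_apply]
    ring
  have h1 : ∀ x : ℝ, HasDerivAt (fun x : ℝ =>
      (w.re ^ 2 + w.im ^ 2) / 2 * x +
        (w.im ^ 2 - w.re ^ 2) / 2 * Real.sin (2 * (2 * Real.pi * x)) / (4 * Real.pi) +
        -(w.re * w.im * Real.cos (2 * (2 * Real.pi * x))) / (4 * Real.pi)) (CJ_y w x ^ 2) x := by
    intro x
    have hl : HasDerivAt (fun x : ℝ => 2 * (2 * Real.pi * x)) (2 * (2 * Real.pi)) x := by
      simpa using ((hasDerivAt_id x).const_mul (2 * Real.pi)).const_mul 2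
    have h0 : HasDerivAt (fun x : ℝ => (w.re ^ 2 + w.im ^ 2) / 2 * x)
        ((w.re ^ 2 + w.im ^ 2) / 2) x := by
      simpa using (hasDerivAt_id x).const_mul ((w.re ^ 2 + w.im ^ 2) / 2)
    have h2 := (h0.add (((hl.sin).const_mul ((w.im ^ 2 - w.re ^ 2) / 2)).div_const
      (4 * Real.pi))).add (((hl.cos).const_mul (w.re * w.im)).neg.div_const (4 * Real.pi))
    rw [CJ_eq]
    refine h2.congr_deriv ?_
    have hs : Real.sin (2 * (2 * Real.pi * x)) =
        2 * Real.sin (2 * Real.pi * x) * Real.cos (2 * Real.pi * x) := Real.sin_two_mul _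
    have hc : Real.cos (2 * (2 * Real.pi * x)) = 2 * Real.cos (2 * Real.pi * x) ^ 2 - 1 :=
      Real.cos_two_mul _
    have hsc := Real.sin_sq_add_cos_sq (2 * Real.pi * x)
    rw [hs, hc]
    field_simp
    linear_combination (-(8 : ℝ) * w.re ^ 2) * hsc
  rw [intervalIntegral.integral_eq_sub_of_hasDerivAt (fun x _ => h1 x)
    (((CJ_cont w).pow 2).intervalIntegrable 0 1), hw]
  have e1 : Real.sin (2 * (2 * Real.pi * 1)) = 0 := by
    have : (2 * (2 * Real.pi * 1) : ℝ) = (4 : ℕ) * Real.pi := by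
      push_cast
      ring
    rw [this, Real.sin_nat_mul_pi]
  have e2 : Real.cos (2 * (2 * Real.pi * 1)) = 1 := by
    have : (2 * (2 * Real.pi * 1) : ℝ) = (2 : ℕ) * (2 * Real.pi) := by
      push_cast
      ring
    rw [this, Real.cos_nat_mul_two_pi]
  rw [e1, e2]
  simp

private theorem CJ_norm_le_one (w : ℂ) : ‖Jw w‖ ≤ 1 := by
  unfold Jw
  have h := intervalIntegral.norm_integral_le_of_norm_le_const (a := (0 : ℝ)) (b := 1) (C := 1)
    (f := fun x : ℝ => cexp (((w * cexp (((2 * Real.pi * x : ℝ) : ℂ) * I)).im : ℂ) * I))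
    (fun x _ => (Complex.norm_exp_ofReal_mul_I _).le)
  simpa using h

private theorem CJ_taylor {y : ℝ} (hy : |y| ≤ 1) :
    ‖cexp ((y : ℂ) * I) - (1 + (y : ℂ) * I - (y : ℂ) ^ 2 / 2)‖ ≤ 2 / 9 * |y| ^ 3 := by
  have hn : ‖(y : ℂ) * I‖ = |y| := by
    rw [norm_mul, Complex.norm_I, mul_one, Complex.norm_real, Real.norm_eq_abs]
  have h := Complex.exp_bound (x := (y : ℂ) * I) (by rw [hn]; exact hy) (n := 3) (by norm_num)
  rw [hn] at h
  have e : ∑ m ∈ Finset.range 3, ((y : ℂ) * I) ^ m / (m.factorial : ℂ) =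
      1 + (y : ℂ) * I - (y : ℂ) ^ 2 / 2 := by
    rw [Finset.sum_range_succ, Finset.sum_range_succ, Finset.sum_range_one]
    simp only [pow_zero, pow_one, Nat.factorial, mul_pow, Complex.I_sq]
    push_cast
    ring
  rw [e] at h
  refine h.trans (le_of_eq ?_)
  norm_num [Nat.factorial]
  ring

theorem jw_le (w : ℂ) : ‖Jw w‖ ≤ Real.exp (-(‖w‖ ^ 2) / 12 + ‖w‖ ^ 4) := by
  rcases le_or_gt ‖w‖ 1 with hr | hr
  · have hr0 : 0 ≤ ‖w‖ := norm_nonneg w
    have hc := CJ_cont w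
    have hcC : Continuous fun x : ℝ => ((CJ_y w x : ℝ) : ℂ) := Complex.continuous_ofReal.comp hc
    have hJ : Jw w = ∫ x in (0 : ℝ)..1, cexp (((CJ_y w x : ℝ) : ℂ) * I) := rfl
    have hi1 : Continuous fun x : ℝ => cexp (((CJ_y w x : ℝ) : ℂ) * I) :=
      Complex.continuous_exp.comp (hcC.mul continuous_const)
    have hi2 : Continuous fun x : ℝ =>
        (1 + ((CJ_y w x : ℝ) : ℂ) * I - ((CJ_y w x : ℝ) : ℂ) ^ 2 / 2) :=
      (continuous_const.add (hcC.mul continuous_const)).sub ((hcC.pow 2).div_const 2)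
    have hmain : ∫ x in (0 : ℝ)..1,
        (1 + ((CJ_y w x : ℝ) : ℂ) * I - ((CJ_y w x : ℝ) : ℂ) ^ 2 / 2) =
        ((1 - ‖w‖ ^ 2 / 4 : ℝ) : ℂ) := by
      have k1 : Continuous fun x : ℝ => ((CJ_y w x : ℝ) : ℂ) * I := hcC.mul continuous_const
      have k2 : Continuous fun x : ℝ => (1 : ℂ) + ((CJ_y w x : ℝ) : ℂ) * I :=
        continuous_const.add k1
      have k3 : Continuous fun x : ℝ => ((CJ_y w x : ℝ) : ℂ) ^ 2 / 2 := (hcC.pow 2).div_const 2
      have k4 : Continuous fun _ : ℝ => (1 : ℂ) := continuous_const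
      rw [intervalIntegral.integral_sub (k2.intervalIntegrable 0 1) (k3.intervalIntegrable 0 1),
        intervalIntegral.integral_add (k4.intervalIntegrable 0 1) (k1.intervalIntegrable 0 1),
        intervalIntegral.integral_mul_const, intervalIntegral.integral_div,
        intervalIntegral.integral_ofReal, CJ_int]
      have e2 : ∫ x in (0 : ℝ)..1, ((CJ_y w x : ℝ) : ℂ) ^ 2 =
          ((∫ x in (0 : ℝ)..1, CJ_y w x ^ 2 : ℝ) : ℂ) := by
        rw [← intervalIntegral.integral_ofReal]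
        refine intervalIntegral.integral_congr fun x _ => ?_
        push_cast
        rfl
      rw [e2, CJ_int2]
      simp
      ring
    have hdiff : ‖∫ x in (0 : ℝ)..1, (cexp (((CJ_y w x : ℝ) : ℂ) * I) -
        (1 + ((CJ_y w x : ℝ) : ℂ) * I - ((CJ_y w x : ℝ) : ℂ) ^ 2 / 2))‖ ≤
        2 / 9 * ‖w‖ ^ 3 := by
      have h := intervalIntegral.norm_integral_le_of_norm_le_const (a := (0 : ℝ)) (b := 1)
        (C := 2 / 9 * ‖w‖ ^ 3)
        (f := fun x : ℝ => cexp (((CJ_y w x : ℝ) : ℂ) * I) -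
          (1 + ((CJ_y w x : ℝ) : ℂ) * I - ((CJ_y w x : ℝ) : ℂ) ^ 2 / 2))
        (fun x _ => (CJ_taylor ((CJ_abs w x).trans hr)).trans
          (mul_le_mul_of_nonneg_left (pow_le_pow_left₀ (abs_nonneg _) (CJ_abs w x) 3)
            (by norm_num)))
      simpa using h
    rw [intervalIntegral.integral_sub (hi1.intervalIntegrable 0 1)
      (hi2.intervalIntegrable 0 1), hmain, ← hJ] at hdiff
    have h1 : ‖Jw w‖ ≤ 2 / 9 * ‖w‖ ^ 3 + (1 - ‖w‖ ^ 2 / 4) := by
      have h2 := norm_add_le (Jw w - ((1 - ‖w‖ ^ 2 / 4 : ℝ) : ℂ)) ((1 - ‖w‖ ^ 2 / 4 : ℝ) : ℂ)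
      rw [sub_add_cancel] at h2
      have h3 : ‖((1 - ‖w‖ ^ 2 / 4 : ℝ) : ℂ)‖ = 1 - ‖w‖ ^ 2 / 4 := by
        rw [Complex.norm_real, Real.norm_eq_abs, abs_of_nonneg]
        nlinarith
      rw [h3] at h2
      linarith
    refine h1.trans (le_trans ?_ (Real.add_one_le_exp _))
    nlinarith [mul_nonneg (sq_nonneg ‖w‖) (sq_nonneg (‖w‖ - 1 / 9)), sq_nonneg ‖w‖]
  · have h1 : (0 : ℝ) ≤ -(‖w‖ ^ 2) / 12 + ‖w‖ ^ 4 := by
      have h2 : 1 ≤ ‖w‖ ^ 2 := one_le_pow₀ hr.le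
      nlinarith
    exact (CJ_norm_le_one w).trans (Real.one_le_exp h1)

theorem mgf_le (w : ℂ) :
    (∫ x in (0 : ℝ)..1, Real.exp ((w * cexp (((2 * Real.pi * x : ℝ) : ℂ) * I)).im)) ≤
      Real.exp (‖w‖ ^ 2 / 2) := by
  rcases eq_or_ne w 0 with hw | hw
  · subst hw
    simp
  · have hr : 0 < ‖w‖ := norm_pos_iff.2 hw
    have hc := CJ_cont w
    have h1 : ∀ x : ℝ, Real.exp (CJ_y w x) ≤
        Real.cosh ‖w‖ + CJ_y w x * (Real.sinh ‖w‖ / ‖w‖) := by
      intro x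
      have ht : |CJ_y w x / ‖w‖| ≤ 1 := by
        rw [abs_div, abs_of_pos hr, div_le_one hr]
        exact CJ_abs w x
      have h2 := Real.exp_mul_le_cosh_add_mul_sinh ht ‖w‖
      rw [div_mul_cancel₀ _ hr.ne'] at h2
      refine h2.trans (le_of_eq ?_)
      ring
    have h3 : (∫ x in (0 : ℝ)..1, Real.exp (CJ_y w x)) ≤
        ∫ x in (0 : ℝ)..1, (Real.cosh ‖w‖ + CJ_y w x * (Real.sinh ‖w‖ / ‖w‖)) :=
      intervalIntegral.integral_mono_on zero_le_one
        ((Real.continuous_exp.comp hc).intervalIntegrable 0 1)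
        ((continuous_const.add (hc.mul continuous_const)).intervalIntegrable 0 1)
        (fun x _ => h1 x)
    have h4 : ∫ x in (0 : ℝ)..1, (Real.cosh ‖w‖ + CJ_y w x * (Real.sinh ‖w‖ / ‖w‖)) =
        Real.cosh ‖w‖ := by
      have k1 : Continuous fun x : ℝ => CJ_y w x * (Real.sinh ‖w‖ / ‖w‖) :=
        hc.mul continuous_const
      have k2 : Continuous fun _ : ℝ => Real.cosh ‖w‖ := continuous_const
      rw [intervalIntegral.integral_add (k2.intervalIntegrable 0 1) (k1.intervalIntegrable 0 1),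
        intervalIntegral.integral_mul_const, CJ_int]
      simp
    rw [h4] at h3
    exact h3.trans (Real.cosh_le_exp_half_sq ‖w‖)

end Pool.Agent.Lib.MP_ec260d_ntB
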