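import Mathlib
import Pool.Agent.Lib.MP_ec260d_ntB.CJ

/-!
# CExp: exponential integrals over the torus

`TH S w (zth S θ) = ∑_{p ∈ S} Im (w p * exp (2 π i θ p))`, so `exp (i TH)` and `exp TH` are products over `p ∈ S` of functions of `θ p` alone:
`MeasureTheory.integral_fintype_prod_eq_prod` (for the product measure `Measure.pi`), then the definition of `Jw`, respectively `mgf_le` for each factor
(all factors are positive, `Finset.prod_le_prod`, `Real.exp_sum`). The conversion of a product or sum over `p : S` into one over `p ∈ S`: `Finset.prod_coe_sort`,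
`Finset.sum_coe_sort`, `Finset.prod_attach`.
-/

namespace Pool.Agent.Lib.MP_ec260d_ntB

open Complex Set Filter Topology MeasureTheory

/-- the value of `TH` as a sum over the coordinates -/
private theorem cexp_th (S : Finset ℕ) (w : ℕ → ℂ) (θ : S → ℝ) :
    TH S w (zth S θ) =
      ∑ p : S, ((w p) * cexp (((2 * Real.pi * θ p : ℝ) : ℂ) * I)).im := by
  unfold TH
  rw [← Finset.sum_coe_sort S (fun p => w p * zth S θ p), Complex.im_sum]
  refine Finset.sum_congr rfl fun p _ => ?_
  unfold zth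
  rw [dif_pos p.2]

theorem TH_continuous (S : Finset ℕ) (w : ℕ → ℂ) : Continuous (fun θ : S → ℝ => TH S w (zth S θ)) := by
  have h : (fun θ : S → ℝ => TH S w (zth S θ)) = fun θ : S → ℝ =>
      ∑ p : S, ((w p) * cexp (((2 * Real.pi * θ p : ℝ) : ℂ) * I)).im :=
    funext fun θ => cexp_th S w θ
  rw [h]
  refine continuous_finsetSum _ fun p _ => ?_
  refine Complex.continuous_im.comp (continuous_const.mul ?_)
  refine Complex.continuous_exp.comp ((Complex.continuous_ofReal.comp ?_).mul continuous_const)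
  exact continuous_const.mul (continuous_apply p)

theorem TH_abs_le (S : Finset ℕ) (w z : ℕ → ℂ) (hz : ∀ p, ‖z p‖ = 1) : |TH S w z| ≤ ∑ p ∈ S, ‖w p‖ := by
  unfold TH
  refine (Complex.abs_im_le_norm _).trans ((norm_sum_le _ _).trans ?_)
  refine Finset.sum_le_sum fun p _ => ?_
  rw [norm_mul, hz p, mul_one]

theorem torus_jw (S : Finset ℕ) (w : ℕ → ℂ) :
    (∫ θ, cexp (((TH S w (zth S θ) : ℝ) : ℂ) * I) ∂(mth S)) = ∏ p ∈ S, Jw (w p) := by
  have h1 : ∀ θ : S → ℝ, cexp (((TH S w (zth S θ) : ℝ) : ℂ) * I) =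
      ∏ p : S, cexp (((((w p) * cexp (((2 * Real.pi * θ p : ℝ) : ℂ) * I)).im : ℝ) : ℂ) * I) := by
    intro θ
    rw [cexp_th, Complex.ofReal_sum, Finset.sum_mul, Complex.exp_sum]
  simp only [h1]
  unfold mth
  have h2 := MeasureTheory.integral_fintype_prod_eq_prod
    (μ := fun _ : S => (volume : Measure ℝ).restrict (Ioc 0 1))
    (f := fun (p : S) (x : ℝ) =>
      cexp (((((w p) * cexp (((2 * Real.pi * x : ℝ) : ℂ) * I)).im : ℝ) : ℂ) * I))
  rw [h2, ← Finset.prod_coe_sort S (fun p => Jw (w p))]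
  refine Finset.prod_congr rfl fun p _ => ?_
  unfold Jw
  rw [intervalIntegral.integral_of_le zero_le_one]

theorem torus_mgf (S : Finset ℕ) (w : ℕ → ℂ) :
    (∫ θ, Real.exp (TH S w (zth S θ)) ∂(mth S)) ≤ Real.exp ((∑ p ∈ S, ‖w p‖ ^ 2) / 2) := by
  have h1 : ∀ θ : S → ℝ, Real.exp (TH S w (zth S θ)) =
      ∏ p : S, Real.exp (((w p) * cexp (((2 * Real.pi * θ p : ℝ) : ℂ) * I)).im) := by
    intro θ
    rw [cexp_th, Real.exp_sum]
  simp only [h1]
  unfold mth
  have h2 := MeasureTheory.integral_fintype_prod_eq_prod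
    (μ := fun _ : S => (volume : Measure ℝ).restrict (Ioc 0 1))
    (f := fun (p : S) (x : ℝ) =>
      Real.exp (((w p) * cexp (((2 * Real.pi * x : ℝ) : ℂ) * I)).im))
  rw [h2, Finset.sum_div, Real.exp_sum, ← Finset.prod_coe_sort S (fun p => Real.exp (‖w p‖ ^ 2 / 2))]
  refine Finset.prod_le_prod (fun p _ => ?_) (fun p _ => ?_)
  · exact integral_nonneg fun x => (Real.exp_pos _).le
  · have h3 := mgf_le (w p)
    rw [intervalIntegral.integral_of_le zero_le_one] at h3
    exact h3

end Pool.Agent.Lib.MP_ec260d_ntB
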