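import Mathlib
import Pool.Agent.Lib.MP_ec260d_ntB.CDefs

/-!
# CTh: the increments of the blocks in terms of `TH`

For `p ≥ 1`: `(p : ℂ)^(-(sW W T (t + h w))) = p^(-(1/2 + W/log T)) * zt (h w) p * zt t p` (`Complex.cpow_def_of_ne_zero`, `Complex.ofReal_log`; all primes of a block are
nonzero). Hence `YB δ W T j (t + h w_{i+1}) - YB δ W T j (t + h w_i) = (1/π) Im ∑_{p ∈ Pr δ T j} p^(-(1/2 + W/log T)) (zt (h w_{i+1}) p - zt (h w_i) p) zt t p`, and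
`thj_eq` follows by linearity (real coefficients `ζ i`).

`uu_norm_le`: `‖zt - zt‖ ≤ 2`, `∑ |ζ i| ≤ c k`, `2/π ≤ 1`, `p^(-(1/2 + W/log T)) ≤ p^(-1/2)` for `W ≥ 0`, `T > 1`, `p ≥ 1`.

`gg_continuous`: by `thj_eq`, `Thj` is a finite sum of products of continuous functions of `(ζ, t)`; `ex d` is a polynomial.
-/

namespace Pool.Agent.Lib.MP_ec260d_ntB

open Complex Set Filter Topology MeasureTheory

private theorem cth_zt_add (a b : ℝ) (p : ℕ) : zt (a + b) p = zt a p * zt b p := by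
  unfold zt
  rw [← Complex.exp_add]
  congr 1
  push_cast
  ring

private theorem cth_zt_norm (a : ℝ) (p : ℕ) : ‖zt a p‖ = 1 := by
  unfold zt
  rw [← Complex.ofReal_neg, Complex.norm_exp_ofReal_mul_I]

private theorem cth_pow (W T s : ℝ) {p : ℕ} (hp : p ≠ 0) :
    (p : ℂ) ^ (-(sW W T s)) = (((p : ℝ) ^ (-(1 / 2 + W / Real.log T)) : ℝ) : ℂ) * zt s p := by
  have hp0 : (p : ℂ) ≠ 0 := by exact_mod_cast hp
  have h1 : -(sW W T s) = ((-(1 / 2 + W / Real.log T) : ℝ) : ℂ) + (-(s * I)) := by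
    unfold sW
    push_cast
    ring
  rw [h1, Complex.cpow_add _ _ hp0]
  congr 1
  · rw [Complex.ofReal_cpow (Nat.cast_nonneg p), Complex.ofReal_natCast]
  · rw [Complex.cpow_def_of_ne_zero hp0, ← Complex.natCast_log]
    unfold zt
    congr 1
    push_cast
    ring

private theorem cth_YB (δ W T : ℝ) (j : ℕ) (s : ℝ) :
    YB δ W T j s = (1 / Real.pi) *
      (∑ p ∈ Pr δ T j, (((p : ℝ) ^ (-(1 / 2 + W / Real.log T)) : ℝ) : ℂ) * zt s p).im := by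
  unfold YB Pj
  congr 2
  refine Finset.sum_congr rfl fun p hp => ?_
  have h1 : p ≠ 0 := by
    unfold Pr at hp
    rw [Finset.mem_filter] at hp
    exact hp.2.1.ne_zero
  exact cth_pow W T s h1

theorem thj_eq (δ W T : ℝ) {k : ℕ} (w : ℕ → ℝ) (ζ : Fin k → ℝ) (j : ℕ) (t : ℝ) :
    Thj δ W T w ζ j t = TH (Pr δ T j) (uu W T w ζ) (zt t) := by
  have h1 : ∑ p ∈ Pr δ T j, uu W T w ζ p * zt t p = ∑ i : Fin k, ((ζ i * (1 / Real.pi) : ℝ) : ℂ) *
      ((∑ p ∈ Pr δ T j, (((p : ℝ) ^ (-(1 / 2 + W / Real.log T)) : ℝ) : ℂ) *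
          zt (t + hT T * w ((i : ℕ) + 1)) p) -
        ∑ p ∈ Pr δ T j, (((p : ℝ) ^ (-(1 / 2 + W / Real.log T)) : ℝ) : ℂ) *
          zt (t + hT T * w (i : ℕ)) p) := by
    have h2 : ∀ p, uu W T w ζ p * zt t p = ∑ i : Fin k, ((ζ i * (1 / Real.pi) : ℝ) : ℂ) *
        ((((p : ℝ) ^ (-(1 / 2 + W / Real.log T)) : ℝ) : ℂ) * zt (t + hT T * w ((i : ℕ) + 1)) p -
        (((p : ℝ) ^ (-(1 / 2 + W / Real.log T)) : ℝ) : ℂ) * zt (t + hT T * w (i : ℕ)) p) := by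
      intro p
      unfold uu
      rw [Finset.mul_sum, Finset.sum_mul]
      refine Finset.sum_congr rfl fun i _ => ?_
      rw [cth_zt_add, cth_zt_add, Complex.ofReal_mul, Complex.ofReal_mul]
      ring
    rw [Finset.sum_congr rfl fun p _ => h2 p, Finset.sum_comm]
    refine Finset.sum_congr rfl fun i _ => ?_
    rw [← Finset.sum_sub_distrib, Finset.mul_sum]
  unfold Thj TH
  rw [h1, Complex.im_sum]
  refine Finset.sum_congr rfl fun i _ => ?_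
  rw [Complex.im_ofReal_mul, Complex.sub_im, cth_YB, cth_YB]
  ring

theorem uu_sub (W T : ℝ) {k : ℕ} (w : ℕ → ℝ) (ζ ζ' : Fin k → ℝ) (p : ℕ) :
    uu W T w ζ p - uu W T w ζ' p = uu W T w (fun i => ζ i - ζ' i) p := by
  unfold uu
  rw [← mul_sub, ← Finset.sum_sub_distrib]
  congr 1
  refine Finset.sum_congr rfl fun i _ => ?_
  rw [Complex.ofReal_sub]
  ring

theorem uu_norm_le {W T : ℝ} (hW : 0 ≤ W) (hT : 1 < T) {k : ℕ} (w : ℕ → ℝ) (ζ : Fin k → ℝ) {c : ℝ}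
    (hζ : ∀ i, |ζ i| ≤ c) {p : ℕ} (hp : 1 ≤ p) :
    ‖uu W T w ζ p‖ ≤ c * k * (p : ℝ) ^ (-(1 / 2) : ℝ) := by
  have hp1 : (1 : ℝ) ≤ p := by exact_mod_cast hp
  have hlog : 0 < Real.log T := Real.log_pos hT
  have ha : (p : ℝ) ^ (-(1 / 2 + W / Real.log T)) ≤ (p : ℝ) ^ (-(1 / 2) : ℝ) := by
    refine Real.rpow_le_rpow_of_exponent_le hp1 ?_
    have h1 : 0 ≤ W / Real.log T := div_nonneg hW hlog.le
    linarith
  have ha0 : 0 ≤ (p : ℝ) ^ (-(1 / 2 + W / Real.log T)) := Real.rpow_nonneg (by linarith) _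
  have hs : ‖∑ i : Fin k, ((ζ i : ℝ) : ℂ) * (zt (Pool.Agent.Lib.MP_ec260d_ntB.hT T * w ((i : ℕ) + 1)) p -
      zt (Pool.Agent.Lib.MP_ec260d_ntB.hT T * w (i : ℕ)) p)‖ ≤ k * (c * 2) := by
    refine (norm_sum_le _ _).trans ?_
    have h1 : ∀ i ∈ (Finset.univ : Finset (Fin k)), ‖((ζ i : ℝ) : ℂ) *
        (zt (Pool.Agent.Lib.MP_ec260d_ntB.hT T * w ((i : ℕ) + 1)) p -
        zt (Pool.Agent.Lib.MP_ec260d_ntB.hT T * w (i : ℕ)) p)‖ ≤ c * 2 := by
      intro i _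
      rw [norm_mul, Complex.norm_real, Real.norm_eq_abs]
      have h2 : ‖zt (Pool.Agent.Lib.MP_ec260d_ntB.hT T * w ((i : ℕ) + 1)) p -
        zt (Pool.Agent.Lib.MP_ec260d_ntB.hT T * w (i : ℕ)) p‖ ≤ 2 := by
        refine (norm_sub_le _ _).trans ?_
        rw [cth_zt_norm, cth_zt_norm]
        norm_num
      exact mul_le_mul (hζ i) h2 (norm_nonneg _) ((abs_nonneg _).trans (hζ i))
    refine (Finset.sum_le_sum h1).trans ?_
    rw [Finset.sum_const, Finset.card_univ, Fintype.card_fin, nsmul_eq_mul]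
  have hck : 0 ≤ c * k := by
    rcases Nat.eq_zero_or_pos k with h | h
    · rw [h, Nat.cast_zero, mul_zero]
    · have h1 : 0 ≤ c := (abs_nonneg _).trans (hζ ⟨0, h⟩)
      positivity
  unfold uu
  rw [norm_mul, Complex.norm_real, Real.norm_eq_abs, abs_mul, abs_of_nonneg ha0,
    abs_of_nonneg (by positivity : (0 : ℝ) ≤ 1 / Real.pi)]
  have hpi : 1 / Real.pi ≤ 1 / 2 := by
    refine one_div_le_one_div_of_le (by norm_num) ?_
    linarith [Real.pi_gt_three]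
  have h3 : 1 / Real.pi * (p : ℝ) ^ (-(1 / 2 + W / Real.log T)) ≤ 1 / 2 * (p : ℝ) ^ (-(1 / 2) : ℝ) :=
    mul_le_mul hpi ha ha0 (by norm_num)
  have h4 : 0 ≤ 1 / 2 * (p : ℝ) ^ (-(1 / 2) : ℝ) := by positivity
  refine (mul_le_mul h3 hs (norm_nonneg _) h4).trans (le_of_eq ?_)
  ring

theorem thj_smul (δ W T : ℝ) {k : ℕ} (w : ℕ → ℝ) (ζ : Fin k → ℝ) (j : ℕ) (t c : ℝ) :
    Thj δ W T w (fun i => c * ζ i) j t = c * Thj δ W T w ζ j t := by
  unfold Thj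
  rw [Finset.mul_sum]
  refine Finset.sum_congr rfl fun i _ => ?_
  ring

theorem vv_smul (δ W T : ℝ) {k : ℕ} (w : ℕ → ℝ) (ζ : Fin k → ℝ) (c : ℝ) :
    VV δ W T w (fun i => c * ζ i) = c ^ 2 * VV δ W T w ζ := by
  have h1 : ∀ p, uu W T w (fun i => c * ζ i) p = (c : ℂ) * uu W T w ζ p := by
    intro p
    unfold uu
    rw [Finset.mul_sum, Finset.mul_sum, Finset.mul_sum]
    refine Finset.sum_congr rfl fun i _ => ?_
    rw [Complex.ofReal_mul c]
    ring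
  unfold VV
  rw [Finset.mul_sum]
  refine Finset.sum_congr rfl fun j _ => ?_
  rw [Finset.mul_sum]
  refine Finset.sum_congr rfl fun p _ => ?_
  rw [h1, norm_mul, Complex.norm_real, Real.norm_eq_abs, mul_pow, sq_abs]

theorem gg_continuous (δ W T : ℝ) {k : ℕ} (w : ℕ → ℝ) (K : ℝ) :
    Continuous (fun q : (Fin k → ℝ) × ℝ => GG δ W T w (fun i => q.1 i / K) q.2) := by
  have h1 : ∀ j, Continuous (fun q : (Fin k → ℝ) × ℝ => Thj δ W T w (fun i => q.1 i / K) j q.2) := by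
    intro j
    have h2 : (fun q : (Fin k → ℝ) × ℝ => Thj δ W T w (fun i => q.1 i / K) j q.2) =
        fun q => TH (Pr δ T j) (uu W T w (fun i => q.1 i / K)) (zt q.2) := by
      funext q
      exact thj_eq δ W T w _ j q.2
    rw [h2]
    unfold TH uu zt
    refine Complex.continuous_im.comp (continuous_finsetSum _ fun p _ => ?_)
    fun_prop
  unfold GG
  refine continuous_finsetProd _ fun j _ => ?_
  unfold ex
  refine continuous_finsetSum _ fun r _ => ?_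
  have h3 := h1 j
  fun_prop

end Pool.Agent.Lib.MP_ec260d_ntB
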