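import Mathlib
import Pool.Agent.Lib.MP_ec260d_ntB.CDefs

/-!
# CTr: truncated exponentials

`ex_sub_exp`: put `f_d(θ) = ex d (iθ) - exp (iθ)`. Then `f_0(θ) = 1 - exp (iθ)`, `|f_0| ≤ |θ|`; `f_{d+1}' = i f_d`, `f_{d+1}(0) = 0`, so
`|f_{d+1}(θ)| ≤ |∫_0^θ |f_d|| ≤ |θ|^(d+2)/(d+2)!` by induction (or by a Taylor estimate of Mathlib).

`pow_fact_le`: `(λ|θ|)^n / n! ≤ exp (λ|θ|) ≤ exp (λθ) + exp (-λθ)` (`Real.pow_div_factorial_le_exp`).

`trunc_one`: `(d+1)! ≥ ((d+1)/e)^(d+1)` (from `Real.pow_div_factorial_le_exp` with `x = d+1`), so for `|θ| ≤ d/50` the error in `ex_sub_exp` is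
`≤ (e/50)^(d+1) ≤ e^(-d)`.

`trunc_prod`: for `|b_j| = 1`, `|a_j - b_j| ≤ ε_j`: `|∏ a_j - ∏ b_j| ≤ ∏ (1 + ε_j) - 1 ≤ exp (∑ ε_j) - 1 ≤ 2 ∑ ε_j` as `∑ ε_j ≤ 1`.
-/

namespace Pool.Agent.Lib.MP_ec260d_ntB

open Complex Set Filter Topology MeasureTheory

private lemma ctr_deriv (u : ℂ) (d : ℕ) (x : ℝ) :
    HasDerivAt (fun θ : ℝ => ex (d + 1) ((θ : ℂ) * u)) (u * ex d ((x : ℂ) * u)) x := by
  induction d with
  | zero =>
    have h1 : (fun θ : ℝ => ex (0 + 1) ((θ : ℂ) * u)) = fun θ : ℝ => 1 + (θ : ℂ) * u := by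
      funext θ
      simp [ex, Finset.sum_range_succ]
    have h2 : u * ex 0 ((x : ℂ) * u) = 1 * u := by
      simp [ex]
    rw [h1, h2]
    exact ((Complex.ofRealCLM.hasDerivAt (x := x)).mul_const u).const_add 1
  | succ d ih =>
    have h1 : (fun θ : ℝ => ex (d + 1 + 1) ((θ : ℂ) * u)) = fun θ : ℝ =>
        ex (d + 1) ((θ : ℂ) * u) + ((θ : ℂ) * u) ^ (d + 2) / ((d + 2).factorial : ℂ) := by
      funext θ
      unfold ex
      rw [Finset.sum_range_succ]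
    have h2 : u * ex (d + 1) ((x : ℂ) * u) =
        u * ex d ((x : ℂ) * u) + ((d + 2 : ℕ) : ℂ) * ((x : ℂ) * u) ^ (d + 1) * (1 * u) /
          ((d + 2).factorial : ℂ) := by
      have h3 : ex (d + 1) ((x : ℂ) * u) =
          ex d ((x : ℂ) * u) + ((x : ℂ) * u) ^ (d + 1) / ((d + 1).factorial : ℂ) := by
        unfold ex
        rw [Finset.sum_range_succ]
      have h4 : ((d + 2).factorial : ℂ) = ((d + 2 : ℕ) : ℂ) * ((d + 1).factorial : ℂ) := by
        rw [Nat.factorial_succ]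
        push_cast
        ring
      have h5 : ((d + 2 : ℕ) : ℂ) ≠ 0 := Nat.cast_ne_zero.2 (by omega)
      have h6 : ((d + 1).factorial : ℂ) ≠ 0 := Nat.cast_ne_zero.2 (Nat.factorial_ne_zero _)
      rw [h3, h4]
      field_simp
    rw [h1, h2]
    refine ih.add ?_
    have h3 := ((Complex.ofRealCLM.hasDerivAt (x := x)).mul_const u).pow (d + 2)
    exact h3.div_const _

private lemma ctr_exp_deriv (u : ℂ) (x : ℝ) :
    HasDerivAt (fun θ : ℝ => cexp ((θ : ℂ) * u)) (u * cexp ((x : ℂ) * u)) x := by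
  have h := ((Complex.ofRealCLM.hasDerivAt (x := x)).mul_const u).cexp
  have e : u * cexp ((x : ℂ) * u) = cexp (Complex.ofRealCLM x * u) * (Complex.ofRealCLM 1 * u) := by
    simp [mul_comm]
  rw [e]
  exact h

private lemma ctr_bound_deriv (d : ℕ) (x : ℝ) :
    HasDerivAt (fun θ : ℝ => θ ^ (d + 2) / ((d + 2).factorial : ℝ))
      (x ^ (d + 1) / ((d + 1).factorial : ℝ)) x := by
  have h := (hasDerivAt_pow (d + 2) x).div_const ((d + 2).factorial : ℝ)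
  have e : x ^ (d + 1) / ((d + 1).factorial : ℝ) =
      ((d + 2 : ℕ) : ℝ) * x ^ (d + 2 - 1) / ((d + 2).factorial : ℝ) := by
    have h4 : ((d + 2).factorial : ℝ) = ((d + 2 : ℕ) : ℝ) * ((d + 1).factorial : ℝ) := by
      rw [Nat.factorial_succ]
      push_cast
      ring
    have h5 : ((d + 2 : ℕ) : ℝ) ≠ 0 := Nat.cast_ne_zero.2 (by omega)
    have h6 : ((d + 1).factorial : ℝ) ≠ 0 := Nat.cast_ne_zero.2 (Nat.factorial_ne_zero _)
    have h7 : d + 2 - 1 = d + 1 := by omega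
    rw [h4, h7]
    field_simp
  rw [e]
  exact h

private lemma ctr_half (u : ℂ) (hu : ‖u‖ = 1) (hu' : ∀ θ : ℝ, ‖cexp ((θ : ℂ) * u)‖ = 1)
    (d : ℕ) : ∀ θ : ℝ, 0 ≤ θ →
      ‖ex d ((θ : ℂ) * u) - cexp ((θ : ℂ) * u)‖ ≤ θ ^ (d + 1) / ((d + 1).factorial : ℝ) := by
  induction d with
  | zero =>
    intro θ hθ
    have hd : ∀ x : ℝ, HasDerivAt (fun θ : ℝ => ex 0 ((θ : ℂ) * u) - cexp ((θ : ℂ) * u))
        (0 - u * cexp ((x : ℂ) * u)) x := by
      intro x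
      have h1 : (fun θ : ℝ => ex 0 ((θ : ℂ) * u)) = fun _ => (1 : ℂ) := by
        funext θ
        simp [ex]
      have h2 : HasDerivAt (fun θ : ℝ => ex 0 ((θ : ℂ) * u)) 0 x := by
        rw [h1]
        exact hasDerivAt_const x 1
      exact h2.sub (ctr_exp_deriv u x)
    have h := image_norm_le_of_norm_deriv_right_le_deriv_boundary (a := 0) (b := θ)
      (f := fun θ : ℝ => ex 0 ((θ : ℂ) * u) - cexp ((θ : ℂ) * u))
      (f' := fun x : ℝ => 0 - u * cexp ((x : ℂ) * u))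
      (fun x _ => (hd x).continuousAt.continuousWithinAt)
      (fun x _ => (hd x).hasDerivWithinAt) (B := fun x => x) (B' := fun _ => 1)
      (by simp [ex]) (fun x => hasDerivAt_id x)
      (fun x _ => by rw [zero_sub, norm_neg, norm_mul, hu, hu', one_mul])
      (Set.right_mem_Icc.2 hθ)
    simpa using h
  | succ d ih =>
    intro θ hθ
    have hd : ∀ x : ℝ, HasDerivAt (fun θ : ℝ => ex (d + 1) ((θ : ℂ) * u) - cexp ((θ : ℂ) * u))
        (u * ex d ((x : ℂ) * u) - u * cexp ((x : ℂ) * u)) x := fun x =>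
      (ctr_deriv u d x).sub (ctr_exp_deriv u x)
    have h0 : ‖ex (d + 1) (((0 : ℝ) : ℂ) * u) - cexp (((0 : ℝ) : ℂ) * u)‖ ≤
        (0 : ℝ) ^ (d + 2) / ((d + 2).factorial : ℝ) := by
      rw [zero_pow (by omega), zero_div, Complex.ofReal_zero, zero_mul, Complex.exp_zero]
      unfold ex
      rw [Finset.sum_range_succ']
      simp
    exact image_norm_le_of_norm_deriv_right_le_deriv_boundary (a := 0) (b := θ)
      (f := fun θ : ℝ => ex (d + 1) ((θ : ℂ) * u) - cexp ((θ : ℂ) * u))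
      (f' := fun x : ℝ => u * ex d ((x : ℂ) * u) - u * cexp ((x : ℂ) * u))
      (fun x _ => (hd x).continuousAt.continuousWithinAt)
      (fun x _ => (hd x).hasDerivWithinAt)
      (B := fun x => x ^ (d + 2) / ((d + 2).factorial : ℝ))
      (B' := fun x => x ^ (d + 1) / ((d + 1).factorial : ℝ))
      h0 (fun x => ctr_bound_deriv d x)
      (fun x hx => by
        rw [← mul_sub, norm_mul, hu, one_mul]
        exact ih x hx.1)
      (Set.right_mem_Icc.2 hθ)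

theorem ex_sub_exp (d : ℕ) (θ : ℝ) :
    ‖ex d ((θ : ℂ) * I) - cexp ((θ : ℂ) * I)‖ ≤ |θ| ^ (d + 1) / ((d + 1).factorial : ℝ) := by
  rcases le_total 0 θ with h | h
  · have h1 := ctr_half I Complex.norm_I (fun θ => Complex.norm_exp_ofReal_mul_I θ) d θ h
    rw [abs_of_nonneg h]
    exact h1
  · have h2 : ∀ θ : ℝ, ‖cexp ((θ : ℂ) * -I)‖ = 1 := by
      intro θ
      have e : (θ : ℂ) * -I = ((-θ : ℝ) : ℂ) * I := by
        push_cast
        ring
      rw [e]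
      exact Complex.norm_exp_ofReal_mul_I _
    have h1 := ctr_half (-I) (by rw [norm_neg, Complex.norm_I]) h2 d (-θ) (by linarith)
    have e : (((-θ : ℝ)) : ℂ) * -I = (θ : ℂ) * I := by
      push_cast
      ring
    rw [e] at h1
    rw [abs_of_nonpos h]
    exact h1

theorem pow_fact_le (n : ℕ) (θ lam : ℝ) (hl : 0 < lam) :
    |θ| ^ n / (n.factorial : ℝ) ≤ lam⁻¹ ^ n * (Real.exp (lam * θ) + Real.exp (-(lam * θ))) := by
  have h1 : |θ| ^ n / (n.factorial : ℝ) = lam⁻¹ ^ n * ((lam * |θ|) ^ n / (n.factorial : ℝ)) := by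
    rw [mul_pow, inv_pow]
    have : lam ^ n ≠ 0 := pow_ne_zero n hl.ne'
    field_simp
  have h2 : (lam * |θ|) ^ n / (n.factorial : ℝ) ≤ Real.exp (lam * |θ|) :=
    Real.pow_div_factorial_le_exp _ (by positivity) n
  have h3 : Real.exp (lam * |θ|) ≤ Real.exp (lam * θ) + Real.exp (-(lam * θ)) := by
    rcases le_total 0 θ with h | h
    · rw [abs_of_nonneg h]
      have := Real.exp_pos (-(lam * θ))
      linarith
    · rw [abs_of_nonpos h, mul_neg]
      have := Real.exp_pos (lam * θ)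
      linarith
  rw [h1]
  exact mul_le_mul_of_nonneg_left (h2.trans h3) (by positivity)

theorem trunc_one (d : ℕ) (θ : ℝ) (hθ : |θ| ≤ d / 50) :
    ‖ex d ((θ : ℂ) * I) - cexp ((θ : ℂ) * I)‖ ≤ Real.exp (-(d : ℝ)) := by
  refine (ex_sub_exp d θ).trans ?_
  have hd : (0 : ℝ) ≤ d := Nat.cast_nonneg d
  have hf : (0 : ℝ) < ((d + 1).factorial : ℝ) := by exact_mod_cast Nat.factorial_pos _
  have h1 : |θ| ^ (d + 1) ≤ (((d : ℝ) + 1) / 50) ^ (d + 1) :=
    pow_le_pow_left₀ (abs_nonneg θ) (hθ.trans (by linarith)) _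
  have h2 : ((d : ℝ) + 1) ^ (d + 1) / ((d + 1).factorial : ℝ) ≤ Real.exp ((d : ℝ) + 1) :=
    Real.pow_div_factorial_le_exp _ (by linarith) (d + 1)
  have h3 : |θ| ^ (d + 1) / ((d + 1).factorial : ℝ) ≤
      (1 / 50) ^ (d + 1) * Real.exp ((d : ℝ) + 1) := by
    calc |θ| ^ (d + 1) / ((d + 1).factorial : ℝ) ≤
        (((d : ℝ) + 1) / 50) ^ (d + 1) / ((d + 1).factorial : ℝ) := by gcongr
      _ = (1 / 50) ^ (d + 1) * (((d : ℝ) + 1) ^ (d + 1) / ((d + 1).factorial : ℝ)) := by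
          rw [div_pow, div_pow, one_pow]
          ring
      _ ≤ _ := mul_le_mul_of_nonneg_left h2 (by positivity)
  refine h3.trans ?_
  have h4 : (1 / 50 : ℝ) ≤ Real.exp (-2) := by
    rw [Real.exp_neg, one_div]
    have h5 : Real.exp 2 ≤ 50 := by
      have h6 : Real.exp 2 = Real.exp 1 ^ 2 := by
        rw [← Real.exp_nat_mul]
        norm_num
      have h7 := Real.exp_one_lt_d9
      have h8 := Real.exp_pos 1
      rw [h6]
      nlinarith
    exact inv_anti₀ (Real.exp_pos 2) h5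
  have h5 : (1 / 50 : ℝ) ^ (d + 1) ≤ Real.exp (-2) ^ (d + 1) :=
    pow_le_pow_left₀ (by norm_num) h4 _
  have h6 : Real.exp (-2) ^ (d + 1) * Real.exp ((d : ℝ) + 1) = Real.exp (-((d : ℝ) + 1)) := by
    rw [← Real.exp_nat_mul, ← Real.exp_add]
    congr 1
    push_cast
    ring
  calc (1 / 50 : ℝ) ^ (d + 1) * Real.exp ((d : ℝ) + 1) ≤
      Real.exp (-2) ^ (d + 1) * Real.exp ((d : ℝ) + 1) :=
        mul_le_mul_of_nonneg_right h5 (Real.exp_pos _).le
    _ = Real.exp (-((d : ℝ) + 1)) := h6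
    _ ≤ _ := Real.exp_le_exp.2 (by linarith)

private lemma ctr_prod (J : Finset ℕ) (a b : ℕ → ℂ) (ε : ℕ → ℝ)
    (hb : ∀ j ∈ J, ‖b j‖ = 1) (hab : ∀ j ∈ J, ‖a j - b j‖ ≤ ε j) :
    ‖(∏ j ∈ J, a j) - ∏ j ∈ J, b j‖ ≤ (∏ j ∈ J, (1 + ε j)) - 1 := by
  classical
  induction J using Finset.induction_on with
  | empty => simp
  | insert j J hj ih =>
    rw [Finset.prod_insert hj, Finset.prod_insert hj, Finset.prod_insert hj]
    have ih' := ih (fun i hi => hb i (Finset.mem_insert_of_mem hi))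
      (fun i hi => hab i (Finset.mem_insert_of_mem hi))
    have h1 := hb j (Finset.mem_insert_self j J)
    have h2 := hab j (Finset.mem_insert_self j J)
    have h3 : ‖∏ i ∈ J, b i‖ = 1 := by
      rw [norm_prod]
      exact Finset.prod_eq_one fun i hi => hb i (Finset.mem_insert_of_mem hi)
    have e : a j * ∏ i ∈ J, a i - b j * ∏ i ∈ J, b i =
        a j * ((∏ i ∈ J, a i) - ∏ i ∈ J, b i) + (a j - b j) * ∏ i ∈ J, b i := by ring
    have h4 : ‖a j‖ ≤ 1 + ε j := by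
      have h5 : a j = b j + (a j - b j) := by ring
      rw [h5]
      refine (norm_add_le _ _).trans ?_
      rw [h1]
      linarith
    have h5 : 0 ≤ (∏ i ∈ J, (1 + ε i)) - 1 := (norm_nonneg _).trans ih'
    rw [e]
    refine (norm_add_le _ _).trans ?_
    rw [norm_mul, norm_mul, h3, mul_one]
    have h6 : ‖a j‖ * ‖(∏ i ∈ J, a i) - ∏ i ∈ J, b i‖ ≤
        (1 + ε j) * ((∏ i ∈ J, (1 + ε i)) - 1) :=
      mul_le_mul h4 ih' (norm_nonneg _) ((norm_nonneg _).trans h4)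
    linarith

theorem trunc_prod (J : Finset ℕ) (d : ℕ → ℕ) (θ : ℕ → ℝ) (hθ : ∀ j ∈ J, |θ j| ≤ d j / 50)
    (hs : ∑ j ∈ J, Real.exp (-(d j : ℝ)) ≤ 1) :
    ‖(∏ j ∈ J, ex (d j) ((θ j : ℂ) * I)) - cexp (((∑ j ∈ J, θ j : ℝ) : ℂ) * I)‖ ≤
      2 * ∑ j ∈ J, Real.exp (-(d j : ℝ)) := by
  have e : cexp (((∑ j ∈ J, θ j : ℝ) : ℂ) * I) = ∏ j ∈ J, cexp ((θ j : ℂ) * I) := by
    rw [← Complex.exp_sum, Complex.ofReal_sum, Finset.sum_mul]
  rw [e]
  have h1 := ctr_prod J (fun j => ex (d j) ((θ j : ℂ) * I)) (fun j => cexp ((θ j : ℂ) * I))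
    (fun j => Real.exp (-(d j : ℝ))) (fun j _ => Complex.norm_exp_ofReal_mul_I _)
    (fun j hj => trunc_one (d j) (θ j) (hθ j hj))
  have h2 : ∏ j ∈ J, (1 + Real.exp (-(d j : ℝ))) ≤ Real.exp (∑ j ∈ J, Real.exp (-(d j : ℝ))) := by
    rw [Real.exp_sum]
    refine Finset.prod_le_prod (fun j _ => by positivity) fun j _ => ?_
    have := Real.add_one_le_exp (Real.exp (-(d j : ℝ)))
    linarith
  have h0 : 0 ≤ ∑ j ∈ J, Real.exp (-(d j : ℝ)) :=
    Finset.sum_nonneg fun j _ => (Real.exp_pos _).le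
  have h3 := Real.abs_exp_sub_one_le (by rw [abs_of_nonneg h0]; exact hs)
  rw [abs_of_nonneg h0] at h3
  have h4 := (abs_le.1 h3).2
  exact h1.trans (by linarith)

end Pool.Agent.Lib.MP_ec260d_ntB
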