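import Mathlib
import Pool.Agent.Lib.MP_ec260d_ntB.CTr
import Pool.Agent.Lib.MP_ec260d_ntB.CTh

/-!
# CF: the detector is bounded below on the event

Write `D_i = ∑_j (YB_j(t + h w_{i+1}) - YB_j(t + h w_i))`, `v_i = (D_i - y_i)/K`, `|v_i| ≤ 1` by `h1`. For `ξ` in the box: `|Thj (ξ/K) j t| ≤ ∑_i |ξ_i/K| * 2 * d_j/(100 (k+1)) ≤ d_j/50` by `h2`
and `K ≥ 1`, so `trunc_prod` (its second hypothesis follows from `hs`) gives `‖GG (ξ/K) t - exp (i ∑_j Thj)‖ ≤ 2 ∑ exp (-d_j)`, and `∑_j Thj (ξ/K) j t = ∑_i ξ_i D_i/K`.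
Hence `FF` differs from `∫_{box} ∏ (1 - |ξ_i|) exp (i ∑ ξ_i v_i) dξ` by at most `2^k * 2 ∑ exp (-d_j) ≤ (11/12)^k/2` (volume of the box `2^k`, weights in `[0,1]`).
The integral is the product over `i` of `∫_{-1}^1 (1 - |x|) exp (i x v_i) dx` (`MeasureTheory.integral_fintype_prod_eq_prod` for the restricted measures;
`Measure.restrict_pi_pi` : the restriction of `volume` to the box is the product of the restrictions), a real number
`= ∫_{-1}^1 (1 - |x|) cos (x v_i) dx ≥ ∫_{-1}^1 (1 - |x|)(1 - x^2/2) dx = 11/12` (the imaginary part vanishes by symmetry; or just bound the real part of ... the factor is real).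
-/

namespace Pool.Agent.Lib.MP_ec260d_ntB

open Complex Set Filter Topology MeasureTheory

private lemma cf_pt (v x : ℝ) :
    ((1 - |x| : ℝ) : ℂ) * cexp (((x * v : ℝ) : ℂ) * I)
      = (((1 - |x|) * Real.cos (x * v) : ℝ) : ℂ) + (((1 - |x|) * Real.sin (x * v) : ℝ) : ℂ) * I := by
  rw [Complex.exp_mul_I, ← Complex.ofReal_cos, ← Complex.ofReal_sin]
  push_cast
  ring

private lemma cf_sin (v : ℝ) : (∫ x in (-1 : ℝ)..1, (1 - |x|) * Real.sin (x * v)) = 0 := by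
  have h := intervalIntegral.integral_comp_neg (a := (-1 : ℝ)) (b := 1)
    (fun x : ℝ => (1 - |x|) * Real.sin (x * v))
  have h2 : (∫ x in (-1 : ℝ)..1, (fun x : ℝ => (1 - |x|) * Real.sin (x * v)) (-x))
      = - ∫ x in (-1 : ℝ)..1, (1 - |x|) * Real.sin (x * v) := by
    rw [← intervalIntegral.integral_neg]
    apply intervalIntegral.integral_congr
    intro x _
    simp only [abs_neg, neg_mul, Real.sin_neg, mul_neg]
  rw [h2] at h
  simp only [neg_neg] at h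
  linarith

private lemma cf_poly : (∫ x in (-1 : ℝ)..1, (1 - |x|) * (1 - x ^ 2 / 2)) = 11 / 12 := by
  have hc : Continuous (fun x : ℝ => (1 - |x|) * (1 - x ^ 2 / 2)) := by fun_prop
  rw [← intervalIntegral.integral_add_adjacent_intervals (b := (0 : ℝ))
    (hc.intervalIntegrable _ _) (hc.intervalIntegrable _ _)]
  have e1 : (∫ x in (-1 : ℝ)..0, (1 - |x|) * (1 - x ^ 2 / 2))
      = ∫ x in (0 : ℝ)..1, (1 - |x|) * (1 - x ^ 2 / 2) := by
    have h := intervalIntegral.integral_comp_neg (a := (0 : ℝ)) (b := 1)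
      (fun x : ℝ => (1 - |x|) * (1 - x ^ 2 / 2))
    simp only [abs_neg, neg_zero, even_two, Even.neg_pow] at h
    exact h.symm
  have e2 : (∫ x in (0 : ℝ)..1, (1 - |x|) * (1 - x ^ 2 / 2)) = 11 / 24 := by
    have h3 : (∫ x in (0 : ℝ)..1, (1 - |x|) * (1 - x ^ 2 / 2))
        = ∫ x in (0 : ℝ)..1, (1 - x - x ^ 2 * (1 / 2) + x ^ 3 * (1 / 2)) := by
      apply intervalIntegral.integral_congr
      intro x hx
      rw [uIcc_of_le (by norm_num : (0 : ℝ) ≤ 1)] at hx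
      simp only [abs_of_nonneg hx.1]
      ring
    rw [h3, intervalIntegral.integral_add, intervalIntegral.integral_sub, intervalIntegral.integral_sub,
      intervalIntegral.integral_mul_const, intervalIntegral.integral_mul_const, integral_pow, integral_pow,
      integral_id, intervalIntegral.integral_const]
    · norm_num
    all_goals exact Continuous.intervalIntegrable (by fun_prop) _ _
  rw [e1, e2]
  norm_num

theorem tri_int (v : ℝ) (hv : |v| ≤ 1) :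
    ∃ r : ℝ, 11 / 12 ≤ r ∧ (∫ x in Icc (-1 : ℝ) 1, ((1 - |x| : ℝ) : ℂ) * cexp (((x * v : ℝ) : ℂ) * I)) = (r : ℂ) := by
  refine ⟨∫ x in (-1 : ℝ)..1, (1 - |x|) * Real.cos (x * v), ?_, ?_⟩
  · rw [← cf_poly]
    apply intervalIntegral.integral_mono_on (by norm_num)
      (Continuous.intervalIntegrable (by fun_prop) _ _) (Continuous.intervalIntegrable (by fun_prop) _ _)
    intro x hx
    have hx1 : |x| ≤ 1 := abs_le.mpr hx
    apply mul_le_mul_of_nonneg_left _ (by linarith)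
    have h1 : 1 - (x * v) ^ 2 / 2 ≤ Real.cos (x * v) := Real.one_sub_sq_div_two_le_cos
    have h2 : v ^ 2 ≤ 1 := by
      rw [← sq_abs]; nlinarith [abs_nonneg v]
    have h3 : (x * v) ^ 2 ≤ x ^ 2 := by
      rw [mul_pow]; nlinarith [sq_nonneg x]
    linarith
  · rw [integral_Icc_eq_integral_Ioc, ← intervalIntegral.integral_of_le (by norm_num)]
    have h0 : (∫ x in (-1 : ℝ)..1, ((1 - |x| : ℝ) : ℂ) * cexp (((x * v : ℝ) : ℂ) * I))
        = ∫ x in (-1 : ℝ)..1, ((((1 - |x|) * Real.cos (x * v) : ℝ) : ℂ)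
          + (((1 - |x|) * Real.sin (x * v) : ℝ) : ℂ) * I) := by
      apply intervalIntegral.integral_congr
      intro x _
      exact cf_pt v x
    rw [h0, intervalIntegral.integral_add, intervalIntegral.integral_mul_const,
      intervalIntegral.integral_ofReal, intervalIntegral.integral_ofReal, cf_sin]
    · simp
    all_goals exact Continuous.intervalIntegrable (by fun_prop) _ _

private lemma cf_thj_le {k : ℕ} (δ W T : ℝ) (w : ℕ → ℝ) (K t : ℝ) (hK : 1 ≤ K)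
    (h2 : ∀ j ∈ Finset.range (JJ T), ∀ i ≤ k,
      |YB δ W T j (t + hT T * w i)| ≤ dd δ j / (100 * ((k : ℝ) + 1)))
    (ξ : Fin k → ℝ) (hξ : ξ ∈ box k) (j : ℕ) (hj : j ∈ Finset.range (JJ T)) :
    |Thj δ W T w (fun i => ξ i / K) j t| ≤ dd δ j / 50 := by
  have hk : (0 : ℝ) < (k : ℝ) + 1 := by positivity
  have hd : (0 : ℝ) ≤ dd δ j / (100 * ((k : ℝ) + 1)) := by positivity
  have hone : ∀ i : Fin k, |ξ i / K * (YB δ W T j (t + hT T * w ((i : ℕ) + 1)) -
      YB δ W T j (t + hT T * w (i : ℕ)))| ≤ 2 * (dd δ j / (100 * ((k : ℝ) + 1))) := by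
    intro i
    have ha : |ξ i| ≤ 1 := abs_le.mpr (hξ i (Set.mem_univ i))
    have hb : |ξ i / K| ≤ 1 := by
      rw [abs_div, abs_of_nonneg (by linarith : (0 : ℝ) ≤ K)]
      rw [div_le_one (by linarith)]
      linarith
    have h3 := h2 j hj ((i : ℕ) + 1) (by have := i.2; omega)
    have h4 := h2 j hj (i : ℕ) (by have := i.2; omega)
    rw [abs_mul]
    have h5 : |YB δ W T j (t + hT T * w ((i : ℕ) + 1)) - YB δ W T j (t + hT T * w (i : ℕ))|
        ≤ 2 * (dd δ j / (100 * ((k : ℝ) + 1))) := by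
      have h6 := abs_sub (YB δ W T j (t + hT T * w ((i : ℕ) + 1))) (YB δ W T j (t + hT T * w (i : ℕ)))
      linarith
    calc |ξ i / K| * |YB δ W T j (t + hT T * w ((i : ℕ) + 1)) - YB δ W T j (t + hT T * w (i : ℕ))|
        ≤ 1 * (2 * (dd δ j / (100 * ((k : ℝ) + 1)))) := by
          apply mul_le_mul hb h5 (abs_nonneg _) zero_le_one
      _ = _ := one_mul _
  have hsum : |Thj δ W T w (fun i => ξ i / K) j t|
      ≤ ∑ _i : Fin k, 2 * ((dd δ j : ℝ) / (100 * ((k : ℝ) + 1))) := by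
    unfold Thj
    exact (Finset.abs_sum_le_sum_abs _ _).trans (Finset.sum_le_sum (fun i _ => hone i))
  refine hsum.trans ?_
  rw [Finset.sum_const, Finset.card_univ, Fintype.card_fin, nsmul_eq_mul]
  have hfrac : (k : ℝ) * (2 * ((dd δ j : ℝ) / (100 * ((k : ℝ) + 1)))) =
      ((dd δ j : ℝ) / 50) * ((k : ℝ) / ((k : ℝ) + 1)) := by
    field_simp
    ring
  rw [hfrac]
  have h7 : (k : ℝ) / ((k : ℝ) + 1) ≤ 1 := by
    rw [div_le_one hk]; linarith
  have h8 : (0 : ℝ) ≤ (dd δ j : ℝ) / 50 := by positivity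
  nlinarith

private lemma cf_sum_thj {k : ℕ} (δ W T : ℝ) (w : ℕ → ℝ) (K t : ℝ) (ξ : Fin k → ℝ) :
    ∑ j ∈ Finset.range (JJ T), Thj δ W T w (fun i => ξ i / K) j t
      = ∑ i : Fin k, ξ i / K * ∑ j ∈ Finset.range (JJ T), (YB δ W T j (t + hT T * w ((i : ℕ) + 1)) -
          YB δ W T j (t + hT T * w (i : ℕ))) := by
  unfold Thj
  rw [Finset.sum_comm]
  apply Finset.sum_congr rfl
  intro i _
  rw [Finset.mul_sum]

private lemma cf_main (k : ℕ) (v : Fin k → ℝ) (hv : ∀ i, |v i| ≤ 1) :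
    (11 / 12 : ℝ) ^ k ≤ ‖∫ ξ in box k, ∏ i : Fin k, (((1 - |ξ i| : ℝ) : ℂ) *
      cexp (((ξ i * v i : ℝ) : ℂ) * I))‖ := by
  have h1 : (∫ ξ in box k, ∏ i : Fin k, (((1 - |ξ i| : ℝ) : ℂ) * cexp (((ξ i * v i : ℝ) : ℂ) * I)))
      = ∏ i : Fin k, ∫ x in Icc (-1 : ℝ) 1, ((1 - |x| : ℝ) : ℂ) * cexp (((x * v i : ℝ) : ℂ) * I) := by
    unfold box
    rw [volume_pi, Measure.restrict_pi_pi]
    exact integral_fintype_prod_eq_prod (𝕜 := ℂ)
      (fun (i : Fin k) (x : ℝ) => ((1 - |x| : ℝ) : ℂ) * cexp (((x * v i : ℝ) : ℂ) * I))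
  rw [h1, norm_prod]
  have h2 : ∏ _i : Fin k, (11 / 12 : ℝ) = (11 / 12 : ℝ) ^ k := by
    rw [Finset.prod_const, Finset.card_univ, Fintype.card_fin]
  rw [← h2]
  apply Finset.prod_le_prod
  · intro i _; norm_num
  · intro i _
    obtain ⟨r, hr, he⟩ := tri_int (v i) (hv i)
    rw [he, Complex.norm_real, Real.norm_eq_abs]
    exact hr.trans (le_abs_self r)

private lemma cf_box_compact (k : ℕ) : IsCompact (box k) := by
  unfold box
  exact isCompact_univ_pi (fun _ => isCompact_Icc)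

private lemma cf_box_vol (k : ℕ) : (volume : Measure (Fin k → ℝ)).real (box k) = 2 ^ k := by
  unfold box
  rw [Measure.real, volume_pi_pi]
  simp only [Real.volume_Icc, Finset.prod_const, Finset.card_univ, Fintype.card_fin]
  rw [ENNReal.toReal_pow, ENNReal.toReal_ofReal (by norm_num)]
  norm_num

private lemma cf_contG {k : ℕ} (δ W T : ℝ) (w : ℕ → ℝ) (K t : ℝ) :
    Continuous (fun ξ : Fin k → ℝ => GG δ W T w (fun i => ξ i / K) t) := by
  have h := gg_continuous (k := k) δ W T w K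
  have h' : Continuous (fun ξ : Fin k → ℝ => (ξ, t)) := by fun_prop
  have h3 := Continuous.comp h h'
  simp only [Function.comp_def] at h3
  exact h3

private lemma cf_contA {k : ℕ} (y : Fin k → ℝ) (K : ℝ) :
    Continuous (fun ξ : Fin k → ℝ => ((∏ i : Fin k, (1 - |ξ i|) : ℝ) : ℂ) *
    cexp (-((∑ i : Fin k, ξ i * y i / K : ℝ) : ℂ) * I)) := by
  refine Continuous.mul ?_ ?_
  · apply Complex.continuous_ofReal.comp
    fun_prop
  · apply Complex.continuous_exp.comp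
    apply Continuous.mul _ continuous_const
    apply Continuous.neg
    apply Complex.continuous_ofReal.comp
    fun_prop

private lemma cf_contM {k : ℕ} (v : Fin k → ℝ) :
    Continuous (fun ξ : Fin k → ℝ => ∏ i : Fin k, (((1 - |ξ i| : ℝ) : ℂ) *
      cexp (((ξ i * v i : ℝ) : ℂ) * I))) := by
  apply continuous_finsetProd
  intro i _
  apply Continuous.mul
  · apply Complex.continuous_ofReal.comp
    fun_prop
  · apply Complex.continuous_exp.comp
    apply Continuous.mul _ continuous_const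
    apply Complex.continuous_ofReal.comp
    fun_prop

private lemma cf_comb {k : ℕ} (ξ y v D : Fin k → ℝ) (K S : ℝ) (hK : 0 < K)
    (hv : ∀ i, v i = (D i - y i) / K) (hS : S = ∑ i : Fin k, ξ i / K * D i) :
    ∏ i : Fin k, (((1 - |ξ i| : ℝ) : ℂ) * cexp (((ξ i * v i : ℝ) : ℂ) * I))
        = ((∏ i : Fin k, (1 - |ξ i|) : ℝ) : ℂ) * cexp (-((∑ i : Fin k, ξ i * y i / K : ℝ) : ℂ) * I) *
          cexp ((S : ℂ) * I) := by
  have h1 : ∑ i : Fin k, ξ i * v i = -(∑ i : Fin k, ξ i * y i / K) + S := by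
    rw [hS, ← Finset.sum_neg_distrib, ← Finset.sum_add_distrib]
    apply Finset.sum_congr rfl
    intro i _
    rw [hv i]
    field_simp
    ring
  have h2 : ∏ i : Fin k, cexp (((ξ i * v i : ℝ) : ℂ) * I)
      = cexp (-((∑ i : Fin k, ξ i * y i / K : ℝ) : ℂ) * I) * cexp ((S : ℂ) * I) := by
    rw [← Complex.exp_sum, ← Complex.exp_add, ← Finset.sum_mul, ← Complex.ofReal_sum, h1, ← add_mul]
    push_cast
    rfl
  rw [Finset.prod_mul_distrib, h2, Complex.ofReal_prod, mul_assoc]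

private lemma cf_wt {k : ℕ} (ξ y : Fin k → ℝ) (K : ℝ) (hξ : ξ ∈ box k) :
    ‖((∏ i : Fin k, (1 - |ξ i|) : ℝ) : ℂ) * cexp (-((∑ i : Fin k, ξ i * y i / K : ℝ) : ℂ) * I)‖ ≤ 1 := by
  rw [norm_mul, Complex.norm_real, ← Complex.ofReal_neg, Complex.norm_exp_ofReal_mul_I, mul_one,
    Real.norm_eq_abs, Finset.abs_prod]
  apply Finset.prod_le_one
  · intro i _; exact abs_nonneg _
  · intro i _
    have ha : |ξ i| ≤ 1 := abs_le.mpr (hξ i (Set.mem_univ i))
    rw [abs_le]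
    constructor <;> linarith [abs_nonneg (ξ i)]

private lemma cf_point {k : ℕ} (ξ y v D : Fin k → ℝ) (K S ε : ℝ) (G : ℂ) (hK : 0 < K)
    (hv : ∀ i, v i = (D i - y i) / K) (hS : S = ∑ i : Fin k, ξ i / K * D i) (hξ : ξ ∈ box k)
    (hG : ‖G - cexp ((S : ℂ) * I)‖ ≤ ε) :
    ‖((∏ i : Fin k, (1 - |ξ i|) : ℝ) : ℂ) * cexp (-((∑ i : Fin k, ξ i * y i / K : ℝ) : ℂ) * I) * G -
      ∏ i : Fin k, (((1 - |ξ i| : ℝ) : ℂ) * cexp (((ξ i * v i : ℝ) : ℂ) * I))‖ ≤ ε := by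
  rw [cf_comb ξ y v D K S hK hv hS, ← mul_sub, norm_mul]
  have hw := cf_wt ξ y K hξ
  calc _ ≤ 1 * ε := mul_le_mul hw hG (norm_nonneg _) zero_le_one
    _ = ε := one_mul _

private lemma cf_fin {k : ℕ} (F M : (Fin k → ℝ) → ℂ) (hF : Continuous F) (hM : Continuous M) (ε : ℝ)
    (h : ∀ ξ ∈ box k, ‖F ξ - M ξ‖ ≤ ε) (hM2 : (11 / 12 : ℝ) ^ k ≤ ‖∫ ξ in box k, M ξ‖)
    (he : 2 ^ k * ε ≤ (11 / 12 : ℝ) ^ k / 2) :
    (11 / 12 : ℝ) ^ k / 2 ≤ ‖∫ ξ in box k, F ξ‖ := by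
  have hFi := hF.continuousOn.integrableOn_compact (μ := volume) (cf_box_compact k)
  have hMi := hM.continuousOn.integrableOn_compact (μ := volume) (cf_box_compact k)
  have h3 : ‖(∫ ξ in box k, F ξ) - ∫ ξ in box k, M ξ‖ ≤ ε * 2 ^ k := by
    rw [← integral_sub hFi hMi, ← cf_box_vol k]
    exact norm_setIntegral_le_of_norm_le_const (cf_box_compact k).measure_lt_top h
  have h4 := norm_sub_norm_le (∫ ξ in box k, M ξ) (∫ ξ in box k, F ξ)
  rw [norm_sub_rev] at h4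
  nlinarith

theorem ff_lower (k : ℕ) (δ W T : ℝ) (w : ℕ → ℝ) (y : Fin k → ℝ) (K t : ℝ) (hK : 1 ≤ K)
    (hs : 2 ^ (k + 1) * ∑ j ∈ Finset.range (JJ T), Real.exp (-(dd δ j : ℝ)) ≤ (11 / 12 : ℝ) ^ k / 2)
    (h1 : ∀ i : Fin k, |(∑ j ∈ Finset.range (JJ T), (YB δ W T j (t + hT T * w ((i : ℕ) + 1)) -
      YB δ W T j (t + hT T * w (i : ℕ)))) - y i| ≤ K)
    (h2 : ∀ j ∈ Finset.range (JJ T), ∀ i ≤ k,
      |YB δ W T j (t + hT T * w i)| ≤ dd δ j / (100 * ((k : ℝ) + 1))) :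
    (11 / 12 : ℝ) ^ k / 2 ≤ ‖FF δ W T w y K t‖ := by
  have hK0 : (0 : ℝ) < K := by linarith
  have hS0 : (0 : ℝ) ≤ ∑ j ∈ Finset.range (JJ T), Real.exp (-(dd δ j : ℝ)) :=
    Finset.sum_nonneg (fun j _ => (Real.exp_pos _).le)
  have hS1 : ∑ j ∈ Finset.range (JJ T), Real.exp (-(dd δ j : ℝ)) ≤ 1 := by
    have ha : (11 / 12 : ℝ) ^ k ≤ 1 := pow_le_one₀ (by norm_num) (by norm_num)
    have hb : (1 : ℝ) ≤ 2 ^ (k + 1) := one_le_pow₀ (by norm_num)
    nlinarith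
  have hv1 : ∀ i : Fin k, |((∑ j ∈ Finset.range (JJ T), (YB δ W T j (t + hT T * w ((i : ℕ) + 1)) -
      YB δ W T j (t + hT T * w (i : ℕ)))) - y i) / K| ≤ 1 := by
    intro i
    rw [abs_div, abs_of_pos hK0, div_le_one hK0]
    exact h1 i
  unfold FF
  refine cf_fin _ _ ((cf_contA y K).mul (cf_contG δ W T w K t)) (cf_contM _)
    (2 * ∑ j ∈ Finset.range (JJ T), Real.exp (-(dd δ j : ℝ))) ?_ (cf_main k _ hv1) ?_
  · intro ξ hξ
    exact cf_point ξ y _ (fun i : Fin k => ∑ j ∈ Finset.range (JJ T),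
      (YB δ W T j (t + hT T * w ((i : ℕ) + 1)) - YB δ W T j (t + hT T * w (i : ℕ)))) K
      (∑ j ∈ Finset.range (JJ T), Thj δ W T w (fun i => ξ i / K) j t) _
      (GG δ W T w (fun i => ξ i / K) t) hK0 (fun i => rfl) (cf_sum_thj δ W T w K t ξ) hξ
      (trunc_prod (Finset.range (JJ T)) (dd δ) (fun j => Thj δ W T w (fun i => ξ i / K) j t)
      (fun j hj => cf_thj_le δ W T w K t hK h2 ξ hξ j hj) hS1)
  · calc _ = 2 ^ (k + 1) * ∑ j ∈ Finset.range (JJ T), Real.exp (-(dd δ j : ℝ)) := by ring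
      _ ≤ _ := hs

end Pool.Agent.Lib.MP_ec260d_ntB
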