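import Mathlib
import Pool.Agent.Lib.MP_ec260d_ntB.CDefs

/-!
# CInt: the square of an integral with parameter, and a Gaussian integral over a box

`sq_int_le`: the box is compact, `Φ` is continuous, so everything is bounded on `box k × [a, b]` and Fubini applies:
`∫_a^b |∫_ξ Φ(ξ,t)|^2 dt = ∫_a^b (∫_ξ Φ(ξ,t)) conj (∫_ξ' Φ(ξ',t)) dt = ∫_ξ ∫_ξ' ∫_a^b Φ(ξ,t) conj Φ(ξ',t) dt`; take absolute values inside.

`gauss_box`: `volume (box k) = 2^k`; for fixed `ξ` the inner integral is at most the integral over the whole space, `∏_i ∫_ℝ exp (-q_i x^2) dx = ∏ sqrt (π/q_i)`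
(`integral_gaussian`, translation invariance, `MeasureTheory.integral_fintype_prod_volume_eq_prod` or the same with `Measure.pi`).

`cheb`: Chebyshev's inequality, `E ⊆ [a, b]` need not be measurable: `E ⊆ {t ∈ [a,b] : A ≤ ‖F t‖}`, `F` continuous.
-/

namespace Pool.Agent.Lib.MP_ec260d_ntB

open Complex Set Filter Topology MeasureTheory

private theorem cint_compact (k : ℕ) : IsCompact (box k) :=
  isCompact_univ_pi fun _ => isCompact_Icc

private theorem cint_meas (k : ℕ) : MeasurableSet (box k) :=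
  MeasurableSet.univ_pi fun _ => measurableSet_Icc

theorem vol_box (k : ℕ) : volume (box k) = 2 ^ k := by
  rw [box, volume_pi_pi]
  simp only [Real.volume_Icc, Finset.prod_const, Finset.card_univ, Fintype.card_fin]
  congr 1
  norm_num

private theorem cint_rest (k : ℕ) :
    ((volume : Measure (Fin k → ℝ)).restrict (box k)).prod
      ((volume : Measure (Fin k → ℝ)).restrict (box k)) =
      (volume : Measure ((Fin k → ℝ) × (Fin k → ℝ))).restrict (box k ×ˢ box k) := by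
  rw [Measure.prod_restrict]
  rfl

theorem sq_int_le {k : ℕ} (Φ : (Fin k → ℝ) → ℝ → ℂ)
    (hc : Continuous (fun q : (Fin k → ℝ) × ℝ => Φ q.1 q.2)) (a b : ℝ) (hab : a ≤ b)
    (R : (Fin k → ℝ) → (Fin k → ℝ) → ℝ)
    (hRc : Continuous (fun q : (Fin k → ℝ) × (Fin k → ℝ) => R q.1 q.2))
    (hR : ∀ ξ ∈ box k, ∀ ξ' ∈ box k,
      ‖∫ t in a..b, Φ ξ t * (starRingEnd ℂ) (Φ ξ' t)‖ ≤ R ξ ξ') :
    (∫ t in a..b, ‖∫ ξ in box k, Φ ξ t‖ ^ 2) ≤ ∫ ξ in box k, ∫ ξ' in box k, R ξ ξ' := by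
  set μ := (volume : Measure (Fin k → ℝ)).restrict (box k) with hμ
  set ν := (volume : Measure ℝ).restrict (Ioc a b) with hν
  have hRi : Integrable (fun q : (Fin k → ℝ) × (Fin k → ℝ) => R q.1 q.2) (μ.prod μ) := by
    rw [hμ, cint_rest]
    exact hRc.continuousOn.integrableOn_compact ((cint_compact k).prod (cint_compact k))
  have hG : Continuous (fun p : ℝ × ((Fin k → ℝ) × (Fin k → ℝ)) =>
      Φ p.2.1 p.1 * (starRingEnd ℂ) (Φ p.2.2 p.1)) := by
    have h1 : Continuous (fun p : ℝ × ((Fin k → ℝ) × (Fin k → ℝ)) => Φ p.2.1 p.1) :=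
      hc.comp ((continuous_fst.comp continuous_snd).prodMk continuous_fst)
    have h2 : Continuous (fun p : ℝ × ((Fin k → ℝ) × (Fin k → ℝ)) => Φ p.2.2 p.1) :=
      hc.comp ((continuous_snd.comp continuous_snd).prodMk continuous_fst)
    exact h1.mul (Complex.continuous_conj.comp h2)
  have hGi : Integrable (Function.uncurry fun (t : ℝ) (q : (Fin k → ℝ) × (Fin k → ℝ)) =>
      Φ q.1 t * (starRingEnd ℂ) (Φ q.2 t)) (ν.prod (μ.prod μ)) := by
    rw [hν, hμ, cint_rest, Measure.prod_restrict]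
    have h1 : IntegrableOn (fun p : ℝ × ((Fin k → ℝ) × (Fin k → ℝ)) =>
        Φ p.2.1 p.1 * (starRingEnd ℂ) (Φ p.2.2 p.1)) (Icc a b ×ˢ (box k ×ˢ box k))
        ((volume : Measure ℝ).prod (volume : Measure ((Fin k → ℝ) × (Fin k → ℝ)))) :=
      hG.continuousOn.integrableOn_compact
        (isCompact_Icc.prod ((cint_compact k).prod (cint_compact k)))
    exact h1.mono_set (Set.prod_mono Ioc_subset_Icc_self subset_rfl)
  have e1 : ∀ t : ℝ, ((‖∫ ξ in box k, Φ ξ t‖ ^ 2 : ℝ) : ℂ) =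
      ∫ q : (Fin k → ℝ) × (Fin k → ℝ), Φ q.1 t * (starRingEnd ℂ) (Φ q.2 t) ∂(μ.prod μ) := by
    intro t
    rw [integral_prod_mul (fun ξ => Φ ξ t) (fun ξ => (starRingEnd ℂ) (Φ ξ t)), integral_conj,
      Complex.mul_conj, Complex.normSq_eq_norm_sq]
  have e2 : ((∫ t in a..b, ‖∫ ξ in box k, Φ ξ t‖ ^ 2 : ℝ) : ℂ) =
      ∫ q : (Fin k → ℝ) × (Fin k → ℝ), (∫ t, Φ q.1 t * (starRingEnd ℂ) (Φ q.2 t) ∂ν)
        ∂(μ.prod μ) := by
    rw [← integral_integral_swap hGi, intervalIntegral.integral_of_le hab, ← hν,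
      ← integral_complex_ofReal]
    exact integral_congr_ae (Filter.Eventually.of_forall fun t => e1 t)
  have h0 : 0 ≤ ∫ t in a..b, ‖∫ ξ in box k, Φ ξ t‖ ^ 2 :=
    intervalIntegral.integral_nonneg hab fun t _ => by positivity
  have e3 : (∫ t in a..b, ‖∫ ξ in box k, Φ ξ t‖ ^ 2) =
      ‖((∫ t in a..b, ‖∫ ξ in box k, Φ ξ t‖ ^ 2 : ℝ) : ℂ)‖ := by
    rw [Complex.norm_real, Real.norm_of_nonneg h0]
  have e4 : ∫ q : (Fin k → ℝ) × (Fin k → ℝ), R q.1 q.2 ∂(μ.prod μ) =
      ∫ ξ in box k, ∫ ξ' in box k, R ξ ξ' := integral_prod _ hRi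
  rw [e3, e2, ← e4]
  refine norm_integral_le_of_norm_le hRi ?_
  have h5 : ∀ᵐ q ∂(μ.prod μ), q ∈ box k ×ˢ box k := by
    rw [hμ, cint_rest]
    exact ae_restrict_mem ((cint_meas k).prod (cint_meas k))
  filter_upwards [h5] with q hq
  have h6 := hR q.1 hq.1 q.2 hq.2
  rw [intervalIntegral.integral_of_le hab] at h6
  exact h6

theorem gauss_box {k : ℕ} (q : Fin k → ℝ) (hq : ∀ i, 0 < q i) :
    (∫ ξ in box k, ∫ ξ' in box k, Real.exp (-(∑ i, (ξ i - ξ' i) ^ 2 * q i))) ≤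
      2 ^ k * ∏ i, Real.sqrt (Real.pi / q i) := by
  have h1 : ∀ ξ : Fin k → ℝ, ∫ ξ' in box k, Real.exp (-(∑ i, (ξ i - ξ' i) ^ 2 * q i)) ≤
      ∏ i, Real.sqrt (Real.pi / q i) := by
    intro ξ
    have e1 : ∀ ξ' : Fin k → ℝ, Real.exp (-(∑ i, (ξ i - ξ' i) ^ 2 * q i)) =
        ∏ i, (fun i x => Real.exp (-q i * (ξ i - x) ^ 2)) i (ξ' i) := by
      intro ξ'
      rw [← Finset.sum_neg_distrib, Real.exp_sum]
      refine Finset.prod_congr rfl fun i _ => ?_
      show _ = Real.exp (-q i * (ξ i - ξ' i) ^ 2)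
      congr 1
      ring
    have hi : ∀ i, Integrable ((fun i x => Real.exp (-q i * (ξ i - x) ^ 2)) i)
        (volume : Measure ℝ) := by
      intro i
      exact (integrable_exp_neg_mul_sq (hq i)).comp_sub_left (ξ i)
    have hI : Integrable (fun ξ' : Fin k → ℝ =>
        ∏ i, (fun i x => Real.exp (-q i * (ξ i - x) ^ 2)) i (ξ' i)) :=
      Integrable.fintype_prod hi
    have e2 : ∫ ξ' : Fin k → ℝ, ∏ i, (fun i x => Real.exp (-q i * (ξ i - x) ^ 2)) i (ξ' i) =
        ∏ i, Real.sqrt (Real.pi / q i) := by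
      refine (integral_fintype_prod_volume_eq_prod (E := fun _ : Fin k => ℝ)
        (f := fun i x => Real.exp (-q i * (ξ i - x) ^ 2))).trans ?_
      refine Finset.prod_congr rfl fun i _ => ?_
      show ∫ x, Real.exp (-q i * (ξ i - x) ^ 2) = _
      rw [integral_sub_left_eq_self (fun x => Real.exp (-q i * x ^ 2)) volume (ξ i),
        integral_gaussian]
    rw [← e2]
    simp only [e1]
    exact setIntegral_le_integral hI (Filter.Eventually.of_forall fun x =>
      Finset.prod_nonneg fun i _ => (Real.exp_pos _).le)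
  have h2 : (∫ ξ in box k, ∫ ξ' in box k, Real.exp (-(∑ i, (ξ i - ξ' i) ^ 2 * q i))) ≤
      ∫ _ξ in box k, ∏ i, Real.sqrt (Real.pi / q i) := by
    refine integral_mono_of_nonneg (Filter.Eventually.of_forall fun ξ => ?_) ?_
      (Filter.Eventually.of_forall fun ξ => h1 ξ)
    · exact integral_nonneg fun ξ' => (Real.exp_pos _).le
    · refine integrable_const_iff.2 (Or.inr ?_)
      rw [isFiniteMeasure_restrict, vol_box]
      finiteness
  refine h2.trans (le_of_eq ?_)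
  rw [setIntegral_const, smul_eq_mul]
  congr 1
  rw [Measure.real, vol_box, ENNReal.toReal_pow]
  rfl

theorem par_continuous {k : ℕ} (Φ : (Fin k → ℝ) → ℝ → ℂ)
    (hc : Continuous (fun q : (Fin k → ℝ) × ℝ => Φ q.1 q.2)) :
    Continuous (fun t : ℝ => ∫ ξ in box k, Φ ξ t) := by
  refine continuous_parametric_integral_of_continuous (f := fun t ξ => Φ ξ t) ?_
    (cint_compact k)
  exact hc.comp (continuous_snd.prodMk continuous_fst)

theorem cheb (F : ℝ → ℂ) (hF : Continuous F) (a b A : ℝ) (hab : a ≤ b) (hA : 0 < A) (E : Set ℝ)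
    (hE : E ⊆ Icc a b) (hEA : ∀ t ∈ E, A ≤ ‖F t‖) :
    (volume E).toReal ≤ (A ^ 2)⁻¹ * ∫ t in a..b, ‖F t‖ ^ 2 := by
  set E' : Set ℝ := Icc a b ∩ {t | A ≤ ‖F t‖} with hE'
  have hm : MeasurableSet E' :=
    measurableSet_Icc.inter (isClosed_le continuous_const hF.norm).measurableSet
  have hsub : E ⊆ E' := fun t ht => ⟨hE ht, hEA t ht⟩
  have hfin : volume E' ≠ ⊤ :=
    ne_top_of_le_ne_top (by rw [Real.volume_Icc]; exact ENNReal.ofReal_ne_top)
      (measure_mono (inter_subset_left : E' ⊆ Icc a b))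
  have h1 : (volume E).toReal ≤ (volume E').toReal :=
    ENNReal.toReal_mono hfin (measure_mono hsub)
  have hcont : Continuous fun t => ‖F t‖ ^ 2 := hF.norm.pow 2
  have hint : IntegrableOn (fun t => ‖F t‖ ^ 2) (Icc a b) :=
    hcont.continuousOn.integrableOn_compact isCompact_Icc
  have h2 : A ^ 2 * (volume E').toReal ≤ ∫ t in E', ‖F t‖ ^ 2 := by
    have h3 : ∫ _t in E', A ^ 2 = (volume E').toReal * A ^ 2 := by
      rw [setIntegral_const, smul_eq_mul]
      rfl
    rw [mul_comm, ← h3]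
    refine setIntegral_mono_on (integrableOn_const hfin) (hint.mono_set inter_subset_left) hm ?_
    intro t ht
    exact pow_le_pow_left₀ hA.le ht.2 2
  have h4 : ∫ t in E', ‖F t‖ ^ 2 ≤ ∫ t in a..b, ‖F t‖ ^ 2 := by
    rw [intervalIntegral.integral_of_le hab, ← integral_Icc_eq_integral_Ioc]
    exact setIntegral_mono_set hint (Filter.Eventually.of_forall fun t => by positivity)
      (Filter.Eventually.of_forall inter_subset_left)
  have hA2 : 0 < A ^ 2 := by positivity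
  rw [inv_mul_eq_div, le_div_iff₀ hA2]
  calc (volume E).toReal * A ^ 2 ≤ (volume E').toReal * A ^ 2 :=
        mul_le_mul_of_nonneg_right h1 hA2.le
    _ = A ^ 2 * (volume E').toReal := mul_comm _ _
    _ ≤ _ := h2.trans h4

end Pool.Agent.Lib.MP_ec260d_ntB
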