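import Mathlib
import Pool.Agent.Lib.MP_ec260d_ntB.CDefs

/-!
# CTor: the mean is the integral over the torus

`mth S` is the product over `S` of Lebesgue measure on `(0, 1]`, a probability measure. All functions `g (zth S θ)` below are finite sums of products of
bounded continuous functions of `θ`.

For `n ≠ 0` with `n.primeFactors ⊆ S`: `cm z n = ∏_{p ∈ S} z p ^ v_p(n)` (`Finsupp.prod_of_support_subset`). Hence for `a, b` with prime factors in `S`
`∫ cm z a * conj (cm z b) = ∏_{p ∈ S} ∫_0^1 exp (2 π i (v_p(a) - v_p(b)) x) dx` (`MeasureTheory.integral_fintype_prod_eq_prod` or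
`integral_fintype_prod_volume_eq_prod`-type lemma with `Measure.pi`), `= 1` if `v_p(a) = v_p(b)` for all `p ∈ S`, i.e. `a = b`
(`Nat.eq_of_factorization_eq`), and `= 0` otherwise. Sum over the index set of the representation.
-/

namespace Pool.Agent.Lib.MP_ec260d_ntB

open Complex Set Filter Topology MeasureTheory

theorem zth_norm (S : Finset ℕ) (θ : S → ℝ) (p : ℕ) : ‖zth S θ p‖ = 1 := by
  unfold zth
  split_ifs with h
  · exact Complex.norm_exp_ofReal_mul_I _
  · simp

private theorem ctor_prob1 : IsProbabilityMeasure ((volume : Measure ℝ).restrict (Ioc 0 1)) := by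
  refine ⟨?_⟩
  rw [Measure.restrict_apply_univ, Real.volume_Ioc]
  simp

theorem mth_prob (S : Finset ℕ) : IsProbabilityMeasure (mth S) := by
  have := ctor_prob1
  unfold mth
  infer_instance

private theorem ctor_cm {S : Finset ℕ} {n : ℕ} (hn : n.primeFactors ⊆ S) (z : ℕ → ℂ) :
    cm z n = ∏ p ∈ S, z p ^ n.factorization p := by
  unfold cm
  refine Finsupp.prod_of_support_subset _ ?_ _ (fun i _ => pow_zero _)
  rw [Nat.support_factorization]
  exact hn

/-- the integral of one factor -/
private theorem ctor_one (a b : ℕ) :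
    (∫ x, cexp (((2 * Real.pi * x : ℝ) : ℂ) * I) ^ a *
      (starRingEnd ℂ) (cexp (((2 * Real.pi * x : ℝ) : ℂ) * I) ^ b)
        ∂((volume : Measure ℝ).restrict (Ioc 0 1))) = if a = b then 1 else 0 := by
  have e1 : ∀ x : ℝ, cexp (((2 * Real.pi * x : ℝ) : ℂ) * I) ^ a *
      (starRingEnd ℂ) (cexp (((2 * Real.pi * x : ℝ) : ℂ) * I) ^ b) =
        cexp ((2 * Real.pi * ((a : ℂ) - b) * I) * x) := by
    intro x
    rw [map_pow, ← Complex.exp_conj, ← Complex.exp_nat_mul, ← Complex.exp_nat_mul, ← Complex.exp_add]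
    congr 1
    simp only [map_mul, Complex.conj_ofReal, Complex.conj_I]
    push_cast
    ring
  simp_rw [e1]
  rw [← intervalIntegral.integral_of_le (zero_le_one)]
  by_cases h : a = b
  · subst h
    simp
  · rw [if_neg h]
    have hne : (2 * Real.pi * ((a : ℂ) - b) * I) ≠ 0 := by
      have h1 : ((a : ℂ) - b) ≠ 0 := by
        rw [sub_ne_zero]
        exact_mod_cast h
      have h2 : (Real.pi : ℂ) ≠ 0 := by exact_mod_cast Real.pi_ne_zero
      exact mul_ne_zero (mul_ne_zero (mul_ne_zero two_ne_zero h2) h1) I_ne_zero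
    rw [integral_exp_mul_complex hne]
    have h3 : cexp ((2 * Real.pi * ((a : ℂ) - b) * I) * ((1 : ℝ) : ℂ)) = 1 := by
      have h4 : (2 * Real.pi * ((a : ℂ) - b) * I) * ((1 : ℝ) : ℂ) =
          (((a : ℤ) - (b : ℤ) : ℤ) : ℂ) * (2 * Real.pi * I) := by
        push_cast
        ring
      rw [h4, Complex.exp_int_mul_two_pi_mul_I]
    rw [h3]
    simp

/-- orthogonality -/
private theorem ctor_orth {S : Finset ℕ} {a b : ℕ} (ha : a ≠ 0) (hb : b ≠ 0)
    (haS : a.primeFactors ⊆ S) (hbS : b.primeFactors ⊆ S) :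
    (∫ θ, cm (zth S θ) a * (starRingEnd ℂ) (cm (zth S θ) b) ∂(mth S)) = if a = b then 1 else 0 := by
  have hp := ctor_prob1
  have e1 : ∀ θ : S → ℝ, cm (zth S θ) a * (starRingEnd ℂ) (cm (zth S θ) b) =
      ∏ p : S, (cexp (((2 * Real.pi * θ p : ℝ) : ℂ) * I) ^ a.factorization p *
        (starRingEnd ℂ) (cexp (((2 * Real.pi * θ p : ℝ) : ℂ) * I) ^ b.factorization p)) := by
    intro θ
    rw [ctor_cm haS, ctor_cm hbS, map_prod, ← Finset.prod_mul_distrib, ← Finset.prod_coe_sort S]
    refine Finset.prod_congr rfl (fun p _ => ?_)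
    have : zth S θ (p : ℕ) = cexp (((2 * Real.pi * θ p : ℝ) : ℂ) * I) := by
      unfold zth
      rw [dif_pos p.2]
    rw [this]
  simp_rw [e1]
  unfold mth
  rw [integral_fintype_prod_eq_prod (fun (p : S) (x : ℝ) => cexp (((2 * Real.pi * x : ℝ) : ℂ) * I) ^ a.factorization p *
        (starRingEnd ℂ) (cexp (((2 * Real.pi * x : ℝ) : ℂ) * I) ^ b.factorization p))]
  simp_rw [ctor_one]
  by_cases h : a = b
  · subst h
    simp
  · rw [if_neg h]
    have h1 : ∃ p : S, a.factorization p ≠ b.factorization p := by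
      by_contra hcon
      push Not at hcon
      apply h
      refine Nat.eq_of_factorization_eq ha hb (fun p => ?_)
      by_cases hpS : p ∈ S
      · exact hcon ⟨p, hpS⟩
      · have h2 : a.factorization p = 0 := by
          rw [← Finsupp.notMem_support_iff, Nat.support_factorization]
          exact fun h3 => hpS (haS h3)
        have h3 : b.factorization p = 0 := by
          rw [← Finsupp.notMem_support_iff, Nat.support_factorization]
          exact fun h3 => hpS (hbS h3)
        rw [h2, h3]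
    obtain ⟨p, hpp⟩ := h1
    exact Finset.prod_eq_zero (Finset.mem_univ p) (if_neg hpp)

private theorem ctor_cm_cont {S : Finset ℕ} {a : ℕ} (haS : a.primeFactors ⊆ S) :
    Continuous (fun θ : S → ℝ => cm (zth S θ) a) := by
  simp_rw [ctor_cm haS]
  refine continuous_finsetProd _ (fun p hp => ?_)
  refine Continuous.pow ?_ _
  unfold zth
  simp only [hp, dif_pos]
  fun_prop

theorem mean_eq_torus {S : Finset ℕ} {H B : ℝ} {m : ℂ} {g : (ℕ → ℂ) → ℂ} (h : Rep S H B m g) :
    m = ∫ θ, g (zth S θ) ∂(mth S) := by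
  obtain ⟨ι, hι, a, b, c, hab, -, hm, hg⟩ := h
  have hP := mth_prob S
  have e1 : ∀ θ : S → ℝ, g (zth S θ) =
      ∑ i, c i * cm (zth S θ) (a i) * (starRingEnd ℂ) (cm (zth S θ) (b i)) :=
    fun θ => hg _ (zth_norm S θ)
  simp_rw [e1]
  rw [integral_finsetSum]
  · rw [← hm]
    refine Finset.sum_congr rfl (fun i _ => ?_)
    simp_rw [mul_assoc]
    rw [integral_const_mul, ctor_orth (hab i).1 (hab i).2.1 (hab i).2.2.2.2.1 (hab i).2.2.2.2.2]
    split_ifs <;> simp
  · intro i _
    have hc : Continuous (fun θ : S → ℝ => c i * cm (zth S θ) (a i) * (starRingEnd ℂ) (cm (zth S θ) (b i))) :=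
      (continuous_const.mul (ctor_cm_cont (hab i).2.2.2.2.1)).mul
        (Complex.continuous_conj.comp (ctor_cm_cont (hab i).2.2.2.2.2))
    have hn : ∀ (θ : S → ℝ) (n : ℕ), ‖cm (zth S θ) n‖ = 1 := by
      intro θ n
      unfold cm
      rw [Finsupp.prod, norm_prod]
      refine Finset.prod_eq_one (fun p _ => ?_)
      rw [norm_pow, zth_norm, one_pow]
    refine Integrable.of_bound hc.aestronglyMeasurable ‖c i‖ (ae_of_all _ (fun θ => ?_))
    rw [norm_mul, norm_mul, RCLike.norm_conj, hn, hn]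
    simp

end Pool.Agent.Lib.MP_ec260d_ntB
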