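import Mathlib
import Pool.Agent.Lib.MP_ec260d_ntB.CExp
import Pool.Agent.Lib.MP_ec260d_ntB.CTor
import Pool.Agent.Lib.MP_ec260d_ntB.CTr

/-!
# CModel: the mean of one block

Write `E` for the integral over the torus `mth S` (a probability measure), `Θ = TH S u`, `Θ' = TH S v` at `z = zth S θ`, `V = ∑ (‖u‖^2 + ‖v‖^2)`.
By `mean_eq_torus`, `m = E [ex d (iΘ) conj (ex d (iΘ'))]`; by `torus_jw`, `E [exp (iΘ) conj (exp (iΘ'))] = ∏ Jw (u p - v p)`
(`TH S u z - TH S v z = TH S (u - v) z`).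

`|ab' - cd'| ≤ |a - c||b'| + |c||b' - d'|` with `|c| = |d'| = 1`: the difference of the integrands is `≤ ε (1 + ε') + ε'`,
`ε = |Θ|^(d+1)/(d+1)!`, `ε' = |Θ'|^(d+1)/(d+1)!` (`ex_sub_exp`), and `ε ε' ≤ (ε^2 + ε'^2)/2`.

With `λ = exp 3` in `pow_fact_le`: `ε ≤ λ^(-(d+1)) (e^(λΘ) + e^(-λΘ))`, `ε^2 ≤ 2 λ^(-2(d+1)) (e^(2λΘ) + e^(-2λΘ))`. By `torus_mgf` (for `± λ u`, `± 2 λ u`):
`E ε ≤ 2 λ^(-(d+1)) exp (λ^2 V/2)`, `E ε^2 ≤ 4 λ^(-2(d+1)) exp (2 λ^2 V)`, the same for `ε'`. As `λ^2 = e^6 < 404`, the total is at most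
`4 e^(-3(d+1)) e^(202 V) + 4 e^(-6(d+1)) e^(808 V) ≤ e^(-d)` because `210 V + 5 ≤ d` (`202 V ≤ d - 5`, `808 V ≤ 4 (d - 5)`).

`model_le`: `jw_le` for each factor.
-/

namespace Pool.Agent.Lib.MP_ec260d_ntB

open Complex Set Filter Topology MeasureTheory

theorem TH_sub (S : Finset ℕ) (u v z : ℕ → ℂ) : TH S u z - TH S v z = TH S (fun p => u p - v p) z := by
  unfold TH
  rw [← Complex.sub_im, ← Finset.sum_sub_distrib]
  congr 1
  exact Finset.sum_congr rfl fun p _ => by ring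

private theorem cmodel_smul (S : Finset ℕ) (u z : ℕ → ℂ) (c : ℝ) :
    TH S (fun p => (c : ℂ) * u p) z = c * TH S u z := by
  unfold TH
  have h : ∑ p ∈ S, (c : ℂ) * u p * z p = (c : ℂ) * ∑ p ∈ S, u p * z p := by
    rw [Finset.mul_sum]
    exact Finset.sum_congr rfl fun p _ => by ring
  rw [h, Complex.im_ofReal_mul]

private theorem cmodel_int {E : Type*} [NormedAddCommGroup E] (S : Finset ℕ) (u v : ℕ → ℂ)
    (G : ℝ × ℝ → E) (hG : Continuous G) :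
    Integrable (fun θ => G (TH S u (zth S θ), TH S v (zth S θ))) (mth S) := by
  have hp := mth_prob S
  obtain ⟨R, hR⟩ : ∃ R : ℝ, R = max (∑ p ∈ S, ‖u p‖) (∑ p ∈ S, ‖v p‖) := ⟨_, rfl⟩
  obtain ⟨C, hC⟩ := ((isCompact_Icc (a := -R) (b := R)).prod
    (isCompact_Icc (a := -R) (b := R))).exists_bound_of_continuousOn hG.continuousOn
  have hcont : Continuous (fun θ : S → ℝ => G (TH S u (zth S θ), TH S v (zth S θ))) :=
    hG.comp ((TH_continuous S u).prodMk (TH_continuous S v))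
  refine Integrable.of_bound hcont.aestronglyMeasurable C (Filter.Eventually.of_forall fun θ => ?_)
  refine hC _ ⟨?_, ?_⟩
  · rw [Set.mem_Icc, ← abs_le]
    refine (TH_abs_le S u _ (zth_norm S θ)).trans ?_
    rw [hR]
    exact le_max_left _ _
  · rw [Set.mem_Icc, ← abs_le]
    refine (TH_abs_le S v _ (zth_norm S θ)).trans ?_
    rw [hR]
    exact le_max_right _ _

private theorem cmodel_exp_int (S : Finset ℕ) (u : ℕ → ℂ) (c : ℝ) :
    Integrable (fun θ => Real.exp (c * TH S u (zth S θ))) (mth S) :=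
  cmodel_int S u u (fun x : ℝ × ℝ => Real.exp (c * x.1)) (by fun_prop)

private theorem cmodel_mgf (S : Finset ℕ) (u : ℕ → ℂ) (c : ℝ) :
    (∫ θ, Real.exp (c * TH S u (zth S θ)) ∂(mth S)) ≤
      Real.exp (c ^ 2 * (∑ p ∈ S, ‖u p‖ ^ 2) / 2) := by
  have h := torus_mgf S (fun p => (c : ℂ) * u p)
  have e1 : ∑ p ∈ S, ‖(c : ℂ) * u p‖ ^ 2 = c ^ 2 * ∑ p ∈ S, ‖u p‖ ^ 2 := by
    rw [Finset.mul_sum]
    refine Finset.sum_congr rfl fun p _ => ?_
    rw [norm_mul, mul_pow, Complex.norm_real, Real.norm_eq_abs, sq_abs]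
  rw [e1] at h
  simp only [cmodel_smul] at h
  exact h

/-- the two exponential integrals -/
private theorem cmodel_pair (S : Finset ℕ) (u : ℕ → ℂ) (c U : ℝ)
    (hU : c ^ 2 * (∑ p ∈ S, ‖u p‖ ^ 2) / 2 ≤ U) :
    Integrable (fun θ => Real.exp (c * TH S u (zth S θ)) + Real.exp (-(c * TH S u (zth S θ))))
      (mth S) ∧
    (∫ θ, (Real.exp (c * TH S u (zth S θ)) + Real.exp (-(c * TH S u (zth S θ)))) ∂(mth S)) ≤
      2 * Real.exp U := by
  have i1 := cmodel_exp_int S u c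
  have i2 := cmodel_exp_int S u (-c)
  have m1 := cmodel_mgf S u c
  have m2 := cmodel_mgf S u (-c)
  rw [neg_sq] at m2
  simp only [neg_mul] at i2 m2
  have hm := Real.exp_le_exp.2 hU
  refine ⟨i1.add i2, ?_⟩
  rw [integral_add i1 i2]
  linarith

private theorem cmodel_cont (d : ℕ) : Continuous (ex d) := by
  unfold ex
  fun_prop

private theorem cmodel_exp6 : Real.exp 3 ^ 2 ≤ 404 := by
  have h1 : Real.exp 3 = Real.exp 1 ^ 3 := by
    rw [← Real.exp_nat_mul]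
    norm_num
  have h2 := Real.exp_one_lt_d9
  rw [h1, ← pow_mul]
  calc Real.exp 1 ^ (3 * 2) ≤ 2.7182818286 ^ (3 * 2) :=
        pow_le_pow_left₀ (Real.exp_pos 1).le h2.le _
    _ ≤ 404 := by norm_num

theorem model {S : Finset ℕ} {H B : ℝ} {m : ℂ} (u v : ℕ → ℂ) (d : ℕ)
    (h : Rep S H B m (fun z => ex d (((TH S u z : ℝ) : ℂ) * I) *
      (starRingEnd ℂ) (ex d (((TH S v z : ℝ) : ℂ) * I))))
    (hd : 210 * (∑ p ∈ S, (‖u p‖ ^ 2 + ‖v p‖ ^ 2)) + 5 ≤ (d : ℝ)) :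
    ‖m - ∏ p ∈ S, Jw (u p - v p)‖ ≤ Real.exp (-(d : ℝ)) := by
  have hp := mth_prob S
  obtain ⟨q, hq⟩ : ∃ q : ℝ, q = (Real.exp 3)⁻¹ ^ (d + 1) := ⟨_, rfl⟩
  have hq0 : 0 < q := by
    rw [hq]
    positivity
  have hqe : q = Real.exp (-(3 * ((d : ℝ) + 1))) := by
    rw [hq, ← Real.exp_neg, ← Real.exp_nat_mul]
    congr 1
    push_cast
    ring
  -- the integrands
  obtain ⟨f, hf⟩ : ∃ f : (S → ℝ) → ℂ, f = fun θ => ex d (((TH S u (zth S θ) : ℝ) : ℂ) * I) *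
      (starRingEnd ℂ) (ex d (((TH S v (zth S θ) : ℝ) : ℂ) * I)) := ⟨_, rfl⟩
  obtain ⟨g, hg⟩ : ∃ g : (S → ℝ) → ℂ, g = fun θ => cexp (((TH S u (zth S θ) : ℝ) : ℂ) * I) *
      (starRingEnd ℂ) (cexp (((TH S v (zth S θ) : ℝ) : ℂ) * I)) := ⟨_, rfl⟩
  have hfi : Integrable f (mth S) := by
    rw [hf]
    refine cmodel_int S u v (fun x : ℝ × ℝ => ex d (((x.1 : ℝ) : ℂ) * I) *
      (starRingEnd ℂ) (ex d (((x.2 : ℝ) : ℂ) * I))) ?_
    refine Continuous.mul ?_ ?_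
    · exact (cmodel_cont d).comp (by fun_prop)
    · exact Complex.continuous_conj.comp ((cmodel_cont d).comp (by fun_prop))
  have hgi : Integrable g (mth S) := by
    rw [hg]
    refine cmodel_int S u v (fun x : ℝ × ℝ => cexp (((x.1 : ℝ) : ℂ) * I) *
      (starRingEnd ℂ) (cexp (((x.2 : ℝ) : ℂ) * I))) ?_
    refine Continuous.mul ?_ ?_
    · fun_prop
    · exact Complex.continuous_conj.comp (by fun_prop)
  have hm : m = ∫ θ, f θ ∂(mth S) := by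
    rw [hf]
    exact mean_eq_torus h
  have hJ : ∏ p ∈ S, Jw (u p - v p) = ∫ θ, g θ ∂(mth S) := by
    rw [hg, ← torus_jw S fun p => u p - v p]
    refine integral_congr_ae (Filter.Eventually.of_forall fun θ => ?_)
    beta_reduce
    rw [← TH_sub, ← Complex.exp_conj, ← Complex.exp_add, map_mul, Complex.conj_ofReal,
      Complex.conj_I]
    congr 1
    push_cast
    ring
  -- the pointwise bound
  obtain ⟨b, hb⟩ : ∃ b : (ℕ → ℂ) → (S → ℝ) → ℝ, b = fun w θ =>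
      q * (Real.exp (Real.exp 3 * TH S w (zth S θ)) + Real.exp (-(Real.exp 3 * TH S w (zth S θ)))) +
      q ^ 2 * (Real.exp (2 * Real.exp 3 * TH S w (zth S θ)) +
        Real.exp (-(2 * Real.exp 3 * TH S w (zth S θ)))) := ⟨_, rfl⟩
  have hpt : ∀ θ, ‖f θ - g θ‖ ≤ b u θ + b v θ := by
    intro θ
    have key : ∀ w : ℕ → ℂ, ∃ ε : ℝ, 0 ≤ ε ∧
        ‖ex d (((TH S w (zth S θ) : ℝ) : ℂ) * I) - cexp (((TH S w (zth S θ) : ℝ) : ℂ) * I)‖ ≤ ε ∧
        ε + ε ^ 2 / 2 ≤ b w θ := by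
      intro w
      have h1 := ex_sub_exp d (TH S w (zth S θ))
      have h2 := pow_fact_le (d + 1) (TH S w (zth S θ)) (Real.exp 3) (Real.exp_pos 3)
      rw [← hq] at h2
      refine ⟨_, norm_nonneg _ |>.trans h1, h1, ?_⟩
      rw [hb]
      beta_reduce
      have e2 : Real.exp (2 * Real.exp 3 * TH S w (zth S θ)) =
          Real.exp (Real.exp 3 * TH S w (zth S θ)) ^ 2 := by
        rw [← Real.exp_nat_mul]
        congr 1
        push_cast
        ring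
      have e3 : Real.exp (-(2 * Real.exp 3 * TH S w (zth S θ))) =
          Real.exp (-(Real.exp 3 * TH S w (zth S θ))) ^ 2 := by
        rw [← Real.exp_nat_mul]
        congr 1
        push_cast
        ring
      rw [e2, e3]
      have hx := Real.exp_pos (Real.exp 3 * TH S w (zth S θ))
      have hy := Real.exp_pos (-(Real.exp 3 * TH S w (zth S θ)))
      have h0 : 0 ≤ |TH S w (zth S θ)| ^ (d + 1) / ((d + 1).factorial : ℝ) :=
        norm_nonneg _ |>.trans h1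
      generalize |TH S w (zth S θ)| ^ (d + 1) / ((d + 1).factorial : ℝ) = ε at h2 h0 ⊢
      generalize Real.exp (Real.exp 3 * TH S w (zth S θ)) = x at h2 hx ⊢
      generalize Real.exp (-(Real.exp 3 * TH S w (zth S θ))) = y at h2 hy ⊢
      have h3 : ε ^ 2 ≤ (q * (x + y)) ^ 2 := pow_le_pow_left₀ h0 h2 2
      have h4 : (q * (x + y)) ^ 2 / 2 ≤ q ^ 2 * (x ^ 2 + y ^ 2) := by
        nlinarith [mul_nonneg (sq_nonneg q) (sq_nonneg (x - y))]
      linarith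
    obtain ⟨ε, hε0, hε, hεb⟩ := key u
    obtain ⟨ε', hε'0, hε', hε'b⟩ := key v
    have e4 : f θ - g θ = (ex d (((TH S u (zth S θ) : ℝ) : ℂ) * I) -
          cexp (((TH S u (zth S θ) : ℝ) : ℂ) * I)) *
          (starRingEnd ℂ) (ex d (((TH S v (zth S θ) : ℝ) : ℂ) * I)) +
        cexp (((TH S u (zth S θ) : ℝ) : ℂ) * I) * (starRingEnd ℂ)
          (ex d (((TH S v (zth S θ) : ℝ) : ℂ) * I) - cexp (((TH S v (zth S θ) : ℝ) : ℂ) * I)) := by
      rw [hf, hg, map_sub]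
      ring
    have h5 : ‖ex d (((TH S v (zth S θ) : ℝ) : ℂ) * I)‖ ≤ 1 + ε' := by
      have h6 : ex d (((TH S v (zth S θ) : ℝ) : ℂ) * I) = cexp (((TH S v (zth S θ) : ℝ) : ℂ) * I) +
          (ex d (((TH S v (zth S θ) : ℝ) : ℂ) * I) - cexp (((TH S v (zth S θ) : ℝ) : ℂ) * I)) := by
        ring
      rw [h6]
      refine (norm_add_le _ _).trans ?_
      rw [Complex.norm_exp_ofReal_mul_I]
      linarith
    rw [e4]
    refine (norm_add_le _ _).trans ?_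
    rw [norm_mul, norm_mul, RCLike.norm_conj, RCLike.norm_conj, Complex.norm_exp_ofReal_mul_I,
      one_mul]
    have h7 : ‖ex d (((TH S u (zth S θ) : ℝ) : ℂ) * I) - cexp (((TH S u (zth S θ) : ℝ) : ℂ) * I)‖ *
        ‖ex d (((TH S v (zth S θ) : ℝ) : ℂ) * I)‖ ≤ ε * (1 + ε') :=
      mul_le_mul hε h5 (norm_nonneg _) hε0
    nlinarith [sq_nonneg (ε - ε')]
  -- the integral of the bound
  obtain ⟨V, hV⟩ : ∃ V : ℝ, V = ∑ p ∈ S, (‖u p‖ ^ 2 + ‖v p‖ ^ 2) := ⟨_, rfl⟩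
  have hV' : V = ∑ p ∈ S, ‖u p‖ ^ 2 + ∑ p ∈ S, ‖v p‖ ^ 2 := by
    rw [hV, Finset.sum_add_distrib]
  rw [← hV] at hd
  have hu0 : 0 ≤ ∑ p ∈ S, ‖u p‖ ^ 2 := Finset.sum_nonneg fun p _ => sq_nonneg _
  have hv0 : 0 ≤ ∑ p ∈ S, ‖v p‖ ^ 2 := Finset.sum_nonneg fun p _ => sq_nonneg _
  have hV0 : 0 ≤ V := by linarith
  have hint : ∀ w : ℕ → ℂ, ∑ p ∈ S, ‖w p‖ ^ 2 ≤ V → Integrable (b w) (mth S) ∧
      (∫ θ, b w θ ∂(mth S)) ≤ q * (2 * Real.exp (202 * V)) + q ^ 2 * (2 * Real.exp (808 * V)) := by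
    intro w hw
    have hw0 : 0 ≤ ∑ p ∈ S, ‖w p‖ ^ 2 := Finset.sum_nonneg fun p _ => sq_nonneg _
    have h6 := cmodel_exp6
    have h7 : Real.exp 3 ^ 2 * ∑ p ∈ S, ‖w p‖ ^ 2 ≤ 404 * V :=
      mul_le_mul h6 hw hw0 (by norm_num)
    obtain ⟨i1, m1⟩ := cmodel_pair S w (Real.exp 3) (202 * V) (by linarith)
    obtain ⟨i2, m2⟩ := cmodel_pair S w (2 * Real.exp 3) (808 * V) (by
      rw [mul_pow]
      linarith)
    have hbe : b w = fun θ => q * (Real.exp (Real.exp 3 * TH S w (zth S θ)) +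
        Real.exp (-(Real.exp 3 * TH S w (zth S θ)))) +
      q ^ 2 * (Real.exp (2 * Real.exp 3 * TH S w (zth S θ)) +
        Real.exp (-(2 * Real.exp 3 * TH S w (zth S θ)))) := by rw [hb]
    rw [hbe]
    refine ⟨(i1.const_mul q).add (i2.const_mul (q ^ 2)), ?_⟩
    rw [integral_add (i1.const_mul q) (i2.const_mul (q ^ 2)), integral_const_mul,
      integral_const_mul]
    exact add_le_add (mul_le_mul_of_nonneg_left m1 hq0.le)
      (mul_le_mul_of_nonneg_left m2 (sq_nonneg q))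
  obtain ⟨i1, m1⟩ := hint u (by linarith)
  obtain ⟨i2, m2⟩ := hint v (by linarith)
  have h8 : ‖m - ∏ p ∈ S, Jw (u p - v p)‖ ≤
      2 * (q * (2 * Real.exp (202 * V)) + q ^ 2 * (2 * Real.exp (808 * V))) := by
    rw [hm, hJ, ← integral_sub hfi hgi]
    calc ‖∫ θ, (f θ - g θ) ∂(mth S)‖ ≤ ∫ θ, (b u θ + b v θ) ∂(mth S) :=
          norm_integral_le_of_norm_le (i1.add i2) (Filter.Eventually.of_forall hpt)
      _ = (∫ θ, b u θ ∂(mth S)) + ∫ θ, b v θ ∂(mth S) := integral_add i1 i2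
      _ ≤ _ := by linarith
  refine h8.trans ?_
  have h9 : q * Real.exp (202 * V) ≤ Real.exp (-(d : ℝ)) * (1 / 9) := by
    have h10 : Real.exp (-8 : ℝ) ≤ 1 / 9 := by
      rw [Real.exp_neg, ← one_div]
      refine one_div_le_one_div_of_le (by norm_num) ?_
      have := Real.add_one_le_exp (8 : ℝ)
      linarith
    calc q * Real.exp (202 * V) = Real.exp (-(3 * ((d : ℝ) + 1)) + 202 * V) := by
          rw [hqe, ← Real.exp_add]
      _ ≤ Real.exp (-(d : ℝ) + -8) := Real.exp_le_exp.2 (by nlinarith)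
      _ = Real.exp (-(d : ℝ)) * Real.exp (-8) := Real.exp_add _ _
      _ ≤ _ := mul_le_mul_of_nonneg_left h10 (Real.exp_pos _).le
  have h11 : q ^ 2 * Real.exp (808 * V) ≤ Real.exp (-(d : ℝ)) * (1 / 27) := by
    have h10 : Real.exp (-26 : ℝ) ≤ 1 / 27 := by
      rw [Real.exp_neg, ← one_div]
      refine one_div_le_one_div_of_le (by norm_num) ?_
      have := Real.add_one_le_exp (26 : ℝ)
      linarith
    calc q ^ 2 * Real.exp (808 * V) = Real.exp (2 * (-(3 * ((d : ℝ) + 1))) + 808 * V) := by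
          rw [hqe, ← Real.exp_nat_mul, ← Real.exp_add]
          push_cast
          rfl
      _ ≤ Real.exp (-(d : ℝ) + -26) := Real.exp_le_exp.2 (by nlinarith)
      _ = Real.exp (-(d : ℝ)) * Real.exp (-26) := Real.exp_add _ _
      _ ≤ _ := mul_le_mul_of_nonneg_left h10 (Real.exp_pos _).le
  have h12 := Real.exp_pos (-(d : ℝ))
  nlinarith

theorem model_le {S : Finset ℕ} {H B : ℝ} {m : ℂ} (u v : ℕ → ℂ) (d : ℕ)
    (h : Rep S H B m (fun z => ex d (((TH S u z : ℝ) : ℂ) * I) *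
      (starRingEnd ℂ) (ex d (((TH S v z : ℝ) : ℂ) * I))))
    (hd : 210 * (∑ p ∈ S, (‖u p‖ ^ 2 + ‖v p‖ ^ 2)) + 5 ≤ (d : ℝ)) :
    ‖m‖ ≤ Real.exp (-(∑ p ∈ S, ‖u p - v p‖ ^ 2) / 12 + ∑ p ∈ S, ‖u p - v p‖ ^ 4) +
      Real.exp (-(d : ℝ)) := by
  have h1 := model u v d h hd
  have h2 : ‖∏ p ∈ S, Jw (u p - v p)‖ ≤
      Real.exp (-(∑ p ∈ S, ‖u p - v p‖ ^ 2) / 12 + ∑ p ∈ S, ‖u p - v p‖ ^ 4) := by
    have e1 : -(∑ p ∈ S, ‖u p - v p‖ ^ 2) / 12 + ∑ p ∈ S, ‖u p - v p‖ ^ 4 =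
        ∑ p ∈ S, (-(‖u p - v p‖ ^ 2) / 12 + ‖u p - v p‖ ^ 4) := by
      rw [Finset.sum_add_distrib, ← Finset.sum_div, Finset.sum_neg_distrib]
    rw [norm_prod, e1, Real.exp_sum]
    exact Finset.prod_le_prod (fun p _ => norm_nonneg _) fun p _ => jw_le _
  calc ‖m‖ = ‖∏ p ∈ S, Jw (u p - v p) + (m - ∏ p ∈ S, Jw (u p - v p))‖ := by
        rw [add_sub_cancel]
    _ ≤ _ := (norm_add_le _ _).trans (add_le_add h2 h1)

end Pool.Agent.Lib.MP_ec260d_ntB
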