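import Mathlib
import Pool.Agent.Lib.MP_ec260d_ntB.Defs

/-!
# CPar: parameters

`β_j = δ e^(-j)`, `dd δ j = ⌈β_j^(-3/4)⌉`, `xs δ T j = exp (β_j log T)`.

`par_small`: `β_j^(-3/4) = δ^(-3/4) e^(3j/4) ≥ δ^(-3/4) (1 + 3j/4)`. With `q = δ^(-3/4)` (which is large): `dd ≥ q ≥ C` and
`exp (-dd/2) ≤ exp (-q/2) exp (-3q/8)^j ≤ exp (-q/2) (1/2)^j`, sum `≤ 2 exp (-q/2) ≤ ε`.

`par_len`: `log` of the product is `log T ∑ 2 β_j d_j`, and `β_j d_j ≤ β_j (β_j^(-3/4) + 1) = β_j^(1/4) + β_j`, so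
`∑ 2 β_j d_j ≤ 2 (δ^(1/4)/(1 - e^(-1/4)) + δ/(1 - e^(-1))) ≤ 2 (4.6 δ^(1/4) + 1.6 δ) ≤ 1/8` for `δ` small.

`par_cnt`: `J = JJ T ≤ log log T + 1`, `∑_{j<J} d_j ≤ J + δ^(-3/4) ∑_{j<J} e^(3j/4) ≤ J + δ^(-3/4) e^(3J/4)/(e^(3/4) - 1) ≤ C_δ (log T)^(3/4)` for large `T`, so the product is
`≤ exp (2 log A C_δ (log T)^(3/4)) ≤ T^(1/8)` for large `T`.

`par_fin`: elementary (`T^(1/2) * const ≤ T^(3/4)` for large `T`).
-/

namespace Pool.Agent.Lib.MP_ec260d_ntB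

open Complex Set Filter Topology MeasureTheory


private theorem cpar_beta (δ : ℝ) (hδ : 0 < δ) (j : ℕ) :
    (δ * Real.exp (-(j : ℝ))) ^ (-(3 / 4) : ℝ) = δ ^ (-(3 / 4) : ℝ) * Real.exp (3 * (j : ℝ) / 4) := by
  rw [Real.mul_rpow hδ.le (Real.exp_pos _).le, ← Real.exp_mul]
  congr 2
  ring

private theorem cpar_dd_ge (δ : ℝ) (hδ : 0 < δ) (j : ℕ) :
    δ ^ (-(3 / 4) : ℝ) * (1 + 3 * (j : ℝ) / 4) ≤ (dd δ j : ℝ) := by
  have h1 : δ ^ (-(3 / 4) : ℝ) * Real.exp (3 * (j : ℝ) / 4) ≤ (dd δ j : ℝ) := by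
    rw [← cpar_beta δ hδ j]
    exact Nat.le_ceil _
  have h2 : (0 : ℝ) ≤ δ ^ (-(3 / 4) : ℝ) := Real.rpow_nonneg hδ.le _
  have h3 : 1 + 3 * (j : ℝ) / 4 ≤ Real.exp (3 * (j : ℝ) / 4) := by
    have := Real.add_one_le_exp (3 * (j : ℝ) / 4)
    linarith
  exact le_trans (mul_le_mul_of_nonneg_left h3 h2) h1

private theorem cpar_dd_le (δ : ℝ) (hδ : 0 < δ) (j : ℕ) :
    (dd δ j : ℝ) ≤ (δ * Real.exp (-(j : ℝ))) ^ (-(3 / 4) : ℝ) + 1 := by
  have h0 : (0 : ℝ) ≤ (δ * Real.exp (-(j : ℝ))) ^ (-(3 / 4) : ℝ) :=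
    Real.rpow_nonneg (mul_pos hδ (Real.exp_pos _)).le _
  exact (Nat.ceil_lt_add_one h0).le

theorem par_small (C ε : ℝ) (hε : 0 < ε) : ∃ δ₁ : ℝ, 0 < δ₁ ∧ δ₁ ≤ 1 ∧ ∀ δ : ℝ, 0 < δ → δ ≤ δ₁ →
    (∀ j : ℕ, C ≤ (dd δ j : ℝ)) ∧
      ∀ J : ℕ, ∑ j ∈ Finset.range J, Real.exp (-(dd δ j : ℝ) / 2) ≤ ε := by
  obtain ⟨Q, hQC, hQ2, hQe⟩ : ∃ Q : ℝ, C ≤ Q ∧ 2 ≤ Q ∧ 2 * Real.log (2 / ε) ≤ Q :=
    ⟨max C (max 2 (2 * Real.log (2 / ε))), le_max_left _ _,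
      (le_max_left _ _).trans (le_max_right _ _), (le_max_right _ _).trans (le_max_right _ _)⟩
  have hQ0 : 0 < Q := by linarith
  refine ⟨Q ^ (-(4 / 3) : ℝ), Real.rpow_pos_of_pos hQ0 _, ?_, ?_⟩
  · exact Real.rpow_le_one_of_one_le_of_nonpos (by linarith) (by norm_num)
  · intro δ hδ hle
    have hq : Q ≤ δ ^ (-(3 / 4) : ℝ) := by
      have h1 : (Q ^ (-(4 / 3) : ℝ)) ^ (-(3 / 4) : ℝ) ≤ δ ^ (-(3 / 4) : ℝ) :=
        Real.rpow_le_rpow_of_nonpos hδ hle (by norm_num)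
      have h2 : (Q ^ (-(4 / 3) : ℝ)) ^ (-(3 / 4) : ℝ) = Q := by
        rw [← Real.rpow_mul hQ0.le]
        norm_num
      rwa [h2] at h1
    have hge := cpar_dd_ge δ hδ
    have hdd : ∀ j : ℕ, Q * (1 + 3 * (j : ℝ) / 4) ≤ (dd δ j : ℝ) := fun j =>
      le_trans (mul_le_mul_of_nonneg_right hq (by positivity)) (hge j)
    refine ⟨fun j => ?_, fun J => ?_⟩
    · have h1 := hdd j
      have h2 : (0 : ℝ) ≤ Q * (3 * (j : ℝ) / 4) := by positivity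
      nlinarith
    · have hexp : Real.exp (-Q / 2) ≤ ε / 2 := by
        have h1 : Real.exp (-Q / 2) ≤ Real.exp (-(Real.log (2 / ε))) :=
          Real.exp_le_exp.mpr (by linarith)
        have h2 : Real.exp (-(Real.log (2 / ε))) = ε / 2 := by
          rw [Real.exp_neg, Real.exp_log (by positivity), inv_div]
        rwa [h2] at h1
      have hr : Real.exp (-(3 * Q / 8)) ≤ 1 / 2 := by
        have h1 : (3 / 4 : ℝ) ≤ 3 * Q / 8 := by linarith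
        have h2 : (2 : ℝ) ≤ Real.exp (3 / 4) := by
          have h3 : Real.exp (3 / 4) = Real.exp (3 / 8) * Real.exp (3 / 8) := by
            rw [← Real.exp_add]; norm_num
          have h4 : (11 / 8 : ℝ) ≤ Real.exp (3 / 8) := by
            have := Real.add_one_le_exp (3 / 8 : ℝ)
            linarith
          have h5 : (3 / 8 : ℝ) + 1 + (3 / 8) ^ 2 / 2 ≤ Real.exp (3 / 8) := by
            have := Real.quadratic_le_exp_of_nonneg (x := (3 / 8 : ℝ)) (by norm_num)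
            linarith
          rw [h3]
          nlinarith
        have h3 : Real.exp (-(3 * Q / 8)) ≤ Real.exp (-(3 / 4)) :=
          Real.exp_le_exp.mpr (by linarith)
        have h4 : Real.exp (-(3 / 4)) ≤ 1 / 2 := by
          rw [Real.exp_neg, one_div]
          exact inv_anti₀ (by norm_num) h2
        exact h3.trans h4
      have hterm : ∀ j ∈ Finset.range J,
          Real.exp (-(dd δ j : ℝ) / 2) ≤ (ε / 2) * (1 / 2) ^ j := by
        intro j _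
        have h1 : Real.exp (-(dd δ j : ℝ) / 2) ≤
            Real.exp (-Q / 2 + (j : ℝ) * (-(3 * Q / 8))) := by
          apply Real.exp_le_exp.mpr
          have := hdd j
          linarith
        have h2 : Real.exp (-Q / 2 + (j : ℝ) * (-(3 * Q / 8))) =
            Real.exp (-Q / 2) * Real.exp (-(3 * Q / 8)) ^ j := by
          rw [Real.exp_add, Real.exp_nat_mul]
        rw [h2] at h1
        refine h1.trans ?_
        exact mul_le_mul hexp (pow_le_pow_left₀ (Real.exp_pos _).le hr j)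
          (pow_nonneg (Real.exp_pos _).le j) (by positivity)
      refine (Finset.sum_le_sum hterm).trans ?_
      rw [← Finset.mul_sum]
      have hg : ∑ j ∈ Finset.range J, (1 / 2 : ℝ) ^ j ≤ 2 := by
        have h1 : ∀ n : ℕ, ∑ j ∈ Finset.range n, (1 / 2 : ℝ) ^ j = 2 - 2 * (1 / 2) ^ n := by
          intro n
          induction n with
          | zero => simp
          | succ n ih => rw [Finset.sum_range_succ, ih, pow_succ]; ring
        rw [h1]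
        have : (0 : ℝ) ≤ (1 / 2) ^ J := by positivity
        linarith
      calc ε / 2 * ∑ j ∈ Finset.range J, (1 / 2 : ℝ) ^ j ≤ ε / 2 * 2 :=
            mul_le_mul_of_nonneg_left hg (by positivity)
        _ = ε := by ring

theorem par_len (κ : ℝ) (hκ : 0 < κ) : ∃ δ₁ : ℝ, 0 < δ₁ ∧ δ₁ ≤ 1 ∧ ∀ δ : ℝ, 0 < δ → δ ≤ δ₁ →
    ∀ T : ℝ, 1 < T → ∀ J : ℕ,
      ∏ j ∈ Finset.range J, (xs δ T j) ^ (2 * dd δ j) ≤ T ^ κ := by
  obtain ⟨η, hη0, hη1, hηκ⟩ : ∃ η : ℝ, 0 < η ∧ η ≤ 1 ∧ 20 * η ≤ κ :=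
    ⟨min κ 1 / 20, by positivity, by linarith [min_le_right κ 1], by linarith [min_le_left κ 1]⟩
  refine ⟨η ^ 4, by positivity, pow_le_one₀ hη0.le hη1, ?_⟩
  intro δ hδ hle T hT J
  have hL : 0 < Real.log T := Real.log_pos hT
  have hT0 : 0 < T := by linarith
  have hδ4 : δ ^ (1 / 4 : ℝ) ≤ η := by
    have h1 : δ ^ (1 / 4 : ℝ) ≤ (η ^ 4) ^ (1 / 4 : ℝ) :=
      Real.rpow_le_rpow hδ.le hle (by norm_num)
    have h2 : (η ^ 4) ^ (1 / 4 : ℝ) = η := by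
      rw [← Real.rpow_natCast, ← Real.rpow_mul hη0.le]
      norm_num
    rwa [h2] at h1
  have hδ1 : δ ≤ 1 := hle.trans (pow_le_one₀ hη0.le hη1)
  have hr : Real.exp (-(1 / 4)) ≤ 4 / 5 := by
    have h1 : (5 / 4 : ℝ) ≤ Real.exp (1 / 4) := by
      have := Real.add_one_le_exp (1 / 4 : ℝ)
      linarith
    rw [Real.exp_neg]
    calc (Real.exp (1 / 4))⁻¹ ≤ (5 / 4 : ℝ)⁻¹ := inv_anti₀ (by norm_num) h1
      _ = 4 / 5 := by norm_num
  have hterm : ∀ j ∈ Finset.range J,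
      2 * (dd δ j : ℝ) * (δ * Real.exp (-(j : ℝ))) ≤ (4 * η) * (4 / 5) ^ j := by
    intro j _
    set β : ℝ := δ * Real.exp (-(j : ℝ)) with hβ
    have hβ0 : 0 < β := mul_pos hδ (Real.exp_pos _)
    have hβ1 : β ≤ 1 := by
      have h1 : Real.exp (-(j : ℝ)) ≤ 1 := by
        rw [Real.exp_le_one_iff]
        have : (0 : ℝ) ≤ (j : ℝ) := Nat.cast_nonneg j
        linarith
      calc β ≤ 1 * 1 := mul_le_mul hδ1 h1 (Real.exp_pos _).le (by norm_num)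
        _ = 1 := by ring
    have h1 : (dd δ j : ℝ) ≤ β ^ (-(3 / 4) : ℝ) + 1 := cpar_dd_le δ hδ j
    have h2 : (dd δ j : ℝ) * β ≤ β ^ (1 / 4 : ℝ) + β := by
      have h3 : β ^ (-(3 / 4) : ℝ) * β = β ^ (1 / 4 : ℝ) := by
        rw [← Real.rpow_add_one hβ0.ne']
        norm_num
      calc (dd δ j : ℝ) * β ≤ (β ^ (-(3 / 4) : ℝ) + 1) * β :=
            mul_le_mul_of_nonneg_right h1 hβ0.le
        _ = β ^ (1 / 4 : ℝ) + β := by rw [add_mul, h3, one_mul]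
    have h4 : β ≤ β ^ (1 / 4 : ℝ) := by
      have := Real.rpow_le_rpow_of_exponent_ge hβ0 hβ1 (show (1 / 4 : ℝ) ≤ 1 by norm_num)
      rwa [Real.rpow_one] at this
    have h5 : β ^ (1 / 4 : ℝ) ≤ η * (4 / 5) ^ j := by
      have h6 : β ^ (1 / 4 : ℝ) = δ ^ (1 / 4 : ℝ) * Real.exp (-(1 / 4)) ^ j := by
        rw [hβ, Real.mul_rpow hδ.le (Real.exp_pos _).le, ← Real.exp_mul, ← Real.exp_nat_mul]
        congr 2
        ring
      rw [h6]
      exact mul_le_mul hδ4 (pow_le_pow_left₀ (Real.exp_pos _).le hr j)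
        (pow_nonneg (Real.exp_pos _).le j) hη0.le
    linarith
  have hgeo : ∑ j ∈ Finset.range J, (4 * η) * (4 / 5 : ℝ) ^ j ≤ κ := by
    have h1 : ∀ n : ℕ, ∑ j ∈ Finset.range n, (4 / 5 : ℝ) ^ j = 5 - 5 * (4 / 5) ^ n := by
      intro n
      induction n with
      | zero => simp
      | succ n ih => rw [Finset.sum_range_succ, ih, pow_succ]; ring
    rw [← Finset.mul_sum, h1]
    have : (0 : ℝ) ≤ (4 / 5 : ℝ) ^ J := by positivity
    nlinarith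
  have hprod : ∏ j ∈ Finset.range J, (xs δ T j) ^ (2 * dd δ j) =
      Real.exp (∑ j ∈ Finset.range J,
        Real.log T * (2 * (dd δ j : ℝ) * (δ * Real.exp (-(j : ℝ))))) := by
    rw [Real.exp_sum]
    refine Finset.prod_congr rfl fun j _ => ?_
    unfold xs
    rw [← Real.exp_nat_mul]
    congr 1
    push_cast
    ring
  rw [hprod, Real.rpow_def_of_pos hT0, ← Finset.mul_sum]
  apply Real.exp_le_exp.mpr
  exact mul_le_mul_of_nonneg_left ((Finset.sum_le_sum hterm).trans hgeo) hL.le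

theorem par_cnt (κ : ℝ) (hκ : 0 < κ) (δ : ℝ) (hδ : 0 < δ) (A : ℝ) (hA : 1 ≤ A) :
    ∃ T₀ : ℝ, 2 ≤ T₀ ∧ ∀ T : ℝ, T₀ ≤ T →
      ∏ j ∈ Finset.range (JJ T), A ^ (2 * dd δ j) ≤ T ^ κ := by
  set q : ℝ := δ ^ (-(3 / 4) : ℝ) with hq
  have hq0 : 0 ≤ q := Real.rpow_nonneg hδ.le _
  have hA0 : 0 < A := by linarith
  have hlA : 0 ≤ Real.log A := Real.log_nonneg hA
  set D : ℝ := 18 * Real.log A * (q + 1) / κ with hD
  have hD0 : 0 ≤ D := by positivity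
  refine ⟨Real.exp (max 1 (D ^ 8)), ?_, ?_⟩
  · have h1 : Real.exp 1 ≤ Real.exp (max 1 (D ^ 8)) := Real.exp_le_exp.mpr (le_max_left _ _)
    have h2 := Real.add_one_le_exp (1 : ℝ)
    linarith
  · intro T hT
    have hT0 : 0 < T := lt_of_lt_of_le (Real.exp_pos _) hT
    set x : ℝ := Real.log T with hx
    have hxm : max 1 (D ^ 8) ≤ x := by
      rw [hx, Real.le_log_iff_exp_le hT0]
      exact hT
    have hx1 : 1 ≤ x := (le_max_left _ _).trans hxm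
    have hxD : D ^ 8 ≤ x := (le_max_right _ _).trans hxm
    have hx0 : 0 < x := by linarith
    have hlx : 0 ≤ Real.log x := Real.log_nonneg hx1
    have hJ : (JJ T : ℝ) ≤ Real.log x + 1 := (Nat.ceil_lt_add_one hlx).le
    have hx8 : 1 ≤ x ^ (1 / 8 : ℝ) := Real.one_le_rpow hx1 (by norm_num)
    have hx34 : 1 ≤ x ^ (3 / 4 : ℝ) := Real.one_le_rpow hx1 (by norm_num)
    have hlog : Real.log x ≤ 8 * x ^ (1 / 8 : ℝ) := by
      have := Real.log_le_rpow_div hx0.le (show (0 : ℝ) < 1 / 8 by norm_num)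
      calc Real.log x ≤ x ^ (1 / 8 : ℝ) / (1 / 8) := this
        _ = 8 * x ^ (1 / 8 : ℝ) := by ring
    have hdd : ∀ j ∈ Finset.range (JJ T), (dd δ j : ℝ) ≤ (q + 1) * x ^ (3 / 4 : ℝ) := by
      intro j hj
      have hj' : (j : ℝ) ≤ Real.log x := by
        have h1 : j + 1 ≤ JJ T := Finset.mem_range.mp hj
        have h2 : ((j + 1 : ℕ) : ℝ) ≤ (JJ T : ℝ) := by exact_mod_cast h1
        push_cast at h2
        linarith
      have h1 : (dd δ j : ℝ) ≤ q * Real.exp (3 * (j : ℝ) / 4) + 1 := by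
        have := cpar_dd_le δ hδ j
        rwa [cpar_beta δ hδ j] at this
      have h2 : Real.exp (3 * (j : ℝ) / 4) ≤ x ^ (3 / 4 : ℝ) := by
        rw [Real.rpow_def_of_pos hx0]
        apply Real.exp_le_exp.mpr
        linarith
      have h3 : q * Real.exp (3 * (j : ℝ) / 4) ≤ q * x ^ (3 / 4 : ℝ) :=
        mul_le_mul_of_nonneg_left h2 hq0
      calc (dd δ j : ℝ) ≤ q * x ^ (3 / 4 : ℝ) + x ^ (3 / 4 : ℝ) := by linarith
        _ = (q + 1) * x ^ (3 / 4 : ℝ) := by ring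
    have hsum : ∑ j ∈ Finset.range (JJ T), (dd δ j : ℝ) ≤
        9 * (q + 1) * (x ^ (1 / 8 : ℝ) * x ^ (3 / 4 : ℝ)) := by
      have h1 := Finset.sum_le_sum hdd
      rw [Finset.sum_const, Finset.card_range, nsmul_eq_mul] at h1
      have h2 : (JJ T : ℝ) ≤ 9 * x ^ (1 / 8 : ℝ) := by linarith
      have h3 : 0 ≤ (q + 1) * x ^ (3 / 4 : ℝ) := by positivity
      calc ∑ j ∈ Finset.range (JJ T), (dd δ j : ℝ) ≤ (JJ T : ℝ) * ((q + 1) * x ^ (3 / 4 : ℝ)) := h1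
        _ ≤ (9 * x ^ (1 / 8 : ℝ)) * ((q + 1) * x ^ (3 / 4 : ℝ)) :=
            mul_le_mul_of_nonneg_right h2 h3
        _ = 9 * (q + 1) * (x ^ (1 / 8 : ℝ) * x ^ (3 / 4 : ℝ)) := by ring
    have hDx : D ≤ x ^ (1 / 8 : ℝ) := by
      have h1 : (D ^ 8) ^ (1 / 8 : ℝ) ≤ x ^ (1 / 8 : ℝ) :=
        Real.rpow_le_rpow (by positivity) hxD (by norm_num)
      have h2 : (D ^ 8) ^ (1 / 8 : ℝ) = D := by
        rw [← Real.rpow_natCast, ← Real.rpow_mul hD0]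
        norm_num
      rwa [h2] at h1
    have hxx : x ^ (1 / 8 : ℝ) * (x ^ (1 / 8 : ℝ) * x ^ (3 / 4 : ℝ)) = x := by
      rw [← Real.rpow_add hx0, ← Real.rpow_add hx0]
      norm_num
    have hprod : ∏ j ∈ Finset.range (JJ T), A ^ (2 * dd δ j) =
        Real.exp (2 * Real.log A * ∑ j ∈ Finset.range (JJ T), (dd δ j : ℝ)) := by
      rw [Finset.mul_sum, Real.exp_sum]
      refine Finset.prod_congr rfl fun j _ => ?_
      have h1 : 2 * Real.log A * (dd δ j : ℝ) = ((2 * dd δ j : ℕ) : ℝ) * Real.log A := by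
        push_cast
        ring
      rw [h1, Real.exp_nat_mul, Real.exp_log hA0]
    rw [hprod, Real.rpow_def_of_pos hT0]
    apply Real.exp_le_exp.mpr
    have hy0 : 0 ≤ x ^ (1 / 8 : ℝ) * x ^ (3 / 4 : ℝ) := by positivity
    calc 2 * Real.log A * ∑ j ∈ Finset.range (JJ T), (dd δ j : ℝ)
        ≤ 2 * Real.log A * (9 * (q + 1) * (x ^ (1 / 8 : ℝ) * x ^ (3 / 4 : ℝ))) :=
          mul_le_mul_of_nonneg_left hsum (by positivity)
      _ = (D * (x ^ (1 / 8 : ℝ) * x ^ (3 / 4 : ℝ))) * κ := by rw [hD]; field_simp; ring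
      _ ≤ (x ^ (1 / 8 : ℝ) * (x ^ (1 / 8 : ℝ) * x ^ (3 / 4 : ℝ))) * κ :=
          mul_le_mul_of_nonneg_right (mul_le_mul_of_nonneg_right hDx hy0) hκ.le
      _ = x * κ := by rw [hxx]

theorem par_fin (A κ₁ κ₂ : ℝ) (hA : 0 ≤ A) (hκ : κ₁ < κ₂) : ∃ T₀ : ℝ, 2 ≤ T₀ ∧ ∀ T : ℝ, T₀ ≤ T →
    A * T ^ κ₁ ≤ T ^ κ₂ := by
  have hκ0 : 0 < κ₂ - κ₁ := by linarith
  refine ⟨max 2 ((A + 1) ^ (1 / (κ₂ - κ₁))), le_max_left _ _, ?_⟩
  intro T hT
  have hT2 : 2 ≤ T := (le_max_left _ _).trans hT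
  have hTA : (A + 1) ^ (1 / (κ₂ - κ₁)) ≤ T := (le_max_right _ _).trans hT
  have hT0 : 0 < T := by linarith
  have h1 : A + 1 ≤ T ^ (κ₂ - κ₁) := by
    have h2 : ((A + 1) ^ (1 / (κ₂ - κ₁))) ^ (κ₂ - κ₁) ≤ T ^ (κ₂ - κ₁) :=
      Real.rpow_le_rpow (by positivity) hTA hκ0.le
    have h3 : ((A + 1) ^ (1 / (κ₂ - κ₁))) ^ (κ₂ - κ₁) = A + 1 := by
      rw [← Real.rpow_mul (by linarith), one_div_mul_cancel hκ0.ne', Real.rpow_one]
    rwa [h3] at h2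
  have e1 : T ^ κ₂ = T ^ (κ₂ - κ₁) * T ^ κ₁ := by
    rw [← Real.rpow_add hT0]
    congr 1
    ring
  rw [e1]
  exact mul_le_mul_of_nonneg_right (by linarith) (Real.rpow_nonneg hT0.le _)

end Pool.Agent.Lib.MP_ec260d_ntB
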