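import Mathlib
import Pool.Agent.Lib.MP_ec260d_ntB.CPr
import Pool.Agent.Lib.MP_ec260d_ntB.Defs

/-!
# CPb: the blocks of primes

`xs δ T j = exp (log T * (δ e^(-j)))`, so `xs δ T j = (xs δ T (j+1))^e`.

`pr_sum`: if `xs δ T (j+1) ≥ 2`, use `block_sum` with `y = xs δ T (j+1)`. If `xs δ T (j+1) < 2` then `xs δ T j < 2^e < 10000` and the block is empty.

`pr_disj`: for `i < j` the primes of block `j` are `≤ xs δ T j ≤ xs δ T (i+1)` and those of block `i` are `> xs δ T (i+1)`.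

`blocks_sum`: the union over `j < JJ T` of the blocks is the set of all primes in `(10000, T^δ]`: `log T * e^(-JJ T) ≤ 1` because
`JJ T ≥ log log T`, so `xs δ T (JJ T) ≤ e^δ ≤ e < 10000`; a prime `p` in `(10000, T^δ]` lies in the block `j` with `j` maximal such that `p ≤ xs δ T j`
(`xs δ T` is decreasing in `j`).
-/

namespace Pool.Agent.Lib.MP_ec260d_ntB

open Complex Set Filter Topology MeasureTheory

private theorem CPb_xs_pos (δ T : ℝ) (j : ℕ) : 0 < xs δ T j := Real.exp_pos _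

private theorem CPb_xs_pow (δ T : ℝ) (j : ℕ) : xs δ T j = xs δ T (j + 1) ^ (Real.exp 1) := by
  unfold xs
  rw [← Real.exp_mul]
  congr 1
  have e : Real.exp (-(j : ℝ)) = Real.exp (-((j + 1 : ℕ) : ℝ)) * Real.exp 1 := by
    rw [← Real.exp_add]
    congr 1
    push_cast
    ring
  rw [e]
  ring

private theorem CPb_xs_anti {δ T : ℝ} (hδ : 0 < δ) (hT : 1 < T) {i j : ℕ} (hij : i ≤ j) :
    xs δ T j ≤ xs δ T i := by
  unfold xs
  have hl : 0 < Real.log T := Real.log_pos hT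
  apply Real.exp_le_exp.2
  apply mul_le_mul_of_nonneg_left _ hl.le
  apply mul_le_mul_of_nonneg_left _ hδ.le
  apply Real.exp_le_exp.2
  have : (i : ℝ) ≤ j := by exact_mod_cast hij
  linarith

theorem pr_mem {δ T : ℝ} {j p : ℕ} (h : p ∈ Pr δ T j) :
    p.Prime ∧ 10000 < p ∧ xs δ T (j + 1) < (p : ℝ) ∧ (p : ℝ) ≤ xs δ T j := by
  unfold Pr at h
  rw [Finset.mem_filter, Finset.mem_range] at h
  obtain ⟨h1, h2, h3, h4⟩ := h
  refine ⟨h2, h3, h4, ?_⟩
  have h5 : p ≤ ⌊xs δ T j⌋₊ := by omega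
  have h6 : (p : ℝ) ≤ (⌊xs δ T j⌋₊ : ℝ) := by exact_mod_cast h5
  exact h6.trans (Nat.floor_le (CPb_xs_pos δ T j).le)

theorem pr_sum : ∃ C : ℝ, 1 ≤ C ∧ ∀ δ T : ℝ, 0 < δ → 1 < T → ∀ j : ℕ,
    ∑ p ∈ Pr δ T j, (1 / (p : ℝ)) ≤ C := by
  obtain ⟨C, hC, hb⟩ := block_sum
  refine ⟨C, hC, fun δ T hδ hT j => ?_⟩
  by_cases hy : 2 ≤ xs δ T (j + 1)
  · apply hb _ hy
    intro p hp
    obtain ⟨h1, h2, h3, h4⟩ := pr_mem hp
    refine ⟨h1, h3, ?_⟩
    rw [← CPb_xs_pow]
    exact h4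
  · rw [not_le] at hy
    have he : Pr δ T j = ∅ := by
      apply Finset.eq_empty_of_forall_notMem
      intro p hp
      obtain ⟨h1, h2, h3, h4⟩ := pr_mem hp
      rw [CPb_xs_pow] at h4
      have h5 : xs δ T (j + 1) ^ (Real.exp 1) ≤ (2 : ℝ) ^ (Real.exp 1) :=
        Real.rpow_le_rpow (CPb_xs_pos δ T (j + 1)).le hy.le (Real.exp_pos 1).le
      have h6 : (2 : ℝ) ^ (Real.exp 1) ≤ (2 : ℝ) ^ (3 : ℝ) :=
        Real.rpow_le_rpow_of_exponent_le (by norm_num) (by linarith [Real.exp_one_lt_d9])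
      have h7 : (2 : ℝ) ^ (3 : ℝ) = 8 := by
        rw [show (3 : ℝ) = ((3 : ℕ) : ℝ) by norm_num, Real.rpow_natCast]; norm_num
      have h8 : (10000 : ℝ) < p := by exact_mod_cast h2
      linarith
    rw [he, Finset.sum_empty]
    linarith

theorem pr_disj {δ T : ℝ} (hδ : 0 < δ) (hT : 1 < T) {i j : ℕ} (hij : i ≠ j) :
    Disjoint (Pr δ T i) (Pr δ T j) := by
  have key : ∀ a b : ℕ, a < b → ∀ p, p ∈ Pr δ T a → p ∈ Pr δ T b → False := by
    intro a b hab p ha hb
    have h1 := (pr_mem ha).2.2.1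
    have h2 := (pr_mem hb).2.2.2
    have h3 := CPb_xs_anti hδ hT (Nat.succ_le_of_lt hab)
    have h4 : xs δ T b ≤ xs δ T (a + 1) := h3
    linarith
  rw [Finset.disjoint_left]
  intro p hi hj
  rcases Nat.lt_or_gt_of_ne hij with h | h
  · exact key i j h p hi hj
  · exact key j i h p hj hi

theorem blocks_sum (δ T : ℝ) (hδ : 0 < δ) (hδ1 : δ ≤ 1) (hT : 3 ≤ T) (f : ℕ → ℝ) :
    ∑ j ∈ Finset.range (JJ T), ∑ p ∈ Pr δ T j, f p =
      ∑ p ∈ (Finset.range (⌊Real.exp (δ * Real.log T)⌋₊ + 1)).filter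
        (fun p => p.Prime ∧ 10000 < p), f p := by
  have hT1 : 1 < T := by linarith
  have hl : 0 < Real.log T := Real.log_pos hT1
  have hx0 : xs δ T 0 = Real.exp (δ * Real.log T) := by
    unfold xs
    congr 1
    simp
    ring
  have hJ : xs δ T (JJ T) ≤ 3 := by
    have h1 : Real.log (Real.log T) ≤ (JJ T : ℝ) := by
      unfold JJ
      exact Nat.le_ceil _
    have h2 : Real.exp (-(JJ T : ℝ)) ≤ 1 / Real.log T := by
      calc Real.exp (-(JJ T : ℝ)) ≤ Real.exp (-(Real.log (Real.log T))) :=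
            Real.exp_le_exp.2 (by linarith)
        _ = 1 / Real.log T := by rw [Real.exp_neg, Real.exp_log hl, one_div]
    have h3 : Real.log T * (δ * Real.exp (-(JJ T : ℝ))) ≤ 1 := by
      calc Real.log T * (δ * Real.exp (-(JJ T : ℝ))) ≤ Real.log T * (δ * (1 / Real.log T)) := by
            apply mul_le_mul_of_nonneg_left _ hl.le
            exact mul_le_mul_of_nonneg_left h2 hδ.le
        _ = δ := by field_simp
        _ ≤ 1 := hδ1
    unfold xs
    calc Real.exp (Real.log T * (δ * Real.exp (-(JJ T : ℝ)))) ≤ Real.exp 1 := Real.exp_le_exp.2 h3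
      _ ≤ 3 := by linarith [Real.exp_one_lt_d9]
  rw [← Finset.sum_biUnion]
  · apply Finset.sum_congr _ (fun _ _ => rfl)
    ext p
    rw [Finset.mem_biUnion, Finset.mem_filter, Finset.mem_range]
    constructor
    · rintro ⟨j, hj, hp⟩
      obtain ⟨h1, h2, h3, h4⟩ := pr_mem hp
      refine ⟨?_, h1, h2⟩
      have h5 : (p : ℝ) ≤ Real.exp (δ * Real.log T) := by
        rw [← hx0]
        exact h4.trans (CPb_xs_anti hδ hT1 (Nat.zero_le j))
      have := Nat.le_floor h5
      omega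
    · rintro ⟨h1, h2, h3⟩
      have h4 : (p : ℝ) ≤ xs δ T 0 := by
        rw [hx0]
        have h5 : p ≤ ⌊Real.exp (δ * Real.log T)⌋₊ := by omega
        have h6 : (p : ℝ) ≤ (⌊Real.exp (δ * Real.log T)⌋₊ : ℝ) := by exact_mod_cast h5
        exact h6.trans (Nat.floor_le (Real.exp_pos _).le)
      have h7 : (10000 : ℝ) < p := by exact_mod_cast h3
      have hex : ∃ j, xs δ T j < (p : ℝ) := ⟨JJ T, by linarith⟩
      classical
      have hle : Nat.find hex ≤ JJ T := Nat.find_min' hex (by linarith)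
      have hne : Nat.find hex ≠ 0 := by
        intro h0
        have := Nat.find_spec hex
        rw [h0] at this
        linarith
      obtain ⟨m, hm⟩ := Nat.exists_eq_succ_of_ne_zero hne
      have hm1 : xs δ T (m + 1) < (p : ℝ) := by
        have := Nat.find_spec hex
        rw [hm] at this
        exact this
      have hm2 : (p : ℝ) ≤ xs δ T m := by
        have := Nat.find_min hex (m := m) (by omega)
        exact not_lt.1 this
      refine ⟨m, ?_, ?_⟩
      · rw [Finset.mem_range]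
        omega
      · unfold Pr
        rw [Finset.mem_filter, Finset.mem_range]
        refine ⟨?_, h2, h3, hm1⟩
        have := Nat.le_floor hm2
        omega
  · intro i _ j _ hij
    exact pr_disj hδ hT1 hij

end Pool.Agent.Lib.MP_ec260d_ntB
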