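import Mathlib
import Pool.Agent.Lib.MP_ec260d_ntB.CDefs

/-!
# CRep: calculus of trigonometric polynomials

`cm z` is completely multiplicative on nonzero naturals (`Nat.factorization_mul`, `Finsupp.prod_add_index`), `cm z 1 = 1`, `cm z p = z p` for `p` prime,
and for `‖z p‖ = 1` all values have norm one.

* `rep_var`: index type `Unit`, `a = p`, `b = 1`, `c = 1`.
* `rep_add`: index type `ι ⊕ ι'`. `rep_conj`: exchange `a` and `b`, conjugate `c`.
* `rep_mul`: index type `ι × ι'`, `(a a', b b', c c')`.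
* `rep_mul_disj`: the same, and for `a, b` with prime factors in `S` and `a', b'` with prime factors in `S'`, `S` and `S'` disjoint: `a a' = b b'` if and only if
  `a = b` and `a' = b'` (coprimality of `a, b'` and of `b, a'`), so the mean is the product of the means.
* `rep_sum`, `rep_prod`: induction.
-/

namespace Pool.Agent.Lib.MP_ec260d_ntB

open Complex Set Filter Topology MeasureTheory

theorem cm_one (z : ℕ → ℂ) : cm z 1 = 1 := by
  unfold cm
  rw [Nat.factorization_one, Finsupp.prod_zero_index]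

theorem cm_prime (z : ℕ → ℂ) {p : ℕ} (hp : p.Prime) : cm z p = z p := by
  unfold cm
  rw [hp.factorization]
  exact (Finsupp.prod_single_index (h := fun p k => z p ^ k) (pow_zero _)).trans (pow_one _)

theorem cm_mul (z : ℕ → ℂ) {m n : ℕ} (hm : m ≠ 0) (hn : n ≠ 0) : cm z (m * n) = cm z m * cm z n := by
  unfold cm
  rw [Nat.factorization_mul hm hn]
  exact Finsupp.prod_add_index' (fun _ => pow_zero _) (fun _ _ _ => pow_add _ _ _)

theorem cm_norm {z : ℕ → ℂ} (hz : ∀ p, ‖z p‖ = 1) (n : ℕ) : ‖cm z n‖ = 1 := by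
  unfold cm Finsupp.prod
  rw [norm_prod]
  apply Finset.prod_eq_one
  intro p _
  rw [norm_pow, hz, one_pow]

theorem rep_nonneg {S : Finset ℕ} {H B : ℝ} {m : ℂ} {g : (ℕ → ℂ) → ℂ} (h : Rep S H B m g) : 0 ≤ B := by
  obtain ⟨ι, _, a, b, c, _, h2, _, _⟩ := h
  exact (Finset.sum_nonneg (fun i _ => norm_nonneg (c i))).trans h2

theorem rep_mono {S S' : Finset ℕ} {H H' B B' : ℝ} {m : ℂ} {g : (ℕ → ℂ) → ℂ}
    (h : Rep S H B m g) (hS : S ⊆ S') (hH : H ≤ H') (hB : B ≤ B') : Rep S' H' B' m g := by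
  obtain ⟨ι, hι, a, b, c, h1, h2, h3, h4⟩ := h
  refine ⟨ι, hι, a, b, c, ?_, h2.trans hB, h3, h4⟩
  intro i
  obtain ⟨ha, hb, haH, hbH, haS, hbS⟩ := h1 i
  exact ⟨ha, hb, haH.trans hH, hbH.trans hH, haS.trans hS, hbS.trans hS⟩

theorem rep_congr {S : Finset ℕ} {H B : ℝ} {m : ℂ} {g g' : (ℕ → ℂ) → ℂ} (h : Rep S H B m g)
    (hg : ∀ z : ℕ → ℂ, (∀ p, ‖z p‖ = 1) → g' z = g z) : Rep S H B m g' := by
  obtain ⟨ι, hι, a, b, c, h1, h2, h3, h4⟩ := h
  exact ⟨ι, hι, a, b, c, h1, h2, h3, fun z hz => (hg z hz).trans (h4 z hz)⟩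

theorem rep_zero (S : Finset ℕ) (H : ℝ) : Rep S H 0 0 (fun _ => 0) := by
  refine ⟨Empty, inferInstance, fun e => e.elim, fun e => e.elim, fun e => e.elim, fun e => e.elim,
    ?_, ?_, ?_⟩
  · simp
  · simp
  · intro z _
    simp

theorem rep_const (c : ℂ) : Rep ∅ 1 ‖c‖ c (fun _ => c) := by
  refine ⟨Unit, inferInstance, fun _ => 1, fun _ => 1, fun _ => c, ?_, ?_, ?_, ?_⟩
  · intro _
    simp
  · simp
  · simp
  · intro z _
    rw [Fintype.sum_unique, cm_one, map_one, mul_one, mul_one]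

theorem rep_var {p : ℕ} (hp : p.Prime) : Rep {p} p 1 0 (fun z => z p) := by
  have h1 : (1 : ℝ) ≤ p := by exact_mod_cast hp.one_lt.le
  refine ⟨Unit, inferInstance, fun _ => p, fun _ => 1, fun _ => 1, ?_, ?_, ?_, ?_⟩
  · intro _
    refine ⟨hp.ne_zero, one_ne_zero, le_rfl, ?_, ?_, ?_⟩
    · rw [Nat.cast_one]
      exact h1
    · rw [hp.primeFactors]
    · rw [Nat.primeFactors_one]
      exact Finset.empty_subset _
  · simp
  · rw [Fintype.sum_unique, if_neg hp.one_lt.ne']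
  · intro z _
    rw [Fintype.sum_unique, cm_one, cm_prime z hp, map_one, mul_one, one_mul]

theorem rep_smul {S : Finset ℕ} {H B : ℝ} {m : ℂ} {g : (ℕ → ℂ) → ℂ} (c : ℂ) (h : Rep S H B m g) :
    Rep S H (‖c‖ * B) (c * m) (fun z => c * g z) := by
  obtain ⟨ι, hι, a, b, d, h1, h2, h3, h4⟩ := h
  refine ⟨ι, hι, a, b, fun i => c * d i, h1, ?_, ?_, ?_⟩
  · calc ∑ i, ‖c * d i‖ = ‖c‖ * ∑ i, ‖d i‖ := by
          rw [Finset.mul_sum]
          exact Finset.sum_congr rfl (fun i _ => norm_mul _ _)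
      _ ≤ ‖c‖ * B := mul_le_mul_of_nonneg_left h2 (norm_nonneg c)
  · rw [← h3, Finset.mul_sum]
    apply Finset.sum_congr rfl
    intro i _
    rw [mul_ite, mul_zero]
  · intro z hz
    show c * g z = _
    rw [h4 z hz, Finset.mul_sum]
    apply Finset.sum_congr rfl
    intro i _
    ring

theorem rep_conj {S : Finset ℕ} {H B : ℝ} {m : ℂ} {g : (ℕ → ℂ) → ℂ} (h : Rep S H B m g) :
    Rep S H B ((starRingEnd ℂ) m) (fun z => (starRingEnd ℂ) (g z)) := by
  obtain ⟨ι, hι, a, b, c, h1, h2, h3, h4⟩ := h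
  refine ⟨ι, hι, b, a, fun i => (starRingEnd ℂ) (c i), ?_, ?_, ?_, ?_⟩
  · intro i
    obtain ⟨ha, hb, haH, hbH, haS, hbS⟩ := h1 i
    exact ⟨hb, ha, hbH, haH, hbS, haS⟩
  · rw [Finset.sum_congr rfl (fun i _ => RCLike.norm_conj (c i))]
    exact h2
  · rw [← h3, map_sum]
    apply Finset.sum_congr rfl
    intro i _
    by_cases h : a i = b i
    · rw [if_pos h, if_pos h.symm]
    · rw [if_neg h, if_neg (fun h' => h h'.symm), map_zero]
  · intro z hz
    show (starRingEnd ℂ) (g z) = _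
    rw [h4 z hz, map_sum]
    apply Finset.sum_congr rfl
    intro i _
    rw [map_mul, map_mul, Complex.conj_conj]
    ring

theorem rep_add {S : Finset ℕ} {H B B' : ℝ} {m m' : ℂ} {g g' : (ℕ → ℂ) → ℂ}
    (h : Rep S H B m g) (h' : Rep S H B' m' g') :
    Rep S H (B + B') (m + m') (fun z => g z + g' z) := by
  obtain ⟨ι, hι, a, b, c, h1, h2, h3, h4⟩ := h
  obtain ⟨ι', hι', a', b', c', h1', h2', h3', h4'⟩ := h'
  refine ⟨ι ⊕ ι', inferInstance, Sum.elim a a', Sum.elim b b', Sum.elim c c', ?_, ?_, ?_, ?_⟩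
  · rintro (i | i)
    · exact h1 i
    · exact h1' i
  · rw [Fintype.sum_sum_type]
    exact add_le_add h2 h2'
  · rw [Fintype.sum_sum_type, ← h3, ← h3']
    rfl
  · intro z hz
    rw [Fintype.sum_sum_type]
    show g z + g' z = _
    rw [h4 z hz, h4' z hz]
    rfl

theorem rep_sum {R : Finset ℕ} {S : Finset ℕ} {H : ℝ} {B : ℕ → ℝ} {m : ℕ → ℂ}
    {g : ℕ → (ℕ → ℂ) → ℂ} (h : ∀ r ∈ R, Rep S H (B r) (m r) (g r)) :
    Rep S H (∑ r ∈ R, B r) (∑ r ∈ R, m r) (fun z => ∑ r ∈ R, g r z) := by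
  classical
  induction R using Finset.induction_on with
  | empty =>
    simp only [Finset.sum_empty]
    exact rep_zero S H
  | insert r R hr ih =>
    simp only [Finset.sum_insert hr]
    exact rep_add (h r (Finset.mem_insert_self r R))
      (ih (fun r' hr' => h r' (Finset.mem_insert_of_mem hr')))

private theorem crep_norm {ι ι' : Type} [Fintype ι] [Fintype ι'] (c : ι → ℂ) (c' : ι' → ℂ)
    {B B' : ℝ} (h2 : ∑ i, ‖c i‖ ≤ B) (h2' : ∑ i, ‖c' i‖ ≤ B') :
    ∑ i : ι × ι', ‖c i.1 * c' i.2‖ ≤ B * B' := by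
  have h : ∑ i : ι × ι', ‖c i.1 * c' i.2‖ = (∑ i, ‖c i‖) * ∑ i, ‖c' i‖ := by
    rw [Finset.sum_mul_sum, Fintype.sum_prod_type]
    apply Finset.sum_congr rfl
    intro i _
    apply Finset.sum_congr rfl
    intro j _
    exact norm_mul _ _
  rw [h]
  exact mul_le_mul h2 h2' (Finset.sum_nonneg (fun i _ => norm_nonneg _))
    ((Finset.sum_nonneg (fun i _ => norm_nonneg _)).trans h2)

private theorem crep_eval {ι ι' : Type} [Fintype ι] [Fintype ι'] (z : ℕ → ℂ) (a b : ι → ℕ)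
    (a' b' : ι' → ℕ) (c : ι → ℂ) (c' : ι' → ℂ) (ha : ∀ i, a i ≠ 0) (hb : ∀ i, b i ≠ 0)
    (ha' : ∀ i, a' i ≠ 0) (hb' : ∀ i, b' i ≠ 0) {x x' : ℂ}
    (hx : x = ∑ i, c i * cm z (a i) * (starRingEnd ℂ) (cm z (b i)))
    (hx' : x' = ∑ i, c' i * cm z (a' i) * (starRingEnd ℂ) (cm z (b' i))) :
    x * x' = ∑ i : ι × ι', (c i.1 * c' i.2) * cm z (a i.1 * a' i.2) *
      (starRingEnd ℂ) (cm z (b i.1 * b' i.2)) := by
  rw [hx, hx', Finset.sum_mul_sum, Fintype.sum_prod_type]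
  apply Finset.sum_congr rfl
  intro i _
  apply Finset.sum_congr rfl
  intro j _
  show _ = (c i * c' j) * cm z (a i * a' j) * (starRingEnd ℂ) (cm z (b i * b' j))
  rw [cm_mul z (ha i) (ha' j), cm_mul z (hb i) (hb' j), map_mul]
  ring

private theorem crep_cop {S S' : Finset ℕ} (hd : Disjoint S S') {a b : ℕ} (ha : a ≠ 0) (hb : b ≠ 0)
    (haS : a.primeFactors ⊆ S) (hbS : b.primeFactors ⊆ S') : Nat.Coprime a b := by
  rw [← Nat.disjoint_primeFactors ha hb]
  exact Finset.disjoint_of_subset_left haS (Finset.disjoint_of_subset_right hbS hd)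

private theorem crep_iff {S S' : Finset ℕ} (hd : Disjoint S S') {a b a' b' : ℕ} (ha : a ≠ 0)
    (hb : b ≠ 0) (ha' : a' ≠ 0) (hb' : b' ≠ 0) (haS : a.primeFactors ⊆ S)
    (hbS : b.primeFactors ⊆ S) (haS' : a'.primeFactors ⊆ S') (hbS' : b'.primeFactors ⊆ S') :
    a * a' = b * b' ↔ a = b ∧ a' = b' := by
  constructor
  · intro h
    have h1 : a ∣ b := by
      have : a ∣ b * b' := by
        rw [← h]
        exact dvd_mul_right a a'
      exact (crep_cop hd ha hb' haS hbS').dvd_of_dvd_mul_right this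
    have h2 : b ∣ a := by
      have : b ∣ a * a' := by
        rw [h]
        exact dvd_mul_right b b'
      exact (crep_cop hd hb ha' hbS haS').dvd_of_dvd_mul_right this
    have h3 : a = b := Nat.dvd_antisymm h1 h2
    subst h3
    exact ⟨rfl, Nat.eq_of_mul_eq_mul_left (Nat.pos_of_ne_zero ha) h⟩
  · rintro ⟨rfl, rfl⟩
    rfl

theorem rep_mul {S : Finset ℕ} {H H' B B' : ℝ} {m m' : ℂ} {g g' : (ℕ → ℂ) → ℂ}
    (h : Rep S H B m g) (h' : Rep S H' B' m' g') :
    ∃ m'' : ℂ, Rep S (H * H') (B * B') m'' (fun z => g z * g' z) := by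
  obtain ⟨ι, hι, a, b, c, h1, h2, h3, h4⟩ := h
  obtain ⟨ι', hι', a', b', c', h1', h2', h3', h4'⟩ := h'
  refine ⟨∑ i : ι × ι', if a i.1 * a' i.2 = b i.1 * b' i.2 then c i.1 * c' i.2 else 0,
    ι × ι', inferInstance, fun i => a i.1 * a' i.2, fun i => b i.1 * b' i.2,
    fun i => c i.1 * c' i.2, ?_, ?_, rfl, ?_⟩
  · rintro ⟨i, j⟩
    obtain ⟨ha, hb, haH, hbH, haS, hbS⟩ := h1 i
    obtain ⟨ha', hb', haH', hbH', haS', hbS'⟩ := h1' j
    refine ⟨mul_ne_zero ha ha', mul_ne_zero hb hb', ?_, ?_, ?_, ?_⟩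
    · rw [Nat.cast_mul]
      exact mul_le_mul haH haH' (Nat.cast_nonneg _) ((Nat.cast_nonneg _).trans haH)
    · rw [Nat.cast_mul]
      exact mul_le_mul hbH hbH' (Nat.cast_nonneg _) ((Nat.cast_nonneg _).trans hbH)
    · rw [Nat.primeFactors_mul ha ha']
      exact Finset.union_subset haS haS'
    · rw [Nat.primeFactors_mul hb hb']
      exact Finset.union_subset hbS hbS'
  · exact crep_norm c c' h2 h2'
  · intro z hz
    exact crep_eval z a b a' b' c c' (fun i => (h1 i).1) (fun i => (h1 i).2.1)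
      (fun i => (h1' i).1) (fun i => (h1' i).2.1) (h4 z hz) (h4' z hz)

theorem rep_mul_disj {S S' : Finset ℕ} (hd : Disjoint S S') {H H' B B' : ℝ} {m m' : ℂ}
    {g g' : (ℕ → ℂ) → ℂ} (h : Rep S H B m g) (h' : Rep S' H' B' m' g') :
    Rep (S ∪ S') (H * H') (B * B') (m * m') (fun z => g z * g' z) := by
  obtain ⟨ι, hι, a, b, c, h1, h2, h3, h4⟩ := h
  obtain ⟨ι', hι', a', b', c', h1', h2', h3', h4'⟩ := h'
  refine ⟨ι × ι', inferInstance, fun i => a i.1 * a' i.2, fun i => b i.1 * b' i.2,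
    fun i => c i.1 * c' i.2, ?_, ?_, ?_, ?_⟩
  · rintro ⟨i, j⟩
    obtain ⟨ha, hb, haH, hbH, haS, hbS⟩ := h1 i
    obtain ⟨ha', hb', haH', hbH', haS', hbS'⟩ := h1' j
    refine ⟨mul_ne_zero ha ha', mul_ne_zero hb hb', ?_, ?_, ?_, ?_⟩
    · rw [Nat.cast_mul]
      exact mul_le_mul haH haH' (Nat.cast_nonneg _) ((Nat.cast_nonneg _).trans haH)
    · rw [Nat.cast_mul]
      exact mul_le_mul hbH hbH' (Nat.cast_nonneg _) ((Nat.cast_nonneg _).trans hbH)
    · rw [Nat.primeFactors_mul ha ha']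
      exact Finset.union_subset_union haS haS'
    · rw [Nat.primeFactors_mul hb hb']
      exact Finset.union_subset_union hbS hbS'
  · exact crep_norm c c' h2 h2'
  · rw [← h3, ← h3', Finset.sum_mul_sum, Fintype.sum_prod_type]
    apply Finset.sum_congr rfl
    intro i _
    apply Finset.sum_congr rfl
    intro j _
    show (if a i * a' j = b i * b' j then c i * c' j else 0) = _
    obtain ⟨ha, hb, haH, hbH, haS, hbS⟩ := h1 i
    obtain ⟨ha', hb', haH', hbH', haS', hbS'⟩ := h1' j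
    have hiff := crep_iff hd ha hb ha' hb' haS hbS haS' hbS'
    by_cases he : a i = b i
    · by_cases he' : a' j = b' j
      · rw [if_pos (hiff.mpr ⟨he, he'⟩), if_pos he, if_pos he']
      · rw [if_neg (fun hh => he' (hiff.mp hh).2), if_neg he', mul_zero]
    · rw [if_neg (fun hh => he (hiff.mp hh).1), if_neg he, zero_mul]
  · intro z hz
    exact crep_eval z a b a' b' c c' (fun i => (h1 i).1) (fun i => (h1 i).2.1)
      (fun i => (h1' i).1) (fun i => (h1' i).2.1) (h4 z hz) (h4' z hz)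

theorem rep_pow {S : Finset ℕ} {H B : ℝ} {m : ℂ} {g : (ℕ → ℂ) → ℂ} (h : Rep S H B m g) (r : ℕ) :
    ∃ m' : ℂ, Rep S (H ^ r) (B ^ r) m' (fun z => g z ^ r) := by
  induction r with
  | zero =>
    refine ⟨1, ?_⟩
    simp only [pow_zero]
    exact rep_mono (rep_const 1) (Finset.empty_subset S) le_rfl (by rw [norm_one])
  | succ r ih =>
    obtain ⟨m', hm'⟩ := ih
    obtain ⟨m'', hm''⟩ := rep_mul hm' h
    refine ⟨m'', ?_⟩
    simp only [pow_succ]
    exact hm''

theorem rep_prod {J : Finset ℕ} {S : ℕ → Finset ℕ}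
    (hd : ∀ i ∈ J, ∀ j ∈ J, i ≠ j → Disjoint (S i) (S j)) {H B : ℕ → ℝ} {m : ℕ → ℂ}
    {g : ℕ → (ℕ → ℂ) → ℂ} (h : ∀ j ∈ J, Rep (S j) (H j) (B j) (m j) (g j)) :
    Rep (J.biUnion S) (∏ j ∈ J, H j) (∏ j ∈ J, B j) (∏ j ∈ J, m j) (fun z => ∏ j ∈ J, g j z) := by
  classical
  induction J using Finset.induction_on with
  | empty =>
    simp only [Finset.prod_empty, Finset.biUnion_empty]
    exact rep_mono (rep_const 1) (Finset.empty_subset _) le_rfl (by rw [norm_one])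
  | insert j J hj ih =>
    simp only [Finset.prod_insert hj, Finset.biUnion_insert]
    refine rep_mul_disj ?_ (h j (Finset.mem_insert_self j J))
      (ih (fun i hi k hk => hd i (Finset.mem_insert_of_mem hi) k (Finset.mem_insert_of_mem hk))
        (fun k hk => h k (Finset.mem_insert_of_mem hk)))
    rw [Finset.disjoint_biUnion_right]
    intro k hk
    apply hd j (Finset.mem_insert_self j J) k (Finset.mem_insert_of_mem hk)
    rintro rfl
    exact hj hk

end Pool.Agent.Lib.MP_ec260d_ntB
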