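import Mathlib

/-!
# CUlt: the ultrametric quadratic form

`b_0, ..., b_k` real with `∑ b = 0`; `lam_0, ..., lam_{k-1} ≥ 0`; `L i i' = max (lam_l : i ≤ l < i')` for `i < i' ≤ k`, `L` symmetric, zero on the diagonal. Put
`B(l) = ∑_{i ≤ l} b_i`. Claim: `-∑ b_i b_i' L i i' ≥ (1/k^2) ∑_{l<k} B(l)^2 lam_l`.

Step 1 (one threshold `τ ≥ 0`). `G = {l < k : τ < lam_l}`, `sep(i,i') = 1` if some `l ∈ G` satisfies `min(i,i') ≤ l < max(i,i')`, else `0`.
With `N(i) = #{l ∈ G : l < i}`: `sep(i,i') = 1` iff `N(i) ≠ N(i')`. With `C_m = ∑_{i ≤ k, N(i) = m} b_i`: `∑∑ b_i b_i' (1 - sep) = ∑_m C_m^2`, and `∑∑ b_i b_i' = 0`, so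
`-∑∑ b_i b_i' sep = ∑_m C_m^2`. For `l ∈ G`: `{i : i ≤ l} = {i : N(i) ≤ N(l)}`, so `B(l) = ∑_{m ≤ N(l)} C_m`, `N(l) ≤ l ≤ k - 1`, and Cauchy's inequality gives
`B(l)^2 ≤ k ∑_m C_m^2`. Sum over the at most `k` elements of `G`: `∑_{l ∈ G} B(l)^2 ≤ k^2 ∑_m C_m^2 = -k^2 ∑∑ b_i b_i' sep`.

Step 2. Integrate over `τ ∈ [0, A]`, `A` larger than all `lam_l`: `∫_0^A 1[τ < lam_l] dτ = lam_l` and `∫_0^A sep_τ(i,i') dτ = L i i'` (`sep_τ(i,i') = 1[τ < L i i']` for `τ ≥ 0`).
(Alternatively: order the distinct values of `lam` and use summation by parts.)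
-/

namespace Pool.Agent.Lib.MP_ec260d_ntB

open Complex Set Filter Topology MeasureTheory

private noncomputable def cult_N (lam : ℕ → ℝ) (τ : ℝ) (i : ℕ) : ℕ :=
  ((Finset.range i).filter (fun l => τ < lam l)).card

private theorem cult_N_mono (lam : ℕ → ℝ) (τ : ℝ) {i i' : ℕ} (h : i ≤ i') :
    cult_N lam τ i ≤ cult_N lam τ i' := by
  unfold cult_N
  apply Finset.card_le_card
  apply Finset.filter_subset_filter
  exact Finset.range_subset_range.mpr h

private theorem cult_N_succ (lam : ℕ → ℝ) (τ : ℝ) {l : ℕ} (h : τ < lam l) :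
    cult_N lam τ (l + 1) = cult_N lam τ l + 1 := by
  unfold cult_N
  rw [Finset.range_add_one, Finset.filter_insert, if_pos h, Finset.card_insert_of_notMem]
  simp

private theorem cult_N_le (lam : ℕ → ℝ) (τ : ℝ) (i : ℕ) : cult_N lam τ i ≤ i := by
  unfold cult_N
  exact (Finset.card_filter_le _ _).trans (by simp)

private theorem cult_exists (lam : ℕ → ℝ) (τ : ℝ) {i i' : ℕ}
    (h : cult_N lam τ i < cult_N lam τ i') : ∃ l, i ≤ l ∧ l < i' ∧ τ < lam l := by
  by_contra hc
  push Not at hc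
  apply absurd h
  rw [not_lt]
  unfold cult_N
  apply Finset.card_le_card
  intro l hl
  rw [Finset.mem_filter, Finset.mem_range] at hl ⊢
  refine ⟨?_, hl.2⟩
  by_contra h3
  exact absurd hl.2 (not_lt.mpr (hc l (not_lt.mp h3) hl.1))

private theorem cult_sep (k : ℕ) (lam : ℕ → ℝ) (L : ℕ → ℕ → ℝ) (τ : ℝ) (hτ : 0 ≤ τ)
    (hd : ∀ i, L i i = 0) (hs : ∀ i i', L i i' = L i' i)
    (h1 : ∀ i i' l : ℕ, i ≤ l → l < i' → i' ≤ k → lam l ≤ L i i')
    (h2 : ∀ i i' : ℕ, i < i' → i' ≤ k → ∃ l, i ≤ l ∧ l < i' ∧ L i i' = lam l)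
    (i i' : ℕ) (hi : i ≤ k) (hi' : i' ≤ k) :
    (τ < L i i') ↔ cult_N lam τ i ≠ cult_N lam τ i' := by
  have key : ∀ a c : ℕ, a < c → c ≤ k → ((τ < L a c) ↔ cult_N lam τ a ≠ cult_N lam τ c) := by
    intro a c hac hck
    constructor
    · intro h
      obtain ⟨l, hl1, hl2, hl3⟩ := h2 a c hac hck
      rw [hl3] at h
      have e1 := cult_N_mono lam τ hl1
      have e2 := cult_N_succ lam τ h
      have e3 := cult_N_mono lam τ (show l + 1 ≤ c from hl2)
      omega
    · intro h
      have e1 := cult_N_mono lam τ hac.le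
      obtain ⟨l, hl1, hl2, hl3⟩ := cult_exists lam τ (lt_of_le_of_ne e1 h)
      exact lt_of_lt_of_le hl3 (h1 a c l hl1 hl2 hck)
  rcases lt_trichotomy i i' with h | h | h
  · exact key i i' h hi'
  · subst h
    rw [hd]
    constructor
    · intro h; exact absurd h (not_lt.mpr hτ)
    · intro h; exact absurd rfl h
  · rw [hs, key i' i h hi]
    exact ne_comm

private theorem cult_fix (k : ℕ) (b lam : ℕ → ℝ) (L : ℕ → ℕ → ℝ) (τ : ℝ) (hτ : 0 ≤ τ)
    (hb : ∑ i ∈ Finset.range (k + 1), b i = 0)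
    (hd : ∀ i, L i i = 0) (hs : ∀ i i', L i i' = L i' i)
    (h1 : ∀ i i' l : ℕ, i ≤ l → l < i' → i' ≤ k → lam l ≤ L i i')
    (h2 : ∀ i i' : ℕ, i < i' → i' ≤ k → ∃ l, i ≤ l ∧ l < i' ∧ L i i' = lam l) :
    ∑ l ∈ Finset.range k, (∑ i ∈ Finset.range (l + 1), b i) ^ 2 * (if τ < lam l then (1 : ℝ) else 0) ≤
      (k : ℝ) ^ 2 * -∑ i ∈ Finset.range (k + 1), ∑ i' ∈ Finset.range (k + 1),
        b i * b i' * (if τ < L i i' then (1 : ℝ) else 0) := by
  set N : ℕ → ℕ := cult_N lam τ with hN
  set C : ℕ → ℝ := fun m => ∑ i ∈ Finset.range (k + 1), if N i = m then b i else 0 with hC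
  set S : ℝ := ∑ m ∈ Finset.range (k + 1), C m ^ 2 with hS
  have hSnn : 0 ≤ S := Finset.sum_nonneg (fun m _ => sq_nonneg _)
  -- S as a double sum
  have hS2 : S = ∑ i ∈ Finset.range (k + 1), ∑ i' ∈ Finset.range (k + 1),
      b i * b i' * (if N i = N i' then (1 : ℝ) else 0) := by
    have e1 : ∀ m, C m ^ 2 = ∑ i ∈ Finset.range (k + 1), ∑ i' ∈ Finset.range (k + 1),
        (if N i = m then b i else 0) * (if N i' = m then b i' else 0) := by
      intro m
      rw [hC, sq, Finset.sum_mul_sum]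
    rw [hS, Finset.sum_congr rfl (fun m _ => e1 m), Finset.sum_comm]
    apply Finset.sum_congr rfl
    intro i hi
    rw [Finset.sum_comm]
    apply Finset.sum_congr rfl
    intro i' hi'
    have hNi : N i ∈ Finset.range (k + 1) := by
      rw [Finset.mem_range] at hi ⊢
      have := cult_N_le lam τ i
      rw [← hN] at this
      omega
    rw [Finset.sum_eq_single (N i)]
    · rw [if_pos rfl]
      by_cases h : N i = N i'
      · rw [if_pos h.symm, if_pos h, mul_one]
      · rw [if_neg (fun h' => h h'.symm), if_neg h, mul_zero, mul_zero]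
    · intro m _ hm
      rw [if_neg (fun h' => hm h'.symm), zero_mul]
    · intro h; exact absurd hNi h
  have hneg : -∑ i ∈ Finset.range (k + 1), ∑ i' ∈ Finset.range (k + 1),
        b i * b i' * (if τ < L i i' then (1 : ℝ) else 0) = S := by
    have e1 : ∑ i ∈ Finset.range (k + 1), ∑ i' ∈ Finset.range (k + 1),
        b i * b i' * (if τ < L i i' then (1 : ℝ) else 0) =
        (∑ i ∈ Finset.range (k + 1), ∑ i' ∈ Finset.range (k + 1), b i * b i') -
        ∑ i ∈ Finset.range (k + 1), ∑ i' ∈ Finset.range (k + 1),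
          b i * b i' * (if N i = N i' then (1 : ℝ) else 0) := by
      rw [← Finset.sum_sub_distrib]
      apply Finset.sum_congr rfl
      intro i hi
      rw [← Finset.sum_sub_distrib]
      apply Finset.sum_congr rfl
      intro i' hi'
      have hi1 : i ≤ k := by rw [Finset.mem_range] at hi; omega
      have hi2 : i' ≤ k := by rw [Finset.mem_range] at hi'; omega
      have hsep := cult_sep k lam L τ hτ hd hs h1 h2 i i' hi1 hi2
      by_cases h : N i = N i'
      · rw [if_neg (fun h' => (hsep.mp h') h), if_pos h]; ring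
      · rw [if_pos (hsep.mpr h), if_neg h]; ring
    rw [e1, ← hS2, ← Finset.sum_mul_sum, hb]
    ring
  rw [hneg]
  have hB : ∀ l ∈ Finset.range k, (∑ i ∈ Finset.range (l + 1), b i) ^ 2 *
      (if τ < lam l then (1 : ℝ) else 0) ≤ (k : ℝ) * S := by
    intro l hl
    rw [Finset.mem_range] at hl
    by_cases h : τ < lam l
    · rw [if_pos h, mul_one]
      have hsucc := cult_N_succ lam τ h
      rw [← hN] at hsucc
      have hlN : N l ≤ l := cult_N_le lam τ l
      have e1 : ∑ i ∈ Finset.range (l + 1), b i = ∑ m ∈ Finset.range (N l + 1), C m := by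
        have e2 : ∑ m ∈ Finset.range (N l + 1), C m =
            ∑ i ∈ Finset.range (k + 1), if N i < N l + 1 then b i else 0 := by
          rw [hC, Finset.sum_comm]
          apply Finset.sum_congr rfl
          intro i hi
          rw [Finset.sum_ite_eq]
          simp only [Finset.mem_range]
        have e3 : ∑ i ∈ Finset.range (l + 1), b i =
            ∑ i ∈ Finset.range (k + 1), if i < l + 1 then b i else 0 := by
          rw [← Finset.sum_filter]
          apply Finset.sum_congr _ (fun _ _ => rfl)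
          ext i
          rw [Finset.mem_filter, Finset.mem_range, Finset.mem_range]
          constructor
          · intro h; constructor <;> omega
          · intro h; exact h.2
        rw [e2, e3]
        apply Finset.sum_congr rfl
        intro i hi
        by_cases h' : i < l + 1
        · have := cult_N_mono lam τ (show i ≤ l by omega)
          rw [← hN] at this
          rw [if_pos h', if_pos (by omega)]
        · have := cult_N_mono lam τ (show l + 1 ≤ i by omega)
          rw [← hN] at this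
          rw [if_neg h', if_neg (by omega)]
      rw [e1]
      have e4 : (∑ m ∈ Finset.range (N l + 1), C m) ^ 2 ≤
          ((Finset.range (N l + 1)).card : ℝ) * ∑ m ∈ Finset.range (N l + 1), C m ^ 2 :=
        sq_sum_le_card_mul_sum_sq
      have e5 : ∑ m ∈ Finset.range (N l + 1), C m ^ 2 ≤ S := by
        rw [hS]
        apply Finset.sum_le_sum_of_subset_of_nonneg
        · exact Finset.range_subset_range.mpr (by omega)
        · intro m _ _; exact sq_nonneg _
      have e6 : ((Finset.range (N l + 1)).card : ℝ) ≤ k := by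
        rw [Finset.card_range]
        exact_mod_cast (show N l + 1 ≤ k by omega)
      refine e4.trans ?_
      exact mul_le_mul e6 e5 (Finset.sum_nonneg (fun m _ => sq_nonneg _)) (by positivity)
    · rw [if_neg h, mul_zero]
      positivity
  calc _ ≤ ∑ l ∈ Finset.range k, (k : ℝ) * S := Finset.sum_le_sum hB
    _ = (k : ℝ) ^ 2 * S := by
      rw [Finset.sum_const, Finset.card_range, nsmul_eq_mul]; ring

private theorem cult_ii (x A : ℝ) :
    IntervalIntegrable (fun τ : ℝ => if τ < x then (1 : ℝ) else 0) volume 0 A := by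
  have h : (fun τ : ℝ => if τ < x then (1 : ℝ) else 0) = (Iio x).indicator (fun _ => (1 : ℝ)) := by
    funext τ
    simp only [Set.indicator, Set.mem_Iio]
  rw [h]
  have h0 : IntervalIntegrable (fun _ : ℝ => (1 : ℝ)) volume 0 A := intervalIntegrable_const
  exact ⟨h0.1.indicator measurableSet_Iio, h0.2.indicator measurableSet_Iio⟩

private theorem cult_int (x A : ℝ) (hx : 0 ≤ x) (hxA : x ≤ A) :
    ∫ τ in (0 : ℝ)..A, (if τ < x then (1 : ℝ) else 0) = x := by
  have h0x : IntervalIntegrable (fun τ : ℝ => if τ < x then (1 : ℝ) else 0) volume 0 x := cult_ii x x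
  have hxA' : IntervalIntegrable (fun τ : ℝ => if τ < x then (1 : ℝ) else 0) volume x A :=
    h0x.symm.trans (cult_ii x A)
  rw [← intervalIntegral.integral_add_adjacent_intervals h0x hxA']
  have e1 : ∫ τ in (0 : ℝ)..x, (if τ < x then (1 : ℝ) else 0) = ∫ τ in (0 : ℝ)..x, (1 : ℝ) := by
    rw [intervalIntegral.integral_of_le hx, intervalIntegral.integral_of_le hx,
      MeasureTheory.integral_Ioc_eq_integral_Ioo, MeasureTheory.integral_Ioc_eq_integral_Ioo]
    apply MeasureTheory.setIntegral_congr_fun measurableSet_Ioo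
    intro τ hτ
    simp only
    rw [if_pos hτ.2]
  have e2 : ∫ τ in x..A, (if τ < x then (1 : ℝ) else 0) = ∫ τ in x..A, (0 : ℝ) := by
    apply intervalIntegral.integral_congr
    intro τ hτ
    rw [Set.uIcc_of_le hxA] at hτ
    simp only
    rw [if_neg (not_lt.mpr hτ.1)]
  rw [e1, e2]
  simp

theorem ult (k : ℕ) (b lam : ℕ → ℝ) (L : ℕ → ℕ → ℝ)
    (hb : ∑ i ∈ Finset.range (k + 1), b i = 0) (hlam : ∀ l < k, 0 ≤ lam l)
    (hd : ∀ i, L i i = 0) (hs : ∀ i i', L i i' = L i' i)
    (h1 : ∀ i i' l : ℕ, i ≤ l → l < i' → i' ≤ k → lam l ≤ L i i')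
    (h2 : ∀ i i' : ℕ, i < i' → i' ≤ k → ∃ l, i ≤ l ∧ l < i' ∧ L i i' = lam l) :
    1 / (k : ℝ) ^ 2 * ∑ l ∈ Finset.range k, (∑ i ∈ Finset.range (l + 1), b i) ^ 2 * lam l ≤
      -∑ i ∈ Finset.range (k + 1), ∑ i' ∈ Finset.range (k + 1), b i * b i' * L i i' := by
  rcases Nat.eq_zero_or_pos k with hk | hk
  · subst hk
    simp [hd]
  have hk' : (0 : ℝ) < (k : ℝ) ^ 2 := by positivity
  -- a bound for all values
  have hLnn : ∀ i i', i ≤ k → i' ≤ k → 0 ≤ L i i' := by
    have key : ∀ a c : ℕ, a < c → c ≤ k → 0 ≤ L a c := by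
      intro a c hac hck
      obtain ⟨l, hl1, hl2, hl3⟩ := h2 a c hac hck
      rw [hl3]
      exact hlam l (by omega)
    intro i i' hi hi'
    rcases lt_trichotomy i i' with h | h | h
    · exact key i i' h hi'
    · subst h; rw [hd]
    · rw [hs]; exact key i' i h hi
  set A : ℝ := (∑ l ∈ Finset.range k, lam l) +
    ∑ i ∈ Finset.range (k + 1), ∑ i' ∈ Finset.range (k + 1), L i i' with hA
  have hlamnn : 0 ≤ ∑ l ∈ Finset.range k, lam l :=
    Finset.sum_nonneg (fun l hl => hlam l (Finset.mem_range.mp hl))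
  have hin : ∀ i ∈ Finset.range (k + 1), 0 ≤ ∑ i' ∈ Finset.range (k + 1), L i i' := by
    intro i hi
    apply Finset.sum_nonneg
    intro i' hi'
    rw [Finset.mem_range] at hi hi'
    exact hLnn i i' (by omega) (by omega)
  have hLsumnn : 0 ≤ ∑ i ∈ Finset.range (k + 1), ∑ i' ∈ Finset.range (k + 1), L i i' :=
    Finset.sum_nonneg hin
  have hA0 : 0 ≤ A := add_nonneg hlamnn hLsumnn
  have hlamA : ∀ l ∈ Finset.range k, lam l ≤ A := by
    intro l hl
    have := Finset.single_le_sum (f := lam) (fun l hl => hlam l (Finset.mem_range.mp hl)) hl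
    linarith
  have hLA : ∀ i ∈ Finset.range (k + 1), ∀ i' ∈ Finset.range (k + 1), L i i' ≤ A := by
    intro i hi i' hi'
    have e1 : L i i' ≤ ∑ i' ∈ Finset.range (k + 1), L i i' := by
      apply Finset.single_le_sum (f := fun i' => L i i') _ hi'
      intro j hj
      rw [Finset.mem_range] at hi hj
      exact hLnn i j (by omega) (by omega)
    have e2 := Finset.single_le_sum (f := fun i => ∑ i' ∈ Finset.range (k + 1), L i i') hin hi
    linarith
  -- the two sides as integrals
  have eL : ∑ l ∈ Finset.range k, (∑ i ∈ Finset.range (l + 1), b i) ^ 2 * lam l =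
      ∫ τ in (0 : ℝ)..A, ∑ l ∈ Finset.range k,
        (∑ i ∈ Finset.range (l + 1), b i) ^ 2 * (if τ < lam l then (1 : ℝ) else 0) := by
    rw [intervalIntegral.integral_finsetSum (fun l _ => (cult_ii (lam l) A).const_mul _)]
    apply Finset.sum_congr rfl
    intro l hl
    rw [intervalIntegral.integral_const_mul, cult_int (lam l) A (hlam l (Finset.mem_range.mp hl)) (hlamA l hl)]
  have iiR1 : ∀ i i', IntervalIntegrable
      (fun τ : ℝ => b i * b i' * (if τ < L i i' then (1 : ℝ) else 0)) volume 0 A :=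
    fun i i' => (cult_ii (L i i') A).const_mul _
  have iiR2 : ∀ i, IntervalIntegrable
      (fun τ : ℝ => ∑ i' ∈ Finset.range (k + 1), b i * b i' * (if τ < L i i' then (1 : ℝ) else 0)) volume 0 A := by
    intro i
    have := IntervalIntegrable.sum (Finset.range (k + 1)) (f := fun i' => fun τ : ℝ => b i * b i' * (if τ < L i i' then (1 : ℝ) else 0)) (fun i' _ => iiR1 i i')
    simpa only [Finset.sum_fn] using this
  have iiR3 : IntervalIntegrable
      (fun τ : ℝ => ∑ i ∈ Finset.range (k + 1), ∑ i' ∈ Finset.range (k + 1),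
        b i * b i' * (if τ < L i i' then (1 : ℝ) else 0)) volume 0 A := by
    have := IntervalIntegrable.sum (Finset.range (k + 1)) (f := fun i => fun τ : ℝ => ∑ i' ∈ Finset.range (k + 1), b i * b i' * (if τ < L i i' then (1 : ℝ) else 0)) (fun i _ => iiR2 i)
    simpa only [Finset.sum_fn] using this
  have iiL : IntervalIntegrable (fun τ : ℝ => ∑ l ∈ Finset.range k,
        (∑ i ∈ Finset.range (l + 1), b i) ^ 2 * (if τ < lam l then (1 : ℝ) else 0)) volume 0 A := by
    have := IntervalIntegrable.sum (Finset.range k) (f := fun l => fun τ : ℝ => (∑ i ∈ Finset.range (l + 1), b i) ^ 2 * (if τ < lam l then (1 : ℝ) else 0)) (fun l _ => (cult_ii (lam l) A).const_mul _)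
    simpa only [Finset.sum_fn] using this
  have eR : ∑ i ∈ Finset.range (k + 1), ∑ i' ∈ Finset.range (k + 1), b i * b i' * L i i' =
      ∫ τ in (0 : ℝ)..A, ∑ i ∈ Finset.range (k + 1), ∑ i' ∈ Finset.range (k + 1),
        b i * b i' * (if τ < L i i' then (1 : ℝ) else 0) := by
    rw [intervalIntegral.integral_finsetSum (fun i _ => iiR2 i)]
    apply Finset.sum_congr rfl
    intro i hi
    rw [intervalIntegral.integral_finsetSum (fun i' _ => iiR1 i i')]
    apply Finset.sum_congr rfl
    intro i' hi'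
    have hi1 : i ≤ k := by rw [Finset.mem_range] at hi; omega
    have hi2 : i' ≤ k := by rw [Finset.mem_range] at hi'; omega
    rw [intervalIntegral.integral_const_mul, cult_int (L i i') A (hLnn i i' hi1 hi2) (hLA i hi i' hi')]
  have main : ∑ l ∈ Finset.range k, (∑ i ∈ Finset.range (l + 1), b i) ^ 2 * lam l ≤
      (k : ℝ) ^ 2 * -∑ i ∈ Finset.range (k + 1), ∑ i' ∈ Finset.range (k + 1), b i * b i' * L i i' := by
    rw [eL, eR, ← intervalIntegral.integral_neg, ← intervalIntegral.integral_const_mul]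
    apply intervalIntegral.integral_mono_on hA0 iiL (iiR3.neg.const_mul _)
    intro τ hτ
    exact cult_fix k b lam L τ hτ.1 hb hd hs h1 h2
  rw [div_mul_eq_mul_div, one_mul, div_le_iff₀ hk', mul_comm]
  exact main

end Pool.Agent.Lib.MP_ec260d_ntB
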