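import Mathlib
import Pool.Agent.Lib.MP_ec260d_ntB.BNu

/-!
# JOB IC: most ordinates are near good heights (interface C)

`h = hT T`. Choose `b ≥ 1` with `nu_bound (ε/4)` (`b = b₀`), `B = 2 b`, `T ≥ T₀`. Let `ν t = NN (t + b h) - NN t ≥ 0`, `γ_n = ordinate n`. For `n ∈ F`: `T + B h ≤ γ_n ≤ (9/4) T` (`2 T + T/4`); note `n ≥ 1` (`ordinate 0 = 0`: `sInf` of all reals is `0`) and `ord_le_iff`: `γ_n ≤ t ↔ n ≤ zeroCount t`.
(1) For `t ∈ (γ_n - b h, γ_n)` (so `t ∈ [T, (9/4) T]`): `zeroCount t < n ≤ zeroCount (t + b h)`. If moreover `t ∈ G` then, since `|t - γ_n| ≤ B h`, the assumption on `F` gives `|NN t - n| > B`, so `n > NN t + B`.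
(2) Let `c t` = the number of `n ∈ F` with `γ_n - b h < t < γ_n`. By (1): `c t ≤ ν t` always (`ord_count`) and `c t ≤ max (ν t - B) 0` for `t ∈ G` (the `n` counted lie in `(NN t + B, NN (t + b h)]`; `Finset.card` of integers in a real interval of length `x` whose ends are: upper end a natural number: at most `max x 0` when the lower end is `≥`: the number of natural numbers `n` with
  `y < n ≤ m` (`m` a natural number, `y` real) is at most `max (m - y) 0` for `y ≥ 0`: they are `m, m - 1, ..`, the number `k` of them satisfies `m - k + 1 > y`, so `k < m - y + 1`; with `B = 2 b` replaced by the natural number `⌊2 b⌋` or by taking `b` a natural number (choose `b = ⌈b₀⌉`) the lower end is a natural number and the count is exactly the difference: do this).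
(3) `b h |F| = ∑_{n ∈ F} ∫ 1_{(γ_n - b h, γ_n)} = ∫ t in T..(9/4)T, c t ≤ ∫ over G of max (ν - B) 0 + ∫ outside of G of ν ≤ ∫ over G of max (ν - B) 0 + ∫ outside of G of (max (ν - B) 0 + B) ≤ ∫ t in T..(9/4)T, max (ν t - B) 0 + B volume ([T, 3T] \ G) ≤ ∫ max (ν t - b) 0 + B η T ≤ (ε/4) b T + 2 b η T`.
(4) So `|F| ≤ ((ε/4) + 2 η) T / h ≤ (ε + 3 η) (T / h)`.
Measurability of `c`, `ν`: finite sums of indicators, monotone functions.
-/

namespace Pool.Agent.Lib.MP_ec260d_ntB

open Complex Set Filter Topology MeasureTheory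
open Pool.Agent.Lib.MP_ec260d_nt (ordinate)

private theorem IC_mono : Monotone NN := fun s t h => by
  unfold NN
  exact_mod_cast Pool.Agent.Lib.MP_ec260d_nt.zeroCount_mono h

private theorem IC_zero : ordinate 0 = 0 := by
  unfold ordinate
  have h : {T : ℝ | 0 ≤ Pool.Agent.Lib.MP_ec260d_nt.zeroCount T} = Set.univ :=
    Set.eq_univ_of_forall fun T => Nat.zero_le _
  rw [h, Real.sInf_univ]

private theorem IC_card {m k d : ℕ} (F : Finset ℕ) (hF : ∀ n ∈ F, m + d < n ∧ n ≤ k) :
    (F.card : ℝ) ≤ max ((k : ℝ) - m - d) 0 := by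
  have h1 : F ⊆ Finset.Ioc (m + d) k := fun n hn => Finset.mem_Ioc.2 (hF n hn)
  have h2 := Finset.card_le_card h1
  rw [Nat.card_Ioc] at h2
  rcases Nat.le_total (m + d) k with h3 | h3
  · refine le_trans ?_ (le_max_left _ _)
    have h4 : (F.card : ℝ) + (m + d) ≤ k := by
      have : F.card + (m + d) ≤ k := by omega
      exact_mod_cast this
    linarith
  · have h4 : F.card = 0 := by omega
    rw [h4, Nat.cast_zero]
    exact le_max_right _ _

private theorem IC_pt (b : ℕ) (T : ℝ) (hT2 : 2 ≤ T) (hh : 0 < hT T) (G : Set ℝ) (F : Finset ℕ)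
    (hF : ∀ n ∈ F, T + 2 * (b : ℝ) * hT T ≤ ordinate n ∧ ordinate n ≤ 2 * T + T / 4 ∧
      ¬ ∃ t ∈ G, |t - ordinate n| ≤ 2 * (b : ℝ) * hT T ∧ |NN t - n| ≤ 2 * (b : ℝ)) (t : ℝ) :
    ∑ n ∈ F, (Ioo (ordinate n - b * hT T) (ordinate n)).indicator (fun _ => (1 : ℝ)) t ≤
      max (NN (t + b * hT T) - NN t - b) 0 + Gᶜ.indicator (fun _ => (b : ℝ)) t := by
  classical
  have hb0 : (0 : ℝ) ≤ b := Nat.cast_nonneg b
  have hsum : ∑ n ∈ F, (Ioo (ordinate n - b * hT T) (ordinate n)).indicator (fun _ => (1 : ℝ)) t =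
      ((F.filter (fun n => t ∈ Ioo (ordinate n - b * hT T) (ordinate n))).card : ℝ) := by
    rw [← Finset.sum_boole]
    exact Finset.sum_congr rfl fun n _ => Set.indicator_apply _ _ _
  rw [hsum]
  have hmem : ∀ n ∈ F.filter (fun n => t ∈ Ioo (ordinate n - b * hT T) (ordinate n)),
      Pool.Agent.Lib.MP_ec260d_nt.zeroCount t < n ∧
        n ≤ Pool.Agent.Lib.MP_ec260d_nt.zeroCount (t + b * hT T) := by
    intro n hn
    obtain ⟨h1, h2⟩ := Finset.mem_filter.1 hn
    obtain ⟨h3, -, -⟩ := hF n h1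
    have hn1 : 1 ≤ n := by
      rcases Nat.eq_zero_or_pos n with h4 | h4
      · subst h4
        rw [IC_zero] at h3
        have : 0 ≤ 2 * (b : ℝ) * hT T := by positivity
        linarith
      · exact h4
    constructor
    · have h4 : ¬ ordinate n ≤ t := not_le.2 h2.2
      rw [ord_le_iff hn1] at h4
      exact not_le.1 h4
    · rw [← ord_le_iff hn1]
      linarith [h2.1]
  have hν : 0 ≤ NN (t + b * hT T) - NN t :=
    sub_nonneg.2 (IC_mono (by nlinarith))
  by_cases hG : t ∈ G
  · have hG' : t ∉ Gᶜ := fun h => h hG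
    rw [Set.indicator_of_notMem hG', add_zero]
    have h1 := IC_card (m := Pool.Agent.Lib.MP_ec260d_nt.zeroCount t)
      (k := Pool.Agent.Lib.MP_ec260d_nt.zeroCount (t + b * hT T)) (d := 2 * b)
      (F.filter (fun n => t ∈ Ioo (ordinate n - b * hT T) (ordinate n))) (fun n hn => by
        obtain ⟨h1, h2⟩ := Finset.mem_filter.1 hn
        obtain ⟨h5, h6⟩ := hmem n hn
        refine ⟨?_, h6⟩
        obtain ⟨-, -, h3⟩ := hF n h1
        by_contra hcon
        apply h3
        refine ⟨t, hG, ?_, ?_⟩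
        · rw [abs_le]
          have : 0 ≤ (b : ℝ) * hT T := by positivity
          constructor <;> linarith [h2.1, h2.2]
        · have h7 : (n : ℝ) ≤ NN t + 2 * b := by
            unfold NN
            exact_mod_cast not_lt.1 hcon
          have h8 : NN t < n := by
            unfold NN
            exact_mod_cast h5
          rw [abs_le]
          constructor <;> linarith)
    refine h1.trans ?_
    refine max_le_max ?_ le_rfl
    show NN (t + b * hT T) - NN t - ((2 * b : ℕ) : ℝ) ≤ _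
    rw [Nat.cast_mul, Nat.cast_ofNat]
    linarith
  · rw [Set.indicator_of_mem (show t ∈ Gᶜ from hG)]
    have h1 := ord_count t (t + b * hT T) _ hmem
    rw [max_eq_left hν] at h1
    have h2 := le_max_left (NN (t + b * hT T) - NN t - b) 0
    linarith

theorem cells (ε : ℝ) (hε : 0 < ε) : ∃ B T₀ : ℝ, 1 ≤ B ∧ 2 ≤ T₀ ∧ ∀ T : ℝ, T₀ ≤ T →
    ∀ (η : ℝ) (G : Set ℝ), 0 ≤ η → MeasurableSet G →
      volume (Icc T (3 * T) \ G) ≤ ENNReal.ofReal (η * T) →
      ∀ F : Finset ℕ, (∀ n ∈ F, T + B * hT T ≤ ordinate n ∧ ordinate n ≤ 2 * T + T / 4 ∧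
          ¬ ∃ t ∈ G, |t - ordinate n| ≤ B * hT T ∧ |NN t - n| ≤ B) →
        (F.card : ℝ) ≤ (ε + 3 * η) * (T / hT T) := by
  obtain ⟨b₀, hb₀, hnu⟩ := nu_bound (ε / 4) (by positivity)
  obtain ⟨b, hb⟩ : ∃ b : ℕ, b₀ ≤ b := ⟨⌈b₀⌉₊, Nat.le_ceil b₀⟩
  obtain ⟨T₀, hT₀, hnu⟩ := hnu b hb
  have hb1 : (1 : ℝ) ≤ b := hb₀.trans hb
  refine ⟨2 * b, T₀, by linarith, hT₀, fun T hTT η G hη hG hvol F hF => ?_⟩
  have hT2 : 2 ≤ T := hT₀.trans hTT
  have hl : 0 < Real.log T := Real.log_pos (by linarith)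
  have hh : 0 < hT T := by
    unfold hT
    positivity
  have hpt := IC_pt b T hT2 hh G F hF
  have hg := hnu T hTT
  have hle : T ≤ 9 / 4 * T := by linarith
  rw [intervalIntegral.integral_of_le hle] at hg
  have hbh : 0 < (b : ℝ) * hT T := by positivity
  -- integrability
  have hν : IntegrableOn (fun t => NN (t + b * hT T) - NN t - b) (Ioc T (9 / 4 * T)) := by
    have h1 : IntervalIntegrable (fun t => NN (t + b * hT T)) volume T (9 / 4 * T) :=
      Monotone.intervalIntegrable fun s t hst => IC_mono (by linarith)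
    have h2 : IntervalIntegrable NN volume T (9 / 4 * T) := Monotone.intervalIntegrable IC_mono
    have h3 : IntegrableOn (fun _ : ℝ => (b : ℝ)) (Ioc T (9 / 4 * T)) :=
      integrableOn_const (by simp) (by simp)
    exact ((h1.1).sub h2.1).sub h3
  have hgi : IntegrableOn (fun t => max (NN (t + b * hT T) - NN t - b) 0) (Ioc T (9 / 4 * T)) :=
    Integrable.pos_part hν
  have hGi : IntegrableOn (Gᶜ.indicator (fun _ => (b : ℝ))) (Ioc T (9 / 4 * T)) := by
    have h3 : IntegrableOn (fun _ : ℝ => (b : ℝ)) (Ioc T (9 / 4 * T)) :=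
      integrableOn_const (by simp) (by simp)
    exact Integrable.indicator h3 hG.compl
  have hci : ∀ n ∈ F, Integrable ((Ioo (ordinate n - b * hT T) (ordinate n)).indicator
      (fun _ => (1 : ℝ))) (volume.restrict (Ioc T (9 / 4 * T))) := by
    intro n _
    have h3 : IntegrableOn (fun _ : ℝ => (1 : ℝ)) (Ioc T (9 / 4 * T)) :=
      integrableOn_const (by simp) (by simp)
    exact Integrable.indicator h3 measurableSet_Ioo
  have hint := integral_mono (μ := volume.restrict (Ioc T (9 / 4 * T)))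
    (integrable_finset_sum F hci) (hgi.add hGi) hpt
  rw [integral_finset_sum F hci] at hint
  have hone : ∀ n ∈ F, ∫ t in Ioc T (9 / 4 * T),
      (Ioo (ordinate n - b * hT T) (ordinate n)).indicator (fun _ => (1 : ℝ)) t = b * hT T := by
    intro n hn
    obtain ⟨h1, h2, -⟩ := hF n hn
    have hsub : Ioo (ordinate n - b * hT T) (ordinate n) ⊆ Ioc T (9 / 4 * T) := fun t ht =>
      ⟨by linarith [ht.1], by linarith [ht.2]⟩
    rw [integral_indicator measurableSet_Ioo, Measure.restrict_restrict measurableSet_Ioo,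
      Set.inter_eq_left.2 hsub, setIntegral_const,
      smul_eq_mul, mul_one, measureReal_def, Real.volume_Ioo, ENNReal.toReal_ofReal (by linarith)]
    ring
  rw [Finset.sum_congr rfl hone, Finset.sum_const, nsmul_eq_mul] at hint
  have hadd : ∫ t in Ioc T (9 / 4 * T), ((fun t => max (NN (t + b * hT T) - NN t - b) 0) +
      Gᶜ.indicator (fun _ => (b : ℝ))) t = (∫ t in Ioc T (9 / 4 * T),
        max (NN (t + b * hT T) - NN t - b) 0) + ∫ t in Ioc T (9 / 4 * T),
          Gᶜ.indicator (fun _ => (b : ℝ)) t := integral_add hgi hGi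
  have hGm : ∫ t in Ioc T (9 / 4 * T), Gᶜ.indicator (fun _ => (b : ℝ)) t ≤ b * (η * T) := by
    rw [integral_indicator hG.compl, Measure.restrict_restrict hG.compl, setIntegral_const,
      smul_eq_mul, mul_comm]
    refine mul_le_mul_of_nonneg_left ?_ (by linarith)
    rw [measureReal_def]
    have h1 : volume (Gᶜ ∩ Ioc T (9 / 4 * T)) ≤ ENNReal.ofReal (η * T) := by
      refine (measure_mono ?_).trans hvol
      rintro t ⟨h1, h2⟩
      exact ⟨⟨h2.1.le, by linarith [h2.2]⟩, h1⟩
    have h2 : (0 : ℝ) ≤ η * T := by positivity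
    have h3 := ENNReal.toReal_mono ENNReal.ofReal_ne_top h1
    rwa [ENNReal.toReal_ofReal h2] at h3
  have hfin : (F.card : ℝ) * (b * hT T) ≤ ε / 4 * b * T + b * (η * T) := by
    refine hint.trans ?_
    rw [hadd]
    exact add_le_add hg hGm
  have h1 : (F.card : ℝ) * hT T ≤ (ε / 4 + η) * T := by
    have h2 : b * ((F.card : ℝ) * hT T) ≤ b * ((ε / 4 + η) * T) := by
      have e1 : b * ((F.card : ℝ) * hT T) = (F.card : ℝ) * (b * hT T) := by ring
      have e2 : b * ((ε / 4 + η) * T) = ε / 4 * b * T + b * (η * T) := by ring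
      rw [e1, e2]
      exact hfin
    exact le_of_mul_le_mul_left h2 (by linarith)
  rw [mul_div_assoc', le_div_iff₀ hh]
  refine h1.trans (mul_le_mul_of_nonneg_right ?_ (by linarith))
  linarith

end Pool.Agent.Lib.MP_ec260d_ntB
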