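import Mathlib
import Pool.Agent.Lib.MP_ec260d_ntB.Y.R2
import Pool.Agent.Lib.MP_ec260d_ntB.Y.R3
import Pool.Agent.Lib.MP_ec260d_ntB.Y.R4
import Pool.Agent.Lib.MP_ec260d_ntB.Y.R5
import Pool.Agent.Lib.MP_ec260d_ntB.Y.R6

/-!
# Interface Y on the intervals `[T, C₂ T]`
-/

namespace Pool.Agent.Lib.MP_ec260d_ntB

open Complex Set Filter Topology MeasureTheory

private theorem iyc_pow (C₂ : ℝ) : ∃ N : ℕ, C₂ ≤ 3 ^ N := by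
  obtain ⟨N, hN⟩ := pow_unbounded_of_one_lt C₂ (by norm_num : (1 : ℝ) < 3)
  exact ⟨N, hN.le⟩

private theorem iyc_mem {C₂ T t : ℝ} {N : ℕ} (hT : 0 ≤ T) (hN : C₂ ≤ 3 ^ N) (ht : t ∈ Icc T (C₂ * T)) :
    t ∈ Icc T (3 ^ N * T) :=
  ⟨ht.1, ht.2.trans (mul_le_mul_of_nonneg_right hN hT)⟩

theorem y_oscC (C₂ : ℝ) (δ W L ε : ℝ) (hδ : 0 < δ) (hδ1 : δ ≤ 1 / 100) (hW : 1 ≤ W) (hL : 0 ≤ L)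
    (hε : 0 < ε) :
    ∃ A T₀ : ℝ, 1 ≤ A ∧ 2 ≤ T₀ ∧ ∀ T : ℝ, T₀ ≤ T →
      volume {t : ℝ | t ∈ Icc T (C₂ * T) ∧ ∃ s : ℝ, |s - t| ≤ L * hT T ∧
        A < |YY δ W T s - YY δ W T t|} ≤ ENNReal.ofReal (ε * T) := by
  obtain ⟨N, hN⟩ := iyc_pow C₂
  obtain ⟨A, T₀, hA, hT₀, h⟩ := Y.y_oscR N δ W L ε hδ hδ1 hW hL hε
  refine ⟨A, T₀, hA, hT₀, fun T hT => (measure_mono ?_).trans (h T hT)⟩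
  rintro t ⟨ht, h1⟩
  exact ⟨iyc_mem (by linarith) hN ht, h1⟩

theorem y_flatC (C₂ : ℝ) (δ δ' W L ε : ℝ) (hδ : 0 < δ) (hδ1 : δ ≤ 1 / 100) (hδ' : 0 < δ')
    (hδδ : δ' ≤ δ) (hW : 1 ≤ W) (hL : 0 ≤ L) (hε : 0 < ε) :
    ∃ A T₀ : ℝ, 1 ≤ A ∧ 2 ≤ T₀ ∧ ∀ T : ℝ, T₀ ≤ T →
      volume {t : ℝ | t ∈ Icc T (C₂ * T) ∧ ∃ s : ℝ, |s - t| ≤ L * hT T ∧
        A < |YY δ W T s - ∑ j ∈ Finset.range (JJ T), YB δ' W T j s|} ≤ ENNReal.ofReal (ε * T) := by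
  obtain ⟨N, hN⟩ := iyc_pow C₂
  obtain ⟨A, T₀, hA, hT₀, h⟩ := Y.y_flatR N δ δ' W L ε hδ hδ1 hδ' hδδ hW hL hε
  refine ⟨A, T₀, hA, hT₀, fun T hT => (measure_mono ?_).trans (h T hT)⟩
  rintro t ⟨ht, h1⟩
  exact ⟨iyc_mem (by linarith) hN ht, h1⟩

theorem y_blockC (C₂ : ℝ) (k : ℕ) (L ε : ℝ) (hL : 0 ≤ L) (hε : 0 < ε) :
    ∃ δ₁ : ℝ, 0 < δ₁ ∧ ∀ δ : ℝ, 0 < δ → δ ≤ δ₁ → ∀ W : ℝ, 1 ≤ W → ∃ T₀ : ℝ, 2 ≤ T₀ ∧ ∀ T : ℝ, T₀ ≤ T →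
      volume {t : ℝ | t ∈ Icc T (C₂ * T) ∧ ∃ s : ℝ, |s - t| ≤ L * hT T ∧
        ∃ j ∈ Finset.range (JJ T), (dd δ j : ℝ) / (100 * ((k : ℝ) + 1)) < |YB δ W T j s|} ≤
          ENNReal.ofReal (ε * T) := by
  obtain ⟨N, hN⟩ := iyc_pow C₂
  obtain ⟨δ₁, hδ₁, h⟩ := Y.y_blockR N k L ε hL hε
  refine ⟨δ₁, hδ₁, fun δ hδ hδ1 W hW => ?_⟩
  obtain ⟨T₀, hT₀, h⟩ := h δ hδ hδ1 W hW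
  refine ⟨T₀, hT₀, fun T hT => (measure_mono ?_).trans (h T hT)⟩
  rintro t ⟨ht, h1⟩
  exact ⟨iyc_mem (by linarith) hN ht, h1⟩

theorem y_incC (C₂ : ℝ) (δ W C ε : ℝ) (hδ : 0 < δ) (hδ1 : δ ≤ 1 / 100) (hW : 1 ≤ W) (hC : 0 ≤ C)
    (hε : 0 < ε) :
    ∃ A T₀ : ℝ, 1 ≤ A ∧ 2 ≤ T₀ ∧ ∀ T : ℝ, T₀ ≤ T → ∀ u : ℝ, 0 ≤ u → u ≤ C →
      volume {t : ℝ | t ∈ Icc T (C₂ * T) ∧
        A * Real.sqrt (Real.log (2 + u * Real.log T)) < |YY δ W T (t + u) - YY δ W T t|} ≤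
          ENNReal.ofReal (ε * T) := by
  obtain ⟨N, hN⟩ := iyc_pow C₂
  obtain ⟨A, T₀, hA, hT₀, h⟩ := Y.y_incR N δ W C ε hδ hδ1 hW hC hε
  refine ⟨A, T₀, hA, hT₀, fun T hT u hu huC => (measure_mono ?_).trans (h T hT u hu huC)⟩
  rintro t ⟨ht, h1⟩
  exact ⟨iyc_mem (by linarith) hN ht, h1⟩

theorem y_absC (C₂ : ℝ) (δ W ε : ℝ) (hδ : 0 < δ) (hδ1 : δ ≤ 1 / 100) (hW : 1 ≤ W) (hε : 0 < ε) :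
    ∃ A T₀ : ℝ, 1 ≤ A ∧ 2 ≤ T₀ ∧ ∀ T : ℝ, T₀ ≤ T →
      volume {t : ℝ | t ∈ Icc T (C₂ * T) ∧
        A * Real.sqrt (Real.log (Real.log T)) < |YY δ W T t|} ≤ ENNReal.ofReal (ε * T) := by
  obtain ⟨N, hN⟩ := iyc_pow C₂
  obtain ⟨A, T₀, hA, hT₀, h⟩ := Y.y_absR N δ W ε hδ hδ1 hW hε
  refine ⟨A, T₀, hA, hT₀, fun T hT => (measure_mono ?_).trans (h T hT)⟩
  rintro t ⟨ht, h1⟩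
  exact ⟨iyc_mem (by linarith) hN ht, h1⟩

theorem y_parC (C₂ : ℝ) (δ W ε : ℝ) (hδ : 0 < δ) (hδ1 : δ ≤ 1 / 100) (hW : 1 ≤ W) (hε : 0 < ε) :
    ∃ A T₀ : ℝ, 1 ≤ A ∧ 2 ≤ T₀ ∧ ∀ T : ℝ, T₀ ≤ T → ∀ T' : ℝ, T ≤ T' → T' ≤ C₂ * T →
      volume {t : ℝ | t ∈ Icc T (C₂ * T) ∧ A < |YY δ W T' t - YY δ W T t|} ≤
        ENNReal.ofReal (ε * T) := by
  obtain ⟨N, hN⟩ := iyc_pow C₂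
  obtain ⟨A, T₀, hA, hT₀, h⟩ := Y.y_parR N δ W ε hδ hδ1 hW hε
  refine ⟨A, T₀, hA, hT₀, fun T hT T' h1 h2 => (measure_mono ?_).trans (h T hT T' h1
    (h2.trans (mul_le_mul_of_nonneg_right hN (by linarith))))⟩
  rintro t ⟨ht, h1⟩
  exact ⟨iyc_mem (by linarith) hN ht, h1⟩

end Pool.Agent.Lib.MP_ec260d_ntB
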